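import Pool.Agent.Lib.MP_8ebc20_an.Defs

/-!
# BL: the polynomial near infinity in the logarithmic coordinate

PROOFS. `low_bound`: `f = X ^ d + g` with `g.natDegree < d` (`Polynomial.Monic`, `eraseLead`), and
`‖g z‖ ≤ ∑ i < d, ‖g.coeff i‖ ‖z‖ ^ i ≤ C ‖z‖ ^ (d - 1)` for `1 ≤ ‖z‖`.
`exists_rho`: `ρ = max 1 (C / ε)` : `C ‖z‖ ^ (d - 1) ≤ ε ‖z‖ ^ d` if `C ≤ ε ‖z‖`.
`exists_q`: for `log ρ < ζ.re` put `x = (ev f (exp ζ) - exp ζ ^ d) / exp ζ ^ d`, `‖x‖ ≤ 1 / 16`, and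
`q ζ = Complex.log (1 + x)`, holomorphic as `1 + x` is in the slit plane; `‖q ζ‖ ≤ 3/2 ‖x‖`
(`Complex.norm_log_one_add_half_le_self`); `exp (q ζ) = 1 + x`; periodic because it is a function of `exp ζ`.
-/

set_option autoImplicit false

namespace Pool.Agent.JH

open Polynomial Set Metric Filter Topology

variable {f : ℂ[X]}

theorem low_bound (hd : 1 ≤ f.natDegree) (hm : f.Monic) :
    ∃ C : ℝ, 0 ≤ C ∧ ∀ z : ℂ, 1 ≤ ‖z‖ →
      ‖ev f z - z ^ f.natDegree‖ ≤ C * ‖z‖ ^ (f.natDegree - 1) := by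
  refine ⟨∑ i ∈ Finset.range f.natDegree, ‖f.eraseLead.coeff i‖,
    Finset.sum_nonneg fun i _ => norm_nonneg _, fun z hz => ?_⟩
  have h1 : ev f z - z ^ f.natDegree = f.eraseLead.eval z := by
    have h2 := congrArg (fun p => Polynomial.eval z p) (Polynomial.eraseLead_add_C_mul_X_pow f)
    simp only [Polynomial.eval_add, Polynomial.eval_mul, Polynomial.eval_C, Polynomial.eval_pow,
      Polynomial.eval_X] at h2
    rw [hm.leadingCoeff, one_mul] at h2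
    show f.eval z - z ^ f.natDegree = _
    rw [← h2]
    ring
  have h3 : f.eraseLead.natDegree < f.natDegree := by
    have := f.eraseLead_natDegree_le
    omega
  rw [h1, Polynomial.eval_eq_sum_range' h3, Finset.sum_mul]
  refine (norm_sum_le _ _).trans (Finset.sum_le_sum fun i hi => ?_)
  rw [norm_mul, norm_pow]
  refine mul_le_mul_of_nonneg_left ?_ (norm_nonneg _)
  have hi' := Finset.mem_range.1 hi
  exact pow_le_pow_right₀ hz (by omega)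

theorem exists_rho (hd : 1 ≤ f.natDegree) (hm : f.Monic) {ε : ℝ} (hε : 0 < ε) :
    ∃ ρ : ℝ, 1 ≤ ρ ∧ ∀ z : ℂ, ρ ≤ ‖z‖ →
      ‖ev f z - z ^ f.natDegree‖ ≤ ε * ‖z‖ ^ f.natDegree := by
  obtain ⟨C, hC, h⟩ := low_bound hd hm
  refine ⟨max 1 (C / ε), le_max_left _ _, fun z hz => ?_⟩
  have h1 : 1 ≤ ‖z‖ := (le_max_left _ _).trans hz
  have h2 : C ≤ ε * ‖z‖ := by
    have h3 : C / ε ≤ ‖z‖ := (le_max_right _ _).trans hz
    rw [div_le_iff₀ hε] at h3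
    linarith
  calc ‖ev f z - z ^ f.natDegree‖ ≤ C * ‖z‖ ^ (f.natDegree - 1) := h z h1
    _ ≤ ε * ‖z‖ * ‖z‖ ^ (f.natDegree - 1) := mul_le_mul_of_nonneg_right h2 (by positivity)
    _ = ε * ‖z‖ ^ f.natDegree := by
      rw [mul_assoc, ← pow_succ', Nat.sub_add_cancel hd]

theorem exists_q {ρ : ℝ} (hρ : 1 ≤ ρ)
    (hf : ∀ z : ℂ, ρ ≤ ‖z‖ → ‖ev f z - z ^ f.natDegree‖ ≤ 1 / 16 * ‖z‖ ^ f.natDegree) :
    ∃ q : ℂ → ℂ, DifferentiableOn ℂ q {ζ | Real.log ρ < ζ.re} ∧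
      (∀ ζ : ℂ, Real.log ρ < ζ.re → ‖q ζ‖ ≤ 1 / 8) ∧
      (∀ ζ : ℂ, Real.log ρ < ζ.re → q (ζ + 2 * Real.pi * Complex.I) = q ζ) ∧
      (∀ ζ : ℂ, Real.log ρ < ζ.re →
        ev f (Complex.exp ζ) = Complex.exp (f.natDegree * ζ + q ζ)) ∧
      ∀ ρ₁ η₁ : ℝ, ρ ≤ ρ₁ →
        (∀ z : ℂ, ρ₁ ≤ ‖z‖ → ‖ev f z - z ^ f.natDegree‖ ≤ η₁ * ‖z‖ ^ f.natDegree) →
        ∀ ζ : ℂ, Real.log ρ < ζ.re → Real.log ρ₁ ≤ ζ.re → ‖q ζ‖ ≤ 3 / 2 * η₁ := by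
  set d := f.natDegree with hd
  have hρ0 : 0 < ρ := by linarith
  have hexp : ∀ (ρ' : ℝ), 0 < ρ' → ∀ ζ : ℂ, Real.log ρ' ≤ ζ.re → ρ' ≤ ‖Complex.exp ζ‖ := by
    intro ρ' h0 ζ h1
    rw [Complex.norm_exp]
    calc ρ' = Real.exp (Real.log ρ') := (Real.exp_log h0).symm
      _ ≤ Real.exp ζ.re := Real.exp_le_exp.2 h1
  let x : ℂ → ℂ := fun ζ => (ev f (Complex.exp ζ) - Complex.exp ζ ^ d) / Complex.exp ζ ^ d
  have hx0 : ∀ (ρ' η' : ℝ), 0 < ρ' →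
      (∀ z : ℂ, ρ' ≤ ‖z‖ → ‖ev f z - z ^ d‖ ≤ η' * ‖z‖ ^ d) →
      ∀ ζ : ℂ, Real.log ρ' ≤ ζ.re → ‖x ζ‖ ≤ η' := by
    intro ρ' η' h0 h1 ζ h2
    have h3 := h1 _ (hexp ρ' h0 ζ h2)
    have h4 : 0 < ‖Complex.exp ζ‖ ^ d := pow_pos (norm_pos_iff.2 (Complex.exp_ne_zero ζ)) d
    show ‖(ev f (Complex.exp ζ) - Complex.exp ζ ^ d) / Complex.exp ζ ^ d‖ ≤ η'
    rw [norm_div, norm_pow, div_le_iff₀ h4]
    exact h3
  have hx : ∀ ζ : ℂ, Real.log ρ < ζ.re → ‖x ζ‖ ≤ 1 / 16 :=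
    fun ζ hζ => hx0 ρ (1 / 16) hρ0 hf ζ hζ.le
  have hslit : ∀ ζ : ℂ, Real.log ρ < ζ.re → 1 + x ζ ∈ Complex.slitPlane := fun ζ hζ =>
    Complex.mem_slitPlane_of_norm_lt_one (lt_of_le_of_lt (hx ζ hζ) (by norm_num))
  have hdx : Differentiable ℂ x := by
    have h1 : Differentiable ℂ (ev f) := f.differentiable
    have h2 : Differentiable ℂ fun ζ : ℂ => ev f (Complex.exp ζ) := h1.comp Complex.differentiable_exp
    have h3 : Differentiable ℂ fun ζ : ℂ => Complex.exp ζ ^ d := Complex.differentiable_exp.pow d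
    exact (h2.sub h3).div h3 fun ζ => pow_ne_zero _ (Complex.exp_ne_zero ζ)
  have hq1 : ∀ ζ : ℂ, Real.log ρ < ζ.re → ‖Complex.log (1 + x ζ)‖ ≤ 3 / 2 * ‖x ζ‖ := fun ζ hζ =>
    Complex.norm_log_one_add_half_le_self ((hx ζ hζ).trans (by norm_num))
  refine ⟨fun ζ => Complex.log (1 + x ζ), ?_, ?_, ?_, ?_, ?_⟩
  · intro ζ hζ
    exact (((differentiableAt_const _).add (hdx ζ)).clog (hslit ζ hζ)).differentiableWithinAt
  · intro ζ hζ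
    have h1 := hq1 ζ hζ
    have h2 := hx ζ hζ
    show ‖Complex.log (1 + x ζ)‖ ≤ 1 / 8
    linarith
  · intro ζ _
    show Complex.log (1 + x (ζ + 2 * Real.pi * Complex.I)) = Complex.log (1 + x ζ)
    have h1 : Complex.exp (ζ + 2 * Real.pi * Complex.I) = Complex.exp ζ := Complex.exp_periodic ζ
    simp only [x, h1]
  · intro ζ hζ
    have h1 : Complex.exp (Complex.log (1 + x ζ)) = 1 + x ζ :=
      Complex.exp_log (Complex.slitPlane_ne_zero (hslit ζ hζ))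
    have h0 : Complex.exp ζ ^ d ≠ 0 := pow_ne_zero _ (Complex.exp_ne_zero ζ)
    rw [Complex.exp_add, h1, Complex.exp_nat_mul]
    show ev f (Complex.exp ζ) = Complex.exp ζ ^ d *
      (1 + (ev f (Complex.exp ζ) - Complex.exp ζ ^ d) / Complex.exp ζ ^ d)
    rw [mul_add, mul_one, mul_div_cancel₀ _ h0]
    ring
  · intro ρ₁ η₁ h1 h2 ζ hζ hζ1
    have h3 := hx0 ρ₁ η₁ (by linarith) h2 ζ hζ1
    have h4 := hq1 ζ hζ
    show ‖Complex.log (1 + x ζ)‖ ≤ 3 / 2 * η₁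
    linarith

end Pool.Agent.JH
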