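import Pool.Agent.Lib.MP_8ebc20_an.Defs

/-!
# BAS1: the escape radius and the filled Julia set

PROOFS. `RR_spec`: write `f = X * g + C c` (`Polynomial.divX`), `g` of degree `>= 1`, so
`‖g z‖ → ∞` (`Polynomial.tendsto_norm_atTop` or similar) and `‖f z‖ ≥ ‖z‖ ‖g z‖ - ‖c‖ ≥ 2 ‖z‖` for
large `‖z‖`; then `Classical.epsilon_spec`.
`grow`: induction.  `mem_K_iff`: if `‖f^[n] z‖ ≥ RR` for some `n` then by `grow` the orbit is unbounded
(`2 ^ m * RR`, `RR ≥ 1`); the converse is clear.  `ev_mem_K`: shift of the orbit.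
`isCompact_K`: by `mem_K_iff` with `≤`?  It is closed: `z ∈ K ↔ ∀ n, ‖f^[n] z‖ ≤ RR` as
`‖f^[n] z‖ = RR` would give `‖f^[n+1] z‖ ≥ 2 RR > RR`; bounded by `n = 0`.
`escape`: for every `z ∈ Q` there is `n` with `RR < ‖f^[n] z‖` (first `≥ RR`, then one more step), an
open condition which persists; compactness gives one `n₀` for all of `Q` (use
`IsCompact.elim_directed_cover` or `induction_on`), then `‖f^[n₀ + m] z‖ ≥ 2 ^ m * RR`.
`K_nonempty`: a root of `f - X` (`IsAlgClosed.exists_root`) is a fixed point.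
-/

set_option autoImplicit false

namespace Pool.Agent.JH

open Polynomial Set Metric Filter Topology

variable {f : ℂ[X]}

theorem RR_spec (hd : 2 ≤ f.natDegree) : 1 ≤ RR f ∧ ∀ z : ℂ, RR f ≤ ‖z‖ → 2 * ‖z‖ ≤ ‖ev f z‖ := by
  have hex : ∃ R : ℝ, 1 ≤ R ∧ ∀ z : ℂ, R ≤ ‖z‖ → 2 * ‖z‖ ≤ ‖ev f z‖ := by
    have hdeg : 0 < (divX f).degree := by
      rw [← natDegree_pos_iff_degree_pos, natDegree_divX_eq_natDegree_tsub_one]
      omega
    have h1 : Tendsto (fun z : ℂ => ‖z‖) (comap (fun z : ℂ => ‖z‖) atTop) atTop := tendsto_comap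
    have h2 := Polynomial.tendsto_norm_atTop (divX f) hdeg h1
    have h3 : ∀ᶠ z : ℂ in comap (fun z : ℂ => ‖z‖) atTop, 3 ≤ ‖(divX f).eval z‖ :=
      h2.eventually (eventually_ge_atTop 3)
    obtain ⟨R, -, hR⟩ := (atTop_basis.comap (fun z : ℂ => ‖z‖)).eventually_iff.1 h3
    refine ⟨max 1 (max R ‖f.coeff 0‖), le_max_left _ _, fun z hz => ?_⟩
    have hz1 : R ≤ ‖z‖ := (le_max_left _ _).trans ((le_max_right _ _).trans hz)
    have hz2 : ‖f.coeff 0‖ ≤ ‖z‖ := (le_max_right _ _).trans ((le_max_right _ _).trans hz)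
    have h4 : 3 ≤ ‖(divX f).eval z‖ := hR hz1
    have h5 : ev f z = (divX f).eval z * z + f.coeff 0 := by
      unfold ev
      conv_lhs => rw [← divX_mul_X_add f]
      simp
    rw [h5]
    have h6 : ‖(divX f).eval z * z‖ ≤ ‖(divX f).eval z * z + f.coeff 0‖ + ‖f.coeff 0‖ := by
      have := norm_sub_le ((divX f).eval z * z + f.coeff 0) (f.coeff 0)
      rwa [add_sub_cancel_right] at this
    rw [norm_mul] at h6
    have h7 : 3 * ‖z‖ ≤ ‖(divX f).eval z‖ * ‖z‖ := mul_le_mul_of_nonneg_right h4 (norm_nonneg z)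
    linarith
  exact Classical.epsilon_spec hex

theorem continuous_ev : Continuous (ev f) := f.continuous

theorem continuous_it (n : ℕ) : Continuous ((ev f)^[n]) := continuous_ev.iterate n

theorem grow (hd : 2 ≤ f.natDegree) {z : ℂ} (hz : RR f ≤ ‖z‖) (n : ℕ) :
    2 ^ n * ‖z‖ ≤ ‖(ev f)^[n] z‖ := by
  induction n with
  | zero => simp
  | succ n ih =>
    have h1 : (1 : ℝ) ≤ 2 ^ n := one_le_pow₀ (by norm_num)
    have h2 : RR f ≤ ‖(ev f)^[n] z‖ := by
      refine (hz.trans ?_).trans ih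
      exact le_mul_of_one_le_left (norm_nonneg z) h1
    have h3 := (RR_spec hd).2 _ h2
    rw [Function.iterate_succ_apply']
    calc 2 ^ (n + 1) * ‖z‖ = 2 * (2 ^ n * ‖z‖) := by ring
      _ ≤ 2 * ‖(ev f)^[n] z‖ := by linarith
      _ ≤ _ := h3

theorem mem_K_iff (hd : 2 ≤ f.natDegree) {z : ℂ} :
    z ∈ KSet f ↔ ∀ n, ‖(ev f)^[n] z‖ < RR f := by
  constructor
  · intro hz n
    by_contra hcon
    have hn : RR f ≤ ‖(ev f)^[n] z‖ := not_lt.1 hcon
    obtain ⟨C, hC⟩ := (isBounded_iff_forall_norm_le).1 (show Bornology.IsBounded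
      (Set.range fun n : ℕ => (ev f)^[n] z) from hz)
    obtain ⟨m, hm⟩ := pow_unbounded_of_one_lt C (one_lt_two : (1 : ℝ) < 2)
    have h1 := grow hd hn m
    have h2 := hC ((ev f)^[m + n] z) ⟨m + n, rfl⟩
    rw [Function.iterate_add_apply] at h2
    have h3 : (1 : ℝ) ≤ ‖(ev f)^[n] z‖ := (RR_spec hd).1.trans hn
    have h4 : (2 : ℝ) ^ m ≤ 2 ^ m * ‖(ev f)^[n] z‖ :=
      le_mul_of_one_le_right (by positivity) h3
    linarith
  · intro h
    change Bornology.IsBounded (Set.range fun n : ℕ => (ev f)^[n] z)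
    refine (isBounded_iff_forall_norm_le).2 ⟨RR f, ?_⟩
    rintro _ ⟨n, rfl⟩
    exact (h n).le

theorem ev_mem_K (hd : 2 ≤ f.natDegree) {z : ℂ} : ev f z ∈ KSet f ↔ z ∈ KSet f := by
  rw [mem_K_iff hd, mem_K_iff hd]
  constructor
  · intro h n
    cases n with
    | zero =>
      by_contra hcon
      have h1 : RR f ≤ ‖z‖ := not_lt.1 hcon
      have h2 := (RR_spec hd).2 z h1
      have h3 := h 0
      have h4 := (RR_spec hd).1
      simp only [Function.iterate_zero, id_eq] at h3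
      linarith
    | succ n =>
      rw [Function.iterate_succ_apply]
      exact h n
  · intro h n
    rw [← Function.iterate_succ_apply]
    exact h (n + 1)

theorem it_mem_K (hd : 2 ≤ f.natDegree) (n : ℕ) {z : ℂ} : (ev f)^[n] z ∈ KSet f ↔ z ∈ KSet f := by
  induction n with
  | zero => simp
  | succ n ih =>
    rw [Function.iterate_succ_apply', ev_mem_K hd]
    exact ih

theorem isCompact_K (hd : 2 ≤ f.natDegree) : IsCompact (KSet f) := by
  have h1 : KSet f = ⋂ n : ℕ, {z : ℂ | ‖(ev f)^[n] z‖ ≤ RR f} := by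
    ext z
    rw [mem_K_iff hd, mem_iInter]
    constructor
    · intro h n
      exact (h n).le
    · intro h n
      refine lt_of_le_of_ne (h n) fun he => ?_
      have h2 := (RR_spec hd).2 _ he.ge
      have h3 : ‖(ev f)^[n + 1] z‖ ≤ RR f := h (n + 1)
      rw [Function.iterate_succ_apply'] at h3
      have h4 := (RR_spec hd).1
      rw [he] at h2
      linarith
  refine Metric.isCompact_of_isClosed_isBounded ?_ ?_
  · rw [h1]
    exact isClosed_iInter fun n => isClosed_le (continuous_it n).norm continuous_const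
  · refine (isBounded_iff_forall_norm_le).2 ⟨RR f, fun z hz => ?_⟩
    exact ((mem_K_iff hd).1 hz 0).le

theorem K_nonempty (hd : 2 ≤ f.natDegree) : (KSet f).Nonempty := by
  have hdeg : (f - X).natDegree = f.natDegree := by
    refine natDegree_sub_eq_left_of_natDegree_lt ?_
    rw [natDegree_X]
    omega
  have h1 : (f - X).degree ≠ 0 := by
    intro h0
    have := natDegree_eq_of_degree_eq_some (n := 0) h0
    omega
  obtain ⟨z, hz⟩ := IsAlgClosed.exists_root (f - X) h1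
  have hz' : ev f z = z := by
    have h2 : (f - X).eval z = 0 := hz
    simp only [eval_sub, eval_X, sub_eq_zero] at h2
    exact h2
  refine ⟨z, (mem_K_iff hd).2 fun n => ?_⟩
  rw [Function.iterate_fixed hz']
  by_contra hcon
  have h2 := (RR_spec hd).2 z (not_lt.1 hcon)
  rw [hz'] at h2
  have h3 := (RR_spec hd).1
  have h4 := not_lt.1 hcon
  linarith

theorem escape (hd : 2 ≤ f.natDegree) {Q : Set ℂ} (hQ : IsCompact Q) (hQK : Q ⊆ (KSet f)ᶜ) (M : ℝ) :
    ∃ N : ℕ, ∀ n ≥ N, ∀ z ∈ Q, M ≤ ‖(ev f)^[n] z‖ := by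
  have hR := (RR_spec hd).1
  have hmono : ∀ n m : ℕ, n ≤ m → {z : ℂ | RR f < ‖(ev f)^[n] z‖} ⊆
      {z : ℂ | RR f < ‖(ev f)^[m] z‖} := by
    intro n m hnm z hz
    obtain ⟨k, rfl⟩ := Nat.exists_eq_add_of_le hnm
    have hz' : RR f < ‖(ev f)^[n] z‖ := hz
    have h1 := grow hd hz'.le k
    have h2 : (1 : ℝ) ≤ 2 ^ k := one_le_pow₀ (by norm_num)
    have h3 : ‖(ev f)^[n] z‖ ≤ 2 ^ k * ‖(ev f)^[n] z‖ :=
      le_mul_of_one_le_left (norm_nonneg _) h2
    change RR f < ‖(ev f)^[n + k] z‖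
    rw [add_comm n k, Function.iterate_add_apply]
    linarith
  obtain ⟨N, hN⟩ := hQ.elim_directed_cover (fun n : ℕ => {z : ℂ | RR f < ‖(ev f)^[n] z‖})
    (fun n => isOpen_lt continuous_const (continuous_it n).norm) (by
      intro z hz
      have h1 : ¬ ∀ n, ‖(ev f)^[n] z‖ < RR f := fun h => hQK hz ((mem_K_iff hd).2 h)
      push Not at h1
      obtain ⟨n, hn⟩ := h1
      refine mem_iUnion.2 ⟨n + 1, ?_⟩
      change RR f < ‖(ev f)^[n + 1] z‖
      have h2 := (RR_spec hd).2 _ hn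
      rw [Function.iterate_succ_apply']
      linarith)
    (fun n m => ⟨max n m, hmono _ _ (le_max_left _ _), hmono _ _ (le_max_right _ _)⟩)
  obtain ⟨m, hm⟩ := pow_unbounded_of_one_lt M (one_lt_two : (1 : ℝ) < 2)
  refine ⟨N + m, fun n hn z hz => ?_⟩
  obtain ⟨k, rfl⟩ := Nat.exists_eq_add_of_le hn
  have h1 : RR f < ‖(ev f)^[N] z‖ := hN hz
  have h2 := grow hd h1.le (m + k)
  have h3 : (2 : ℝ) ^ m ≤ 2 ^ (m + k) := pow_le_pow_right₀ (by norm_num) (Nat.le_add_right _ _)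
  have h4 : (2 : ℝ) ^ (m + k) ≤ 2 ^ (m + k) * ‖(ev f)^[N] z‖ :=
    le_mul_of_one_le_right (by positivity) (by linarith)
  have h5 : N + m + k = (m + k) + N := by ring
  rw [h5, Function.iterate_add_apply]
  linarith

end Pool.Agent.JH
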