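import Pool.Agent.Lib.MP_8ebc20_an.BQ
import Pool.Agent.Lib.MP_8ebc20_an.BL
import Pool.Agent.Lib.MP_8ebc20_an.Bas1

/-!
# BE: the Bottcher map near infinity

PROOF of `exists_near`.  `q` from `exists_q`, `e` from `exists_fix` with `σ₀ = log ρ + 1` (so `σ₀ - 1 = log ρ`,
`0 ≤ σ₀`) and `η = 1 / 8`.  `E w = exp (w + e w)` on `{σ < w.re}`, `σ = log ρ + 2`.
Holomorphic, `2 π I`-periodic.  `fe`: `ev f (exp (w + e w)) = exp (d (w + e w) + q (w + e w)) = exp (d w + e (d w))`.
For `σ < w.re` the closed disc of radius `1` about `w` is in `{σ₀ < re}` (`σ = σ₀ + 1`), so `‖deriv e w‖ ≤ 1/8`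
(`Complex.norm_deriv_le_of_forall_mem_sphere_norm_le`), and `e` is `1/4`-Lipschitz on the convex set `{σ < re}`.
`dne`: `deriv E w = E w * (1 + deriv e w) ≠ 0`.
`inj`: `E w = E w'` gives `w + e w = w' + e w' + 2 π I k`; with `w'' = w' + 2 π I k`, `e w'' = e w'`,
`‖w - w''‖ = ‖e w - e w''‖ ≤ 1/4 ‖w - w''‖`, so `w = w''` (change the sign of `k`).
`mem`: by `fe`, `(ev f)^[n] (E w) = E (d ^ n * w)` has norm `≥ exp (d ^ n w.re - 1/8) → ∞` (`0 < w.re`, `d ≥ 2`),
so the orbit is not bounded (`mem_K_iff`).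
`bound`: for `log ρ₁ + 2 ≤ w.re` apply the last part of `exists_fix` with `s = log ρ₁ + 2 > σ₀` and
`3/2 η₁` (for `s - 1/8 ≤ ζ.re` both conditions of `exists_q` hold): `‖e w‖ ≤ 3/2 η₁`, also `‖e w‖ ≤ 1/8`, so
`‖exp (e w) - 1‖ ≤ 2 ‖e w‖ ≤ 3 η₁` (`Complex.norm_exp_sub_one_le`).  (`0 ≤ η₁` from the hypothesis.)
`asym`: `exists_rho` with `ε / 5` (`max` with `ρ`) and `bound`.
`surj`: let `exp (σ + 1) ≤ ‖z‖`, `ζ = Complex.log z`, `σ + 1 ≤ ζ.re`; the map `w ↦ ζ - e w` maps the complete set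
`closedBall ζ (1/4) ⊆ {σ < re}` into itself (`‖e‖ ≤ 1/8`) and is a contraction (`1/4`), so it has a fixed point `w`
(`ContractingWith.exists_fixedPoint'` or an iteration): `w + e w = ζ`, `E w = z`.
-/

set_option autoImplicit false

namespace Pool.Agent.JH

open Polynomial Set Metric Filter Topology

variable {f : ℂ[X]}

private theorem per_int {e : ℂ → ℂ} {σ : ℝ}
    (h : ∀ w : ℂ, σ < w.re → e (w + 2 * Real.pi * Complex.I) = e w) (w : ℂ) (hw : σ < w.re)
    (k : ℤ) : e (w + 2 * Real.pi * Complex.I * k) = e w := by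
  have hre : ∀ k : ℤ, (w + 2 * Real.pi * Complex.I * k).re = w.re := by
    intro k
    simp
  induction k using Int.induction_on with
  | zero => simp
  | succ n ih =>
    rw [← ih, ← h (w + 2 * Real.pi * Complex.I * ((n : ℤ) : ℂ)) (by rw [hre]; exact hw)]
    congr 1
    push_cast
    ring
  | pred n ih =>
    rw [← ih, ← h (w + 2 * Real.pi * Complex.I * ((-(n : ℤ) - 1 : ℤ) : ℂ)) (by rw [hre]; exact hw)]
    congr 1
    push_cast
    ring

theorem exists_near (hd : 2 ≤ f.natDegree) (hm : f.Monic) {ρ : ℝ} (hρ : 1 ≤ ρ)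
    (hf : ∀ z : ℂ, ρ ≤ ‖z‖ → ‖ev f z - z ^ f.natDegree‖ ≤ 1 / 16 * ‖z‖ ^ f.natDegree) :
    ∃ E : ℂ → ℂ, BotS f (Real.log ρ + 2) E ∧
      (∀ z : ℂ, Real.exp (Real.log ρ + 3) ≤ ‖z‖ → ∃ w : ℂ, Real.log ρ + 2 < w.re ∧ E w = z) ∧
      ∀ ρ₁ η₁ : ℝ, ρ ≤ ρ₁ →
        (∀ z : ℂ, ρ₁ ≤ ‖z‖ → ‖ev f z - z ^ f.natDegree‖ ≤ η₁ * ‖z‖ ^ f.natDegree) →
        ∀ w : ℂ, Real.log ρ + 2 < w.re → Real.log ρ₁ + 2 ≤ w.re →
          ‖E w - Complex.exp w‖ ≤ 4 * η₁ * ‖Complex.exp w‖ := by
  obtain ⟨q, hqd, hqb, hqp, hqf, hq1⟩ := exists_q hρ hf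
  have hL : 0 ≤ Real.log ρ := Real.log_nonneg hρ
  have hρ0 : 0 < ρ := by linarith
  have hlogm : ∀ ρ₁ : ℝ, ρ ≤ ρ₁ → Real.log ρ ≤ Real.log ρ₁ := fun ρ₁ h => Real.log_le_log hρ0 h
  generalize hLd : Real.log ρ = L at *
  have hs : L + 1 - 1 = L := by ring
  obtain ⟨e, hed, heb, hep, hef, he1⟩ := exists_fix (q := q) (σ := L + 1) (η := 1 / 8) hd
    (by linarith) (by norm_num) le_rfl (by rw [hs]; exact hqd)
    (fun ζ h => hqb ζ (by linarith)) (fun ζ h => hqp ζ (by linarith))
  have hoP : IsOpen {w : ℂ | L + 1 < w.re} := isOpen_lt continuous_const Complex.continuous_re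
  have hoS : IsOpen {w : ℂ | L + 2 < w.re} := isOpen_lt continuous_const Complex.continuous_re
  have hsub : {w : ℂ | L + 2 < w.re} ⊆ {w : ℂ | L + 1 < w.re} := by
    intro w hw
    have : L + 2 < w.re := hw
    show L + 1 < w.re
    linarith
  have hdat : ∀ w : ℂ, L + 2 < w.re → DifferentiableAt ℂ e w := fun w hw =>
    hed.differentiableAt (hoP.mem_nhds (hsub hw))
  have hder : ∀ w : ℂ, L + 2 < w.re → ‖deriv e w‖ ≤ 1 / 8 := by
    intro w hw
    have hball : closedBall w 1 ⊆ {w : ℂ | L + 1 < w.re} := by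
      intro u hu
      have h1 : ‖u - w‖ ≤ 1 := by simpa [dist_eq_norm] using hu
      have h2 : |(u - w).re| ≤ ‖u - w‖ := Complex.abs_re_le_norm _
      have h3 := (abs_le.1 (h2.trans h1)).1
      rw [Complex.sub_re] at h3
      show L + 1 < u.re
      linarith
    have h1 : DiffContOnCl ℂ e (ball w 1) := by
      refine DifferentiableOn.diffContOnCl ?_
      rw [closure_ball w one_ne_zero]
      exact hed.mono hball
    have h2 := Complex.norm_deriv_le_of_forall_mem_sphere_norm_le (C := 1 / 8) one_pos h1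
      (fun u hu => heb u (hball (sphere_subset_closedBall hu)))
    simpa using h2
  have hconv : Convex ℝ {w : ℂ | L + 2 < w.re} := convex_halfSpace_re_gt _
  have hlip : ∀ w w' : ℂ, L + 2 < w.re → L + 2 < w'.re → ‖e w - e w'‖ ≤ 1 / 8 * ‖w - w'‖ := by
    intro w w' hw hw'
    exact hconv.norm_image_sub_le_of_norm_deriv_le (fun x hx => hdat x hx)
      (fun x hx => hder x hx) hw' hw
  have hre : ∀ w : ℂ, L + 1 < w.re → w.re - 1 / 8 ≤ (w + e w).re := by
    intro w hw
    have h1 : |(e w).re| ≤ ‖e w‖ := Complex.abs_re_le_norm _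
    have h2 := (abs_le.1 (h1.trans (heb w hw))).1
    rw [Complex.add_re]
    linarith
  have hmulre : ∀ (n : ℕ) (w : ℂ), (((n : ℕ) : ℂ) * w).re = n * w.re := by
    intro n w
    simp
  have hfe : ∀ w : ℂ, L + 2 < w.re →
      ev f (Complex.exp (w + e w)) =
        Complex.exp (f.natDegree * w + e (f.natDegree * w)) := by
    intro w hw
    have h1 : L < (w + e w).re := by
      have := hre w (hsub hw)
      linarith
    rw [hqf _ h1, ← hef w (hsub hw)]
    congr 1
    ring
  have hbound : ∀ ρ₁ η₁ : ℝ, ρ ≤ ρ₁ →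
        (∀ z : ℂ, ρ₁ ≤ ‖z‖ → ‖ev f z - z ^ f.natDegree‖ ≤ η₁ * ‖z‖ ^ f.natDegree) →
        ∀ w : ℂ, L + 2 < w.re → Real.log ρ₁ + 2 ≤ w.re →
          ‖Complex.exp (w + e w) - Complex.exp w‖ ≤ 4 * η₁ * ‖Complex.exp w‖ := by
    intro ρ₁ η₁ h1 h2 w hw hw1
    have h3 := hlogm ρ₁ h1
    have h4 : ‖e w‖ ≤ 3 / 2 * η₁ := by
      refine he1 (Real.log ρ₁ + 2) (3 / 2 * η₁) (by linarith) (fun ζ hζ => ?_) w hw1
      exact hq1 ρ₁ η₁ h1 h2 ζ (by linarith) (by linarith)
    have h5 : ‖e w‖ ≤ 1 := (heb w (hsub hw)).trans (by norm_num)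
    have h6 := Complex.norm_exp_sub_one_le h5
    have h7 : Complex.exp (w + e w) - Complex.exp w =
        (Complex.exp (e w) - 1) * Complex.exp w := by
      rw [Complex.exp_add]
      ring
    rw [h7, norm_mul]
    refine mul_le_mul_of_nonneg_right ?_ (norm_nonneg _)
    have h8 := norm_nonneg (e w)
    linarith
  refine ⟨fun w => Complex.exp (w + e w), ⟨?_, ?_, hfe, ?_, ?_, ?_, ?_⟩, ?_, hbound⟩
  · -- dE
    exact (differentiableOn_id.add (hed.mono hsub)).cexp
  · -- per
    intro w hw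
    show Complex.exp (w + 2 * Real.pi * Complex.I + e (w + 2 * Real.pi * Complex.I)) =
      Complex.exp (w + e w)
    rw [hep w (hsub hw), add_right_comm, Complex.exp_add, Complex.exp_two_pi_mul_I, mul_one]
  · -- inj
    intro w w' hw hw' h
    obtain ⟨n, hn⟩ := Complex.exp_eq_exp_iff_exists_int.1 h
    have h1 : e (w' + 2 * Real.pi * Complex.I * n) = e w' :=
      per_int hep w' (hsub hw') n
    have h2 : L + 2 < (w' + 2 * Real.pi * Complex.I * n).re := by
      have : (w' + 2 * Real.pi * Complex.I * n).re = w'.re := by simp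
      rw [this]
      exact hw'
    have h3 := hlip w (w' + 2 * Real.pi * Complex.I * n) hw h2
    have h4 : w - (w' + 2 * Real.pi * Complex.I * n) = -(e w - e (w' + 2 * Real.pi * Complex.I * n)) := by
      rw [h1]
      linear_combination hn
    rw [h4, norm_neg] at h3
    have h5 : ‖e w - e (w' + 2 * Real.pi * Complex.I * n)‖ = 0 := by
      have := norm_nonneg (e w - e (w' + 2 * Real.pi * Complex.I * n))
      linarith
    rw [norm_eq_zero] at h5
    rw [h5, neg_zero] at h4
    refine ⟨-n, ?_⟩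
    push_cast
    linear_combination -h4
  · -- mem
    intro w hw hK
    have hK' := (mem_K_iff hd).1 hK
    have hnat : ∀ n : ℕ, L + 2 < (((f.natDegree ^ n : ℕ) : ℂ) * w).re ∧
        (ev f)^[n] (Complex.exp (w + e w)) =
          Complex.exp (((f.natDegree ^ n : ℕ) : ℂ) * w + e (((f.natDegree ^ n : ℕ) : ℂ) * w)) := by
      intro n
      have hw0 : 0 < w.re := by linarith
      have hpos : L + 2 < (((f.natDegree ^ n : ℕ) : ℂ) * w).re := by
        rw [hmulre]
        have h1 : (1 : ℝ) ≤ ((f.natDegree ^ n : ℕ) : ℝ) := by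
          have : 1 ≤ f.natDegree ^ n := Nat.one_le_pow _ _ (by omega)
          exact_mod_cast this
        have h2 : w.re ≤ ((f.natDegree ^ n : ℕ) : ℝ) * w.re := le_mul_of_one_le_left hw0.le h1
        linarith
      refine ⟨hpos, ?_⟩
      clear hpos
      induction n with
      | zero => simp
      | succ n ih =>
        have hpos : L + 2 < (((f.natDegree ^ n : ℕ) : ℂ) * w).re := by
          rw [hmulre]
          have h1 : (1 : ℝ) ≤ ((f.natDegree ^ n : ℕ) : ℝ) := by
            have : 1 ≤ f.natDegree ^ n := Nat.one_le_pow _ _ (by omega)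
            exact_mod_cast this
          have h2 : w.re ≤ ((f.natDegree ^ n : ℕ) : ℝ) * w.re := le_mul_of_one_le_left hw0.le h1
          linarith
        rw [Function.iterate_succ_apply', ih, hfe _ hpos]
        have h3 : ((f.natDegree : ℕ) : ℂ) * (((f.natDegree ^ n : ℕ) : ℂ) * w) =
            ((f.natDegree ^ (n + 1) : ℕ) : ℂ) * w := by
          push_cast
          ring
        rw [h3]
    obtain ⟨n, hn⟩ := pow_unbounded_of_one_lt (RR f) (one_lt_two : (1 : ℝ) < 2)
    obtain ⟨h1, h2⟩ := hnat n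
    have h3 := hK' n
    rw [h2, Complex.norm_exp] at h3
    have h4 := hre _ (hsub h1)
    rw [hmulre] at h4
    have h5 : (2 : ℝ) ^ n ≤ ((f.natDegree ^ n : ℕ) : ℝ) := by
      push_cast
      exact pow_le_pow_left₀ (by norm_num) (by exact_mod_cast hd) n
    have h6 : (2 : ℝ) ^ n * 2 ≤ ((f.natDegree ^ n : ℕ) : ℝ) * w.re := by
      have h7 : (0 : ℝ) < 2 ^ n := by positivity
      have h8 : (2 : ℝ) ≤ w.re := by linarith
      exact mul_le_mul h5 h8 (by norm_num) (h7.le.trans h5)
    have h9 := Real.add_one_le_exp ((((f.natDegree ^ n : ℕ) : ℂ) * w +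
      e (((f.natDegree ^ n : ℕ) : ℂ) * w)).re)
    have h10 : (0 : ℝ) < 2 ^ n := by positivity
    linarith
  · -- dne
    intro w hw h0
    have h1 : HasDerivAt (fun w => Complex.exp (w + e w))
        (Complex.exp (w + e w) * (1 + deriv e w)) w :=
      ((hasDerivAt_id w).add (hdat w hw).hasDerivAt).cexp
    rw [h1.deriv] at h0
    rcases mul_eq_zero.1 h0 with h2 | h2
    · exact Complex.exp_ne_zero _ h2
    · have h3 : deriv e w = -1 := by linear_combination h2
      have h4 := hder w hw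
      rw [h3] at h4
      norm_num at h4
  · -- asym
    intro ε hε
    obtain ⟨ρ₁, hρ₁, h1⟩ := exists_rho (f := f) (by omega) hm (show (0 : ℝ) < ε / 5 by positivity)
    refine ⟨max (L + 2) (Real.log (max ρ ρ₁) + 2), fun w hw => ?_⟩
    have h2 : L + 2 < w.re := (le_max_left _ _).trans_lt hw
    have h3 : Real.log (max ρ ρ₁) + 2 ≤ w.re := ((le_max_right _ _).trans_lt hw).le
    have h4 := hbound (max ρ ρ₁) (ε / 5) (le_max_left _ _)
      (fun z hz => h1 z ((le_max_right _ _).trans hz)) w h2 h3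
    refine h4.trans ?_
    have h5 := norm_nonneg (Complex.exp w)
    have h6 : 4 * (ε / 5) ≤ ε := by linarith
    exact mul_le_mul_of_nonneg_right h6 h5
  · -- surj
    intro z hz
    have hz0 : 0 < ‖z‖ := (Real.exp_pos _).trans_le hz
    have hzne : z ≠ 0 := norm_pos_iff.1 hz0
    have hζ : L + 3 ≤ (Complex.log z).re := by
      rw [Complex.log_re]
      exact (Real.le_log_iff_exp_le hz0).2 hz
    have hin : closedBall (Complex.log z) (1 / 4) ⊆ {w : ℂ | L + 2 < w.re} := by
      intro u hu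
      have h1 : ‖u - Complex.log z‖ ≤ 1 / 4 := by simpa [dist_eq_norm] using hu
      have h2 : |(u - Complex.log z).re| ≤ ‖u - Complex.log z‖ := Complex.abs_re_le_norm _
      have h3 := (abs_le.1 (h2.trans h1)).1
      rw [Complex.sub_re] at h3
      show L + 2 < u.re
      linarith
    have hmaps : MapsTo (fun w => Complex.log z - e w) (closedBall (Complex.log z) (1 / 4))
        (closedBall (Complex.log z) (1 / 4)) := by
      intro u hu
      have h1 := heb u (hsub (hin hu))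
      show dist (Complex.log z - e u) (Complex.log z) ≤ 1 / 4
      rw [dist_eq_norm]
      have h2 : Complex.log z - e u - Complex.log z = -e u := by ring
      rw [h2, norm_neg]
      linarith
    have hcon : ContractingWith (1 / 4)
        (hmaps.restrict (fun w => Complex.log z - e w) (closedBall (Complex.log z) (1 / 4))
        (closedBall (Complex.log z) (1 / 4))) := by
      refine ⟨by
        rw [← NNReal.coe_lt_coe]
        norm_num, LipschitzWith.of_dist_le_mul fun u v => ?_⟩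
      have h1 := hlip v.1 u.1 (hin v.2) (hin u.2)
      show dist (Complex.log z - e u.1) (Complex.log z - e v.1) ≤ _ * dist u.1 v.1
      rw [dist_eq_norm, dist_eq_norm]
      have h2 : Complex.log z - e u.1 - (Complex.log z - e v.1) = e v.1 - e u.1 := by ring
      rw [h2]
      have h3 : ‖v.1 - u.1‖ = ‖u.1 - v.1‖ := norm_sub_rev _ _
      rw [h3] at h1
      refine h1.trans ?_
      refine mul_le_mul_of_nonneg_right ?_ (norm_nonneg _)
      push_cast
      norm_num
    obtain ⟨w, hw, hfix, -⟩ := ContractingWith.exists_fixedPoint'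
      (isClosed_closedBall.isComplete) hmaps hcon
      (mem_closedBall_self (by norm_num : (0 : ℝ) ≤ 1 / 4)) (edist_ne_top _ _)
    refine ⟨w, hin hw, ?_⟩
    have h1 : Complex.log z - e w = w := hfix
    have h2 : w + e w = Complex.log z := by
      linear_combination -h1
    show Complex.exp (w + e w) = z
    rw [h2, Complex.exp_log hzne]

end Pool.Agent.JH
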