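import Pool.Agent.Lib.MP_8ebc20_an.BSurj

/-!
# BEXT: the Bottcher map in the exterior of the unit disc

PROOF of `extMap`.  `ψ W = E (Complex.log W)`, and for `z ∉ K`, `ψi z = exp w` with a chosen `w`, `0 < w.re`,
`E w = z` (`ψi z = 0` on `K`).  If `0 < w.re` then `ψ (exp w) = E w`: `log (exp w)` and `w` differ by a multiple of
`2 π I` (`per_int`).  `left`: `1 < ‖W‖`, `w = log W`, `w.re = log ‖W‖ > 0`; `ψi (ψ W) = exp w'` with
`E w' = E w`, so by `inj` `exp w' = exp w = W`.  `right`, `conj` (`W ^ d = exp (d * log W)`) are clear.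
`dψ`: near `W₀`, with `L W = log (W / W₀) + log W₀` (holomorphic near `W₀`, `exp (L W) = W`), `ψ W = E (L W)`.
`dψi`: let `z₀ ∉ K`, `E w₀ = z₀`.  By `dne` and the inverse function theorem `E` has a holomorphic local inverse `l` at
`w₀` (`HasStrictDerivAt.localInverse`, `to_localInverse`; `E` is holomorphic on an open set so has a strict derivative:
`AnalyticAt.hasStrictDerivAt`), `E (l z) = z` near `z₀` and `0 < (l z).re`, so `ψi z = exp (l z)` near `z₀` (`inj`).
`asym`: from `asym` of `E` : for `‖W‖` large, `w = log W`, `‖ψ W - W‖ ≤ ε ‖W‖`.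
`EE_eq`: `ψ (exp w) = E w` for `w = s + 2 π t I`.
-/

set_option autoImplicit false

namespace Pool.Agent.JH

open Polynomial Set Metric Filter Topology

variable {f : ℂ[X]}

private theorem bext_exp {E : ℂ → ℂ} (hE : BotS f 0 E) {w w' : ℂ} (hw : 0 < w.re)
    (hw' : 0 < w'.re) (h : Complex.exp w = Complex.exp w') : E w = E w' := by
  obtain ⟨n, hn⟩ := Complex.exp_eq_exp_iff_exists_int.1 h
  have h1 : w = w' + 2 * Real.pi * Complex.I * n := by rw [hn]; ring
  rw [h1, hE.per_int hw']

private theorem bext_inj {E : ℂ → ℂ} (hE : BotS f 0 E) {w w' : ℂ} (hw : 0 < w.re)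
    (hw' : 0 < w'.re) (h : E w = E w') : Complex.exp w = Complex.exp w' := by
  obtain ⟨k, hk⟩ := hE.inj w w' hw hw' h
  rw [hk, Complex.exp_add]
  have h1 : Complex.exp (2 * Real.pi * Complex.I * k) = 1 := by
    rw [mul_comm, Complex.exp_int_mul_two_pi_mul_I]
  rw [h1, mul_one]

private theorem bext_logre {W : ℂ} (hW : 1 < ‖W‖) : 0 < (Complex.log W).re := by
  rw [Complex.log_re]
  exact Real.log_pos hW

private theorem bext_ne {W : ℂ} (hW : 1 < ‖W‖) : W ≠ 0 := by
  intro h
  rw [h, norm_zero] at hW
  linarith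

private theorem bext_open : IsOpen {w : ℂ | 0 < w.re} :=
  isOpen_lt continuous_const Complex.continuous_re

theorem BotS.extMap (hd : 2 ≤ f.natDegree) {E : ℂ → ℂ} (hE : BotS f 0 E)
    (hs : ∀ z ∈ (KSet f)ᶜ, ∃ w : ℂ, 0 < w.re ∧ E w = z) :
    ∃ ψ ψi : ℂ → ℂ, ExtMap f ψ ψi ∧
      ∀ s t : ℝ, 0 < s → EE ψ s t = E ((s : ℂ) + 2 * Real.pi * t * Complex.I) := by
  classical
  choose! ℓ hℓ1 hℓ2 using hs
  set ψ : ℂ → ℂ := fun W => E (Complex.log W) with hψ
  set ψi : ℂ → ℂ := fun z => Complex.exp (ℓ z) with hψi
  have hexp : ∀ w : ℂ, 0 < w.re → ψ (Complex.exp w) = E w := by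
    intro w hw
    have h1 : 1 < ‖Complex.exp w‖ := by
      rw [Complex.norm_exp]
      exact Real.one_lt_exp_iff.2 hw
    exact bext_exp hE (bext_logre h1) hw (Complex.exp_log (bext_ne h1))
  have hψiE : ∀ w : ℂ, 0 < w.re → ψi (E w) = Complex.exp w := by
    intro w hw
    exact bext_inj hE (hℓ1 _ (hE.mem w hw)) hw (hℓ2 _ (hE.mem w hw))
  have hdE : ∀ w : ℂ, 0 < w.re → DifferentiableAt ℂ E w := fun w hw =>
    (hE.dE w hw).differentiableAt (bext_open.mem_nhds hw)
  refine ⟨ψ, ψi, ?_, ?_⟩
  · refine ⟨?_, ?_, ?_, ?_, ?_, ?_⟩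
    · -- differentiability of ψ
      intro W₀ hW₀
      refine DifferentiableAt.differentiableWithinAt ?_
      have hW : (1 : ℝ) < ‖W₀‖ := hW₀
      have hW0 := bext_ne hW
      have hL : DifferentiableAt ℂ (fun W => Complex.log (W / W₀) + Complex.log W₀) W₀ := by
        refine DifferentiableAt.add_const _ ?_
        refine DifferentiableAt.clog (by fun_prop) ?_
        rw [div_self hW0]
        exact Complex.one_mem_slitPlane
      have hLW : Complex.log (W₀ / W₀) + Complex.log W₀ = Complex.log W₀ := by
        rw [div_self hW0, Complex.log_one, zero_add]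
      have h1 : DifferentiableAt ℂ (fun W => E (Complex.log (W / W₀) + Complex.log W₀)) W₀ := by
        have h2 : DifferentiableAt ℂ E (Complex.log (W₀ / W₀) + Complex.log W₀) := by
          rw [hLW]
          exact hdE _ (bext_logre hW)
        exact h2.comp W₀ hL
      refine h1.congr_of_eventuallyEq ?_
      have h3 : ∀ᶠ W in 𝓝 W₀, 0 < (Complex.log (W / W₀) + Complex.log W₀).re := by
        have h4 : ContinuousAt (fun W => (Complex.log (W / W₀) + Complex.log W₀).re) W₀ :=
          Complex.continuous_re.continuousAt.comp hL.continuousAt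
        have h5 : 0 < (Complex.log (W₀ / W₀) + Complex.log W₀).re := by
          rw [hLW]
          exact bext_logre hW
        exact h4.eventually (lt_mem_nhds h5)
      have h6 : ∀ᶠ W in 𝓝 W₀, 1 < ‖W‖ :=
        continuous_norm.continuousAt.eventually (lt_mem_nhds hW)
      filter_upwards [h3, h6] with W h7 h8
      refine bext_exp hE (bext_logre h8) h7 ?_
      rw [Complex.exp_log (bext_ne h8), Complex.exp_add, Complex.exp_log hW0,
        Complex.exp_log (div_ne_zero (bext_ne h8) hW0), div_mul_cancel₀ _ hW0]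
    · -- differentiability of ψi
      intro z₀ hz₀
      refine DifferentiableAt.differentiableWithinAt ?_
      set w₀ := ℓ z₀ with hw₀
      have hw0 : 0 < w₀.re := hℓ1 _ hz₀
      have hEw : E w₀ = z₀ := hℓ2 _ hz₀
      have han : AnalyticAt ℂ E w₀ :=
        (hE.dE.analyticAt (bext_open.mem_nhds hw0))
      have hst : HasStrictDerivAt E (deriv E w₀) w₀ := han.hasStrictDerivAt
      have hne := hE.dne w₀ hw0
      have hli := hst.to_localInverse hne
      have hid : ∀ᶠ z in 𝓝 (E w₀), E (hst.localInverse E (deriv E w₀) w₀ hne z) = z :=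
        hst.hasStrictFDerivAt_equiv hne |>.eventually_right_inverse
      have hval : hst.localInverse E (deriv E w₀) w₀ hne (E w₀) = w₀ :=
        (hst.hasStrictFDerivAt_equiv hne).localInverse_apply_image
      have hpos : ∀ᶠ z in 𝓝 (E w₀), 0 < (hst.localInverse E (deriv E w₀) w₀ hne z).re := by
        have h4 : ContinuousAt (fun z => (hst.localInverse E (deriv E w₀) w₀ hne z).re) (E w₀) :=
          Complex.continuous_re.continuousAt.comp hli.hasDerivAt.continuousAt
        have h5 : 0 < (hst.localInverse E (deriv E w₀) w₀ hne (E w₀)).re := by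
          rw [hval]
          exact hw0
        exact h4.eventually (lt_mem_nhds h5)
      have hd1 : DifferentiableAt ℂ
          (fun z => Complex.exp (hst.localInverse E (deriv E w₀) w₀ hne z)) (E w₀) :=
        hli.hasDerivAt.differentiableAt.cexp
      rw [← hEw]
      refine hd1.congr_of_eventuallyEq ?_
      filter_upwards [hid, hpos] with z h6 h7
      have h8 := hψiE _ h7
      rw [h6] at h8
      exact h8
    · -- left
      intro W hW
      refine ⟨hE.mem _ (bext_logre hW), ?_⟩
      have h1 := hψiE _ (bext_logre hW)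
      rw [Complex.exp_log (bext_ne hW)] at h1
      exact h1
    · -- right
      intro z hz
      refine ⟨?_, ?_⟩
      · change 1 < ‖Complex.exp (ℓ z)‖
        rw [Complex.norm_exp]
        exact Real.one_lt_exp_iff.2 (hℓ1 z hz)
      · exact (hexp _ (hℓ1 z hz)).trans (hℓ2 z hz)
    · -- conj
      intro W hW
      have h1 := hE.fe _ (bext_logre hW)
      have h2 : 0 < ((f.natDegree : ℂ) * Complex.log W).re := by
        have h3 : ((f.natDegree : ℂ) * Complex.log W).re =
            (f.natDegree : ℝ) * (Complex.log W).re := by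
          have : (f.natDegree : ℂ) = ((f.natDegree : ℝ) : ℂ) := by norm_cast
          rw [this, Complex.re_ofReal_mul]
        rw [h3]
        have : (0 : ℝ) < f.natDegree := by
          have : 0 < f.natDegree := by omega
          exact_mod_cast this
        exact mul_pos this (bext_logre hW)
      have h4 := hexp _ h2
      rw [Complex.exp_nat_mul, Complex.exp_log (bext_ne hW)] at h4
      rw [h4]
      exact h1
    · -- asym
      rw [Metric.tendsto_nhds]
      intro ε hε
      obtain ⟨s, hs⟩ := hE.asym (ε / 2) (by positivity)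
      have h1 : ∀ᶠ W : ℂ in Bornology.cobounded ℂ, max 1 (Real.exp s) < ‖W‖ :=
        tendsto_norm_cobounded_atTop.eventually_gt_atTop _
      filter_upwards [h1] with W hW
      have hW1 : 1 < ‖W‖ := (le_max_left _ _).trans_lt hW
      have hWs : s < (Complex.log W).re := by
        rw [Complex.log_re, Real.lt_log_iff_exp_lt (by linarith)]
        exact (le_max_right _ _).trans_lt hW
      have h2 := hs _ hWs
      rw [Complex.exp_log (bext_ne hW1)] at h2
      have h3 : 0 < ‖W‖ := by linarith
      rw [dist_eq_norm]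
      have h4 : ψ W / W - 1 = (E (Complex.log W) - W) / W := by
        rw [sub_div, div_self (bext_ne hW1)]
      rw [h4, norm_div, div_lt_iff₀ h3]
      calc ‖E (Complex.log W) - W‖ ≤ ε / 2 * ‖W‖ := h2
        _ < ε * ‖W‖ := by
          have : ε / 2 < ε := by linarith
          exact mul_lt_mul_of_pos_right this h3
  · intro s t hs0
    refine hexp _ ?_
    have h1 : ((s : ℂ) + 2 * Real.pi * t * Complex.I).re = s := by simp
    rw [h1]
    exact hs0

end Pool.Agent.JH
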