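import Pool.Agent.Lib.MP_8ebc20_an.BStep

/-!
# BGLUE: the Bottcher map on the whole half plane

PROOF of `exists_all`.  By induction (dependent choice, `exists_seq`-style, or `Nat.rec` on the subtype) there are `E_n` with
`BotS f (σ / d ^ n) E_n`, `E_0 = E` and `E_{n+1} = E_n` on `{σ / d ^ n < re}`; so `E_m = E_n` on
`{σ / d ^ n < re}` for all `m ≥ n`.  `σ / d ^ n → 0` (`d ≥ 2`).  For `0 < w.re` let `N w` be the least `n` with
`σ / d ^ n < w.re` and `E' w = E_{N w} w`.  Then `E' = E_n` on `{σ / d ^ n < re}` for every `n` (`N w ≤ n` there).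
All properties at `w` (and `w'`) follow from those of `E_n` with `n` large (`σ / d ^ n < w.re, w'.re`);
differentiability and `deriv` are local (`Filter.EventuallyEq.deriv_eq`, the half planes are open).
-/

set_option autoImplicit false

namespace Pool.Agent.JH

open Polynomial Set Metric Filter Topology

variable {f : ℂ[X]}

theorem BotS.exists_all (hd : 2 ≤ f.natDegree)
    (hc : ∀ c : ℂ, f.derivative.eval c = 0 → c ∈ KSet f) {σ : ℝ} (hσ : 0 < σ) {E : ℂ → ℂ}
    (hE : BotS f σ E) :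
    ∃ E' : ℂ → ℂ, BotS f 0 E' ∧ ∀ w : ℂ, σ < w.re → E' w = E w := by
  classical
  set d : ℝ := (f.natDegree : ℝ) with hdd
  have hd2 : (2 : ℝ) ≤ d := by rw [hdd]; exact_mod_cast hd
  have hd0 : 0 < d := by linarith
  have hpos : ∀ n : ℕ, 0 < σ / d ^ n := fun n => by positivity
  have step : ∀ (n : ℕ) (F : ℂ → ℂ), BotS f (σ / d ^ n) F →
      ∃ F' : ℂ → ℂ, BotS f (σ / d ^ (n + 1)) F' ∧ ∀ w : ℂ, σ / d ^ n < w.re → F' w = F w := by
    intro n F hF
    obtain ⟨F', h1, h2⟩ := BotS.ext_step hd hc (hpos n) hF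
    refine ⟨F', ?_, h2⟩
    have : σ / d ^ (n + 1) = σ / d ^ n / (f.natDegree : ℝ) := by
      rw [pow_succ, div_div]
    rw [this]
    exact h1
  choose! g hg1 hg2 using step
  set En : ℕ → ℂ → ℂ := fun n => Nat.rec E (fun n F => g n F) n with hEn
  have hB : ∀ n, BotS f (σ / d ^ n) (En n) := by
    intro n
    induction n with
    | zero =>
      have : σ / d ^ 0 = σ := by simp
      rw [this]
      exact hE
    | succ n ih => exact hg1 n (En n) ih
  have hstep : ∀ n (w : ℂ), σ / d ^ n < w.re → En (n + 1) w = En n w := fun n w hw =>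
    hg2 n (En n) (hB n) w hw
  have hanti : ∀ n m : ℕ, n ≤ m → σ / d ^ m ≤ σ / d ^ n := fun n m h =>
    div_le_div_of_nonneg_left hσ.le (by positivity) (pow_le_pow_right₀ (by linarith) h)
  have hagree : ∀ n m : ℕ, n ≤ m → ∀ w : ℂ, σ / d ^ n < w.re → En m w = En n w := by
    intro n m h
    induction m, h using Nat.le_induction with
    | base => exact fun w _ => rfl
    | succ m hm ih =>
      intro w hw
      rw [hstep m w (lt_of_le_of_lt (hanti n m hm) hw), ih w hw]
  have hex : ∀ x : ℝ, 0 < x → ∃ n : ℕ, σ / d ^ n < x := by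
    intro x hx
    obtain ⟨n, hn⟩ := pow_unbounded_of_one_lt (σ / x) (by linarith : (1 : ℝ) < d)
    refine ⟨n, ?_⟩
    rw [div_lt_iff₀ (by positivity)]
    rw [div_lt_iff₀ hx] at hn
    linarith
  set E' : ℂ → ℂ := fun w => if h : ∃ n : ℕ, σ / d ^ n < w.re then En (Nat.find h) w else 0
    with hE'
  have key : ∀ (n : ℕ) (w : ℂ), σ / d ^ n < w.re → E' w = En n w := by
    intro n w hw
    have h : ∃ n : ℕ, σ / d ^ n < w.re := ⟨n, hw⟩
    simp only [hE', dif_pos h]
    exact (hagree _ _ (Nat.find_min' h hw) w (Nat.find_spec h)).symm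
  have hopen : ∀ n : ℕ, IsOpen {w : ℂ | σ / d ^ n < w.re} := fun n =>
    isOpen_lt continuous_const Complex.continuous_re
  have hloc : ∀ (n : ℕ) (w : ℂ), σ / d ^ n < w.re → E' =ᶠ[𝓝 w] En n := fun n w hw =>
    Filter.eventuallyEq_of_mem ((hopen n).mem_nhds hw) fun z hz => key n z hz
  refine ⟨E', ⟨?_, ?_, ?_, ?_, ?_, ?_, ?_⟩, ?_⟩
  · intro w hw
    obtain ⟨n, hn⟩ := hex w.re hw
    have h1 : DifferentiableAt ℂ (En n) w := (hB n).dE.differentiableAt ((hopen n).mem_nhds hn)
    exact (h1.congr_of_eventuallyEq (hloc n w hn)).differentiableWithinAt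
  · intro w hw
    obtain ⟨n, hn⟩ := hex w.re hw
    rw [key n w hn, key n (w + 2 * Real.pi * Complex.I) (by simpa using hn)]
    exact (hB n).per w hn
  · intro w hw
    obtain ⟨n, hn⟩ := hex w.re hw
    have h1 : ((f.natDegree : ℂ) * w).re = d * w.re := by simp [hdd]
    have h2 : σ / d ^ n < ((f.natDegree : ℂ) * w).re := by
      rw [h1]
      nlinarith [hpos n]
    rw [key n w hn, key n _ h2]
    exact (hB n).fe w hn
  · intro w w' hw hw' h
    obtain ⟨n, hn⟩ := hex (min w.re w'.re) (lt_min hw hw')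
    have h1 : σ / d ^ n < w.re := lt_of_lt_of_le hn (min_le_left _ _)
    have h2 : σ / d ^ n < w'.re := lt_of_lt_of_le hn (min_le_right _ _)
    rw [key n w h1, key n w' h2] at h
    exact (hB n).inj w w' h1 h2 h
  · intro w hw
    obtain ⟨n, hn⟩ := hex w.re hw
    rw [key n w hn]
    exact (hB n).mem w hn
  · intro w hw
    obtain ⟨n, hn⟩ := hex w.re hw
    rw [(hloc n w hn).deriv_eq]
    exact (hB n).dne w hn
  · intro ε hε
    obtain ⟨s, hs⟩ := (hB 0).asym ε hε
    refine ⟨max s (σ / d ^ 0), fun w hw => ?_⟩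
    rw [key 0 w (lt_of_le_of_lt (le_max_right _ _) hw)]
    exact hs w (lt_of_le_of_lt (le_max_left _ _) hw)
  · intro w hw
    exact key 0 w (by simpa using hw)

end Pool.Agent.JH
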