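import Pool.Agent.Lib.MP_8ebc20_an.Defs

/-!
# BLF: lifting holomorphic maps of half planes through the polynomial

The critical values of `f` are in `K`, so `f` is a covering over `Kᶜ`.

PROOFS. `ev_K`: `f` maps `K` to itself (shift of the orbit).
`lift_half`: the half plane is convex, nonempty and open, so simply connected and locally path connected;
`Polynomial.isCoveringMapOn_eval` and `IsCoveringMapOn.existsUnique_continuousMap_lifts` give a continuous
lift; it is holomorphic by the local inverse of `f`.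
`lift_unique`: the set `{w | F₁ w = F₂ w}` is relatively clopen.
-/

set_option autoImplicit false

namespace Pool.Agent.JH

open Polynomial Set Metric Filter Topology

variable {f : ℂ[X]}

theorem ev_K {z : ℂ} (hz : z ∈ KSet f) : ev f z ∈ KSet f := by
  unfold KSet at hz ⊢
  rw [Set.mem_ofPred_eq] at hz ⊢
  refine hz.subset ?_
  rintro _ ⟨n, rfl⟩
  refine ⟨n + 1, ?_⟩
  change (ev f)^[n + 1] z = (ev f)^[n] (ev f z)
  rw [Function.iterate_succ_apply]

private lemma blf_loc (hc : ∀ c : ℂ, f.derivative.eval c = 0 → c ∈ KSet f) {a : ℂ}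
    (ha : ev f a ∈ (KSet f)ᶜ) :
    ∃ g : ℂ → ℂ, DifferentiableAt ℂ g (ev f a) ∧ ∀ᶠ x in 𝓝 a, g (ev f x) = x := by
  have hne : f.derivative.eval a ≠ 0 := by
    intro h0
    exact ha (ev_K (hc a h0))
  have h1 : HasStrictDerivAt (ev f) (f.derivative.eval a) a := f.hasStrictDerivAt a
  have h2 := h1.hasStrictFDerivAt_equiv hne
  refine ⟨h2.localInverse _ _ _, ?_, ?_⟩
  · exact h2.to_localInverse.hasFDerivAt.differentiableAt
  · exact h2.eventually_left_inverse

private lemma blf_convex (σ : ℝ) : Convex ℝ {w : ℂ | σ < w.re} :=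
  convex_halfSpace_re_gt σ

private lemma blf_open (σ : ℝ) : IsOpen {w : ℂ | σ < w.re} :=
  isOpen_lt continuous_const Complex.continuous_re

theorem lift_half (hc : ∀ c : ℂ, f.derivative.eval c = 0 → c ∈ KSet f) {σ : ℝ} {G : ℂ → ℂ}
    (hG : DifferentiableOn ℂ G {w | σ < w.re}) (hGK : ∀ w : ℂ, σ < w.re → G w ∈ (KSet f)ᶜ) {w₀ z₀ : ℂ}
    (hw₀ : σ < w₀.re) (hz₀ : ev f z₀ = G w₀) :
    ∃ F : ℂ → ℂ, DifferentiableOn ℂ F {w | σ < w.re} ∧ F w₀ = z₀ ∧
      ∀ w : ℂ, σ < w.re → ev f (F w) = G w := by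
  classical
  have hopen := blf_open σ
  have hne : ({w : ℂ | σ < w.re}).Nonempty := ⟨w₀, hw₀⟩
  have : ContractibleSpace {w : ℂ | σ < w.re} := (blf_convex σ).contractibleSpace hne
  have : SimplyConnectedSpace {w : ℂ | σ < w.re} := SimplyConnectedSpace.ofContractible _
  have : LocallyPathConnectedSpace {w : ℂ | σ < w.re} := hopen.locallyPathConnectedSpace
  obtain ⟨F, ⟨hF0, hF⟩, -⟩ := f.isCoveringMapOn_eval.existsUnique_continuousMap_lifts
    (A := {w : ℂ | σ < w.re})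
    ⟨({w : ℂ | σ < w.re}).domRestrict G, continuousOn_iff_continuous_domRestrict.mp hG.continuousOn⟩
    (a₀ := ⟨w₀, hw₀⟩) (e₀ := z₀) hz₀ (by
      rintro ⟨w, hw⟩
      rintro ⟨k, hk, hkw⟩
      apply hGK w hw
      have : G w = ev f k := hkw.symm
      rw [this]
      exact ev_K (hc k hk))
  obtain ⟨F', hF'⟩ : ∃ F' : ℂ → ℂ, ∀ w : {w : ℂ | σ < w.re}, F' w = F w :=
    ⟨fun w ↦ if hw : w ∈ {w : ℂ | σ < w.re} then F ⟨w, hw⟩ else 0, by
      rintro ⟨w, hw⟩
      simp only [Set.mem_ofPred_eq] at hw ⊢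
      rw [dif_pos hw]⟩
  have hcont : ContinuousOn F' {w : ℂ | σ < w.re} := by
    rw [continuousOn_iff_continuous_domRestrict]
    have : ({w : ℂ | σ < w.re}).domRestrict F' = F := by
      funext w
      exact hF' w
    rw [this]
    exact map_continuous F
  have hev : ∀ w : ℂ, σ < w.re → ev f (F' w) = G w := by
    intro w hw
    have h1 := congrFun hF ⟨w, hw⟩
    have h2 := hF' ⟨w, hw⟩
    change F' w = F ⟨w, hw⟩ at h2
    rw [h2]
    exact h1
  refine ⟨F', ?_, ?_, hev⟩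
  · intro w hw
    have hmem : ev f (F' w) ∈ (KSet f)ᶜ := by
      rw [hev w hw]
      exact hGK w hw
    obtain ⟨g, hg1, hg2⟩ := blf_loc hc hmem
    have hca : ContinuousAt F' w := hcont.continuousAt (hopen.mem_nhds hw)
    have hGd : DifferentiableAt ℂ G w := (hG w hw).differentiableAt (hopen.mem_nhds hw)
    have heq : F' =ᶠ[𝓝 w] (g ∘ G) := by
      filter_upwards [hca.eventually hg2, hopen.mem_nhds hw] with w' h1 h2
      rw [Function.comp_apply, ← hev w' h2, h1]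
    have hcomp : DifferentiableAt ℂ (g ∘ G) w := by
      apply DifferentiableAt.comp
      · rw [← hev w hw]
        exact hg1
      · exact hGd
    exact (hcomp.congr_of_eventuallyEq heq).differentiableWithinAt
  · have := hF' ⟨w₀, hw₀⟩
    change F' w₀ = F ⟨w₀, hw₀⟩ at this
    rw [this, hF0]

theorem lift_unique (hc : ∀ c : ℂ, f.derivative.eval c = 0 → c ∈ KSet f) {σ : ℝ} {F₁ F₂ : ℂ → ℂ}
    (h₁ : ContinuousOn F₁ {w | σ < w.re}) (h₂ : ContinuousOn F₂ {w | σ < w.re})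
    (heq : ∀ w : ℂ, σ < w.re → ev f (F₁ w) = ev f (F₂ w))
    (hK : ∀ w : ℂ, σ < w.re → ev f (F₁ w) ∈ (KSet f)ᶜ) {w₀ : ℂ} (hw₀ : σ < w₀.re)
    (h0 : F₁ w₀ = F₂ w₀) : ∀ w : ℂ, σ < w.re → F₁ w = F₂ w := by
  intro w₁ hw₁
  by_contra hne
  have hopen := blf_open σ
  have hpre : IsPreconnected {w : ℂ | σ < w.re} := (blf_convex σ).isPreconnected
  have hU : IsOpen {w : ℂ | σ < w.re ∧ F₁ w = F₂ w} := by
    rw [isOpen_iff_mem_nhds]
    rintro w ⟨hw, he⟩
    obtain ⟨g, -, hg⟩ := blf_loc hc (hK w hw)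
    have hc1 : ContinuousAt F₁ w := h₁.continuousAt (hopen.mem_nhds hw)
    have hc2 : ContinuousAt F₂ w := h₂.continuousAt (hopen.mem_nhds hw)
    have hg' : ∀ᶠ x in 𝓝 (F₂ w), g (ev f x) = x := by
      rw [← he]
      exact hg
    filter_upwards [hc1.eventually hg, hc2.eventually hg', hopen.mem_nhds hw] with w' a1 a2 a3
    refine ⟨a3, ?_⟩
    rw [← a1, ← a2, heq w' a3]
  have hV : IsOpen {w : ℂ | σ < w.re ∧ F₁ w ≠ F₂ w} := by
    have h3 := (h₁.sub h₂).isOpen_inter_preimage hopen (isOpen_compl_singleton (x := (0 : ℂ)))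
    have h4 : {w : ℂ | σ < w.re ∧ F₁ w ≠ F₂ w} =
        {w : ℂ | σ < w.re} ∩ (F₁ - F₂) ⁻¹' {(0 : ℂ)}ᶜ := by
      ext w
      simp only [Set.mem_ofPred_eq, Set.mem_inter_iff, Set.mem_preimage, Set.mem_compl_iff,
        Set.mem_singleton_iff, Pi.sub_apply, sub_eq_zero, ne_eq]
    rw [h4]
    exact h3
  obtain ⟨w, -, ⟨-, h4⟩, -, h5⟩ := hpre _ _ hU hV (by
    intro w hw
    by_cases h : F₁ w = F₂ w
    · exact Or.inl ⟨hw, h⟩
    · exact Or.inr ⟨hw, h⟩) ⟨w₀, hw₀, hw₀, h0⟩ ⟨w₁, hw₁, hw₁, hne⟩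
  exact h5 h4

end Pool.Agent.JH
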