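import Pool.Agent.Lib.MP_8ebc20_an.BL

/-!
# BODD: uniqueness of the Bottcher map; odd polynomials

PROOFS. `bot_unique`: `exists_rho` with `ε = 1/16` gives `ρ`, `exists_q` gives `q` on `{log ρ < re}`, `‖q‖ ≤ 1/8`; as
in `exists_fix`, `q` is `1/4`-Lipschitz on the convex set `{log ρ + 1/2 < re}` (discs of radius `1/2`).
By `asym` choose `s ≥ log ρ + 1`, `s > 0`, such that `‖E_i w - exp w‖ ≤ 1/(8 d) ‖exp w‖` for `s < w.re`, `i = 1, 2`.
Put `e_i w = Complex.log (E_i w * exp (-w))`, the argument is `1 + x` with `‖x‖ ≤ 1/(8 d)`, so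
`‖e_i w‖ ≤ 3/(16 d)` (`Complex.norm_log_one_add_half_le_self`) and `E_i w = exp (w + e_i w)`.  `fe` and `exists_q`
(the point `w + e_i w` has real part `> log ρ + 1/2`):
`exp (d w + d e_i w + q (w + e_i w)) = exp (d w + e_i (d w))`, so `d e_i w + q (w + e_i w) - e_i (d w)` is `2 π I k`; its norm is
`≤ 3/16 + 1/8 + 3/16 < 2 π`, so it is `0`.  Subtract: `δ = e₁ - e₂` satisfies
`d ‖δ w‖ ≤ ‖δ (d w)‖ + 1/4 ‖δ w‖`; if `‖δ‖ ≤ M` on `{s < re}` then `‖δ‖ ≤ 5/8 M` there (`d ≥ 2`); starting with `M = 1` we get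
`‖δ‖ ≤ (5/8)^n` for all `n`, so `δ = 0`.  So `E₁ = E₂` on `{s < re}`, hence on `{0 < re}` by the identity theorem
(`AnalyticOnNhd.eqOn_of_preconnected_of_eventuallyEq`, the half plane is convex and open).
`odd`: `E₂ w = -E (w + π I)` is again a Bottcher map: `ev f (-z) = -ev f z`, so `K = -K`, and `d` is odd, so
`ev f (E₂ w) = -E (d w + d π I) = -E (d w + π I)` (`per`, `d - 1` even); `exp (w + π I) = -exp w`; the other properties
are translations.  Apply `bot_unique`.
-/

set_option autoImplicit false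

namespace Pool.Agent.JH

open Polynomial Set Metric Filter Topology

variable {f : ℂ[X]}

/-- the auxiliary function is Lipschitz -/
private theorem bodd_lip {q : ℂ → ℂ} {l : ℝ} (dq : DifferentiableOn ℂ q {ζ | l < ζ.re})
    (bq : ∀ ζ : ℂ, l < ζ.re → ‖q ζ‖ ≤ 1 / 8) {x y : ℂ} (hx : l + 1 / 2 < x.re)
    (hy : l + 1 / 2 < y.re) : ‖q y - q x‖ ≤ 1 / 4 * ‖y - x‖ := by
  have hopen : IsOpen {ζ : ℂ | l < ζ.re} := isOpen_lt continuous_const Complex.continuous_re
  have hball : ∀ c : ℂ, l + 1 / 2 < c.re → closedBall c (1 / 2) ⊆ {ζ : ℂ | l < ζ.re} := by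
    intro c hc z hz
    rw [mem_closedBall, dist_eq_norm] at hz
    have h1 := (abs_le.1 ((Complex.abs_re_le_norm (z - c)).trans hz)).1
    rw [Complex.sub_re] at h1
    change l < z.re
    linarith
  refine Convex.norm_image_sub_le_of_norm_deriv_le (s := {ζ : ℂ | l + 1 / 2 < ζ.re})
    (fun z hz => ?_) (fun z hz => ?_) (convex_halfSpace_re_gt _) hx hy
  · refine (dq z ?_).differentiableAt (hopen.mem_nhds ?_)
    · change l < z.re
      change l + 1 / 2 < z.re at hz
      linarith
    · change l < z.re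
      change l + 1 / 2 < z.re at hz
      linarith
  · have h1 : DiffContOnCl ℂ q (ball z (1 / 2)) := by
      refine DifferentiableOn.diffContOnCl ?_
      rw [closure_ball z (by norm_num)]
      exact dq.mono (hball z hz)
    have h2 := Complex.norm_deriv_le_of_forall_mem_sphere_norm_le (R := 1 / 2) (C := 1 / 8)
      (by norm_num) h1 (fun w hw => bq w (hball z hz (sphere_subset_closedBall hw)))
    refine h2.trans ?_
    norm_num

/-- the logarithm of a Bottcher map -/
private theorem bodd_log {E : ℂ → ℂ} {ε : ℝ} (hε : ε ≤ 1 / 16) {w : ℂ}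
    (h : ‖E w - Complex.exp w‖ ≤ ε * ‖Complex.exp w‖) :
    ‖Complex.log (E w * Complex.exp (-w))‖ ≤ 3 / 2 * ε ∧
      E w = Complex.exp (w + Complex.log (E w * Complex.exp (-w))) := by
  have h0 : Complex.exp w * Complex.exp (-w) = 1 := by
    rw [← Complex.exp_add, add_neg_cancel, Complex.exp_zero]
  have h1 : E w * Complex.exp (-w) = 1 + (E w - Complex.exp w) * Complex.exp (-w) := by
    rw [sub_mul, h0]
    ring
  have h2 : ‖(E w - Complex.exp w) * Complex.exp (-w)‖ ≤ ε := by
    rw [norm_mul]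
    have h3 : ‖Complex.exp w‖ * ‖Complex.exp (-w)‖ = 1 := by
      rw [← norm_mul, h0, norm_one]
    calc ‖E w - Complex.exp w‖ * ‖Complex.exp (-w)‖
        ≤ ε * ‖Complex.exp w‖ * ‖Complex.exp (-w)‖ :=
          mul_le_mul_of_nonneg_right h (norm_nonneg _)
      _ = ε := by rw [mul_assoc, h3, mul_one]
  constructor
  · rw [h1]
    refine (Complex.norm_log_one_add_half_le_self (h2.trans (hε.trans (by norm_num)))).trans ?_
    linarith
  · have h4 : E w * Complex.exp (-w) ≠ 0 := by
      intro h5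
      rw [h5] at h1
      have h6 : (E w - Complex.exp w) * Complex.exp (-w) = -1 :=
        (neg_eq_of_add_eq_zero_right h1.symm).symm
      rw [h6, norm_neg, norm_one] at h2
      linarith
    rw [Complex.exp_add, Complex.exp_log h4]
    calc E w = E w * (Complex.exp w * Complex.exp (-w)) := by rw [h0, mul_one]
      _ = _ := by ring

/-- the functional equation in the logarithmic coordinate -/
private theorem bodd_fe (hd : 2 ≤ f.natDegree) {q : ℂ → ℂ} {l s : ℝ} (hs : l + 1 ≤ s)
    (hs0 : 0 ≤ s) (bq : ∀ ζ : ℂ, l < ζ.re → ‖q ζ‖ ≤ 1 / 8)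
    (fq : ∀ ζ : ℂ, l < ζ.re → ev f (Complex.exp ζ) = Complex.exp (f.natDegree * ζ + q ζ))
    {E : ℂ → ℂ} (hE : BotS f 0 E)
    (ha : ∀ w : ℂ, s < w.re →
      ‖E w - Complex.exp w‖ ≤ 1 / (8 * f.natDegree) * ‖Complex.exp w‖)
    {w : ℂ} (hw : s < w.re) :
    l + 1 / 2 < (w + Complex.log (E w * Complex.exp (-w))).re ∧
    f.natDegree * Complex.log (E w * Complex.exp (-w)) +
      q (w + Complex.log (E w * Complex.exp (-w))) =
      Complex.log (E (f.natDegree * w) * Complex.exp (-(f.natDegree * w))) := by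
  have hd' : (2 : ℝ) ≤ (f.natDegree : ℝ) := by exact_mod_cast hd
  have hε : 1 / (8 * (f.natDegree : ℝ)) ≤ 1 / 16 := by
    rw [div_le_div_iff₀ (by positivity) (by norm_num)]
    linarith
  have hdw : s < ((f.natDegree : ℂ) * w).re := by
    have h1 : ((f.natDegree : ℂ) * w).re = f.natDegree * w.re := by
      simp [Complex.mul_re]
    rw [h1]
    nlinarith
  obtain ⟨h1, h2⟩ := bodd_log hε (ha w hw)
  obtain ⟨h3, h4⟩ := bodd_log hε (ha _ hdw)
  have h5 : 3 / 2 * (1 / (8 * (f.natDegree : ℝ))) ≤ 3 / 32 := by linarith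
  have h6 : l + 1 / 2 < (w + Complex.log (E w * Complex.exp (-w))).re := by
    rw [Complex.add_re]
    have h7 := (abs_le.1 ((Complex.abs_re_le_norm (Complex.log (E w * Complex.exp (-w)))).trans
      (h1.trans h5))).1
    linarith
  refine ⟨h6, ?_⟩
  have h7 := hE.fe w (lt_of_le_of_lt hs0 hw)
  rw [h4] at h7
  rw [h2, fq _ (by linarith), Complex.exp_eq_exp_iff_exists_int] at h7
  obtain ⟨n, hn⟩ := h7
  have h8 : (n : ℂ) * (2 * Real.pi * Complex.I) =
      f.natDegree * Complex.log (E w * Complex.exp (-w)) +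
      q (w + Complex.log (E w * Complex.exp (-w))) -
      Complex.log (E (f.natDegree * w) * Complex.exp (-(f.natDegree * w))) := by
    linear_combination -hn
  have h9 : ‖(f.natDegree : ℂ) * Complex.log (E w * Complex.exp (-w))‖ ≤ 3 / 16 := by
    rw [norm_mul, Complex.norm_natCast]
    calc (f.natDegree : ℝ) * ‖Complex.log (E w * Complex.exp (-w))‖
        ≤ (f.natDegree : ℝ) * (3 / 2 * (1 / (8 * (f.natDegree : ℝ)))) :=
          mul_le_mul_of_nonneg_left h1 (by positivity)
      _ = 3 / 16 := by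
          field_simp
          norm_num
  have h10 := bq _ (show l < (w + Complex.log (E w * Complex.exp (-w))).re by linarith)
  have h11 : ‖(n : ℂ) * (2 * Real.pi * Complex.I)‖ < 1 := by
    rw [h8]
    refine lt_of_le_of_lt (norm_sub_le _ _) ?_
    have h12 := norm_add_le ((f.natDegree : ℂ) * Complex.log (E w * Complex.exp (-w)))
      (q (w + Complex.log (E w * Complex.exp (-w))))
    linarith
  have h12 : ‖(n : ℂ) * (2 * Real.pi * Complex.I)‖ = |(n : ℝ)| * (2 * Real.pi) := by
    rw [norm_mul, norm_mul, norm_mul, Complex.norm_I, Complex.norm_real, Complex.norm_intCast,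
      Real.norm_eq_abs, abs_of_pos Real.pi_pos]
    norm_num
  have h13 : n = 0 := by
    by_contra hn0
    have h14 : (1 : ℝ) ≤ |(n : ℝ)| := by
      exact_mod_cast Int.one_le_abs hn0
    rw [h12] at h11
    nlinarith [Real.pi_gt_three]
  rw [h13, Int.cast_zero, zero_mul] at h8
  exact (sub_eq_zero.1 h8.symm)

theorem bot_unique (hd : 2 ≤ f.natDegree) (hm : f.Monic) {E₁ E₂ : ℂ → ℂ} (h₁ : BotS f 0 E₁)
    (h₂ : BotS f 0 E₂) : ∀ w : ℂ, 0 < w.re → E₁ w = E₂ w := by
  have hd' : (2 : ℝ) ≤ (f.natDegree : ℝ) := by exact_mod_cast hd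
  obtain ⟨ρ, hρ, hf⟩ := exists_rho (f := f) (by omega) hm (ε := 1 / 16) (by norm_num)
  obtain ⟨q, dq, bq, -, fq, -⟩ := exists_q hρ hf
  have hl : 0 ≤ Real.log ρ := Real.log_nonneg hρ
  obtain ⟨s₁, hs₁⟩ := h₁.asym (1 / (8 * f.natDegree)) (by positivity)
  obtain ⟨s₂, hs₂⟩ := h₂.asym (1 / (8 * f.natDegree)) (by positivity)
  obtain ⟨s, hs, hss₁, hss₂⟩ : ∃ s : ℝ, Real.log ρ + 1 ≤ s ∧ s₁ ≤ s ∧ s₂ ≤ s :=
    ⟨max (Real.log ρ + 1) (max s₁ s₂), le_max_left _ _, (le_max_left _ _).trans (le_max_right _ _),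
      (le_max_right _ _).trans (le_max_right _ _)⟩
  have hs0 : 0 ≤ s := by linarith
  have ha₁ : ∀ w : ℂ, s < w.re →
      ‖E₁ w - Complex.exp w‖ ≤ 1 / (8 * f.natDegree) * ‖Complex.exp w‖ :=
    fun w hw => hs₁ w (lt_of_le_of_lt hss₁ hw)
  have ha₂ : ∀ w : ℂ, s < w.re →
      ‖E₂ w - Complex.exp w‖ ≤ 1 / (8 * f.natDegree) * ‖Complex.exp w‖ :=
    fun w hw => hs₂ w (lt_of_le_of_lt hss₂ hw)
  have hε : 1 / (8 * (f.natDegree : ℝ)) ≤ 1 / 16 := by
    rw [div_le_div_iff₀ (by positivity) (by norm_num)]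
    linarith
  have key : ∀ n : ℕ, ∀ w : ℂ, s < w.re →
      ‖Complex.log (E₁ w * Complex.exp (-w)) - Complex.log (E₂ w * Complex.exp (-w))‖ ≤
        (4 / 7) ^ n := by
    intro n
    induction n with
    | zero =>
      intro w hw
      have h1 := (bodd_log hε (ha₁ w hw)).1
      have h2 := (bodd_log hε (ha₂ w hw)).1
      have h3 := norm_sub_le (Complex.log (E₁ w * Complex.exp (-w)))
        (Complex.log (E₂ w * Complex.exp (-w)))
      rw [pow_zero]
      linarith
    | succ n ih =>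
      intro w hw
      have hdw : s < ((f.natDegree : ℂ) * w).re := by
        have h1 : ((f.natDegree : ℂ) * w).re = f.natDegree * w.re := by
          simp [Complex.mul_re]
        rw [h1]
        nlinarith
      obtain ⟨g1, g2⟩ := bodd_fe hd hs hs0 bq fq h₁ ha₁ hw
      obtain ⟨g3, g4⟩ := bodd_fe hd hs hs0 bq fq h₂ ha₂ hw
      have g5 := bodd_lip dq bq g3 g1
      have g6 := ih _ hdw
      rw [← g2, ← g4] at g6
      set a := Complex.log (E₁ w * Complex.exp (-w)) with ha
      set b := Complex.log (E₂ w * Complex.exp (-w)) with hb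
      have g7 : (f.natDegree : ℂ) * (a - b) =
          ((f.natDegree : ℂ) * a + q (w + a) - (f.natDegree * b + q (w + b))) -
            (q (w + a) - q (w + b)) := by ring
      have g8 : (f.natDegree : ℝ) * ‖a - b‖ ≤ (4 / 7) ^ n + 1 / 4 * ‖a - b‖ := by
        have g9 : ‖(f.natDegree : ℂ) * (a - b)‖ = (f.natDegree : ℝ) * ‖a - b‖ := by
          rw [norm_mul, Complex.norm_natCast]
        rw [← g9, g7]
        refine (norm_sub_le _ _).trans (add_le_add g6 ?_)
        have g10 : w + a - (w + b) = a - b := by ring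
        rw [g10] at g5
        exact g5
      have g11 : 0 ≤ ‖a - b‖ := norm_nonneg _
      rw [pow_succ]
      nlinarith
  have heq : ∀ w : ℂ, s < w.re → E₁ w = E₂ w := by
    intro w hw
    have h1 : ‖Complex.log (E₁ w * Complex.exp (-w)) -
        Complex.log (E₂ w * Complex.exp (-w))‖ ≤ 0 :=
      ge_of_tendsto' (tendsto_pow_atTop_nhds_zero_of_lt_one (by norm_num)
        (by norm_num : (4 / 7 : ℝ) < 1)) (fun n => key n w hw)
    have h2 : Complex.log (E₁ w * Complex.exp (-w)) = Complex.log (E₂ w * Complex.exp (-w)) :=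
      sub_eq_zero.1 (norm_le_zero_iff.1 h1)
    rw [(bodd_log hε (ha₁ w hw)).2, (bodd_log hε (ha₂ w hw)).2, h2]
  have hopen : IsOpen {w : ℂ | (0 : ℝ) < w.re} := isOpen_lt continuous_const Complex.continuous_re
  have hopen' : IsOpen {w : ℂ | s < w.re} := isOpen_lt continuous_const Complex.continuous_re
  have hz : ((s + 1 : ℝ) : ℂ) ∈ {w : ℂ | s < w.re} := by
    change s < ((s + 1 : ℝ) : ℂ).re
    rw [Complex.ofReal_re]
    linarith
  have hz0 : ((s + 1 : ℝ) : ℂ) ∈ {w : ℂ | (0 : ℝ) < w.re} := by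
    change 0 < ((s + 1 : ℝ) : ℂ).re
    rw [Complex.ofReal_re]
    linarith
  have hfg : E₁ =ᶠ[𝓝 ((s + 1 : ℝ) : ℂ)] E₂ := by
    filter_upwards [hopen'.mem_nhds hz] with w hw
    exact heq w hw
  have hall := AnalyticOnNhd.eqOn_of_preconnected_of_eventuallyEq
    (h₁.dE.analyticOnNhd hopen) (h₂.dE.analyticOnNhd hopen)
    (convex_halfSpace_re_gt 0).isPreconnected hz0 hfg
  exact fun w hw => hall hw

private theorem bodd_neg_K (hf : ∀ z : ℂ, ev f (-z) = -ev f z) {z : ℂ}
    (hz : z ∈ (KSet f)ᶜ) : -z ∈ (KSet f)ᶜ := by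
  have h1 : ∀ (n : ℕ) (z : ℂ), (ev f)^[n] (-z) = -(ev f)^[n] z := by
    intro n
    induction n with
    | zero => exact fun z => rfl
    | succ n ih =>
      intro z
      rw [Function.iterate_succ_apply, Function.iterate_succ_apply, hf, ih]
  intro h2
  apply hz
  unfold KSet at h2 ⊢
  rw [Set.mem_setOf_eq] at h2 ⊢
  obtain ⟨C, hC⟩ := isBounded_iff_forall_norm_le.1 h2
  refine isBounded_iff_forall_norm_le.2 ⟨C, ?_⟩
  rintro _ ⟨n, rfl⟩
  have h3 := hC _ ⟨n, rfl⟩
  simp only [h1, norm_neg] at h3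
  exact h3

private theorem bodd_per {E : ℂ → ℂ} (hE : BotS f 0 E) (k : ℕ) :
    ∀ w : ℂ, 0 < w.re → E (w + k * (2 * Real.pi * Complex.I)) = E w := by
  induction k with
  | zero => intro w _; simp
  | succ k ih =>
    intro w hw
    have h1 : w + ((k + 1 : ℕ) : ℂ) * (2 * Real.pi * Complex.I) =
        (w + k * (2 * Real.pi * Complex.I)) + 2 * Real.pi * Complex.I := by
      push_cast
      ring
    have h2 : (0 : ℝ) < (w + k * (2 * Real.pi * Complex.I)).re := by
      have h3 : ((k : ℂ) * (2 * Real.pi * Complex.I)).re = 0 := by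
        simp [Complex.mul_re]
      rw [Complex.add_re, h3, add_zero]
      exact hw
    rw [h1, hE.per _ h2, ih w hw]

private theorem bodd_shift {w : ℂ} : (w + Real.pi * Complex.I).re = w.re := by
  simp [Complex.mul_re]

theorem BotS.odd (hd : 2 ≤ f.natDegree) (hm : f.Monic) (hodd : Odd f.natDegree)
    (hf : ∀ z : ℂ, ev f (-z) = -ev f z) {E : ℂ → ℂ} (hE : BotS f 0 E) :
    ∀ w : ℂ, 0 < w.re → E (w + Real.pi * Complex.I) = -E w := by
  have hsh : ∀ w : ℂ, (0 : ℝ) < w.re → (0 : ℝ) < (w + Real.pi * Complex.I).re := by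
    intro w hw
    rw [bodd_shift]
    exact hw
  have hopen : IsOpen {w : ℂ | (0 : ℝ) < w.re} := isOpen_lt continuous_const Complex.continuous_re
  have hE₂ : BotS f 0 (fun w => -E (w + Real.pi * Complex.I)) := by
    refine ⟨?_, ?_, ?_, ?_, ?_, ?_, ?_⟩
    · refine DifferentiableOn.neg ?_
      refine hE.dE.comp (differentiableOn_id.add_const _) ?_
      intro w hw
      exact hsh w hw
    · intro w hw
      have h1 : w + 2 * Real.pi * Complex.I + Real.pi * Complex.I =
          (w + Real.pi * Complex.I) + 2 * Real.pi * Complex.I := by ring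
      change -E _ = -E _
      rw [h1, hE.per _ (hsh w hw)]
    · intro w hw
      change ev f (-E _) = -E _
      rw [hf, hE.fe _ (hsh w hw)]
      obtain ⟨k, hk⟩ := hodd
      have h1 : (f.natDegree : ℂ) * (w + Real.pi * Complex.I) =
          ((f.natDegree : ℂ) * w + Real.pi * Complex.I) + k * (2 * Real.pi * Complex.I) := by
        have h2 : (f.natDegree : ℂ) = 2 * k + 1 := by
          rw [hk]
          push_cast
          ring
        rw [h2]
        ring
      have h3 : (0 : ℝ) < ((f.natDegree : ℂ) * w + Real.pi * Complex.I).re := by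
        rw [bodd_shift]
        have h4 : ((f.natDegree : ℂ) * w).re = f.natDegree * w.re := by
          simp [Complex.mul_re]
        rw [h4]
        have h5 : (0 : ℝ) < (f.natDegree : ℝ) := by
          exact_mod_cast (by omega : 0 < f.natDegree)
        exact mul_pos h5 hw
      rw [h1, bodd_per hE k _ h3]
    · intro w w' hw hw' h
      obtain ⟨k, hk⟩ := hE.inj _ _ (hsh w hw) (hsh w' hw') (neg_injective h)
      exact ⟨k, by linear_combination hk⟩
    · intro w hw
      exact bodd_neg_K hf (hE.mem _ (hsh w hw))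
    · intro w hw
      have h1 : deriv (fun w => -E (w + Real.pi * Complex.I)) w =
          -deriv E (w + Real.pi * Complex.I) := by
        rw [deriv.fun_neg, deriv_comp_add_const]
      rw [h1]
      exact neg_ne_zero.2 (hE.dne _ (hsh w hw))
    · intro ε hε
      obtain ⟨s, hs⟩ := hE.asym ε hε
      refine ⟨s, fun w hw => ?_⟩
      have h1 := hs (w + Real.pi * Complex.I) (by rw [bodd_shift]; exact hw)
      have h2 : Complex.exp (w + Real.pi * Complex.I) = -Complex.exp w := by
        rw [Complex.exp_add, Complex.exp_pi_mul_I]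
        ring
      rw [h2, norm_neg] at h1
      have h3 : -E (w + Real.pi * Complex.I) - Complex.exp w =
          -(E (w + Real.pi * Complex.I) - -Complex.exp w) := by ring
      change ‖-E (w + Real.pi * Complex.I) - Complex.exp w‖ ≤ _
      rw [h3, norm_neg]
      exact h1
  intro w hw
  have h1 := bot_unique hd hm hE₂ hE w hw
  have h2 : -E (w + Real.pi * Complex.I) = E w := h1
  rw [← h2, neg_neg]

end Pool.Agent.JH
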