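import Mathlib

/-!
# BQ: the fixed point equation of the Bottcher map

PROOF of `exists_fix`.  `P = {w | σ < w.re}`, open, convex.  For `w ∈ P` also `d * w ∈ P` (`0 ≤ σ`, `1 ≤ d`).
Define `e₀ = 0`, `e_{n+1} w = (e_n (d * w) - q (w + e_n w)) / d`.  By induction: `e_n` is holomorphic on
`P`; `‖e_n w‖ ≤ η` on `P` (`(η + η) / d ≤ η`; the point `w + e_n w` has real part
`> σ - 1/8 > σ - 1`); `e_n (w + 2 π I) = e_n w` on `P` (shift `n ↦ d` periods in the first term); and, if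
`‖q ζ‖ ≤ η₁` for `s - 1/8 ≤ ζ.re`, then `‖e_n w‖ ≤ η₁` for `s ≤ w.re` (here `0 ≤ η₁` because it bounds a norm).
`q` is `1/4`-Lipschitz on the convex set `{ζ | σ - 1/4 < ζ.re}`: the closed disc of radius `1/2` about such a point lies in
the domain, so `‖deriv q ζ‖ ≤ η / (1/2) ≤ 1/4` (`Complex.norm_deriv_le_of_forall_mem_sphere_norm_le`) and
`Convex.norm_image_sub_le_of_norm_deriv_le`.  Hence `‖e_{n+1} w - e_n w‖ ≤ η (5/8)^n` on `P`: the step is
`(1/d) (‖e_{n+1} (d w) - e_n (d w)‖ + (1/4) ‖e_{n+1} w - e_n w‖) ≤ (1/2) (5/4) η (5/8)^n`.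
`e w = ∑' n, (e_{n+1} w - e_n w)` is holomorphic (`differentiableOn_tsum_of_summable_norm`) and is the limit of
`e_N w` (telescoping, `HasSum.tendsto_sum_nat`).  All properties pass to the limit (`q` is continuous at
`w + e w`).
-/

set_option autoImplicit false

namespace Pool.Agent.JH

open Set Metric Filter Topology

private noncomputable def eN (q : ℂ → ℂ) (d : ℕ) : ℕ → ℂ → ℂ
  | 0, _ => 0
  | n + 1, w => (eN q d n (d * w) - q (w + eN q d n w)) / d

private theorem re_mul {d : ℕ} (w : ℂ) : ((d : ℂ) * w).re = d * w.re := by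
  simp

private theorem re_ge {d : ℕ} (hd : 2 ≤ d) {w : ℂ} (hw : 0 ≤ w.re) : w.re ≤ ((d : ℂ) * w).re := by
  rw [re_mul]
  have h : (2 : ℝ) ≤ d := by exact_mod_cast hd
  nlinarith

private theorem div_le {d : ℕ} (hd : 2 ≤ d) {a b : ℂ} {A B : ℝ} (ha : ‖a‖ ≤ A) (hb : ‖b‖ ≤ B) :
    ‖(a - b) / d‖ ≤ (A + B) / 2 := by
  have h : (2 : ℝ) ≤ d := by exact_mod_cast hd
  rw [norm_div, Complex.norm_natCast]
  have h1 : ‖a - b‖ ≤ A + B := (norm_sub_le _ _).trans (add_le_add ha hb)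
  have h2 : 0 ≤ A + B := (norm_nonneg _).trans h1
  calc ‖a - b‖ / d ≤ (A + B) / d := by gcongr
    _ ≤ (A + B) / 2 := by gcongr

private theorem eN_bd {q : ℂ → ℂ} {σ η : ℝ} {d : ℕ} (hd : 2 ≤ d) (hσ : 0 ≤ σ) (hη : 0 ≤ η)
    (hη' : η ≤ 1 / 8) (hb : ∀ ζ : ℂ, σ - 1 < ζ.re → ‖q ζ‖ ≤ η) (n : ℕ) :
    ∀ w : ℂ, σ < w.re → ‖eN q d n w‖ ≤ η := by
  induction n with
  | zero => intro w _; simpa [eN] using hη
  | succ n ih =>
    intro w hw
    have h1 := ih w hw
    have h2 := ih (d * w) (hw.trans_le (re_ge hd (hσ.trans hw.le)))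
    have h3 : -η ≤ (eN q d n w).re := by
      have := (abs_le.1 (Complex.abs_re_le_norm (eN q d n w))).1
      linarith
    have h4 : ‖q (w + eN q d n w)‖ ≤ η := by
      apply hb
      rw [Complex.add_re]
      linarith
    have h5 := div_le hd h2 h4
    calc ‖eN q d (n + 1) w‖ = ‖(eN q d n (d * w) - q (w + eN q d n w)) / d‖ := rfl
      _ ≤ (η + η) / 2 := h5
      _ = η := by ring

private theorem eN_re {q : ℂ → ℂ} {σ η : ℝ} {d : ℕ} (hd : 2 ≤ d) (hσ : 0 ≤ σ) (hη : 0 ≤ η)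
    (hη' : η ≤ 1 / 8) (hb : ∀ ζ : ℂ, σ - 1 < ζ.re → ‖q ζ‖ ≤ η) (n : ℕ) (w : ℂ)
    (hw : σ < w.re) : w.re - 1 / 8 ≤ (w + eN q d n w).re := by
  have h1 := eN_bd hd hσ hη hη' hb n w hw
  have h3 := (abs_le.1 (Complex.abs_re_le_norm (eN q d n w))).1
  rw [Complex.add_re]
  linarith

private theorem eN_dif {q : ℂ → ℂ} {σ η : ℝ} {d : ℕ} (hd : 2 ≤ d) (hσ : 0 ≤ σ) (hη : 0 ≤ η)
    (hη' : η ≤ 1 / 8) (hq : DifferentiableOn ℂ q {ζ | σ - 1 < ζ.re})
    (hb : ∀ ζ : ℂ, σ - 1 < ζ.re → ‖q ζ‖ ≤ η) (n : ℕ) :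
    DifferentiableOn ℂ (eN q d n) {w | σ < w.re} := by
  induction n with
  | zero =>
    have : eN q d 0 = fun _ => 0 := rfl
    rw [this]
    exact differentiableOn_const 0
  | succ n ih =>
    have : eN q d (n + 1) = fun w => (eN q d n (d * w) - q (w + eN q d n w)) / d := rfl
    rw [this]
    apply DifferentiableOn.div_const
    apply DifferentiableOn.sub
    · apply ih.comp (f := fun w : ℂ => (d : ℂ) * w)
      · exact (differentiable_id.const_mul (d : ℂ)).differentiableOn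
      · intro w hw
        exact lt_of_lt_of_le hw (re_ge hd (hσ.trans (le_of_lt hw)))
    · apply hq.comp (f := fun w : ℂ => w + eN q d n w)
      · exact differentiableOn_id.add ih
      · intro w hw
        have h1 := eN_re hd hσ hη hη' hb n w hw
        have h2 : σ < w.re := hw
        simp only [Set.mem_setOf_eq]
        linarith

private theorem eN_per {q : ℂ → ℂ} {σ η : ℝ} {d : ℕ} (hd : 2 ≤ d) (hσ : 0 ≤ σ) (hη : 0 ≤ η)
    (hη' : η ≤ 1 / 8)
    (hb : ∀ ζ : ℂ, σ - 1 < ζ.re → ‖q ζ‖ ≤ η)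
    (hper : ∀ ζ : ℂ, σ - 1 < ζ.re → q (ζ + 2 * Real.pi * Complex.I) = q ζ) (n : ℕ) :
    ∀ w : ℂ, σ < w.re → eN q d n (w + 2 * Real.pi * Complex.I) = eN q d n w := by
  induction n with
  | zero => intro w _; rfl
  | succ n ih =>
    intro w hw
    have hk : ∀ (k : ℕ) (w : ℂ), σ < w.re →
        eN q d n (w + k * (2 * Real.pi * Complex.I)) = eN q d n w := by
      intro k
      induction k with
      | zero => intro w _; simp
      | succ k ihk =>
        intro w hw
        have h1 : w + ((k + 1 : ℕ) : ℂ) * (2 * Real.pi * Complex.I) =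
            (w + k * (2 * Real.pi * Complex.I)) + 2 * Real.pi * Complex.I := by
          push_cast; ring
        rw [h1, ih, ihk w hw]
        simpa using hw
    have h2 : eN q d n (d * (w + 2 * Real.pi * Complex.I)) = eN q d n (d * w) := by
      rw [mul_add]
      exact hk d _ (hw.trans_le (re_ge hd (hσ.trans hw.le)))
    have h3 : q (w + 2 * Real.pi * Complex.I + eN q d n (w + 2 * Real.pi * Complex.I)) =
        q (w + eN q d n w) := by
      rw [ih w hw, add_right_comm]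
      apply hper
      have h1 := eN_re hd hσ hη hη' hb n w hw
      linarith
    change (eN q d n (d * (w + 2 * Real.pi * Complex.I)) -
      q (w + 2 * Real.pi * Complex.I + eN q d n (w + 2 * Real.pi * Complex.I))) / d =
        (eN q d n (d * w) - q (w + eN q d n w)) / d
    rw [h2, h3]

private theorem q_lip {q : ℂ → ℂ} {σ η : ℝ}
    (hη' : η ≤ 1 / 8) (hq : DifferentiableOn ℂ q {ζ | σ - 1 < ζ.re})
    (hb : ∀ ζ : ℂ, σ - 1 < ζ.re → ‖q ζ‖ ≤ η) {a b : ℂ} (ha : σ - 1 / 4 < a.re)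
    (hb' : σ - 1 / 4 < b.re) : ‖q b - q a‖ ≤ 1 / 4 * ‖b - a‖ := by
  have ho : IsOpen {ζ : ℂ | σ - 1 < ζ.re} := isOpen_lt continuous_const Complex.continuous_re
  have hre : ∀ x : ℂ, σ - 1 / 4 < x.re → ∀ y ∈ closedBall x (1 / 2), σ - 1 < y.re := by
    intro x hx y hy
    have h1 : ‖y - x‖ ≤ 1 / 2 := by rwa [mem_closedBall, dist_eq_norm] at hy
    have h2 := (abs_le.1 (Complex.abs_re_le_norm (y - x))).1
    rw [Complex.sub_re] at h2
    linarith
  refine Convex.norm_image_sub_le_of_norm_deriv_le (s := {ζ : ℂ | σ - 1 / 4 < ζ.re})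
    (fun x hx => ?_) (fun x hx => ?_) ?_ ha hb'
  · exact hq.differentiableAt (ho.mem_nhds (hre x hx x (mem_closedBall_self (by norm_num))))
  · have h1 : DiffContOnCl ℂ q (ball x (1 / 2)) := by
      apply DifferentiableOn.diffContOnCl_ball (U := {ζ : ℂ | σ - 1 < ζ.re}) hq
      exact fun y hy => hre x hx y hy
    have h2 := Complex.norm_deriv_le_of_forall_mem_sphere_norm_le (by norm_num : (0 : ℝ) < 1 / 2) h1
      (fun z hz => hb z (hre x hx z (sphere_subset_closedBall hz)))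
    linarith
  · exact convex_halfSpace_re_gt _

private theorem eN_step {q : ℂ → ℂ} {σ η : ℝ} {d : ℕ} (hd : 2 ≤ d) (hσ : 0 ≤ σ) (hη : 0 ≤ η)
    (hη' : η ≤ 1 / 8) (hq : DifferentiableOn ℂ q {ζ | σ - 1 < ζ.re})
    (hb : ∀ ζ : ℂ, σ - 1 < ζ.re → ‖q ζ‖ ≤ η) (n : ℕ) :
    ∀ w : ℂ, σ < w.re → ‖eN q d (n + 1) w - eN q d n w‖ ≤ η * (5 / 8) ^ n := by
  induction n with
  | zero =>
    intro w hw
    have h := eN_bd hd hσ hη hη' hb 1 w hw
    have h0 : eN q d 0 w = 0 := rfl
    rw [h0, sub_zero, pow_zero, mul_one]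
    exact h
  | succ n ih =>
    intro w hw
    have h1 := ih w hw
    have h2 := ih (d * w) (hw.trans_le (re_ge hd (hσ.trans hw.le)))
    have e1 : σ - 1 / 4 < (w + eN q d n w).re := by
      have h1 := eN_re hd hσ hη hη' hb n w hw
      linarith
    have e2 : σ - 1 / 4 < (w + eN q d (n + 1) w).re := by
      have h1 := eN_re hd hσ hη hη' hb (n + 1) w hw
      linarith
    have h3 := q_lip hη' hq hb e1 e2
    have h4 : (w + eN q d (n + 1) w) - (w + eN q d n w) = eN q d (n + 1) w - eN q d n w := by ring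
    rw [h4] at h3
    have h5 : ‖q (w + eN q d (n + 1) w) - q (w + eN q d n w)‖ ≤ 1 / 4 * (η * (5 / 8) ^ n) :=
      h3.trans (by gcongr)
    have h6 := div_le hd h2 h5
    have h7 : eN q d (n + 1 + 1) w - eN q d (n + 1) w =
        ((eN q d (n + 1) (d * w) - eN q d n (d * w)) -
          (q (w + eN q d (n + 1) w) - q (w + eN q d n w))) / d := by
      change (eN q d (n + 1) (d * w) - q (w + eN q d (n + 1) w)) / d -
        (eN q d n (d * w) - q (w + eN q d n w)) / d = _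
      ring
    rw [h7]
    refine h6.trans (le_of_eq ?_)
    rw [pow_succ]
    ring

theorem exists_fix {q : ℂ → ℂ} {σ η : ℝ} {d : ℕ} (hd : 2 ≤ d) (hσ : 0 ≤ σ) (hη : 0 ≤ η)
    (hη' : η ≤ 1 / 8) (hq : DifferentiableOn ℂ q {ζ | σ - 1 < ζ.re})
    (hb : ∀ ζ : ℂ, σ - 1 < ζ.re → ‖q ζ‖ ≤ η)
    (hper : ∀ ζ : ℂ, σ - 1 < ζ.re → q (ζ + 2 * Real.pi * Complex.I) = q ζ) :
    ∃ e : ℂ → ℂ, DifferentiableOn ℂ e {w | σ < w.re} ∧
      (∀ w : ℂ, σ < w.re → ‖e w‖ ≤ η) ∧
      (∀ w : ℂ, σ < w.re → e (w + 2 * Real.pi * Complex.I) = e w) ∧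
      (∀ w : ℂ, σ < w.re → (d : ℂ) * e w + q (w + e w) = e (d * w)) ∧
      ∀ s η₁ : ℝ, σ < s → (∀ ζ : ℂ, s - 1 / 8 ≤ ζ.re → ‖q ζ‖ ≤ η₁) →
        ∀ w : ℂ, s ≤ w.re → ‖e w‖ ≤ η₁ := by
  have hoP : IsOpen {w : ℂ | σ < w.re} := isOpen_lt continuous_const Complex.continuous_re
  have hoQ : IsOpen {ζ : ℂ | σ - 1 < ζ.re} := isOpen_lt continuous_const Complex.continuous_re
  have hst := eN_step hd hσ hη hη' hq hb
  have hsum : Summable (fun n : ℕ => η * (5 / 8 : ℝ) ^ n) :=
    (summable_geometric_of_lt_one (by norm_num) (by norm_num)).mul_left η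
  have hlim : ∀ w : ℂ, σ < w.re →
      Tendsto (fun n => eN q d n w) atTop (𝓝 (∑' n, (eN q d (n + 1) w - eN q d n w))) := by
    intro w hw
    have h1 : Summable (fun n => eN q d (n + 1) w - eN q d n w) :=
      Summable.of_norm_bounded hsum (fun n => hst n w hw)
    have h2 := h1.hasSum.tendsto_sum_nat
    have h3 : ∀ n, ∑ i ∈ Finset.range n, (eN q d (i + 1) w - eN q d i w) = eN q d n w := by
      intro n
      rw [Finset.sum_range_sub (fun i => eN q d i w)]
      have h0 : eN q d 0 w = 0 := rfl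
      rw [h0, sub_zero]
    simpa only [h3] using h2
  refine ⟨fun w => ∑' n, (eN q d (n + 1) w - eN q d n w), ?_, ?_, ?_, ?_, ?_⟩
  · refine Complex.differentiableOn_tsum_of_summable_norm hsum (fun n => ?_) hoP
      (fun n w hw => hst n w hw)
    exact (eN_dif hd hσ hη hη' hq hb (n + 1)).sub (eN_dif hd hσ hη hη' hq hb n)
  · intro w hw
    exact le_of_tendsto (hlim w hw).norm
      (Eventually.of_forall fun n => eN_bd hd hσ hη hη' hb n w hw)
  · intro w hw
    have hw' : σ < (w + 2 * Real.pi * Complex.I).re := by simpa using hw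
    refine tendsto_nhds_unique (hlim _ hw') ?_
    refine (hlim w hw).congr fun n => ?_
    exact (eN_per hd hσ hη hη' hb hper n w hw).symm
  · intro w hw
    have hw' : σ < ((d : ℂ) * w).re := hw.trans_le (re_ge hd (hσ.trans hw.le))
    have h1 := hlim w hw
    have h2 := hlim _ hw'
    have hn : ‖∑' n, (eN q d (n + 1) w - eN q d n w)‖ ≤ η :=
      le_of_tendsto h1.norm (Eventually.of_forall fun n => eN_bd hd hσ hη hη' hb n w hw)
    have hre : σ - 1 < (w + ∑' n, (eN q d (n + 1) w - eN q d n w)).re := by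
      have h3 := (abs_le.1 (Complex.abs_re_le_norm (∑' n, (eN q d (n + 1) w - eN q d n w)))).1
      rw [Complex.add_re]
      linarith
    have hqc : ContinuousAt q (w + ∑' n, (eN q d (n + 1) w - eN q d n w)) :=
      (hq.differentiableAt (hoQ.mem_nhds hre)).continuousAt
    have h4 : Tendsto (fun n => q (w + eN q d n w)) atTop
        (𝓝 (q (w + ∑' n, (eN q d (n + 1) w - eN q d n w)))) :=
      hqc.tendsto.comp (tendsto_const_nhds.add h1)
    have h5 : Tendsto (fun n => (d : ℂ) * eN q d (n + 1) w + q (w + eN q d n w)) atTop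
        (𝓝 ((d : ℂ) * (∑' n, (eN q d (n + 1) w - eN q d n w)) +
          q (w + ∑' n, (eN q d (n + 1) w - eN q d n w)))) :=
      (((tendsto_add_atTop_iff_nat 1).2 h1).const_mul (d : ℂ)).add h4
    refine tendsto_nhds_unique h5 (h2.congr fun n => ?_)
    have hd0 : (d : ℂ) ≠ 0 := by
      have : d ≠ 0 := by omega
      exact_mod_cast this
    change _ = (d : ℂ) * ((eN q d n (d * w) - q (w + eN q d n w)) / d) + q (w + eN q d n w)
    field_simp
    ring
  · intro s η₁ hs hq1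
    have h0 : 0 ≤ η₁ := by
      have := hq1 (s : ℂ) (by simp)
      exact (norm_nonneg _).trans this
    have key : ∀ n : ℕ, ∀ w : ℂ, s ≤ w.re → ‖eN q d n w‖ ≤ η₁ := by
      intro n
      induction n with
      | zero => intro w _; simpa [eN] using h0
      | succ n ih =>
        intro w hw
        have hwσ : σ < w.re := hs.trans_le hw
        have h1 := eN_re hd hσ hη hη' hb n w hwσ
        have h2 := ih (d * w) (hw.trans (re_ge hd (hσ.trans hwσ.le)))
        have h3 := hq1 (w + eN q d n w) (by linarith)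
        have h5 := div_le hd h2 h3
        calc ‖eN q d (n + 1) w‖ = ‖(eN q d n (d * w) - q (w + eN q d n w)) / d‖ := rfl
          _ ≤ (η₁ + η₁) / 2 := h5
          _ = η₁ := by ring
    intro w hw
    exact le_of_tendsto (hlim w (hs.trans_le hw)).norm (Eventually.of_forall fun n => key n w hw)

end Pool.Agent.JH
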