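import Pool.Agent.Lib.MP_8ebc20_an.BLf

/-!
# BSTEP: extension of the Bottcher map by one step

PROOF of `ext_step`.  `d = natDegree f ≥ 2`, `0 < σ`, so `σ / d < σ`.  `G w = E (d * w)` is holomorphic on
`{σ / d < re}` with values in `Kᶜ`.  Fix `w₀ = σ + 1`; `ev f (E w₀) = G w₀` (`fe`).  `lift_half` gives `E'` on
`{σ / d < re}` with `ev f (E' w) = E (d * w)`, `E' w₀ = E w₀`.  By `lift_unique` on `{σ < re}` (`fe`), `E' = E`
there.
`fe` for `E'`: `ev f (E' w) = E (d w) = E' (d w)` as `d w.re > σ`.  `mem`: `ev f (E' w) ∈ Kᶜ` and `ev_K`.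
`per`: `w ↦ E' (w + 2 π I)` and `E'` are continuous on `{σ / d < re}` and have the same image under `f`
(`E (d w + d * 2 π I) = E (d w)`: `per` of `E`, `d` times), and agree at `w₀` (`per` of `E`): `lift_unique`.
`dne`: the chain rule: `f' (E' w) * deriv E' w = d * deriv E (d w) ≠ 0`.
`asym`: the same as for `E` (take `max s σ`).
`inj`: let `E' w = E' w'`.  Then `E (d w) = E (d w')`, so `d w' = d w + 2 π I k`, `w' = w + u`, `u = 2 π I k / d`.
The functions `v ↦ E' (v + u)` and `E'` are continuous on `{σ / d < re}` (`u` is imaginary), have the same image under `f`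
(periodicity) and agree at `v = w`; so they agree everywhere (`lift_unique`), in particular at `v = w₀`:
`E (w₀ + u) = E w₀`, so by `inj` of `E`, `u = 2 π I m`: `w' = w + 2 π I m`.
-/

set_option autoImplicit false

namespace Pool.Agent.JH

open Polynomial Set Metric Filter Topology

variable {f : ℂ[X]}

private lemma bstep_re (w k : ℂ) (hk : k.im = 0) :
    (w + 2 * Real.pi * Complex.I * k).re = w.re := by
  simp [Complex.add_re, Complex.mul_re, hk]

theorem BotS.per_int {σ : ℝ} {E : ℂ → ℂ} (hE : BotS f σ E) {w : ℂ} (hw : σ < w.re) (k : ℤ) :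
    E (w + 2 * Real.pi * Complex.I * k) = E w := by
  induction k using Int.induction_on with
  | zero => simp
  | succ i ih =>
    rw [← ih]
    have h := hE.per (w + 2 * Real.pi * Complex.I * (((i : ℤ)) : ℂ))
      (by rw [bstep_re _ _ (by simp)]; exact hw)
    rw [← h]
    congr 1
    push_cast
    ring
  | pred i ih =>
    rw [← ih]
    have h := hE.per (w + 2 * Real.pi * Complex.I * ((-(i : ℤ) - 1 : ℤ) : ℂ))
      (by rw [bstep_re _ _ (by simp)]; exact hw)
    rw [← h]
    congr 1
    push_cast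
    ring

theorem BotS.ext_step (hd : 2 ≤ f.natDegree)
    (hc : ∀ c : ℂ, f.derivative.eval c = 0 → c ∈ KSet f) {σ : ℝ} (hσ : 0 < σ) {E : ℂ → ℂ}
    (hE : BotS f σ E) :
    ∃ E' : ℂ → ℂ, BotS f (σ / f.natDegree) E' ∧ ∀ w : ℂ, σ < w.re → E' w = E w := by
  have hdr : (2 : ℝ) ≤ (f.natDegree : ℝ) := by exact_mod_cast hd
  have hdpos : (0 : ℝ) < (f.natDegree : ℝ) := by linarith
  have hdne : (f.natDegree : ℂ) ≠ 0 := by
    intro h
    have : (f.natDegree : ℝ) = 0 := by exact_mod_cast h
    linarith
  have hsd : σ / f.natDegree < σ := by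
    rw [div_lt_iff₀ hdpos]
    nlinarith
  have hre : ∀ w : ℂ, σ / f.natDegree < w.re → σ < ((f.natDegree : ℂ) * w).re := by
    intro w hw
    rw [div_lt_iff₀ hdpos] at hw
    simp only [Complex.mul_re, Complex.natCast_re, Complex.natCast_im, zero_mul, sub_zero]
    linarith
  have hG : DifferentiableOn ℂ (fun w : ℂ => E ((f.natDegree : ℂ) * w))
      {w | σ / f.natDegree < w.re} := by
    apply hE.dE.comp
    · exact (differentiable_const _ |>.mul differentiable_id).differentiableOn
    · intro w hw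
      exact hre w hw
  have hw₀ : σ / f.natDegree < ((σ + 1 : ℝ) : ℂ).re := by
    rw [Complex.ofReal_re]
    linarith
  have hw₀' : σ < ((σ + 1 : ℝ) : ℂ).re := by
    rw [Complex.ofReal_re]
    linarith
  obtain ⟨E', hE'd, hE'0, hE'⟩ := lift_half hc hG (fun w hw => hE.mem _ (hre w hw)) hw₀
    (hE.fe _ hw₀')
  have hmono : ({w | σ < w.re} : Set ℂ) ⊆ {w | σ / f.natDegree < w.re} := by
    intro w hw
    have hw' : σ < w.re := hw
    show σ / f.natDegree < w.re
    linarith
  have hEE : ∀ w : ℂ, σ < w.re → E' w = E w := by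
    apply lift_unique hc (hE'd.continuousOn.mono hmono) hE.dE.continuousOn _ _ hw₀' hE'0
    · intro w hw
      rw [hE' w (hmono hw), hE.fe w hw]
    · intro w hw
      rw [hE' w (hmono hw)]
      exact hE.mem _ (hre w (hmono hw))
  -- invariance of `E (d * w)` under translations by `2 π I k / d`
  have htr : ∀ u : ℂ, u.re = 0 → (∃ k : ℤ, (f.natDegree : ℂ) * u = 2 * Real.pi * Complex.I * k) →
      ∀ w₁ : ℂ, σ / f.natDegree < w₁.re → E' (w₁ + u) = E' w₁ →
      ∀ w : ℂ, σ / f.natDegree < w.re → E' (w + u) = E' w := by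
    intro u hu hk w₁ hw₁ h1
    obtain ⟨k, hk⟩ := hk
    have hre' : ∀ w : ℂ, σ / f.natDegree < w.re → σ / f.natDegree < (w + u).re := by
      intro w hw
      rw [Complex.add_re, hu, add_zero]
      exact hw
    have hco : ContinuousOn (fun w : ℂ => E' (w + u)) {w | σ / f.natDegree < w.re} := by
      apply hE'd.continuousOn.comp
      · exact (continuous_id.add continuous_const).continuousOn
      · intro w hw
        exact hre' w hw
    apply lift_unique hc hco hE'd.continuousOn _ _ hw₁ h1
    · intro w hw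
      show ev f (E' (w + u)) = ev f (E' w)
      rw [hE' w hw, hE' _ (hre' w hw), mul_add, hk]
      exact hE.per_int (hre w hw) k
    · intro w hw
      show ev f (E' (w + u)) ∈ _
      rw [hE' _ (hre' w hw)]
      exact hE.mem _ (hre _ (hre' w hw))
  refine ⟨E', ⟨hE'd, ?_, ?_, ?_, ?_, ?_, ?_⟩, hEE⟩
  · -- per
    apply htr (2 * Real.pi * Complex.I) (by simp) ⟨f.natDegree, by push_cast; ring⟩ _ hw₀
    rw [hEE _ hw₀', hEE _ (by simp)]
    exact hE.per _ hw₀'
  · -- fe
    intro w hw
    rw [hE' w hw, hEE _ (hre w hw)]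
  · -- inj
    intro w w' hw hw' h
    have h1 : E ((f.natDegree : ℂ) * w) = E ((f.natDegree : ℂ) * w') := by
      rw [← hE' w hw, ← hE' w' hw', h]
    obtain ⟨k, hk⟩ := hE.inj _ _ (hre w hw) (hre w' hw') h1
    have hu : (f.natDegree : ℂ) * (w' - w) = 2 * Real.pi * Complex.I * k := by
      rw [mul_sub, hk]
      ring
    have hure : (w' - w).re = 0 := by
      have := congrArg Complex.re hu
      have h2 : (2 * (Real.pi : ℂ) * Complex.I * (k : ℂ)).re = 0 := by
        simp [Complex.mul_re]
      rw [h2] at this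
      simp only [Complex.mul_re, Complex.natCast_re, Complex.natCast_im, zero_mul, sub_zero] at this
      rcases mul_eq_zero.1 this with h3 | h3
      · exfalso
        linarith
      · exact h3
    have h3 := htr (w' - w) hure ⟨k, hu⟩ w hw (by rw [add_sub_cancel, h]) _ hw₀
    have hw₀u : σ < (((σ + 1 : ℝ) : ℂ) + (w' - w)).re := by
      rw [Complex.add_re, hure, add_zero]
      exact hw₀'
    rw [hEE _ hw₀', hEE _ hw₀u] at h3
    obtain ⟨m, hm⟩ := hE.inj _ _ hw₀' hw₀u h3.symm
    refine ⟨m, ?_⟩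
    have h4 : w' - w = 2 * Real.pi * Complex.I * m := add_left_cancel hm
    rw [← h4]
    ring
  · -- mem
    intro w hw hK
    have h1 := ev_K hK
    rw [hE' w hw] at h1
    exact hE.mem _ (hre w hw) h1
  · -- dne
    intro w hw h0
    have hopen : IsOpen ({w | σ / f.natDegree < w.re} : Set ℂ) :=
      isOpen_lt continuous_const Complex.continuous_re
    have hopen' : IsOpen ({w | σ < w.re} : Set ℂ) :=
      isOpen_lt continuous_const Complex.continuous_re
    have hdE' : DifferentiableAt ℂ E' w := hE'd.differentiableAt (hopen.mem_nhds hw)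
    have h1 : HasDerivAt (fun v : ℂ => ev f (E' v)) (f.derivative.eval (E' w) * deriv E' w) w :=
      (f.hasDerivAt (E' w)).comp w hdE'.hasDerivAt
    have hdE : DifferentiableAt ℂ E ((f.natDegree : ℂ) * w) :=
      hE.dE.differentiableAt (hopen'.mem_nhds (hre w hw))
    have h2 : HasDerivAt (fun v : ℂ => E ((f.natDegree : ℂ) * v))
        (deriv E ((f.natDegree : ℂ) * w) * (f.natDegree : ℂ)) w := by
      have hl : HasDerivAt (fun v : ℂ => (f.natDegree : ℂ) * v) (f.natDegree : ℂ) w := by
        simpa using (hasDerivAt_id w).const_mul (f.natDegree : ℂ)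
      exact HasDerivAt.comp w hdE.hasDerivAt hl
    have h3 : (fun v : ℂ => ev f (E' v)) =ᶠ[𝓝 w] fun v : ℂ => E ((f.natDegree : ℂ) * v) := by
      filter_upwards [hopen.mem_nhds hw] with v hv
      exact hE' v hv
    have h4 := (h2.congr_of_eventuallyEq h3).unique h1
    rw [h0, mul_zero] at h4
    rcases mul_eq_zero.1 h4 with h5 | h5
    · exact hE.dne _ (hre w hw) h5
    · exact hdne h5
  · -- asym
    intro ε hε
    obtain ⟨s, hs⟩ := hE.asym ε hε
    refine ⟨max s σ, ?_⟩
    intro w hw
    rw [hEE w (lt_of_le_of_lt (le_max_right _ _) hw)]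
    exact hs w (lt_of_le_of_lt (le_max_left _ _) hw)

end Pool.Agent.JH
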