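import Pool.Agent.Lib.MP_8ebc20_an.BGlue
import Pool.Agent.Lib.MP_8ebc20_an.BE

/-!
# BSURJ: the Bottcher map is onto the basin of infinity

PROOFS. `down`: `0 < w.re`, `ev f z = E w`.  The points `z_k = E ((w + 2 π I k) / d)`, `k < d`, satisfy
`ev f z_k = E (w + 2 π I k) = E w` (`fe`, `per_int`), and are distinct: `z_k = z_l` gives by `inj`
`2 π I (l - k) / d = 2 π I m`, so `d` divides `l - k`, `k = l`.  They are `d` roots of the polynomial `f - C (E w)`
(not zero, of degree `d`), which has at most `d` roots (`Polynomial.card_roots'`, `Multiset.toFinset`), so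
every root, in particular `z`, is one of them (`Finset.eq_of_subset_of_card_le`).
`exists_bot`: `exists_near` and `exists_all` (`σ = log ρ + 2 > 0`).  Surjectivity: let `z ∉ K`; the orbit is not
bounded, so for some `n`, `exp (log ρ + 3) ≤ ‖(ev f)^[n] z‖` (`escape` with `Q = {z}`), so `(ev f)^[n] z = E w`; apply
`down` `n` times (induction on `n`; `Function.iterate_succ_apply'`).
-/

set_option autoImplicit false

namespace Pool.Agent.JH

open Polynomial Set Metric Filter Topology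

variable {f : ℂ[X]}

theorem BotS.down (hd : 2 ≤ f.natDegree) {E : ℂ → ℂ} (hE : BotS f 0 E) {z w : ℂ} (hw : 0 < w.re)
    (hz : ev f z = E w) : ∃ w' : ℂ, 0 < w'.re ∧ E w' = z := by
  have hd0 : (0 : ℝ) < (f.natDegree : ℝ) := by
    have : 0 < f.natDegree := by omega
    exact_mod_cast this
  have hdc : (f.natDegree : ℂ) ≠ 0 := by
    have : f.natDegree ≠ 0 := by omega
    exact_mod_cast this
  have hpi : (2 * (Real.pi : ℂ) * Complex.I) ≠ 0 := Complex.two_pi_I_ne_zero
  set a : ℕ → ℂ := fun k => (w + 2 * Real.pi * Complex.I * k) / f.natDegree with ha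
  have hre : ∀ k, (a k).re = w.re / f.natDegree := by
    intro k
    have h1 : a k = ((1 / f.natDegree : ℝ) : ℂ) * (w + 2 * Real.pi * Complex.I * k) := by
      simp only [ha]
      push_cast
      field_simp
    rw [h1, Complex.re_ofReal_mul]
    simp
    ring
  have hpos : ∀ k, 0 < (a k).re := by
    intro k
    rw [hre]
    positivity
  have hmul : ∀ k, (f.natDegree : ℂ) * a k = w + 2 * Real.pi * Complex.I * k := by
    intro k
    simp only [ha]
    field_simp
  have hev : ∀ k, ev f (E (a k)) = E w := by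
    intro k
    rw [hE.fe _ (hpos k), hmul]
    have h2 := hE.per_int hw (k : ℤ)
    push_cast at h2
    exact h2
  have hinj : ∀ k ∈ Finset.range f.natDegree, ∀ l ∈ Finset.range f.natDegree,
      E (a k) = E (a l) → k = l := by
    intro k hk l hl h
    obtain ⟨m, hm⟩ := hE.inj _ _ (hpos k) (hpos l) h
    have h3 : (f.natDegree : ℂ) * a l = (f.natDegree : ℂ) * a k +
        2 * Real.pi * Complex.I * (f.natDegree * m) := by
      rw [hm]; ring
    rw [hmul, hmul] at h3
    have h4 : (2 * (Real.pi : ℂ) * Complex.I) * ((l : ℂ) - k - f.natDegree * m) = 0 := by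
      linear_combination h3
    have h5 : (l : ℂ) - k - f.natDegree * m = 0 := by
      rcases mul_eq_zero.1 h4 with h5 | h5
      · exact absurd h5 hpi
      · exact h5
    have h6 : (l : ℤ) - k = f.natDegree * m := by
      have : ((((l : ℤ) - k - f.natDegree * m : ℤ)) : ℂ) = 0 := by push_cast; exact h5
      have h7 := Int.cast_eq_zero.1 this
      omega
    rw [Finset.mem_range] at hk hl
    have h7 : m = 0 := by
      by_contra hm0
      have h8 : (1 : ℤ) ≤ |m| := Int.one_le_abs hm0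
      have h9 : |(l : ℤ) - k| < f.natDegree := by
        rw [abs_lt]; omega
      rw [h6, abs_mul, abs_of_nonneg (by positivity : (0 : ℤ) ≤ (f.natDegree : ℤ))] at h9
      nlinarith
    rw [h7] at h6
    omega
  set p : ℂ[X] := f - C (E w) with hp
  have hpd : p.natDegree = f.natDegree := natDegree_sub_C
  have hp0 : p ≠ 0 := by
    intro h
    rw [h, natDegree_zero] at hpd
    omega
  have hroot : ∀ y : ℂ, y ∈ p.roots.toFinset ↔ ev f y = E w := by
    intro y
    rw [Multiset.mem_toFinset, mem_roots hp0, IsRoot.def, hp, eval_sub, eval_C, sub_eq_zero]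
    rfl
  have hcard : p.roots.toFinset.card ≤ ((Finset.range f.natDegree).image fun k => E (a k)).card := by
    rw [Finset.card_image_of_injOn (fun k hk l hl h => hinj k hk l hl h), Finset.card_range]
    calc p.roots.toFinset.card ≤ Multiset.card p.roots := Multiset.toFinset_card_le _
      _ ≤ p.natDegree := card_roots' p
      _ = f.natDegree := hpd
  have hsub : ((Finset.range f.natDegree).image fun k => E (a k)) ⊆ p.roots.toFinset := by
    intro y hy
    obtain ⟨k, -, rfl⟩ := Finset.mem_image.1 hy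
    exact (hroot _).2 (hev k)
  have heq := Finset.eq_of_subset_of_card_le hsub hcard
  have hzm : z ∈ p.roots.toFinset := (hroot z).2 hz
  rw [← heq] at hzm
  obtain ⟨k, -, hk⟩ := Finset.mem_image.1 hzm
  exact ⟨a k, hpos k, hk⟩

private theorem bsurj_iter (hd : 2 ≤ f.natDegree) {E : ℂ → ℂ} (hE : BotS f 0 E) (n : ℕ) :
    ∀ z : ℂ, (∃ w : ℂ, 0 < w.re ∧ E w = (ev f)^[n] z) → ∃ w : ℂ, 0 < w.re ∧ E w = z := by
  induction n with
  | zero => exact fun z h => h
  | succ n ih =>
    intro z h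
    rw [Function.iterate_succ_apply] at h
    obtain ⟨w', hw', h'⟩ := ih _ h
    exact hE.down hd hw' h'.symm

/-- existence of the Bottcher map with an explicit estimate near infinity -/
theorem exists_bot (hd : 2 ≤ f.natDegree) (hm : f.Monic)
    (hc : ∀ c : ℂ, f.derivative.eval c = 0 → c ∈ KSet f) {ρ : ℝ} (hρ : 1 ≤ ρ)
    (hf : ∀ z : ℂ, ρ ≤ ‖z‖ → ‖ev f z - z ^ f.natDegree‖ ≤ 1 / 16 * ‖z‖ ^ f.natDegree) :
    ∃ E : ℂ → ℂ, BotS f 0 E ∧ (∀ z ∈ (KSet f)ᶜ, ∃ w : ℂ, 0 < w.re ∧ E w = z) ∧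
      ∀ ρ₁ η₁ : ℝ, ρ ≤ ρ₁ →
        (∀ z : ℂ, ρ₁ ≤ ‖z‖ → ‖ev f z - z ^ f.natDegree‖ ≤ η₁ * ‖z‖ ^ f.natDegree) →
        ∀ w : ℂ, Real.log ρ + 2 < w.re → Real.log ρ₁ + 2 ≤ w.re →
          ‖E w - Complex.exp w‖ ≤ 4 * η₁ * ‖Complex.exp w‖ := by
  obtain ⟨E₀, h0, h1, h2⟩ := exists_near hd hm hρ hf
  have hσ : 0 < Real.log ρ + 2 := by
    have := Real.log_nonneg hρ
    linarith
  obtain ⟨E, hE, hEE⟩ := h0.exists_all hd hc hσ
  refine ⟨E, hE, ?_, ?_⟩
  · intro z hz
    obtain ⟨N, hN⟩ := escape hd (isCompact_singleton (x := z)) (singleton_subset_iff.2 hz)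
      (Real.exp (Real.log ρ + 3))
    obtain ⟨w, hw, hw'⟩ := h1 _ (hN N le_rfl z rfl)
    refine bsurj_iter hd hE N z ⟨w, hσ.trans hw, ?_⟩
    rw [hEE w hw, hw']
  · intro ρ₁ η₁ hρ₁ hf₁ w hw hw₁
    rw [hEE w hw]
    exact h2 ρ₁ η₁ hρ₁ hf₁ w hw hw₁

end Pool.Agent.JH
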