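import Pool.Agent.Lib.MP_8ebc20_an.Bas1

/-!
# BAS2: first properties of `J`

PROOFS. `J = frontier K`, `K` compact nonempty and not everything, so `J` is compact, contained in
`K`; nonempty (`nonempty_frontier_iff`).  `ev_mem_J`: `f` is an open map (nonconstant polynomial: open mapping
theorem, `AnalyticOnNhd.eqOn_of_...`/`is_constant_or_isOpen`), continuous, and `f ⁻¹' K = K`, so
`f ⁻¹' (frontier K) = frontier (f ⁻¹' K) = frontier K`
(`IsOpenMap.preimage_frontier_eq_frontier_preimage`).  `surj`: `IsAlgClosed`.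
`interior K = K \ frontier K` as `K` is closed.  `closure Kᶜ = Kᶜ ∪ J`: `closure Kᶜ = (interior K)ᶜ`.
`no_crit`: if `f' c = 0` and `c ∈ J` then `f c ∈ J` and `f c ∈ PC f` (`n = 1`).
-/

set_option autoImplicit false

namespace Pool.Agent.JH

open Polynomial Set Metric Filter Topology

variable {f : ℂ[X]} {J : Set ℂ}

theorem isOpenMap_ev (hd : 2 ≤ f.natDegree) : IsOpenMap (ev f) := by
  have han : AnalyticOnNhd ℂ (ev f) univ := by
    apply DifferentiableOn.analyticOnNhd _ isOpen_univ
    exact f.differentiable.differentiableOn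
  rcases han.is_constant_or_isOpen isPreconnected_univ with ⟨w, hw⟩ | h
  · exfalso
    have hfw : f = C w := by
      apply Polynomial.funext
      intro z
      rw [eval_C]
      exact hw z (mem_univ _)
    rw [hfw, natDegree_C] at hd
    omega
  · intro s hs
    exact h s (subset_univ _) hs

theorem surj_ev (hd : 2 ≤ f.natDegree) (w : ℂ) : ∃ z, ev f z = w := by
  have hn : (f - C w).natDegree = f.natDegree := natDegree_sub_C
  have hdeg : (f - C w).degree ≠ 0 := by
    have h1 : 0 < (f - C w).natDegree := by omega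
    have h2 := natDegree_pos_iff_degree_pos.1 h1
    exact ne_of_gt h2
  obtain ⟨z, hz⟩ := IsAlgClosed.exists_root (f - C w) hdeg
  refine ⟨z, ?_⟩
  have h3 : (f - C w).eval z = 0 := hz
  rw [eval_sub, eval_C] at h3
  exact sub_eq_zero.1 h3

theorem surj_it (hd : 2 ≤ f.natDegree) (n : ℕ) (w : ℂ) : ∃ z, (ev f)^[n] z = w := by
  induction n with
  | zero => exact ⟨w, rfl⟩
  | succ n ih =>
    obtain ⟨y, hy⟩ := ih
    obtain ⟨z, hz⟩ := surj_ev hd y
    refine ⟨z, ?_⟩
    rw [Function.iterate_succ_apply, hz, hy]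

private lemma bas2_fibre1 (hd : 2 ≤ f.natDegree) (w : ℂ) : {z | ev f z = w}.Finite := by
  have hne : f - C w ≠ 0 := by
    intro h0
    have h1 : f = C w := sub_eq_zero.1 h0
    rw [h1, natDegree_C] at hd
    omega
  apply (Polynomial.finite_setOfPred_isRoot hne).subset
  intro z hz
  have hz' : f.eval z = w := hz
  show (f - C w).eval z = 0
  rw [eval_sub, eval_C, hz', sub_self]

theorem finite_fibre (hd : 2 ≤ f.natDegree) (n : ℕ) (w : ℂ) : {z | (ev f)^[n] z = w}.Finite := by
  induction n with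
  | zero =>
    apply (Set.finite_singleton w).subset
    intro z hz
    exact hz
  | succ n ih =>
    apply (ih.biUnion (fun y _ => bas2_fibre1 hd y)).subset
    intro z hz
    simp only [mem_iUnion]
    refine ⟨ev f z, ?_, rfl⟩
    have hz' : (ev f)^[n + 1] z = w := hz
    rw [Function.iterate_succ_apply] at hz'
    exact hz'

theorem Hyp.J_sub_K (h : Hyp f J) : J ⊆ KSet f := by
  rw [h.eq]
  exact (isCompact_K h.deg).isClosed.frontier_subset

theorem Hyp.isCompact_J (h : Hyp f J) : IsCompact J := by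
  apply (isCompact_K h.deg).of_isClosed_subset _ h.J_sub_K
  rw [h.eq]
  exact isClosed_frontier

theorem Hyp.J_nonempty (h : Hyp f J) : J.Nonempty := by
  rw [h.eq, nonempty_frontier_iff]
  refine ⟨K_nonempty h.deg, ?_⟩
  intro hu
  have hc := isCompact_K h.deg
  rw [hu] at hc
  exact noncompact_univ ℂ hc

private lemma bas2_pre (hd : 2 ≤ f.natDegree) : ev f ⁻¹' KSet f = KSet f := by
  ext z
  exact ev_mem_K hd

theorem Hyp.ev_mem_J (h : Hyp f J) {z : ℂ} : ev f z ∈ J ↔ z ∈ J := by
  have h1 := (isOpenMap_ev h.deg).preimage_frontier_eq_frontier_preimage continuous_ev (KSet f)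
  rw [bas2_pre h.deg, ← h.eq] at h1
  rw [← mem_preimage, h1]

theorem Hyp.it_mem_J (h : Hyp f J) (n : ℕ) {z : ℂ} : (ev f)^[n] z ∈ J ↔ z ∈ J := by
  induction n generalizing z with
  | zero => exact Iff.rfl
  | succ n ih => rw [Function.iterate_succ_apply, ih, h.ev_mem_J]

theorem Hyp.interior_K (h : Hyp f J) : interior (KSet f) = KSet f \ J := by
  rw [h.eq]
  exact (self_sdiff_frontier (KSet f)).symm

theorem Hyp.closure_compl_K (h : Hyp f J) : closure (KSet f)ᶜ = (KSet f)ᶜ ∪ J := by
  rw [closure_compl, h.interior_K, sdiff_eq, compl_inter, compl_compl]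

theorem Hyp.no_crit (h : Hyp f J) {c : ℂ} (hc : c ∈ J) : f.derivative.eval c ≠ 0 := by
  intro h0
  have h1 : ev f c ∈ J := h.ev_mem_J.2 hc
  have h2 : ev f c ∈ PC f := subset_closure ⟨c, 1, le_refl _, h0, rfl⟩
  exact Set.disjoint_left.1 h.disj h2 h1

theorem Hyp.ev_mem_int (h : Hyp f J) {z : ℂ} : ev f z ∈ interior (KSet f) ↔ z ∈ interior (KSet f) := by
  rw [h.interior_K, Set.mem_sdiff, Set.mem_sdiff, ev_mem_K h.deg, h.ev_mem_J]

/-- every point of `J` is a limit of points outside `K` -/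
theorem Hyp.exists_near (h : Hyp f J) {x : ℂ} (hx : x ∈ J) {ε : ℝ} (hε : 0 < ε) :
    ∃ z ∈ (KSet f)ᶜ, ‖z - x‖ < ε := by
  have h1 : x ∈ closure (KSet f)ᶜ := by
    rw [h.closure_compl_K]
    exact Or.inr hx
  obtain ⟨z, hz, hd⟩ := Metric.mem_closure_iff.1 h1 ε hε
  refine ⟨z, hz, ?_⟩
  rw [← dist_eq_norm, dist_comm]
  exact hd

end Pool.Agent.JH
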