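import Pool.Agent.Lib.MP_8ebc20_an.Bas3a

/-!
# BAS3: `J` has two points; connected sets missing `J`

PROOFS. `J_nontrivial`: if `J = {x}` (`J_nonempty`) then `K = {x}`: `interior K = K \ {x}` is open, and
relatively closed in `{x}ᶜ` (`K` is closed), which is connected
(`isConnected_compl_singleton_of_one_lt_rank`), so it is empty or `{x}ᶜ`, and it is bounded.  Then
`f z = x ↔ z = x` (`ev_mem_K`), so the polynomial `f - C x` has only the root `x`; as it splits, its
root multiset has `natDegree ≥ 2` elements, all equal to `x`, so `x` is a multiple root and `f' x = 0`,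
contradicting `no_crit`.
`sub_compl_K`: `S ⊆ Kᶜ ∪ interior K` (`interior_K`), two disjoint open sets
(`IsPreconnected.subset_left_of_subset_union`).
`sub_int`: the same.
-/

set_option autoImplicit false

namespace Pool.Agent.JH

open Polynomial Set Metric Filter Topology

variable {f : ℂ[X]} {J : Set ℂ}

private theorem bas3_cover (h : Hyp f J) {S : Set ℂ} (hSJ : Disjoint S J) :
    S ⊆ (KSet f)ᶜ ∪ interior (KSet f) := by
  intro z hz
  by_cases hK : z ∈ KSet f
  · refine Or.inr ?_
    rw [h.interior_K]
    exact ⟨hK, fun hJ => Set.disjoint_left.1 hSJ hz hJ⟩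
  · exact Or.inl hK

private theorem bas3_disj : Disjoint (KSet f)ᶜ (interior (KSet f)) :=
  Set.disjoint_left.2 fun _ h1 h2 => h1 (interior_subset h2)

private theorem bas3_open (h : Hyp f J) : IsOpen (KSet f)ᶜ :=
  (isCompact_K h.deg).isClosed.isOpen_compl

/-- a preconnected set which misses `J` and meets `Kᶜ` is contained in `Kᶜ` -/
theorem Hyp.sub_compl_K (h : Hyp f J) {S : Set ℂ} (hS : IsPreconnected S) (hSJ : Disjoint S J)
    (hne : (S ∩ (KSet f)ᶜ).Nonempty) : S ⊆ (KSet f)ᶜ :=
  IsPreconnected.subset_left_of_subset_union (bas3_open h) isOpen_interior bas3_disj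
    (bas3_cover h hSJ) hne hS

/-- a preconnected set which misses `J` and meets `interior K` is contained in `interior K` -/
theorem Hyp.sub_int (h : Hyp f J) {S : Set ℂ} (hS : IsPreconnected S) (hSJ : Disjoint S J)
    (hne : (S ∩ interior (KSet f)).Nonempty) : S ⊆ interior (KSet f) :=
  IsPreconnected.subset_right_of_subset_union (bas3_open h) isOpen_interior bas3_disj
    (bas3_cover h hSJ) hne hS

private theorem bas3_single (h : Hyp f J) {x : ℂ} (hJ : J = {x}) : KSet f = {x} := by
  have hxJ : x ∈ J := by rw [hJ]; exact rfl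
  have hint : ¬ (interior (KSet f)).Nonempty := by
    rintro ⟨y, hy⟩
    have h1 : IsPreconnected ({x}ᶜ : Set ℂ) :=
      (isConnected_compl_singleton_of_one_lt_rank
        (by rw [Complex.rank_real_complex]; exact Nat.one_lt_ofNat) x).isPreconnected
    have h2 : Disjoint ({x}ᶜ : Set ℂ) J := by
      rw [hJ]
      exact disjoint_compl_left
    have hyJ : y ∉ J := by
      rw [h.interior_K] at hy
      exact hy.2
    have hyx : y ∈ ({x}ᶜ : Set ℂ) := by
      rw [hJ] at hyJ
      exact hyJ
    have h3 := h.sub_int h1 h2 ⟨y, hyx, hy⟩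
    refine unbounded_compl_K h.deg ?_
    have h4 : (KSet f)ᶜ = ∅ := by
      rw [Set.compl_empty_iff, Set.eq_univ_iff_forall]
      intro z
      by_cases hz : z = x
      · rw [hz]
        exact h.J_sub_K hxJ
      · exact interior_subset (h3 hz)
    rw [h4]
    exact Bornology.isBounded_empty
  apply Set.Subset.antisymm
  · intro z hz
    by_contra hzx
    refine hint ⟨z, ?_⟩
    rw [h.interior_K]
    refine ⟨hz, fun hzJ => hzx ?_⟩
    rw [hJ] at hzJ
    exact hzJ
  · rw [Set.singleton_subset_iff]
    exact h.J_sub_K hxJ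

theorem Hyp.J_nontrivial (h : Hyp f J) : J.Nontrivial := by
  by_contra hcon
  rw [Set.not_nontrivial_iff] at hcon
  obtain ⟨x, hx⟩ := h.J_nonempty
  have hJ : J = {x} := hcon.eq_singleton_of_mem hx
  have hK := bas3_single h hJ
  have hd : 2 ≤ f.natDegree := h.deg
  have hroot : ∀ z, ev f z = x → z = x := by
    intro z hz
    have h1 : ev f z ∈ KSet f := by
      rw [hK, hz]
      exact rfl
    rw [ev_mem_K hd, hK] at h1
    exact h1
  have hnd : (f - C x).natDegree = f.natDegree := natDegree_sub_C
  have hg0 : f - C x ≠ 0 := by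
    intro h0
    rw [h0, natDegree_zero] at hnd
    omega
  have hall : ∀ z ∈ (f - C x).roots, z = x := by
    intro z hz
    rw [mem_roots hg0, IsRoot, eval_sub, eval_C, sub_eq_zero] at hz
    exact hroot z hz
  have hcard : Multiset.card (f - C x).roots = f.natDegree := by
    rw [← hnd]
    exact (splits_iff_card_roots.1 (IsAlgClosed.splits (f - C x)))
  have hrep : (f - C x).roots = Multiset.replicate f.natDegree x := by
    rw [Multiset.eq_replicate]
    exact ⟨hcard, hall⟩
  have hmul : 1 < (f - C x).rootMultiplicity x := by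
    rw [← count_roots, hrep, Multiset.count_replicate_self]
    omega
  have h2 := (one_lt_rootMultiplicity_iff_isRoot hg0).1 hmul
  refine h.no_crit hx ?_
  rcases h2 with ⟨h3, h4⟩
  have h5 : (derivative (f - C x)).eval x = 0 := by
    first
      | exact h3
      | exact h4
  rw [derivative_sub, derivative_C, sub_zero] at h5
  exact h5

end Pool.Agent.JH
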