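import Pool.Agent.Lib.MP_8ebc20_an.Bas2

/-!
# BAS3A: the basin of infinity is connected

PROOFS. `preconn_compl_ball`: the image of the connected set `Ici R ×ˢ univ` of `ℝ × ℝ` under
`(r, t) ↦ r exp (t I)` (polar coordinates).
`frontier_comp_disj`: let `V = connectedComponentIn O z`, open (`IsOpen.connectedComponentIn`).  Let
`w ∈ frontier V ∩ O`; the component `V'` of `w` in `O` is open and contains `w ∈ closure V`, so `V'` meets
`V`, so `V' = V` (`connectedComponentIn_eq`...), and `w ∈ V` open is not in `frontier V`.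
`preconn_compl_K`: let `z ∉ K` and `V = connectedComponentIn Kᶜ z` (open, as `Kᶜ` is open).  If `V`
misses `{RR ≤ ‖w‖}` then `V` is bounded and its frontier is contained in `K` (`frontier_comp_disj`), so
`‖f^[n] w‖ ≤ RR` on the frontier, hence on `V` for all `n`
(`Complex.norm_le_of_forall_mem_frontier_norm_le`), contradicting `escape` at `z`.  So every component
meets the connected set `{RR ≤ ‖w‖} ⊆ Kᶜ`, hence contains it, and all components are equal.
-/

set_option autoImplicit false

namespace Pool.Agent.JH

open Polynomial Set Metric Filter Topology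

variable {f : ℂ[X]} {J : Set ℂ}

theorem preconn_compl_ball (R : ℝ) (hR : 0 < R) : IsPreconnected {z : ℂ | R ≤ ‖z‖} := by
  have h1 : IsPreconnected ((fun p : ℝ × ℝ => (p.1 : ℂ) * Complex.exp (p.2 * Complex.I)) ''
      (Ici R ×ˢ univ)) := by
    refine (isPreconnected_Ici.prod isPreconnected_univ).image _ (Continuous.continuousOn ?_)
    fun_prop
  convert h1 using 1
  ext z
  constructor
  · intro hz
    exact ⟨(‖z‖, Complex.arg z), ⟨hz, Set.mem_univ _⟩, Complex.norm_mul_exp_arg_mul_I z⟩
  · rintro ⟨⟨a, t⟩, ⟨ha, -⟩, rfl⟩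
    have ha' : R ≤ a := ha
    change R ≤ ‖(a : ℂ) * Complex.exp (t * Complex.I)‖
    rw [norm_mul, Complex.norm_exp_ofReal_mul_I, mul_one, Complex.norm_real, Real.norm_eq_abs]
    exact ha'.trans (le_abs_self a)

/-- the frontier of a component of an open set is disjoint from the open set -/
theorem frontier_comp_disj {O : Set ℂ} (hO : IsOpen O) (z : ℂ) :
    Disjoint (frontier (connectedComponentIn O z)) O := by
  rw [Set.disjoint_left]
  intro w hw hwO
  have hV : IsOpen (connectedComponentIn O z) := hO.connectedComponentIn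
  have hV' : IsOpen (connectedComponentIn O w) := hO.connectedComponentIn
  have hwV' : w ∈ connectedComponentIn O w := mem_connectedComponentIn hwO
  obtain ⟨u, hu1, hu2⟩ := mem_closure_iff.1 (frontier_subset_closure hw) _ hV' hwV'
  have e1 := connectedComponentIn_eq hu1
  have e2 := connectedComponentIn_eq hu2
  have : w ∈ connectedComponentIn O z := by
    rw [e2, ← e1]
    exact hwV'
  rw [hV.frontier_eq] at hw
  exact hw.2 this

theorem unbounded_compl_K (hd : 2 ≤ f.natDegree) : ¬ Bornology.IsBounded (KSet f)ᶜ := by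
  intro h
  have h1 := h.union (isCompact_K hd).isBounded
  rw [Set.compl_union_self] at h1
  exact NormedSpace.unbounded_univ ℝ ℂ h1

theorem preconn_compl_K (hd : 2 ≤ f.natDegree) : IsPreconnected (KSet f)ᶜ := by
  obtain ⟨hR1, hR2⟩ := RR_spec hd
  have hO : IsOpen (KSet f)ᶜ := (isCompact_K hd).isClosed.isOpen_compl
  have hS := preconn_compl_ball (RR f) (by linarith)
  have hSK : {z : ℂ | RR f ≤ ‖z‖} ⊆ (KSet f)ᶜ := by
    intro z hz hzK
    have h1 := (mem_K_iff hd).1 hzK 0
    have h2 : RR f ≤ ‖z‖ := hz
    simp only [Function.iterate_zero, id_eq] at h1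
    linarith
  have hmeet : ∀ z ∈ (KSet f)ᶜ, {z : ℂ | RR f ≤ ‖z‖} ⊆ connectedComponentIn (KSet f)ᶜ z := by
    intro z hz
    have hex : ∃ w ∈ connectedComponentIn (KSet f)ᶜ z, RR f ≤ ‖w‖ := by
      by_contra hcon
      push Not at hcon
      have hb : Bornology.IsBounded (connectedComponentIn (KSet f)ᶜ z) := by
        refine (Metric.isBounded_ball (x := (0 : ℂ)) (r := RR f)).subset fun w hw => ?_
        rw [mem_ball_zero_iff]
        exact hcon w hw
      have hle : ∀ n : ℕ, ‖(ev f)^[n] z‖ ≤ RR f := by
        intro n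
        have hdf : Differentiable ℂ ((ev f)^[n]) := Differentiable.iterate f.differentiable n
        refine Complex.norm_le_of_forall_mem_frontier_norm_le hb hdf.diffContOnCl ?_
          (subset_closure (mem_connectedComponentIn hz))
        intro w hw
        have hwK : w ∈ KSet f := by
          by_contra h
          exact Set.disjoint_left.1 (frontier_comp_disj hO z) hw h
        exact ((mem_K_iff hd).1 hwK n).le
      refine hz ((mem_K_iff hd).2 fun n => ?_)
      refine lt_of_le_of_ne (hle n) fun he => ?_
      have h1 := hR2 ((ev f)^[n] z) he.ge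
      have h2 := hle (n + 1)
      rw [Function.iterate_succ_apply', ] at h2
      rw [he] at h1
      linarith
    obtain ⟨w, hw, hwR⟩ := hex
    rw [connectedComponentIn_eq hw]
    exact hS.subset_connectedComponentIn hwR hSK
  have hp : ((RR f : ℝ) : ℂ) ∈ {z : ℂ | RR f ≤ ‖z‖} := by
    change RR f ≤ ‖((RR f : ℝ) : ℂ)‖
    rw [Complex.norm_real, Real.norm_eq_abs]
    exact le_abs_self _
  have heq : (KSet f)ᶜ = connectedComponentIn (KSet f)ᶜ ((RR f : ℝ) : ℂ) := by
    apply Set.Subset.antisymm
    · intro z hz
      rw [← connectedComponentIn_eq (hmeet z hz hp)]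
      exact mem_connectedComponentIn hz
    · exact connectedComponentIn_subset _ _
  rw [heq]
  exact isPreconnected_connectedComponentIn

end Pool.Agent.JH
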