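import Pool.Agent.Lib.MP_8ebc20_an.Jan1

/-!
# JAN: the theorem of Janiszewski

PROOF.  `p, q ∉ X`, `p, q ∉ Y` (components are contained in the complements).  Take logarithms `L_X` on `X`, `L_Y` on
`Y` of `(z - p) / (z - q)` (`log_of_conn`); on the preconnected set `X ∩ Y` they differ by a constant
`k` with `exp k = 1` (`log_unique`; if `X ∩ Y` is empty take `k = 0`), so `L = L_X` on `X`, `L_Y + k` on `Y` is a well defined
continuous logarithm on `X ∪ Y` (two closed sets: `ContinuousOn.union_of_isClosed` / `ContinuousOn.piecewise`-type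
argument); apply `conn_of_log`.
-/

set_option autoImplicit false

namespace Pool.Agent.JH

open Set Metric Filter Topology

theorem janiszewski {X Y : Set ℂ} (hX : IsCompact X) (hY : IsCompact Y)
    (hXY : IsPreconnected (X ∩ Y)) {p q : ℂ} (h₁ : q ∈ connectedComponentIn Xᶜ p)
    (h₂ : q ∈ connectedComponentIn Yᶜ p) : q ∈ connectedComponentIn (X ∪ Y)ᶜ p := by
  classical
  have hpX : p ∉ X := by
    have : (connectedComponentIn Xᶜ p).Nonempty := ⟨q, h₁⟩
    exact connectedComponentIn_nonempty_iff.1 this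
  have hpY : p ∉ Y := by
    have : (connectedComponentIn Yᶜ p).Nonempty := ⟨q, h₂⟩
    exact connectedComponentIn_nonempty_iff.1 this
  have hqX : q ∉ X := connectedComponentIn_subset _ _ h₁
  have hqY : q ∉ Y := connectedComponentIn_subset _ _ h₂
  obtain ⟨LX, hLX, hX1⟩ := log_of_conn hX h₁
  obtain ⟨LY, hLY, hY1⟩ := log_of_conn hY h₂
  obtain ⟨k, hk1, hk⟩ : ∃ k : ℂ, Complex.exp k = 1 ∧ ∀ z ∈ X ∩ Y, LX z = LY z + k := by
    rcases (X ∩ Y).eq_empty_or_nonempty with he | ⟨z₀, hz₀⟩
    · exact ⟨0, by simp, by rw [he]; simp⟩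
    · refine ⟨LX z₀ - LY z₀, ?_, ?_⟩
      · rw [Complex.exp_sub, hX1 z₀ hz₀.1, hY1 z₀ hz₀.2, div_self]
        refine div_ne_zero ?_ ?_
        · intro h0
          exact hpX ((sub_eq_zero.1 h0) ▸ hz₀.1)
        · intro h0
          exact hqX ((sub_eq_zero.1 h0) ▸ hz₀.1)
      · intro z hz
        have := log_unique hXY (hLX.mono inter_subset_left) (hLY.mono inter_subset_right)
          (fun x hx => by rw [hX1 x hx.1, hY1 x hx.2]) hz hz₀
        rw [← this]; ring
  have hLc : ContinuousOn (X.piecewise LX (fun z => LY z + k)) (X ∪ Y) := by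
    refine ContinuousOn.union_of_isClosed ?_ ?_ (hX.isClosed) (hY.isClosed)
    · exact hLX.congr (fun z hz => Set.piecewise_eq_of_mem _ _ _ hz)
    · refine (hLY.add (continuousOn_const (c := k))).congr (fun z hz => ?_)
      show X.piecewise LX (fun z => LY z + k) z = LY z + k
      by_cases hzX : z ∈ X
      · rw [Set.piecewise_eq_of_mem _ _ _ hzX]
        exact hk z ⟨hzX, hz⟩
      · rw [Set.piecewise_eq_of_notMem _ _ _ hzX]
  refine conn_of_log (hX.union hY) (by simp [hpX, hpY]) (by simp [hqX, hqY]) hLc ?_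
  intro z hz
  by_cases hzX : z ∈ X
  · rw [Set.piecewise_eq_of_mem _ _ _ hzX]
    exact hX1 z hzX
  · rw [Set.piecewise_eq_of_notMem _ _ _ hzX, Complex.exp_add, hk1, mul_one]
    exact hY1 z (hz.resolve_left hzX)

end Pool.Agent.JH
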