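import Pool.Agent.BB.Radial

/-!
# LA: the length-area lemma (crosscuts with short image)

PROOF of `length_area`.  Let `‖ζ‖ = 1`, `0 < ε`, `0 < r₀ < 1`.  For `0 < r < 1` the circular arc
`ball 0 1 ∩ sphere ζ r` is `{ζ + r exp (I θ) | θ ∈ (α r, β r)}`: with `ζ = exp (I θ₀)` and the condition
`‖ζ + r exp (I θ)‖ < 1 ↔ r + 2 cos (θ - θ₀) < 0`, i.e. `|θ - θ₀ - π| < arccos (r / 2)`.
Put `ℓ r = ∫ θ in (α r, β r), ‖deriv χ (ζ + r exp (I θ))‖ r` (a `lintegral`, possibly infinite).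
By Cauchy-Schwarz `ℓ r ^ 2 ≤ 2 π r ∫ θ, ‖deriv χ‖ ^ 2 r`, so in polar coordinates about `ζ`
`∫ r in (0, r₀), ℓ r ^ 2 / (2 π r) ≤ ∫ ball 0 1, ‖deriv χ‖ ^ 2 = vol (χ '' ball 0 1) < ∞`
(`BB.lintegral_image_holo`, injectivity, boundedness).  As `∫ r in (0, r₀), 1 / r = ∞`, there is
`r < r₀` with `ℓ r < ε`.  For this `r` the curve `k θ = χ (ζ + r exp (I θ))` on `(α, β)` has length
`< ε`, so it is uniformly Cauchy at both ends and has limits `a`, `b`; the curve with its two end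
points is the image of a closed interval under a continuous map, so compact and connected, and any two of
its points are at distance `≤ ε`.  The limits are in the closure of the image of `χ`; they are not in the
image: if `a = χ w₀`, `w₀ ∈ ball 0 1`, then by injectivity and the open mapping theorem `χ` maps a
compact neighbourhood `N` of `w₀` onto a neighbourhood of `a`, and `χ w ∈ χ '' N` forces `w ∈ N`, which is
impossible for `w` close to the unit circle.
-/

set_option autoImplicit false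

namespace Pool.Agent.JH

open Set Metric Filter Topology MeasureTheory
open scoped ENNReal

private lemma la_curve {k v : ℝ → ℂ} {a b A : ℝ} (hA : 0 < A)
    (hk : ∀ x ∈ Ioo a b, HasDerivAt k (v x) x) (hv : ContinuousOn v (Ioo a b))
    (hint : ∫⁻ x in Ioo a b, ENNReal.ofReal (‖v x‖ ^ 2) ≤ ENNReal.ofReal A)
    {lam : ℝ} (hl : 0 < lam) {s t : ℝ} (hs : s ∈ Ioo a b) (ht : t ∈ Ioo a b) (hst : s ≤ t) :
    ‖k t - k s‖ ≤ A / (2 * lam) + lam * (t - s) / 2 := by
  have hsub : Icc s t ⊆ Ioo a b := fun x hx => ⟨hs.1.trans_le hx.1, hx.2.trans_lt ht.2⟩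
  have hvc : ContinuousOn v (uIcc s t) := by
    rw [uIcc_of_le hst]
    exact hv.mono hsub
  have h1 : ∫ x in s..t, v x = k t - k s :=
    intervalIntegral.integral_eq_sub_of_hasDerivAt
      (fun x hx => hk x (hsub (by rwa [uIcc_of_le hst] at hx))) hvc.intervalIntegrable
  have hni : IntervalIntegrable (fun x => ‖v x‖) volume s t := hvc.norm.intervalIntegrable
  have hn2 : IntervalIntegrable (fun x => ‖v x‖ ^ 2) volume s t :=
    (hvc.norm.pow 2).intervalIntegrable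
  have h2 : ∫ x in s..t, ‖v x‖ ^ 2 ≤ A := by
    have e1 : ENNReal.ofReal (∫ x in s..t, ‖v x‖ ^ 2) ≤ ENNReal.ofReal A := by
      calc ENNReal.ofReal (∫ x in s..t, ‖v x‖ ^ 2)
          = ∫⁻ x in Ioc s t, ENNReal.ofReal (‖v x‖ ^ 2) := by
            rw [intervalIntegral.integral_of_le hst]
            apply ofReal_integral_eq_lintegral_ofReal
            · exact (intervalIntegrable_iff_integrableOn_Ioc_of_le hst).mp hn2
            · exact Eventually.of_forall fun x => sq_nonneg _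
        _ ≤ ∫⁻ x in Ioo a b, ENNReal.ofReal (‖v x‖ ^ 2) :=
            lintegral_mono_set (Ioc_subset_Icc_self.trans hsub)
        _ ≤ _ := hint
    exact (ENNReal.ofReal_le_ofReal_iff hA.le).1 e1
  rw [← h1]
  calc ‖∫ x in s..t, v x‖ ≤ ∫ x in s..t, ‖v x‖ := intervalIntegral.norm_integral_le_integral_norm hst
    _ ≤ ∫ x in s..t, ((1 / (2 * lam)) * ‖v x‖ ^ 2 + lam / 2) := by
        apply intervalIntegral.integral_mono_on hst hni
          ((hn2.const_mul _).add intervalIntegrable_const)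
        intro x _
        have e : (1 / (2 * lam)) * ‖v x‖ ^ 2 + lam / 2 - ‖v x‖
            = (‖v x‖ - lam) ^ 2 / (2 * lam) := by
          field_simp
          ring
        have : 0 ≤ (‖v x‖ - lam) ^ 2 / (2 * lam) := by positivity
        linarith
    _ = (1 / (2 * lam)) * (∫ x in s..t, ‖v x‖ ^ 2) + lam / 2 * (t - s) := by
        rw [intervalIntegral.integral_add (hn2.const_mul _) intervalIntegrable_const,
          intervalIntegral.integral_const_mul, intervalIntegral.integral_const, smul_eq_mul]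
        ring
    _ ≤ (1 / (2 * lam)) * A + lam / 2 * (t - s) := by gcongr
    _ = _ := by ring

private lemma la_lim {k : ℝ → ℂ} {a b A : ℝ} (hA : 0 < A)
    (hk : ∀ lam : ℝ, 0 < lam → ∀ s ∈ Ioo a b, ∀ t ∈ Ioo a b, s ≤ t →
      ‖k t - k s‖ ≤ A / (2 * lam) + lam * (t - s) / 2) {F : Filter ℝ} [NeBot F]
    (hF : ∀ δ : ℝ, 0 < δ → ∃ T ∈ F, T ⊆ Ioo a b ∧ ∀ s ∈ T, ∀ t ∈ T, s ≤ t → t - s ≤ δ) :
    ∃ l, Tendsto k F (𝓝 l) := by
  refine cauchy_map_iff_exists_tendsto.1 ?_
  rw [Metric.cauchy_iff]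
  refine ⟨inferInstance, fun η hη => ?_⟩
  set lam := 2 * A / η with hlam
  have hl : 0 < lam := by positivity
  set δ := η / (2 * lam) with hδ
  have hδ0 : 0 < δ := by positivity
  obtain ⟨T, hT, hTs, hTd⟩ := hF δ hδ0
  refine ⟨k '' T, image_mem_map hT, ?_⟩
  have key : ∀ s ∈ T, ∀ t ∈ T, s ≤ t → ‖k t - k s‖ < η := by
    intro s hs t ht hst
    have h1 := hk lam hl s (hTs hs) t (hTs ht) hst
    have h2 := hTd s hs t ht hst
    have h3 : A / (2 * lam) = η / 4 := by
      rw [hlam]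
      field_simp
      norm_num
    have h4 : lam * (t - s) / 2 ≤ η / 4 := by
      have : lam * (t - s) ≤ lam * δ := by gcongr
      have e : lam * δ = η / 2 := by
        rw [hδ]
        field_simp
      linarith
    linarith
  rintro _ ⟨s, hs, rfl⟩ _ ⟨t, ht, rfl⟩
  rcases le_total s t with h | h
  · rw [dist_comm, dist_eq_norm]
    exact key s hs t ht h
  · rw [dist_eq_norm]
    exact key t ht s hs h

private lemma la_arc {k v : ℝ → ℂ} {a b A ε : ℝ} (hab : a < b) (hA : 0 < A) (hε : 0 < ε)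
    (hk : ∀ x ∈ Ioo a b, HasDerivAt k (v x) x) (hv : ContinuousOn v (Ioo a b))
    (hint : ∫⁻ x in Ioo a b, ENNReal.ofReal (‖v x‖ ^ 2) ≤ ENNReal.ofReal A)
    (hAε : A * (b - a) ≤ ε ^ 2) :
    ∃ la lb, Tendsto k (𝓝[>] a) (𝓝 la) ∧ Tendsto k (𝓝[<] b) (𝓝 lb) ∧
      IsCompact (k '' Ioo a b ∪ {la, lb}) ∧ IsConnected (k '' Ioo a b ∪ {la, lb}) ∧
      ∀ z ∈ k '' Ioo a b ∪ {la, lb}, ∀ w ∈ k '' Ioo a b ∪ {la, lb}, ‖z - w‖ ≤ ε := by
  have hb0 : 0 < b - a := by linarith
  have hcur : ∀ lam : ℝ, 0 < lam → ∀ s ∈ Ioo a b, ∀ t ∈ Ioo a b, s ≤ t →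
      ‖k t - k s‖ ≤ A / (2 * lam) + lam * (t - s) / 2 :=
    fun lam hl s hs t ht hst => la_curve hA hk hv hint hl hs ht hst
  obtain ⟨la, hla⟩ : ∃ l, Tendsto k (𝓝[>] a) (𝓝 l) := by
    refine la_lim hA hcur fun δ hδ => ?_
    refine ⟨Ioo a (min b (a + δ)), Ioo_mem_nhdsGT (lt_min hab (by linarith)), ?_, ?_⟩
    · exact Ioo_subset_Ioo_right (min_le_left _ _)
    · intro s hs t ht _
      have h1 := ht.2.trans_le (min_le_right _ _)
      have h2 := hs.1
      linarith
  obtain ⟨lb, hlb⟩ : ∃ l, Tendsto k (𝓝[<] b) (𝓝 l) := by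
    refine la_lim hA hcur fun δ hδ => ?_
    refine ⟨Ioo (max a (b - δ)) b, Ioo_mem_nhdsLT (max_lt hab (by linarith)), ?_, ?_⟩
    · exact Ioo_subset_Ioo_left (le_max_left _ _)
    · intro s hs t ht _
      have h1 := (le_max_right a (b - δ)).trans_lt hs.1
      have h2 := ht.2
      linarith
  have hkc : ContinuousOn k (Ioo a b) := fun x hx => (hk x hx).continuousAt.continuousWithinAt
  set K := extendFrom (Ioo a b) k with hK
  have hKc : ContinuousOn K (Icc a b) := continuousOn_Icc_extendFrom_Ioo hkc hla hlb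
  have hKa : K a = la := eq_lim_at_left_extendFrom_Ioo hab hla
  have hKb : K b = lb := eq_lim_at_right_extendFrom_Ioo hab hlb
  have hKi : ∀ x ∈ Ioo a b, K x = k x := extendFrom_extends hkc
  have himg : K '' Icc a b = k '' Ioo a b ∪ {la, lb} := by
    ext z
    constructor
    · rintro ⟨x, hx, rfl⟩
      rcases hx.1.eq_or_lt with h | h
      · right; left; rw [← h, hKa]
      · rcases hx.2.eq_or_lt with h' | h'
        · right; right; rw [h', hKb]; rfl
        · left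
          exact ⟨x, ⟨h, h'⟩, (hKi x ⟨h, h'⟩).symm⟩
    · rintro (⟨x, hx, rfl⟩ | hz)
      · exact ⟨x, Ioo_subset_Icc_self hx, hKi x hx⟩
      · rcases hz with rfl | hz
        · exact ⟨a, left_mem_Icc.2 hab.le, hKa⟩
        · rw [mem_singleton_iff] at hz
          subst hz
          exact ⟨b, right_mem_Icc.2 hab.le, hKb⟩
  refine ⟨la, lb, hla, hlb, ?_, ?_, ?_⟩
  · rw [← himg]
    exact isCompact_Icc.image_of_continuousOn hKc
  · rw [← himg]
    exact (isConnected_Icc hab.le).image _ hKc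
  · have hin : ∀ z ∈ k '' Ioo a b, ∀ w ∈ k '' Ioo a b, ‖z - w‖ ≤ ε := by
      have key : ∀ s ∈ Ioo a b, ∀ t ∈ Ioo a b, s ≤ t → ‖k t - k s‖ ≤ ε := by
        intro s hs t ht hst
        have h1 := hcur (ε / (b - a)) (by positivity) s hs t ht hst
        have h2 : A / (2 * (ε / (b - a))) = A * (b - a) / (2 * ε) := by
          field_simp
        have h3 : A * (b - a) / (2 * ε) ≤ ε / 2 := by
          rw [div_le_div_iff₀ (by positivity) (by norm_num)]
          nlinarith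
        have h4 : ε / (b - a) * (t - s) ≤ ε := by
          rw [div_mul_eq_mul_div, div_le_iff₀ hb0]
          have : t - s ≤ b - a := by linarith [hs.1, ht.2]
          gcongr
        linarith
      rintro _ ⟨s, hs, rfl⟩ _ ⟨t, ht, rfl⟩
      rcases le_total s t with h | h
      · rw [norm_sub_rev]
        exact key s hs t ht h
      · exact key t ht s hs h
    have hcl : K '' Icc a b ⊆ closure (k '' Ioo a b) := by
      rw [← closure_Ioo hab.ne] at hKc ⊢
      refine (hKc.image_closure).trans (closure_mono ?_)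
      rintro _ ⟨x, hx, rfl⟩
      exact ⟨x, hx, (hKi x hx).symm⟩
    rw [← himg]
    intro z hz w hw
    have hclosed : IsClosed {p : ℂ × ℂ | ‖p.1 - p.2‖ ≤ ε} :=
      isClosed_le (by fun_prop) continuous_const
    have h1 : closure ((k '' Ioo a b) ×ˢ (k '' Ioo a b)) ⊆ {p : ℂ × ℂ | ‖p.1 - p.2‖ ≤ ε} :=
      closure_minimal (fun p hp => hin p.1 hp.1 p.2 hp.2) hclosed
    rw [closure_prod_eq] at h1
    exact h1 (show (z, w) ∈ closure (k '' Ioo a b) ×ˢ closure (k '' Ioo a b) from ⟨hcl hz, hcl hw⟩)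

/-- logarithmic coordinate about `ζ` -/
private noncomputable def laM (ζ ξ : ℂ) : ℂ := ζ * (1 - Complex.exp (Complex.I * ξ))

private lemma laM_norm_sq {ζ : ℂ} (hζ : ‖ζ‖ = 1) (x y : ℝ) :
    ‖laM ζ (x + y * Complex.I)‖ ^ 2 = 1 - 2 * Real.exp (-y) * Real.cos x + Real.exp (-y) ^ 2 := by
  have h1 : Complex.exp (Complex.I * (x + y * Complex.I)) =
      ((Real.exp (-y) * Real.cos x : ℝ) : ℂ) + ((Real.exp (-y) * Real.sin x : ℝ) : ℂ) * Complex.I := by
    have e : Complex.I * (x + y * Complex.I) = ((-y : ℝ) : ℂ) + (x : ℂ) * Complex.I := by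
      push_cast
      ring_nf
      rw [Complex.I_sq]
      ring
    rw [e, Complex.exp_add, ← Complex.ofReal_exp, Complex.exp_mul_I, ← Complex.ofReal_cos,
      ← Complex.ofReal_sin]
    push_cast
    ring
  unfold laM
  rw [norm_mul, hζ, one_mul, h1]
  set r := Real.exp (-y) with hrdef
  rw [← Complex.normSq_eq_norm_sq, Complex.normSq_apply]
  simp only [Complex.sub_re, Complex.one_re, Complex.add_re, Complex.ofReal_re, Complex.mul_re,
    Complex.I_re, mul_zero, Complex.ofReal_im, Complex.I_im, mul_one, sub_self, add_zero,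
    Complex.sub_im, Complex.one_im, Complex.add_im, Complex.mul_im, zero_add, zero_sub]
  have := Real.sin_sq_add_cos_sq x
  linear_combination r ^ 2 * this

private lemma laM_norm_lt {ζ : ℂ} (hζ : ‖ζ‖ = 1) (x y : ℝ) :
    ‖laM ζ (x + y * Complex.I)‖ < 1 ↔ Real.exp (-y) / 2 < Real.cos x := by
  rw [← sq_lt_one_iff₀ (norm_nonneg _), laM_norm_sq hζ]
  have hr : 0 < Real.exp (-y) := Real.exp_pos _
  set r := Real.exp (-y) with hrdef
  constructor
  · intro h
    have : r * (r - 2 * Real.cos x) < 0 := by nlinarith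
    have := (mul_neg_iff.1 this).resolve_right (fun h' => absurd h'.1 (not_lt.2 hr.le))
    linarith [this.2]
  · intro h
    nlinarith

private lemma laM_dist {ζ : ℂ} (hζ : ‖ζ‖ = 1) (x y : ℝ) :
    ‖laM ζ (x + y * Complex.I) - ζ‖ = Real.exp (-y) := by
  unfold laM
  have e : ζ * (1 - Complex.exp (Complex.I * (x + y * Complex.I))) - ζ =
      -(ζ * Complex.exp (Complex.I * (x + y * Complex.I))) := by ring
  rw [e, norm_neg, norm_mul, hζ, one_mul, Complex.norm_exp]
  simp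

private lemma laM_image {ζ : ℂ} (hζ : ‖ζ‖ = 1) {y : ℝ} (hy : 0 < y) :
    ball (0 : ℂ) 1 ∩ sphere ζ (Real.exp (-y)) =
      (fun x : ℝ => laM ζ (x + y * Complex.I)) ''
        Ioo (-Real.arccos (Real.exp (-y) / 2)) (Real.arccos (Real.exp (-y) / 2)) := by
  have hr : 0 < Real.exp (-y) := Real.exp_pos _
  have hr1 : Real.exp (-y) < 1 := by
    rw [Real.exp_lt_one_iff]
    linarith
  set r := Real.exp (-y) with hrdef
  have hα : Real.cos (Real.arccos (r / 2)) = r / 2 :=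
    Real.cos_arccos (by linarith) (by linarith)
  have hαpi : Real.arccos (r / 2) ≤ Real.pi := Real.arccos_le_pi _
  have hα0 : 0 ≤ Real.arccos (r / 2) := Real.arccos_nonneg _
  have hζ0 : ζ ≠ 0 := by
    rw [← norm_pos_iff, hζ]
    exact one_pos
  ext w
  constructor
  · rintro ⟨h1, h2⟩
    rw [mem_ball_zero_iff] at h1
    rw [mem_sphere, dist_eq_norm] at h2
    set u := (ζ - w) / ζ with hu
    have hun : ‖u‖ = r := by
      rw [hu, norm_div, hζ, div_one, norm_sub_rev, h2]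
    have hu0 : u ≠ 0 := by
      rw [← norm_pos_iff, hun]
      exact hr
    have hexp : Complex.exp (Complex.I * ((Complex.arg u : ℝ) + y * Complex.I)) = u := by
      have e : Complex.I * ((Complex.arg u : ℝ) + y * Complex.I) =
          ((-y : ℝ) : ℂ) + (Complex.arg u : ℂ) * Complex.I := by
        push_cast
        ring_nf
        rw [Complex.I_sq]
        ring
      rw [e, Complex.exp_add, ← Complex.ofReal_exp, ← hrdef, ← hun]
      exact Complex.norm_mul_exp_arg_mul_I u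
    have hw : laM ζ ((Complex.arg u : ℝ) + y * Complex.I) = w := by
      unfold laM
      rw [hexp, hu]
      field_simp
      ring
    refine ⟨Complex.arg u, ?_, hw⟩
    have h3 : r / 2 < Real.cos (Complex.arg u) := by
      rw [← hw, laM_norm_lt hζ] at h1
      exact h1
    rw [mem_Ioo, ← abs_lt]
    by_contra hcon
    push Not at hcon
    have h4 : |Complex.arg u| ≤ Real.pi := Complex.abs_arg_le_pi u
    have h5 : Real.cos |Complex.arg u| ≤ Real.cos (Real.arccos (r / 2)) :=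
      Real.cos_le_cos_of_nonneg_of_le_pi hα0 h4 hcon
    rw [Real.cos_abs, hα] at h5
    linarith
  · rintro ⟨x, hx, rfl⟩
    refine ⟨?_, ?_⟩
    · rw [mem_ball_zero_iff]
      show ‖laM ζ (x + y * Complex.I)‖ < 1
      rw [laM_norm_lt hζ]
      have h1 : |x| < Real.arccos (r / 2) := abs_lt.2 hx
      have h2 := Real.cos_lt_cos_of_nonneg_of_le_pi (abs_nonneg x) hαpi h1
      rw [Real.cos_abs, hα] at h2
      exact h2
    · rw [mem_sphere, dist_eq_norm]
      exact laM_dist hζ x y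

private lemma laM_hasDerivAt (ζ ξ : ℂ) :
    HasDerivAt (laM ζ) (ζ * (-(Complex.exp (Complex.I * ξ) * Complex.I))) ξ := by
  have h1 : HasDerivAt (fun ξ : ℂ => Complex.exp (Complex.I * ξ))
      (Complex.exp (Complex.I * ξ) * Complex.I) ξ := by
    have h0 : HasDerivAt (fun ξ : ℂ => Complex.I * ξ) Complex.I ξ := by
      simpa using (hasDerivAt_id ξ).const_mul Complex.I
    exact h0.cexp
  have h2 := (h1.const_sub 1).const_mul ζ
  exact h2

private lemma laM_cont (ζ : ℂ) : Continuous (laM ζ) :=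
  continuous_iff_continuousAt.2 fun ξ => (laM_hasDerivAt ζ ξ).continuousAt

/-- there is a circle on which the derivative is small in square mean -/
private lemma la_area {χ : ℂ → ℂ} (hd : DifferentiableOn ℂ χ (ball 0 1))
    (hi : InjOn χ (ball 0 1)) (hb : Bornology.IsBounded (χ '' ball 0 1)) {ζ : ℂ} (hζ : ‖ζ‖ = 1)
    {A : ℝ} (hA : 0 < A) (c : ℝ) :
    ∃ y : ℝ, c < y ∧
      ∫⁻ x in Ioo (-Real.pi) Real.pi, indicator {ξ : ℂ | ‖laM ζ ξ‖ < 1}
        (fun ξ => ENNReal.ofReal (‖deriv (χ ∘ laM ζ) ξ‖ ^ 2)) (x + y * Complex.I) ≤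
        ENNReal.ofReal A := by
  set S : Set ℂ := {ξ : ℂ | ‖laM ζ ξ‖ < 1} ∩ {ξ : ℂ | -Real.pi < ξ.re ∧ ξ.re < Real.pi} with hS
  set G : ℂ → ℝ≥0∞ := indicator {ξ : ℂ | ‖laM ζ ξ‖ < 1}
        (fun ξ => ENNReal.ofReal (‖deriv (χ ∘ laM ζ) ξ‖ ^ 2)) with hG
  have hζ0 : ζ ≠ 0 := by
    rw [← norm_pos_iff, hζ]
    exact one_pos
  have ho1 : IsOpen {ξ : ℂ | ‖laM ζ ξ‖ < 1} := isOpen_lt (laM_cont ζ).norm continuous_const
  have ho2 : IsOpen {ξ : ℂ | -Real.pi < ξ.re ∧ ξ.re < Real.pi} :=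
    (isOpen_lt continuous_const Complex.continuous_re).inter
      (isOpen_lt Complex.continuous_re continuous_const)
  have hSo : IsOpen S := ho1.inter ho2
  have hmeas : Measurable G := by
    refine Measurable.indicator ?_ ho1.measurableSet
    exact ((measurable_deriv _).norm.pow_const 2).ennreal_ofReal
  have hFd : ∀ ξ ∈ S, DifferentiableAt ℂ (χ ∘ laM ζ) ξ := by
    intro ξ hξ
    have h1 : laM ζ ξ ∈ ball (0 : ℂ) 1 := mem_ball_zero_iff.2 hξ.1
    exact (hd.differentiableAt (isOpen_ball.mem_nhds h1)).comp ξ (laM_hasDerivAt ζ ξ).differentiableAt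
  have hFi : InjOn (χ ∘ laM ζ) S := by
    intro ξ hξ ξ' hξ' h
    have h1 : laM ζ ξ = laM ζ ξ' :=
      hi (mem_ball_zero_iff.2 hξ.1) (mem_ball_zero_iff.2 hξ'.1) h
    unfold laM at h1
    have h2 := mul_left_cancel₀ hζ0 h1
    have h3 : Complex.exp (Complex.I * ξ) = Complex.exp (Complex.I * ξ') := by
      linear_combination -h2
    have h4 := Complex.exp_inj_of_neg_pi_lt_of_le_pi (x := Complex.I * ξ) (y := Complex.I * ξ')
      (by simpa using hξ.2.1) (by simpa using hξ.2.2.le) (by simpa using hξ'.2.1)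
      (by simpa using hξ'.2.2.le) h3
    exact mul_left_cancel₀ Complex.I_ne_zero h4
  have harea : ∫⁻ ξ in S, ENNReal.ofReal (‖deriv (χ ∘ laM ζ) ξ‖ ^ 2) ≤ volume (χ '' ball 0 1) := by
    have h1 := BB.lintegral_image_holo hSo.measurableSet hFd hFi (fun _ => 1)
    simp only [mul_one] at h1
    rw [← h1, setLIntegral_one]
    refine measure_mono ?_
    rintro _ ⟨ξ, hξ, rfl⟩
    exact ⟨laM ζ ξ, mem_ball_zero_iff.2 hξ.1, rfl⟩
  have hfin : volume (χ '' ball (0 : ℂ) 1) < ⊤ := hb.measure_lt_top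
  set V := (volume (χ '' ball (0 : ℂ) 1)).toReal with hV
  have hV0 : 0 ≤ V := ENNReal.toReal_nonneg
  set M := V / A + 1 with hM
  have hM0 : 0 < M := by positivity
  have hrect : ∫⁻ ξ in (Ioo (-Real.pi) Real.pi ×ℂ Ioo c (c + M)), G ξ ≤
      ENNReal.ofReal V := by
    rw [hV, ENNReal.ofReal_toReal hfin.ne]
    refine le_trans ?_ harea
    have e1 : ∫⁻ ξ in (Ioo (-Real.pi) Real.pi ×ℂ Ioo c (c + M)), G ξ =
        ∫⁻ ξ in {ξ : ℂ | ‖laM ζ ξ‖ < 1} ∩ (Ioo (-Real.pi) Real.pi ×ℂ Ioo c (c + M)),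
          ENNReal.ofReal (‖deriv (χ ∘ laM ζ) ξ‖ ^ 2) := by
      rw [hG, lintegral_indicator ho1.measurableSet, Measure.restrict_restrict ho1.measurableSet]
    rw [e1]
    refine lintegral_mono_set ?_
    rintro ξ ⟨h1, h2⟩
    exact ⟨h1, h2.1⟩
  rw [BB.lintegral_rect hmeas.aemeasurable] at hrect
  by_contra hcon
  push Not at hcon
  have h1 : ENNReal.ofReal A * ENNReal.ofReal M ≤ ENNReal.ofReal V := by
    refine le_trans ?_ hrect
    calc ENNReal.ofReal A * ENNReal.ofReal M = ∫⁻ _ in Ioo c (c + M), ENNReal.ofReal A := by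
          rw [setLIntegral_const, Real.volume_Ioo]
          congr 2
          ring
      _ ≤ _ := by
          refine setLIntegral_mono' measurableSet_Ioo fun y hy => ?_
          exact (hcon y hy.1).le
  rw [← ENNReal.ofReal_mul hA.le, ENNReal.ofReal_le_ofReal_iff hV0] at h1
  have h2 : A * M = V + A := by
    rw [hM]
    field_simp
  linarith

private lemma la_notMem {χ : ℂ → ℂ} (hd : DifferentiableOn ℂ χ (ball 0 1))
    (hi : InjOn χ (ball 0 1)) {F : Filter ℝ} [NeBot F] {p : ℝ → ℂ} {p₀ a : ℂ}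
    (hp : ∀ᶠ x in F, p x ∈ ball (0 : ℂ) 1) (hlim : Tendsto p F (𝓝 p₀)) (hp₀ : ‖p₀‖ = 1)
    (ha : Tendsto (fun x => χ (p x)) F (𝓝 a)) :
    a ∈ closure (χ '' ball 0 1) \ χ '' ball 0 1 := by
  refine ⟨mem_closure_of_tendsto ha (hp.mono fun x hx => ⟨_, hx, rfl⟩), ?_⟩
  rintro ⟨w, hw, rfl⟩
  rw [mem_ball_zero_iff] at hw
  set ρ := (1 - ‖w‖) / 2 with hρ
  have hρ0 : 0 < ρ := by rw [hρ]; linarith
  have hsub : closedBall w ρ ⊆ ball (0 : ℂ) 1 := by
    intro z hz
    rw [mem_closedBall, dist_eq_norm] at hz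
    rw [mem_ball_zero_iff]
    have : ‖z‖ ≤ ‖z - w‖ + ‖w‖ := by
      simpa using norm_add_le (z - w) w
    rw [hρ] at hz
    linarith
  have han : AnalyticOnNhd ℂ χ (ball 0 1) := hd.analyticOnNhd isOpen_ball
  have hopen : IsOpen (χ '' ball w ρ) := by
    rcases han.is_constant_or_isOpen (convex_ball (0 : ℂ) 1).isPreconnected with ⟨c, hc⟩ | h
    · exfalso
      have h0 : (0 : ℂ) ∈ ball (0 : ℂ) 1 := mem_ball_self one_pos
      have h1 : (1 / 2 : ℂ) ∈ ball (0 : ℂ) 1 := by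
        rw [mem_ball_zero_iff]
        norm_num
      have h2 := hi h0 h1 ((hc _ h0).trans (hc _ h1).symm)
      norm_num at h2
    · exact h _ (ball_subset_closedBall.trans hsub) isOpen_ball
  have hev : ∀ᶠ x in F, χ (p x) ∈ χ '' ball w ρ :=
    ha.eventually (hopen.mem_nhds ⟨w, mem_ball_self hρ0, rfl⟩)
  have hev2 : ∀ᶠ x in F, p x ∈ closedBall w ρ := by
    filter_upwards [hev, hp] with x hx hpx
    obtain ⟨z, hz, hzx⟩ := hx
    have : z = p x := hi (hsub (ball_subset_closedBall hz)) hpx hzx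
    rw [← this]
    exact ball_subset_closedBall hz
  have hmem : p₀ ∈ closedBall w ρ := isClosed_closedBall.mem_of_tendsto hlim hev2
  have := hsub hmem
  rw [mem_ball_zero_iff, hp₀] at this
  exact lt_irrefl _ this

theorem length_area {χ : ℂ → ℂ} (hd : DifferentiableOn ℂ χ (ball 0 1))
    (hi : InjOn χ (ball 0 1)) (hb : Bornology.IsBounded (χ '' ball 0 1)) {ζ : ℂ} (hζ : ‖ζ‖ = 1)
    {ε : ℝ} (hε : 0 < ε) {r₀ : ℝ} (hr₀ : 0 < r₀) :
    ∃ r : ℝ, 0 < r ∧ r < r₀ ∧ r < 1 ∧ ∃ a b : ℂ,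
      a ∈ closure (χ '' ball 0 1) \ χ '' ball 0 1 ∧
      b ∈ closure (χ '' ball 0 1) \ χ '' ball 0 1 ∧
      IsCompact (χ '' (ball 0 1 ∩ sphere ζ r) ∪ {a, b}) ∧
      IsConnected (χ '' (ball 0 1 ∩ sphere ζ r) ∪ {a, b}) ∧
      ∀ z ∈ χ '' (ball 0 1 ∩ sphere ζ r) ∪ {a, b}, ∀ w ∈ χ '' (ball 0 1 ∩ sphere ζ r) ∪ {a, b},
        ‖z - w‖ ≤ ε := by
  have hpi := Real.pi_pos
  set A := ε ^ 2 / (2 * Real.pi) with hA
  have hA0 : 0 < A := by positivity
  obtain ⟨y, hy, hint⟩ := la_area hd hi hb hζ hA0 (max 0 (-Real.log r₀))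
  have hy0 : 0 < y := (le_max_left _ _).trans_lt hy
  have hyr : Real.exp (-y) < r₀ := by
    have h1 : -Real.log r₀ < y := (le_max_right _ _).trans_lt hy
    rw [← Real.exp_log hr₀]
    exact Real.exp_lt_exp.2 (by linarith)
  have hr1 : Real.exp (-y) < 1 := by
    rw [Real.exp_lt_one_iff]
    linarith
  have hr : 0 < Real.exp (-y) := Real.exp_pos _
  refine ⟨Real.exp (-y), hr, hyr, hr1, ?_⟩
  set α := Real.arccos (Real.exp (-y) / 2) with hα
  have hα0 : 0 < α := by
    rw [hα, Real.arccos_pos]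
    linarith
  have hαpi : α ≤ Real.pi := Real.arccos_le_pi _
  have hcosα : Real.cos α = Real.exp (-y) / 2 := Real.cos_arccos (by linarith) (by linarith)
  have himg := laM_image hζ hy0
  rw [← hα] at himg
  set p : ℝ → ℂ := fun x => laM ζ (x + y * Complex.I) with hp
  have hpc : Continuous p := (laM_cont ζ).comp (by fun_prop)
  have hpin : ∀ x ∈ Ioo (-α) α, p x ∈ ball (0 : ℂ) 1 := by
    intro x hx
    have : p x ∈ ball (0 : ℂ) 1 ∩ sphere ζ (Real.exp (-y)) := by
      rw [himg]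
      exact ⟨x, hx, rfl⟩
    exact this.1
  have hline : ∀ x : ℝ, HasDerivAt (fun x : ℝ => (x : ℂ) + y * Complex.I) 1 x := fun x =>
    (Complex.ofRealCLM.hasDerivAt (x := x)).add_const _
  set v : ℝ → ℂ := fun x => deriv (χ ∘ laM ζ) (x + y * Complex.I) with hv
  have hdiff : ∀ ξ : ℂ, ‖laM ζ ξ‖ < 1 → DifferentiableAt ℂ (χ ∘ laM ζ) ξ := by
    intro ξ hξ
    have h1 : laM ζ ξ ∈ ball (0 : ℂ) 1 := mem_ball_zero_iff.2 hξ
    exact (hd.differentiableAt (isOpen_ball.mem_nhds h1)).comp ξ (laM_hasDerivAt ζ ξ).differentiableAt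
  have ho1 : IsOpen {ξ : ℂ | ‖laM ζ ξ‖ < 1} := isOpen_lt (laM_cont ζ).norm continuous_const
  have hk : ∀ x ∈ Ioo (-α) α, HasDerivAt (fun x => χ (p x)) (v x) x := by
    intro x hx
    have h1 : ‖laM ζ (x + y * Complex.I)‖ < 1 := mem_ball_zero_iff.1 (hpin x hx)
    have h2 := (hdiff _ h1).hasDerivAt.comp x (hline x)
    rw [mul_one] at h2
    exact h2
  have hvc : ContinuousOn v (Ioo (-α) α) := by
    have h1 : ContinuousOn (deriv (χ ∘ laM ζ)) {ξ : ℂ | ‖laM ζ ξ‖ < 1} := by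
      have h2 : DifferentiableOn ℂ (χ ∘ laM ζ) {ξ : ℂ | ‖laM ζ ξ‖ < 1} := fun ξ hξ =>
        (hdiff ξ hξ).differentiableWithinAt
      exact (h2.deriv ho1).continuousOn
    refine h1.comp (by fun_prop) ?_
    intro x hx
    exact mem_ball_zero_iff.1 (hpin x hx)
  have hint2 : ∫⁻ x in Ioo (-α) α, ENNReal.ofReal (‖v x‖ ^ 2) ≤ ENNReal.ofReal A := by
    refine le_trans ?_ hint
    calc ∫⁻ x in Ioo (-α) α, ENNReal.ofReal (‖v x‖ ^ 2)
        = ∫⁻ x in Ioo (-α) α, (indicator {ξ : ℂ | ‖laM ζ ξ‖ < 1}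
            (fun ξ => ENNReal.ofReal (‖deriv (χ ∘ laM ζ) ξ‖ ^ 2)) ((x : ℂ) + y * Complex.I)) := by
          refine setLIntegral_congr_fun measurableSet_Ioo fun x hx => ?_
          have h1 : ((x : ℂ) + y * Complex.I) ∈ {ξ : ℂ | ‖laM ζ ξ‖ < 1} :=
            mem_ball_zero_iff.1 (hpin x hx)
          simp only [indicator_of_mem h1]
          rfl
      _ ≤ _ := lintegral_mono_set (Ioo_subset_Ioo (by linarith) hαpi)
  have hAε : A * (α - -α) ≤ ε ^ 2 := by
    have h1 : α - -α ≤ 2 * Real.pi := by linarith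
    calc A * (α - -α) ≤ A * (2 * Real.pi) := by gcongr
      _ = ε ^ 2 := by
        rw [hA]
        field_simp
  obtain ⟨a, b, ha, hb', hcomp, hconn, hdiam⟩ :=
    la_arc (by linarith : -α < α) hA0 hε hk hvc hint2 hAε
  have himg2 : χ '' (ball 0 1 ∩ sphere ζ (Real.exp (-y))) = (fun x => χ (p x)) '' Ioo (-α) α := by
    rw [himg, image_image]
  rw [himg2]
  have hend : ∀ x : ℝ, Real.cos x = Real.exp (-y) / 2 → ‖p x‖ = 1 := by
    intro x hx
    have h1 : ‖p x‖ ^ 2 = 1 := by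
      show ‖laM ζ (x + y * Complex.I)‖ ^ 2 = 1
      rw [laM_norm_sq hζ, hx]
      ring
    nlinarith [norm_nonneg (p x)]
  refine ⟨a, b, ?_, ?_, hcomp, hconn, hdiam⟩
  · refine la_notMem hd hi (F := 𝓝[>] (-α)) (p := p) ?_ (hpc.tendsto (-α) |>.mono_left nhdsWithin_le_nhds)
      (hend _ (by rw [Real.cos_neg, hcosα])) ha
    filter_upwards [Ioo_mem_nhdsGT (by linarith : -α < α)] with x hx using hpin x hx
  · refine la_notMem hd hi (F := 𝓝[<] α) (p := p) ?_ (hpc.tendsto α |>.mono_left nhdsWithin_le_nhds)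
      (hend _ hcosα) hb'
    filter_upwards [Ioo_mem_nhdsLT (by linarith : -α < α)] with x hx using hpin x hx

end Pool.Agent.JH
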