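import Pool.Agent.Lib.MP_8ebc20_an.LoopP

/-!
# LOOPQ: the loop is nowhere constant; local connectedness

PROOFS. `nonconst`: suppose `γ` is constant on `[a, b]`, `a < b`.  Choose `n` with `d ^ n (b - a) ≥ 1`.  By `g_it`,
`γ (d ^ n u) = (ev f)^[n] (γ u)` for all `u`, so `γ` is constant on `[d^n a, d^n b]`, of length `≥ 1`, so
constant by periodicity, and `J = range γ` is one point, contradicting `J_nontrivial`.
`loc_conn`: if not, there are `ε > 0` and `x_k, y_k ∈ J`, `‖x_k - y_k‖ → 0`, without a compact connected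
`β ⊆ J` of diameter `≤ ε` containing both; `x_k = γ t_k`, `y_k = γ u_k` with `t_k, u_k ∈ [0, 1]`;
subsequence `t_k → t`, `u_k → u`, `γ t = γ u = x`; then for large `k` the set
`γ '' uIcc t_k t ∪ γ '' uIcc u u_k` is compact, connected (both parts contain `x`), and all its points are
within `ε / 2` of `x` (`g_unif`).
-/

set_option autoImplicit false

namespace Pool.Agent.JH

open Polynomial Set Metric Filter Topology

variable {f : ℂ[X]} {J : Set ℂ} {ψ ψi : ℂ → ℂ} {γ : ℝ → ℂ}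

theorem IsLoop.nonconst (hl : IsLoop f J ψ γ) (h : Hyp f J) {a b : ℝ} (hab : a < b) :
    ∃ x ∈ Icc a b, γ x ≠ γ a := by
  by_contra hcon
  push Not at hcon
  obtain ⟨n, hn⟩ := pow_unbounded_of_one_lt (1 / (b - a)) (one_lt_two : (1 : ℝ) < 2)
  have hba : 0 < b - a := sub_pos.2 hab
  have hd : (2 : ℝ) ≤ f.natDegree := by exact_mod_cast h.deg
  have hdn : (2 : ℝ) ^ n ≤ (f.natDegree : ℝ) ^ n := pow_le_pow_left₀ (by norm_num) hd n
  have hdpos : (0 : ℝ) < (f.natDegree : ℝ) ^ n := pow_pos (by linarith) n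
  have hlen : 1 ≤ (f.natDegree : ℝ) ^ n * (b - a) := by
    rw [div_lt_iff₀ hba] at hn
    have := mul_le_mul_of_nonneg_right hdn hba.le
    linarith
  have hall : ∀ y ∈ J, y = (ev f)^[n] (γ a) := by
    intro y hy
    obtain ⟨t, -, rfl⟩ := hl.g_surj hy
    set D : ℝ := (f.natDegree : ℝ) ^ n with hD
    set m : ℤ := ⌈D * a - t⌉ with hm
    have h1 : D * a - t ≤ m := Int.le_ceil _
    have h2 : (m : ℝ) < D * a - t + 1 := Int.ceil_lt_add_one _
    have hu : (t + m) / D ∈ Icc a b := by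
      constructor
      · rw [le_div_iff₀ hdpos]
        linarith
      · rw [div_le_iff₀ hdpos]
        have : D * (b - a) = b * D - D * a := by ring
        linarith
    have h3 := hl.g_it n ((t + m) / D)
    rw [hcon _ hu, ← hD, mul_div_cancel₀ _ hdpos.ne', hl.g_int] at h3
    exact h3
  obtain ⟨x, hx, y, hy, hxy⟩ := h.J_nontrivial
  exact hxy ((hall x hx).trans (hall y hy).symm)

private theorem loopQ_near (hl : IsLoop f J ψ γ) {δ : ℝ} (hδ : 0 < δ) :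
    ∃ η : ℝ, 0 < η ∧ ∀ t ∈ Icc (0 : ℝ) 1, ∀ u ∈ Icc (0 : ℝ) 1, ‖γ t - γ u‖ < η →
      ∃ t' u' : ℝ, γ t' = γ u' ∧ |t - t'| < δ ∧ |u - u'| < δ := by
  set C : Set (ℝ × ℝ) := {p | p ∈ Icc (0 : ℝ) 1 ×ˢ Icc (0 : ℝ) 1 ∧
    ∀ t' u' : ℝ, γ t' = γ u' → δ ≤ |p.1 - t'| ∨ δ ≤ |p.2 - u'|} with hC
  have hCc : IsCompact C := by
    have hcl : IsClosed {p : ℝ × ℝ | ∀ t' u' : ℝ, γ t' = γ u' →
        δ ≤ |p.1 - t'| ∨ δ ≤ |p.2 - u'|} := by
      simp only [Set.ofPred_forall]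
      refine isClosed_iInter fun t' => isClosed_iInter fun u' => isClosed_iInter fun _ => ?_
      have c1 : Continuous fun p : ℝ × ℝ => |p.1 - t'| := by fun_prop
      have c2 : Continuous fun p : ℝ × ℝ => |p.2 - u'| := by fun_prop
      exact (isClosed_le continuous_const c1).union (isClosed_le continuous_const c2)
    exact (isCompact_Icc.prod isCompact_Icc).inter_right hcl
  have key : ∃ η : ℝ, 0 < η ∧ ∀ p ∈ C, η ≤ ‖γ p.1 - γ p.2‖ := by
    rcases C.eq_empty_or_nonempty with he | hne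
    · exact ⟨1, one_pos, fun t ht => by rw [he] at ht; exact absurd ht (notMem_empty _)⟩
    · obtain ⟨p₀, hp₀, hmin⟩ := hCc.exists_isMinOn hne
        (f := fun p : ℝ × ℝ => ‖γ p.1 - γ p.2‖)
        (((hl.cont.comp continuous_fst).sub (hl.cont.comp continuous_snd)).norm.continuousOn)
      refine ⟨‖γ p₀.1 - γ p₀.2‖, ?_, fun p hp => hmin hp⟩
      rw [norm_pos_iff, sub_ne_zero]
      intro hx
      rcases hp₀.2 p₀.1 p₀.2 hx with h1 | h1
      · rw [sub_self, abs_zero] at h1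
        linarith
      · rw [sub_self, abs_zero] at h1
        linarith
  obtain ⟨η, hη, hk⟩ := key
  refine ⟨η, hη, fun t ht u hu htu => ?_⟩
  by_contra hcon
  push Not at hcon
  have hmem : (t, u) ∈ C := by
    refine ⟨⟨ht, hu⟩, fun t' u' he => ?_⟩
    by_cases h1 : |t - t'| < δ
    · exact Or.inr (hcon t' u' he h1)
    · exact Or.inl (not_lt.1 h1)
  exact absurd (hk _ hmem) (not_le.2 htu)

theorem IsLoop.loc_conn (hl : IsLoop f J ψ γ) {ε : ℝ} (hε : 0 < ε) :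
    ∃ η : ℝ, 0 < η ∧ ∀ x ∈ J, ∀ y ∈ J, ‖x - y‖ < η →
      ∃ β : Set ℂ, β ⊆ J ∧ IsCompact β ∧ IsConnected β ∧ x ∈ β ∧ y ∈ β ∧
        ∀ z ∈ β, ∀ w ∈ β, ‖z - w‖ ≤ ε := by
  obtain ⟨δ, hδ, hun⟩ := hl.g_unif (ε := ε / 2) (half_pos hε)
  obtain ⟨η, hη, hnear⟩ := loopQ_near hl hδ
  refine ⟨η, hη, fun x hx y hy hxy => ?_⟩
  obtain ⟨t, ht, rfl⟩ := hl.g_surj hx
  obtain ⟨u, hu, rfl⟩ := hl.g_surj hy
  obtain ⟨t', u', he, ht', hu'⟩ := hnear t ⟨ht.1, ht.2.le⟩ u ⟨hu.1, hu.2.le⟩ hxy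
  have hcl : ∀ z ∈ γ '' uIcc t t' ∪ γ '' uIcc u u', ‖z - γ t'‖ < ε / 2 := by
    rintro z (⟨s, hs, rfl⟩ | ⟨s, hs, rfl⟩)
    · refine hun s t' (lt_of_le_of_lt ?_ ht')
      rw [abs_sub_comm, abs_sub_comm t t']
      exact abs_sub_right_of_mem_uIcc hs
    · rw [he]
      refine hun s u' (lt_of_le_of_lt ?_ hu')
      rw [abs_sub_comm, abs_sub_comm u u']
      exact abs_sub_right_of_mem_uIcc hs
  refine ⟨γ '' uIcc t t' ∪ γ '' uIcc u u', ?_, ?_, ?_, ?_, ?_, ?_⟩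
  · rintro z (⟨s, -, rfl⟩ | ⟨s, -, rfl⟩) <;> exact hl.g_mem s
  · exact (isCompact_uIcc.image hl.cont).union (isCompact_uIcc.image hl.cont)
  · refine IsConnected.union ⟨γ t', ⟨t', right_mem_uIcc, rfl⟩, ⟨u', right_mem_uIcc, he.symm⟩⟩
      ?_ ?_
    · have hc : IsConnected (uIcc t t') := ⟨nonempty_uIcc, isPreconnected_uIcc⟩
      exact hc.image γ hl.cont.continuousOn
    · have hc : IsConnected (uIcc u u') := ⟨nonempty_uIcc, isPreconnected_uIcc⟩
      exact hc.image γ hl.cont.continuousOn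
  · exact Or.inl ⟨t, left_mem_uIcc, rfl⟩
  · exact Or.inr ⟨u, left_mem_uIcc, rfl⟩
  · intro z hz w hw
    have h1 := hcl z hz
    have h2 := hcl w hw
    calc ‖z - w‖ = ‖(z - γ t') - (w - γ t')‖ := by congr 1; ring
      _ ≤ ‖z - γ t'‖ + ‖w - γ t'‖ := norm_sub_le _ _
      _ ≤ ε := by linarith

end Pool.Agent.JH
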