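import Pool.Agent.Lib.MP_8ebc20_an.RU1
import Pool.Agent.Lib.MP_8ebc20_an.LoopQ
import Pool.Agent.Lib.MP_8ebc20_an.Jan
import Pool.Agent.Lib.MP_8ebc20_an.LA

/-!
# CAR: oscillation of the Riemann map at the boundary

`U` is a bounded Fatou component, `χ : ball 0 1 → U` a Riemann map.

PROOF of `osc`.  Let `0 < ε`.  Fix `z₀ = χ 0` and `d₀ = infDist z₀ J > 0`; we may assume `2 ε < d₀`.
Let `η ≤ ε` be given by `loc_conn` for `ε` (subsets of `J` of diameter `≤ ε`), and `r < 1` by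
`length_area` with `ε` replaced by `η / 2` (and `r₀` small): the arc `κ = χ '' (ball 0 1 ∩ sphere ζ r)`
with end points `a, b ∈ closure U \ U ⊆ J`, `‖a - b‖ < η`.  Let `β ⊆ J` be compact connected,
`a, b ∈ β`, of diameter `≤ ε`; `Y = κ ∪ {a, b} ∪ β` is compact, connected, contained in
`closedBall a ε`.  CLAIM: `χ (ball 0 1 ∩ ball ζ r) ⊆ closedBall a ε`.  Let `w₁ ∈ ball 0 1 ∩ ball ζ r`,
`z₁ = χ w₁`, and suppose `z₁ ∉ closedBall a ε`; also `z₀ ∉ closedBall a ε`.  `X = J` is compact and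
`z₁ ∈ connectedComponentIn Jᶜ z₀` (`U` is connected and misses `J`).  `z₁ ∈ connectedComponentIn Yᶜ z₀`:
the complement of the closed ball is connected (`preconn_compl_ball`, translated) and misses `Y`.
`X ∩ Y = β` (`κ ⊆ U` misses `J`), connected.  By `janiszewski`,
`z₁ ∈ connectedComponentIn (J ∪ Y)ᶜ z₀`; this component is a connected subset of `Jᶜ` containing
`z₀`, so contained in `U` (it is contained in `Kᶜ` or in `interior K`; `sub_compl_K`, `sub_of_meet`), and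
misses `κ`.  Its preimage under `χ` is a connected subset of `ball 0 1 \ sphere ζ r` (image
under the inverse Riemann map) containing `0` (`‖0 - ζ‖ = 1 > r`) and `w₁` (`‖w₁ - ζ‖ < r`):
contradiction, as `w ↦ ‖w - ζ‖` would take the value `r`.
So `‖χ w - χ w'‖ ≤ 2 ε` on `ball 0 1 ∩ ball ζ r`.
-/

set_option autoImplicit false

namespace Pool.Agent.JH

open Polynomial Set Metric Filter Topology

variable {f : ℂ[X]} {J : Set ℂ} {γ : ℝ → ℂ} {ψ ψi : ℂ → ℂ} {δ C lam : ℝ} {U : Set ℂ} {χ χi : ℂ → ℂ}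

theorem IsFat.osc (h : Hyp f J) (hl : IsLoop f J ψ γ) (hU : IsFat f U)
    (hd : DifferentiableOn ℂ χ (ball 0 1)) (hdi : DifferentiableOn ℂ χi U)
    (h1 : ∀ w ∈ ball (0 : ℂ) 1, χ w ∈ U ∧ χi (χ w) = w)
    (h2 : ∀ z ∈ U, χi z ∈ ball (0 : ℂ) 1 ∧ χ (χi z) = z) {ζ : ℂ} (hζ : ‖ζ‖ = 1) {ε : ℝ}
    (hε : 0 < ε) : ∃ r : ℝ, 0 < r ∧ ∀ w ∈ ball (0 : ℂ) 1 ∩ ball ζ r,
      ∀ w' ∈ ball (0 : ℂ) 1 ∩ ball ζ r, ‖χ w - χ w'‖ ≤ ε := by
  have hJc : IsCompact J := h.isCompact_J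
  have h0 : (0 : ℂ) ∈ ball (0 : ℂ) 1 := mem_ball_self one_pos
  have hz₀ : χ 0 ∈ U := (h1 0 h0).1
  have hUJ : ∀ z ∈ U, z ∉ J := fun z hz hzJ => disjoint_left.1 (hU.disj_J h) hz hzJ
  have hd₀ : 0 < infDist (χ 0) J :=
    (hJc.isClosed.notMem_iff_infDist_pos h.J_nonempty).1 (hUJ _ hz₀)
  have himg : χ '' ball 0 1 = U := by
    apply Subset.antisymm
    · rintro _ ⟨w, hw, rfl⟩
      exact (h1 w hw).1
    · intro z hz
      exact ⟨χi z, (h2 z hz).1, (h2 z hz).2⟩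
  have hinj : InjOn χ (ball 0 1) := by
    intro w hw w' hw' he
    rw [← (h1 w hw).2, ← (h1 w' hw').2, he]
  set e : ℝ := min (ε / 2) (infDist (χ 0) J / 2) with he
  have he0 : 0 < e := lt_min (half_pos hε) (half_pos hd₀)
  have heε : e ≤ ε / 2 := min_le_left _ _
  have hed : e < infDist (χ 0) J := (min_le_right _ _).trans_lt (half_lt_self hd₀)
  obtain ⟨η, hη, hloc⟩ := hl.loc_conn he0
  obtain ⟨r, hr0, -, hr1, a, b, ha, hb, hκc, hκ, hκd⟩ := length_area hd hinj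
    (by rw [himg]; exact hU.isBounded h.deg) hζ (lt_min he0 (half_pos hη)) one_pos
  have hfr : ∀ z ∈ closure (χ '' ball 0 1) \ χ '' ball 0 1, z ∈ J := by
    intro z hz
    rw [himg] at hz
    apply hU.frontier_sub h
    rw [hU.isOpen.frontier_eq]
    exact hz
  have haJ : a ∈ J := hfr a ha
  have hbJ : b ∈ J := hfr b hb
  set κ : Set ℂ := χ '' (ball 0 1 ∩ sphere ζ r) with hκdef
  have haκ : a ∈ κ ∪ {a, b} := Or.inr (Or.inl rfl)
  have hbκ : b ∈ κ ∪ {a, b} := Or.inr (Or.inr rfl)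
  have hab : ‖a - b‖ < η :=
    ((hκd a haκ b hbκ).trans (min_le_right _ _)).trans_lt (half_lt_self hη)
  obtain ⟨β, hβJ, hβc, hβ, haβ, hbβ, hβd⟩ := hloc a haJ b hbJ hab
  set Y : Set ℂ := (κ ∪ {a, b}) ∪ β with hY
  have hYc : IsCompact Y := hκc.union hβc
  have hYball : ∀ z ∈ Y, ‖z - a‖ ≤ e := by
    rintro z (hz | hz)
    · exact (hκd z hz a haκ).trans (min_le_left _ _)
    · exact hβd z hz a haβ
  have hκU : ∀ z ∈ κ, z ∈ U := by
    rintro _ ⟨w, hw, rfl⟩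
    exact (h1 w hw.1).1
  have hXY : J ∩ Y = β := by
    apply Subset.antisymm
    · rintro z ⟨hzJ, (hz | hz) | hz⟩
      · exact absurd hzJ (hUJ z (hκU z hz))
      · rcases hz with rfl | hz
        · exact haβ
        · rw [mem_singleton_iff] at hz
          rw [hz]; exact hbβ
      · exact hz
    · intro z hz
      exact ⟨hβJ hz, Or.inr hz⟩
  -- the main claim
  have claim : ∀ w₁ ∈ ball (0 : ℂ) 1 ∩ ball ζ r, ‖χ w₁ - a‖ ≤ e := by
    rintro w₁ ⟨hw₁, hw₁r⟩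
    by_contra hcon
    rw [not_le] at hcon
    have hz₁ : χ w₁ ∈ U := (h1 w₁ hw₁).1
    have hUc : IsPreconnected U := hU.isConnected.isPreconnected
    have hc1 : χ w₁ ∈ connectedComponentIn Jᶜ (χ 0) :=
      hUc.subset_connectedComponentIn hz₀ (fun z hz => hUJ z hz) hz₁
    have hz₀a : e < ‖χ 0 - a‖ := by
      refine hed.trans_le ?_
      rw [← dist_eq_norm]
      exact infDist_le_dist_of_mem haJ
    have hc2 : χ w₁ ∈ connectedComponentIn Yᶜ (χ 0) := by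
      set R : ℝ := min ‖χ 0 - a‖ ‖χ w₁ - a‖ with hR
      have hRe : e < R := lt_min hz₀a hcon
      have hpre : IsPreconnected ((fun z : ℂ => z + a) '' {z : ℂ | R ≤ ‖z‖}) :=
        (preconn_compl_ball R (he0.trans hRe)).image _ (by fun_prop)
      have hm0 : R ≤ ‖χ 0 - a‖ := min_le_left _ _
      have hm1 : R ≤ ‖χ w₁ - a‖ := min_le_right _ _
      refine hpre.subset_connectedComponentIn ⟨χ 0 - a, hm0, sub_add_cancel _ _⟩ ?_
        ⟨χ w₁ - a, hm1, sub_add_cancel _ _⟩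
      rintro _ ⟨z, hz, rfl⟩ hzY
      have h3 := hYball _ hzY
      rw [add_sub_cancel_right] at h3
      exact absurd (hz.trans h3) (not_le.2 hRe)
    have hc3 := janiszewski hJc hYc (by rw [hXY]; exact hβ.isPreconnected) hc1 hc2
    set V : Set ℂ := connectedComponentIn (J ∪ Y)ᶜ (χ 0) with hV
    have hVpre : IsPreconnected V := isPreconnected_connectedComponentIn
    have hVsub : V ⊆ (J ∪ Y)ᶜ := connectedComponentIn_subset _ _
    have hne : V.Nonempty := ⟨_, hc3⟩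
    have h0V : χ 0 ∈ V := mem_connectedComponentIn (connectedComponentIn_nonempty_iff.1 hne)
    have hVJ : Disjoint V J := disjoint_left.2 fun z hz hzJ => hVsub hz (Or.inl hzJ)
    have hVK : V ⊆ interior (KSet f) := h.sub_int hVpre hVJ ⟨χ 0, h0V, hU.sub_int hz₀⟩
    have hVU : V ⊆ U := hU.sub_of_meet hVpre hVK ⟨χ 0, h0V, hz₀⟩
    have hpre : IsPreconnected (χi '' V) := hVpre.image _ (hdi.continuousOn.mono hVU)
    have hcont : ContinuousOn (fun w : ℂ => ‖w - ζ‖) (χi '' V) := by fun_prop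
    have hw₁V : w₁ ∈ χi '' V := ⟨χ w₁, hc3, (h1 w₁ hw₁).2⟩
    have h0V' : (0 : ℂ) ∈ χi '' V := ⟨χ 0, h0V, (h1 0 h0).2⟩
    have hmem : r ∈ (fun w : ℂ => ‖w - ζ‖) '' (χi '' V) := by
      refine hpre.intermediate_value hw₁V h0V' hcont ⟨?_, ?_⟩
      · have h3 := mem_ball_iff_norm.1 hw₁r
        exact h3.le
      · show r ≤ ‖(0 : ℂ) - ζ‖
        rw [zero_sub, norm_neg, hζ]
        exact hr1.le
    obtain ⟨w, ⟨z, hz, rfl⟩, hw⟩ := hmem
    refine hVsub hz (Or.inr (Or.inl (Or.inl ⟨χi z, ⟨(h2 z (hVU hz)).1, ?_⟩, (h2 z (hVU hz)).2⟩)))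
    rw [mem_sphere_iff_norm]
    exact hw
  refine ⟨r, hr0, fun w hw w' hw' => ?_⟩
  have e1 : χ w - χ w' = (χ w - a) - (χ w' - a) := by ring
  rw [e1]
  refine (norm_sub_le _ _).trans ?_
  have h3 := claim w hw
  have h4 := claim w' hw'
  linarith

end Pool.Agent.JH
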