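import Pool.Agent.Lib.MP_8ebc20_an.Car

/-!
# CAR1: continuous extension of the Riemann map to the closed disc
-/

set_option autoImplicit false

namespace Pool.Agent.JH

open Polynomial Set Metric Filter Topology

variable {f : ℂ[X]} {J : Set ℂ} {γ : ℝ → ℂ} {ψ ψi : ℂ → ℂ} {δ C lam : ℝ} {U : Set ℂ} {χ χi : ℂ → ℂ}

private theorem car1_closure : closure (ball (0 : ℂ) 1) = closedBall 0 1 :=
  closure_ball (0 : ℂ) one_ne_zero

private theorem car1_lim (h : Hyp f J) (hl : IsLoop f J ψ γ) (hU : IsFat f U)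
    (hd : DifferentiableOn ℂ χ (ball 0 1)) (hdi : DifferentiableOn ℂ χi U)
    (h1 : ∀ w ∈ ball (0 : ℂ) 1, χ w ∈ U ∧ χi (χ w) = w)
    (h2 : ∀ z ∈ U, χi z ∈ ball (0 : ℂ) 1 ∧ χ (χi z) = z) :
    ∀ w ∈ closedBall (0 : ℂ) 1, ∃ y, Tendsto χ (𝓝[ball (0 : ℂ) 1] w) (𝓝 y) := by
  intro w hw
  by_cases hw1 : w ∈ ball (0 : ℂ) 1
  · exact ⟨χ w, hd.continuousOn w hw1⟩
  · have hn : ‖w‖ = 1 := by
      rw [mem_closedBall_zero_iff] at hw
      rw [mem_ball_zero_iff, not_lt] at hw1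
      exact le_antisymm hw hw1
    have hne : (𝓝[ball (0 : ℂ) 1] w).NeBot := by
      rw [← mem_closure_iff_nhdsWithin_neBot, car1_closure]
      exact hw
    have hC : Cauchy (map χ (𝓝[ball (0 : ℂ) 1] w)) := by
      rw [Metric.cauchy_iff]
      refine ⟨hne.map χ, fun ε hε => ?_⟩
      obtain ⟨r, hr, hosc⟩ := hU.osc h hl hd hdi h1 h2 hn (half_pos hε)
      refine ⟨χ '' (ball (0 : ℂ) 1 ∩ ball w r), ?_, ?_⟩
      · refine image_mem_map (inter_mem self_mem_nhdsWithin ?_)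
        exact mem_nhdsWithin_of_mem_nhds (ball_mem_nhds w hr)
      · rintro _ ⟨a, ha, rfl⟩ _ ⟨b, hb, rfl⟩
        rw [dist_eq_norm]
        exact (hosc a ha b hb).trans_lt (half_lt_self hε)
    obtain ⟨y, hy⟩ := CompleteSpace.complete hC
    exact ⟨y, hy⟩

theorem IsFat.exists_extension (h : Hyp f J) (hl : IsLoop f J ψ γ) (hU : IsFat f U)
    (hd : DifferentiableOn ℂ χ (ball 0 1)) (hdi : DifferentiableOn ℂ χi U)
    (h1 : ∀ w ∈ ball (0 : ℂ) 1, χ w ∈ U ∧ χi (χ w) = w)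
    (h2 : ∀ z ∈ U, χi z ∈ ball (0 : ℂ) 1 ∧ χ (χi z) = z) :
    ∃ χ' : ℂ → ℂ, ContinuousOn χ' (closedBall 0 1) ∧ EqOn χ' χ (ball 0 1) ∧
      (∀ w : ℂ, ‖w‖ = 1 → χ' w ∈ J) ∧ χ' '' closedBall 0 1 = closure U := by
  have hlim := car1_lim h hl hU hd hdi h1 h2
  have hcont : ContinuousOn (extendFrom (ball (0 : ℂ) 1) χ) (closedBall 0 1) :=
    continuousOn_extendFrom car1_closure.ge hlim
  have heq : EqOn (extendFrom (ball (0 : ℂ) 1) χ) χ (ball 0 1) := fun w hw =>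
    extendFrom_eq (subset_closure hw) (hd.continuousOn w hw)
  have hcirc : ∀ w : ℂ, ‖w‖ = 1 → extendFrom (ball (0 : ℂ) 1) χ w ∈ closure U ∧
      extendFrom (ball (0 : ℂ) 1) χ w ∉ U := by
    intro w hw
    have hwB : w ∈ closedBall (0 : ℂ) 1 := mem_closedBall_zero_iff.2 hw.le
    have hne : (𝓝[ball (0 : ℂ) 1] w).NeBot := by
      rw [← mem_closure_iff_nhdsWithin_neBot, car1_closure]
      exact hwB
    have ht : Tendsto χ (𝓝[ball (0 : ℂ) 1] w) (𝓝 (extendFrom (ball (0 : ℂ) 1) χ w)) :=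
      tendsto_extendFrom (hlim w hwB)
    refine ⟨mem_closure_of_tendsto ht ?_, fun hz => ?_⟩
    · filter_upwards [self_mem_nhdsWithin] with w' hw'
      exact (h1 w' hw').1
    · have hc : ContinuousAt χi (extendFrom (ball (0 : ℂ) 1) χ w) :=
        hdi.continuousOn.continuousAt (hU.isOpen.mem_nhds hz)
      have h3 : Tendsto (fun w' => χi (χ w')) (𝓝[ball (0 : ℂ) 1] w)
          (𝓝 (χi (extendFrom (ball (0 : ℂ) 1) χ w))) := hc.tendsto.comp ht
      have h4 : Tendsto (fun w' => χi (χ w')) (𝓝[ball (0 : ℂ) 1] w) (𝓝 w) := by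
        refine Tendsto.congr' ?_ (tendsto_id.mono_left nhdsWithin_le_nhds)
        filter_upwards [self_mem_nhdsWithin] with w' hw'
        exact (h1 w' hw').2.symm
      have h5 := tendsto_nhds_unique h3 h4
      have h6 := (h2 _ hz).1
      rw [h5, mem_ball_zero_iff, hw] at h6
      exact lt_irrefl _ h6
  refine ⟨extendFrom (ball (0 : ℂ) 1) χ, hcont, heq, fun w hw => ?_, ?_⟩
  · refine hU.frontier_sub h ?_
    rw [hU.isOpen.frontier_eq]
    exact hcirc w hw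
  · apply Subset.antisymm
    · rintro _ ⟨w, hw, rfl⟩
      by_cases hw1 : w ∈ ball (0 : ℂ) 1
      · rw [heq hw1]
        exact subset_closure (h1 w hw1).1
      · rw [mem_closedBall_zero_iff] at hw
        rw [mem_ball_zero_iff, not_lt] at hw1
        exact (hcirc w (le_antisymm hw hw1)).1
    · have hcl : IsClosed (extendFrom (ball (0 : ℂ) 1) χ '' closedBall 0 1) :=
        ((isCompact_closedBall (0 : ℂ) 1).image_of_continuousOn hcont).isClosed
      refine closure_minimal (fun z hz => ?_) hcl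
      have h3 := h2 z hz
      exact ⟨χi z, ball_subset_closedBall h3.1, by rw [heq h3.1, h3.2]⟩

end Pool.Agent.JH
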