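import Pool.Agent.Lib.MP_8ebc20_an.Jct0

/-!
# JCT: the complement of a simple closed curve has a bounded component

PROOF of `jct_norm` (normalised position): `c` simple closed of period `1`, `c ta = -1`, `c tb = 1`,
`ta < tb < ta + 1`, all distances at most `2`.  `Q₁ = c '' Icc ta tb`, `Q₂ = c '' Icc tb (ta + 1)`, compact,
`Q₁ ∪ Q₂ = range c` (periodicity), `Q₁ ∩ Q₂ = {-1, 1}` (injectivity mod `1`).  All points of `range c` satisfy
`‖z - 1‖ ≤ 2`, `‖z + 1‖ ≤ 2`, so `|Re z| ≤ 1`, with `|Re z| = 1` only for `z = ±1`, and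
`|Im z| ^ 2 ≤ 3`.  `Q_i \ {-1, 1}` is the image of an open interval.  Apply `jct_core`.
`jct`: choose `a = c ta, b = c tb` at maximal distance (`range c = c '' Icc 0 1` is compact, with at least two points:
`c 0 ≠ c (1/2)`); the parameters can be chosen with `ta < tb < ta + 1`.  Apply the normalised
statement to `c' t = (2 c t - (a + b)) / (b - a)`; components of complements correspond under the
homeomorphism `z ↦ (2 z - (a + b)) / (b - a)` (`Homeomorph.image_connectedComponentIn` or a direct argument), and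
boundedness is preserved.
-/

set_option autoImplicit false

namespace Pool.Agent.JH

open Set Metric Filter Topology

theorem jct_norm {c : ℝ → ℂ} (hc : Continuous c) (hper : ∀ t, c (t + 1) = c t)
    (hinj : ∀ s t, c s = c t → ∃ n : ℤ, t = s + n) {ta tb : ℝ} (h1 : ta < tb) (h2 : tb < ta + 1)
    (ha : c ta = -1) (hb : c tb = 1) (hm : ∀ s t, ‖c s - c t‖ ≤ 2) :
    ∃ z ∉ range c, Bornology.IsBounded (connectedComponentIn (range c)ᶜ z) := by
  set Q₁ := c '' Icc ta tb with hQ₁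
  set Q₂ := c '' Icc tb (ta + 1) with hQ₂
  have hP : Function.Periodic c 1 := hper
  have hrange : range c = Q₁ ∪ Q₂ := by
    ext z
    constructor
    · rintro ⟨t, rfl⟩
      obtain ⟨y, hy, hty⟩ := hP.exists_mem_Ico one_pos t ta
      rw [hty]
      rcases le_total y tb with h | h
      · exact Or.inl ⟨y, ⟨hy.1, h⟩, rfl⟩
      · exact Or.inr ⟨y, ⟨h, hy.2.le⟩, rfl⟩
    · rintro (⟨t, -, rfl⟩ | ⟨t, -, rfl⟩) <;> exact mem_range_self _
  -- points with the same value
  have hne : ∀ s t : ℝ, s < t → t < s + 1 → c s ≠ c t := by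
    intro s t h3 h4 h5
    obtain ⟨n, hn⟩ := hinj s t h5
    have h6 : (0 : ℝ) < n := by linarith
    have h7 : (n : ℝ) < 1 := by linarith
    have h8 : 0 < n := by exact_mod_cast h6
    have h9 : n < 1 := by exact_mod_cast h7
    omega
  have h12 : Q₁ ∩ Q₂ = {-1, 1} := by
    ext z
    constructor
    · rintro ⟨⟨s, hs, rfl⟩, ⟨t, ht, hst⟩⟩
      by_cases h3 : s = t
      · have h4 : s = tb := le_antisymm hs.2 (h3 ▸ ht.1)
        rw [h4, hb]
        simp
      · have h4 : s < t := lt_of_le_of_ne (hs.2.trans ht.1) h3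
        by_cases h5 : t < s + 1
        · exact absurd hst.symm (hne s t h4 h5)
        · have h6 : s = ta := by
            have := hs.1
            have := ht.2
            linarith
          rw [h6, ha]
          simp
    · rintro (rfl | rfl)
      · refine ⟨⟨ta, ⟨le_rfl, h1.le⟩, ha⟩, ⟨ta + 1, ⟨h2.le, le_rfl⟩, ?_⟩⟩
        rw [hper, ha]
      · exact ⟨⟨tb, ⟨h1.le, le_rfl⟩, hb⟩, ⟨tb, ⟨le_rfl, h2.le⟩, hb⟩⟩
  have hbd : ∀ z ∈ Q₁ ∪ Q₂, |z.re| ≤ 1 ∧ |z.im| < 2 ∧ (|z.re| = 1 → z = -1 ∨ z = 1) := by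
    rw [← hrange]
    rintro z ⟨t, rfl⟩
    have e1 := hm t ta
    have e2 := hm t tb
    rw [ha] at e1
    rw [hb] at e2
    have f1 : (c t - -1).re ^ 2 + (c t - -1).im ^ 2 ≤ 4 := by
      have := Complex.sq_norm (c t - -1)
      rw [Complex.normSq_apply] at this
      nlinarith [norm_nonneg (c t - -1)]
    have f2 : (c t - 1).re ^ 2 + (c t - 1).im ^ 2 ≤ 4 := by
      have := Complex.sq_norm (c t - 1)
      rw [Complex.normSq_apply] at this
      nlinarith [norm_nonneg (c t - 1)]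
    simp only [Complex.sub_re, Complex.sub_im, Complex.add_re, Complex.add_im, Complex.one_re,
      Complex.one_im, sub_neg_eq_add, add_zero, sub_zero] at f1 f2
    have g1 : |(c t).re| ≤ 1 := by
      rw [abs_le]
      constructor <;> nlinarith [sq_nonneg ((c t).im)]
    refine ⟨g1, ?_, ?_⟩
    · rw [abs_lt]
      constructor <;> nlinarith [sq_nonneg ((c t).re)]
    · intro h3
      rcases (abs_eq zero_le_one).1 h3 with h4 | h4
      · right
        have h5 : (c t).im = 0 := by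
          rw [h4] at f1
          have : (c t).im ^ 2 = 0 := le_antisymm (by linarith) (sq_nonneg _)
          exact pow_eq_zero_iff two_ne_zero |>.1 this
        exact Complex.ext (by simp [h4]) (by simp [h5])
      · left
        have h5 : (c t).im = 0 := by
          rw [h4] at f2
          have : (c t).im ^ 2 = 0 := le_antisymm (by linarith) (sq_nonneg _)
          exact pow_eq_zero_iff two_ne_zero |>.1 this
        exact Complex.ext (by simp [h4]) (by simp [h5])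
  have hd₁ : Q₁ \ {-1, 1} = c '' Ioo ta tb := by
    ext z
    constructor
    · rintro ⟨⟨s, hs, rfl⟩, h3⟩
      simp only [mem_insert_iff, mem_singleton_iff, not_or] at h3
      exact ⟨s, ⟨lt_of_le_of_ne hs.1 fun h => h3.1 (h ▸ ha),
        lt_of_le_of_ne hs.2 fun h => h3.2 (h ▸ hb)⟩, rfl⟩
    · rintro ⟨s, hs, rfl⟩
      refine ⟨⟨s, ⟨hs.1.le, hs.2.le⟩, rfl⟩, ?_⟩
      rintro (h3 | h3)
      · exact hne ta s hs.1 (by linarith [hs.2]) (ha.trans h3.symm)
      · exact hne s tb hs.2 (by linarith [hs.1]) (h3.trans hb.symm)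
  have hd₂ : Q₂ \ {-1, 1} = c '' Ioo tb (ta + 1) := by
    ext z
    constructor
    · rintro ⟨⟨s, hs, rfl⟩, h3⟩
      simp only [mem_insert_iff, mem_singleton_iff, not_or] at h3
      exact ⟨s, ⟨lt_of_le_of_ne hs.1 fun h => h3.2 (h ▸ hb),
        lt_of_le_of_ne hs.2 fun h => h3.1 (by rw [h, hper, ha])⟩, rfl⟩
    · rintro ⟨s, hs, rfl⟩
      refine ⟨⟨s, ⟨hs.1.le, hs.2.le⟩, rfl⟩, ?_⟩
      rintro (h3 | h3)
      · exact hne ta s (by linarith [hs.1]) hs.2 (ha.trans h3.symm)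
      · exact hne tb s hs.1 (by linarith [hs.2]) (hb.trans h3.symm)
  have j₁ : JoinedIn Q₁ (-1) 1 :=
    (((convex_Icc ta tb).isPathConnected ⟨ta, le_rfl, h1.le⟩).image hc).joinedIn _
      ⟨ta, ⟨le_rfl, h1.le⟩, ha⟩ _ ⟨tb, ⟨h1.le, le_rfl⟩, hb⟩
  have j₂ : JoinedIn Q₂ (-1) 1 :=
    (((convex_Icc tb (ta + 1)).isPathConnected ⟨tb, le_rfl, h2.le⟩).image hc).joinedIn _
      ⟨ta + 1, ⟨h2.le, le_rfl⟩, by rw [hper, ha]⟩ _ ⟨tb, ⟨le_rfl, h2.le⟩, hb⟩
  have k₁ : ∀ z ∈ Q₁ \ {-1, 1}, ∀ w ∈ Q₁ \ {-1, 1}, JoinedIn (Q₁ \ {-1, 1}) z w := by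
    rw [hd₁]
    exact (((convex_Ioo ta tb).isPathConnected (nonempty_Ioo.2 h1)).image hc).joinedIn
  have k₂ : ∀ z ∈ Q₂ \ {-1, 1}, ∀ w ∈ Q₂ \ {-1, 1}, JoinedIn (Q₂ \ {-1, 1}) z w := by
    rw [hd₂]
    exact (((convex_Ioo tb (ta + 1)).isPathConnected (nonempty_Ioo.2 h2)).image hc).joinedIn
  rw [hrange]
  exact jct_core (isCompact_Icc.image hc) (isCompact_Icc.image hc) h12 hbd j₁ j₂ k₁ k₂

theorem jct {c : ℝ → ℂ} (hc : Continuous c) (hper : ∀ t, c (t + 1) = c t)
    (hinj : ∀ s t, c s = c t → ∃ n : ℤ, t = s + n) :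
    ∃ z ∉ range c, Bornology.IsBounded (connectedComponentIn (range c)ᶜ z) := by
  have hP : Function.Periodic c 1 := hper
  obtain ⟨⟨s₀, t₀⟩, ⟨hs₀, ht₀⟩, hmax⟩ := (isCompact_Icc (a := (0 : ℝ)) (b := 1)).prod
    (isCompact_Icc (a := (0 : ℝ)) (b := 1)) |>.exists_isMaxOn
    ⟨((0 : ℝ), (0 : ℝ)), ⟨⟨le_rfl, zero_le_one⟩, ⟨le_rfl, zero_le_one⟩⟩⟩
    (f := fun x : ℝ × ℝ => ‖c x.1 - c x.2‖) (by fun_prop)
  simp only at hs₀ ht₀
  have hle : ∀ s t : ℝ, ‖c s - c t‖ ≤ ‖c s₀ - c t₀‖ := by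
    intro s t
    obtain ⟨s', hs', hss⟩ := hP.exists_mem_Ico₀ one_pos s
    obtain ⟨t', ht', htt⟩ := hP.exists_mem_Ico₀ one_pos t
    rw [hss, htt]
    exact hmax (show ((s', t') : ℝ × ℝ) ∈ Icc (0 : ℝ) 1 ×ˢ Icc (0 : ℝ) 1 from
      ⟨⟨hs'.1, hs'.2.le⟩, ⟨ht'.1, ht'.2.le⟩⟩)
  have hpos : 0 < ‖c s₀ - c t₀‖ := by
    refine lt_of_lt_of_le ?_ (hle 0 (1 / 2))
    rw [norm_pos_iff, sub_ne_zero]
    intro h3
    obtain ⟨n, hn⟩ := hinj _ _ h3
    have h4 : (2 * n : ℝ) = 1 := by linarith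
    have h5 : 2 * n = 1 := by exact_mod_cast h4
    omega
  obtain ⟨ta, tb, h1, h2, hD, hle'⟩ : ∃ ta tb : ℝ, ta < tb ∧ tb < ta + 1 ∧ c tb - c ta ≠ 0 ∧
      ∀ s t : ℝ, ‖c s - c t‖ ≤ ‖c tb - c ta‖ := by
    have hne : s₀ ≠ t₀ := by
      rintro rfl
      simp at hpos
    have h01 : c 0 = c 1 := by
      have := hper 0
      rw [zero_add] at this
      exact this.symm
    rcases lt_or_gt_of_ne hne with h3 | h3
    · refine ⟨s₀, t₀, h3, ?_, ?_, ?_⟩
      · by_contra hcon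
        have h4 : s₀ = 0 := by linarith [hs₀.1, ht₀.2]
        have h5 : t₀ = 1 := by linarith [hs₀.1, ht₀.2]
        rw [h4, h5, h01] at hpos
        simp at hpos
      · rw [← norm_pos_iff, norm_sub_rev]
        exact hpos
      · rw [norm_sub_rev (c t₀)]
        exact hle
    · refine ⟨t₀, s₀, h3, ?_, ?_, hle⟩
      · by_contra hcon
        have h4 : t₀ = 0 := by linarith [ht₀.1, hs₀.2]
        have h5 : s₀ = 1 := by linarith [ht₀.1, hs₀.2]
        rw [h4, h5, h01] at hpos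
        simp at hpos
      · rw [← norm_pos_iff]
        exact hpos
  set D := c tb - c ta with hDdef
  set m := c ta + c tb with hm
  set c' : ℝ → ℂ := fun t => (2 * c t - m) / D with hc'
  have hφi : ∀ z w : ℂ, (2 * z - m) / D = (2 * w - m) / D → z = w := by
    intro z w h3
    rw [div_left_inj' hD] at h3
    linear_combination h3 / 2
  obtain ⟨z', hz', hbd⟩ := jct_norm (c := c') (by fun_prop) (fun t => by simp only [hc', hper])
    (fun s t h3 => hinj s t (hφi _ _ h3)) h1 h2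
    (by
      simp only [hc']
      rw [div_eq_iff hD]
      rw [hm, hDdef]
      ring)
    (by
      simp only [hc']
      rw [div_eq_iff hD]
      rw [hm, hDdef]
      ring)
    (by
      intro s t
      have h3 : c' s - c' t = 2 * (c s - c t) / D := by
        simp only [hc']
        field_simp
        ring
      rw [h3, norm_div, norm_mul, Complex.norm_ofNat, div_le_iff₀ (norm_pos_iff.2 hD)]
      exact mul_le_mul_of_nonneg_left (hle' s t) zero_le_two)
  set φ : ℂ → ℂ := fun z => (2 * z - m) / D with hφ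
  have hφc : Continuous φ := by fun_prop
  set z : ℂ := (D * z' + m) / 2 with hz
  have hφz : φ z = z' := by
    simp only [hφ, hz]
    field_simp
    ring
  have hφU : ∀ w ∈ (range c)ᶜ, φ w ∈ (range c')ᶜ := by
    rintro w hw ⟨t, ht⟩
    exact hw ⟨t, hφi _ _ ht⟩
  have hzc : z ∈ (range c)ᶜ := by
    rintro ⟨t, ht⟩
    refine hz' ⟨t, ?_⟩
    rw [← hφz, ← ht]
  refine ⟨z, hzc, ?_⟩
  have hsub : φ '' connectedComponentIn (range c)ᶜ z ⊆ connectedComponentIn (range c')ᶜ z' := by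
    refine (isPreconnected_connectedComponentIn.image φ hφc.continuousOn
      ).subset_connectedComponentIn ⟨z, mem_connectedComponentIn hzc, hφz⟩ ?_
    rintro _ ⟨w, hw, rfl⟩
    exact hφU w (connectedComponentIn_subset _ _ hw)
  obtain ⟨M, hM⟩ := isBounded_iff_forall_norm_le.1 hbd
  refine isBounded_iff_forall_norm_le.2 ⟨(‖D‖ * M + ‖m‖) / 2, fun w hw => ?_⟩
  have h3 : ‖φ w‖ ≤ M := hM _ (hsub ⟨w, hw, rfl⟩)
  have h4 : w = (D * φ w + m) / 2 := by
    simp only [hφ]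
    field_simp
    ring
  rw [h4, norm_div, Complex.norm_ofNat]
  refine div_le_div_of_nonneg_right ((norm_add_le _ _).trans ?_) zero_le_two
  rw [norm_mul]
  gcongr

end Pool.Agent.JH
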