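import Pool.Agent.Lib.MP_8ebc20_an.Circ0
import Pool.Agent.Lib.MP_8ebc20_an.Jct

/-!
# CIRC: simple closed curves in `J` are the boundaries of the bounded Fatou components
-/

set_option autoImplicit false

namespace Pool.Agent.JH

open Polynomial Set Metric Filter Topology

variable {f : ℂ[X]} {J : Set ℂ} {γ : ℝ → ℂ} {ψ ψi : ℂ → ℂ} {δ C lam : ℝ} {U V : Set ℂ}

private theorem circ_compact_range {c : ℝ → ℂ} (hc : Continuous c)
    (hper : ∀ t, c (t + 1) = c t) : IsCompact (range c) :=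
  Function.Periodic.compact_of_continuous (c := 1) hper one_ne_zero hc

theorem IsFat.of_curve (h : Hyp f J) (hr : HypRad f J δ C lam) (hl : IsLoop f J ψ γ) {c : ℝ → ℂ}
    (hc : Continuous c) (hper : ∀ t, c (t + 1) = c t)
    (hinj : ∀ s t, c s = c t → ∃ n : ℤ, t = s + n) (hJ : ∀ t, c t ∈ J) :
    ∃ U, IsFat f U ∧ frontier U = range c := by
  obtain ⟨z, hz, hb⟩ := jct hc hper hinj
  have hQJ : range c ⊆ J := by
    rintro _ ⟨t, rfl⟩
    exact hJ t
  have hQo : IsOpen (range c)ᶜ := (circ_compact_range hc hper).isClosed.isOpen_compl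
  have hVo : IsOpen (connectedComponentIn (range c)ᶜ z) := hQo.connectedComponentIn
  have hVp : IsPreconnected (connectedComponentIn (range c)ᶜ z) :=
    isPreconnected_connectedComponentIn
  have hzV : z ∈ connectedComponentIn (range c)ᶜ z := mem_connectedComponentIn hz
  have hVK : connectedComponentIn (range c)ᶜ z ⊆ KSet f := by
    intro w hw
    by_contra hwK
    apply unbounded_compl_K h.deg
    have h1 : (KSet f)ᶜ ⊆ (range c)ᶜ := by
      intro u hu huQ
      exact hu (h.J_sub_K (hQJ huQ))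
    have h2 : (KSet f)ᶜ ⊆ connectedComponentIn (range c)ᶜ w :=
      (preconn_compl_K h.deg).subset_connectedComponentIn hwK h1
    rw [← connectedComponentIn_eq hw] at h2
    exact hb.subset h2
  have hVi : connectedComponentIn (range c)ᶜ z ⊆ interior (KSet f) :=
    interior_maximal hVK hVo
  obtain ⟨U, hU, hzU⟩ := exists_fat (hVi hzV)
  have h1 : connectedComponentIn (range c)ᶜ z ⊆ U := hU.sub_of_meet hVp hVi ⟨z, hzV, hzU⟩
  have h2 : U ⊆ connectedComponentIn (range c)ᶜ z := by
    refine hU.isConnected.isPreconnected.subset_connectedComponentIn hzU ?_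
    intro w hw hwQ
    exact Set.disjoint_left.1 (hU.disj_J h) hw (hQJ hwQ)
  have h3 : U = connectedComponentIn (range c)ᶜ z := h2.antisymm h1
  have h4 : frontier U ⊆ range c := by
    intro w hw
    by_contra hwQ
    rw [h3] at hw
    exact Set.disjoint_left.1 (frontier_comp_disj hQo z) hw hwQ
  obtain ⟨χ, χi, hχ⟩ := hU.exists_disc h hr hl
  obtain ⟨b1, b2, b3, b4⟩ := hχ.bd_props hU.isOpen
  refine ⟨U, hU, ?_⟩
  rw [← b4] at h4 ⊢
  exact curve_eq b1 hc b2 hper b3 hinj h4

theorem IsFat.unique (h : Hyp f J) (hr : HypRad f J δ C lam) (hl : IsLoop f J ψ γ)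
    (hU : IsFat f U) (hV : IsFat f V) (heq : frontier U = frontier V) : U = V := by
  by_contra hne
  obtain ⟨χ, χi, hχ⟩ := hU.exists_disc h hr hl
  obtain ⟨χ', χi', hχ'⟩ := hV.exists_disc h hr hl
  obtain ⟨b1, b2, b3, b4⟩ := hχ'.bd_props hV.isOpen
  have h0 : (0 : ℂ) ∈ closedBall (0 : ℂ) 1 := mem_closedBall_self zero_le_one
  have hpV : χ' 0 ∈ V := (hχ'.inner 0 h0).2 (by simp)
  have hpU : χ' 0 ∉ closure U := by
    intro hcl
    rw [closure_eq_self_union_frontier] at hcl
    rcases hcl with h1 | h1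
    · exact hne (hU.eq_of_meet hV ⟨_, h1, hpV⟩)
    · exact Set.disjoint_left.1 (hV.disj_J h) hpV (hU.frontier_sub h h1)
  have hw : Chg (bd χ') 0 1 (χ' 0) (2 * Real.pi * Complex.I) := by
    refine winding_inside hχ'.hol ?_ hχ'.cont ?_ (mem_ball_self one_pos)
    · intro x hx y hy hxy
      have h1 := (hχ'.left x (ball_subset_closedBall hx)).2
      rw [hxy, (hχ'.left y (ball_subset_closedBall hy)).2] at h1
      exact h1.symm
    · rintro w hw ⟨u, hu, huw⟩
      have h1 : χ' u ∈ V :=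
        (hχ'.inner u (ball_subset_closedBall hu)).2 (mem_ball_zero_iff.1 hu)
      rw [huw] at h1
      have h2 := (hχ'.inner w (mem_closedBall_zero_iff.2 hw.le)).1 h1
      rw [hw] at h2
      exact lt_irrefl _ h2
  have hmem : ∀ t, bd χ' t ∈ closure U := by
    intro t
    apply frontier_subset_closure
    rw [heq, ← b4]
    exact mem_range_self t
  have hk : Chg (fun t => χ (χi (bd χ' t))) 0 1 (χ' 0) 0 := by
    refine Chg.disc_curve (k := fun t => χi (bd χ' t)) hχ.cont ?_ ?_ ?_ ?_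
    · intro w hw hwp
      exact hpU (hwp ▸ (hχ.left w hw).1)
    · exact hχ.conti.comp b1.continuousOn fun t _ => hmem t
    · exact fun t _ => (hχ.right _ (hmem t)).1
    · have h1 := b2 0
      rw [zero_add] at h1
      simp only [h1]
  have hk' : Chg (bd χ') 0 1 (χ' 0) 0 := hk.congr fun t _ => (hχ.right _ (hmem t)).2
  have h1 := Chg.unique zero_le_one hw hk'
  exact Complex.two_pi_I_ne_zero h1

theorem IsFat.exists_img (h : Hyp f J) (hr : HypRad f J δ C lam) (hl : IsLoop f J ψ γ)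
    (hU : IsFat f U) (g : J ≃ₜ J) :
    ∃ V, IsFat f V ∧ ∀ z : J, (z : ℂ) ∈ frontier U ↔ (g z : ℂ) ∈ frontier V := by
  obtain ⟨χ, χi, hχ⟩ := hU.exists_disc h hr hl
  obtain ⟨b1, b2, b3, b4⟩ := hχ.bd_props hU.isOpen
  have hmem : ∀ t, bd χ t ∈ J := by
    intro t
    apply hU.frontier_sub h
    rw [← b4]
    exact mem_range_self t
  obtain ⟨V, hV, hVc⟩ := IsFat.of_curve h hr hl (c := fun t => (g ⟨bd χ t, hmem t⟩ : ℂ))
    (continuous_subtype_val.comp (g.continuous.comp (b1.subtype_mk hmem)))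
    (fun t => by simp only [b2])
    (fun s t hst => by
      apply b3
      have h1 := g.injective (Subtype.ext hst)
      exact congrArg Subtype.val h1)
    (fun t => (g ⟨bd χ t, hmem t⟩).2)
  refine ⟨V, hV, fun z => ?_⟩
  rw [hVc, ← b4]
  constructor
  · rintro ⟨t, ht⟩
    refine ⟨t, ?_⟩
    have h1 : (⟨bd χ t, hmem t⟩ : J) = z := Subtype.ext ht
    show (g ⟨bd χ t, hmem t⟩ : ℂ) = g z
    rw [h1]
  · rintro ⟨t, ht⟩
    refine ⟨t, ?_⟩
    have h1 := g.injective (Subtype.ext ht)
    exact congrArg Subtype.val h1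

end Pool.Agent.JH
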