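import Pool.Agent.Lib.MP_8ebc20_an.Disc

/-!
# CIRC0: boundary curves

PROOFS. `bd_props`: `IsDisc` and `Complex.exp` : `bd χ s = bd χ t` gives equal points of the circle (`left`), and
`Complex.exp_eq_exp_iff_exists_int`; `range`: the points of the closed disc with `‖w‖ = 1` are mapped onto
`closure U \ U = frontier U` (`inner`, `U` open).
`curve_eq`: otherwise some `c₂ t₀ ∉ range c₁`; `c₂` is a homeomorphism of the interval `(t₀, t₀ + 1)`
onto `range c₂ \ {c₂ t₀}` (restrict to compact intervals `[t₀ + ε, t₀ + 1 - ε]`: `range c₁` is compact and at positive distance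
from `c₂ t₀`), so `c₁ = c₂ ∘ θ` with a continuous `θ : ℝ → (t₀, t₀ + 1)`, `1`-periodic and injective on
`[0, 1)`: impossible for a real function (on `[0, 1]` it takes its maximum at an interior point or at `0` and `1`; near it,
values are taken twice, or: a continuous injective function on `[0, 1)` is monotone, contradicting `θ 1 = θ 0`).
-/

set_option autoImplicit false

namespace Pool.Agent.JH

open Polynomial Set Metric Filter Topology

variable {f : ℂ[X]} {J : Set ℂ} {γ : ℝ → ℂ} {ψ ψi : ℂ → ℂ} {δ C lam : ℝ} {U V : Set ℂ}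

/-- the boundary curve of a disc -/
noncomputable def bd (χ : ℂ → ℂ) (t : ℝ) : ℂ := χ (Complex.exp (2 * Real.pi * t * Complex.I))

theorem IsDisc.bd_props {χ χi : ℂ → ℂ} (hU : IsOpen U) (hχ : IsDisc U χ χi) :
    Continuous (bd χ) ∧ (∀ t, bd χ (t + 1) = bd χ t) ∧
      (∀ s t, bd χ s = bd χ t → ∃ n : ℤ, t = s + n) ∧ range (bd χ) = frontier U := by
  have hn : ∀ t : ℝ, ‖Complex.exp (2 * Real.pi * t * Complex.I)‖ = 1 := by
    intro t
    have h : (2 * Real.pi * t * Complex.I : ℂ) = ((2 * Real.pi * t : ℝ) : ℂ) * Complex.I := by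
      push_cast
      ring
    rw [h, Complex.norm_exp_ofReal_mul_I]
  have hmem : ∀ t : ℝ, Complex.exp (2 * Real.pi * t * Complex.I) ∈ closedBall (0 : ℂ) 1 := by
    intro t
    rw [mem_closedBall_zero_iff, hn t]
  refine ⟨?_, ?_, ?_, ?_⟩
  · rw [← continuousOn_univ]
    exact hχ.cont.comp (f := fun t : ℝ => Complex.exp (2 * Real.pi * t * Complex.I))
      (Continuous.continuousOn (by fun_prop)) (fun t _ => hmem t)
  · intro t
    show χ _ = χ _
    have h : (2 * Real.pi * ((t + 1 : ℝ) : ℂ) * Complex.I : ℂ) =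
        2 * Real.pi * t * Complex.I + 2 * Real.pi * Complex.I := by
      push_cast
      ring
    rw [h, Complex.exp_periodic]
  · intro s t hst
    have h1 : χi (bd χ s) = χi (bd χ t) := by rw [hst]
    have h2 : Complex.exp (2 * Real.pi * s * Complex.I) =
        Complex.exp (2 * Real.pi * t * Complex.I) := by
      rw [← (hχ.left _ (hmem s)).2, ← (hχ.left _ (hmem t)).2]
      exact h1
    obtain ⟨n, hn2⟩ := Complex.exp_eq_exp_iff_exists_int.1 h2
    have hpi : (2 * Real.pi * Complex.I : ℂ) ≠ 0 := Complex.two_pi_I_ne_zero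
    have h3 : (s : ℂ) = t + n := by
      have h4 : (2 * Real.pi * Complex.I : ℂ) * s = (2 * Real.pi * Complex.I) * (t + n) := by
        linear_combination hn2
      exact mul_left_cancel₀ hpi h4
    have h5 : s = t + n := by exact_mod_cast h3
    refine ⟨-n, ?_⟩
    rw [h5]
    push_cast
    ring
  · rw [hU.frontier_eq]
    refine Subset.antisymm ?_ ?_
    · rintro _ ⟨t, rfl⟩
      refine ⟨(hχ.left _ (hmem t)).1, fun h => ?_⟩
      have h1 := (hχ.inner _ (hmem t)).1 h
      rw [hn t] at h1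
      exact lt_irrefl _ h1
    · rintro z ⟨hz, hzU⟩
      obtain ⟨hw, hw1⟩ := hχ.right z hz
      have h1 : ¬ ‖χi z‖ < 1 := fun h => hzU (by rw [← hw1]; exact (hχ.inner _ hw).2 h)
      have h2 : ‖χi z‖ = 1 := le_antisymm (mem_closedBall_zero_iff.1 hw) (not_lt.1 h1)
      refine ⟨Complex.arg (χi z) / (2 * Real.pi), ?_⟩
      have h3 : Complex.exp (2 * Real.pi * ((Complex.arg (χi z) / (2 * Real.pi) : ℝ) : ℂ) *
          Complex.I) = χi z := by
        have h4 : (2 * Real.pi * ((Complex.arg (χi z) / (2 * Real.pi) : ℝ) : ℂ) *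
            Complex.I : ℂ) = (Complex.arg (χi z) : ℂ) * Complex.I := by
          have h5 : (Real.pi : ℂ) ≠ 0 := Complex.ofReal_ne_zero.2 Real.pi_ne_zero
          push_cast
          field_simp
        rw [h4]
        have h6 := Complex.norm_mul_exp_arg_mul_I (χi z)
        rw [h2, Complex.ofReal_one, one_mul] at h6
        exact h6
      show χ _ = z
      rw [h3, hw1]

private theorem circ0_aux {θ : ℝ → ℝ} (hc : Continuous θ) (hp : θ 1 = θ 0)
    (hi : ∀ s t, θ s = θ t → ∃ n : ℤ, t = s + n) : False := by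
  have hint : ∀ n : ℤ, ∀ x : ℝ, 0 < x → x < 1 → x ≠ n := by
    intro n x h0 h1 h
    rw [h] at h0 h1
    have h2 : (0 : ℤ) < n := by exact_mod_cast h0
    have h3 : n < 1 := by exact_mod_cast h1
    omega
  have hne : θ 0 ≠ θ (1 / 2) := by
    intro h
    obtain ⟨n, hn⟩ := hi _ _ h
    exact hint n (1 / 2) (by norm_num) (by norm_num) (by linarith)
  set w : ℝ := (θ 0 + θ (1 / 2)) / 2 with hw
  have hw0 : w ≠ θ 0 := by
    intro h
    apply hne
    linarith
  have hwh : w ≠ θ (1 / 2) := by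
    intro h
    apply hne
    linarith
  have hm : w ∈ uIcc (θ 0) (θ (1 / 2)) := by
    rw [mem_uIcc]
    rcases le_total (θ 0) (θ (1 / 2)) with h | h
    · left
      constructor <;> linarith
    · right
      constructor <;> linarith
  have hm' : w ∈ uIcc (θ (1 / 2)) (θ 1) := by
    rw [hp, uIcc_comm]
    exact hm
  obtain ⟨s, hs, hsw⟩ := intermediate_value_uIcc (hc.continuousOn (s := uIcc 0 (1 / 2))) hm
  obtain ⟨t, ht, htw⟩ := intermediate_value_uIcc (hc.continuousOn (s := uIcc (1 / 2) 1)) hm'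
  rw [uIcc_of_le (by norm_num)] at hs ht
  obtain ⟨n, hn⟩ := hi s t (hsw.trans htw.symm)
  have h1 : s < 1 / 2 := lt_of_le_of_ne hs.2 (fun h => hwh (by rw [← hsw, h]))
  have h2 : t < 1 := lt_of_le_of_ne ht.2 (fun h => hw0 (by rw [← htw, h, hp]))
  exact hint n (t - s) (by linarith [ht.1]) (by linarith [hs.1]) (by linarith)

theorem curve_eq {c₁ c₂ : ℝ → ℂ} (h₁ : Continuous c₁) (h₂ : Continuous c₂)
    (p₁ : ∀ t, c₁ (t + 1) = c₁ t) (p₂ : ∀ t, c₂ (t + 1) = c₂ t)
    (i₁ : ∀ s t, c₁ s = c₁ t → ∃ n : ℤ, t = s + n) (i₂ : ∀ s t, c₂ s = c₂ t → ∃ n : ℤ, t = s + n)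
    (hsub : range c₁ ⊆ range c₂) : range c₁ = range c₂ := by
  refine Subset.antisymm hsub ?_
  rintro _ ⟨t₀, rfl⟩
  by_contra h0
  have hpz : ∀ (n : ℤ) (t : ℝ), c₂ (t + n) = c₂ t := by
    intro n t
    have h : Function.Periodic c₂ 1 := p₂
    have h1 := h.int_mul n t
    rwa [mul_one] at h1
  have hex : ∀ t : ℝ, ∃ u : ℝ, u ∈ Icc t₀ (t₀ + 1) ∧ c₂ u = c₁ t := by
    intro t
    obtain ⟨u, hu⟩ := hsub (mem_range_self t)
    refine ⟨u - ⌊u - t₀⌋, ⟨?_, ?_⟩, ?_⟩
    · have := Int.floor_le (u - t₀)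
      linarith
    · have := Int.lt_floor_add_one (u - t₀)
      linarith
    · have h1 := hpz (-⌊u - t₀⌋) u
      push_cast at h1
      rw [← sub_eq_add_neg] at h1
      rw [h1, hu]
  choose θ hθ hθc using hex
  have hend : ∀ t u : ℝ, c₂ u = c₁ t → u ≠ t₀ ∧ u ≠ t₀ + 1 := by
    intro t u h
    constructor
    · rintro rfl
      exact h0 ⟨t, h.symm⟩
    · rintro rfl
      rw [p₂] at h
      exact h0 ⟨t, h.symm⟩
  have huniq : ∀ t u : ℝ, u ∈ Icc t₀ (t₀ + 1) → c₂ u = c₁ t → u = θ t := by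
    intro t u hu hc
    obtain ⟨n, hn⟩ := i₂ u (θ t) (hc.trans (hθc t).symm)
    obtain ⟨e1, e2⟩ := hend t u hc
    obtain ⟨e3, e4⟩ := hend t (θ t) (hθc t)
    have f1 : t₀ < u := lt_of_le_of_ne hu.1 (Ne.symm e1)
    have f2 : u < t₀ + 1 := lt_of_le_of_ne hu.2 e2
    have f3 : t₀ < θ t := lt_of_le_of_ne (hθ t).1 (Ne.symm e3)
    have f4 : θ t < t₀ + 1 := lt_of_le_of_ne (hθ t).2 e4
    have g1 : (n : ℝ) < 1 := by linarith
    have g2 : (-1 : ℝ) < n := by linarith
    have g3 : n < 1 := by exact_mod_cast g1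
    have g4 : -1 < n := by exact_mod_cast g2
    have g5 : n = 0 := by omega
    rw [g5] at hn
    push_cast at hn
    linarith
  have hcont : Continuous θ := by
    rw [continuous_iff_continuousAt]
    intro t
    refine isCompact_Icc.tendsto_nhds_of_unique_mapClusterPt
      (Filter.Eventually.of_forall hθ) ?_
    intro u hu hcl
    refine huniq t u hu ?_
    have h1 : MapClusterPt (c₂ u) (𝓝 t) (fun x => c₂ (θ x)) := hcl.continuousAt_comp h₂.continuousAt
    have h2 : Tendsto (fun x => c₂ (θ x)) (𝓝 t) (𝓝 (c₁ t)) := by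
      have h3 : (fun x => c₂ (θ x)) = c₁ := funext hθc
      rw [h3]
      exact h₁.tendsto t
    have h4 : ClusterPt (c₂ u) (𝓝 (c₁ t)) := ClusterPt.mono h1 h2
    exact eq_of_nhds_neBot h4
  refine circ0_aux hcont ?_ ?_
  · refine (huniq 1 (θ 0) (hθ 0) ?_).symm
    rw [hθc 0]
    have := p₁ 0
    rw [zero_add] at this
    exact this.symm
  · intro s t h
    refine i₁ s t ?_
    rw [← hθc s, ← hθc t, h]

end Pool.Agent.JH
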