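import Pool.Agent.Lib.MP_8ebc20_an.Bas3

/-!
# INV1: existence of the branches

PROOF of `exists_delta`: `J` is compact and disjoint from the closed set `PC f`, so there is `δ > 0` with
`ball x (2 δ)` disjoint from `PC f` for all `x ∈ J`.  The iterate `(ev f)^[n]` is the evaluation of the
polynomial `p = f.comp^[n] X` (`Polynomial.iterate_comp_eval`); if `p' z = 0` then by the chain rule
`f' ((ev f)^[j] z) = 0` for some `j < n`, so the critical value `p z = (ev f)^[n - j] ((ev f)^[j] z)` is in
`PC f`.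
`Polynomial.isCoveringMapOn_eval` : `p` is a covering map over the complement of its critical values,
in particular over `ball x (2 δ)`, which is convex, so simply connected and locally path connected, so the
inclusion lifts with prescribed value (`IsCoveringMapOn.existsUnique_continuousMap_lifts`), and the continuous lift
is holomorphic since `p' (g w) ≠ 0` (`HasStrictDerivAt.of_local_left_inverse` /
`HasDerivAt.of_local_left_inverse`).  For `n = 0` take `g = id`.
-/

set_option autoImplicit false

namespace Pool.Agent.JH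

open Polynomial Set Metric Filter Topology

variable {f : ℂ[X]} {J : Set ℂ}

private lemma inv1_lift (p : ℂ[X]) {x : ℂ} {r : ℝ}
    (hcr : ∀ k : ℂ, p.derivative.eval k = 0 → p.eval k ∉ ball x r) {w y : ℂ} (hw : w ∈ ball x r)
    (hy : p.eval y = w) :
    ∃ g : ℂ → ℂ, DifferentiableOn ℂ g (ball x r) ∧ (∀ v ∈ ball x r, p.eval (g v) = v) ∧
      g w = y := by
  classical
  have hr : 0 < r := by
    have h1 : dist w x < r := hw
    exact lt_of_le_of_lt dist_nonneg h1
  have : ContractibleSpace (ball x r) :=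
    (convex_ball x r).contractibleSpace ⟨x, mem_ball_self hr⟩
  have : LocallyPathConnectedSpace (ball x r) := isOpen_ball.locallyPathConnectedSpace
  obtain ⟨F, ⟨hF0, hF⟩, -⟩ := p.isCoveringMapOn_eval.existsUnique_continuousMap_lifts
    (⟨Subtype.val, continuous_subtype_val⟩ : C(ball x r, ℂ)) (a₀ := ⟨w, hw⟩) (e₀ := y) hy
    (by
      rintro ⟨v, hv⟩ ⟨k, hk, hkv⟩
      apply hcr k hk
      have hkv' : p.eval k = v := hkv
      rw [hkv']
      exact hv)
  have hFv : ∀ v : ball x r, p.eval (F v) = v := fun v => congrFun hF v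
  let g : ℂ → ℂ := fun z => if hz : z ∈ ball x r then F ⟨z, hz⟩ else 0
  have hg : ∀ (z : ℂ) (hz : z ∈ ball x r), g z = F ⟨z, hz⟩ := by
    intro z hz
    show (if hz : z ∈ ball x r then F ⟨z, hz⟩ else 0) = _
    rw [dif_pos hz]
  have hgv : ∀ v ∈ ball x r, p.eval (g v) = v := by
    intro v hv
    rw [hg v hv]
    exact hFv ⟨v, hv⟩
  have hgc : ContinuousOn g (ball x r) := by
    rw [continuousOn_iff_continuous_domRestrict]
    have h2 : (ball x r).domRestrict g = F := by
      ext z
      exact hg z z.2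
    rw [h2]
    exact F.continuous
  refine ⟨g, ?_, hgv, ?_⟩
  · intro v hv
    have hd : p.derivative.eval (g v) ≠ 0 := by
      intro h0
      apply hcr _ h0
      rw [hgv v hv]
      exact hv
    have h3 : HasDerivAt g (p.derivative.eval (g v))⁻¹ v := by
      apply HasDerivAt.of_local_left_inverse (hgc.continuousAt (isOpen_ball.mem_nhds hv))
        (p.hasDerivAt (g v)) hd
      filter_upwards [isOpen_ball.mem_nhds hv] with z hz
      exact hgv z hz
    exact h3.differentiableAt.differentiableWithinAt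
  · rw [hg w hw, hF0]

private lemma inv1_crit (f : ℂ[X]) (n : ℕ) (z : ℂ)
    (hz : (f.comp^[n] X).derivative.eval z = 0) :
    ∃ j, j < n ∧ f.derivative.eval ((ev f)^[j] z) = 0 := by
  induction n with
  | zero =>
    exfalso
    simp at hz
  | succ n ih =>
    rw [Function.iterate_succ_apply', derivative_comp, eval_mul, eval_comp] at hz
    rcases mul_eq_zero.1 hz with h1 | h1
    · obtain ⟨j, hj, hj'⟩ := ih h1
      exact ⟨j, by omega, hj'⟩
    · refine ⟨n, by omega, ?_⟩
      rw [Polynomial.iterate_comp_eval, eval_X] at h1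
      exact h1

theorem Hyp.exists_delta (h : Hyp f J) : ∃ δ : ℝ, 0 < δ ∧ ∀ x ∈ J, ∀ (n : ℕ),
    ∀ w ∈ ball x (2 * δ), ∀ y : ℂ, (ev f)^[n] y = w →
      ∃ g : ℂ → ℂ, IsBr f n x (2 * δ) g ∧ g w = y := by
  have hopen : IsOpen (PC f)ᶜ := by
    rw [isOpen_compl_iff]
    exact isClosed_closure
  have hsub : J ⊆ (PC f)ᶜ := by
    intro x hx hx'
    exact Set.disjoint_left.1 h.disj hx' hx
  obtain ⟨δ, hδ, hδ'⟩ := h.isCompact_J.exists_thickening_subset_open hopen hsub
  refine ⟨δ / 2, by linarith, ?_⟩
  intro x hx n w hw y hy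
  have h2δ : 2 * (δ / 2) = δ := by ring
  rw [h2δ] at hw ⊢
  have hball : ball x δ ⊆ (PC f)ᶜ := by
    intro v hv
    apply hδ'
    rw [mem_thickening_iff]
    exact ⟨x, hx, hv⟩
  have hit : ∀ z : ℂ, (f.comp^[n] X).eval z = (ev f)^[n] z := by
    intro z
    rw [Polynomial.iterate_comp_eval, eval_X]
    rfl
  obtain ⟨g, hg1, hg2, hg3⟩ := inv1_lift (f.comp^[n] X) (x := x) (r := δ) (by
    intro k hk hkb
    obtain ⟨j, hj, hj'⟩ := inv1_crit f n k hk
    apply hball hkb
    apply subset_closure
    refine ⟨(ev f)^[j] k, n - j, by omega, hj', ?_⟩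
    rw [hit, ← Function.iterate_add_apply]
    congr 2
    omega) hw (by rw [hit]; exact hy)
  refine ⟨g, ⟨hg1, ?_⟩, hg3⟩
  intro v hv
  rw [← hit]
  exact hg2 v hv

end Pool.Agent.JH
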