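import Pool.Agent.Lib.MP_8ebc20_an.Contr1
import Pool.Agent.Lib.MP_8ebc20_an.Inv1

/-!
# CONTR: uniform contraction of the inverse branches

PROOF of `exists_hypRad`.  Take `δ` of `exists_delta`.
Step 2: by `Pool.Agent.BB.koebe_dist` with `θ = 1 / 2` there is `C₁ ≥ 1` with
`‖g w - g w'‖ ≤ C₁ ‖deriv g x‖ ‖w - w'‖` on `closedBall x δ` (`δ = 1 / 2 * (2 δ)`).  Choose `N ≥ 1` by
`deriv_small` with `C₁ ‖deriv g x‖ ≤ 1 / 2` for `n = N`.  For `n < N`:
`‖deriv g x‖ = 1 / ‖deriv ((ev f)^[n]) (g x)‖` (`deriv_mul`) is bounded by a constant because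
`deriv ((ev f)^[n])` is continuous and has no zero on the compact set `J` (`no_crit`, chain rule,
`it_mem_J`), so `‖g w - g w'‖ ≤ C₂ ‖w - w'‖` on `closedBall x δ` with one constant `C₂ ≥ 1` for all `n < N`.
Step 3: by strong induction on `n`: `‖g w - g w'‖ ≤ C₂ (1 / 2) ^ (n / N) ‖w - w'‖` (`n / N` integer
division).  For `n ≥ N` put `q = (ev f)^[n - N] ∘ g`, a branch of the inverse of `(ev f)^[N]` on
`ball x (2 δ)` (`(ev f)^[N] (q w) = w`), `y = q x ∈ J`; `‖q w - q w'‖ ≤ ‖w - w'‖ / 2` on `closedBall x δ`,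
so `q` maps `closedBall x δ` into `closedBall y (δ / 2)`.  Let `g₂` be the branch of `(ev f)^[n - N]` on
`ball y (2 δ)` with `g₂ y = g x` (`exists_delta`).  On the convex set `closedBall x δ`, `g = g₂ ∘ q` by
`IsBr.lift_eq` (applied to `u = g`, branch `g₂`: `(ev f)^[n - N] (g w) = q w ∈ ball y (2 δ)`).  So
`‖g w - g w'‖ = ‖g₂ (q w) - g₂ (q w')‖ ≤ C₂ (1 / 2) ^ ((n - N) / N) ‖q w - q w'‖`.
Finally `(1 / 2) ^ (n / N) ≤ 2 * lam ^ n` for `lam = (1 / 2) ^ (1 / N : ℝ)`: take `C = 2 C₂`.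
-/

set_option autoImplicit false

namespace Pool.Agent.JH

open Polynomial Set Metric Filter Topology

variable {f : ℂ[X]} {J : Set ℂ}

private theorem Contr_diff (n : ℕ) : Differentiable ℂ ((ev f)^[n]) := by
  have h : Differentiable ℂ (ev f) := f.differentiable
  exact h.iterate n

private theorem Contr_deriv_ne (h : Hyp f J) (n : ℕ) {z : ℂ} (hz : z ∈ J) :
    deriv ((ev f)^[n]) z ≠ 0 := by
  induction n with
  | zero =>
    rw [Function.iterate_zero]
    rw [deriv_id']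
    exact one_ne_zero
  | succ n ih =>
    rw [Function.iterate_succ', deriv_comp]
    · refine mul_ne_zero ?_ ih
      have h1 : deriv (ev f) ((ev f)^[n] z) = f.derivative.eval ((ev f)^[n] z) := by
        show deriv (fun w => f.eval w) _ = _
        rw [Polynomial.deriv]
      rw [h1]
      exact h.no_crit ((h.it_mem_J n).2 hz)
    · exact f.differentiable.differentiableAt
    · exact (Contr_diff n).differentiableAt

/-- For every `n` the derivatives of the branches at the points of `J` are bounded. -/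
private theorem Contr_bd (h : Hyp f J) {δ : ℝ} (hδ : 0 < δ) (n : ℕ) : ∃ B : ℝ, 0 ≤ B ∧
    ∀ x ∈ J, ∀ g : ℂ → ℂ, IsBr f n x (2 * δ) g → ‖deriv g x‖ ≤ B := by
  have hc : Continuous (deriv ((ev f)^[n])) :=
    ((Contr_diff n).contDiff (n := 1)).continuous_deriv le_rfl
  obtain ⟨z, hz, hmin⟩ := h.isCompact_J.exists_isMinOn h.J_nonempty hc.norm.continuousOn
  have hpos : 0 < ‖deriv ((ev f)^[n]) z‖ := norm_pos_iff.2 (Contr_deriv_ne h n hz)
  refine ⟨‖deriv ((ev f)^[n]) z‖⁻¹, inv_nonneg.2 hpos.le, fun x hx g hg => ?_⟩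
  have hxb : x ∈ ball x (2 * δ) := mem_ball_self (by positivity)
  have hgx : g x ∈ J := (hg.mem_J h hxb).2 hx
  have h1 := congrArg norm (hg.deriv_mul hxb)
  rw [norm_mul, norm_one] at h1
  have h2 : ‖deriv ((ev f)^[n]) z‖ ≤ ‖deriv ((ev f)^[n]) (g x)‖ := hmin hgx
  have h3 : ‖deriv ((ev f)^[n]) z‖ * ‖deriv g x‖ ≤ 1 := by
    rw [← h1]
    exact mul_le_mul_of_nonneg_right h2 (norm_nonneg _)
  rw [← one_div, le_div_iff₀ hpos]
  linarith

theorem Hyp.exists_hypRad (h : Hyp f J) : ∃ δ C lam : ℝ, HypRad f J δ C lam := by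
  obtain ⟨δ, hδ, hex⟩ := h.exists_delta
  obtain ⟨C₁, hC₁, hK⟩ := Pool.Agent.BB.koebe_dist (θ := 1 / 2) (by norm_num) (by norm_num)
  have hcb : ∀ x : ℂ, closedBall x (1 / 2 * (2 * δ)) = closedBall x δ := by
    intro x
    congr 1
    ring
  have hsub : ∀ x : ℂ, closedBall x δ ⊆ ball x (2 * δ) := fun x =>
    closedBall_subset_ball (by linarith)
  -- the distortion estimate
  have hdist : ∀ (n : ℕ), ∀ x ∈ J, ∀ g : ℂ → ℂ, IsBr f n x (2 * δ) g → ∀ w ∈ closedBall x δ,
      ∀ w' ∈ closedBall x δ, ‖g w - g w'‖ ≤ C₁ * ‖deriv g x‖ * ‖w - w'‖ := by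
    intro n x hx g hg w hw w' hw'
    have h1 := (hK g x (2 * δ) (by positivity) hg.1 hg.injOn).2
    rw [hcb] at h1
    exact (h1 w hw w' hw').1
  obtain ⟨N0, hN0⟩ := deriv_small h hδ (ε := 1 / (2 * C₁)) (by positivity)
  set N : ℕ := max N0 1 with hN
  have hNpos : 0 < N := lt_of_lt_of_le Nat.one_pos (le_max_right _ _)
  have hhalf : ∀ x ∈ J, ∀ g : ℂ → ℂ, IsBr f N x (2 * δ) g → ∀ w ∈ closedBall x δ,
      ∀ w' ∈ closedBall x δ, ‖g w - g w'‖ ≤ 1 / 2 * ‖w - w'‖ := by
    intro x hx g hg w hw w' hw'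
    refine (hdist N x hx g hg w hw w' hw').trans ?_
    refine mul_le_mul_of_nonneg_right ?_ (norm_nonneg _)
    calc C₁ * ‖deriv g x‖ ≤ C₁ * (1 / (2 * C₁)) :=
          mul_le_mul_of_nonneg_left (hN0 N (le_max_left _ _) x hx g hg) (by linarith)
      _ = 1 / 2 := by field_simp
  choose B hB0 hB using fun n => Contr_bd h hδ n
  set C₂ : ℝ := 1 + ∑ n ∈ Finset.range N, C₁ * B n with hC₂
  have hsum : ∀ n, n < N → C₁ * B n ≤ C₂ := by
    intro n hn
    have h1 : C₁ * B n ≤ ∑ n ∈ Finset.range N, C₁ * B n :=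
      Finset.single_le_sum (f := fun n => C₁ * B n)
        (fun i _ => mul_nonneg (by linarith) (hB0 i)) (Finset.mem_range.2 hn)
    linarith
  have hC₂1 : 1 ≤ C₂ := by
    have h1 : 0 ≤ ∑ n ∈ Finset.range N, C₁ * B n :=
      Finset.sum_nonneg fun i _ => mul_nonneg (by linarith) (hB0 i)
    linarith
  -- the main estimate
  have hmain : ∀ (n : ℕ), ∀ x ∈ J, ∀ g : ℂ → ℂ, IsBr f n x (2 * δ) g → ∀ w ∈ closedBall x δ,
      ∀ w' ∈ closedBall x δ, ‖g w - g w'‖ ≤ C₂ * (1 / 2) ^ (n / N) * ‖w - w'‖ := by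
    intro n
    induction n using Nat.strong_induction_on with
    | _ n ih =>
      intro x hx g hg w hw w' hw'
      rcases lt_or_ge n N with hn | hn
      · rw [Nat.div_eq_of_lt hn, pow_zero, mul_one]
        refine (hdist n x hx g hg w hw w' hw').trans ?_
        refine mul_le_mul_of_nonneg_right ?_ (norm_nonneg _)
        exact (mul_le_mul_of_nonneg_left (hB n x hx g hg) (by linarith)).trans (hsum n hn)
      · obtain ⟨k, rfl⟩ := Nat.exists_eq_add_of_le hn
        have hxb : x ∈ ball x (2 * δ) := mem_ball_self (by positivity)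
        have hxc : x ∈ closedBall x δ := mem_closedBall_self hδ.le
        set q : ℂ → ℂ := fun w => (ev f)^[k] (g w) with hq
        have hqb : IsBr f N x (2 * δ) q := by
          refine ⟨(Contr_diff k).comp_differentiableOn hg.1, fun w hw => ?_⟩
          have h1 := hg.2 w hw
          rw [Function.iterate_add_apply] at h1
          exact h1
        have hy : q x ∈ J := (hqb.mem_J h hxb).2 hx
        have hqh := hhalf x hx q hqb
        have hqc : ∀ w ∈ closedBall x δ, q w ∈ closedBall (q x) δ := by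
          intro w hw
          rw [mem_closedBall, dist_eq_norm]
          have h1 := hqh w hw x hxc
          rw [mem_closedBall, dist_eq_norm] at hw
          have := norm_nonneg (w - x)
          linarith
        obtain ⟨g₂, hg₂, hg₂x⟩ := hex (q x) hy k (q x) (mem_ball_self (by positivity)) (g x) rfl
        have hlift : ∀ t ∈ closedBall x δ, g t = g₂ ((ev f)^[k] (g t)) := by
          refine hg₂.lift_eq (convex_closedBall x δ).isPreconnected
            (hg.1.continuousOn.mono (hsub x)) (fun t ht => hsub _ (hqc t ht)) hxc ?_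
          exact hg₂x.symm
        have h1 : ‖g w - g w'‖ ≤ C₂ * (1 / 2) ^ (k / N) * ‖q w - q w'‖ := by
          rw [hlift w hw, hlift w' hw']
          exact ih k (by omega) (q x) hy g₂ hg₂ (q w) (hqc w hw) (q w') (hqc w' hw')
        have h2 := hqh w hw w' hw'
        have h3 : (N + k) / N = k / N + 1 := by
          rw [add_comm, Nat.add_div_right _ hNpos]
        rw [h3, pow_succ]
        calc ‖g w - g w'‖ ≤ C₂ * (1 / 2) ^ (k / N) * ‖q w - q w'‖ := h1
          _ ≤ C₂ * (1 / 2) ^ (k / N) * (1 / 2 * ‖w - w'‖) :=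
              mul_le_mul_of_nonneg_left h2 (by positivity)
          _ = C₂ * ((1 / 2) ^ (k / N) * (1 / 2)) * ‖w - w'‖ := by ring
  -- the contraction constant
  obtain ⟨lam, hlam0, hlamN⟩ : ∃ lam : ℝ, 0 < lam ∧ lam ^ N = 1 / 2 :=
    ⟨(1 / 2 : ℝ) ^ ((N : ℝ)⁻¹), Real.rpow_pos_of_pos (by norm_num) _,
      Real.rpow_inv_natCast_pow (by norm_num) hNpos.ne'⟩
  have hlam1 : lam < 1 := by
    by_contra hcon
    have h1 := one_le_pow₀ (not_lt.1 hcon) (n := N)
    rw [hlamN] at h1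
    norm_num at h1
  have hpow : ∀ n : ℕ, (1 / 2 : ℝ) ^ (n / N) ≤ 2 * lam ^ n := by
    intro n
    have h1 : lam ^ n = (1 / 2) ^ (n / N) * lam ^ (n % N) := by
      conv_lhs => rw [← Nat.div_add_mod n N, pow_add, pow_mul, hlamN]
    have h2 : (1 / 2 : ℝ) ≤ lam ^ (n % N) := by
      rw [← hlamN]
      exact pow_le_pow_of_le_one hlam0.le hlam1.le (Nat.mod_lt _ hNpos).le
    rw [h1]
    have h3 : (0 : ℝ) < (1 / 2) ^ (n / N) := by positivity
    nlinarith
  refine ⟨δ, 2 * C₂, lam, ⟨hδ, by linarith, hlam0, hlam1, hex, ?_⟩⟩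
  intro x hx n g hg w hw w' hw'
  refine (hmain n x hx g hg w hw w' hw').trans ?_
  refine mul_le_mul_of_nonneg_right ?_ (norm_nonneg _)
  calc C₂ * (1 / 2) ^ (n / N) ≤ C₂ * (2 * lam ^ n) :=
        mul_le_mul_of_nonneg_left (hpow n) (by linarith)
    _ = 2 * C₂ * lam ^ n := by ring

end Pool.Agent.JH
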