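import Pool.Agent.Lib.MP_8ebc20_an.Inv
import Pool.Agent.BB.Koebe

/-!
# CONTR1: derivatives of the inverse branches tend to zero

PROOF of `deriv_small`.  Suppose not: there are `ε > 0`, `n_k → ∞`, `x_k ∈ J` and branches `g_k`
(`IsBr f n_k x_k (2 δ) g_k`) with `‖deriv g_k x_k‖ > ε`.  By `Pool.Agent.BB.koebe_cover` (`g_k` is
injective): `ball (g_k x_k) (2 δ ε / 16)` is contained in `g_k '' ball x_k (2 δ)`, so `(ev f)^[n_k]` maps it
into the bounded set `ball x_k (2 δ)`.  `g_k x_k ∈ J` (`IsBr.mem_J`); by compactness of `J` a subsequence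
converges to `y ∈ J`; choose `a ∉ K` with `‖a - y‖ < δ ε / 16` (`exists_near`); then for large `k` of the
subsequence `a ∈ ball (g_k x_k) (2 δ ε / 16)`, so `‖(ev f)^[n_k] a‖` is bounded by a constant, contradicting
`escape` for `Q = {a}`.
-/

set_option autoImplicit false

namespace Pool.Agent.JH

open Polynomial Set Metric Filter Topology

variable {f : ℂ[X]} {J : Set ℂ}

theorem deriv_small (h : Hyp f J) {δ : ℝ} (hδ : 0 < δ) {ε : ℝ} (hε : 0 < ε) :
    ∃ N : ℕ, ∀ n ≥ N, ∀ x ∈ J, ∀ g : ℂ → ℂ, IsBr f n x (2 * δ) g → ‖deriv g x‖ ≤ ε := by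
  have hρ : 0 < δ * ε / 16 := by positivity
  have hnear : ∀ x : ℂ, ∃ z : ℂ, x ∈ J → z ∈ (KSet f)ᶜ ∧ ‖z - x‖ < δ * ε / 16 := by
    intro x
    by_cases hx : x ∈ J
    · obtain ⟨z, hz, hzx⟩ := h.exists_near hx hρ
      exact ⟨z, fun _ => ⟨hz, hzx⟩⟩
    · exact ⟨0, fun hx' => absurd hx' hx⟩
  choose a ha using hnear
  obtain ⟨t, ht, hcov⟩ := h.isCompact_J.elim_nhds_subcover (fun y => ball y (δ * ε / 16))
    (fun y _ => ball_mem_nhds y hρ)
  obtain ⟨M, hM⟩ := h.isCompact_J.isBounded.exists_norm_le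
  obtain ⟨N, hN⟩ := escape h.deg (Q := a '' (t : Set ℂ)) ((t.finite_toSet.image a).isCompact)
    (by
      rintro _ ⟨y, hy, rfl⟩
      exact (ha y (ht y hy)).1) (M + 2 * δ)
  refine ⟨N, fun n hn x hx g hg => ?_⟩
  by_contra hc
  push Not at hc
  have hcov2 := Pool.Agent.BB.koebe_cover (by positivity : 0 < 2 * δ) hg.1 hg.injOn
  have hgx : g x ∈ J := (hg.mem_J h (mem_ball_self (by positivity))).2 hx
  obtain ⟨y, hy, hxy⟩ := mem_iUnion₂.1 (hcov hgx)
  have h1 : a y ∈ ball (g x) (2 * δ * ‖deriv g x‖ / 16) := by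
    have h3 := (ha y (ht y hy)).2
    rw [mem_ball, dist_eq_norm] at hxy ⊢
    have h4 : a y - g x = (a y - y) - (g x - y) := by ring
    have h5 : ‖a y - g x‖ ≤ ‖a y - y‖ + ‖g x - y‖ := by
      rw [h4]
      exact norm_sub_le _ _
    have h6 : δ * ε ≤ δ * ‖deriv g x‖ := by gcongr
    linarith
  obtain ⟨w, hw, hwa⟩ := hcov2 h1
  have h2 := hN n hn (a y) ⟨y, hy, rfl⟩
  rw [← hwa, hg.2 w hw] at h2
  rw [mem_ball, dist_eq_norm] at hw
  have h7 : ‖w‖ ≤ ‖w - x‖ + ‖x‖ := by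
    have : w = (w - x) + x := by ring
    calc ‖w‖ = ‖(w - x) + x‖ := by rw [← this]
      _ ≤ _ := norm_add_le _ _
  have h8 := hM x hx
  linarith

end Pool.Agent.JH
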