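import Pool.Agent.Lib.MP_8ebc20_an.Wnd1

/-!
# CROSS: two crossing paths in a rectangle meet

PROOF. `crossing_aux`: suppose `h s ≠ v t` for all `s, t ∈ [0, 1]`.  `F (s, t) = v t - h s` has a
continuous logarithm `L` on the unit square (`exists_log_rect`).  On the bottom side (`t = 0`)
`Im F ≤ 0`, on the right side (`s = 1`) `Re F ≤ 0`, on the top side (`t = 1`) `Im F ≥ 0`, on the left
side (`s = 0`) `Re F ≥ 0`.  The functions `A_b z = log (z I) - I π / 2`, `A_r z = log (-z) - I π`,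
`A_t z = log (-I z) - I 3π / 2`, `A_l z = log z` are continuous logarithms on the corresponding closed
half planes without `0`, so `L - A_b ∘ F`, ... are constant on the sides (`log_unique`).  At the corner
`(0,0)` (quadrant `Re ≥ 0, Im ≤ 0`): `A_b = A_l`; at `(1,0)` (`Re ≤ 0, Im ≤ 0`): `A_b = A_r`; at `(1,1)`
(`Re ≤ 0, Im ≥ 0`): `A_r = A_t`; at `(0,1)` (`Re ≥ 0, Im ≥ 0`): `A_t = A_l - 2 π I`.  (In polar form
`z = r e^(i θ)` with `θ ∈ [-π/2, 0]`, `[-π, -π/2]`, `[-3π/2, -π]`, `[-2π, -3π/2]` respectively, all branches except the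
last `A_l` equal `log r + i θ`.)  Following the constants around the square gives `0 = 2 π I`, a contradiction.
`crossing`: unpack `JoinedIn` into paths.
-/

set_option autoImplicit false

namespace Pool.Agent.JH

open Set Metric Filter Topology

private theorem cr_logI {z : ℂ} (h0 : z ≠ 0) (hr : 0 ≤ z.re) :
    Complex.log (z * Complex.I) = Complex.log z + Real.pi / 2 * Complex.I := by
  have h1 := Complex.abs_arg_le_pi_div_two_iff.2 hr
  rw [abs_le] at h1
  have hpi := Real.pi_pos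
  rw [(Complex.log_mul_eq_add_log_iff h0 Complex.I_ne_zero).2, Complex.log_I]
  rw [Complex.arg_I]
  exact ⟨by linarith [h1.1], by linarith [h1.2]⟩

private theorem cr_lognI {z : ℂ} (h0 : z ≠ 0) (hr : 0 ≤ z.im) :
    Complex.log (z * (-Complex.I)) = Complex.log z - Real.pi / 2 * Complex.I := by
  have h1 := Complex.arg_nonneg_iff.2 hr
  have h2 := Complex.arg_le_pi z
  have hpi := Real.pi_pos
  rw [(Complex.log_mul_eq_add_log_iff h0 (neg_ne_zero.2 Complex.I_ne_zero)).2, Complex.log_neg_I]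
  · ring
  rw [Complex.arg_neg_I]
  exact ⟨by linarith, by linarith⟩

private theorem cr_slit {z : ℂ} (h0 : z ≠ 0) (hr : 0 ≤ z.re) : z ∈ Complex.slitPlane := by
  rcases lt_or_eq_of_le hr with h | h
  · exact Or.inl h
  · refine Or.inr fun hi => h0 (Complex.ext ?_ ?_)
    · simpa using h.symm
    · simpa using hi

/-- constancy of the difference of a logarithm and a rotated principal logarithm -/
private theorem cr_side {G L : ℝ → ℂ} (hG : ContinuousOn G (Icc 0 1)) (hL : ContinuousOn L (Icc 0 1))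
    (hLG : ∀ t ∈ Icc (0 : ℝ) 1, Complex.exp (L t) = G t) {u : ℂ} (hu : u ≠ 0)
    (hr : ∀ t ∈ Icc (0 : ℝ) 1, 0 ≤ (G t * u).re) :
    L 0 - Complex.log (G 0 * u) = L 1 - Complex.log (G 1 * u) := by
  have h0 : ∀ t ∈ Icc (0 : ℝ) 1, G t ≠ 0 := fun t ht => hLG t ht ▸ Complex.exp_ne_zero _
  have h1 : ContinuousOn (fun t => Complex.log (G t * u) + Complex.log u⁻¹) (Icc 0 1) := by
    refine ContinuousOn.add (ContinuousOn.clog (hG.mul continuousOn_const) fun t ht => ?_)
      continuousOn_const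
    exact cr_slit (mul_ne_zero (h0 t ht) hu) (hr t ht)
  have h2 := log_unique (S := Icc (0 : ℝ) 1) isPreconnected_Icc hL h1 (fun t ht => by
    rw [hLG t ht, Complex.exp_add, Complex.exp_log (mul_ne_zero (h0 t ht) hu),
      Complex.exp_log (inv_ne_zero hu), mul_assoc,
      mul_inv_cancel₀ hu, mul_one]) (x := 0) (y := 1) (by simp) (by simp)
  linear_combination h2

theorem crossing_aux {h v : ℝ → ℂ} (hh : ContinuousOn h (Icc 0 1)) (hv : ContinuousOn v (Icc 0 1))
    {a b c d : ℝ}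
    (hR : ∀ t ∈ Icc (0 : ℝ) 1, a ≤ (v t).re ∧ (v t).re ≤ b)
    (hI : ∀ t ∈ Icc (0 : ℝ) 1, c ≤ (h t).im ∧ (h t).im ≤ d)
    (h0 : (h 0).re = a) (h1 : (h 1).re = b) (v0 : (v 0).im = c) (v1 : (v 1).im = d) :
    ∃ s ∈ Icc (0 : ℝ) 1, ∃ t ∈ Icc (0 : ℝ) 1, h s = v t := by
  by_contra hcon
  push Not at hcon
  have i0 : (0 : ℝ) ∈ Icc (0 : ℝ) 1 := by simp
  have i1 : (1 : ℝ) ∈ Icc (0 : ℝ) 1 := by simp
  have hF : ContinuousOn (fun x : ℝ × ℝ => v x.2 - h x.1) (Icc 0 1 ×ˢ Icc 0 1) := by
    refine ContinuousOn.sub (hv.comp continuousOn_snd fun x hx => hx.2)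
      (hh.comp continuousOn_fst fun x hx => hx.1)
  obtain ⟨L, hL, hLe⟩ := exists_log_rect zero_le_one zero_le_one hF (fun x hx => by
    exact sub_ne_zero.2 (hcon x.1 hx.1 x.2 hx.2).symm)
  have hne : ∀ s ∈ Icc (0 : ℝ) 1, ∀ t ∈ Icc (0 : ℝ) 1, v t - h s ≠ 0 := fun s hs t ht =>
    sub_ne_zero.2 (hcon s hs t ht).symm
  -- the four sides
  have hb := cr_side (G := fun s => v 0 - h s) (L := fun s => L (s, 0)) (u := Complex.I)
    (continuousOn_const.sub hh)
    (hL.comp (by fun_prop) fun s hs => ⟨hs, i0⟩) (fun s hs => hLe (s, 0) ⟨hs, i0⟩)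
    Complex.I_ne_zero
    (fun s hs => by
      simp only [Complex.mul_re, Complex.sub_re, Complex.sub_im, Complex.I_re, Complex.I_im]
      linarith [(hI s hs).1])
  have hr := cr_side (G := fun t => v t - h 1) (L := fun t => L (1, t)) (u := -1)
    (hv.sub continuousOn_const)
    (hL.comp (by fun_prop) fun s hs => ⟨i1, hs⟩) (fun s hs => hLe (1, s) ⟨i1, hs⟩)
    (by norm_num)
    (fun s hs => by
      simp only [Complex.mul_re, Complex.sub_re, Complex.sub_im, Complex.neg_re, Complex.neg_im,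
        Complex.one_re, Complex.one_im]
      linarith [(hR s hs).2])
  have ht := cr_side (G := fun s => v 1 - h s) (L := fun s => L (s, 1)) (u := -Complex.I)
    (continuousOn_const.sub hh)
    (hL.comp (by fun_prop) fun s hs => ⟨hs, i1⟩) (fun s hs => hLe (s, 1) ⟨hs, i1⟩)
    (neg_ne_zero.2 Complex.I_ne_zero)
    (fun s hs => by
      simp only [Complex.mul_re, Complex.sub_re, Complex.sub_im, Complex.neg_re, Complex.neg_im,
        Complex.I_re, Complex.I_im]
      linarith [(hI s hs).2])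
  have hl := cr_side (G := fun t => v t - h 0) (L := fun t => L (0, t)) (u := 1)
    (hv.sub continuousOn_const)
    (hL.comp (by fun_prop) fun s hs => ⟨i0, hs⟩) (fun s hs => hLe (0, s) ⟨i0, hs⟩)
    (by norm_num)
    (fun s hs => by
      simp only [Complex.mul_re, Complex.sub_re, Complex.sub_im,
        Complex.one_re, Complex.one_im]
      linarith [(hR s hs).1])
  simp only [mul_one] at hb hr ht hl
  -- the corners
  have c1 := cr_logI (z := v 0 - h 0) (hne 0 i0 0 i0) (by
    simp only [Complex.sub_re]; linarith [(hR 0 i0).1])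
  have c2 := cr_lognI (z := (v 0 - h 1) * -1) (mul_ne_zero (hne 1 i1 0 i0) (by norm_num)) (by
    simp only [Complex.mul_im, Complex.sub_re, Complex.sub_im, Complex.neg_re, Complex.neg_im,
        Complex.one_re, Complex.one_im]
    linarith [(hI 1 i1).1])
  have c3 := cr_logI (z := (v 1 - h 1) * -1) (mul_ne_zero (hne 1 i1 1 i1) (by norm_num)) (by
    simp only [Complex.mul_re, Complex.sub_re, Complex.sub_im, Complex.neg_re, Complex.neg_im,
        Complex.one_re, Complex.one_im]
    linarith [(hR 1 i1).2])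
  have c4 := cr_lognI (z := v 1 - h 0) (hne 0 i0 1 i1) (by
    simp only [Complex.sub_im]
    linarith [(hI 0 i0).2])
  have e2 : (v 0 - h 1) * -1 * -Complex.I = (v 0 - h 1) * Complex.I := by ring
  have e3 : (v 1 - h 1) * -1 * Complex.I = (v 1 - h 1) * -Complex.I := by ring
  rw [e2] at c2
  rw [e3] at c3
  have key : 2 * (Real.pi : ℂ) * Complex.I = 0 := by
    linear_combination -hb - hr + ht + hl - c1 + c2 - c3 + c4
  have hpi : (Real.pi : ℂ) ≠ 0 := Complex.ofReal_ne_zero.2 Real.pi_ne_zero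
  exact mul_ne_zero (mul_ne_zero two_ne_zero hpi) Complex.I_ne_zero key

theorem crossing {S T : Set ℂ} {a b c d : ℝ} {x y u w : ℂ} (hS : JoinedIn S x y)
    (hT : JoinedIn T u w) (hSI : ∀ z ∈ S, c ≤ z.im ∧ z.im ≤ d) (hTR : ∀ z ∈ T, a ≤ z.re ∧ z.re ≤ b)
    (hx : x.re = a) (hy : y.re = b) (hu : u.im = c) (hw : w.im = d) : (S ∩ T).Nonempty := by
  have hSm : ∀ s ∈ Icc (0 : ℝ) 1, hS.somePath.extend s ∈ S := fun s hs => by
    rw [Path.extend_apply _ hs]; exact hS.somePath_mem _
  have hTm : ∀ s ∈ Icc (0 : ℝ) 1, hT.somePath.extend s ∈ T := fun s hs => by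
    rw [Path.extend_apply _ hs]; exact hT.somePath_mem _
  obtain ⟨s, hs, t, ht, e⟩ := crossing_aux (h := hS.somePath.extend) (v := hT.somePath.extend)
    (a := a) (b := b) (c := c) (d := d)
    hS.somePath.continuous_extend.continuousOn hT.somePath.continuous_extend.continuousOn
    (fun t ht => hTR _ (hTm t ht)) (fun t ht => hSI _ (hSm t ht))
    (by rw [Path.extend_zero, hx]) (by rw [Path.extend_one, hy])
    (by rw [Path.extend_zero, hu]) (by rw [Path.extend_one, hw])
  exact ⟨_, hSm s hs, e ▸ hTm t ht⟩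

end Pool.Agent.JH
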