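import Mathlib

/-!
# MP_8ebc20_an (homeomorphism groups of hyperbolic Julia sets): definitions

Everything is stated for a complex polynomial `f` and a set `J` as in the frozen statement S05367.
-/

set_option autoImplicit false

namespace Pool.Agent.JH

open Polynomial Set Metric Filter Topology

/-- The polynomial map. -/
def ev (f : ℂ[X]) : ℂ → ℂ := fun w => f.eval w

/-- The filled Julia set (the set of points with bounded orbit). -/
def KSet (f : ℂ[X]) : Set ℂ :=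
  {z : ℂ | Bornology.IsBounded (Set.range fun n : ℕ => (ev f)^[n] z)}

/-- The closed postcritical set. -/
def PC (f : ℂ[X]) : Set ℂ :=
  closure {w : ℂ | ∃ c : ℂ, ∃ n : ℕ, 1 ≤ n ∧ f.derivative.eval c = 0 ∧ (ev f)^[n] c = w}

/-- The standing hypotheses: `f` is a monic hyperbolic polynomial whose critical points have bounded
orbits, `J` is its Julia set. -/
structure Hyp (f : ℂ[X]) (J : Set ℂ) : Prop where
  deg : 2 ≤ f.natDegree
  monic : f.Monic
  eq : J = frontier (KSet f)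
  crit : ∀ c : ℂ, f.derivative.eval c = 0 → c ∈ KSet f
  disj : Disjoint (PC f) J

/-- The condition on `g : J ≃ₜ J` in S05367: it extends to a plane homeomorphism isotopic to the
identity. -/
def Ext (J : Set ℂ) (g : J ≃ₜ J) : Prop :=
  ∃ Φ : ℂ ≃ₜ ℂ, (∀ z : J, Φ (z : ℂ) = (g z : ℂ)) ∧
    ∃ H : unitInterval → (ℂ ≃ₜ ℂ),
      Continuous (fun p : unitInterval × ℂ => H p.1 p.2) ∧
      H 0 = Homeomorph.refl ℂ ∧ H 1 = Φ

/-- An escape radius of `f` (meaningful if `2 ≤ f.natDegree`). -/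
noncomputable def RR (f : ℂ[X]) : ℝ :=
  Classical.epsilon fun R : ℝ => 1 ≤ R ∧ ∀ z : ℂ, R ≤ ‖z‖ → 2 * ‖z‖ ≤ ‖ev f z‖

/-- `g` is a holomorphic branch of the inverse of the `n`-th iterate of `f` on the disc of radius
`r` about `x`. -/
def IsBr (f : ℂ[X]) (n : ℕ) (x : ℂ) (r : ℝ) (g : ℂ → ℂ) : Prop :=
  DifferentiableOn ℂ g (ball x r) ∧ ∀ w ∈ ball x r, (ev f)^[n] (g w) = w

/-- `δ` is a radius of hyperbolicity: branches of all inverse iterates exist on discs of radius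
`2 δ` about the points of `J` (with prescribed value at one point) and contract uniformly. -/
structure HypRad (f : ℂ[X]) (J : Set ℂ) (δ C lam : ℝ) : Prop where
  δpos : 0 < δ
  Cpos : 1 ≤ C
  lpos : 0 < lam
  llt : lam < 1
  ex : ∀ x ∈ J, ∀ (n : ℕ), ∀ w ∈ ball x (2 * δ), ∀ y : ℂ, (ev f)^[n] y = w →
    ∃ g : ℂ → ℂ, IsBr f n x (2 * δ) g ∧ g w = y
  contr : ∀ x ∈ J, ∀ (n : ℕ) (g : ℂ → ℂ), IsBr f n x (2 * δ) g →
    ∀ w ∈ closedBall x δ, ∀ w' ∈ closedBall x δ, ‖g w - g w'‖ ≤ C * lam ^ n * ‖w - w'‖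

/-- `E` is the Bottcher map in the logarithmic coordinate, on the half plane `{σ < Re w}`. -/
structure BotS (f : ℂ[X]) (σ : ℝ) (E : ℂ → ℂ) : Prop where
  dE : DifferentiableOn ℂ E {w | σ < w.re}
  per : ∀ w : ℂ, σ < w.re → E (w + 2 * Real.pi * Complex.I) = E w
  fe : ∀ w : ℂ, σ < w.re → ev f (E w) = E (f.natDegree * w)
  inj : ∀ w w' : ℂ, σ < w.re → σ < w'.re → E w = E w' →
    ∃ k : ℤ, w' = w + 2 * Real.pi * Complex.I * k
  mem : ∀ w : ℂ, σ < w.re → E w ∈ (KSet f)ᶜ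
  dne : ∀ w : ℂ, σ < w.re → deriv E w ≠ 0
  asym : ∀ ε : ℝ, 0 < ε → ∃ s : ℝ, ∀ w : ℂ, s < w.re → ‖E w - Complex.exp w‖ ≤ ε * ‖Complex.exp w‖

/-- `ψ`, `ψi` : the conformal equivalence of the exterior of the closed unit disc with the
complement of the filled Julia set, conjugating `W ↦ W ^ d` to `f`. -/
structure ExtMap (f : ℂ[X]) (ψ ψi : ℂ → ℂ) : Prop where
  dψ : DifferentiableOn ℂ ψ {W : ℂ | 1 < ‖W‖}
  dψi : DifferentiableOn ℂ ψi (KSet f)ᶜ
  left : ∀ W : ℂ, 1 < ‖W‖ → ψ W ∈ (KSet f)ᶜ ∧ ψi (ψ W) = W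
  right : ∀ z ∈ (KSet f)ᶜ, 1 < ‖ψi z‖ ∧ ψ (ψi z) = z
  conj : ∀ W : ℂ, 1 < ‖W‖ → ev f (ψ W) = ψ (W ^ f.natDegree)
  asym : Tendsto (fun W : ℂ => ψ W / W) (Bornology.cobounded ℂ) (𝓝 1)

/-- External rays and equipotentials: the point of level `s > 0` and angle `t` (in turns). -/
noncomputable def EE (ψ : ℂ → ℂ) (s t : ℝ) : ℂ :=
  ψ (Complex.exp ((s : ℂ) + 2 * Real.pi * t * Complex.I))

open Classical in
/-- The extension of `EE` to the level `0` by `γ`. -/
noncomputable def EB (ψ : ℂ → ℂ) (γ : ℝ → ℂ) (s t : ℝ) : ℂ := if 0 < s then EE ψ s t else γ t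

/-- `γ` is the Caratheodory loop: the uniform limit of the equipotentials. -/
structure IsLoop (f : ℂ[X]) (J : Set ℂ) (ψ : ℂ → ℂ) (γ : ℝ → ℂ) : Prop where
  cont : Continuous γ
  per : ∀ t, γ (t + 1) = γ t
  range_eq : range γ = J
  conj : ∀ t, γ (f.natDegree * t) = ev f (γ t)
  lim : ∀ ε : ℝ, 0 < ε → ∃ s₀ : ℝ, 0 < s₀ ∧ ∀ s t : ℝ, 0 < s → s < s₀ → ‖EE ψ s t - γ t‖ < ε

/-- The group of lifts of automorphisms of the lamination of `γ` (order automorphisms of the line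
commuting with `x ↦ x + 1` and preserving the relation `γ x = γ y`). -/
structure IsAut (γ : ℝ → ℂ) (H : ℝ ≃o ℝ) : Prop where
  per : ∀ x, H (x + 1) = H x + 1
  rel : ∀ x y, γ x = γ y ↔ γ (H x) = γ (H y)

/-- Winding of the path `c` on `[a, b]` about `p`: a continuous logarithm of `c - p` on `[a, b]`
changes by `v`. -/
def Chg (c : ℝ → ℂ) (a b : ℝ) (p v : ℂ) : Prop :=
  ∃ L : ℝ → ℂ, ContinuousOn L (Icc a b) ∧ (∀ t ∈ Icc a b, Complex.exp (L t) = c t - p) ∧
    L b - L a = v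

/-- `U` is a bounded Fatou component: a connected component of the complement of `J` other than
the basin of infinity. -/
def IsFat (f : ℂ[X]) (U : Set ℂ) : Prop :=
  ∃ z ∈ interior (KSet f), U = connectedComponentIn (interior (KSet f)) z

/-- `χ` is a homeomorphism of the closed unit disc onto the closure of `U`, holomorphic in the open
disc, which is mapped onto `U`; `χi` is its inverse. -/
structure IsDisc (U : Set ℂ) (χ χi : ℂ → ℂ) : Prop where
  hol : DifferentiableOn ℂ χ (ball 0 1)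
  cont : ContinuousOn χ (closedBall 0 1)
  conti : ContinuousOn χi (closure U)
  left : ∀ w ∈ closedBall (0 : ℂ) 1, χ w ∈ closure U ∧ χi (χ w) = w
  right : ∀ z ∈ closure U, χi z ∈ closedBall (0 : ℂ) 1 ∧ χ (χi z) = z
  inner : ∀ w ∈ closedBall (0 : ℂ) 1, χ w ∈ U ↔ ‖w‖ < 1

end Pool.Agent.JH
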