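import Pool.Agent.Lib.MP_8ebc20_an.DescA1

/-!
# DESCA: automorphisms of the lamination give literal homeomorphisms (A2)
-/

set_option autoImplicit false

namespace Pool.Agent.JH

open Polynomial Set Metric Filter Topology

variable {f : ℂ[X]} {J : Set ℂ} {γ : ℝ → ℂ} {ψ ψi : ℂ → ℂ} {δ C lam : ℝ}

private theorem descA_glue (f : ℂ[X]) (G : Set ℂ → ℂ → ℂ) (G₀ : ℂ → ℂ) :
    ∃ Φ : ℂ → ℂ, (∀ z ∈ closure (KSet f)ᶜ, Φ z = G₀ z) ∧
      ∀ U, IsFat f U → ∀ z ∈ U, Φ z = G U z := by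
  classical
  refine ⟨fun z => if hz : z ∈ interior (KSet f) then G (exists_fat hz).choose z else G₀ z,
    fun z hz => ?_, fun U hU z hz => ?_⟩
  · rw [closure_compl] at hz
    exact dif_neg hz
  · have hzi : z ∈ interior (KSet f) := hU.sub_int hz
    have h1 := (exists_fat hzi).choose_spec
    have h2 : (exists_fat hzi).choose = U := h1.1.eq_of_meet hU ⟨z, h1.2, hz⟩
    show (if hz : z ∈ interior (KSet f) then G (exists_fat hz).choose z else G₀ z) = G U z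
    rw [dif_pos hzi, h2]

theorem desc_exists (h : Hyp f J) (hr : HypRad f J δ C lam) (hE : ExtMap f ψ ψi)
    (hl : IsLoop f J ψ γ) {H : ℝ ≃o ℝ} (hH : IsAut γ H) :
    ∃ g : J ≃ₜ J, Ext J g ∧ ∀ (x : ℝ) (hx : γ x ∈ J), γ (H x) = g ⟨γ x, hx⟩ := by
  obtain ⟨g, hg⟩ := hl.exists_g hH
  obtain ⟨m, mi, G, Gi, hf⟩ := exists_fill h hr hl g
  obtain ⟨G₀, Gi₀, hc0, hci0, hK, hKi, hJ, hJi, R0, hR0⟩ := hl.exists_outer hE h hH g hg
  obtain ⟨Φ, hΦ0, hΦU⟩ := descA_glue f G G₀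
  obtain ⟨Φi, hΦi0, hΦiU⟩ := descA_glue f (fun V => Gi (mi V)) Gi₀
  have hfin : ∀ ε : ℝ, 0 < ε → {U | IsFat f U ∧ ε ≤ Metric.diam U}.Finite :=
    fun ε hε => finite_big h hr hl hε
  have hcΦ : Continuous Φ := glue_cont h hf hfin hc0 hJ hΦ0 hΦU
  have hcΦi : Continuous Φi := glue_cont h hf.inv hfin hci0 hJi hΦi0 hΦiU
  have hsubK : (KSet f)ᶜ ⊆ closure (KSet f)ᶜ := subset_closure
  have hsubJ : J ⊆ closure (KSet f)ᶜ := by
    rw [h.closure_compl_K]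
    exact subset_union_right
  have hcases : ∀ z : ℂ, z ∈ (KSet f)ᶜ ∨ z ∈ J ∨ ∃ U, IsFat f U ∧ z ∈ U := by
    intro z
    by_cases hz : z ∈ interior (KSet f)
    · exact Or.inr (Or.inr (exists_fat hz))
    · have h1 : z ∈ closure (KSet f)ᶜ := by
        rw [closure_compl]
        exact hz
      rw [h.closure_compl_K] at h1
      rcases h1 with h1 | h1
      · exact Or.inl h1
      · exact Or.inr (Or.inl h1)
  have hleft : ∀ z, Φi (Φ z) = z := by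
    intro z
    rcases hcases z with hz | hz | ⟨U, hU, hz⟩
    · rw [hΦ0 z (hsubK hz), hΦi0 _ (hsubK (hK z hz).1), (hK z hz).2]
    · have h1 : G₀ z = g ⟨z, hz⟩ := hJ ⟨z, hz⟩
      rw [hΦ0 z (hsubJ hz), h1, hΦi0 _ (hsubJ (g ⟨z, hz⟩).2), hJi (g ⟨z, hz⟩),
        Homeomorph.symm_apply_apply]
    · obtain ⟨h1, -, h2, -⟩ := hf.fat U hU
      rw [hΦU U hU z hz, hΦiU (m U) h1 _ ((hf.inn U hU).1 z hz)]
      show Gi (mi (m U)) (G U z) = z
      rw [h2]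
      exact (hf.map U hU z (subset_closure hz)).2
  have hright : ∀ z, Φ (Φi z) = z := by
    intro z
    rcases hcases z with hz | hz | ⟨V, hV, hz⟩
    · rw [hΦi0 z (hsubK hz), hΦ0 _ (hsubK (hKi z hz).1), (hKi z hz).2]
    · have h1 : Gi₀ z = g.symm ⟨z, hz⟩ := hJi ⟨z, hz⟩
      rw [hΦi0 z (hsubJ hz), h1, hΦ0 _ (hsubJ (g.symm ⟨z, hz⟩).2), hJ (g.symm ⟨z, hz⟩),
        Homeomorph.apply_symm_apply]
    · obtain ⟨-, h1, -, h2⟩ := hf.fat V hV
      rw [hΦiU V hV z hz]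
      show Φ (Gi (mi V) z) = z
      have h3 : z ∈ m (mi V) := by rw [h2]; exact hz
      rw [hΦU (mi V) h1 _ ((hf.inn (mi V) h1).2 z h3)]
      exact (hf.mapi (mi V) h1 z (subset_closure h3)).2
  let Ψ : ℂ ≃ₜ ℂ :=
    { toFun := Φ
      invFun := Φi
      left_inv := hleft
      right_inv := hright
      continuous_toFun := hcΦ
      continuous_invFun := hcΦi }
  obtain ⟨R1, hR1⟩ := (isCompact_K h.deg).isBounded.subset_closedBall (0 : ℂ)
  refine ⟨g, ⟨Ψ, fun z => ?_, alexander (Φ := Ψ) (R := max R0 (R1 + 1)) fun z hz => ?_⟩, hg⟩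
  · show Φ z = g z
    rw [hΦ0 _ (hsubJ z.2), hJ z]
  · show Φ z = z
    have h1 : z ∈ (KSet f)ᶜ := by
      intro hzK
      have h2 := mem_closedBall_zero_iff.1 (hR1 hzK)
      have h3 := (le_max_right R0 (R1 + 1)).trans hz
      linarith
    rw [hΦ0 _ (hsubK h1)]
    exact hR0 z ((le_max_left _ _).trans hz)

end Pool.Agent.JH
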