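import Pool.Agent.Lib.MP_8ebc20_an.Disc1
import Pool.Agent.Lib.MP_8ebc20_an.Car1

/-!
# DISC: the closure of a bounded Fatou component is a closed disc

PROOF of `exists_disc`: put everything together: the extension of the Riemann map (`exists_riem`, `exists_extension`) is a
continuous injection of the compact closed disc onto `closure U`, so a homeomorphism; `χi` is its
inverse (`IsCompact`... continuity of the inverse: `Continuous.continuous_symm_of_equiv_compact_to_t2`
or `IsClosedMap`).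
-/

set_option autoImplicit false

namespace Pool.Agent.JH

open Polynomial Set Metric Filter Topology

variable {f : ℂ[X]} {J : Set ℂ} {γ : ℝ → ℂ} {ψ ψi : ℂ → ℂ} {δ C lam : ℝ} {U : Set ℂ} {χ χi : ℂ → ℂ}

/-- every point of the circle is `exp (2 π I t)` with `0 ≤ t < 1` -/
private theorem disc_angle {w : ℂ} (hw : ‖w‖ = 1) :
    ∃ t : ℝ, 0 ≤ t ∧ t < 1 ∧ Complex.exp (2 * Real.pi * t * Complex.I) = w := by
  have hpi : (2 * Real.pi : ℝ) ≠ 0 := by positivity
  refine ⟨Int.fract (w.arg / (2 * Real.pi)), Int.fract_nonneg _, Int.fract_lt_one _, ?_⟩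
  have h1 : (2 * Real.pi * (Int.fract (w.arg / (2 * Real.pi)) : ℝ) * Complex.I : ℂ) =
      (w.arg : ℂ) * Complex.I + ((-⌊w.arg / (2 * Real.pi)⌋ : ℤ) : ℂ) * (2 * Real.pi * Complex.I) := by
    have h2 : (2 * Real.pi * Int.fract (w.arg / (2 * Real.pi)) : ℝ) =
        w.arg + ((-⌊w.arg / (2 * Real.pi)⌋ : ℤ) : ℝ) * (2 * Real.pi) := by
      have h3 : Int.fract (w.arg / (2 * Real.pi)) = w.arg / (2 * Real.pi) -
        ⌊w.arg / (2 * Real.pi)⌋ := rfl
      rw [h3]
      push_cast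
      field_simp
      ring
    have h4 := congrArg (fun x : ℝ => (x : ℂ) * Complex.I) h2
    push_cast at h4 ⊢
    linear_combination h4
  rw [h1, Complex.exp_add, Complex.exp_int_mul_two_pi_mul_I, mul_one]
  have h5 := Complex.norm_mul_exp_arg_mul_I w
  rwa [hw, Complex.ofReal_one, one_mul] at h5

theorem IsFat.exists_disc (h : Hyp f J) (hr : HypRad f J δ C lam) (hl : IsLoop f J ψ γ)
    (hU : IsFat f U) : ∃ χ χi : ℂ → ℂ, IsDisc U χ χi := by
  obtain ⟨z₀, hz₀⟩ := hU.isConnected.nonempty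
  obtain ⟨φ, φi, hd, hdi, h1, h2, -⟩ := hU.exists_riem h hr hz₀
  obtain ⟨χ, hc, heq, hb, himg⟩ := hU.exists_extension h hl hd hdi h1 h2
  have hdχ : DifferentiableOn ℂ χ (ball 0 1) := hd.congr heq
  have hiχ : InjOn χ (ball 0 1) := by
    intro w hw w' hw' he
    rw [heq hw, heq hw'] at he
    rw [← (h1 w hw).2, ← (h1 w' hw').2, he]
  have himgb : χ '' ball 0 1 = U := by
    ext z
    constructor
    · rintro ⟨w, hw, rfl⟩
      rw [heq hw]
      exact (h1 w hw).1
    · intro hz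
      refine ⟨φi z, (h2 z hz).1, ?_⟩
      rw [heq (h2 z hz).1]
      exact (h2 z hz).2
  have hin : ∀ w ∈ closedBall (0 : ℂ) 1, χ w ∈ U ↔ ‖w‖ < 1 := by
    intro w hw
    constructor
    · intro hwU
      rw [mem_closedBall_zero_iff] at hw
      refine lt_of_le_of_ne hw fun h3 => ?_
      exact Set.disjoint_left.1 (hU.disj_J h) hwU (hb w h3)
    · intro hw1
      rw [← himgb]
      exact mem_image_of_mem χ (mem_ball_zero_iff.2 hw1)
  have hinj : InjOn χ (closedBall 0 1) := by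
    intro w hw w' hw' he
    by_cases hw1 : ‖w‖ < 1
    · have hw1' : ‖w'‖ < 1 := (hin w' hw').1 (he ▸ (hin w hw).2 hw1)
      exact hiχ (mem_ball_zero_iff.2 hw1) (mem_ball_zero_iff.2 hw1') he
    · have hw1' : ¬ ‖w'‖ < 1 := fun h3 => hw1 ((hin w hw).1 (he ▸ (hin w' hw').2 h3))
      rw [mem_closedBall_zero_iff] at hw hw'
      have e1 : ‖w‖ = 1 := le_antisymm hw (not_lt.1 hw1)
      have e2 : ‖w'‖ = 1 := le_antisymm hw' (not_lt.1 hw1')
      obtain ⟨s, hs0, hs1, hs⟩ := disc_angle e1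
      obtain ⟨t, ht0, ht1, ht⟩ := disc_angle e2
      rcases lt_trichotomy s t with hst | hst | hst
      · exact (hU.inj_circle h hdχ hiχ hc himgb hb hst (by linarith) (by rw [hs, ht, he])).elim
      · rw [← hs, ← ht, hst]
      · exact (hU.inj_circle h hdχ hiχ hc himgb hb hst (by linarith) (by rw [hs, ht, he])).elim
  have hex : ∀ z ∈ closure U, ∃ w ∈ closedBall (0 : ℂ) 1, χ w = z := by
    intro z hz
    rw [← himg] at hz
    exact hz
  have hL : ∀ w ∈ closedBall (0 : ℂ) 1,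
      Function.invFunOn χ (closedBall 0 1) (χ w) = w := fun w hw => hinj.leftInvOn_invFunOn hw
  have hcl : ∀ w ∈ closedBall (0 : ℂ) 1, χ w ∈ closure U := fun w hw =>
    himg ▸ mem_image_of_mem χ hw
  refine ⟨χ, Function.invFunOn χ (closedBall 0 1), hdχ, hc, ?_, fun w hw => ⟨hcl w hw, hL w hw⟩,
    fun z hz => ⟨Function.invFunOn_mem (hex z hz), Function.invFunOn_eq (hex z hz)⟩, hin⟩
  rw [continuousOn_iff_isClosed]
  intro t ht
  have hcomp : IsCompact (χ '' (closedBall 0 1 ∩ t)) :=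
    ((isCompact_closedBall 0 1).inter_right ht).image_of_continuousOn (hc.mono inter_subset_left)
  refine ⟨χ '' (closedBall 0 1 ∩ t), hcomp.isClosed, ?_⟩
  ext z
  constructor
  · rintro ⟨hz1, hz2⟩
    exact ⟨⟨_, ⟨Function.invFunOn_mem (hex z hz2), hz1⟩, Function.invFunOn_eq (hex z hz2)⟩, hz2⟩
  · rintro ⟨⟨w, ⟨hw1, hw2⟩, rfl⟩, hz2⟩
    refine ⟨?_, hz2⟩
    rw [mem_preimage, hL w hw1]
    exact hw2

end Pool.Agent.JH
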