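import Pool.Agent.Lib.MP_8ebc20_an.Fin0
import Pool.Agent.Lib.MP_8ebc20_an.Disc

/-!
# FIN: finitely many bounded Fatou components of diameter at least `ε`

PROOF of `finite_big`.  Choose `r > 0`, `r ≤ δ / 4`, `r ≤ infDist c J` for all critical points `c`
(finitely many, not in `J`: `no_crit`).  `B₀ = {U | ∃ z ∈ U, r ≤ infDist z J}` is finite (`finite_far`).
With `N` of `expand`, `f^[N] '' U ∈ B₀` for `U ∈ B₀`.  `B = ⋃ j < N, f^[j] (B₀)` is finite and
`f`-invariant, and every component is mapped into `B` by some iterate (`expand` iterated: the distance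
to `J` doubles until it is `≥ δ`).  `B' = {V ∉ B | f V ∈ B}` is finite (`finite_pre`).  For every
`V ∈ B'` choose a disc map (`exists_disc`) and `η_V` (uniform continuity), `M` = maximum of the constants
of `lift_diam`.  Let `U ∉ B` be a component, `n` minimal with `f^[n+1] U ∈ B`; `V = f^[n] U ∈ B'`, and
none of `U, ..., f^[n] U` is in `B ⊇ B₀`, so they contain no critical point and lie in
`{infDist · J < r}`.  So `diam U ≤ M lam ^ n`.  Hence `diam U ≥ ε` bounds `n`, and for each `n` and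
`V` there are finitely many `U` (`finite_pre`).
-/

set_option autoImplicit false

namespace Pool.Agent.JH

open Polynomial Set Metric Filter Topology

variable {f : ℂ[X]} {J : Set ℂ} {γ : ℝ → ℂ} {ψ ψi : ℂ → ℂ} {δ C lam : ℝ} {U V : Set ℂ}

private theorem fin_radius (h : Hyp f J) (hδ : 0 < δ) : ∃ r : ℝ, 0 < r ∧ r ≤ δ / 4 ∧
    ∀ c : ℂ, f.derivative.eval c = 0 → r ≤ infDist c J := by
  have hne : f.derivative ≠ 0 := by
    intro h0
    have h1 := derivative_eq_zero.1 h0
    have h2 := h.deg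
    omega
  have hfin : {c : ℂ | f.derivative.eval c = 0}.Finite := by
    refine (f.derivative.roots.toFinset.finite_toSet).subset ?_
    intro c hc
    simp only [Finset.mem_coe, Multiset.mem_toFinset, mem_roots hne]
    exact hc
  rcases ({c : ℂ | f.derivative.eval c = 0}).eq_empty_or_nonempty with he | hn
  · refine ⟨δ / 4, by positivity, le_rfl, fun c hc => ?_⟩
    have : c ∈ ({c : ℂ | f.derivative.eval c = 0}) := hc
    rw [he] at this
    exact this.elim
  · obtain ⟨c₀, hc₀, hmin⟩ := Set.exists_min_image _ (fun c => infDist c J) hfin hn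
    have hpos : 0 < infDist c₀ J :=
      (h.isCompact_J.isClosed.notMem_iff_infDist_pos h.J_nonempty).1
        fun hcJ => h.no_crit hcJ hc₀
    refine ⟨min (δ / 4) (infDist c₀ J), lt_min (by positivity) hpos, min_le_left _ _, ?_⟩
    intro c hc
    exact (min_le_right _ _).trans (hmin c hc)

private theorem fin_expand_iter {r : ℝ} (hr : r ≤ δ) {N : ℕ}
    (hN : ∀ z : ℂ, min δ (2 * infDist z J) ≤ infDist ((ev f)^[N] z) J) (z : ℂ)
    (hz : 0 < infDist z J) : ∃ k : ℕ, r ≤ infDist ((ev f)^[k] z) J := by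
  have hstep : ∀ k : ℕ, min δ (2 ^ k * infDist z J) ≤ infDist ((ev f)^[N * k] z) J := by
    intro k
    induction k with
    | zero => simp
    | succ k ih =>
      have he : (ev f)^[N * (k + 1)] z = (ev f)^[N] ((ev f)^[N * k] z) := by
        rw [← Function.iterate_add_apply]
        congr 2
        ring
      rw [he]
      refine le_trans ?_ (hN ((ev f)^[N * k] z))
      refine le_min (min_le_left _ _) ?_
      rcases le_total δ (2 ^ k * infDist z J) with h1 | h1
      · rw [min_eq_left h1] at ih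
        have h0 : 0 ≤ infDist ((ev f)^[N * k] z) J := infDist_nonneg
        refine (min_le_left _ _).trans ?_
        linarith
      · rw [min_eq_right h1] at ih
        refine (min_le_right _ _).trans ?_
        rw [pow_succ]
        linarith
  obtain ⟨k, hk⟩ := pow_unbounded_of_one_lt (δ / infDist z J) (one_lt_two (α := ℝ))
  refine ⟨N * k, le_trans ?_ (hstep k)⟩
  refine le_min hr (hr.trans ?_)
  rw [div_lt_iff₀ hz] at hk
  exact hk.le

private theorem fin_const (h : Hyp f J) (hr : HypRad f J δ C lam) (hl : IsLoop f J ψ γ)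
    (hVf : IsFat f V) (hV : ∀ z ∈ V, infDist z J < δ / 4) :
    ∃ M : ℝ, ∀ (n : ℕ) (U : Set ℂ), IsFat f U → (ev f)^[n] '' U = V →
      (∀ j < n, ∀ z ∈ (ev f)^[j] '' U, f.derivative.eval z ≠ 0) →
      ∀ z ∈ U, ∀ z' ∈ U, ‖z - z'‖ ≤ M * lam ^ n := by
  obtain ⟨χ, χi, hχ⟩ := hVf.exists_disc h hr hl
  have huc := (isCompact_closedBall (0 : ℂ) 1).uniformContinuousOn_of_continuous hχ.cont
  rw [Metric.uniformContinuousOn_iff] at huc
  obtain ⟨η, hη, hη2⟩ := huc (δ / 4) (by have := hr.δpos; positivity)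
  refine lift_diam h hr hχ hη ?_ hV
  intro w hw w' hw' hlt
  have := hη2 w hw w' hw' (by rwa [dist_eq_norm])
  rwa [dist_eq_norm] at this

theorem finite_big (h : Hyp f J) (hr : HypRad f J δ C lam) (hl : IsLoop f J ψ γ) {ε : ℝ}
    (hε : 0 < ε) : {U | IsFat f U ∧ ε ≤ Metric.diam U}.Finite := by
  obtain ⟨r, hr0, hrδ, hrc⟩ := fin_radius h hr.δpos
  obtain ⟨N, hN1, hN⟩ := hr.expand h
  have hrδ' : r ≤ δ := hrδ.trans (by have := hr.δpos; linarith)
  -- the far components
  set B₀ : Set (Set ℂ) := {U | IsFat f U ∧ ∃ z ∈ U, r ≤ infDist z J} with hB₀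
  have hB₀fin : B₀.Finite := finite_far h hr0
  have hB₀N : ∀ U ∈ B₀, (ev f)^[N] '' U ∈ B₀ := by
    rintro U ⟨hU, z, hz, hzr⟩
    refine ⟨hU.image_it h N, (ev f)^[N] z, mem_image_of_mem _ hz, le_trans ?_ (hN z)⟩
    exact le_min hrδ' (by linarith)
  set B : Set (Set ℂ) := ⋃ j ∈ Iio N, (fun U => (ev f)^[j] '' U) '' B₀ with hB
  have hBfin : B.Finite := (finite_Iio N).biUnion fun j _ => hB₀fin.image _
  have hB₀B : B₀ ⊆ B := by
    intro U hU
    refine mem_biUnion (show (0 : ℕ) ∈ Iio N from hN1) ⟨U, hU, ?_⟩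
    simp
  -- every component is eventually mapped into B
  have hev : ∀ U, IsFat f U → ∃ k : ℕ, (ev f)^[k] '' U ∈ B := by
    intro U hU
    obtain ⟨z, hz⟩ := hU.isConnected.nonempty
    have hzJ : z ∉ J := fun hzJ => (hU.disj_J h).le_bot ⟨hz, hzJ⟩
    have hpos : 0 < infDist z J :=
      (h.isCompact_J.isClosed.notMem_iff_infDist_pos h.J_nonempty).1 hzJ
    obtain ⟨k, hk⟩ := fin_expand_iter hrδ' hN z hpos
    exact ⟨k, hB₀B ⟨hU.image_it h k, _, mem_image_of_mem _ hz, hk⟩⟩
  -- the components just outside B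
  set B' : Set (Set ℂ) := {V | IsFat f V ∧ V ∉ B ∧ ev f '' V ∈ B} with hB'
  have hB'fin : B'.Finite := by
    refine (hBfin.biUnion fun W _ => finite_pre h 1 W).subset ?_
    rintro V ⟨hV, _, hVB⟩
    exact mem_biUnion hVB ⟨hV, by simp⟩
  have hnear : ∀ V, IsFat f V → V ∉ B → ∀ z ∈ V, infDist z J < r := by
    intro V hV hVB z hz
    by_contra hcon
    exact hVB (hB₀B ⟨hV, z, hz, not_lt.1 hcon⟩)
  -- constants
  have hM : ∀ V : Set ℂ, ∃ M : ℝ, V ∈ B' → ∀ (n : ℕ) (U : Set ℂ), IsFat f U →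
      (ev f)^[n] '' U = V → (∀ j < n, ∀ z ∈ (ev f)^[j] '' U, f.derivative.eval z ≠ 0) →
      ∀ z ∈ U, ∀ z' ∈ U, ‖z - z'‖ ≤ M * lam ^ n := by
    intro V
    by_cases hV : V ∈ B'
    · obtain ⟨M, hM⟩ := fin_const h hr hl hV.1
        (fun z hz => (hnear V hV.1 hV.2.1 z hz).trans_le hrδ)
      exact ⟨M, fun _ => hM⟩
    · exact ⟨0, fun hV' => (hV hV').elim⟩
  choose M hM using hM
  obtain ⟨M₀, hM₀⟩ := (hB'fin.image M).bddAbove
  have hM₀' : ∀ V ∈ B', M V ≤ max M₀ 0 := fun V hV =>
    (hM₀ (mem_image_of_mem _ hV)).trans (le_max_left _ _)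
  set M₁ := max M₀ 0 with hM₁
  have hM₁0 : 0 ≤ M₁ := le_max_right _ _
  obtain ⟨n₀, hn₀⟩ := exists_pow_lt_of_lt_one (show 0 < ε / (M₁ + 1) by positivity) hr.llt
  have hlam0 := hr.lpos
  have hbig : ∀ n, n₀ ≤ n → M₁ * lam ^ n < ε := by
    intro n hn
    have h1 : lam ^ n ≤ lam ^ n₀ := pow_le_pow_of_le_one hlam0.le hr.llt.le hn
    have h2 : lam ^ n < ε / (M₁ + 1) := h1.trans_lt hn₀
    rw [lt_div_iff₀ (by positivity)] at h2
    have h3 : 0 < lam ^ n := pow_pos hlam0 n
    nlinarith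
  have hsub : {U | IsFat f U ∧ ε ≤ Metric.diam U} ⊆
      B ∪ ⋃ n ∈ Iio n₀, ⋃ V ∈ B', {U | IsFat f U ∧ (ev f)^[n] '' U = V} := by
    rintro U ⟨hU, hUε⟩
    by_cases hUB : U ∈ B
    · exact Or.inl hUB
    · right
      classical
      have hex := hev U hU
      have hfind := Nat.find_spec hex
      have hmin := fun m (hm : m < Nat.find hex) => Nat.find_min hex hm
      have hne0 : Nat.find hex ≠ 0 := by
        intro h0
        rw [h0] at hfind
        simp at hfind
        exact hUB hfind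
      obtain ⟨n, hn⟩ := Nat.exists_eq_succ_of_ne_zero hne0
      rw [hn] at hfind hmin
      have hV : (ev f)^[n] '' U ∈ B' := by
        refine ⟨hU.image_it h n, hmin n (Nat.lt_succ_self n), ?_⟩
        rw [← image_comp, ← Function.iterate_succ']
        exact hfind
      have hd : ∀ z ∈ U, ∀ z' ∈ U, ‖z - z'‖ ≤ M₁ * lam ^ n := by
        intro z hz z' hz'
        refine (hM _ hV n U hU rfl ?_ z hz z' hz').trans ?_
        · intro j hj w hw hw0
          have h1 := hnear _ (hU.image_it h j) (hmin j (hj.trans (Nat.lt_succ_self n))) w hw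
          exact absurd (hrc w hw0) (not_le.2 h1)
        · exact mul_le_mul_of_nonneg_right (hM₀' _ hV) (pow_nonneg hlam0.le n)
      have hnn₀ : n < n₀ := by
        by_contra hcon
        have h1 := hbig n (not_lt.1 hcon)
        have h2 : Metric.diam U ≤ M₁ * lam ^ n := by
          refine Metric.diam_le_of_forall_dist_le (by positivity) ?_
          intro z hz z' hz'
          rw [dist_eq_norm]
          exact hd z hz z' hz'
        linarith
      exact mem_biUnion (show n ∈ Iio n₀ from hnn₀) (mem_biUnion hV ⟨hU, rfl⟩)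
  refine Set.Finite.subset (hBfin.union ?_) hsub
  exact (finite_Iio n₀).biUnion fun n _ => hB'fin.biUnion fun V _ => finite_pre h n V

end Pool.Agent.JH
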