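import Pool.Agent.Lib.MP_8ebc20_an.Defs

/-!
# RAD: extension of homeomorphisms from the boundary to closed discs; the Alexander trick

PROOFS. `radial`: for `u : ℂ → ℂ` continuous on the unit circle with values of norm `1`, let
`R u w = ‖w‖ * u (w / ‖w‖)` (`0` at `0`): continuous, `‖R u w‖ = ‖w‖`, equal to `u` on the circle, and
`R v (R u w) = w` if `v (u z) = z` on the circle.
`disc_ext`: `U`, `V` with disc maps `(χ, χi)`, `(η, ηi)`, and mutually inverse continuous maps `g, gi`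
between the frontiers: take `G = η ∘ R (ηi ∘ g ∘ χ) ∘ χi`.
`alexander`: `H₀ u z = u Φ (z / u)` for `0 < u ≤ 1`, `H₀ 0 z = z`.  Each is a homeomorphism.
`‖H₀ u z - z‖ = u ‖Φ (z / u) - z / u‖ ≤ u B` with `B = sup ‖Φ w - w‖ < ∞` (`Φ w = w` for `‖w‖ ≥ R`), which
gives joint continuity at `u = 0`.
-/

set_option autoImplicit false

namespace Pool.Agent.JH

open Polynomial Set Metric Filter Topology

/-- the radial extension -/
private noncomputable def Rd (u : ℂ → ℂ) (w : ℂ) : ℂ := (‖w‖ : ℂ) * u (w / (‖w‖ : ℂ))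

private theorem norm_div_norm {w : ℂ} (hw : w ≠ 0) : ‖w / (‖w‖ : ℂ)‖ = 1 := by
  rw [norm_div, Complex.norm_real, norm_norm]
  exact div_self (norm_ne_zero_iff.2 hw)

private theorem Rd_norm {u : ℂ → ℂ} (hu : ∀ z : ℂ, ‖z‖ = 1 → ‖u z‖ = 1) (w : ℂ) :
    ‖Rd u w‖ = ‖w‖ := by
  by_cases hw : w = 0
  · subst hw; simp [Rd]
  · rw [Rd, norm_mul, hu _ (norm_div_norm hw), Complex.norm_real, norm_norm, mul_one]

private theorem Rd_cont {u : ℂ → ℂ} (hc : ContinuousOn u (sphere 0 1))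
    (hu : ∀ z : ℂ, ‖z‖ = 1 → ‖u z‖ = 1) : Continuous (Rd u) := by
  rw [continuous_iff_continuousAt]
  intro w
  by_cases hw : w = 0
  · subst hw
    have h0 : Rd u 0 = 0 := by simp [Rd]
    rw [ContinuousAt, h0]
    rw [tendsto_zero_iff_norm_tendsto_zero]
    have h1 : (fun w => ‖Rd u w‖) = fun w => ‖w‖ := funext (Rd_norm hu)
    rw [h1]
    have h2 : Tendsto (fun w : ℂ => ‖w‖) (𝓝 0) (𝓝 ‖(0 : ℂ)‖) := continuous_norm.tendsto 0
    simpa using h2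
  · have h1 : ContinuousAt (fun w : ℂ => w / (‖w‖ : ℂ)) w := by
      apply ContinuousAt.div continuousAt_id
      · exact (Complex.continuous_ofReal.comp continuous_norm).continuousAt
      · exact Complex.ofReal_ne_zero.2 (norm_ne_zero_iff.2 hw)
    have h2 : ∀ᶠ w' : ℂ in 𝓝 w, w' / (‖w'‖ : ℂ) ∈ sphere (0 : ℂ) 1 := by
      filter_upwards [isOpen_ne.mem_nhds hw] with w' hw'
      rw [mem_sphere_zero_iff_norm]
      exact norm_div_norm hw'
    have h3 : w / (‖w‖ : ℂ) ∈ sphere (0 : ℂ) 1 := h2.self_of_nhds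
    have h4 : ContinuousAt (fun w : ℂ => u (w / (‖w‖ : ℂ))) w := by
      have h5 : Tendsto u (𝓝[sphere 0 1] (w / (‖w‖ : ℂ))) (𝓝 (u (w / (‖w‖ : ℂ)))) := hc _ h3
      exact h5.comp (tendsto_nhdsWithin_iff.2 ⟨h1, h2⟩)
    exact ((Complex.continuous_ofReal.comp continuous_norm).continuousAt).mul h4

private theorem Rd_inv {u v : ℂ → ℂ} (huv : ∀ z : ℂ, ‖z‖ = 1 → ‖u z‖ = 1 ∧ v (u z) = z) (w : ℂ) :
    Rd v (Rd u w) = w := by
  by_cases hw : w = 0
  · subst hw; simp [Rd]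
  · have hn : (‖w‖ : ℂ) ≠ 0 := Complex.ofReal_ne_zero.2 (norm_ne_zero_iff.2 hw)
    have h1 : ‖Rd u w‖ = ‖w‖ := Rd_norm (fun z hz => (huv z hz).1) w
    unfold Rd at h1 ⊢
    rw [h1, mul_div_cancel_left₀ _ hn, (huv _ (norm_div_norm hw)).2, mul_div_cancel₀ _ hn]

private theorem Rd_circle (u : ℂ → ℂ) {z : ℂ} (hz : ‖z‖ = 1) : Rd u z = u z := by
  simp [Rd, hz]

theorem radial {u v : ℂ → ℂ} (hu : ContinuousOn u (sphere 0 1)) (hv : ContinuousOn v (sphere 0 1))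
    (huv : ∀ z : ℂ, ‖z‖ = 1 → ‖u z‖ = 1 ∧ v (u z) = z)
    (hvu : ∀ z : ℂ, ‖z‖ = 1 → ‖v z‖ = 1 ∧ u (v z) = z) :
    ∃ G Gi : ℂ → ℂ, Continuous G ∧ Continuous Gi ∧ (∀ w, ‖G w‖ = ‖w‖ ∧ Gi (G w) = w) ∧
      (∀ w, ‖Gi w‖ = ‖w‖ ∧ G (Gi w) = w) ∧ ∀ z : ℂ, ‖z‖ = 1 → G z = u z ∧ Gi z = v z :=
  ⟨Rd u, Rd v, Rd_cont hu fun z hz => (huv z hz).1, Rd_cont hv fun z hz => (hvu z hz).1,
    fun w => ⟨Rd_norm (fun z hz => (huv z hz).1) w, Rd_inv huv w⟩,
    fun w => ⟨Rd_norm (fun z hz => (hvu z hz).1) w, Rd_inv hvu w⟩,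
    fun _ hz => ⟨Rd_circle u hz, Rd_circle v hz⟩⟩

private theorem disc_sphere {U : Set ℂ} {χ χi : ℂ → ℂ} (hU : IsOpen U) (h1 : IsDisc U χ χi)
    {w : ℂ} (hw : ‖w‖ = 1) : χ w ∈ frontier U := by
  have hw' : w ∈ closedBall (0 : ℂ) 1 := by rw [mem_closedBall_zero_iff]; exact hw.le
  rw [hU.frontier_eq]
  refine ⟨(h1.left w hw').1, fun h => ?_⟩
  have h2 := (h1.inner w hw').1 h
  rw [hw] at h2
  exact lt_irrefl _ h2

private theorem disc_frontier {U : Set ℂ} {χ χi : ℂ → ℂ} (hU : IsOpen U) (h1 : IsDisc U χ χi)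
    {z : ℂ} (hz : z ∈ frontier U) : ‖χi z‖ = 1 := by
  have hz' : z ∈ closure U := frontier_subset_closure hz
  have h2 := h1.right z hz'
  have h3 : ‖χi z‖ ≤ 1 := by rw [← mem_closedBall_zero_iff]; exact h2.1
  rcases h3.lt_or_eq with h4 | h4
  · exfalso
    have h5 := (h1.inner _ h2.1).2 h4
    rw [h2.2] at h5
    rw [hU.frontier_eq] at hz
    exact hz.2 h5
  · exact h4

private theorem disc_inside {U : Set ℂ} {χ χi : ℂ → ℂ} (h1 : IsDisc U χ χi)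
    {z : ℂ} (hz : z ∈ U) : ‖χi z‖ < 1 := by
  have h2 := h1.right z (subset_closure hz)
  rw [← h1.inner _ h2.1, h2.2]
  exact hz

/-- half of the proof of `disc_ext` -/
private theorem disc_half {U V : Set ℂ} {χ χi η ηi : ℂ → ℂ} (hU : IsOpen U) (hV : IsOpen V)
    (h1 : IsDisc U χ χi) (h2 : IsDisc V η ηi) {g gi : ℂ → ℂ} (hg : ContinuousOn g (frontier U))
    (hm : ∀ z ∈ frontier U, g z ∈ frontier V ∧ gi (g z) = z) :
    ContinuousOn (fun z => ηi (g (χ z))) (sphere (0 : ℂ) 1) ∧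
      ∀ z : ℂ, ‖z‖ = 1 → ‖ηi (g (χ z))‖ = 1 ∧ χi (gi (η (ηi (g (χ z))))) = z := by
  constructor
  · have hm1 : MapsTo χ (sphere (0 : ℂ) 1) (frontier U) := fun z hz =>
      disc_sphere hU h1 (mem_sphere_zero_iff_norm.1 hz)
    have hm2 : MapsTo g (frontier U) (closure V) := fun z hz =>
      frontier_subset_closure (hm z hz).1
    exact h2.conti.comp (hg.comp (h1.cont.mono sphere_subset_closedBall) hm1) (hm2.comp hm1)
  · intro z hz
    have hz' : z ∈ closedBall (0 : ℂ) 1 := by rw [mem_closedBall_zero_iff]; exact hz.le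
    have h3 := disc_sphere hU h1 hz
    have h4 := hm _ h3
    refine ⟨disc_frontier hV h2 h4.1, ?_⟩
    rw [(h2.right _ (frontier_subset_closure h4.1)).2, h4.2, (h1.left z hz').2]

/-- half of the proof of `disc_ext` -/
private theorem disc_half' {U V : Set ℂ} {χ χi η ηi : ℂ → ℂ} (hU : IsOpen U)
    (h1 : IsDisc U χ χi) (h2 : IsDisc V η ηi) {G0 G0i g : ℂ → ℂ} (hc : Continuous G0)
    (hn : ∀ w, ‖G0 w‖ = ‖w‖ ∧ G0i (G0 w) = w) (hb : ∀ z : ℂ, ‖z‖ = 1 → G0 z = ηi (g (χ z)))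
    (hm : ∀ z ∈ frontier U, g z ∈ frontier V) :
    ContinuousOn (fun z => η (G0 (χi z))) (closure U) ∧
      (∀ z ∈ closure U, η (G0 (χi z)) ∈ closure V ∧ χ (G0i (ηi (η (G0 (χi z))))) = z) ∧
      (∀ z ∈ frontier U, η (G0 (χi z)) = g z) ∧ ∀ z ∈ U, η (G0 (χi z)) ∈ V := by
  have hball : ∀ z ∈ closure U, G0 (χi z) ∈ closedBall (0 : ℂ) 1 := by
    intro z hz
    rw [mem_closedBall_zero_iff, (hn _).1, ← mem_closedBall_zero_iff]
    exact (h1.right z hz).1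
  refine ⟨?_, ?_, ?_, ?_⟩
  · exact h2.cont.comp (hc.comp_continuousOn h1.conti) hball
  · intro z hz
    have h3 := h2.left _ (hball z hz)
    refine ⟨h3.1, ?_⟩
    rw [h3.2, (hn _).2, (h1.right z hz).2]
  · intro z hz
    have h3 := disc_frontier hU h1 hz
    rw [hb _ h3, (h1.right z (frontier_subset_closure hz)).2,
      (h2.right _ (frontier_subset_closure (hm z hz))).2]
  · intro z hz
    rw [h2.inner _ (hball z (subset_closure hz)), (hn _).1]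
    exact disc_inside h1 hz

theorem disc_ext {U V : Set ℂ} {χ χi η ηi : ℂ → ℂ} (hU : IsOpen U) (hV : IsOpen V)
    (h1 : IsDisc U χ χi) (h2 : IsDisc V η ηi) {g gi : ℂ → ℂ} (hg : ContinuousOn g (frontier U))
    (hgi : ContinuousOn gi (frontier V)) (hm : ∀ z ∈ frontier U, g z ∈ frontier V ∧ gi (g z) = z)
    (hmi : ∀ z ∈ frontier V, gi z ∈ frontier U ∧ g (gi z) = z) :
    ∃ G Gi : ℂ → ℂ, ContinuousOn G (closure U) ∧ ContinuousOn Gi (closure V) ∧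
      (∀ z ∈ closure U, G z ∈ closure V ∧ Gi (G z) = z) ∧
      (∀ z ∈ closure V, Gi z ∈ closure U ∧ G (Gi z) = z) ∧
      (∀ z ∈ frontier U, G z = g z) ∧ (∀ z ∈ frontier V, Gi z = gi z) ∧
      (∀ z ∈ U, G z ∈ V) ∧ ∀ z ∈ V, Gi z ∈ U := by
  obtain ⟨hu, huv⟩ := disc_half hU hV h1 h2 hg hm
  obtain ⟨hv, hvu⟩ := disc_half hV hU h2 h1 hgi hmi
  obtain ⟨G0, G0i, hG, hGi, hn, hni, hb⟩ := radial hu hv huv hvu
  obtain ⟨a1, a2, a3, a4⟩ := disc_half' (V := V) hU h1 h2 hG hn (fun z hz => (hb z hz).1)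
    (fun z hz => (hm z hz).1)
  obtain ⟨b1, b2, b3, b4⟩ := disc_half' (V := U) hV h2 h1 hGi hni (fun z hz => (hb z hz).2)
    (fun z hz => (hmi z hz).1)
  exact ⟨fun z => η (G0 (χi z)), fun z => χ (G0i (ηi z)), a1, b1, a2, b2, a3, b3, a4, b4⟩

private theorem unit_ne {u : unitInterval} (hu : u ≠ 0) : ((u : ℝ) : ℂ) ≠ 0 := by
  rw [Complex.ofReal_ne_zero]
  exact fun h => hu (Subtype.ext h)

open Classical in
/-- the isotopy of the Alexander trick -/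
private noncomputable def alex (Φ : ℂ ≃ₜ ℂ) (u : unitInterval) : ℂ ≃ₜ ℂ :=
  if hu : u = 0 then Homeomorph.refl ℂ else
    (Homeomorph.mulLeft₀ ((u : ℝ) : ℂ) (unit_ne hu)).symm.trans
      (Φ.trans (Homeomorph.mulLeft₀ ((u : ℝ) : ℂ) (unit_ne hu)))

private theorem alex_zero (Φ : ℂ ≃ₜ ℂ) : alex Φ 0 = Homeomorph.refl ℂ := by
  simp [alex]

private theorem alex_apply (Φ : ℂ ≃ₜ ℂ) {u : unitInterval} (hu : u ≠ 0) (z : ℂ) :
    alex Φ u z = ((u : ℝ) : ℂ) * Φ (((u : ℝ) : ℂ)⁻¹ * z) := by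
  rw [alex, dif_neg hu]
  rfl

theorem alexander {Φ : ℂ ≃ₜ ℂ} {R : ℝ} (hΦ : ∀ z : ℂ, R ≤ ‖z‖ → Φ z = z) :
    ∃ H : unitInterval → (ℂ ≃ₜ ℂ), Continuous (fun p : unitInterval × ℂ => H p.1 p.2) ∧
      H 0 = Homeomorph.refl ℂ ∧ H 1 = Φ := by
  obtain ⟨B, hB0, hB⟩ : ∃ B : ℝ, 0 ≤ B ∧ ∀ w : ℂ, ‖Φ w - w‖ ≤ B := by
    obtain ⟨B, hB⟩ := (isCompact_closedBall (0 : ℂ) R).exists_bound_of_continuousOn
      (f := fun w => Φ w - w) (Φ.continuous.sub continuous_id).continuousOn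
    refine ⟨max B 0, le_max_right _ _, fun w => ?_⟩
    rcases le_total R ‖w‖ with h | h
    · rw [hΦ w h, sub_self, norm_zero]
      exact le_max_right _ _
    · exact (hB w (mem_closedBall_zero_iff.2 h)).trans (le_max_left _ _)
  refine ⟨alex Φ, ?_, alex_zero Φ, ?_⟩
  · rw [continuous_iff_continuousAt]
    rintro ⟨u, z⟩
    by_cases hu : u = 0
    · subst hu
      have h0 : alex Φ ((0 : unitInterval), z).1 ((0 : unitInterval), z).2 = z := by
        simp [alex_zero]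
      rw [ContinuousAt, h0, tendsto_iff_norm_sub_tendsto_zero]
      have hbd : ∀ p : unitInterval × ℂ, ‖alex Φ p.1 p.2 - z‖ ≤ (p.1 : ℝ) * B + ‖p.2 - z‖ := by
        rintro ⟨t, w⟩
        have h1 : ‖alex Φ t w - w‖ ≤ (t : ℝ) * B := by
          by_cases ht : t = 0
          · subst ht
            simp [alex_zero]
          · rw [alex_apply Φ ht]
            have h2 : ((t : ℝ) : ℂ) * Φ (((t : ℝ) : ℂ)⁻¹ * w) - w =
                ((t : ℝ) : ℂ) * (Φ (((t : ℝ) : ℂ)⁻¹ * w) - ((t : ℝ) : ℂ)⁻¹ * w) := by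
              rw [mul_sub, mul_inv_cancel_left₀ (unit_ne ht)]
            rw [h2, norm_mul, Complex.norm_real, Real.norm_of_nonneg t.2.1]
            exact mul_le_mul_of_nonneg_left (hB _) t.2.1
        calc ‖alex Φ t w - z‖ = ‖(alex Φ t w - w) + (w - z)‖ := by rw [sub_add_sub_cancel]
          _ ≤ ‖alex Φ t w - w‖ + ‖w - z‖ := norm_add_le _ _
          _ ≤ (t : ℝ) * B + ‖w - z‖ := by gcongr
      refine squeeze_zero (fun p => norm_nonneg _) hbd ?_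
      have hc : Continuous fun p : unitInterval × ℂ => (p.1 : ℝ) * B + ‖p.2 - z‖ := by
        fun_prop
      have h3 := hc.tendsto ((0 : unitInterval), z)
      simpa using h3
    · have hev : (fun p : unitInterval × ℂ => alex Φ p.1 p.2) =ᶠ[𝓝 (u, z)]
          fun p => ((p.1 : ℝ) : ℂ) * Φ (((p.1 : ℝ) : ℂ)⁻¹ * p.2) := by
        have h1' : ∀ᶠ t : unitInterval in 𝓝 u, t ≠ 0 := isOpen_ne.mem_nhds hu
        have h1 : ∀ᶠ p : unitInterval × ℂ in 𝓝 (u, z), p.1 ≠ 0 :=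
          (continuousAt_fst (p := (u, z))).eventually h1'
        filter_upwards [h1] with p hp
        exact alex_apply Φ hp p.2
      refine ContinuousAt.congr ?_ hev.symm
      have h2 : ContinuousAt (fun p : unitInterval × ℂ => ((p.1 : ℝ) : ℂ)) (u, z) := by
        fun_prop
      exact h2.mul (Φ.continuous.continuousAt.comp ((h2.inv₀ (unit_ne hu)).mul continuousAt_snd))
  · ext z
    rw [alex_apply Φ one_ne_zero]
    simp

end Pool.Agent.JH
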