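import Pool.Agent.Lib.MP_8ebc20_an.OutE
import Pool.Agent.Lib.MP_8ebc20_an.Rad
import Pool.Agent.Lib.MP_8ebc20_an.Circ
import Pool.Agent.Lib.MP_8ebc20_an.Fin

/-!
# DESCA0: extensions of a homeomorphism of `J` to the bounded Fatou components

PROOF of `exists_fill`.  For every component `U` there is a component `U'` with
`frontier U' = g (frontier U)` (`exists_img`), unique by `unique` (`frontier U'` is determined: `frontier U' ⊆ J`); put
`m U = U'` (and `m U = U` if `U` is not a component).  `m` is injective on components (`unique`, `g` is injective), and onto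
(apply `exists_img` to `g.symm`).  Choose disc maps for `U` and `m U` (`exists_disc`) and let `G U`, `Gi U` be given by
`disc_ext` for the maps `g`, `g.symm` (extended to `ℂ` arbitrarily) between the frontiers.  `Ui` with `m Ui = V` is `mi V`.
-/

set_option autoImplicit false

namespace Pool.Agent.JH

open Polynomial Set Metric Filter Topology

variable {f : ℂ[X]} {J : Set ℂ} {γ : ℝ → ℂ} {ψ ψi : ℂ → ℂ} {δ C lam : ℝ}

/-- extensions of `g` to the bounded Fatou components, permuted by `m` -/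
structure IsFill (f : ℂ[X]) (J : Set ℂ) (g : J ≃ₜ J) (m mi : Set ℂ → Set ℂ)
    (G Gi : Set ℂ → ℂ → ℂ) : Prop where
  fat : ∀ U, IsFat f U → IsFat f (m U) ∧ IsFat f (mi U) ∧ mi (m U) = U ∧ m (mi U) = U
  cont : ∀ U, IsFat f U → ContinuousOn (G U) (closure U) ∧ ContinuousOn (Gi U) (closure (m U))
  map : ∀ U, IsFat f U → ∀ z ∈ closure U, G U z ∈ closure (m U) ∧ Gi U (G U z) = z
  mapi : ∀ U, IsFat f U → ∀ z ∈ closure (m U), Gi U z ∈ closure U ∧ G U (Gi U z) = z
  inn : ∀ U, IsFat f U → (∀ z ∈ U, G U z ∈ m U) ∧ ∀ z ∈ m U, Gi U z ∈ U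
  bd : ∀ U, IsFat f U → ∀ z : J, ((z : ℂ) ∈ frontier U → G U z = g z) ∧
    ((z : ℂ) ∈ frontier (m U) → Gi U z = g.symm z)

open Classical in
/-- a map of `J` as a map of the plane -/
private noncomputable def ext0 (J : Set ℂ) (g : J → J) (z : ℂ) : ℂ :=
  if hz : z ∈ J then (g ⟨z, hz⟩ : ℂ) else z

private theorem ext0_coe (g : J → J) (z : J) : ext0 J g z = g z := by
  unfold ext0
  rw [dif_pos z.2]

private theorem ext0_cont {g : J → J} (hg : Continuous g) : ContinuousOn (ext0 J g) J := by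
  rw [continuousOn_iff_continuous_domRestrict]
  have : J.domRestrict (ext0 J g) = fun z => (g z : ℂ) := by
    funext z
    exact ext0_coe g z
  rw [this]
  exact continuous_subtype_val.comp hg

private theorem fill_one (h : Hyp f J) (hr : HypRad f J δ C lam) (hl : IsLoop f J ψ γ)
    (g : J ≃ₜ J) {U V : Set ℂ} (hU : IsFat f U) (hV : IsFat f V)
    (hg : ∀ z : J, (z : ℂ) ∈ frontier U ↔ (g z : ℂ) ∈ frontier V) :
    ∃ G Gi : ℂ → ℂ, (ContinuousOn G (closure U) ∧ ContinuousOn Gi (closure V)) ∧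
      (∀ z ∈ closure U, G z ∈ closure V ∧ Gi (G z) = z) ∧
      (∀ z ∈ closure V, Gi z ∈ closure U ∧ G (Gi z) = z) ∧
      ((∀ z ∈ U, G z ∈ V) ∧ ∀ z ∈ V, Gi z ∈ U) ∧
      ∀ z : J, ((z : ℂ) ∈ frontier U → G z = g z) ∧
        ((z : ℂ) ∈ frontier V → Gi z = g.symm z) := by
  obtain ⟨χ, χi, hχ⟩ := hU.exists_disc h hr hl
  obtain ⟨η, ηi, hη⟩ := hV.exists_disc h hr hl
  have hUJ := hU.frontier_sub h
  have hVJ := hV.frontier_sub h
  obtain ⟨G, Gi, h1, h2, h3, h4, h5, h6, h7, h8⟩ := disc_ext (g := ext0 J g)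
    (gi := ext0 J g.symm) hU.isOpen hV.isOpen hχ hη
    ((ext0_cont g.continuous).mono hUJ) ((ext0_cont g.symm.continuous).mono hVJ)
    (by
      intro z hz
      have e1 := ext0_coe (g : J → J) ⟨z, hUJ hz⟩
      have e2 := ext0_coe (g.symm : J → J) (g ⟨z, hUJ hz⟩)
      simp only at e1
      rw [e1, e2, Homeomorph.symm_apply_apply]
      exact ⟨(hg ⟨z, hUJ hz⟩).1 hz, rfl⟩)
    (by
      intro z hz
      have e1 := ext0_coe (g.symm : J → J) ⟨z, hVJ hz⟩
      have e2 := ext0_coe (g : J → J) (g.symm ⟨z, hVJ hz⟩)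
      simp only at e1
      rw [e1, e2, Homeomorph.apply_symm_apply]
      refine ⟨(hg _).2 ?_, rfl⟩
      rw [Homeomorph.apply_symm_apply]
      exact hz)
  refine ⟨G, Gi, ⟨h1, h2⟩, h3, h4, ⟨h7, h8⟩, fun z => ⟨fun hz => ?_, fun hz => ?_⟩⟩
  · rw [h5 z hz, ext0_coe]
  · rw [h6 z hz, ext0_coe]

theorem exists_fill (h : Hyp f J) (hr : HypRad f J δ C lam) (hl : IsLoop f J ψ γ) (g : J ≃ₜ J) :
    ∃ (m mi : Set ℂ → Set ℂ) (G Gi : Set ℂ → ℂ → ℂ), IsFill f J g m mi G Gi := by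
  classical
  have key : ∀ g : J ≃ₜ J, ∃ m : Set ℂ → Set ℂ, ∀ U, IsFat f U → IsFat f (m U) ∧
      ∀ z : J, (z : ℂ) ∈ frontier U ↔ (g z : ℂ) ∈ frontier (m U) := by
    intro g
    have hk : ∀ U : Set ℂ, ∃ V : Set ℂ, IsFat f U → IsFat f V ∧
        ∀ z : J, (z : ℂ) ∈ frontier U ↔ (g z : ℂ) ∈ frontier V := by
      intro U
      by_cases hU : IsFat f U
      · obtain ⟨V, hV, hV'⟩ := hU.exists_img h hr hl g
        exact ⟨V, fun _ => ⟨hV, hV'⟩⟩
      · exact ⟨U, fun h' => absurd h' hU⟩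
    choose m hm using hk
    exact ⟨m, hm⟩
  obtain ⟨m, hm⟩ := key g
  obtain ⟨mi, hmi⟩ := key g.symm
  have heq : ∀ U V : Set ℂ, IsFat f U → IsFat f V →
      (∀ z : J, (z : ℂ) ∈ frontier U ↔ (z : ℂ) ∈ frontier V) → U = V := by
    intro U V hU hV hz
    refine IsFat.unique h hr hl hU hV (Set.Subset.antisymm ?_ ?_)
    · exact fun z hzU => (hz ⟨z, hU.frontier_sub h hzU⟩).1 hzU
    · exact fun z hzV => (hz ⟨z, hV.frontier_sub h hzV⟩).2 hzV
  have hfat : ∀ U, IsFat f U → IsFat f (m U) ∧ IsFat f (mi U) ∧ mi (m U) = U ∧ m (mi U) = U := by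
    intro U hU
    have h1 := hm U hU
    have h2 := hmi U hU
    refine ⟨h1.1, h2.1, ?_, ?_⟩
    · have h3 := hmi (m U) h1.1
      refine heq _ _ h3.1 hU fun z => ?_
      have := h3.2 (g z)
      rw [Homeomorph.symm_apply_apply] at this
      exact this.symm.trans (h1.2 z).symm
    · have h3 := hm (mi U) h2.1
      refine heq _ _ h3.1 hU fun z => ?_
      have := h3.2 (g.symm z)
      rw [Homeomorph.apply_symm_apply] at this
      exact this.symm.trans (h2.2 z).symm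
  have hfill : ∀ U : Set ℂ, ∃ G Gi : ℂ → ℂ, IsFat f U →
      ((ContinuousOn G (closure U) ∧ ContinuousOn Gi (closure (m U))) ∧
      (∀ z ∈ closure U, G z ∈ closure (m U) ∧ Gi (G z) = z) ∧
      (∀ z ∈ closure (m U), Gi z ∈ closure U ∧ G (Gi z) = z) ∧
      ((∀ z ∈ U, G z ∈ m U) ∧ ∀ z ∈ m U, Gi z ∈ U) ∧
      ∀ z : J, ((z : ℂ) ∈ frontier U → G z = g z) ∧
        ((z : ℂ) ∈ frontier (m U) → Gi z = g.symm z)) := by
    intro U
    by_cases hU : IsFat f U
    · obtain ⟨G, Gi, hG⟩ := fill_one h hr hl g hU (hm U hU).1 (hm U hU).2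
      exact ⟨G, Gi, fun _ => hG⟩
    · exact ⟨id, id, fun h' => absurd h' hU⟩
  choose G Gi hG using hfill
  exact ⟨m, mi, G, Gi, hfat, fun U hU => (hG U hU).1, fun U hU => (hG U hU).2.1,
    fun U hU => (hG U hU).2.2.1, fun U hU => (hG U hU).2.2.2.1, fun U hU => (hG U hU).2.2.2.2⟩

end Pool.Agent.JH
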