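import Pool.Agent.Lib.MP_8ebc20_an.DescA0

/-!
# DESCA1: continuity of the glued map

`Φ` is glued from the outer map `G₀` and the maps `G U`.

PROOF of `glue_cont`.  Continuity of `Φ` at `z`: clear if `z ∈ Kᶜ` or `z ∈ interior K` (open sets; on `U` the map is
`G U`).  Let `z ∈ J`, `ε > 0`.  `g` is uniformly continuous (`J` compact): `η > 0` with `‖g y - g z‖ < ε / 2` for
`y ∈ J`, `‖y - z‖ < 2 η`.  The set `F` of the components `U` with `diam U ≥ η` or `diam (m U) ≥ ε / 2` is finite
(`hfin`, `m` injective on components by `IsFill.fat`).  For `z'` near `z`: if `z' ∈ closure Kᶜ` use the continuity of `G₀` and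
`G₀ z = g z`; if `z' ∈ U`, `U ∈ F`: finitely many
`U`; if `z ∈ closure U` (then `z ∈ frontier U`, as `z ∉ U`) use the continuity of `G U` on `closure U` and `G U z = g z`, otherwise
`z'` is not near `z`; if `z' ∈ U`, `U ∉ F`, `‖z' - z‖ < η`: choose `y ∈ frontier U` (`frontier_nonempty`), then
`‖y - z'‖ ≤ diam (closure U) < η`, so `‖y - z‖ < 2 η`, and `‖Φ z' - g y‖ ≤ diam (closure (m U)) < ε / 2` (`Φ z'` and
`g y = G U y` are in `closure (m U)`), so `‖Φ z' - g z‖ < ε`.
(`closure Kᶜ = Kᶜ ∪ J` : `closure_compl_K`; `Φ = G₀` there by hypothesis.)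
The statement is symmetric: it is applied to the map and to its inverse (`IsFill.inv`: exchange `m, mi`, `G, Gi`, `g, g.symm`).
-/

set_option autoImplicit false

namespace Pool.Agent.JH

open Polynomial Set Metric Filter Topology

variable {f : ℂ[X]} {J : Set ℂ}

theorem IsFill.inv {g : J ≃ₜ J} {m mi : Set ℂ → Set ℂ} {G Gi : Set ℂ → ℂ → ℂ}
    (hf : IsFill f J g m mi G Gi) :
    IsFill f J g.symm mi m (fun V => Gi (mi V)) (fun V => G (mi V)) where
  fat := fun U hU => ⟨(hf.fat U hU).2.1, (hf.fat U hU).1, (hf.fat U hU).2.2.2, (hf.fat U hU).2.2.1⟩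
  cont := fun U hU => by
    have h1 := hf.cont (mi U) (hf.fat U hU).2.1
    rw [(hf.fat U hU).2.2.2] at h1
    exact ⟨h1.2, h1.1⟩
  map := fun U hU z hz => by
    have h1 := hf.mapi (mi U) (hf.fat U hU).2.1
    rw [(hf.fat U hU).2.2.2] at h1
    exact h1 z hz
  mapi := fun U hU z hz => by
    have h1 := hf.map (mi U) (hf.fat U hU).2.1
    rw [(hf.fat U hU).2.2.2] at h1
    exact h1 z hz
  inn := fun U hU => by
    have h1 := hf.inn (mi U) (hf.fat U hU).2.1
    rw [(hf.fat U hU).2.2.2] at h1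
    exact ⟨h1.2, h1.1⟩
  bd := fun U hU z => by
    have h1 := hf.bd (mi U) (hf.fat U hU).2.1 z
    rw [(hf.fat U hU).2.2.2] at h1
    exact ⟨h1.2, h1.1⟩

theorem glue_cont (h : Hyp f J) {g : J ≃ₜ J} {m mi : Set ℂ → Set ℂ} {G Gi : Set ℂ → ℂ → ℂ}
    (hf : IsFill f J g m mi G Gi)
    (hfin : ∀ ε : ℝ, 0 < ε → {U | IsFat f U ∧ ε ≤ Metric.diam U}.Finite) {G₀ : ℂ → ℂ}
    (h0 : ContinuousOn G₀ (closure (KSet f)ᶜ)) (h0J : ∀ z : J, G₀ z = g z) {Φ : ℂ → ℂ}
    (hΦ0 : ∀ z ∈ closure (KSet f)ᶜ, Φ z = G₀ z) (hΦU : ∀ U, IsFat f U → ∀ z ∈ U, Φ z = G U z) :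
    Continuous Φ := by
  rw [continuous_iff_continuousAt]
  intro z
  have hcl : closure (KSet f)ᶜ = (interior (KSet f))ᶜ := closure_compl
  by_cases hzi : z ∈ interior (KSet f)
  · -- inside
    obtain ⟨U, hU, hzU⟩ := exists_fat hzi
    have hUn : U ∈ 𝓝 z := hU.isOpen.mem_nhds hzU
    have h1 : ContinuousAt (G U) z :=
      (hf.cont U hU).1.continuousAt (mem_of_superset hUn subset_closure)
    refine h1.congr ?_
    filter_upwards [hUn] with y hy
    exact (hΦU U hU y hy).symm
  · have hzc : z ∈ closure (KSet f)ᶜ := by rw [hcl]; exact hzi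
    by_cases hzJ : z ∈ J
    · -- on `J`
      have hΦz : Φ z = g ⟨z, hzJ⟩ := by rw [hΦ0 z hzc]; exact h0J ⟨z, hzJ⟩
      rw [ContinuousAt, hΦz, Metric.tendsto_nhds]
      intro ε hε
      obtain ⟨η₁, hη₁, hg⟩ := Metric.continuousAt_iff.1 (g.continuous.continuousAt (x := ⟨z, hzJ⟩))
        (ε / 2) (half_pos hε)
      set η : ℝ := η₁ / 2 with hη
      have hη0 : 0 < η := half_pos hη₁
      -- points outside the interior
      have E0 : ∀ᶠ z' in 𝓝 z, z' ∈ closure (KSet f)ᶜ → dist (Φ z') (g ⟨z, hzJ⟩ : ℂ) < ε := by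
        have h1 : Tendsto G₀ (𝓝[closure (KSet f)ᶜ] z) (𝓝 (G₀ z)) := h0 z hzc
        have h2 : G₀ z = g ⟨z, hzJ⟩ := h0J ⟨z, hzJ⟩
        rw [h2, Metric.tendsto_nhds] at h1
        have h3 := eventually_nhdsWithin_iff.1 (h1 ε hε)
        filter_upwards [h3] with z' hz' hzm
        rw [hΦ0 z' hzm]
        exact hz' hzm
      -- the big components
      set F : Set (Set ℂ) := {U | IsFat f U ∧ (η ≤ Metric.diam U ∨ ε / 2 ≤ Metric.diam (m U))}
        with hF
      have hFfin : F.Finite := by
        refine ((hfin η hη0).union ((hfin (ε / 2) (half_pos hε)).image mi)).subset ?_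
        rintro U ⟨hU, h1 | h1⟩
        · exact Or.inl ⟨hU, h1⟩
        · exact Or.inr ⟨m U, ⟨(hf.fat U hU).1, h1⟩, (hf.fat U hU).2.2.1⟩
      have E1 : ∀ᶠ z' in 𝓝 z, ∀ U ∈ F, z' ∈ U → dist (Φ z') (g ⟨z, hzJ⟩ : ℂ) < ε := by
        rw [eventually_all_finite hFfin]
        rintro U ⟨hU, -⟩
        by_cases hzU : z ∈ closure U
        · have hzn : z ∉ U := fun hz => (hU.disj_J h).le_bot ⟨hz, hzJ⟩
          have hzf : z ∈ frontier U := by
            rw [hU.isOpen.frontier_eq]
            exact ⟨hzU, hzn⟩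
          have h1 : Tendsto (G U) (𝓝[closure U] z) (𝓝 (G U z)) := (hf.cont U hU).1 z hzU
          rw [(hf.bd U hU ⟨z, hzJ⟩).1 hzf, Metric.tendsto_nhds] at h1
          have h3 := eventually_nhdsWithin_iff.1 (h1 ε hε)
          filter_upwards [h3] with z' hz' hzm
          rw [hΦU U hU z' hzm]
          exact hz' (subset_closure hzm)
        · have h1 : (closure U)ᶜ ∈ 𝓝 z := isClosed_closure.isOpen_compl.mem_nhds hzU
          filter_upwards [h1] with z' hz' hzm
          exact absurd (subset_closure hzm) hz'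
      have E2 : ∀ᶠ z' in 𝓝 z, dist z' z < η := Metric.ball_mem_nhds z hη0
      filter_upwards [E0, E1, E2] with z' e0 e1 e2
      by_cases hz' : z' ∈ closure (KSet f)ᶜ
      · exact e0 hz'
      · rw [hcl, mem_compl_iff, not_not] at hz'
        obtain ⟨U, hU, hzU⟩ := exists_fat hz'
        by_cases hUF : U ∈ F
        · exact e1 U hUF hzU
        · have h1 : Metric.diam U < η ∧ Metric.diam (m U) < ε / 2 := by
            constructor
            · by_contra hc
              exact hUF ⟨hU, Or.inl (not_lt.1 hc)⟩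
            · by_contra hc
              exact hUF ⟨hU, Or.inr (not_lt.1 hc)⟩
          obtain ⟨y, hy⟩ := hU.frontier_nonempty h.deg
          have hyJ : y ∈ J := hU.frontier_sub h hy
          have hyc : y ∈ closure U := frontier_subset_closure hy
          have hUb := hU.isBounded h.deg
          have h2 : dist y z' < η := by
            refine lt_of_le_of_lt (Metric.dist_le_diam_of_mem hUb.closure hyc
              (subset_closure hzU)) ?_
            rw [Metric.diam_closure]
            exact h1.1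
          have h3 : dist y z < η₁ := by
            have := dist_triangle y z' z
            linarith
          have h4 : dist (g ⟨y, hyJ⟩ : ℂ) (g ⟨z, hzJ⟩ : ℂ) < ε / 2 := hg h3
          have hmb := (hf.fat U hU).1.isBounded h.deg
          have h5 : Φ z' ∈ closure (m U) := by
            rw [hΦU U hU z' hzU]
            exact (hf.map U hU z' (subset_closure hzU)).1
          have h6 : (g ⟨y, hyJ⟩ : ℂ) ∈ closure (m U) := by
            rw [← (hf.bd U hU ⟨y, hyJ⟩).1 hy]
            exact (hf.map U hU y hyc).1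
          have h7 : dist (Φ z') (g ⟨y, hyJ⟩ : ℂ) < ε / 2 := by
            refine lt_of_le_of_lt (Metric.dist_le_diam_of_mem hmb.closure h5 h6) ?_
            rw [Metric.diam_closure]
            exact h1.2
          have := dist_triangle (Φ z') (g ⟨y, hyJ⟩ : ℂ) (g ⟨z, hzJ⟩ : ℂ)
          linarith
    · -- outside `K`
      have hzK : (KSet f)ᶜ ∈ 𝓝 z := by
        have h1 : z ∈ (KSet f)ᶜ := by
          rw [h.closure_compl_K] at hzc
          exact hzc.resolve_right hzJ
        have h2 : IsOpen (KSet f)ᶜ := (isCompact_K h.deg).isClosed.isOpen_compl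
        exact h2.mem_nhds h1
      have h1 : ContinuousAt G₀ z := h0.continuousAt (mem_of_superset hzK subset_closure)
      refine h1.congr ?_
      filter_upwards [hzK] with y hy
      exact (hΦ0 y (subset_closure hy)).symm

end Pool.Agent.JH
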