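import Pool.Agent.Lib.MP_8ebc20_an.Wnd3

/-!
# DISC0: winding number of the boundary of a conformal disc

PROOFS. `winding_inside`: `p = χ w₀`; the function `(χ w - p) / (w - w₀)` (value `χ' w₀ ≠ 0` at `w₀`) is continuous
and without zero on the closed disc, so its change along the circle is `0` (`Chg.disc`), and
`w - w₀` has change `2 π I` (`Chg.circle`); `Chg.mul`.
`no_const_arc`: if `χ` is constant `= x` on an arc of the circle, choose `m` such that the rotations of
the arc by `2 π k / m` cover the circle; `P w = ∏ k < m, (χ (e^(2 π I k / m) w) - x)` is continuous on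
the closed disc, holomorphic inside and `0` on the circle, so `0` (maximum principle); but `P 0 = (χ 0 - x) ^ m ≠ 0` by `hx`, a contradiction.
-/

set_option autoImplicit false

namespace Pool.Agent.JH

open Polynomial Set Metric Filter Topology

variable {χ χi : ℂ → ℂ}

private theorem norm_circ (t : ℝ) : ‖Complex.exp (2 * Real.pi * t * Complex.I)‖ = 1 := by
  have h : (2 * Real.pi * t * Complex.I : ℂ) = ((2 * Real.pi * t : ℝ) : ℂ) * Complex.I := by
    push_cast
    ring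
  rw [h, Complex.norm_exp_ofReal_mul_I]

private theorem wind_aux (hi : InjOn χ (ball 0 1)) (hd : DifferentiableOn ℂ χ (ball 0 1))
    (hc : ContinuousOn χ (closedBall 0 1)) (hb : ∀ w : ℂ, ‖w‖ = 1 → χ w ∉ χ '' ball 0 1) {w₀ : ℂ}
    (hw₀ : w₀ ∈ ball (0 : ℂ) 1) (h0 : deriv χ w₀ ≠ 0) :
    Chg (fun t => χ (Complex.exp (2 * Real.pi * t * Complex.I))) 0 1 (χ w₀)
      (2 * Real.pi * Complex.I) := by
  have hdiff : DifferentiableAt ℂ χ w₀ := hd.differentiableAt (isOpen_ball.mem_nhds hw₀)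
  have hnh : closedBall (0 : ℂ) 1 ∈ 𝓝 w₀ :=
    Filter.mem_of_superset (isOpen_ball.mem_nhds hw₀) ball_subset_closedBall
  have hG : ContinuousOn (dslope χ w₀) (closedBall 0 1) :=
    (continuousOn_dslope hnh).2 ⟨hc, hdiff⟩
  have hG0 : ∀ w ∈ closedBall (0 : ℂ) 1, dslope χ w₀ w ≠ 0 := by
    intro w hw
    by_cases hww : w = w₀
    · rw [hww, dslope_same]
      exact h0
    · rw [dslope_of_ne _ hww, slope_def_field]
      refine div_ne_zero (sub_ne_zero.2 fun h => ?_) (sub_ne_zero.2 hww)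
      rw [mem_closedBall_zero_iff] at hw
      rcases hw.lt_or_eq with h1 | h1
      · exact hww (hi (mem_ball_zero_iff.2 h1) hw₀ h)
      · exact hb w h1 ⟨w₀, hw₀, h.symm⟩
  have h1 := Chg.disc hG hG0
  have h2 : Chg (fun t : ℝ => (0 : ℂ) + (1 : ℝ) * Complex.exp (2 * Real.pi * t * Complex.I)) 0 1 w₀
      (2 * Real.pi * Complex.I) := Chg.circle (by
    rw [sub_zero]
    exact mem_ball_zero_iff.1 hw₀)
  have h3 := Chg.mul h1 (Chg.shift.1 h2)
    (c₃ := fun t => χ (Complex.exp (2 * Real.pi * t * Complex.I)) - χ w₀) (by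
      intro t _
      have h4 := sub_smul_dslope χ w₀ (Complex.exp (2 * Real.pi * t * Complex.I))
      rw [smul_eq_mul] at h4
      rw [← h4]
      push_cast
      ring)
  rw [zero_add] at h3
  exact Chg.shift.2 h3

theorem winding_inside (hd : DifferentiableOn ℂ χ (ball 0 1)) (hi : InjOn χ (ball 0 1))
    (hc : ContinuousOn χ (closedBall 0 1)) (hb : ∀ w : ℂ, ‖w‖ = 1 → χ w ∉ χ '' ball 0 1) {w₀ : ℂ}
    (hw₀ : w₀ ∈ ball (0 : ℂ) 1) :
    Chg (fun t => χ (Complex.exp (2 * Real.pi * t * Complex.I))) 0 1 (χ w₀)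
      (2 * Real.pi * Complex.I) := by
  obtain ⟨w₁, hw₁, h1⟩ : ∃ w₁ ∈ ball (0 : ℂ) 1, deriv χ w₁ ≠ 0 := by
    by_contra hcon
    push Not at hcon
    have h2 : (0 : ℂ) ∈ ball (0 : ℂ) 1 := by simp
    have h3 : (1 / 2 : ℂ) ∈ ball (0 : ℂ) 1 := by
      rw [mem_ball_zero_iff]
      norm_num
    have h4 := isOpen_ball.is_const_of_deriv_eq_zero (convex_ball (0 : ℂ) 1).isPreconnected hd
      (fun w hw => hcon w hw) h2 h3
    have h5 := hi h2 h3 h4
    norm_num at h5
  have h2 := wind_aux hi hd hc hb hw₁ h1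
  have hmem : ∀ t : ℝ, Complex.exp (2 * Real.pi * t * Complex.I) ∈ closedBall (0 : ℂ) 1 := by
    intro t
    rw [mem_closedBall_zero_iff, norm_circ]
  refine Chg.move (S := χ '' ball 0 1) zero_le_one ?_ ?_ ?_ ?_ ⟨w₁, hw₁, rfl⟩ ⟨w₀, hw₀, rfl⟩ h2
  · refine hc.comp (Continuous.continuousOn (by fun_prop)) fun t _ => hmem t
  · show χ (Complex.exp (2 * Real.pi * ((0 : ℝ) : ℂ) * Complex.I)) =
      χ (Complex.exp (2 * Real.pi * ((1 : ℝ) : ℂ) * Complex.I))
    rw [Complex.ofReal_zero, Complex.ofReal_one, mul_zero, zero_mul, Complex.exp_zero, mul_one,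
      Complex.exp_two_pi_mul_I]
  · exact (convex_ball (0 : ℂ) 1).isPreconnected.image _ (hc.mono ball_subset_closedBall)
  · intro t _
    exact hb _ (norm_circ t)

theorem no_const_arc (hd : DifferentiableOn ℂ χ (ball 0 1)) (hc : ContinuousOn χ (closedBall 0 1))
    {x : ℂ} (hx : ∀ w ∈ ball (0 : ℂ) 1, χ w ≠ x) {θ₁ θ₂ : ℝ} (h12 : θ₁ < θ₂)
    (h : ∀ t ∈ Icc θ₁ θ₂, χ (Complex.exp (2 * Real.pi * t * Complex.I)) = x) : False := by
  obtain ⟨m, hm⟩ := exists_nat_one_div_lt (sub_pos.2 h12)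
  obtain ⟨M, hM⟩ : ∃ M : ℕ, M = m + 1 := ⟨_, rfl⟩
  have hM0 : (0 : ℝ) < M := by
    rw [hM]
    positivity
  have hM1 : 1 / (M : ℝ) < θ₂ - θ₁ := by
    rw [hM]
    push_cast
    exact hm
  have hMne : (M : ℂ) ≠ 0 := by
    have : (M : ℝ) ≠ 0 := hM0.ne'
    exact_mod_cast this
  obtain ⟨ρ, hρ⟩ : ∃ ρ : ℕ → ℂ, ρ = fun k : ℕ =>
    Complex.exp (2 * Real.pi * ((k : ℝ) / M : ℝ) * Complex.I) := ⟨_, rfl⟩
  have hρn : ∀ k, ‖ρ k‖ = 1 := by
    intro k
    rw [hρ]
    exact norm_circ _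
  have hmb : ∀ k, ∀ w ∈ ball (0 : ℂ) 1, ρ k * w ∈ ball (0 : ℂ) 1 := by
    intro k w hw
    rw [mem_ball_zero_iff] at hw ⊢
    rw [norm_mul, hρn, one_mul]
    exact hw
  have hmc : ∀ k, ∀ w ∈ closedBall (0 : ℂ) 1, ρ k * w ∈ closedBall (0 : ℂ) 1 := by
    intro k w hw
    rw [mem_closedBall_zero_iff] at hw ⊢
    rw [norm_mul, hρn, one_mul]
    exact hw
  obtain ⟨P, hP⟩ : ∃ P : ℂ → ℂ, P = fun w => ∏ k ∈ Finset.range M, (χ (ρ k * w) - x) := ⟨_, rfl⟩
  have hPd : DiffContOnCl ℂ P (ball 0 1) := by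
    constructor
    · rw [hP]
      refine DifferentiableOn.fun_finsetProd fun k _ => ?_
      refine DifferentiableOn.sub_const ?_ x
      exact hd.comp ((differentiable_id.const_mul (ρ k)).differentiableOn) (hmb k)
    · rw [closure_ball _ one_ne_zero, hP]
      refine continuousOn_finsetProd _ fun k _ => ?_
      refine ContinuousOn.sub ?_ continuousOn_const
      exact hc.comp (Continuous.continuousOn (by fun_prop)) (hmc k)
  have hP0 : ∀ z ∈ frontier (ball (0 : ℂ) 1), ‖P z‖ ≤ 0 := by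
    intro z hz
    rw [frontier_ball _ one_ne_zero, mem_sphere_zero_iff_norm] at hz
    obtain ⟨s, hs⟩ : ∃ s : ℝ, z = Complex.exp (2 * Real.pi * s * Complex.I) := by
      refine ⟨Complex.arg z / (2 * Real.pi), ?_⟩
      have h1 := Complex.norm_mul_exp_arg_mul_I z
      rw [hz, Complex.ofReal_one, one_mul] at h1
      rw [← h1]
      congr 1
      have hpi : (Real.pi : ℂ) ≠ 0 := by exact_mod_cast Real.pi_ne_zero
      push_cast
      rw [h1]
      field_simp
    obtain ⟨j, hj⟩ : ∃ j : ℤ, j = ⌈(M : ℝ) * (θ₁ - s)⌉ := ⟨_, rfl⟩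
    have hj1 : (M : ℝ) * (θ₁ - s) ≤ j := by
      rw [hj]
      exact Int.le_ceil _
    have hj2 : (j : ℝ) < M * (θ₁ - s) + 1 := by
      rw [hj]
      exact Int.ceil_lt_add_one _
    have hMz : (0 : ℤ) < M := by
      rw [hM]
      positivity
    obtain ⟨k, hk⟩ : ∃ k : ℕ, (k : ℤ) = j % M := by
      refine ⟨(j % M).toNat, Int.toNat_of_nonneg (Int.emod_nonneg _ hMz.ne')⟩
    have hkM : k < M := by
      have : (k : ℤ) < M := by
        rw [hk]
        exact Int.emod_lt_of_pos _ hMz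
      exact_mod_cast this
    have hjk : (j : ℝ) = M * ((j / (M : ℤ) : ℤ) : ℝ) + k := by
      have h1 := Int.mul_ediv_add_emod j M
      rw [← hk] at h1
      have h2 : ((M * (j / (M : ℤ)) + k : ℤ) : ℝ) = (j : ℝ) := by
        rw [h1]
      rw [← h2]
      push_cast
      ring
    have hmem : s + j / M ∈ Icc θ₁ θ₂ := by
      constructor
      · have h1 : θ₁ - s ≤ j / M := by
          rw [le_div_iff₀ hM0]
          linarith
        linarith
      · have h1 : (j : ℝ) / M < θ₁ - s + 1 / M := by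
          rw [div_lt_iff₀ hM0]
          have h2 : (θ₁ - s + 1 / (M : ℝ)) * M = M * (θ₁ - s) + 1 := by
            field_simp
          rw [h2]
          exact hj2
        linarith
    have hz2 : ρ k * z = Complex.exp (2 * Real.pi * ((s + j / M : ℝ) : ℂ) * Complex.I) := by
      rw [hρ, hs]
      simp only
      rw [← Complex.exp_add, Complex.exp_eq_exp_iff_exists_int]
      refine ⟨-(j / (M : ℤ)), ?_⟩
      rw [hjk]
      push_cast
      field_simp
      ring
    have hz3 : χ (ρ k * z) - x = 0 := by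
      rw [hz2, h _ hmem, sub_self]
    rw [hP]
    simp only
    rw [Finset.prod_eq_zero (Finset.mem_range.2 hkM) hz3, norm_zero]
  have h1 := Complex.norm_le_of_forall_mem_frontier_norm_le isBounded_ball hPd hP0
    (z := 0) (subset_closure (by simp))
  have h2 : P 0 = 0 := norm_le_zero_iff.1 h1
  rw [hP] at h2
  simp only [mul_zero] at h2
  rw [Finset.prod_eq_zero_iff] at h2
  obtain ⟨k, _, hk⟩ := h2
  exact hx 0 (by simp) (sub_eq_zero.1 hk)

end Pool.Agent.JH
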