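import Pool.Agent.Lib.MP_8ebc20_an.Contr

/-!
# RU: the bounded Fatou components

PROOFS. `interior K` is open, so `U` is open (`IsOpen.connectedComponentIn`), connected, contained in
`interior K = K \ J`, bounded; its frontier misses `interior K` (`frontier_comp_disj`) and is contained in
`closure (interior K) ⊆ K`, so in `J`.  `eq_of_meet`: two components which meet are equal.
`exists_fat`: the component of the point.  `frontier_nonempty`: `U` is nonempty and bounded, so not everything.
-/

set_option autoImplicit false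

namespace Pool.Agent.JH

open Polynomial Set Metric Filter Topology

variable {f : ℂ[X]} {J : Set ℂ} {δ C lam : ℝ} {U V : Set ℂ}

theorem IsFat.isOpen (hU : IsFat f U) : IsOpen U := by
  obtain ⟨z, -, rfl⟩ := hU
  exact isOpen_interior.connectedComponentIn

theorem IsFat.isConnected (hU : IsFat f U) : IsConnected U := by
  obtain ⟨z, hz, rfl⟩ := hU
  exact isConnected_connectedComponentIn_iff.2 hz

theorem IsFat.sub_int (hU : IsFat f U) : U ⊆ interior (KSet f) := by
  obtain ⟨z, -, rfl⟩ := hU
  exact connectedComponentIn_subset _ _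

theorem IsFat.isBounded (hd : 2 ≤ f.natDegree) (hU : IsFat f U) : Bornology.IsBounded U :=
  (isCompact_K hd).isBounded.subset (hU.sub_int.trans interior_subset)

theorem IsFat.frontier_sub (h : Hyp f J) (hU : IsFat f U) : frontier U ⊆ J := by
  intro w hw
  have h2 : w ∈ KSet f :=
    closure_minimal (hU.sub_int.trans interior_subset) (isCompact_K h.deg).isClosed
      (frontier_subset_closure hw)
  have h1 : w ∉ interior (KSet f) := by
    obtain ⟨z, -, rfl⟩ := hU
    exact fun h' => (frontier_comp_disj isOpen_interior z).le_bot ⟨hw, h'⟩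
  rw [h.interior_K] at h1
  by_contra h3
  exact h1 ⟨h2, h3⟩

theorem IsFat.disj_J (h : Hyp f J) (hU : IsFat f U) : Disjoint U J := by
  rw [Set.disjoint_left]
  intro w hw hJ
  have h1 := hU.sub_int hw
  rw [h.interior_K] at h1
  exact h1.2 hJ

theorem IsFat.eq_of_meet (hU : IsFat f U) (hV : IsFat f V) (hne : (U ∩ V).Nonempty) : U = V := by
  obtain ⟨z, -, rfl⟩ := hU
  obtain ⟨z', -, rfl⟩ := hV
  obtain ⟨w, hw, hw'⟩ := hne
  rw [connectedComponentIn_eq hw, connectedComponentIn_eq hw']

/-- a preconnected subset of `interior K` which meets `U` is contained in `U` -/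
theorem IsFat.sub_of_meet (hU : IsFat f U) {S : Set ℂ} (hS : IsPreconnected S)
    (hSK : S ⊆ interior (KSet f)) (hne : (S ∩ U).Nonempty) : S ⊆ U := by
  obtain ⟨z, -, rfl⟩ := hU
  obtain ⟨w, hw, hw'⟩ := hne
  rw [connectedComponentIn_eq hw']
  exact hS.subset_connectedComponentIn hw hSK

theorem exists_fat {z : ℂ} (hz : z ∈ interior (KSet f)) : ∃ U, IsFat f U ∧ z ∈ U :=
  ⟨connectedComponentIn (interior (KSet f)) z, ⟨z, hz, rfl⟩, mem_connectedComponentIn hz⟩

theorem IsFat.frontier_nonempty (hd : 2 ≤ f.natDegree) (hU : IsFat f U) : (frontier U).Nonempty := by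
  rw [nonempty_frontier_iff]
  refine ⟨hU.isConnected.nonempty, fun h1 => ?_⟩
  have h2 : (KSet f)ᶜ = ∅ := by
    rw [compl_empty_iff, ← univ_subset_iff, ← h1]
    exact hU.sub_int.trans interior_subset
  refine unbounded_compl_K hd ?_
  rw [h2]
  exact Bornology.isBounded_empty

end Pool.Agent.JH
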