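import Pool.Agent.Lib.MP_8ebc20_an.Disc0
import Pool.Agent.Lib.MP_8ebc20_an.RU

/-!
# DISC1: injectivity on the circle

PROOF of `inj_circle` (no two points of the circle have the same image unless `χ` is constant on an arc).
Let `χ` be continuous on the closed disc, injective holomorphic on the open disc onto `U`, with values in
`J` on the circle, `ζ₁ = exp (2 π I θ₁)`, `ζ₂ = exp (2 π I θ₂)`, `θ₁ < θ₂ < θ₁ + 1`, `χ ζ₁ = χ ζ₂ = x`.
`A = Kᶜ` is connected, unbounded and misses `closure U`, and every point of `J` is in `closure A`.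
Consider the closed loop `Λ : 0 → ζ₁` (radius), `ζ₂ → 0` (radius), mapped by `χ`, and the loops
`c₁ = χ` on the arc from `θ₁` to `θ₂`, `c₂ = χ` on the arc from `θ₂` to `θ₁ + 1` (closed loops in `J`).
For `w` in the open sector `D₂` (angles in `(θ₂, θ₁ + 1)`): the winding number of the image of the
closed path `0 → ζ₁ → (arc) → ζ₂ → 0` about `χ w` is `0`: it is the boundary of the image of the
closed sector `{r e^(2 π I t) : r ∈ [0,1], t ∈ [θ₁, θ₂]}` (`Chg.square` for
`F (r, t) = χ (r e^(2 π I t))`, which does not take the value `χ w`: `w` is not in that sector, and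
`χ` is injective inside, and `J` is disjoint from `U`).  For `w` in the open sector `D₁` it is
`2 π I`, because the whole circle has winding number `2 π I` about `χ w` (lemma `winding_inside`) and the
other sector has `0`.  So, with `n` = winding of `Λ` and `k` = winding of `c₁` about points of `U`
(constant on `U` by `Chg.move`), `n = 2 π I - k` on `χ (D₁)` and `n = -k` on `χ (D₂)`.  So `n ≠ 0` on
one of them, say on `χ (D₁)` (the other case is similar).  Let `ζ` be a point of the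
arc from `θ₁` to `θ₂` with `y = χ ζ ≠ x`.  `y ∈ J` is not on `Λ` (`Λ ⊆ U ∪ {x}`), so a small ball about
`y` misses `Λ`; it contains a point of `χ (D₁)` and a point of `A` (`exists_near`), so by `Chg.move`
the winding number of `Λ` about that point of `A` is not `0`; but it is `0` by `Chg.far` (`A` connected,
unbounded, misses `Λ`).  Contradiction; so `χ = x` on the arc.
-/

set_option autoImplicit false

namespace Pool.Agent.JH

open Polynomial Set Metric Filter Topology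

variable {f : ℂ[X]} {J : Set ℂ} {γ : ℝ → ℂ} {ψ ψi : ℂ → ℂ} {δ C lam : ℝ} {U : Set ℂ} {χ χi : ℂ → ℂ}

/-- the point of the circle with angle `t` (in turns) -/
private noncomputable def d1ex (t : ℝ) : ℂ := Complex.exp (2 * Real.pi * t * Complex.I)

private theorem d1ex_cont : Continuous d1ex := by
  unfold d1ex
  fun_prop

private theorem d1ex_norm (t : ℝ) : ‖d1ex t‖ = 1 := by
  have : (2 * Real.pi * t * Complex.I : ℂ) = ((2 * Real.pi * t : ℝ) : ℂ) * Complex.I := by
    push_cast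
    ring
  unfold d1ex
  rw [this, Complex.norm_exp_ofReal_mul_I]

private theorem d1ex_add (s t : ℝ) : d1ex (s + t) = d1ex s * d1ex t := by
  unfold d1ex
  rw [← Complex.exp_add]
  congr 1
  push_cast
  ring

private theorem d1ex_one : d1ex 1 = 1 := by
  unfold d1ex
  rw [Complex.exp_eq_one_iff]
  exact ⟨1, by push_cast; ring⟩

private theorem d1ex_add_one (t : ℝ) : d1ex (t + 1) = d1ex t := by
  rw [d1ex_add, d1ex_one, mul_one]

private theorem d1ex_inj {s t : ℝ} (h : d1ex s = d1ex t) : ∃ n : ℤ, s = t + n := by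
  unfold d1ex at h
  rw [Complex.exp_eq_exp_iff_exists_int] at h
  obtain ⟨n, hn⟩ := h
  refine ⟨n, ?_⟩
  have hpi : (2 * Real.pi * Complex.I : ℂ) ≠ 0 := by
    simp [Real.pi_ne_zero, Complex.I_ne_zero]
  have h1 : (2 * Real.pi * Complex.I : ℂ) * (s : ℂ) =
      (2 * Real.pi * Complex.I : ℂ) * ((t : ℂ) + n) := by
    linear_combination hn
  have h2 := mul_left_cancel₀ hpi h1
  exact_mod_cast h2

private theorem mem_cball (r : ℝ) (hr : r ∈ Icc (0 : ℝ) 1) (t : ℝ) :
    (r : ℂ) * d1ex t ∈ closedBall (0 : ℂ) 1 := by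
  rw [mem_closedBall_zero_iff, norm_mul, d1ex_norm, mul_one, Complex.norm_real, Real.norm_eq_abs,
    abs_of_nonneg hr.1]
  exact hr.2

private theorem chg_const {c p : ℂ} (hcp : c ≠ p) (a b : ℝ) : Chg (fun _ => c) a b p 0 :=
  ⟨fun _ => Complex.log (c - p), continuousOn_const, fun _ _ =>
    Complex.exp_log (sub_ne_zero.2 hcp), sub_self _⟩

/-- the loop made of two radii -/
private noncomputable def dLam (χ : ℂ → ℂ) (α β : ℝ) (s : ℝ) : ℂ :=
  if s ≤ 1 then χ ((s : ℂ) * d1ex α) else χ (((2 - s : ℝ) : ℂ) * d1ex β)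

private theorem dLam_cont (hc : ContinuousOn χ (closedBall 0 1)) {α β : ℝ}
    (heq : χ (d1ex α) = χ (d1ex β)) : ContinuousOn (dLam χ α β) (Icc 0 2) := by
  unfold dLam
  refine ContinuousOn.if ?_ ?_ ?_
  · intro a ha
    have h1 : frontier {a : ℝ | a ≤ 1} = {1} := frontier_Iic
    rw [h1] at ha
    obtain rfl : a = 1 := ha.2
    have e1 : ((2 - 1 : ℝ) : ℂ) = 1 := by norm_num
    rw [e1, Complex.ofReal_one, one_mul, one_mul, heq]
  · have h1 : ContinuousOn (fun s : ℝ => (s : ℂ) * d1ex α) (Icc 0 2 ∩ closure {a : ℝ | a ≤ 1}) := by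
      fun_prop
    refine hc.comp h1 ?_
    rintro s ⟨hs, hs'⟩
    have h2 : closure {a : ℝ | a ≤ 1} = Iic 1 := closure_Iic _
    rw [h2] at hs'
    exact mem_cball s ⟨hs.1, hs'⟩ α
  · have h1 : ContinuousOn (fun s : ℝ => ((2 - s : ℝ) : ℂ) * d1ex β)
        (Icc 0 2 ∩ closure {a : ℝ | ¬ a ≤ 1}) := by
      fun_prop
    refine hc.comp h1 ?_
    rintro s ⟨hs, hs'⟩
    have h2 : closure {a : ℝ | ¬ a ≤ 1} = Ici 1 := by
      have : {a : ℝ | ¬ a ≤ 1} = Ioi 1 := by
        ext a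
        simp
      rw [this, closure_Ioi]
    rw [h2] at hs'
    have h3 : (1 : ℝ) ≤ s := hs'
    exact mem_cball (2 - s) ⟨by linarith [hs.2], by linarith⟩ β

private theorem disc1_main (h : Hyp f J) (hU : IsFat f U)
    (hi : InjOn χ (ball 0 1)) (hd : DifferentiableOn ℂ χ (ball 0 1))
    (hc : ContinuousOn χ (closedBall 0 1))
    (himg : χ '' ball 0 1 = U) (hb : ∀ w : ℂ, ‖w‖ = 1 → χ w ∈ J) {α β : ℝ} (hab : α < β)
    (hba : β < α + 1) (heq : χ (d1ex α) = χ (d1ex β)) {w₀ k : ℂ} (hw₀ : w₀ ∈ ball (0 : ℂ) 1)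
    (hk : Chg (fun t => χ (d1ex t)) β (α + 1) (χ w₀) k) (hk0 : k ≠ 0) : False := by
  have hdisj := hU.disj_J h
  have hball : ∀ w ∈ ball (0 : ℂ) 1, χ w ∈ U := fun w hw => himg ▸ mem_image_of_mem χ hw
  have hballJ : ∀ w ∈ ball (0 : ℂ) 1, χ w ∉ J := fun w hw hJ =>
    Set.disjoint_left.1 hdisj (hball w hw) hJ
  have hcirc : ∀ t : ℝ, χ (d1ex t) ∈ J := fun t => hb _ (d1ex_norm t)
  have hcc : ContinuousOn (fun t : ℝ => χ (d1ex t)) univ := by
    refine hc.comp d1ex_cont.continuousOn fun t _ => ?_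
    rw [mem_closedBall_zero_iff, d1ex_norm]
  have hrad : ∀ t : ℝ, ContinuousOn (fun r : ℝ => χ ((r : ℂ) * d1ex t)) (Icc 0 1) := fun t => by
    refine hc.comp (by fun_prop) fun r hr => mem_cball r hr t
  -- a point of the arc with another image
  obtain ⟨t₀, ht₀, hy⟩ : ∃ t₀ ∈ Icc α β, χ (d1ex t₀) ≠ χ (d1ex α) := by
    by_contra hcon
    push Not at hcon
    exact no_const_arc hd hc (x := χ (d1ex α)) (fun w hw hx => hballJ w hw (hx ▸ hcirc α)) hab hcon
  have ht₀' : α < t₀ ∧ t₀ < β := by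
    refine ⟨lt_of_le_of_ne ht₀.1 fun h1 => hy (by rw [h1]), lt_of_le_of_ne ht₀.2 fun h1 => ?_⟩
    rw [h1, heq] at hy
    exact hy rfl
  set y := χ (d1ex t₀) with hydef
  have hyJ : y ∈ J := hcirc t₀
  -- the loop
  have hΛc := dLam_cont hc heq
  have hΛm : ∀ s ∈ Icc (0 : ℝ) 2, dLam χ α β s ∈ U ∨ dLam χ α β s = χ (d1ex α) := by
    intro s hs
    unfold dLam
    by_cases hs1 : s ≤ 1
    · rw [if_pos hs1]
      rcases lt_or_eq_of_le hs1 with h1 | h1
      · left
        apply hball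
        rw [mem_ball_zero_iff, norm_mul, d1ex_norm, mul_one, Complex.norm_real, Real.norm_eq_abs,
          abs_of_nonneg hs.1]
        exact h1
      · right
        rw [h1, Complex.ofReal_one, one_mul]
    · rw [if_neg hs1]
      left
      apply hball
      rw [mem_ball_zero_iff, norm_mul, d1ex_norm, mul_one, Complex.norm_real, Real.norm_eq_abs,
        abs_of_nonneg (by linarith [hs.2])]
      rw [not_le] at hs1
      linarith
  have hyΛ : ∀ s ∈ Icc (0 : ℝ) 2, dLam χ α β s ≠ y := by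
    intro s hs h1
    rcases hΛm s hs with h2 | h2
    · rw [h1] at h2
      exact Set.disjoint_left.1 hdisj h2 hyJ
    · exact hy (h1.symm.trans h2)
  obtain ⟨ε, hε, hball'⟩ : ∃ ε > 0, ∀ s ∈ Icc (0 : ℝ) 2, dLam χ α β s ∉ ball y ε := by
    have hcomp : IsCompact (dLam χ α β '' Icc 0 2) := isCompact_Icc.image_of_continuousOn hΛc
    have hopen : IsOpen (dLam χ α β '' Icc 0 2)ᶜ := hcomp.isClosed.isOpen_compl
    have hmem : y ∈ (dLam χ α β '' Icc 0 2)ᶜ := by
      rintro ⟨s, hs, h1⟩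
      exact hyΛ s hs h1
    obtain ⟨ε, hε, hsub⟩ := Metric.isOpen_iff.1 hopen y hmem
    exact ⟨ε, hε, fun s hs h1 => hsub h1 ⟨s, hs, rfl⟩⟩
  -- a point of the sector near `y`
  obtain ⟨r₀, hr0, hr1, hr⟩ : ∃ r₀ : ℝ, 0 < r₀ ∧ r₀ < 1 ∧ χ ((r₀ : ℂ) * d1ex t₀) ∈ ball y ε := by
    have h1 := (hrad t₀) 1 ⟨zero_le_one, le_rfl⟩
    rw [Metric.continuousWithinAt_iff] at h1
    obtain ⟨δ, hδ, h2⟩ := h1 ε hε
    refine ⟨max (1 / 2) (1 - δ / 2), lt_max_of_lt_left (by norm_num), max_lt (by norm_num)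
      (by linarith), ?_⟩
    have h3 : max (1 / 2 : ℝ) (1 - δ / 2) ∈ Icc (0 : ℝ) 1 :=
      ⟨(by norm_num : (0 : ℝ) ≤ 1 / 2).trans (le_max_left _ _), max_le (by norm_num) (by linarith)⟩
    have h4 : dist (max (1 / 2 : ℝ) (1 - δ / 2)) 1 < δ := by
      rw [Real.dist_eq, abs_sub_comm, abs_of_nonneg (by linarith [h3.2])]
      linarith [le_max_right (1 / 2 : ℝ) (1 - δ / 2)]
    have h5 := h2 h3 h4
    rw [Complex.ofReal_one, one_mul] at h5
    exact h5
  set p := χ ((r₀ : ℂ) * d1ex t₀) with hp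
  have hr₀b : (r₀ : ℂ) * d1ex t₀ ∈ ball (0 : ℂ) 1 := by
    rw [mem_ball_zero_iff, norm_mul, d1ex_norm, mul_one, Complex.norm_real, Real.norm_eq_abs,
      abs_of_pos hr0]
    exact hr1
  have hpU : p ∈ U := hball _ hr₀b
  have hpJ : p ∉ J := hballJ _ hr₀b
  -- the other sector does not meet `p`
  set F : ℝ × ℝ → ℂ := fun x => χ ((x.1 : ℂ) * d1ex x.2) with hF
  have hFc : ContinuousOn F (Icc 0 1 ×ˢ Icc β (α + 1)) := by
    refine hc.comp ?_ fun x hx => mem_cball x.1 hx.1 x.2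
    have : Continuous fun x : ℝ × ℝ => (x.1 : ℂ) * d1ex x.2 :=
      (Complex.continuous_ofReal.comp continuous_fst).mul (d1ex_cont.comp continuous_snd)
    exact this.continuousOn
  have hFp : ∀ x ∈ Icc (0 : ℝ) 1 ×ˢ Icc β (α + 1), F x ≠ p := by
    rintro ⟨r, t⟩ ⟨hr', ht'⟩ h1
    have hr'' : r ∈ Icc (0 : ℝ) 1 := hr'
    have ht'' : t ∈ Icc β (α + 1) := ht'
    rcases lt_or_eq_of_le hr''.2 with h2 | h2
    · have h3 : (r : ℂ) * d1ex t ∈ ball (0 : ℂ) 1 := by
        rw [mem_ball_zero_iff, norm_mul, d1ex_norm, mul_one, Complex.norm_real, Real.norm_eq_abs,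
          abs_of_nonneg hr''.1]
        exact h2
      have h4 : (r : ℂ) * d1ex t = (r₀ : ℂ) * d1ex t₀ := hi h3 hr₀b h1
      have h5 : r = r₀ := by
        have h6 := congrArg norm h4
        rwa [norm_mul, norm_mul, d1ex_norm, d1ex_norm, mul_one, mul_one, Complex.norm_real,
          Complex.norm_real, Real.norm_eq_abs, Real.norm_eq_abs, abs_of_nonneg hr''.1,
          abs_of_pos hr0] at h6
      have h7 : (r₀ : ℂ) ≠ 0 := by
        exact_mod_cast hr0.ne'
      rw [h5] at h4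
      obtain ⟨n, hn⟩ := d1ex_inj (mul_left_cancel₀ h7 h4)
      have h8 : (0 : ℝ) < n := by linarith [ht''.1, ht₀'.2]
      have h9 : (n : ℝ) < 1 := by linarith [ht''.2, ht₀'.1]
      have h10 : (0 : ℤ) < n := by exact_mod_cast h8
      have h11 : n < (1 : ℤ) := by exact_mod_cast h9
      omega
    · have h3 : F (r, t) ∈ J := by
        change χ ((r : ℂ) * d1ex t) ∈ J
        rw [h2, Complex.ofReal_one, one_mul]
        exact hcirc t
      rw [h1] at h3
      exact hpJ h3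
  -- the changes
  obtain ⟨v₁, hv₁⟩ := Chg.exists (c := fun x => F (x, β)) zero_le_one (hrad β)
    (p := p) (fun r hr' => hFp (r, β) ⟨hr', ⟨le_rfl, hba.le⟩⟩)
  obtain ⟨v₂, hv₂⟩ := Chg.exists (c := fun x => F (x, α + 1)) zero_le_one (hrad (α + 1))
    (p := p) (fun r hr' => hFp (r, α + 1) ⟨hr', ⟨hba.le, le_rfl⟩⟩)
  have hv₃ : Chg (fun t => F (0, t)) β (α + 1) p 0 := by
    have e1 : (fun t => F (0, t)) = fun _ => χ 0 := by
      funext t
      change χ (((0 : ℝ) : ℂ) * d1ex t) = χ 0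
      rw [Complex.ofReal_zero, zero_mul]
    rw [e1]
    refine chg_const ?_ _ _
    have h1 := hFp (0, β) ⟨⟨le_rfl, zero_le_one⟩, ⟨le_rfl, hba.le⟩⟩
    change χ (((0 : ℝ) : ℂ) * d1ex β) ≠ p at h1
    rwa [Complex.ofReal_zero, zero_mul] at h1
  have hv₄ : Chg (fun t => F (1, t)) β (α + 1) p k := by
    have e1 : (fun t => F (1, t)) = fun t => χ (d1ex t) := by
      funext t
      change χ (((1 : ℝ) : ℂ) * d1ex t) = χ (d1ex t)
      rw [Complex.ofReal_one, one_mul]
    rw [e1]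
    refine Chg.move hba.le (hcc.mono (subset_univ _)) ?_ hU.isConnected.isPreconnected ?_
      (hball _ hw₀) hpU hk
    · change χ (d1ex β) = χ (d1ex (α + 1))
      rw [d1ex_add_one, heq]
    · intro t _ h1
      exact Set.disjoint_left.1 hdisj h1 (hcirc t)
  have hsq := Chg.square zero_le_one hba.le hFc hFp hv₁ hv₂ hv₃ hv₄
  -- the loop about `p`
  have hΛ1 : Chg (dLam χ α β) 0 1 p v₂ := by
    refine hv₂.congr fun s hs => ?_
    change χ ((s : ℂ) * d1ex (α + 1)) = dLam χ α β s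
    unfold dLam
    rw [if_pos hs.2, d1ex_add_one]
  have hΛ2 : Chg (dLam χ α β) 1 2 p (-v₁) := by
    have h1 : Chg (fun s => F (2 - s, β)) 1 2 p (-v₁) :=
      Chg.comp_rev (c := fun x => F (x, β)) (φ := fun s => 2 - s) hv₁ (by fun_prop)
        (fun s hs => ⟨by linarith [hs.2], by linarith [hs.1]⟩) (by norm_num) (by norm_num)
    refine h1.congr fun s hs => ?_
    change χ (((2 - s : ℝ) : ℂ) * d1ex β) = dLam χ α β s
    unfold dLam
    rcases lt_or_eq_of_le hs.1 with h2 | h2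
    · rw [if_neg (not_le.2 h2)]
    · rw [← h2, if_pos le_rfl]
      have e1 : ((2 - 1 : ℝ) : ℂ) = 1 := by norm_num
      rw [e1, Complex.ofReal_one, one_mul, one_mul, heq]
  have hΛ := Chg.trans zero_le_one one_le_two hΛ1 hΛ2
  have hkeq : v₂ + -v₁ = k := by linear_combination -hsq
  rw [hkeq] at hΛ
  have hcl : dLam χ α β 0 = dLam χ α β 2 := by
    unfold dLam
    rw [if_pos zero_le_one, if_neg (by norm_num)]
    have e1 : ((2 - 2 : ℝ) : ℂ) = 0 := by norm_num
    rw [e1, Complex.ofReal_zero, zero_mul, zero_mul]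
  obtain ⟨q, hqK, hqy⟩ := h.exists_near hyJ hε
  have hq1 : Chg (dLam χ α β) 0 2 q k :=
    Chg.move (by norm_num) hΛc hcl (convex_ball y ε).isPreconnected
      (fun s hs => hball' s hs) hr (by rw [mem_ball, dist_eq_norm]; exact hqy) hΛ
  have hq2 : Chg (dLam χ α β) 0 2 q 0 := by
    refine Chg.far (by norm_num) hΛc hcl (preconn_compl_K h.deg) ?_ hqK
      (unbounded_compl_K h.deg)
    intro s hs h1
    apply h1
    rcases hΛm s hs with h2 | h2
    · exact interior_subset (hU.sub_int h2)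
    · rw [h2]
      exact h.J_sub_K (hcirc α)
  exact hk0 (Chg.unique (by norm_num) hq1 hq2)

theorem IsFat.inj_circle (h : Hyp f J) (hU : IsFat f U) (hd : DifferentiableOn ℂ χ (ball 0 1))
    (hi : InjOn χ (ball 0 1)) (hc : ContinuousOn χ (closedBall 0 1))
    (himg : χ '' ball 0 1 = U) (hb : ∀ w : ℂ, ‖w‖ = 1 → χ w ∈ J) {θ₁ θ₂ : ℝ} (h12 : θ₁ < θ₂)
    (h21 : θ₂ < θ₁ + 1)
    (heq : χ (Complex.exp (2 * Real.pi * θ₁ * Complex.I)) =
      χ (Complex.exp (2 * Real.pi * θ₂ * Complex.I))) : False := by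
  have heq' : χ (d1ex θ₁) = χ (d1ex θ₂) := heq
  have h0 : (0 : ℂ) ∈ ball (0 : ℂ) 1 := mem_ball_self zero_lt_one
  have hcirc : ∀ w : ℂ, ‖w‖ = 1 → χ w ∉ χ '' ball 0 1 := by
    intro w hw h1
    rw [himg] at h1
    exact Set.disjoint_left.1 (hU.disj_J h) h1 (hb w hw)
  -- the whole circle, from `θ₁`
  have hrot : ∀ w : ℂ, ‖d1ex θ₁ * w‖ = ‖w‖ := fun w => by rw [norm_mul, d1ex_norm, one_mul]
  have hex0 : d1ex θ₁ ≠ 0 := by
    rw [← norm_ne_zero_iff, d1ex_norm]
    exact one_ne_zero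
  have hw := winding_inside (χ := fun w => χ (d1ex θ₁ * w)) (w₀ := 0)
    (hd.comp (by fun_prop) fun w hw => by
      rw [mem_ball_zero_iff] at hw ⊢
      rwa [hrot])
    (by
      intro w hw w' hw' h1
      rw [mem_ball_zero_iff] at hw hw'
      have h2 := hi (by rw [mem_ball_zero_iff, hrot]; exact hw)
        (by rw [mem_ball_zero_iff, hrot]; exact hw') h1
      exact mul_left_cancel₀ hex0 h2)
    (hc.comp (by fun_prop) fun w hw => by
      rw [mem_closedBall_zero_iff] at hw ⊢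
      rwa [hrot])
    (by
      intro w hw h1
      obtain ⟨w', hw', h2⟩ := h1
      refine hcirc (d1ex θ₁ * w) (by rw [hrot]; exact hw) ⟨d1ex θ₁ * w', ?_, h2⟩
      rw [mem_ball_zero_iff] at hw' ⊢
      rwa [hrot]) h0
  have hw' : Chg (fun t => χ (d1ex t)) θ₁ (θ₁ + 1) (χ 0) (2 * Real.pi * Complex.I) := by
    have h1 := Chg.comp (φ := fun t => t - θ₁) (a' := θ₁) (b' := θ₁ + 1) hw (by fun_prop)
      (fun t ht => ⟨by linarith [ht.1], by linarith [ht.2]⟩) (by ring) (by ring)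
    rw [mul_zero] at h1
    refine h1.congr fun t _ => ?_
    change χ (d1ex θ₁ * d1ex (t - θ₁)) = χ (d1ex t)
    rw [← d1ex_add]
    congr 2
    ring
  obtain ⟨v₁, v₂, hv₁, hv₂, hv⟩ := Chg.split h12.le h21.le hw'
  by_cases hv20 : v₂ = 0
  · have hv1 : v₁ ≠ 0 := by
      intro h1
      rw [h1, hv20, add_zero] at hv
      have hpi : (2 * Real.pi * Complex.I : ℂ) ≠ 0 := by
        simp [Real.pi_ne_zero, Complex.I_ne_zero]
      exact hpi hv
    have h1 : Chg (fun t => χ (d1ex t)) (θ₁ + 1) (θ₂ + 1) (χ 0) v₁ := by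
      have h2 := Chg.comp (φ := fun t => t - 1) (a' := θ₁ + 1) (b' := θ₂ + 1) hv₁ (by fun_prop)
        (fun t ht => ⟨by linarith [ht.1], by linarith [ht.2]⟩) (by ring) (by ring)
      refine h2.congr fun t _ => ?_
      change χ (d1ex (t - 1)) = χ (d1ex t)
      rw [← d1ex_add_one (t - 1)]
      congr 2
      ring
    exact disc1_main h hU hi hd hc himg hb h21 (by linarith) (by rw [d1ex_add_one, heq']) h0 h1 hv1
  · exact disc1_main h hU hi hd hc himg hb h12 h21 heq' h0 hv₂ hv20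

end Pool.Agent.JH
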