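import Pool.Agent.Lib.MP_8ebc20_an.EProp1

/-!
# EPROP: levels

PROOFS. `d = natDegree f ≥ 2`.  `{EE s t | s ∈ [a, b]}` (`0 < a`) is compact: the image of
`Icc a b ×ˢ Icc 0 1` (`EE_int`).
`EE_large`: `Q = {EE s t | s ∈ [1, d]}` is a compact subset of `Kᶜ`, so `‖(ev f)^[n]‖ ≥ M` on `Q`
for `n ≥ N` (`escape`); every `s ≥ d ^ N` is `d ^ n σ` with `n ≥ N`, `σ ∈ [1, d]`, and
`EE s t = (ev f)^[n] (EE σ (t / d ^ n))`.
`EE_bdd`: `Q = {EE s t | s ∈ [S, d S]}`, `B = max (sup ‖·‖ on Q) (RR f)`; for `0 < s ≤ S` there is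
`n` with `d ^ n s ∈ [S, d S]`; if `‖EE s t‖ > B ≥ RR` then by `grow`
`‖(ev f)^[n] (EE s t)‖ ≥ 2 ^ n ‖EE s t‖ ≥ ‖EE s t‖ > B`, but this point is in `Q` (`EE_it`).
-/

set_option autoImplicit false

namespace Pool.Agent.JH

open Polynomial Set Metric Filter Topology

variable {f : ℂ[X]} {J : Set ℂ} {ψ ψi : ℂ → ℂ}

private theorem eprop_compact (hE : ExtMap f ψ ψi) {a b : ℝ} (ha : 0 < a) :
    ∃ Q : Set ℂ, IsCompact Q ∧ Q ⊆ (KSet f)ᶜ ∧ ∀ s t : ℝ, a ≤ s → s ≤ b → EE ψ s t ∈ Q := by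
  refine ⟨(fun p : ℝ × ℝ => EE ψ p.1 p.2) '' (Icc a b ×ˢ Icc (0 : ℝ) 1), ?_, ?_, ?_⟩
  · refine (isCompact_Icc.prod isCompact_Icc).image_of_continuousOn (hE.EE_cont.mono ?_)
    rintro ⟨x, y⟩ ⟨hx, _⟩
    exact lt_of_lt_of_le ha hx.1
  · rintro _ ⟨⟨x, y⟩, ⟨hx, _⟩, rfl⟩
    exact hE.EE_mem (lt_of_lt_of_le ha hx.1)
  · intro s t h1 h2
    refine ⟨(s, Int.fract t), ⟨⟨h1, h2⟩, Int.fract_nonneg t, (Int.fract_lt_one t).le⟩, ?_⟩
    have h := EE_int ψ s (Int.fract t) ⌊t⌋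
    rw [Int.fract_add_floor] at h
    exact h.symm

theorem ExtMap.EE_large (hE : ExtMap f ψ ψi) (hd : 2 ≤ f.natDegree) (M : ℝ) :
    ∃ S : ℝ, 0 < S ∧ ∀ s t : ℝ, S ≤ s → M ≤ ‖EE ψ s t‖ := by
  have hd1 : (1 : ℝ) < f.natDegree := by
    have : (2 : ℝ) ≤ f.natDegree := by exact_mod_cast hd
    linarith
  have hd0 : (0 : ℝ) < f.natDegree := by linarith
  obtain ⟨Q, hQc, hQK, hQ⟩ := eprop_compact hE (a := 1) (b := f.natDegree) one_pos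
  obtain ⟨N, hN⟩ := escape hd hQc hQK M
  refine ⟨(f.natDegree : ℝ) ^ N, by positivity, fun s t hs => ?_⟩
  have hs1 : 1 ≤ s := (one_le_pow₀ hd1.le).trans hs
  obtain ⟨n, hn1, hn2⟩ := exists_nat_pow_near hs1 hd1
  have hnN : N ≤ n := by
    by_contra hcon
    push Not at hcon
    have h1 : (f.natDegree : ℝ) ^ (n + 1) ≤ (f.natDegree : ℝ) ^ N :=
      pow_le_pow_right₀ hd1.le hcon
    linarith
  have hpn : (0 : ℝ) < (f.natDegree : ℝ) ^ n := by positivity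
  have hσ1 : 1 ≤ s / (f.natDegree : ℝ) ^ n := by rw [le_div_iff₀ hpn, one_mul]; exact hn1
  have hσ2 : s / (f.natDegree : ℝ) ^ n ≤ f.natDegree := by
    rw [div_le_iff₀ hpn, ← pow_succ']; exact hn2.le
  have h1 := hN n hnN _ (hQ (s / (f.natDegree : ℝ) ^ n) (t / (f.natDegree : ℝ) ^ n) hσ1 hσ2)
  rw [hE.EE_it hd (lt_of_lt_of_le one_pos hσ1), mul_div_cancel₀ _ hpn.ne',
    mul_div_cancel₀ _ hpn.ne'] at h1
  exact h1

theorem ExtMap.EE_bdd (hE : ExtMap f ψ ψi) (hd : 2 ≤ f.natDegree) {S : ℝ} (hS : 0 < S) :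
    ∃ B : ℝ, ∀ s t : ℝ, 0 < s → s ≤ S → ‖EE ψ s t‖ ≤ B := by
  have hd1 : (1 : ℝ) < f.natDegree := by
    have : (2 : ℝ) ≤ f.natDegree := by exact_mod_cast hd
    linarith
  have hd0 : (0 : ℝ) < f.natDegree := by linarith
  obtain ⟨Q, hQc, hQK, hQ⟩ := eprop_compact hE (a := S) (b := f.natDegree * S) hS
  obtain ⟨B, hB⟩ := hQc.isBounded.exists_norm_le
  refine ⟨max B (RR f), fun s t hs hsS => ?_⟩
  by_contra hcon
  push Not at hcon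
  have hx1 : 1 ≤ S / s := by rw [le_div_iff₀ hs, one_mul]; exact hsS
  obtain ⟨n, hn1, hn2⟩ := exists_nat_pow_near hx1 hd1
  have h1 : S ≤ (f.natDegree : ℝ) ^ (n + 1) * s := by
    rw [div_lt_iff₀ hs] at hn2
    exact hn2.le
  have h2 : (f.natDegree : ℝ) ^ (n + 1) * s ≤ f.natDegree * S := by
    rw [le_div_iff₀ hs] at hn1
    rw [pow_succ', mul_assoc]
    exact mul_le_mul_of_nonneg_left hn1 hd0.le
  have h3 := hB _ (hQ _ ((f.natDegree : ℝ) ^ (n + 1) * t) h1 h2)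
  rw [← hE.EE_it hd hs] at h3
  have h4 := grow hd ((le_max_right B (RR f)).trans hcon.le) (n + 1)
  have h5 : ‖EE ψ s t‖ ≤ 2 ^ (n + 1) * ‖EE ψ s t‖ :=
    le_mul_of_one_le_left (norm_nonneg _) (one_le_pow₀ (by norm_num))
  have h6 : B < ‖EE ψ s t‖ := lt_of_le_of_lt (le_max_left _ _) hcon
  linarith

end Pool.Agent.JH
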