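import Pool.Agent.Lib.MP_8ebc20_an.Bas3

/-!
# EPROP1: rays and equipotentials

PROOFS. `EE ψ s t = ψ (exp (s + 2 π t I))`, `‖exp (..)‖ = exp s > 1` for `s > 0`.  `EE_inj`: `ψ` is
injective on the exterior disc (`left`), and `exp a = exp b ↔ ∃ n, a = b + n * (2 π I)`
(`Complex.exp_eq_exp_iff_exists_int`).  `EE_surj`: with `W = ψi z`, `s = log ‖W‖ > 0` and `t = arg W / (2 π)`,
reduced mod `1` (`Int.fract`).  `EE_it`: induction with `conj` (`exp (..) ^ d = exp (d * ..)`,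
`Complex.exp_nat_mul`); note `d ≥ 1` is not needed except for positivity of `d ^ n * s`: if `d = 0` the
statement `n ≥ 1` would need level `0`, so `hd` is assumed.
-/

set_option autoImplicit false

namespace Pool.Agent.JH

open Polynomial Set Metric Filter Topology

variable {f : ℂ[X]} {J : Set ℂ} {ψ ψi : ℂ → ℂ}

private theorem eprop1_norm (s t : ℝ) :
    ‖Complex.exp ((s : ℂ) + 2 * Real.pi * t * Complex.I)‖ = Real.exp s := by
  rw [Complex.norm_exp]
  congr 1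
  simp

private theorem eprop1_gt {s : ℝ} (hs : 0 < s) (t : ℝ) :
    1 < ‖Complex.exp ((s : ℂ) + 2 * Real.pi * t * Complex.I)‖ := by
  rw [eprop1_norm]
  exact Real.one_lt_exp_iff.2 hs

theorem ExtMap.EE_mem (hE : ExtMap f ψ ψi) {s t : ℝ} (hs : 0 < s) : EE ψ s t ∈ (KSet f)ᶜ :=
  (hE.left _ (eprop1_gt hs t)).1

theorem ExtMap.EE_cont (hE : ExtMap f ψ ψi) :
    ContinuousOn (fun p : ℝ × ℝ => EE ψ p.1 p.2) {p | 0 < p.1} := by
  have h1 : Continuous fun p : ℝ × ℝ =>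
      Complex.exp ((p.1 : ℂ) + 2 * Real.pi * p.2 * Complex.I) := by fun_prop
  exact hE.dψ.continuousOn.comp h1.continuousOn (fun p hp => eprop1_gt hp p.2)

theorem EE_int (ψ : ℂ → ℂ) (s t : ℝ) (n : ℤ) : EE ψ s (t + n) = EE ψ s t := by
  unfold EE
  have h := Complex.exp_periodic.int_mul n ((s : ℂ) + 2 * Real.pi * t * Complex.I)
  rw [← h]
  congr 2
  push_cast
  ring

theorem EE_per (ψ : ℂ → ℂ) (s t : ℝ) : EE ψ s (t + 1) = EE ψ s t := by
  have h := EE_int ψ s t 1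
  simpa using h

theorem ExtMap.psii_EE (hE : ExtMap f ψ ψi) {s t : ℝ} (hs : 0 < s) :
    ψi (EE ψ s t) = Complex.exp ((s : ℂ) + 2 * Real.pi * t * Complex.I) :=
  (hE.left _ (eprop1_gt hs t)).2

theorem ExtMap.norm_psii (hE : ExtMap f ψ ψi) {s t : ℝ} (hs : 0 < s) :
    ‖ψi (EE ψ s t)‖ = Real.exp s := by
  rw [hE.psii_EE hs, eprop1_norm]

theorem ExtMap.EE_inj (hE : ExtMap f ψ ψi) {s s' t t' : ℝ} (hs : 0 < s) (hs' : 0 < s')
    (h : EE ψ s t = EE ψ s' t') : s = s' ∧ ∃ n : ℤ, t' = t + n := by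
  have h1 : Complex.exp ((s : ℂ) + 2 * Real.pi * t * Complex.I) =
      Complex.exp ((s' : ℂ) + 2 * Real.pi * t' * Complex.I) := by
    rw [← hE.psii_EE hs, ← hE.psii_EE hs', h]
  have h2 : s = s' := by
    have h3 := congrArg norm h1
    rw [eprop1_norm, eprop1_norm] at h3
    exact Real.exp_injective h3
  refine ⟨h2, ?_⟩
  obtain ⟨n, hn⟩ := Complex.exp_eq_exp_iff_exists_int.1 h1
  refine ⟨-n, ?_⟩
  have h4 := congrArg Complex.im hn
  have h5 : 2 * Real.pi * t = 2 * Real.pi * t' + n * (2 * Real.pi) := by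
    simpa using h4
  have h6 : (2 * Real.pi) * t' = (2 * Real.pi) * (t + ((-n : ℤ) : ℝ)) := by
    push_cast
    linarith
  exact mul_left_cancel₀ (by positivity) h6

theorem ExtMap.EE_surj (hE : ExtMap f ψ ψi) {z : ℂ} (hz : z ∈ (KSet f)ᶜ) :
    ∃ s t : ℝ, 0 < s ∧ t ∈ Ico (0 : ℝ) 1 ∧ EE ψ s t = z := by
  obtain ⟨h1, h2⟩ := hE.right z hz
  have hW : ψi z ≠ 0 := by
    intro h
    rw [h, norm_zero] at h1
    linarith
  refine ⟨Real.log ‖ψi z‖, Int.fract (Complex.arg (ψi z) / (2 * Real.pi)), Real.log_pos h1,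
    ⟨Int.fract_nonneg _, Int.fract_lt_one _⟩, ?_⟩
  have h3 : Complex.arg (ψi z) / (2 * Real.pi) =
      Int.fract (Complex.arg (ψi z) / (2 * Real.pi)) +
        (⌊Complex.arg (ψi z) / (2 * Real.pi)⌋ : ℤ) :=
    (Int.fract_add_floor _).symm
  rw [← EE_int ψ _ _ ⌊Complex.arg (ψi z) / (2 * Real.pi)⌋, ← h3]
  unfold EE
  have h4 : ((Real.log ‖ψi z‖ : ℝ) : ℂ) +
      2 * Real.pi * ((Complex.arg (ψi z) / (2 * Real.pi) : ℝ) : ℂ) * Complex.I =
      Complex.log (ψi z) := by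
    have h5 : (2 * Real.pi : ℝ) ≠ 0 := by positivity
    have h6 : (2 * Real.pi * ((Complex.arg (ψi z) / (2 * Real.pi) : ℝ)) : ℝ) =
        Complex.arg (ψi z) := by field_simp
    have h7 : 2 * (Real.pi : ℂ) * ((Complex.arg (ψi z) / (2 * Real.pi) : ℝ) : ℂ) =
        ((Complex.arg (ψi z) : ℝ) : ℂ) := by
      exact_mod_cast congrArg (fun x : ℝ => (x : ℂ)) h6
    rw [h7]
    rfl
  rw [h4, Complex.exp_log hW, h2]

theorem ExtMap.EE_it (hE : ExtMap f ψ ψi) (hd : 2 ≤ f.natDegree) {s : ℝ} (hs : 0 < s) (t : ℝ)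
    (n : ℕ) :
    (ev f)^[n] (EE ψ s t) = EE ψ ((f.natDegree : ℝ) ^ n * s) ((f.natDegree : ℝ) ^ n * t) := by
  induction n with
  | zero => simp
  | succ n ih =>
    rw [Function.iterate_succ_apply', ih]
    have hd0 : (0 : ℝ) < f.natDegree := by
      have : 0 < f.natDegree := by omega
      exact_mod_cast this
    have hpos : 0 < (f.natDegree : ℝ) ^ n * s := mul_pos (pow_pos hd0 n) hs
    unfold EE
    rw [hE.conj _ (eprop1_gt hpos _), ← Complex.exp_nat_mul]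
    congr 2
    push_cast
    ring

end Pool.Agent.JH
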