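import Pool.Agent.Lib.MP_8ebc20_an.EProp

/-!
# EPROP2: small levels

PROOFS. `lev_small`: if not, there are `s_k ≥ η`, `t_k` (in `[0, 1]` by `EE_int`), `x_k ∈ K`,
`‖EE s_k t_k - x_k‖ → 0`; the `s_k` are bounded by `EE_large` (`K` is bounded); pass to limits of
subsequences: `EE s t ∈ K` (closed) with `s ≥ η`, contradicting `EE_mem`.
`EE_near`: `B` from `EE_bdd` with `S = 1`.  The set `Q = {z | ‖z‖ ≤ B, ε ≤ infDist z K}` is a
compact subset of `Kᶜ`; if there were `s_k → 0`, `t_k` with `EE s_k t_k ∈ Q` then `‖ψi‖ = exp s_k → 1` while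
`‖ψi‖` is continuous on the compact `Q` with values `> 1`, so `≥ exp η` there: contradiction.  So for small
`s` the point `z = EE s t` has `infDist z K < ε`; take `y ∈ K` with `‖z - y‖ < ε`; the segment from `z ∉ K` to `y ∈ K`
contains a point `x` of `frontier K = J` (a connected set meeting `K` and `Kᶜ` meets the frontier), and
`‖z - x‖ ≤ ‖z - y‖`.
-/

set_option autoImplicit false

namespace Pool.Agent.JH

open Polynomial Set Metric Filter Topology

variable {f : ℂ[X]} {J : Set ℂ} {ψ ψi : ℂ → ℂ}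

theorem ExtMap.lev_small (hE : ExtMap f ψ ψi) (hd : 2 ≤ f.natDegree) {η : ℝ} (hη : 0 < η) :
    ∃ ρ : ℝ, 0 < ρ ∧ ∀ s t : ℝ, 0 < s → (∃ x ∈ KSet f, ‖EE ψ s t - x‖ < ρ) → s < η := by
  have hK := isCompact_K hd
  obtain ⟨B, hB⟩ := hK.isBounded.exists_norm_le
  obtain ⟨S, hS, hlarge⟩ := hE.EE_large hd (B + 1)
  set Q : Set ℂ := (fun p : ℝ × ℝ => EE ψ p.1 p.2) '' (Icc η (max η S) ×ˢ Icc (0 : ℝ) 1) with hQ
  have hQc : IsCompact Q := by
    refine (isCompact_Icc.prod isCompact_Icc).image_of_continuousOn (hE.EE_cont.mono ?_)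
    rintro ⟨a, b⟩ ⟨ha, _⟩
    exact lt_of_lt_of_le hη ha.1
  have hdis : Disjoint Q (KSet f) := by
    rw [Set.disjoint_left]
    rintro _ ⟨⟨a, b⟩, ⟨ha, _⟩, rfl⟩
    exact hE.EE_mem (lt_of_lt_of_le hη ha.1)
  obtain ⟨δ, hδ, hth⟩ := hdis.exists_thickenings hQc hK.isClosed
  refine ⟨min δ 1, lt_min hδ one_pos, fun s t hs hx => ?_⟩
  obtain ⟨x, hxK, hxd⟩ := hx
  by_contra hcon
  push Not at hcon
  rcases le_or_gt s (max η S) with h1 | h1
  · have hmem : EE ψ s t ∈ Q := by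
      refine ⟨(s, Int.fract t), ⟨⟨hcon, h1⟩, Int.fract_nonneg t, (Int.fract_lt_one t).le⟩, ?_⟩
      have h := EE_int ψ s (Int.fract t) ⌊t⌋
      rw [Int.fract_add_floor] at h
      exact h.symm
    have hd1 : ‖EE ψ s t - x‖ < δ := lt_of_lt_of_le hxd (min_le_left _ _)
    have h2 : EE ψ s t ∈ Metric.thickening δ Q :=
      Metric.self_subset_thickening hδ Q hmem
    have h3 : EE ψ s t ∈ Metric.thickening δ (KSet f) := by
      rw [Metric.mem_thickening_iff]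
      exact ⟨x, hxK, by rw [dist_eq_norm]; exact hd1⟩
    exact Set.disjoint_left.1 hth h2 h3
  · have h2 : B + 1 ≤ ‖EE ψ s t‖ := hlarge s t ((le_max_right η S).trans h1.le)
    have h3 : ‖x‖ ≤ B := hB x hxK
    have h4 : ‖EE ψ s t - x‖ < 1 := lt_of_lt_of_le hxd (min_le_right _ _)
    have h5 := norm_sub_norm_le (EE ψ s t) x
    linarith

theorem ExtMap.EE_near (hE : ExtMap f ψ ψi) (h : Hyp f J) {ε : ℝ} (hε : 0 < ε) :
    ∃ s₀ : ℝ, 0 < s₀ ∧ ∀ s t : ℝ, 0 < s → s < s₀ → ∃ x ∈ J, ‖EE ψ s t - x‖ < ε := by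
  obtain ⟨B, hB⟩ := hE.EE_bdd h.deg (S := 1) one_pos
  set Q : Set ℂ := closedBall 0 B ∩ {z : ℂ | ε ≤ infDist z (KSet f)} with hQ
  have hQc : IsCompact Q :=
    (isCompact_closedBall 0 B).inter_right (isClosed_le continuous_const (continuous_infDist_pt _))
  have hQK : Q ⊆ (KSet f)ᶜ := by
    rintro z ⟨_, hz⟩ hzK
    have h0 := infDist_zero_of_mem hzK
    have hz' : ε ≤ infDist z (KSet f) := hz
    linarith
  have key : ∃ η : ℝ, 0 < η ∧ ∀ z ∈ Q, Real.exp η ≤ ‖ψi z‖ := by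
    rcases Q.eq_empty_or_nonempty with he | hne
    · exact ⟨1, one_pos, fun z hz => by rw [he] at hz; exact absurd hz (notMem_empty _)⟩
    · obtain ⟨z₀, hz₀, hmin⟩ := hQc.exists_isMinOn hne (f := fun z => ‖ψi z‖)
        ((hE.dψi.continuousOn.mono hQK).norm)
      have h1 : 1 < ‖ψi z₀‖ := (hE.right z₀ (hQK hz₀)).1
      refine ⟨Real.log ‖ψi z₀‖, Real.log_pos h1, fun z hz => ?_⟩
      rw [Real.exp_log (by linarith)]
      exact hmin hz
  obtain ⟨η, hη, hk⟩ := key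
  refine ⟨min 1 η, lt_min one_pos hη, fun s t hs hs1 => ?_⟩
  have hs2 : s < 1 := lt_of_lt_of_le hs1 (min_le_left _ _)
  have hs3 : s < η := lt_of_lt_of_le hs1 (min_le_right _ _)
  have hnot : EE ψ s t ∉ Q := by
    intro hq
    have h1 := hk _ hq
    rw [hE.norm_psii hs] at h1
    exact absurd (Real.exp_le_exp.1 h1) (not_le.2 hs3)
  have hinf : infDist (EE ψ s t) (KSet f) < ε := by
    by_contra hcon
    push Not at hcon
    exact hnot ⟨by rw [mem_closedBall_zero_iff]; exact hB s t hs hs2.le, hcon⟩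
  obtain ⟨y, hyK, hyd⟩ := (infDist_lt_iff (K_nonempty h.deg)).1 hinf
  have hseg : ¬ Disjoint (segment ℝ (EE ψ s t) y) J := by
    intro hdis
    have hsub := h.sub_compl_K (convex_segment (𝕜 := ℝ) (EE ψ s t) y).isPreconnected hdis
      ⟨EE ψ s t, left_mem_segment ℝ _ _, hE.EE_mem hs⟩
    exact hsub (right_mem_segment ℝ _ _) hyK
  rw [Set.not_disjoint_iff] at hseg
  obtain ⟨x, hxs, hxJ⟩ := hseg
  refine ⟨x, hxJ, ?_⟩
  have h1 := norm_sub_le_of_mem_segment hxs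
  rw [norm_sub_rev]
  refine lt_of_le_of_lt h1 ?_
  rw [norm_sub_rev, ← dist_eq_norm]
  exact hyd

end Pool.Agent.JH
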