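import Pool.Agent.Lib.MP_8ebc20_an.RU

/-!
# FATMAP: the action of `f` on the bounded Fatou components

PROOFS. `image`: `f U` is connected, open (open mapping) and contained in `interior K` (`ev_mem_int`), so in
one component `V` (`exists_fat`, `sub_of_meet`).  It is closed in `V`: if `w ∈ V`, `w = lim f z_k`,
`z_k ∈ U`, then (compactness of `closure U`) `w = f z` with `z ∈ closure U`; `z ∉ J` because
`w ∉ J`, and `frontier U ⊆ J`, so `z ∈ U`.  As `V` is connected, `f U = V`.
`image_closure`: `f (closure U)` is compact and contains `f U` as a dense subset.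
`image_frontier`: points of `frontier U` go to `J ∩ closure (f U) = frontier (f U)`; conversely a point of
`frontier (f U)` is `f z`, `z ∈ closure U`, `z ∉ U`.
-/

set_option autoImplicit false

namespace Pool.Agent.JH

open Polynomial Set Metric Filter Topology

variable {f : ℂ[X]} {J : Set ℂ} {δ C lam : ℝ} {U V : Set ℂ}

theorem IsFat.image (h : Hyp f J) (hU : IsFat f U) : IsFat f (ev f '' U) := by
  obtain ⟨z₀, hz₀⟩ := hU.isConnected.nonempty
  obtain ⟨V, hV, hzV⟩ := exists_fat (h.ev_mem_int.2 (hU.sub_int hz₀))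
  have hsub : ev f '' U ⊆ V := by
    refine hV.sub_of_meet ?_ ?_ ⟨_, mem_image_of_mem _ hz₀, hzV⟩
    · exact hU.isConnected.isPreconnected.image _ continuous_ev.continuousOn
    · rintro _ ⟨z, hz, rfl⟩
      exact h.ev_mem_int.2 (hU.sub_int hz)
  have hcomp : IsCompact (closure U) := (hU.isBounded h.deg).isCompact_closure
  have hVsub : V ⊆ ev f '' U := by
    refine hV.isConnected.isPreconnected.subset_of_closure_inter_subset
      (isOpenMap_ev h.deg U hU.isOpen) ⟨_, hzV, mem_image_of_mem _ hz₀⟩ ?_
    rintro w ⟨hw, hwV⟩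
    rw [← image_closure_of_isCompact hcomp continuous_ev.continuousOn] at hw
    obtain ⟨z, hz, rfl⟩ := hw
    refine ⟨z, ?_, rfl⟩
    by_contra hzU
    have h1 : z ∈ frontier U := by
      rw [hU.isOpen.frontier_eq]
      exact ⟨hz, hzU⟩
    exact disjoint_left.1 (hV.disj_J h) hwV (h.ev_mem_J.2 (hU.frontier_sub h h1))
  rw [hsub.antisymm hVsub]
  exact hV

theorem IsFat.image_it (h : Hyp f J) (hU : IsFat f U) (n : ℕ) : IsFat f ((ev f)^[n] '' U) := by
  induction n with
  | zero =>
    rw [Function.iterate_zero, image_id]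
    exact hU
  | succ n ih =>
    rw [Function.iterate_succ', image_comp]
    exact ih.image h

theorem IsFat.image_closure (h : Hyp f J) (hU : IsFat f U) :
    ev f '' closure U = closure (ev f '' U) :=
  image_closure_of_isCompact (hU.isBounded h.deg).isCompact_closure continuous_ev.continuousOn

theorem IsFat.image_frontier (h : Hyp f J) (hU : IsFat f U) :
    ev f '' frontier U = frontier (ev f '' U) := by
  have hV := hU.image h
  rw [hV.isOpen.frontier_eq, ← hU.image_closure h]
  apply Subset.antisymm
  · rintro _ ⟨z, hz, rfl⟩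
    refine ⟨mem_image_of_mem _ (frontier_subset_closure hz), fun hcon => ?_⟩
    exact disjoint_left.1 (hV.disj_J h) hcon (h.ev_mem_J.2 (hU.frontier_sub h hz))
  · rintro _ ⟨⟨z, hz, rfl⟩, hn⟩
    refine mem_image_of_mem _ ?_
    rw [hU.isOpen.frontier_eq]
    exact ⟨hz, fun hzU => hn (mem_image_of_mem _ hzU)⟩

end Pool.Agent.JH
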