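import Pool.Agent.Lib.MP_8ebc20_an.FatMap

/-!
# FATMAP1: expansion near `J`; finiteness statements

PROOFS. `expand`: choose `N ≥ 1` with `C lam ^ N ≤ 1 / 4`.  Let `ρ = infDist (f^[N] z) J`.  If `ρ < δ`, let
`x ∈ J` be nearest to `f^[N] z`, and `g` the branch on `ball x (2 δ)` with `g (f^[N] z) = z`; then
`g x ∈ J` and `‖z - g x‖ ≤ C lam ^ N ρ ≤ ρ / 4`, so `infDist z J ≤ ρ / 4`.
`finite_far`: `{z ∈ K | r ≤ infDist z J}` is compact and contained in `interior K`, which is covered by the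
open components; a finite subcover contains every `U` in question (`eq_of_meet`).
`finite_pre`: we may assume `V` is a component (`image_it`); fix `w ∈ V`; every `U` in question contains a point of
the finite set `(f^[n])⁻¹ {w}` (`finite_fibre`), and different `U` are disjoint (`eq_of_meet`).
-/

set_option autoImplicit false

namespace Pool.Agent.JH

open Polynomial Set Metric Filter Topology

variable {f : ℂ[X]} {J : Set ℂ} {δ C lam : ℝ} {U V : Set ℂ}

theorem HypRad.expand (h : Hyp f J) (hr : HypRad f J δ C lam) : ∃ N : ℕ, 1 ≤ N ∧ ∀ z : ℂ,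
    min δ (2 * infDist z J) ≤ infDist ((ev f)^[N] z) J := by
  have hlim : Tendsto (fun N : ℕ => C * lam ^ N) atTop (𝓝 (C * 0)) :=
    (tendsto_pow_atTop_nhds_zero_of_lt_one hr.lpos.le hr.llt).const_mul C
  rw [mul_zero] at hlim
  have hev : ∀ᶠ N : ℕ in atTop, C * lam ^ N < 1 / 4 :=
    hlim.eventually (gt_mem_nhds (by norm_num))
  obtain ⟨N, hN, hN1⟩ := (hev.and (eventually_ge_atTop 1)).exists
  refine ⟨N, hN1, fun z => ?_⟩
  rcases le_or_gt δ (infDist ((ev f)^[N] z) J) with hδ | hδ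
  · exact (min_le_left _ _).trans hδ
  · refine (min_le_right _ _).trans ?_
    obtain ⟨x, hx, hxd⟩ := h.isCompact_J.exists_infDist_eq_dist h.J_nonempty ((ev f)^[N] z)
    have hδ0 := hr.δpos
    rw [hxd] at hδ ⊢
    have hw : (ev f)^[N] z ∈ ball x (2 * δ) := by
      rw [mem_ball]
      linarith
    obtain ⟨g, hg, hgw⟩ := hr.ex x hx N _ hw z rfl
    have hgx : g x ∈ J := (hg.mem_J h (mem_ball_self (by linarith))).2 hx
    have h1 := hr.contr x hx N g hg ((ev f)^[N] z) (by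
      rw [mem_closedBall]
      exact hδ.le) x (mem_closedBall_self hδ0.le)
    rw [hgw, ← dist_eq_norm, ← dist_eq_norm] at h1
    have h2 : infDist z J ≤ dist z (g x) := infDist_le_dist_of_mem hgx
    have h3 : C * lam ^ N * dist ((ev f)^[N] z) x ≤ 1 / 4 * dist ((ev f)^[N] z) x :=
      mul_le_mul_of_nonneg_right hN.le dist_nonneg
    have h4 : 0 ≤ dist ((ev f)^[N] z) x := dist_nonneg
    linarith

theorem finite_far (h : Hyp f J) {r : ℝ} (hr : 0 < r) :
    {U | IsFat f U ∧ ∃ z ∈ U, r ≤ infDist z J}.Finite := by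
  have hcomp : IsCompact (KSet f ∩ {z | r ≤ infDist z J}) :=
    (isCompact_K h.deg).inter_right (isClosed_le continuous_const (continuous_infDist_pt J))
  have hsub : KSet f ∩ {z | r ≤ infDist z J} ⊆ ⋃ U : {U : Set ℂ // IsFat f U}, (U : Set ℂ) := by
    rintro z ⟨hzK, hz⟩
    have hzJ : z ∉ J := by
      intro hzJ
      have h1 : infDist z J = 0 := infDist_zero_of_mem hzJ
      have h2 : r ≤ infDist z J := hz
      linarith
    have hzi : z ∈ interior (KSet f) := by
      rw [h.interior_K]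
      exact ⟨hzK, hzJ⟩
    obtain ⟨U, hU, hzU⟩ := exists_fat hzi
    exact mem_iUnion.2 ⟨⟨U, hU⟩, hzU⟩
  obtain ⟨t, ht⟩ := hcomp.elim_finite_subcover (fun U : {U : Set ℂ // IsFat f U} => (U : Set ℂ))
    (fun U => U.2.isOpen) hsub
  refine (t.finite_toSet.image (fun U : {U : Set ℂ // IsFat f U} => (U : Set ℂ))).subset ?_
  rintro U ⟨hU, z, hzU, hz⟩
  have h1 := ht ⟨interior_subset (hU.sub_int hzU), hz⟩
  obtain ⟨V, hV⟩ := mem_iUnion.1 h1
  obtain ⟨hVt, hzV⟩ := mem_iUnion.1 hV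
  exact ⟨V, hVt, V.2.eq_of_meet hU ⟨z, hzV, hzU⟩⟩

theorem finite_pre (h : Hyp f J) (n : ℕ) (V : Set ℂ) :
    {U | IsFat f U ∧ (ev f)^[n] '' U = V}.Finite := by
  rcases eq_empty_or_nonempty {U | IsFat f U ∧ (ev f)^[n] '' U = V} with hE | ⟨U₀, hU₀, hV⟩
  · rw [hE]
    exact finite_empty
  · obtain ⟨z₀, hz₀⟩ := hU₀.isConnected.nonempty
    refine ((finite_fibre h.deg n ((ev f)^[n] z₀)).image
      (fun z => connectedComponentIn (interior (KSet f)) z)).subset ?_
    rintro U ⟨hU, hUV⟩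
    have h1 : (ev f)^[n] z₀ ∈ (ev f)^[n] '' U := by
      rw [hUV, ← hV]
      exact mem_image_of_mem _ hz₀
    obtain ⟨z, hz, hzz⟩ := h1
    have hzi := hU.sub_int hz
    refine ⟨z, hzz, ?_⟩
    have h2 : IsFat f (connectedComponentIn (interior (KSet f)) z) := ⟨z, hzi, rfl⟩
    exact h2.eq_of_meet hU ⟨z, mem_connectedComponentIn hzi, hz⟩

end Pool.Agent.JH
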