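import Pool.Agent.Lib.MP_8ebc20_an.LoopP

/-!
# FIB: the fibres of the loop under multiplication by the degree

PROOFS. `d = natDegree f`.  `fib_inj`: let `z = γ x = γ x'`.  `f` is injective on a neighbourhood of `z` (`no_crit`;
`HasStrictDerivAt` injectivity or `isOpenMap`...).  For small `s`, `EE s x` and `EE s x'` are in it (`lim`), and
`f (EE s x) = EE (d s) (d x) = EE (d s) (d x') = f (EE s x')` (`EE_it` with `n = 1`, `EE_int`).  So
`EE s x = EE s x'` and `EE_inj` gives the claim.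
`fib_lift`: let `z = γ x`, and `l` a continuous local inverse of `f` near `z`: defined near `f z`, `l (f z) = z`,
`f (l u) = u` (inverse function theorem).  For small `s = 1/(n+1)` the point `u_n = EE s y` is near `f z = γ y`
and not in `K`, so `p_n = l u_n ∉ K` (`ev_mem_K`), `p_n = EE σ_n τ_n` (`EE_surj`), and
`EE (d σ_n) (d τ_n) = EE s y` gives `σ_n = s / d` and `d τ_n = y + k_n`; write `k_n = d m_n + r_n`,
`0 ≤ r_n < d`: `p_n = EE (s/d) ((y + r_n)/d)`.  Some `r` occurs infinitely often (pigeonhole); along this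
subsequence `p_n → z` and `EE (s/d) ((y + r)/d) → γ ((y + r)/d)`.  So `x' = (y + r)/d` works.
`nonconst_fib`, not needed.
-/

set_option autoImplicit false

namespace Pool.Agent.JH

open Polynomial Set Metric Filter Topology

variable {f : ℂ[X]} {J : Set ℂ} {γ : ℝ → ℂ} {ψ ψi : ℂ → ℂ}

private theorem fib_inv (h : Hyp f J) {z : ℂ} (hz : z ∈ J) :
    ∃ e : OpenPartialHomeomorph ℂ ℂ, z ∈ e.source ∧ (∀ w, e w = ev f w) := by
  have h1 : HasStrictDerivAt (ev f) (f.derivative.eval z) z := f.hasStrictDerivAt z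
  have h2 := h1.hasStrictFDerivAt_equiv (h.no_crit hz)
  exact ⟨h2.toOpenPartialHomeomorph (ev f), h2.mem_toOpenPartialHomeomorph_source, fun w => rfl⟩

theorem IsLoop.fib_inj (hl : IsLoop f J ψ γ) (hE : ExtMap f ψ ψi) (h : Hyp f J) {x x' : ℝ}
    (hx : γ x = γ x') {k : ℤ} (hk : (f.natDegree : ℝ) * x' = f.natDegree * x + k) :
    ∃ n : ℤ, x' = x + n := by
  obtain ⟨e, hze, he⟩ := fib_inv h (hl.g_mem x)
  obtain ⟨ρ, hρ, hball⟩ := Metric.isOpen_iff.1 e.open_source _ hze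
  obtain ⟨s₀, hs₀, hlim⟩ := hl.lim ρ hρ
  have hs : 0 < s₀ / 2 := half_pos hs₀
  have hs' : s₀ / 2 < s₀ := half_lt_self hs₀
  have m1 : EE ψ (s₀ / 2) x ∈ e.source := hball (by
    rw [mem_ball, dist_eq_norm]
    exact hlim _ _ hs hs')
  have m2 : EE ψ (s₀ / 2) x' ∈ e.source := hball (by
    rw [mem_ball, dist_eq_norm, hx]
    exact hlim _ _ hs hs')
  have e1 := hE.EE_it h.deg hs x 1
  have e2 := hE.EE_it h.deg hs x' 1
  rw [Function.iterate_one, pow_one] at e1 e2
  have e3 : e (EE ψ (s₀ / 2) x) = e (EE ψ (s₀ / 2) x') := by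
    rw [he, he, e1, e2, hk, EE_int]
  exact (hE.EE_inj hs hs (e.injOn m1 m2 e3)).2

theorem IsLoop.fib_lift (hl : IsLoop f J ψ γ) (hE : ExtMap f ψ ψi) (h : Hyp f J) {x y : ℝ}
    (hy : γ y = ev f (γ x)) : ∃ (x' : ℝ) (k : ℤ), γ x' = γ x ∧ (f.natDegree : ℝ) * x' = y + k := by
  have hd := h.deg
  have hd0 : (0 : ℝ) < f.natDegree := by
    have : 0 < f.natDegree := by omega
    exact_mod_cast this
  suffices hs : ∃ r ∈ Finset.range f.natDegree, γ ((y + r) / f.natDegree) = γ x by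
    obtain ⟨r, -, hr⟩ := hs
    refine ⟨(y + r) / f.natDegree, r, hr, ?_⟩
    rw [mul_div_cancel₀ _ hd0.ne']
    push_cast
    rfl
  by_contra hcon
  push Not at hcon
  set S : Set ℂ := (fun r : ℕ => γ ((y + r) / f.natDegree)) '' ↑(Finset.range f.natDegree) with hS
  have hSf : S.Finite := (Finset.finite_toSet _).image _
  have hxS : γ x ∈ Sᶜ := by
    rintro ⟨r, hr, hrx⟩
    exact hcon r (Finset.mem_coe.1 hr) hrx
  obtain ⟨ε, hε, hball⟩ := Metric.isOpen_iff.1 hSf.isClosed.isOpen_compl _ hxS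
  obtain ⟨e, hze, he⟩ := fib_inv h (hl.g_mem x)
  have hft : e (γ x) ∈ e.target := e.map_source hze
  have hc : ContinuousAt e.symm (e (γ x)) := e.symm.continuousAt hft
  have hc2 : ∀ᶠ u in 𝓝 (e (γ x)), dist (e.symm u) (γ x) < ε / 2 := by
    have h1 := Metric.tendsto_nhds.1 hc (ε / 2) (half_pos hε)
    rwa [e.left_inv hze] at h1
  obtain ⟨η, hη, hηp⟩ := Metric.eventually_nhds_iff.1
    (hc2.and (e.open_target.mem_nhds hft))
  obtain ⟨s₁, hs₁, hlim₁⟩ := hl.lim (ε / 2) (half_pos hε)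
  obtain ⟨s₂, hs₂, hlim₂⟩ := hl.lim η hη
  set s : ℝ := min s₁ s₂ / 2 with hsdef
  have hmin : 0 < min s₁ s₂ := lt_min hs₁ hs₂
  have hs : 0 < s := half_pos hmin
  have hlt : s < min s₁ s₂ := half_lt_self hmin
  have hlt1 : s < s₁ := hlt.trans_le (min_le_left _ _)
  have hlt2 : s < s₂ := hlt.trans_le (min_le_right _ _)
  have hu : dist (EE ψ s y) (e (γ x)) < η := by
    rw [he, ← hy, dist_eq_norm]
    exact hlim₂ s y hs hlt2
  obtain ⟨hp1, hp2⟩ := hηp hu
  set p : ℂ := e.symm (EE ψ s y) with hpdef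
  have hfp : ev f p = EE ψ s y := by
    rw [← he, hpdef, e.right_inv hp2]
  have hpK : p ∈ (KSet f)ᶜ := by
    intro hK
    have h1 := (ev_mem_K hd).2 hK
    rw [hfp] at h1
    exact hE.EE_mem hs h1
  obtain ⟨σ, τ, hσ, -, hpe⟩ := hE.EE_surj hpK
  have e1 := hE.EE_it hd hσ τ 1
  rw [Function.iterate_one, pow_one, hpe, hfp] at e1
  obtain ⟨e2, k, hk⟩ := hE.EE_inj hs (mul_pos hd0 hσ) e1
  -- `d τ = y + k`
  have hdz : (0 : ℤ) < f.natDegree := by exact_mod_cast hd0
  have hr0 : 0 ≤ k % (f.natDegree : ℤ) := Int.emod_nonneg _ hdz.ne'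
  have hr1 : k % (f.natDegree : ℤ) < f.natDegree := Int.emod_lt_of_pos _ hdz
  obtain ⟨r, hr⟩ := Int.eq_ofNat_of_zero_le hr0
  have hrd : r < f.natDegree := by
    rw [hr] at hr1
    exact_mod_cast hr1
  have hkk : (k : ℝ) = f.natDegree * ((k / (f.natDegree : ℤ) : ℤ) : ℝ) + r := by
    have h1 := Int.mul_ediv_add_emod k (f.natDegree : ℤ)
    rw [hr] at h1
    have h2 : ((f.natDegree : ℤ) * (k / (f.natDegree : ℤ)) + (r : ℤ) : ℤ) = k := h1
    rw [← h2]
    push_cast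
    rw [h2]
  have hτ : τ = (y + r) / f.natDegree + ((k / (f.natDegree : ℤ) : ℤ) : ℝ) := by
    have h1 : τ = (y + k) / f.natDegree := by
      rw [eq_div_iff hd0.ne', ← hk]
      ring
    rw [h1, hkk]
    field_simp
    ring
  rw [hτ, EE_int] at hpe
  have hσ1 : σ < s₁ := by
    have h1 : σ ≤ f.natDegree * σ := by
      have h2 : (1 : ℝ) ≤ f.natDegree := by
        have : 1 ≤ f.natDegree := by omega
        exact_mod_cast this
      nlinarith
    rw [← e2] at h1
    exact h1.trans_lt hlt1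
  have h3 := hlim₁ σ ((y + r) / f.natDegree) hσ hσ1
  rw [hpe] at h3
  have h4 : γ ((y + r) / f.natDegree) ∈ ball (γ x) ε := by
    rw [mem_ball]
    calc dist (γ ((y + r) / f.natDegree)) (γ x)
        ≤ dist (γ ((y + r) / f.natDegree)) p + dist p (γ x) := dist_triangle _ _ _
      _ < ε := by
          rw [dist_comm _ p, dist_eq_norm p]
          linarith
  exact hball h4 ⟨r, Finset.mem_coe.2 (Finset.mem_range.2 hrd), rfl⟩

end Pool.Agent.JH
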