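import Pool.Agent.Lib.MP_8ebc20_an.FatMap1
import Pool.Agent.BB.Lift

/-!
# FIN0: diameters of the components which are mapped homeomorphically

PROOF of `lift_diam`.  `U` is a component, `V = f^[n] '' U`, no critical point of `f` in
`U, f U, ..., f^[n-1] U`, `V ⊆ {infDist · J < δ / 4}`, `IsDisc V χ χi`, and
`‖χ w - χ w'‖ < δ / 4` for `w, w'` in the disc with `‖w - w'‖ < η`.  By `BB.lift_convex` (with
`G = (ev f)^[n]`, `S = ball 0 1`, `Φ = χ`, `W = V`) there is `H` holomorphic on `ball 0 1` with values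
in `U`, `f^[n] (H w) = χ w`.  Its hypothesis: no point `w` of `V` is in `SingVals G U`: it is not a critical
value (chain rule), nor an asymptotic value: along a path `c` leaving all compact subsets of `U`, a limit
point of `c t` lies in `frontier U ⊆ J`, and its image under `f^[n]` is in `J` and equals
`w ∈ V`, impossible.  `H '' ball 0 1` is open (nonconstant) and closed in `U` (if `H w_k → u ∈ U` then
`χ w_k → f^[n] u ∈ V`, `w_k → χi (f^[n] u)` in the open disc), so it is `U`.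
If `‖w - w'‖ < η`, `w, w' ∈ ball 0 1`: take `x ∈ J` with `‖χ w - x‖ < δ / 4`; on the segment `χ` has values
in `ball x (δ / 2)`; with the branch `g` such that `g (χ w) = H w`, `IsBr.lift_eq` gives
`H = g ∘ χ` on the segment, and `contr`: `‖H w - H w'‖ ≤ C lam ^ n δ`.  Chain `M ≥ 2 / η + 1` steps.
-/

set_option autoImplicit false

namespace Pool.Agent.JH

open Polynomial Set Metric Filter Topology

variable {f : ℂ[X]} {J : Set ℂ} {γ : ℝ → ℂ} {ψ ψi : ℂ → ℂ} {δ C lam : ℝ} {U V : Set ℂ}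

private theorem fin0_differentiable_it (n : ℕ) : Differentiable ℂ ((ev f)^[n]) := by
  have h1 : Differentiable ℂ (ev f) := f.differentiable
  exact h1.iterate n

private theorem fin0_deriv_it (n : ℕ) (z : ℂ)
    (hc : ∀ j < n, f.derivative.eval ((ev f)^[j] z) ≠ 0) : deriv ((ev f)^[n]) z ≠ 0 := by
  induction n with
  | zero =>
    rw [Function.iterate_zero]
    have h1 : deriv (id : ℂ → ℂ) z = 1 := by simp
    rw [h1]
    exact one_ne_zero
  | succ n ih =>
    have h1 : (ev f)^[n + 1] = ev f ∘ (ev f)^[n] := Function.iterate_succ' _ _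
    have h2 : HasDerivAt (ev f) (f.derivative.eval ((ev f)^[n] z)) ((ev f)^[n] z) :=
      f.hasDerivAt _
    have h3 : HasDerivAt ((ev f)^[n]) (deriv ((ev f)^[n]) z) z :=
      (fin0_differentiable_it n z).hasDerivAt
    have h4 := h2.comp z h3
    rw [h1, h4.deriv]
    exact mul_ne_zero (hc n (Nat.lt_succ_self n)) (ih fun j hj => hc j (hj.trans (Nat.lt_succ_self n)))

private theorem fin0_nonsing (h : Hyp f J) {n : ℕ} (hU : IsFat f U)
    (hUV : (ev f)^[n] '' U = V)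
    (hc : ∀ j < n, ∀ z ∈ (ev f)^[j] '' U, f.derivative.eval z ≠ 0) :
    ∀ w ∈ V, w ∉ BB.SingVals ((ev f)^[n]) U := by
  intro w hw hs
  rcases hs with ⟨z, hz, hzw, hd⟩ | ⟨c, hcc, hcU, hcK, hcw⟩
  · exact fin0_deriv_it n z (fun j hj => hc j hj _ (mem_image_of_mem _ hz)) hd
  · have hcomp : IsCompact (closure U) := (hU.isBounded h.deg).isCompact_closure
    have hmem : ∀ᶠ t in 𝓝[<] (1 : ℝ), c t ∈ closure U := by
      filter_upwards [Ioo_mem_nhdsLT (zero_lt_one : (0 : ℝ) < 1)] with t ht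
      exact subset_closure (hcU t ⟨ht.1.le, ht.2⟩)
    obtain ⟨z, hz, hzc⟩ := hcomp.exists_mapClusterPt_of_frequently hmem.frequently
    have hzU : z ∉ U := by
      intro hzU
      obtain ⟨K, hK, hKU, hKc⟩ := (exists_compact_subset hU.isOpen hzU :
        ∃ K, IsCompact K ∧ z ∈ interior K ∧ K ⊆ U)
      have h1 := hzc.frequently (mem_interior_iff_mem_nhds.1 hKU)
      exact (h1.and_eventually (hcK K hKc hK)).exists.elim fun t ht => ht.2 ht.1
    have hzJ : z ∈ J := by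
      apply hU.frontier_sub h
      rw [hU.isOpen.frontier_eq]
      exact ⟨hz, hzU⟩
    have hGz : (ev f)^[n] z = w := by
      have h1 : MapClusterPt ((ev f)^[n] z) (𝓝[<] (1 : ℝ)) ((ev f)^[n] ∘ c) :=
        hzc.continuousAt_comp (continuous_it n).continuousAt
      have h3 : (𝓝 ((ev f)^[n] z) ⊓ map ((ev f)^[n] ∘ c) (𝓝[<] (1 : ℝ))).NeBot := h1
      have h4 : (𝓝 ((ev f)^[n] z) ⊓ 𝓝 w).NeBot := h3.mono (inf_le_inf_left _ hcw)
      exact eq_of_nhds_neBot h4
    have hwJ : w ∈ J := by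
      rw [← hGz]
      exact (h.it_mem_J n).2 hzJ
    have hVfat : IsFat f V := by
      rw [← hUV]
      exact hU.image_it h n
    exact disjoint_left.1 (hVfat.disj_J h) hw hwJ

private theorem fin0_exists_H (h : Hyp f J) {χ χi : ℂ → ℂ} (hχ : IsDisc V χ χi) {n : ℕ}
    (hU : IsFat f U) (hUV : (ev f)^[n] '' U = V)
    (hc : ∀ j < n, ∀ z ∈ (ev f)^[j] '' U, f.derivative.eval z ≠ 0) :
    ∃ H : ℂ → ℂ, ContinuousOn H (ball 0 1) ∧ (∀ w ∈ ball (0 : ℂ) 1, (ev f)^[n] (H w) = χ w) ∧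
      ∀ u ∈ U, ∃ w ∈ ball (0 : ℂ) 1, H w = u := by
  have hG : Differentiable ℂ ((ev f)^[n]) := fin0_differentiable_it n
  obtain ⟨z₀, hz₀⟩ := hU.isConnected.nonempty
  have hGV : ∀ z ∈ U, (ev f)^[n] z ∈ V := by
    intro z hz
    rw [← hUV]
    exact mem_image_of_mem _ hz
  have hball : ∀ v ∈ V, χi v ∈ ball (0 : ℂ) 1 ∧ χ (χi v) = v := by
    intro v hv
    obtain ⟨h1, h2⟩ := hχ.right v (subset_closure hv)
    refine ⟨?_, h2⟩
    rw [mem_ball_zero_iff]
    apply (hχ.inner _ h1).1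
    rw [h2]
    exact hv
  obtain ⟨H, hH1, hH2, hH3, hH4⟩ := BB.lift_convex hG hU.isOpen (fin0_nonsing h hU hUV hc)
    (convex_ball (0 : ℂ) 1) isOpen_ball hχ.hol (fun w hw => (hχ.inner w
      (ball_subset_closedBall hw)).2 (mem_ball_zero_iff.1 hw)) (hball _ (hGV z₀ hz₀)).1 hz₀
    (hball _ (hGV z₀ hz₀)).2.symm
  refine ⟨H, hH1.continuousOn, hH3, ?_⟩
  have hreg : ∀ z ∈ U, z ∈ BB.Lift.Reg ((ev f)^[n]) U := fun z hz =>
    ⟨hz, fin0_deriv_it n z fun j hj => hc j hj _ (mem_image_of_mem _ hz)⟩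
  have hpre : PreconnectedSpace U :=
    isPreconnected_iff_preconnectedSpace.1 hU.isConnected.isPreconnected
  let g : U → BB.Lift.Reg ((ev f)^[n]) U := fun u => ⟨u, hreg u u.2⟩
  let g' : U → BB.Lift.Reg ((ev f)^[n]) U := fun u =>
    ⟨H (χi ((ev f)^[n] u)), hreg _ (hH2 (hball _ (hGV u u.2)).1)⟩
  have hg : Continuous g := continuous_subtype_val.subtype_mk _
  have hg' : Continuous g' := by
    refine Continuous.subtype_mk ?_ _
    refine hH1.continuousOn.comp_continuous ?_ fun u => (hball _ (hGV u u.2)).1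
    refine (hχ.conti.mono subset_closure).comp_continuous ?_ fun u => hGV u u.2
    exact (continuous_it n).comp continuous_subtype_val
  have heq := (BB.Lift.isSeparatedMap_val (G := (ev f)^[n]) (U := U)).eq_of_comp_eq
    (BB.Lift.isLocalHomeomorph_val hG hU.isOpen).isLocallyInjective hg hg'
    (funext fun u => by
      have h1 := hH3 _ (hball _ (hGV u u.2)).1
      rw [(hball _ (hGV u u.2)).2] at h1
      exact h1.symm) ⟨z₀, hz₀⟩ (Subtype.ext hH4.symm)
  intro u hu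
  have h1 := congrArg Subtype.val (congrFun heq ⟨u, hu⟩)
  exact ⟨χi ((ev f)^[n] u), (hball _ (hGV u hu)).1, h1.symm⟩

theorem lift_diam (h : Hyp f J) (hr : HypRad f J δ C lam) {χ χi : ℂ → ℂ} (hχ : IsDisc V χ χi)
    {η : ℝ} (hη : 0 < η)
    (hη2 : ∀ w ∈ closedBall (0 : ℂ) 1, ∀ w' ∈ closedBall (0 : ℂ) 1, ‖w - w'‖ < η →
      ‖χ w - χ w'‖ < δ / 4)
    (hV : ∀ z ∈ V, infDist z J < δ / 4) :
    ∃ M : ℝ, ∀ (n : ℕ) (U : Set ℂ), IsFat f U → (ev f)^[n] '' U = V →
      (∀ j < n, ∀ z ∈ (ev f)^[j] '' U, f.derivative.eval z ≠ 0) →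
      ∀ z ∈ U, ∀ z' ∈ U, ‖z - z'‖ ≤ M * lam ^ n := by
  obtain ⟨m, hm⟩ := exists_nat_gt (2 / η)
  have hδ := hr.δpos
  have hm0 : (0 : ℝ) < m := (div_pos two_pos hη).trans hm
  refine ⟨m * (C * δ), fun n U hU hUV hc z hz z' hz' => ?_⟩
  obtain ⟨H, hH1, hH2, hH3⟩ := fin0_exists_H h hχ hU hUV hc
  obtain ⟨w, hw, rfl⟩ := hH3 z hz
  obtain ⟨w', hw', rfl⟩ := hH3 z' hz'
  have hstep : ∀ p ∈ ball (0 : ℂ) 1, ∀ q ∈ ball (0 : ℂ) 1, ‖p - q‖ < η →
      ‖H p - H q‖ ≤ C * lam ^ n * δ := by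
    intro p hp q hq hpq
    have hseg : segment ℝ p q ⊆ ball (0 : ℂ) 1 := (convex_ball (0 : ℂ) 1).segment_subset hp hq
    have hpV : χ p ∈ V := (hχ.inner p (ball_subset_closedBall hp)).2 (mem_ball_zero_iff.1 hp)
    obtain ⟨x, hx, hxd⟩ := (infDist_lt_iff h.J_nonempty).1 (hV _ hpV)
    have hb : ∀ s ∈ segment ℝ p q, ‖χ s - x‖ < δ / 2 := by
      intro s hs
      have h1 : ‖s - p‖ ≤ ‖q - p‖ := norm_sub_le_of_mem_segment hs
      have h2 : ‖s - p‖ < η := h1.trans_lt (by rwa [norm_sub_rev])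
      have h3 := hη2 s (ball_subset_closedBall (hseg hs)) p (ball_subset_closedBall hp) h2
      rw [dist_eq_norm] at hxd
      calc ‖χ s - x‖ = ‖(χ s - χ p) + (χ p - x)‖ := by congr 1; ring
        _ ≤ ‖χ s - χ p‖ + ‖χ p - x‖ := norm_add_le _ _
        _ < δ / 2 := by linarith
    obtain ⟨g, hg, hgp⟩ := hr.ex x hx n (χ p) (by
      rw [mem_ball, dist_eq_norm]
      linarith [hb p (left_mem_segment ℝ p q)]) (H p) (hH2 p hp)
    have h5 := hg.lift_eq (convex_segment p q).isPreconnected (hH1.mono hseg) (fun s hs => by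
      rw [hH2 s (hseg hs), mem_ball, dist_eq_norm]
      linarith [hb s hs]) (left_mem_segment ℝ p q) (by rw [hH2 p hp, hgp]) q
      (right_mem_segment ℝ p q)
    rw [hH2 q hq] at h5
    have h6 := hr.contr x hx n g hg (χ p) (by
      rw [mem_closedBall, dist_eq_norm]
      linarith [hb p (left_mem_segment ℝ p q)]) (χ q) (by
      rw [mem_closedBall, dist_eq_norm]
      linarith [hb q (right_mem_segment ℝ p q)])
    rw [← hgp, h5]
    refine h6.trans ?_
    have h7 := hη2 p (ball_subset_closedBall hp) q (ball_subset_closedBall hq) hpq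
    have h8 : 0 ≤ C * lam ^ n :=
      mul_nonneg (zero_le_one.trans hr.Cpos) (pow_nonneg hr.lpos.le n)
    exact mul_le_mul_of_nonneg_left (by linarith) h8
  let p : ℕ → ℂ := fun i => w + ((i : ℝ) / m : ℝ) • (w' - w)
  have hp : ∀ i ≤ m, p i ∈ ball (0 : ℂ) 1 := by
    intro i hi
    have h1 : (0 : ℝ) ≤ (i : ℝ) / m := by positivity
    have h2 : (i : ℝ) / m ≤ 1 := by
      rw [div_le_one hm0]
      exact_mod_cast hi
    have h3 := (convex_ball (0 : ℂ) 1) hw hw' (sub_nonneg.2 h2) h1 (by ring)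
    convert h3 using 1
    simp only [p]
    rw [smul_sub, sub_smul, one_smul]
    abel
  have hww : ‖w' - w‖ < 2 := by
    rw [mem_ball_zero_iff] at hw hw'
    calc ‖w' - w‖ ≤ ‖w'‖ + ‖w‖ := norm_sub_le _ _
      _ < 2 := by linarith
  have hpd : ∀ i, ‖p i - p (i + 1)‖ < η := by
    intro i
    have h1 : p i - p (i + 1) = -((1 / m : ℝ) • (w' - w)) := by
      simp only [p]
      push_cast
      rw [add_div, add_smul]
      abel
    rw [h1, norm_neg, norm_smul, Real.norm_of_nonneg (by positivity), one_div,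
      inv_mul_lt_iff₀ hm0]
    rw [div_lt_iff₀ hη] at hm
    linarith
  have hind : ∀ i ≤ m, ‖H (p 0) - H (p i)‖ ≤ i * (C * lam ^ n * δ) := by
    intro i
    induction i with
    | zero =>
      intro _
      simp
    | succ i ih =>
      intro hi
      have h1 := ih (by omega)
      have h2 := hstep (p i) (hp i (by omega)) (p (i + 1)) (hp (i + 1) hi) (hpd i)
      calc ‖H (p 0) - H (p (i + 1))‖ = ‖(H (p 0) - H (p i)) + (H (p i) - H (p (i + 1)))‖ := by
            congr 1; ring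
        _ ≤ ‖H (p 0) - H (p i)‖ + ‖H (p i) - H (p (i + 1))‖ := norm_add_le _ _
        _ ≤ i * (C * lam ^ n * δ) + C * lam ^ n * δ := add_le_add h1 h2
        _ = ((i + 1 : ℕ) : ℝ) * (C * lam ^ n * δ) := by push_cast; ring
  have h0 : p 0 = w := by simp [p]
  have h1 : p m = w' := by
    simp only [p]
    rw [div_self hm0.ne', one_smul]
    abel
  have h2 := hind m le_rfl
  rw [h0, h1] at h2
  calc ‖H w - H w'‖ ≤ m * (C * lam ^ n * δ) := h2
    _ = m * (C * δ) * lam ^ n := by ring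

end Pool.Agent.JH
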