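import Pool.Agent.Lib.MP_8ebc20_an.LoopP

/-!
# LODD: connectedness of `J`; odd polynomials

PROOFS. `conn_J`: `J = range γ` (`range_eq`), `isConnected_range`.
`odd`: let `s → 0+` in `EE s (t + 1/2) = -EE s t` (`lim`).
-/

set_option autoImplicit false

namespace Pool.Agent.JH

open Polynomial Set Metric Filter Topology

variable {f : ℂ[X]} {J : Set ℂ} {γ : ℝ → ℂ} {ψ ψi : ℂ → ℂ}

theorem IsLoop.conn_J (hl : IsLoop f J ψ γ) : IsConnected J := by
  rw [← hl.range_eq]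
  exact isConnected_range hl.cont

theorem IsLoop.odd (hl : IsLoop f J ψ γ)
    (ho : ∀ s t : ℝ, 0 < s → EE ψ s (t + 1 / 2) = -EE ψ s t) (t : ℝ) : γ (t + 1 / 2) = -γ t := by
  rw [← sub_eq_zero, ← norm_eq_zero]
  refine le_antisymm (le_of_forall_pos_le_add fun ε hε => ?_) (norm_nonneg _)
  obtain ⟨s₀, hs₀, h⟩ := hl.lim (ε / 2) (half_pos hε)
  have h1 := h (s₀ / 2) (t + 1 / 2) (half_pos hs₀) (half_lt_self hs₀)
  have h2 := h (s₀ / 2) t (half_pos hs₀) (half_lt_self hs₀)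
  rw [ho (s₀ / 2) t (half_pos hs₀)] at h1
  have h3 : γ (t + 1 / 2) - -γ t =
      -((-EE ψ (s₀ / 2) t - γ (t + 1 / 2)) + (EE ψ (s₀ / 2) t - γ t)) := by ring
  rw [h3, norm_neg]
  refine (norm_add_le _ _).trans ?_
  linarith

end Pool.Agent.JH
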