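import Pool.Agent.Lib.MP_8ebc20_an.Loop1

/-!
# LOOP: the Caratheodory loop

PROOF of `exists_loop`.  By `exists_cauchy` the sequence `EE (1 / (k + 1)) t` is Cauchy for every `t`; let `γ t` be its
limit.  `lim`: let `k → ∞` in `‖EE s t - EE (1 / (k + 1)) t‖ ≤ ε / 2`.  `cont`: `γ` is a uniform
limit of the continuous functions `t ↦ EE s t` (`EE_cont`); `per`: `EE_per`; `conj`: let `s → 0+` in
`(ev f) (EE s t) = EE (d s) (d t)` (`EE_it` with `n = 1`); values in `J`: `EE_near` and `J` closed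
(`isCompact_J`); onto: let `x ∈ J`, `z_k ∉ K`, `z_k → x` (`exists_near`), `z_k = EE s_k t_k` with
`t_k ∈ [0, 1)` (`EE_surj`); `s_k → 0` by `lev_small` (`x ∈ K`); take a limit point `t` of `t_k`:
`‖γ t_k - z_k‖ → 0` along the subsequence, so `γ t = x`.
-/

set_option autoImplicit false

namespace Pool.Agent.JH

open Polynomial Set Metric Filter Topology

variable {f : ℂ[X]} {J : Set ℂ} {ψ ψi : ℂ → ℂ} {δ C lam : ℝ}

theorem ExtMap.exists_loop (hE : ExtMap f ψ ψi) (h : Hyp f J) (hr : HypRad f J δ C lam) :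
    ∃ γ : ℝ → ℂ, IsLoop f J ψ γ := by
  have hd0 : 0 < (f.natDegree : ℝ) := by
    have h1 : 0 < f.natDegree := lt_of_lt_of_le (by norm_num) h.deg
    exact_mod_cast h1
  have hpos : ∀ k : ℕ, (0 : ℝ) < 1 / ((k : ℝ) + 1) := fun k => by positivity
  have hlim0 : Tendsto (fun k : ℕ => (1 : ℝ) / ((k : ℝ) + 1)) atTop (𝓝 0) :=
    tendsto_one_div_add_atTop_nhds_zero_nat
  have hc : ∀ t : ℝ, ∃ y : ℂ, Tendsto (fun k : ℕ => EE ψ (1 / ((k : ℝ) + 1)) t) atTop (𝓝 y) := by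
    intro t
    refine cauchySeq_tendsto_of_complete (Metric.cauchySeq_iff.2 fun ε hε => ?_)
    obtain ⟨s₁, hs₁, hh⟩ := hE.exists_cauchy h hr (half_pos hε)
    obtain ⟨N, hN⟩ := (Filter.eventually_atTop.1 (hlim0.eventually_lt_const hs₁))
    refine ⟨N, fun m hm n hn => ?_⟩
    rw [dist_eq_norm]
    exact (hh _ _ t (hpos m) (hN m hm).le (hpos n) (hN n hn).le).trans_lt (half_lt_self hε)
  choose γ hγ using hc
  have hlim : ∀ ε : ℝ, 0 < ε → ∃ s₀ : ℝ, 0 < s₀ ∧ ∀ s t : ℝ, 0 < s → s < s₀ →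
      ‖EE ψ s t - γ t‖ < ε := by
    intro ε hε
    obtain ⟨s₁, hs₁, hh⟩ := hE.exists_cauchy h hr (half_pos hε)
    refine ⟨s₁, hs₁, fun s t hs hss => ?_⟩
    have h1 : Tendsto (fun k : ℕ => ‖EE ψ s t - EE ψ (1 / ((k : ℝ) + 1)) t‖) atTop
        (𝓝 ‖EE ψ s t - γ t‖) := (tendsto_const_nhds.sub (hγ t)).norm
    have h2 : ∀ᶠ k : ℕ in atTop, ‖EE ψ s t - EE ψ (1 / ((k : ℝ) + 1)) t‖ ≤ ε / 2 := by
      filter_upwards [hlim0.eventually_lt_const hs₁] with k hk
      exact hh s _ t hs hss.le (hpos k) hk.le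
    exact (le_of_tendsto h1 h2).trans_lt (half_lt_self hε)
  have hcs : ∀ s : ℝ, 0 < s → Continuous fun t => EE ψ s t := by
    intro s hs
    have h1 := hE.EE_cont
    rw [← continuousOn_univ]
    exact h1.comp (f := fun t : ℝ => (s, t)) (Continuous.continuousOn (by fun_prop))
      (fun t _ => hs)
  have hcont : Continuous γ := by
    have hu : TendstoUniformly (fun (k : ℕ) (t : ℝ) => EE ψ (1 / ((k : ℝ) + 1)) t) γ atTop := by
      rw [Metric.tendstoUniformly_iff]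
      intro ε hε
      obtain ⟨s₀, hs₀, hh⟩ := hlim ε hε
      filter_upwards [hlim0.eventually_lt_const hs₀] with k hk t
      rw [dist_comm, dist_eq_norm]
      exact hh _ t (hpos k) hk
    exact hu.continuous (Filter.Frequently.of_forall fun k => hcs _ (hpos k))
  have hsub : ∀ t, γ t ∈ J := by
    intro t
    refine h.isCompact_J.isClosed.closure_subset (Metric.mem_closure_iff.2 fun ε hε => ?_)
    obtain ⟨s₀, hs₀, hh⟩ := hlim (ε / 2) (half_pos hε)
    obtain ⟨s₁, hs₁, hh1⟩ := hE.EE_near h (half_pos hε)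
    have hm : 0 < min s₀ s₁ / 2 := by positivity
    have hm0 : min s₀ s₁ / 2 < s₀ := by
      have := min_le_left s₀ s₁
      linarith
    have hm1 : min s₀ s₁ / 2 < s₁ := by
      have := min_le_right s₀ s₁
      linarith
    obtain ⟨x, hx, hx1⟩ := hh1 (min s₀ s₁ / 2) t hm hm1
    have h2 := hh (min s₀ s₁ / 2) t hm hm0
    refine ⟨x, hx, ?_⟩
    rw [dist_eq_norm]
    have h3 : γ t - x = -(EE ψ (min s₀ s₁ / 2) t - γ t) + (EE ψ (min s₀ s₁ / 2) t - x) := by ring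
    rw [h3]
    refine (norm_add_le _ _).trans_lt ?_
    rw [norm_neg]
    linarith
  refine ⟨γ, hcont, ?_, ?_, ?_, hlim⟩
  · intro t
    have h1 := hγ (t + 1)
    simp only [EE_per] at h1
    exact tendsto_nhds_unique h1 (hγ t)
  · refine Subset.antisymm (range_subset_iff.2 hsub) ?_
    intro x hx
    have hz : ∀ k : ℕ, ∃ z ∈ (KSet f)ᶜ, ‖z - x‖ < 1 / ((k : ℝ) + 1) :=
      fun k => h.exists_near hx (hpos k)
    choose z hzK hzx using hz
    have hst : ∀ k : ℕ, ∃ s t : ℝ, 0 < s ∧ t ∈ Ico (0 : ℝ) 1 ∧ EE ψ s t = z k :=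
      fun k => hE.EE_surj (hzK k)
    choose s t hs ht hst using hst
    have hzl : Tendsto z atTop (𝓝 x) := by
      rw [tendsto_iff_norm_sub_tendsto_zero]
      exact squeeze_zero (fun k => norm_nonneg _) (fun k => (hzx k).le) hlim0
    have hsl : ∀ η : ℝ, 0 < η → ∀ᶠ k in atTop, s k < η := by
      intro η hη
      obtain ⟨ρ, hρ, hh⟩ := hE.lev_small h.deg hη
      filter_upwards [hlim0.eventually_lt_const hρ] with k hk
      refine hh (s k) (t k) (hs k) ⟨x, h.J_sub_K hx, ?_⟩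
      rw [hst k]
      exact (hzx k).trans hk
    obtain ⟨t₀, -, φ, hφ, hφt⟩ := isCompact_Icc.tendsto_subseq
      (fun k => (⟨(ht k).1, (ht k).2.le⟩ : t k ∈ Icc (0 : ℝ) 1))
    have h1 : Tendsto (fun k => γ (t (φ k))) atTop (𝓝 (γ t₀)) :=
      (hcont.tendsto t₀).comp hφt
    have h2 : Tendsto (fun k => z k - γ (t k)) atTop (𝓝 0) := by
      rw [Metric.tendsto_atTop]
      intro ε hε
      obtain ⟨s₀, hs₀, hh⟩ := hlim ε hε
      obtain ⟨N, hN⟩ := Filter.eventually_atTop.1 (hsl s₀ hs₀)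
      refine ⟨N, fun k hk => ?_⟩
      rw [dist_zero_right, ← hst k]
      exact hh (s k) (t k) (hs k) (hN k hk)
    have h3 : Tendsto (fun k => z (φ k) - γ (t (φ k))) atTop (𝓝 0) := h2.comp hφ.tendsto_atTop
    have h4 : Tendsto (fun k => z (φ k)) atTop (𝓝 x) := hzl.comp hφ.tendsto_atTop
    have h5 : Tendsto (fun k => z (φ k) - (z (φ k) - γ (t (φ k)))) atTop (𝓝 (x - 0)) := h4.sub h3
    rw [sub_zero] at h5
    have h6 : (fun k => z (φ k) - (z (φ k) - γ (t (φ k)))) = fun k => γ (t (φ k)) := by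
      funext k
      ring
    rw [h6] at h5
    exact ⟨t₀, tendsto_nhds_unique h1 h5⟩
  · intro t
    have h1 : Tendsto (fun k : ℕ => ev f (EE ψ (1 / ((k : ℝ) + 1)) t)) atTop (𝓝 (ev f (γ t))) :=
      ((continuous_ev (f := f)).tendsto _).comp (hγ t)
    have h2 : ∀ k : ℕ, ev f (EE ψ (1 / ((k : ℝ) + 1)) t) =
        EE ψ ((f.natDegree : ℝ) * (1 / ((k : ℝ) + 1))) ((f.natDegree : ℝ) * t) := by
      intro k
      have h3 := hE.EE_it h.deg (hpos k) t 1
      rw [Function.iterate_one, pow_one] at h3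
      exact h3
    simp only [h2] at h1
    have h4 : Tendsto (fun k : ℕ => (f.natDegree : ℝ) * (1 / ((k : ℝ) + 1))) atTop (𝓝 0) := by
      have := hlim0.const_mul (f.natDegree : ℝ)
      rwa [mul_zero] at this
    have h5 : Tendsto (fun k : ℕ => EE ψ ((f.natDegree : ℝ) * (1 / ((k : ℝ) + 1)))
        ((f.natDegree : ℝ) * t)) atTop (𝓝 (γ ((f.natDegree : ℝ) * t))) := by
      rw [Metric.tendsto_atTop]
      intro ε hε
      obtain ⟨s₀, hs₀, hh⟩ := hlim ε hε
      obtain ⟨N, hN⟩ := Filter.eventually_atTop.1 (h4.eventually_lt_const hs₀)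
      refine ⟨N, fun k hk => ?_⟩
      rw [dist_eq_norm]
      exact hh _ _ (mul_pos hd0 (hpos k)) (hN k hk)
    exact tendsto_nhds_unique h5 h1

end Pool.Agent.JH
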