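import Pool.Agent.Lib.MP_8ebc20_an.LocInv
import Pool.Agent.Lib.MP_8ebc20_an.Fib

/-!
# ORDER: multiplication by the degree preserves the cyclic order of a fibre

PROOF of `order`.  `d = natDegree f`.  By `fib_inj` the numbers `d s`, `d u`, `d t` are pairwise different mod `1`.  Put
`s' = d s`, and choose integers with `u' = d u + m`, `t' = d t + n` in `(s', s' + 1)`.  Suppose that not
`u' < t'`, so `t' < u' < s' + 1`.  Let `η` be given by `loc_inv` for `s, t`.  Choose `0 < σ < 1/d` with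
`‖EE σ u - γ s‖ < η` and `‖EE σ s - γ s‖ < η` (`lim`), and then `δ > 0` with `‖EE σ (s + δ) - γ s‖ < η`, `s + δ < t`,
`s' + d δ < t'` (`EE_cont`).  Apply `loc_inv` to `p = EE σ u`, `p' = EE σ (s + δ)`: `v = v' = 2 π I` (`Lam_in`);
`f p = EE (d σ) (d u) = EE (d σ) u'`, so `w = 0` (`Lam_out`); `f p' = EE (d σ) (s' + d δ)`, so `w' = 2 π I`
(`Lam_in`): contradiction.
-/

set_option autoImplicit false

namespace Pool.Agent.JH

open Polynomial Set Metric Filter Topology

variable {f : ℂ[X]} {J : Set ℂ} {γ : ℝ → ℂ} {ψ ψi : ℂ → ℂ}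

/-- representatives mod `1` in the open unit interval to the right of `a` -/
private theorem order_rep {a b : ℝ} (hab : ∀ n : ℤ, b + n ≠ a) :
    ∃ m : ℤ, a < b + m ∧ b + m < a + 1 := by
  refine ⟨⌊a - b⌋ + 1, ?_, ?_⟩
  · push_cast
    linarith [Int.lt_floor_add_one (a - b)]
  · push_cast
    have h1 : (⌊a - b⌋ : ℝ) ≤ a - b := Int.floor_le _
    have h2 := hab ⌊a - b⌋
    rcases lt_or_eq_of_le h1 with h3 | h3
    · linarith
    · exfalso
      apply h2
      rw [h3]; ring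

theorem IsLoop.order (hl : IsLoop f J ψ γ) (hE : ExtMap f ψ ψi) (h : Hyp f J) {s u t : ℝ}
    (hsu : s < u) (hut : u < t) (hts : t < s + 1) (h1 : γ s = γ u) (h2 : γ u = γ t) :
    ∃ m n : ℤ, (f.natDegree : ℝ) * s < f.natDegree * u + m ∧
      (f.natDegree : ℝ) * u + m < f.natDegree * t + n ∧
      (f.natDegree : ℝ) * t + n < f.natDegree * s + 1 := by
  have hd : (0 : ℝ) < f.natDegree := by
    have := h.deg
    exact_mod_cast (by omega : 0 < f.natDegree)
  set d : ℝ := (f.natDegree : ℝ) with hdd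
  have hne : ∀ x y : ℝ, x < y → y < x + 1 → γ x = γ y → ∀ n : ℤ, d * y + n ≠ d * x := by
    intro x y hxy hyx hγ n hn
    obtain ⟨m, hm⟩ := hl.fib_inj hE h hγ (k := -n) (by push_cast; linarith)
    have h3 : (0 : ℝ) < m := by linarith
    have h4 : (m : ℝ) < 1 := by linarith
    have h5 : 0 < m := by exact_mod_cast h3
    have h6 : m < 1 := by exact_mod_cast h4
    omega
  obtain ⟨m, hm1, hm2⟩ := order_rep (hne s u hsu (by linarith) h1)
  obtain ⟨n, hn1, hn2⟩ := order_rep (hne s t (hsu.trans hut) hts (h1.trans h2))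
  refine ⟨m, n, hm1, ?_, hn2⟩
  by_contra hcon
  rw [not_lt] at hcon
  have hne' : d * t + n ≠ d * u + m := by
    intro heq
    exact hne u t hut (by linarith) h2 (n - m) (by push_cast; linarith)
  have hlt : d * t + n < d * u + m := lt_of_le_of_ne hcon hne'
  obtain ⟨η, hη0, hη⟩ := hl.loc_inv hE h (s := s) (t := t) (s' := d * s) (t' := d * t + n)
    (m := 0) (n := n) (hsu.trans hut) hts (h1.trans h2) (by simp [hdd]) rfl hn1 hn2
  obtain ⟨s₀, hs₀, hlim⟩ := hl.lim η hη0
  set σ : ℝ := min (s₀ / 2) (1 / (2 * d)) with hσ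
  have hσ0 : 0 < σ := by rw [hσ]; positivity
  have hσs : σ < s₀ := lt_of_le_of_lt (min_le_left _ _) (by linarith)
  have hσd : d * σ < 1 := by
    have h3 : σ ≤ 1 / (2 * d) := min_le_right _ _
    have h4 : d * σ ≤ d * (1 / (2 * d)) := mul_le_mul_of_nonneg_left h3 hd.le
    have h5 : d * (1 / (2 * d)) = 1 / 2 := by field_simp
    linarith
  have hd1 : (1 : ℝ) ≤ d := by
    have := h.deg
    rw [hdd]
    exact_mod_cast (by omega : 1 ≤ f.natDegree)
  have hσ1 : σ < 1 := by
    have : σ ≤ d * σ := by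
      have := mul_le_mul_of_nonneg_right hd1 hσ0.le
      linarith
    linarith
  have hpu : ‖EE ψ σ u - γ s‖ < η := by rw [h1]; exact hlim σ u hσ0 hσs
  have hps : ‖EE ψ σ s - γ s‖ < η := hlim σ s hσ0 hσs
  -- choose `δ`
  have hcont : ContinuousAt (fun v : ℝ => ‖EE ψ σ (s + v) - γ s‖) 0 := by
    have hc : ContinuousAt (fun p : ℝ × ℝ => EE ψ p.1 p.2) (σ, s + 0) :=
      (hE.EE_cont).continuousAt ((isOpen_lt continuous_const continuous_fst).mem_nhds hσ0)
    have hc2 : ContinuousAt (fun v : ℝ => ((σ, s + v) : ℝ × ℝ)) 0 := by fun_prop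
    have hc3 : ContinuousAt (fun v : ℝ => EE ψ σ (s + v)) 0 :=
      ContinuousAt.comp (f := fun v : ℝ => ((σ, s + v) : ℝ × ℝ)) (x := (0 : ℝ)) hc hc2
    exact (hc3.sub continuousAt_const).norm
  have hev : ∀ᶠ v in 𝓝 (0 : ℝ), ‖EE ψ σ (s + v) - γ s‖ < η := by
    apply hcont.eventually (gt_mem_nhds _)
    simpa using hps
  have hev2 : ∀ᶠ v in 𝓝 (0 : ℝ), s + v < t ∧ d * s + d * v < d * t + n := by
    apply Filter.Eventually.and
    · have : ContinuousAt (fun v : ℝ => s + v) 0 := by fun_prop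
      exact this.eventually (gt_mem_nhds (by simp only [add_zero]; exact hsu.trans hut))
    · have : ContinuousAt (fun v : ℝ => d * s + d * v) 0 := by fun_prop
      exact this.eventually (gt_mem_nhds (by simp only [mul_zero, add_zero]; exact hn1))
  obtain ⟨κ, hκ0, hκ⟩ := Metric.eventually_nhds_iff.1 (hev.and hev2)
  set δ : ℝ := κ / 2 with hδ
  have hδ0 : 0 < δ := by positivity
  obtain ⟨hδ1, hδ2, hδ3⟩ := hκ (y := δ) (by
    rw [Real.dist_eq, sub_zero, abs_of_pos hδ0]; linarith)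
  have hst : γ s = γ t := h1.trans h2
  have hst' : γ (d * s) = γ (d * t + n) := by
    rw [hl.g_int, hdd, hl.conj, hl.conj, hst]
  have hdσ0 : 0 < d * σ := mul_pos hd hσ0
  -- images
  have him : ∀ v : ℝ, ev f (EE ψ σ v) = EE ψ (d * σ) (d * v) := by
    intro v
    have := hE.EE_it h.deg hσ0 v 1
    simpa using this
  have hv := hl.Lam_in hE h (a := s) (c := t) (S := 1) (s := σ) (t := u) (hsu.trans hut) hts hst hσ0
    hσ1 hsu hut
  have hv' := hl.Lam_in hE h (a := s) (c := t) (S := 1) (s := σ) (t := s + δ) (hsu.trans hut) hts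
    hst hσ0 hσ1 (by linarith) hδ2
  have hw := hl.Lam_out hE h (a := d * s) (c := d * t + n) (S := 1) (s := d * σ) (t := d * u + m)
    hn1 hn2 hst' hdσ0 hσd hlt hm2
  have hw' := hl.Lam_in hE h (a := d * s) (c := d * t + n) (S := 1) (s := d * σ)
    (t := d * s + d * δ) hn1 hn2 hst' hdσ0 hσd (by linarith [mul_pos hd hδ0]) hδ3
  have e1 : EE ψ (d * σ) (d * u + m) = ev f (EE ψ σ u) := by rw [EE_int, him]
  have e2 : EE ψ (d * σ) (d * s + d * δ) = ev f (EE ψ σ (s + δ)) := by rw [him, mul_add]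
  rw [e1] at hw
  rw [e2] at hw'
  have := hη _ _ _ _ _ _ hpu hδ1 hv hv' hw hw'
  have hpi : (2 * (Real.pi : ℂ) * Complex.I) ≠ 0 := Complex.two_pi_I_ne_zero
  apply hpi
  linear_combination this

end Pool.Agent.JH
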