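import Pool.Agent.Lib.MP_8ebc20_an.Lam

/-!
# UNL: leaves do not cross

PROOFS. `unlinked`: suppose `a < b < c < e < a + 1`, `γ a = γ c = x`, `γ b = γ e = y ≠ x`.  Take the
closed path `Λ = Lam 1 a c`, and the connected set `T` = the union of `{EE σ b | 0 < σ ≤ 1/2}`, `{y}` and
`{EE σ e | 0 < σ ≤ 1/2}` (images of `Icc 0 (1/2)` under `EB · b`, `EB · e`, which both contain `y`).  It misses
`Λ` (`Lam_range`, `EE_inj`, `y ≠ x`, levels `< 1`), so by `Chg.move` the winding numbers of `Λ`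
about the two points `EE (1/2) b` and `EE (1/2) e` of `T` agree (`Chg.unique`), but they are `2 π I` (`Lam_in`) and `0` (`Lam_out`).
`noncross`: `P ∪ {γ θ, γ θ'}` is preconnected (between `P` and `closure P`; `IsPreconnected.subset_closure`), and
`T` is the union of it and of the images of `Icc 0 (1/2)` under `EB · θ` and `EB · θ'`; it is preconnected and misses
`Lam 1 s t` if `γ s ≠ γ θ, γ θ'`: points of `interior K` are not in `J` nor in `Kᶜ`.
-/

set_option autoImplicit false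

namespace Pool.Agent.JH

open Polynomial Set Metric Filter Topology

variable {f : ℂ[X]} {J : Set ℂ} {γ : ℝ → ℂ} {ψ ψi : ℂ → ℂ}

private theorem unl_EB_pos {s t : ℝ} (hs : 0 < s) : EB ψ γ s t = EE ψ s t := by
  unfold EB
  rw [if_pos hs]

private theorem unl_EB_zero {t : ℝ} : EB ψ γ 0 t = γ t := by
  unfold EB
  rw [if_neg (lt_irrefl _)]

private theorem unl_ray (hl : IsLoop f J ψ γ) (hE : ExtMap f ψ ψi) (θ : ℝ) :
    IsPreconnected ((fun u => EB ψ γ u θ) '' Icc 0 (1 / 2)) := by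
  refine isPreconnected_Icc.image _ ?_
  have h1 : ContinuousOn (fun u : ℝ => ((u, θ) : ℝ × ℝ)) (Icc 0 (1 / 2)) := by fun_prop
  exact (hl.EB_cont hE).comp h1 fun u hu => hu.1

/-- the rays of angle `θ` below level `1/2` miss the path `Lam 1 a c` -/
private theorem unl_miss (hl : IsLoop f J ψ γ) (hE : ExtMap f ψ ψi) (h : Hyp f J) {a c θ : ℝ}
    (hac : a < c) (hγ : γ a = γ c) (h1 : ∀ n : ℤ, θ ≠ a + n) (h2 : ∀ n : ℤ, θ ≠ c + n)
    (h3 : γ a ≠ γ θ) : ∀ u ∈ Icc 0 (2 * 1 + (c - a)),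
      Lam ψ γ 1 a c u ∉ (fun u => EB ψ γ u θ) '' Icc 0 (1 / 2) := by
  rintro u hu ⟨σ, hσ, hσe⟩
  simp only at hσe
  have hJ : ∀ t s r : ℝ, 0 < s → γ t ≠ EE ψ s r := fun t s r hs heq =>
    hE.EE_mem (s := s) (t := r) hs (heq ▸ h.J_sub_K (hl.g_mem t))
  rcases hσ.1.eq_or_lt with h4 | h4
  · rw [← h4, unl_EB_zero] at hσe
    rcases Lam_range (ψ := ψ) (γ := γ) one_pos hac hu with h5 | h5 | ⟨s, hs, -, h5⟩ |
      ⟨s, hs, -, h5⟩ | ⟨v, -, -, h5⟩
    · exact h3 (h5.symm.trans hσe.symm)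
    · exact h3 (hγ.trans (h5.symm.trans hσe.symm))
    · exact hJ _ _ _ hs (hσe.trans h5)
    · exact hJ _ _ _ hs (hσe.trans h5)
    · exact hJ _ _ _ one_pos (hσe.trans h5)
  · rw [unl_EB_pos h4] at hσe
    rcases Lam_range (ψ := ψ) (γ := γ) one_pos hac hu with h5 | h5 | ⟨s, hs, -, h5⟩ |
      ⟨s, hs, -, h5⟩ | ⟨v, -, -, h5⟩
    · exact hJ _ _ _ h4 (h5.symm.trans hσe.symm)
    · exact hJ _ _ _ h4 (h5.symm.trans hσe.symm)
    · obtain ⟨-, n, hn⟩ := hE.EE_inj hs h4 (h5.symm.trans hσe.symm)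
      exact h1 n hn
    · obtain ⟨-, n, hn⟩ := hE.EE_inj hs h4 (h5.symm.trans hσe.symm)
      exact h2 n hn
    · obtain ⟨h6, -⟩ := hE.EE_inj one_pos h4 (h5.symm.trans hσe.symm)
      have := hσ.2
      rw [← h6] at this
      norm_num at this

private theorem unl_core (hl : IsLoop f J ψ γ) (hE : ExtMap f ψ ψi) (h : Hyp f J)
    {a c θ θ' : ℝ} (hac : a < c) (hca : c < a + 1) (hγ : γ a = γ c) (h1 : a < θ) (h2 : θ < c)
    (h3 : c < θ') (h4 : θ' < a + 1) {T : Set ℂ} (hT : IsPreconnected T)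
    (hθ : EE ψ (1 / 2) θ ∈ T) (hθ' : EE ψ (1 / 2) θ' ∈ T)
    (hd : ∀ u ∈ Icc 0 (2 * 1 + (c - a)), Lam ψ γ 1 a c u ∉ T) : False := by
  have e0 : (0 : ℝ) < 1 / 2 := by norm_num
  have e1 : (1 / 2 : ℝ) < 1 := by norm_num
  have hin := hl.Lam_in hE h hac hca hγ e0 e1 h1 h2
  have hout := hl.Lam_out hE h hac hca hγ e0 e1 h3 h4
  have hle : (0 : ℝ) ≤ 2 * 1 + (c - a) := by linarith
  have hcl : Lam ψ γ 1 a c 0 = Lam ψ γ 1 a c (2 * 1 + (c - a)) := by
    rw [Lam_zero one_pos, Lam_end one_pos hac, hγ]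
  have hmv := Chg.move hle (hl.Lam_cont hE one_pos hac) hcl hT hd hθ hθ' hin
  exact Complex.two_pi_I_ne_zero (Chg.unique hle hmv hout)

private theorem unl_int {x y : ℝ} (h1 : x < y) (h2 : y < x + 1) (n : ℤ) : y ≠ x + n := by
  intro h3
  have h4 : (0 : ℝ) < n := by linarith
  have h5 : (n : ℝ) < 1 := by linarith
  have h6 : 0 < n := by exact_mod_cast h4
  have h7 : n < 1 := by exact_mod_cast h5
  omega

private theorem unl_int' {x y : ℝ} (h1 : x < y) (h2 : y < x + 1) (n : ℤ) : x ≠ y + n := by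
  intro h3
  refine unl_int h1 h2 (-n) ?_
  push_cast
  linarith

theorem IsLoop.unlinked (hl : IsLoop f J ψ γ) (hE : ExtMap f ψ ψi) (h : Hyp f J) {a b c e : ℝ}
    (hab : a < b) (hbc : b < c) (hce : c < e) (hea : e < a + 1) (hac : γ a = γ c)
    (hbe : γ b = γ e) : γ a = γ b := by
  by_contra hne
  have hbe' : γ a ≠ γ e := by rwa [← hbe]
  refine unl_core hl hE h (hab.trans hbc) (by linarith) hac hab hbc hce hea
    (T := (fun u => EB ψ γ u b) '' Icc 0 (1 / 2) ∪ (fun u => EB ψ γ u e) '' Icc 0 (1 / 2))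
    ?_ ?_ ?_ ?_
  · refine IsPreconnected.union (γ b) ⟨0, ⟨le_rfl, by norm_num⟩, unl_EB_zero⟩
      ⟨0, ⟨le_rfl, by norm_num⟩, ?_⟩ (unl_ray hl hE b) (unl_ray hl hE e)
    simp only [unl_EB_zero, hbe]
  · exact Or.inl ⟨1 / 2, ⟨by norm_num, le_rfl⟩, unl_EB_pos (by norm_num)⟩
  · exact Or.inr ⟨1 / 2, ⟨by norm_num, le_rfl⟩, unl_EB_pos (by norm_num)⟩
  · rintro u hu (hm | hm)
    · exact unl_miss hl hE h (hab.trans hbc) hac (unl_int hab (by linarith))
        (unl_int' hbc (by linarith)) hne u hu hm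
    · exact unl_miss hl hE h (hab.trans hbc) hac (unl_int (by linarith) hea)
        (unl_int hce (by linarith)) hbe' u hu hm

/-- a leaf does not separate two boundary points of a connected set `P` in the interior of `K`, unless it
ends at one of these points -/
theorem IsLoop.noncross (hl : IsLoop f J ψ γ) (hE : ExtMap f ψ ψi) (h : Hyp f J) {s θ t θ' : ℝ}
    (h1 : s < θ) (h2 : θ < t) (h3 : t < θ') (h4 : θ' < s + 1) (hst : γ s = γ t) {P : Set ℂ}
    (hP : IsPreconnected P) (hPK : P ⊆ interior (KSet f)) (hθ : γ θ ∈ closure P)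
    (hθ' : γ θ' ∈ closure P) : γ s = γ θ ∨ γ s = γ θ' := by
  by_contra hcon
  push Not at hcon
  obtain ⟨hne, hne'⟩ := hcon
  have hP' : IsPreconnected (P ∪ {γ θ, γ θ'}) := by
    refine hP.subset_closure subset_union_left ?_
    refine union_subset subset_closure ?_
    rintro z (rfl | rfl)
    · exact hθ
    · exact hθ'
  have hray : ∀ u ∈ Icc 0 (2 * 1 + (t - s)), Lam ψ γ 1 s t u ∉ P ∪ {γ θ, γ θ'} := by
    rintro u hu (hm | hm)
    · have hK := interior_subset (hPK hm)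
      have hJ : ∀ r : ℝ, Lam ψ γ 1 s t u ≠ γ r := by
        intro r hr
        have h5 := hPK hm
        rw [h.interior_K, hr] at h5
        exact h5.2 (hl.g_mem r)
      rcases Lam_range (ψ := ψ) (γ := γ) one_pos (h1.trans h2) hu with h5 | h5 |
        ⟨s', hs, -, h5⟩ | ⟨s', hs, -, h5⟩ | ⟨v, -, -, h5⟩
      · exact hJ _ h5
      · exact hJ _ h5
      · rw [h5] at hK
        exact hE.EE_mem hs hK
      · rw [h5] at hK
        exact hE.EE_mem hs hK
      · rw [h5] at hK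
        exact hE.EE_mem one_pos hK
    · have hcase : ∃ r, Lam ψ γ 1 s t u = γ r ∧ γ s ≠ γ r := by
        rcases hm with hm | hm
        · exact ⟨θ, hm, hne⟩
        · exact ⟨θ', hm, hne'⟩
      obtain ⟨r, hr, hsr⟩ := hcase
      have hJ : ∀ s' v : ℝ, 0 < s' → γ r ≠ EE ψ s' v := fun s' v hs heq =>
        hE.EE_mem (s := s') (t := v) hs (heq ▸ h.J_sub_K (hl.g_mem r))
      rcases Lam_range (ψ := ψ) (γ := γ) one_pos (h1.trans h2) hu with h5 | h5 |
        ⟨s', hs, -, h5⟩ | ⟨s', hs, -, h5⟩ | ⟨v, -, -, h5⟩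
      · exact hsr (h5.symm.trans hr)
      · exact hsr (hst.trans (h5.symm.trans hr))
      · exact hJ _ _ hs (hr.symm.trans h5)
      · exact hJ _ _ hs (hr.symm.trans h5)
      · exact hJ _ _ one_pos (hr.symm.trans h5)
  refine unl_core hl hE h (h1.trans h2) (by linarith) hst h1 h2 h3 h4
    (T := ((fun u => EB ψ γ u θ) '' Icc 0 (1 / 2) ∪ (P ∪ {γ θ, γ θ'})) ∪
      (fun u => EB ψ γ u θ') '' Icc 0 (1 / 2)) ?_ ?_ ?_ ?_
  · refine IsPreconnected.union (γ θ') ?_ ⟨0, ⟨le_rfl, by norm_num⟩, unl_EB_zero⟩ ?_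
      (unl_ray hl hE θ')
    · exact Or.inr (Or.inr (Or.inr rfl))
    · exact IsPreconnected.union (γ θ) ⟨0, ⟨le_rfl, by norm_num⟩, unl_EB_zero⟩
        (Or.inr (Or.inl rfl)) (unl_ray hl hE θ) hP'
  · exact Or.inl (Or.inl ⟨1 / 2, ⟨by norm_num, le_rfl⟩, unl_EB_pos (by norm_num)⟩)
  · exact Or.inr ⟨1 / 2, ⟨by norm_num, le_rfl⟩, unl_EB_pos (by norm_num)⟩
  · rintro u hu ((hm | hm) | hm)
    · exact unl_miss hl hE h (h1.trans h2) hst (unl_int h1 (by linarith))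
        (unl_int' h2 (by linarith)) hne u hu hm
    · exact hray u hu hm
    · exact unl_miss hl hE h (h1.trans h2) hst (unl_int (by linarith) h4)
        (unl_int h3 (by linarith)) hne' u hu hm

end Pool.Agent.JH
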