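import Pool.Agent.Lib.MP_8ebc20_an.LiftA
import Pool.Agent.Lib.MP_8ebc20_an.DescA
import Pool.Agent.Lib.MP_8ebc20_an.Unl
import Pool.Agent.Lib.MP_8ebc20_an.Order
import Pool.Agent.Lib.MP_8ebc20_an.LOdd
import Pool.Agent.Lib.MP_8ebc20_an.BExt
import Pool.Agent.Lib.MP_8ebc20_an.BOdd
import Pool.Agent.Lib.MP_8ebc20_an.Loop

/-!
# IFC: the interface between the theory (A), the realization (R) and the combinatorics (B)

`Real7` is what part R proves for the polynomial of degree 7 (angles over `N = 40353264 = 343 (7 ^ 6 - 1)`); `Ifc` is what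
part B uses; `ifc_of_real` is proved by part A.

PROOF of `ifc_of_real`.  `cont`, `per`, `fe` (`natDegree = 7`), from `IsLoop`; `half = odd`; `nonconst`: `IsLoop.nonconst`; `unlinked`:
`IsLoop.unlinked`; `fib_inj`, `fib_lift`, `order`: the theorems of the same names; `weak`: `IsLoop.noncross` applied to
`θ + m`, `θ' + n` (`g_int`) and the set `P` given by `cellX`, `cellU`, `cellW`.
`exists_ext`: `exists_bot`, `BotS.extMap`, `BotS.odd` (`EE ψ s t = E (s + 2 π t I)`).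
-/

set_option autoImplicit false

namespace Pool.Agent.JH

open Polynomial Set Metric Filter Topology

variable {f : ℂ[X]}

/-- What part R proves. -/
structure Real7 (f : ℂ[X]) (J : Set ℂ) (ψ ψi : ℂ → ℂ) (γ : ℝ → ℂ) : Prop where
  hyp : Hyp f J
  ext : ExtMap f ψ ψi
  loop : IsLoop f J ψ γ
  deg : f.natDegree = 7
  odd : ∀ t : ℝ, γ (t + 1 / 2) = -γ t
  zero : γ 0 = 0
  alpha : ev f (γ (59 / 342)) = γ (59 / 342)
  omega : (ev f)^[3] (γ (18490444 / 40353264)) = γ (18490444 / 40353264)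
  ne : γ (18490444 / 40353264) ≠ γ (59 / 342)
  posα : 0 < (γ (59 / 342)).im
  posω : 0 < (γ (18490444 / 40353264)).im
  cellX : ∃ P : Set ℂ, P ⊆ interior (KSet f) ∧ IsPreconnected P ∧
    γ (18490444 / 40353264) ∈ closure P ∧ γ (6960940 / 40353264) ∈ closure P
  cellU : ∃ P : Set ℂ, P ⊆ interior (KSet f) ∧ IsPreconnected P ∧
    γ (19936420 / 40353264) ∈ closure P ∧ γ (2642164 / 40353264) ∈ closure P
  cellW : ∃ P : Set ℂ, P ⊆ interior (KSet f) ∧ IsPreconnected P ∧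
    γ (8612716 / 40353264) ∈ closure P ∧ γ (14377468 / 40353264) ∈ closure P
  pairU : γ (20137516 / 40353264) = γ (19936420 / 40353264)
  pairW : γ (12490996 / 40353264) = γ (8612716 / 40353264)

/-- No leaf separates `θ` and `θ'`, except possibly leaves of the classes of `θ` and `θ'`. -/
def WeakNC (γ : ℝ → ℂ) (θ θ' : ℝ) : Prop :=
  ∀ (s t : ℝ) (m n : ℤ), s < θ + m → θ + m < t → t < θ' + n → θ' + n < s + 1 → γ s = γ t →
    γ s = γ θ ∨ γ s = γ θ'

/-- What part B uses. -/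
structure Ifc (F : ℂ → ℂ) (γ : ℝ → ℂ) : Prop where
  cont : Continuous γ
  per : ∀ t : ℝ, γ (t + 1) = γ t
  half : ∀ t : ℝ, γ (t + 1 / 2) = -γ t
  fe : ∀ t : ℝ, γ (7 * t) = F (γ t)
  nonconst : ∀ a b : ℝ, a < b → ∃ x ∈ Icc a b, γ x ≠ γ a
  unlinked : ∀ a b c e : ℝ, a < b → b < c → c < e → e < a + 1 → γ a = γ c → γ b = γ e → γ a = γ b
  fib_inj : ∀ (x x' : ℝ) (k : ℤ), γ x = γ x' → 7 * x' = 7 * x + k → ∃ n : ℤ, x' = x + n
  fib_lift : ∀ x y : ℝ, γ y = F (γ x) → ∃ (x' : ℝ) (k : ℤ), γ x' = γ x ∧ 7 * x' = y + k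
  order : ∀ s u t : ℝ, s < u → u < t → t < s + 1 → γ s = γ u → γ u = γ t →
    ∃ m n : ℤ, 7 * s < 7 * u + m ∧ 7 * u + m < 7 * t + n ∧ 7 * t + n < 7 * s + 1
  weakX : WeakNC γ (18490444 / 40353264) (6960940 / 40353264)
  weakU : WeakNC γ (19936420 / 40353264) (2642164 / 40353264)
  weakW : WeakNC γ (8612716 / 40353264) (14377468 / 40353264)
  zero : γ 0 = 0
  alpha : F (γ (59 / 342)) = γ (59 / 342)
  omega : F^[3] (γ (18490444 / 40353264)) = γ (18490444 / 40353264)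
  ne : γ (18490444 / 40353264) ≠ γ (59 / 342)
  posα : 0 < (γ (59 / 342)).im
  posω : 0 < (γ (18490444 / 40353264)).im
  pairU : γ (20137516 / 40353264) = γ (19936420 / 40353264)
  pairW : γ (12490996 / 40353264) = γ (8612716 / 40353264)

theorem ifc_of_real {f : ℂ[X]} {J : Set ℂ} {ψ ψi : ℂ → ℂ} {γ : ℝ → ℂ} (h : Real7 f J ψ ψi γ) :
    Ifc (ev f) γ := by
  have hd : (f.natDegree : ℝ) = 7 := by rw [h.deg]; norm_num
  have hweak : ∀ θ θ' : ℝ, (∃ P : Set ℂ, P ⊆ interior (KSet f) ∧ IsPreconnected P ∧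
      γ θ ∈ closure P ∧ γ θ' ∈ closure P) → WeakNC γ θ θ' := by
    rintro θ θ' ⟨P, hPK, hP, h1, h2⟩ s t m n e1 e2 e3 e4 hst
    have := h.loop.noncross h.ext h.hyp e1 e2 e3 e4 hst hP hPK (by rwa [h.loop.g_int])
      (by rwa [h.loop.g_int])
    rwa [h.loop.g_int, h.loop.g_int] at this
  exact
    { cont := h.loop.cont
      per := h.loop.per
      half := h.odd
      fe := fun t => by rw [← h.loop.conj, hd]
      nonconst := fun a b hab => h.loop.nonconst h.hyp hab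
      unlinked := fun a b c e h1 h2 h3 h4 h5 h6 => h.loop.unlinked h.ext h.hyp h1 h2 h3 h4 h5 h6
      fib_inj := fun x x' k h1 h2 => h.loop.fib_inj h.ext h.hyp h1 (k := k) (by rw [hd]; exact h2)
      fib_lift := fun x y h1 => by
        obtain ⟨x', k, h2, h3⟩ := h.loop.fib_lift h.ext h.hyp h1
        exact ⟨x', k, h2, by rw [hd] at h3; exact h3⟩
      order := fun s u t h1 h2 h3 h4 h5 => by
        have := h.loop.order h.ext h.hyp h1 h2 h3 h4 h5
        rwa [hd] at this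
      weakX := hweak _ _ h.cellX
      weakU := hweak _ _ h.cellU
      weakW := hweak _ _ h.cellW
      zero := h.zero
      alpha := h.alpha
      omega := h.omega
      ne := h.ne
      posα := h.posα
      posω := h.posω
      pairU := h.pairU
      pairW := h.pairW }

/-- Summary of part A for part R: a monic polynomial with critical points in `K`, off `J`. -/
theorem exists_ext (hd : 2 ≤ f.natDegree) (hm : f.Monic)
    (hc : ∀ c : ℂ, f.derivative.eval c = 0 → c ∈ KSet f) {ρ : ℝ} (hρ : 1 ≤ ρ)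
    (hf : ∀ z : ℂ, ρ ≤ ‖z‖ → ‖ev f z - z ^ f.natDegree‖ ≤ 1 / 16 * ‖z‖ ^ f.natDegree) :
    ∃ ψ ψi : ℂ → ℂ, ExtMap f ψ ψi ∧
      (∀ ρ₁ η₁ : ℝ, ρ ≤ ρ₁ →
        (∀ z : ℂ, ρ₁ ≤ ‖z‖ → ‖ev f z - z ^ f.natDegree‖ ≤ η₁ * ‖z‖ ^ f.natDegree) →
        ∀ s t : ℝ, Real.log ρ + 2 < s → Real.log ρ₁ + 2 ≤ s →
          ‖EE ψ s t - Complex.exp ((s : ℂ) + 2 * Real.pi * t * Complex.I)‖ ≤
            4 * η₁ * Real.exp s) ∧
      (Odd f.natDegree → (∀ z : ℂ, ev f (-z) = -ev f z) →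
        ∀ s t : ℝ, 0 < s → EE ψ s (t + 1 / 2) = -EE ψ s t) := by
  obtain ⟨E, hE, hs, hb⟩ := exists_bot hd hm hc hρ hf
  obtain ⟨ψ, ψi, hψ, heq⟩ := hE.extMap hd hs
  have hre : ∀ s t : ℝ, ((s : ℂ) + 2 * Real.pi * t * Complex.I).re = s := by
    intro s t
    simp
  refine ⟨ψ, ψi, hψ, ?_, ?_⟩
  · intro ρ₁ η₁ h1 h2 s t h3 h4
    have hs0 : 0 < s := by
      have := Real.log_nonneg hρ
      linarith
    rw [heq s t hs0]
    have := hb ρ₁ η₁ h1 h2 ((s : ℂ) + 2 * Real.pi * t * Complex.I) (by rw [hre]; exact h3)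
      (by rw [hre]; exact h4)
    rwa [Complex.norm_exp, hre] at this
  · intro ho hodd s t hs0
    rw [heq s _ hs0, heq s _ hs0]
    have := hE.odd hd hm ho hodd ((s : ℂ) + 2 * Real.pi * t * Complex.I) (by rw [hre]; exact hs0)
    rw [← this]
    congr 1
    push_cast
    ring

end Pool.Agent.JH
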