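import Pool.Agent.Lib.MP_8ebc20_an.B.Fin
import Pool.Agent.Lib.MP_8ebc20_an.B.Strict2
import Pool.Agent.Lib.MP_8ebc20_an.Ifc
import Pool.Agent.Lib.MP_8ebc20_an.Contr

/-!
# MP_8ebc20_an: the final theorem from the realization

`Real7w` is what the certificate for the polynomial of degree seven provides; `not_main_of` is the
frozen statement S05368.
-/

set_option autoImplicit false

namespace Pool.Agent.JH

open Polynomial Set Metric Filter Topology JB

variable {f : ℂ[X]} {J : Set ℂ} {ψ ψi : ℂ → ℂ} {γ : ℝ → ℂ}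

/-- the data of the realization which are used -/
structure Real7w (f : ℂ[X]) (J : Set ℂ) (ψ ψi : ℂ → ℂ) (γ : ℝ → ℂ) : Prop where
  hyp : Hyp f J
  ext : ExtMap f ψ ψi
  loop : IsLoop f J ψ γ
  deg : f.natDegree = 7
  odd : ∀ t : ℝ, γ (t + 1 / 2) = -γ t
  zero : γ 0 = 0
  alpha : ev f (γ (59 / 342)) = γ (59 / 342)
  omega : (ev f)^[3] (γ (18490444 / 40353264)) = γ (18490444 / 40353264)
  cellX : ∃ P : Set ℂ, P ⊆ interior (KSet f) ∧ IsPreconnected P ∧
    γ (18490444 / 40353264) ∈ closure P ∧ γ (6960940 / 40353264) ∈ closure P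
  cellU : ∃ P : Set ℂ, P ⊆ interior (KSet f) ∧ IsPreconnected P ∧
    γ (19936420 / 40353264) ∈ closure P ∧ γ (2642164 / 40353264) ∈ closure P
  cellW : ∃ P : Set ℂ, P ⊆ interior (KSet f) ∧ IsPreconnected P ∧
    γ (8612716 / 40353264) ∈ closure P ∧ γ (14377468 / 40353264) ∈ closure P

theorem Real7.weak (h : Real7 f J ψ ψi γ) : Real7w f J ψ ψi γ :=
  ⟨h.hyp, h.ext, h.loop, h.deg, h.odd, h.zero, h.alpha, h.omega, h.cellX, h.cellU, h.cellW⟩

theorem dN_lt {a b : ℝ} (h : a < b) : a / 40353264 < b / 40353264 := by linarith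
theorem dN_1 (a : ℝ) : (a + 40353264) / 40353264 = a / 40353264 + 1 := by field_simp
theorem dN_h (a : ℝ) : (a + 20176632) / 40353264 = a / 40353264 + 1 / 2 := by ring
theorem dN_7 (a : ℝ) : 7 * a / 40353264 = 7 * (a / 40353264) := by ring

theorem Real7w.fe (h : Real7w f J ψ ψi γ) (t : ℝ) : γ (7 * t) = ev f (γ t) := by
  have hd : (f.natDegree : ℝ) = 7 := by rw [h.deg]; norm_num
  rw [← h.loop.conj, hd]

theorem Real7w.wcut (h : Real7w f J ψ ψi γ) {c d : ℝ} (hcd : c < d)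
    (hP : ∃ P : Set ℂ, P ⊆ interior (KSet f) ∧ IsPreconnected P ∧
      γ (d / 40353264) ∈ closure P ∧ γ (c / 40353264) ∈ closure P) :
    WCut (fun x => γ (x / 40353264)) c d := by
  obtain ⟨P, hPK, hPc, h1, h2⟩ := hP
  intro s t hst a1 a2 a3 a4
  have e : γ ((c + 40353264) / 40353264) = γ (c / 40353264) := by
    rw [dN_1, h.loop.per]
  have := h.loop.noncross h.ext h.hyp (s := s / 40353264) (θ := d / 40353264)
    (t := t / 40353264) (θ' := (c + 40353264) / 40353264) (dN_lt a2) (dN_lt a3) (dN_lt a4)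
    (by rw [dN_1]; linarith) hst hPc hPK h1 (by rw [e]; exact h2)
  rw [e] at this
  exact this.symm

theorem Real7w.lamW (h : Real7w f J ψ ψi γ) :
    LamW (fun x => γ (x / 40353264)) (ev f) := by
  have hd : (f.natDegree : ℝ) = 7 := by rw [h.deg]; norm_num
  refine ⟨?_, ?_, ?_, ?_, ?_, ?_, ?_, ?_, ?_, ?_, ?_, ?_, ?_, ?_, ?_⟩
  · exact h.loop.cont.comp (continuous_id.div_const _)
  · intro x
    simp only [dN_1, h.loop.per]
  · intro x
    simp only [dN_7, h.fe]
  · intro a b c e h1 h2 h3 h4 h5 h6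
    exact h.loop.unlinked h.ext h.hyp (dN_lt h1) (dN_lt h2) (dN_lt h3) (by
      rw [← dN_1]; exact dN_lt h4) h5 h6
  · rintro s t hst ⟨n, hn⟩
    obtain ⟨m, hm⟩ := h.loop.fib_inj h.ext h.hyp (x := s / 40353264) (x' := t / 40353264) hst
      (k := -n) (by rw [hd]; push_cast; linarith)
    exact ⟨-m, by push_cast; linarith⟩
  · intro x y hxy
    obtain ⟨x', k, h1, h2⟩ := h.loop.fib_lift h.ext h.hyp hxy
    rw [hd] at h2
    refine ⟨x' * 40353264, ?_, ⟨k, by linarith⟩⟩
    simp only [mul_div_cancel_right₀ x' (show (40353264 : ℝ) ≠ 0 by norm_num), h1]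
  · intro a b hab
    obtain ⟨x, hx, hx'⟩ := h.loop.nonconst h.hyp (dN_lt hab)
    refine ⟨x * 40353264, ⟨by linarith [hx.1], by linarith [hx.2]⟩, ?_⟩
    simp only [mul_div_cancel_right₀ x (show (40353264 : ℝ) ≠ 0 by norm_num)]
    exact hx'
  · intro s t hst
    simp only [dN_h, h.odd]
    rw [hst]
  · have e : (6961528 : ℝ) / 40353264 = 59 / 342 := by norm_num
    simp only [dN_7, h.fe, e]
    exact h.alpha
  · have e1 : (20176632 : ℝ) / 40353264 = 0 + 1 / 2 := by norm_num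
    simp only [e1, h.odd, zero_div, h.zero, neg_zero]
  · have e1 : (343 : ℝ) * 18490444 / 40353264 = 7 * (7 * (7 * (18490444 / 40353264))) := by
      norm_num
    simp only [e1, h.fe]
    exact h.omega
  · intro s u t h1 h2 h3 h4 h5
    obtain ⟨m, n, g1, g2, g3⟩ := h.loop.order h.ext h.hyp (dN_lt h1) (dN_lt h2) (by
      rw [← dN_1]; exact dN_lt h3) h4 h5
    rw [hd] at g1 g2 g3
    exact ⟨m, n, by linarith, by linarith, by linarith⟩
  · exact h.wcut (by norm_num) h.cellX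
  · refine h.wcut (by norm_num) h.cellU
  · refine h.wcut (by norm_num) ?_
    obtain ⟨P, h1, h2, h3, h4⟩ := h.cellW
    exact ⟨P, h1, h2, h4, h3⟩

/-- scaling of the line -/
noncomputable def scN : ℝ ≃o ℝ := OrderIso.mulRight₀ (40353264 : ℝ) (by norm_num)

theorem scN_apply (x : ℝ) : scN x = x * 40353264 := rfl
theorem scN_symm (x : ℝ) : scN.symm x = x / 40353264 := by
  rw [OrderIso.symm_apply_eq, scN_apply]
  field_simp

/-- no finitely generated dense group of homeomorphisms -/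
theorem Real7w.no_fg (h : Real7w f J ψ ψi γ) :
    ¬ ∃ S : Set (J ≃ₜ J), S.Finite ∧ (∀ g ∈ S, Ext J g) ∧ ∀ k : J ≃ₜ J, Ext J k →
      ∀ ε : ℝ, 0 < ε → ∃ g ∈ Subgroup.closure S, ∀ z : J, dist (g z : ℂ) (k z : ℂ) < ε := by
  have hL := h.lamW.lam
  have hJ : ∀ x : ℝ, (fun x => γ (x / 40353264)) x ∈ J := fun x => h.loop.g_mem _
  obtain ⟨δ, C, lam, hr⟩ := h.hyp.exists_hypRad
  refine hL.main (fun x => ?_) hJ (fun z hz => ?_) (Ext J) (fun g hg => ?_)
    (fun H hper hrel => ?_)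
  · simp only [dN_h, h.odd]
  · obtain ⟨t, -, ht⟩ := h.loop.g_surj hz
    refine ⟨t * 40353264, ?_⟩
    simp only [mul_div_cancel_right₀ t (show (40353264 : ℝ) ≠ 0 by norm_num), ht]
  · obtain ⟨H, hH, hHg⟩ := lift_exists h.hyp h.ext h.loop g hg
    refine ⟨(scN.symm.trans H).trans scN, fun x => ?_, fun x => ?_⟩
    · simp only [OrderIso.trans_apply, scN_symm, scN_apply, dN_1, hH.per]
      ring
    · simp only [OrderIso.trans_apply, scN_symm, scN_apply]
      rw [mul_div_cancel_right₀ _ (show (40353264 : ℝ) ≠ 0 by norm_num)]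
      exact (hHg _ _).symm
  · have hH : IsAut γ ((scN.trans H).trans scN.symm) := by
      constructor
      · intro x
        simp only [OrderIso.trans_apply, scN_symm, scN_apply]
        rw [show (x + 1) * 40353264 = x * 40353264 + 40353264 by ring, hper, dN_1]
      · intro x y
        simp only [OrderIso.trans_apply, scN_symm, scN_apply]
        have := hrel (x * 40353264) (y * 40353264)
        simp only [mul_div_cancel_right₀ _ (show (40353264 : ℝ) ≠ 0 by norm_num)] at this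
        exact this
    obtain ⟨g, hg, hgH⟩ := desc_exists h.hyp hr h.ext h.loop hH
    refine ⟨g, hg, fun x => ?_⟩
    have := hgH (x / 40353264) (hJ x)
    simp only [OrderIso.trans_apply, scN_symm, scN_apply] at this
    rw [div_mul_cancel₀ _ (show (40353264 : ℝ) ≠ 0 by norm_num)] at this
    exact this.symm

/-- S05368 from the realization -/
theorem Real7w.not_main (h : Real7w f J ψ ψi γ) :
    ¬ (∀ (f : Polynomial ℂ) (J : Set ℂ),
      2 ≤ f.natDegree →
      J = frontier {z : ℂ | Bornology.IsBounded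
            (Set.range fun n : ℕ => (fun w : ℂ => f.eval w)^[n] z)} →
      IsConnected J →
      Disjoint (closure {w : ℂ | ∃ c : ℂ, ∃ n : ℕ, 1 ≤ n ∧ f.derivative.eval c = 0 ∧
            (fun x : ℂ => f.eval x)^[n] c = w}) J →
      ∃ S : Set (J ≃ₜ J), S.Finite ∧
        (∀ g ∈ S, ∃ Φ : ℂ ≃ₜ ℂ, (∀ z : J, Φ (z : ℂ) = (g z : ℂ)) ∧
          ∃ H : unitInterval → (ℂ ≃ₜ ℂ),
            Continuous (fun p : unitInterval × ℂ => H p.1 p.2) ∧
            H 0 = Homeomorph.refl ℂ ∧ H 1 = Φ) ∧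
        ∀ h : J ≃ₜ J,
          (∃ Φ : ℂ ≃ₜ ℂ, (∀ z : J, Φ (z : ℂ) = (h z : ℂ)) ∧
            ∃ H : unitInterval → (ℂ ≃ₜ ℂ),
              Continuous (fun p : unitInterval × ℂ => H p.1 p.2) ∧
              H 0 = Homeomorph.refl ℂ ∧ H 1 = Φ) →
          ∀ ε : ℝ, 0 < ε →
            ∃ g ∈ Subgroup.closure S, ∀ z : J, dist (g z : ℂ) (h z : ℂ) < ε) := by
  intro hall
  exact h.no_fg (hall f J h.hyp.deg h.hyp.eq h.loop.conn_J h.hyp.disj)

end Pool.Agent.JH
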