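import Pool.Agent.Lib.MP_8ebc20_an.LoopP

/-!
# GJ: automorphisms of the lamination act on `J`

PROOF.  `g (γ x) = γ (H x)` is well defined and injective by `rel`, onto because `H` is onto.  Continuity:
`γ` restricted to the compact `[0, 1]` is a continuous surjection onto the Hausdorff space `J`, hence a
quotient map (`IsClosedMap`), and `γ ∘ H` is continuous.  The inverse is given by `H.symm`, for which
`per` and `rel` hold too (`IsAut.symm`).
-/

set_option autoImplicit false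

namespace Pool.Agent.JH

open Polynomial Set Metric Filter Topology

variable {f : ℂ[X]} {J : Set ℂ} {γ : ℝ → ℂ} {ψ ψi : ℂ → ℂ}

theorem IsAut.symm {H : ℝ ≃o ℝ} (hH : IsAut γ H) : IsAut γ H.symm := by
  refine ⟨fun x => ?_, fun x y => ?_⟩
  · apply H.injective
    rw [hH.per, H.apply_symm_apply, H.apply_symm_apply]
  · have := hH.rel (H.symm x) (H.symm y)
    rw [H.apply_symm_apply, H.apply_symm_apply] at this
    exact this.symm

theorem IsAut.trans {H H' : ℝ ≃o ℝ} (hH : IsAut γ H) (hH' : IsAut γ H') :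
    IsAut γ (H.trans H') := by
  refine ⟨fun x => ?_, fun x y => ?_⟩
  · rw [OrderIso.trans_apply, OrderIso.trans_apply, hH.per, hH'.per]
  · rw [OrderIso.trans_apply, OrderIso.trans_apply, hH.rel, hH'.rel]

private theorem GJ_cont (hl : IsLoop f J ψ γ) {H : ℝ ≃o ℝ}
    {g : J → J} (hg : ∀ (x : ℝ) (hx : γ x ∈ J), γ (H x) = g ⟨γ x, hx⟩) : Continuous g := by
  have hpc : Continuous (fun t : Icc (0 : ℝ) 1 => (⟨γ t, hl.g_mem t⟩ : J)) :=
    (hl.cont.comp continuous_subtype_val).subtype_mk _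
  have hps : Function.Surjective (fun t : Icc (0 : ℝ) 1 => (⟨γ t, hl.g_mem t⟩ : J)) := by
    rintro ⟨z, hz⟩
    obtain ⟨t, ht, rfl⟩ := hl.g_surj hz
    exact ⟨⟨t, ht.1, ht.2.le⟩, rfl⟩
  have hq := IsQuotientMap.of_surjective_continuous hps hpc
  rw [hq.continuous_iff]
  have : g ∘ (fun t : Icc (0 : ℝ) 1 => (⟨γ t, hl.g_mem t⟩ : J))
      = fun t : Icc (0 : ℝ) 1 => (⟨γ (H t), hl.g_mem _⟩ : J) := by
    funext t
    apply Subtype.ext
    exact (hg t (hl.g_mem t)).symm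
  rw [this]
  exact (hl.cont.comp (H.continuous.comp continuous_subtype_val)).subtype_mk _

theorem IsLoop.exists_g (hl : IsLoop f J ψ γ) {H : ℝ ≃o ℝ} (hH : IsAut γ H) :
    ∃ g : J ≃ₜ J, ∀ (x : ℝ) (hx : γ x ∈ J), γ (H x) = g ⟨γ x, hx⟩ := by
  classical
  have hch : ∀ z : J, ∃ t : ℝ, γ t = z := fun z => by
    obtain ⟨t, -, ht⟩ := hl.g_surj z.2
    exact ⟨t, ht⟩
  choose τ hτ using hch
  let g₁ : J → J := fun z => ⟨γ (H (τ z)), hl.g_mem _⟩
  let g₂ : J → J := fun z => ⟨γ (H.symm (τ z)), hl.g_mem _⟩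
  have h₁ : ∀ (x : ℝ) (hx : γ x ∈ J), γ (H x) = g₁ ⟨γ x, hx⟩ := by
    intro x hx
    exact (hH.rel _ _).1 (hτ ⟨γ x, hx⟩).symm
  have h₂ : ∀ (x : ℝ) (hx : γ x ∈ J), γ (H.symm x) = g₂ ⟨γ x, hx⟩ := by
    intro x hx
    exact (hH.symm.rel _ _).1 (hτ ⟨γ x, hx⟩).symm
  have hl1 : Function.LeftInverse g₂ g₁ := by
    intro z
    apply Subtype.ext
    have e1 : (g₁ z : ℂ) = γ (H (τ z)) := rfl
    have e2 := h₂ (H (τ z)) (hl.g_mem _)
    rw [H.symm_apply_apply, hτ z] at e2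
    rw [e2]
  have hl2 : Function.RightInverse g₂ g₁ := by
    intro z
    apply Subtype.ext
    have e2 := h₁ (H.symm (τ z)) (hl.g_mem _)
    rw [H.apply_symm_apply, hτ z] at e2
    rw [e2]
  refine ⟨⟨⟨g₁, g₂, hl1, hl2⟩, GJ_cont hl h₁, GJ_cont hl h₂⟩, h₁⟩

end Pool.Agent.JH
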