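import Pool.Agent.Lib.MP_8ebc20_an.Bas3

/-!
# INV: properties of the branches

PROOFS. `injOn`: `(ev f)^[n] (g w) = w`.  `mem_J`, `mem_K`: `it_mem_J`, `it_mem_K`.
`deriv_mul`: the chain rule for `(ev f)^[n] ∘ g = id` near `w`.
`lift_eq`: the set of `t ∈ S` with `u t = g (f^[n] (u t))` is nonempty, relatively closed in `S` (both sides
are continuous on `S`), and relatively open: let `t` be in it, `w = f^[n] (u t)`, `y = u t = g w`; the
derivative of `(ev f)^[n]` at `y` is not `0` (`deriv_mul`), so `(ev f)^[n]` is injective near `y`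
(`HasStrictDerivAt`); for `t' ∈ S` near `t` both `u t'` and `g (f^[n] (u t'))` are close to `y` and have
the same image `f^[n] (u t')`, so they are equal.  Use `IsPreconnected` in the subtype `S`
(`isClopen_iff`) or `IsPreconnected.subset_of_closure_inter_subset`.
-/

set_option autoImplicit false

namespace Pool.Agent.JH

open Polynomial Set Metric Filter Topology

variable {f : ℂ[X]} {J : Set ℂ}

theorem IsBr.injOn {n : ℕ} {x : ℂ} {r : ℝ} {g : ℂ → ℂ} (hg : IsBr f n x r g) :
    InjOn g (ball x r) := by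
  intro w hw w' hw' h
  rw [← hg.2 w hw, ← hg.2 w' hw', h]

theorem IsBr.mem_J (h : Hyp f J) {n : ℕ} {x : ℂ} {r : ℝ} {g : ℂ → ℂ} (hg : IsBr f n x r g)
    {w : ℂ} (hw : w ∈ ball x r) : g w ∈ J ↔ w ∈ J := by
  rw [← h.it_mem_J n, hg.2 w hw]

theorem IsBr.mem_K (h : Hyp f J) {n : ℕ} {x : ℂ} {r : ℝ} {g : ℂ → ℂ} (hg : IsBr f n x r g)
    {w : ℂ} (hw : w ∈ ball x r) : g w ∈ KSet f ↔ w ∈ KSet f := by
  rw [← it_mem_K h.deg n, hg.2 w hw]

private theorem inv_diff_it (n : ℕ) : Differentiable ℂ ((ev f)^[n]) :=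
  Differentiable.iterate f.differentiable n

theorem IsBr.deriv_mul {n : ℕ} {x : ℂ} {r : ℝ} {g : ℂ → ℂ} (hg : IsBr f n x r g) {w : ℂ}
    (hw : w ∈ ball x r) : deriv ((ev f)^[n]) (g w) * deriv g w = 1 := by
  have h1 : HasDerivAt g (deriv g w) w :=
    (hg.1.differentiableAt (isOpen_ball.mem_nhds hw)).hasDerivAt
  have h2 : HasDerivAt ((ev f)^[n]) (deriv ((ev f)^[n]) (g w)) (g w) :=
    (inv_diff_it n (g w)).hasDerivAt
  have h3 := h2.comp w h1
  have h4 : ((ev f)^[n] ∘ g) =ᶠ[𝓝 w] id := by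
    filter_upwards [isOpen_ball.mem_nhds hw] with v hv
    exact hg.2 v hv
  exact h3.unique ((hasDerivAt_id w).congr_of_eventuallyEq h4)

/-- uniqueness of lifts: a continuous function on a preconnected set whose `n`-th iterate stays in the
disc is given by the branch -/
theorem IsBr.lift_eq {T : Type*} [TopologicalSpace T] {n : ℕ} {x : ℂ} {r : ℝ} {g : ℂ → ℂ}
    (hg : IsBr f n x r g) {S : Set T} (hS : IsPreconnected S) {u : T → ℂ} (hu : ContinuousOn u S)
    (hub : ∀ t ∈ S, (ev f)^[n] (u t) ∈ ball x r) {t₀ : T} (ht₀ : t₀ ∈ S)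
    (h0 : u t₀ = g ((ev f)^[n] (u t₀))) : ∀ t ∈ S, u t = g ((ev f)^[n] (u t)) := by
  haveI : PreconnectedSpace S := isPreconnected_iff_preconnectedSpace.1 hS
  have hu' : Continuous (fun t : S => u t) := continuousOn_iff_continuous_restrict.1 hu
  have hfu : Continuous (fun t : S => (ev f)^[n] (u t)) := (continuous_it n).comp hu'
  have hv' : Continuous (fun t : S => g ((ev f)^[n] (u t))) :=
    hg.1.continuousOn.comp_continuous hfu fun t => hub t t.2
  let A : Set S := {t | u t = g ((ev f)^[n] (u t))}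
  have hcl : IsClosed A := isClosed_eq hu' hv'
  have hop : IsOpen A := by
    rw [isOpen_iff_mem_nhds]
    intro t ht
    have ht' : u t = g ((ev f)^[n] (u t)) := ht
    set w := (ev f)^[n] (u t) with hw
    have hwb : w ∈ ball x r := hub t t.2
    have hd : deriv g w ≠ 0 := by
      intro h
      have := hg.deriv_mul hwb
      rw [h, mul_zero] at this
      exact zero_ne_one this
    have hst : HasStrictDerivAt g (deriv g w) w :=
      (hg.1.analyticAt (isOpen_ball.mem_nhds hwb)).hasStrictDerivAt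
    have hmap := hst.map_nhds_eq hd
    have hB : {p : ℂ | p = g ((ev f)^[n] p)} ∈ 𝓝 (u t) := by
      rw [ht', ← hmap, Filter.mem_map]
      filter_upwards [isOpen_ball.mem_nhds hwb] with v hv
      change g v = g ((ev f)^[n] (g v))
      rw [hg.2 v hv]
    exact hu'.continuousAt.preimage_mem_nhds hB
  have hne : A.Nonempty := ⟨⟨t₀, ht₀⟩, h0⟩
  have huniv := IsClopen.eq_univ ⟨hcl, hop⟩ hne
  intro t ht
  have : (⟨t, ht⟩ : S) ∈ A := by
    rw [huniv]
    exact Set.mem_univ _
  exact this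

end Pool.Agent.JH
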