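import Pool.Agent.Lib.MP_8ebc20_an.Wnd3
import Pool.Agent.Lib.MP_8ebc20_an.Bas3a

/-!
# JAN1: components and logarithms

PROOFS. `log_of_conn`: fix `p ∉ X`.  The set `A` of `q ∈ Xᶜ` such that `(z - p) / (z - q)` has a
continuous logarithm on `X` contains `p`; if `ball q r ⊆ Xᶜ` and `‖q - q'‖ < r / 2` then `q ∈ A ↔ q' ∈ A`.
So `A` is relatively clopen in `Xᶜ` and contains the preconnected set `connectedComponentIn Xᶜ p`.
`conn_of_log`: let `V = connectedComponentIn Xᶜ p`, `W = connectedComponentIn Xᶜ q`, open, and suppose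
`q ∉ V`; then they are disjoint, and one of them is bounded.  Tietze, gluing and `no_null`.
-/

set_option autoImplicit false

namespace Pool.Agent.JH

open Set Metric Filter Topology

private def Jan1HasL (X : Set ℂ) (p q : ℂ) : Prop :=
  ∃ L : ℂ → ℂ, ContinuousOn L X ∧ ∀ z ∈ X, Complex.exp (L z) = (z - p) / (z - q)

private lemma jan1_slit {X : Set ℂ} {q q' : ℂ} {r : ℝ} (hr : 0 < r)
    (hb : ∀ z ∈ X, r ≤ ‖z - q‖) (hq : ‖q' - q‖ < r / 2) {z : ℂ} (hz : z ∈ X) :
    z - q ≠ 0 ∧ z - q' ≠ 0 ∧ (z - q) / (z - q') ∈ Complex.slitPlane := by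
  have h1 := hb z hz
  have h2 : r / 2 < ‖z - q'‖ := by
    have h3 : ‖z - q‖ ≤ ‖z - q'‖ + ‖q' - q‖ := by
      have : z - q = (z - q') + (q' - q) := by ring
      rw [this]
      exact norm_add_le _ _
    linarith
  have hne : z - q' ≠ 0 := by
    intro h0
    rw [h0, norm_zero] at h2
    linarith
  have hne' : z - q ≠ 0 := by
    intro h0
    rw [h0, norm_zero] at h1
    linarith
  refine ⟨hne', hne, ?_⟩
  have h4 : (z - q) / (z - q') - 1 = (q' - q) / (z - q') := by
    field_simp
    ring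
  have h5 : ‖(z - q) / (z - q') - 1‖ < 1 := by
    rw [h4, norm_div, div_lt_one (by linarith)]
    linarith
  have h6 : |((z - q) / (z - q') - 1).re| < 1 := lt_of_le_of_lt (Complex.abs_re_le_norm _) h5
  rw [Complex.sub_re, Complex.one_re] at h6
  rw [Complex.mem_slitPlane_iff]
  left
  have := (abs_lt.1 h6).1
  linarith

private lemma jan1_cont {X : Set ℂ} {q q' : ℂ} {r : ℝ} (hr : 0 < r)
    (hb : ∀ z ∈ X, r ≤ ‖z - q‖) (hq : ‖q' - q‖ < r / 2) :
    ContinuousOn (fun z => Complex.log ((z - q) / (z - q'))) X := by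
  apply ContinuousOn.clog
  · apply ContinuousOn.div
    · exact (continuous_id.sub continuous_const).continuousOn
    · exact (continuous_id.sub continuous_const).continuousOn
    · intro z hz
      exact (jan1_slit hr hb hq hz).2.1
  · intro z hz
    exact (jan1_slit hr hb hq hz).2.2

private lemma jan1_step {X : Set ℂ} {p q q' : ℂ} {r : ℝ} (hr : 0 < r)
    (hb : ∀ z ∈ X, r ≤ ‖z - q‖) (hq : ‖q' - q‖ < r / 2) :
    Jan1HasL X p q ↔ Jan1HasL X p q' := by
  have hc := jan1_cont hr hb hq
  constructor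
  · rintro ⟨L, hL, h⟩
    refine ⟨fun z => L z + Complex.log ((z - q) / (z - q')), hL.add hc, ?_⟩
    intro z hz
    obtain ⟨h1, h2, h3⟩ := jan1_slit hr hb hq hz
    rw [Complex.exp_add, h z hz, Complex.exp_log (Complex.slitPlane_ne_zero h3)]
    field_simp
  · rintro ⟨L, hL, h⟩
    refine ⟨fun z => L z - Complex.log ((z - q) / (z - q')), hL.sub hc, ?_⟩
    intro z hz
    obtain ⟨h1, h2, h3⟩ := jan1_slit hr hb hq hz
    rw [Complex.exp_sub, h z hz, Complex.exp_log (Complex.slitPlane_ne_zero h3)]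
    field_simp

theorem log_of_conn {X : Set ℂ} (hX : IsCompact X) {p q : ℂ} (h : q ∈ connectedComponentIn Xᶜ p) :
    ∃ L : ℂ → ℂ, ContinuousOn L X ∧ ∀ z ∈ X, Complex.exp (L z) = (z - p) / (z - q) := by
  have hO : IsOpen Xᶜ := hX.isClosed.isOpen_compl
  have hp : p ∈ Xᶜ := by
    by_contra hp
    rw [connectedComponentIn_eq_empty hp] at h
    exact h
  have hq : q ∈ Xᶜ := connectedComponentIn_subset _ _ h
  -- local constancy
  have hloc : ∀ w ∈ Xᶜ, ∃ r : ℝ, 0 < r ∧ (∀ z ∈ X, r ≤ ‖z - w‖) ∧ ball w r ⊆ Xᶜ := by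
    intro w hw
    obtain ⟨r, hr, hb⟩ := Metric.isOpen_iff.1 hO w hw
    refine ⟨r, hr, ?_, hb⟩
    intro z hz
    by_contra hlt
    push Not at hlt
    exact hb (by rwa [mem_ball, dist_eq_norm]) hz
  have hU : ∀ P : Prop, IsOpen {w : ℂ | w ∈ Xᶜ ∧ (Jan1HasL X p w ↔ P)} := by
    intro P
    rw [Metric.isOpen_iff]
    rintro w ⟨hw, hP⟩
    obtain ⟨r, hr, hb, hbb⟩ := hloc w hw
    refine ⟨r / 2, half_pos hr, ?_⟩
    intro w' hw'
    rw [mem_ball, dist_eq_norm] at hw'
    refine ⟨hbb ?_, ?_⟩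
    · rw [mem_ball, dist_eq_norm]
      linarith
    · rw [← jan1_step hr hb hw']
      exact hP
  have hpre := isPreconnected_connectedComponentIn (F := Xᶜ) (x := p)
  by_contra hno
  have hnoq : ¬ Jan1HasL X p q := hno
  obtain ⟨w, hw⟩ := hpre _ _ (hU True) (hU False) (by
      intro w hw
      have hwX := connectedComponentIn_subset _ _ hw
      by_cases hA : Jan1HasL X p w
      · left
        exact ⟨hwX, by simp [hA]⟩
      · right
        exact ⟨hwX, by simp [hA]⟩) ⟨p, mem_connectedComponentIn hp, hp, by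
      refine iff_of_true ⟨fun _ => 0, continuousOn_const, ?_⟩ trivial
      intro z hz
      have : z - p ≠ 0 := by
        intro h0
        rw [sub_eq_zero] at h0
        rw [h0] at hz
        exact hp hz
      rw [Complex.exp_zero, div_self this]⟩ ⟨q, h, hq, by simp [hnoq]⟩
  obtain ⟨-, ⟨-, h1⟩, -, h2⟩ := hw
  exact (h2.1 (h1.2 trivial))

private lemma jan1_bdd {X : Set ℂ} (hX : IsCompact X) {p q : ℂ} (hp : p ∉ X) (hq : q ∉ X)
    (hqV : q ∉ connectedComponentIn Xᶜ p) (hV : Bornology.IsBounded (connectedComponentIn Xᶜ p))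
    {L : ℂ → ℂ} (hL : ContinuousOn L X)
    (h : ∀ z ∈ X, Complex.exp (L z) = (z - p) / (z - q)) : False := by
  classical
  have hO : IsOpen Xᶜ := hX.isClosed.isOpen_compl
  have hpV : p ∈ connectedComponentIn Xᶜ p := mem_connectedComponentIn hp
  obtain ⟨G, hG⟩ := ContinuousMap.exists_restrict_eq hX.isClosed
    (⟨X.domRestrict L, continuousOn_iff_continuous_domRestrict.1 hL⟩ : C(X, ℂ))
  have hG' : ∀ z ∈ X, G z = L z := by
    intro z hz
    exact congrArg (fun g : C(X, ℂ) => g ⟨z, hz⟩) hG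
  have hcont : Continuous (fun z => if z ∈ connectedComponentIn Xᶜ p then
      Complex.exp (G z) * (z - q) else z - p) := by
    apply Continuous.if
    · intro a ha
      have haX : a ∈ X := by
        by_contra haX
        exact Set.disjoint_left.1 (frontier_comp_disj hO p) ha haX
      have hne : a - q ≠ 0 := by
        intro h0
        rw [sub_eq_zero] at h0
        rw [h0] at haX
        exact hq haX
      rw [hG' a haX, h a haX]
      field_simp
    · exact (Complex.continuous_exp.comp G.continuous).mul (continuous_id.sub continuous_const)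
    · exact continuous_id.sub continuous_const
  obtain ⟨R, hR, hVR⟩ := hV.subset_ball_lt 0 0
  refine no_null hR hcont.continuousOn ?_ (p := p) ?_ ?_
  · intro z _
    split_ifs with hz
    · refine mul_ne_zero (Complex.exp_ne_zero _) ?_
      intro h0
      rw [sub_eq_zero] at h0
      rw [h0] at hz
      exact hqV hz
    · intro h0
      rw [sub_eq_zero] at h0
      rw [h0] at hz
      exact hz hpV
  · have := hVR hpV
    rwa [mem_ball_zero_iff] at this
  · intro z hz
    rw [if_neg]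
    intro hzV
    have := hVR hzV
    rw [mem_ball_zero_iff] at this
    linarith

theorem conn_of_log {X : Set ℂ} (hX : IsCompact X) {p q : ℂ} (hp : p ∉ X) (hq : q ∉ X)
    {L : ℂ → ℂ} (hL : ContinuousOn L X)
    (h : ∀ z ∈ X, Complex.exp (L z) = (z - p) / (z - q)) : q ∈ connectedComponentIn Xᶜ p := by
  by_contra hqV
  have hpW : p ∉ connectedComponentIn Xᶜ q := by
    intro hpW
    rw [← connectedComponentIn_eq hpW] at hqV
    exact hqV (mem_connectedComponentIn hq)
  by_cases hV : Bornology.IsBounded (connectedComponentIn Xᶜ p)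
  · exact jan1_bdd hX hp hq hqV hV hL h
  by_cases hW : Bornology.IsBounded (connectedComponentIn Xᶜ q)
  · refine jan1_bdd hX hq hp hpW hW hL.neg ?_
    intro z hz
    rw [Pi.neg_apply, Complex.exp_neg, h z hz, inv_div]
  obtain ⟨R, hR, hXR⟩ := hX.isBounded.subset_ball_lt 0 0
  have hS : {z : ℂ | R ≤ ‖z‖} ⊆ Xᶜ := by
    intro z hz hzX
    have := hXR hzX
    rw [mem_ball_zero_iff] at this
    exact absurd hz (not_le.2 this)
  have hfar : ∀ V : Set ℂ, ¬ Bornology.IsBounded V → ∃ v ∈ V, R ≤ ‖v‖ := by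
    intro V hV
    by_contra hno
    push Not at hno
    apply hV
    refine (Metric.isBounded_ball (x := (0 : ℂ)) (r := R)).subset ?_
    intro v hv
    rw [mem_ball_zero_iff]
    exact hno v hv
  obtain ⟨v, hv, hvR⟩ := hfar _ hV
  obtain ⟨w, hw, hwR⟩ := hfar _ hW
  have hpc := preconn_compl_ball R hR
  have h1 : {z : ℂ | R ≤ ‖z‖} ⊆ connectedComponentIn Xᶜ v :=
    hpc.subset_connectedComponentIn hvR hS
  have h2 : w ∈ connectedComponentIn Xᶜ v := h1 hwR
  rw [← connectedComponentIn_eq hv] at h2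
  apply hqV
  rw [connectedComponentIn_eq h2, ← connectedComponentIn_eq hw]
  exact mem_connectedComponentIn hq

end Pool.Agent.JH
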