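import Pool.Agent.Lib.MP_8ebc20_an.Cross

/-!
# JCT0: core of the proof of the Jordan curve theorem (Maehara)

SETTING.  `Q₁`, `Q₂` compact, `Q₁ ∩ Q₂ = {-1, 1}`, joined sets from `-1` to `1`, contained in
`|Re z| ≤ 1`, `|Im z| < 2`, with `|Re z| = 1` only at `z = ±1`; any two points of `Q_i \ {-1, 1}` are joined in
`Q_i \ {-1, 1}` (open arcs).  CLAIM: some component of the complement of `Q = Q₁ ∪ Q₂` is bounded.
PROOF.  `E = [-1, 1] × [-2, 2]`, `n = 2 I`, `s = -2 I`, `N` the vertical segment from `s` to `n`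
(`Re z = 0`, `|Im z| ≤ 2`).  By `crossing` (applied to `Q₁` and `N`) `Q ∩ N` is nonempty, and compact; let `l` be
its point with the largest imaginary part; by symmetry between `Q₁` and `Q₂` assume
`l ∈ Q₁`.  Let `m` be the point of `Q₁ ∩ N` with the smallest imaginary part.
The segment from `m` down to `s` meets `Q₂`: otherwise the union of the segment `[s, m]`, a path from `m` to `l` in
`Q₁ \ {-1, 1}` (disjoint from `Q₂`) and the segment `[l, n]` (meets `Q` only in `l ∉ Q₂`) joins `s` to `n`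
and misses `Q₂`, with `|Re| ≤ 1`, contradicting `crossing` with `Q₂` (which joins `-1` to `1`).  Let `p` be the highest
point of `Q₂ ∩ N` below `m` (`p ≠ m`), and `z₀` the midpoint of `m` and `p`: the open segment `(p, m)` misses
`Q`.  CLAIM: `W = connectedComponentIn Qᶜ z₀ ⊆ E`.  Otherwise, `W` being open and connected, there is a path
in `W` from `z₀` to a point outside `E`; let `w` be its first point on the frontier of `E` (the part
before stays in `E`); `w ∉ Q` so `w ≠ ±1`, and `Im w ≠ 0` (on the frontier of `E` with `Im w = 0` means `w = ±1`).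
If `Im w < 0`: the boundary path from `s` along the bottom side and then the vertical side to `w` (misses `Q`: on the
bottom side `Im = -2`, the vertical sides meet `Q` only in `±1`), the path from `w` back to `z₀`, the segment
`[z₀, m]`, the path of `Q₁ \ {-1, 1}` from `m` to `l` and `[l, n]` joins `s` to `n` inside `|Re| ≤ 1` and misses `Q₂`:
contradiction with `crossing` for `Q₂`.  If `Im w > 0`: the segment `[s, p]` (misses `Q₁`, as points of `Q₁ ∩ N` are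
not below `m`), `[p, z₀]`, the path to `w` and the boundary path from `w` to `n` joins `s` to `n` and misses
`Q₁`: contradiction with `crossing` for `Q₁`.  (All joins with `JoinedIn.trans` in the set `{z | |Re z| ≤ 1, z ∉ Q_i}`;
segments and boundary paths with `JoinedIn.of_segment_subset`.)
-/

set_option autoImplicit false

namespace Pool.Agent.JH

open Set Metric Filter Topology

private noncomputable def V (r y : ℝ) : ℂ := (r : ℂ) + (y : ℂ) * Complex.I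

private theorem V_re (r y : ℝ) : (V r y).re = r := by simp [V]

private theorem V_im (r y : ℝ) : (V r y).im = y := by simp [V]

private theorem V_eta (z : ℂ) : V z.re z.im = z := Complex.re_add_im z

private theorem V_cont (r : ℝ) : Continuous (V r) := by
  unfold V
  fun_prop

private theorem jct_seg {F : Set ℂ} {r a b : ℝ} (hab : a ≤ b)
    (h : ∀ y, a ≤ y → y ≤ b → V r y ∈ F) : JoinedIn F (V r a) (V r b) := by
  refine JoinedIn.ofLine (f := fun t => V r (a + t * (b - a))) ?_ ?_ ?_ ?_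
  · refine ((V_cont r).comp ?_).continuousOn
    fun_prop
  · simp
  · simp
  · rintro _ ⟨t, ht, rfl⟩
    have h0 := ht.1
    have h1 := ht.2
    refine h _ ?_ ?_
    · nlinarith
    · nlinarith

private theorem jct_nc {Q : Set ℂ} (hb : ∀ z ∈ Q, |z.im| < 2) (j : JoinedIn Q (-1) 1) {u w : ℂ}
    (hu : u.im = -2) (hw : w.im = 2) (h : JoinedIn {z : ℂ | |z.re| ≤ 1 ∧ z ∉ Q} u w) :
    False := by
  obtain ⟨z, hz1, hz2⟩ := crossing (a := -1) (b := 1) (c := -2) (d := 2) j h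
    (fun z hz => ⟨(abs_lt.1 (hb z hz)).1.le, (abs_lt.1 (hb z hz)).2.le⟩)
    (fun z hz => abs_le.1 hz.1) (by simp) (by simp) hu hw
  exact hz2.2 hz1

private theorem jct_cpt {Q : Set ℂ} (hQ : IsCompact Q) (hb : ∀ z ∈ Q, |z.im| < 2) :
    IsCompact {y : ℝ | V 0 y ∈ Q} := by
  refine IsCompact.of_isClosed_subset (isCompact_Icc (a := (-2 : ℝ)) (b := 2))
    (hQ.isClosed.preimage (V_cont 0)) ?_
  intro y hy
  have h := abs_lt.1 (hb _ hy)
  rw [V_im] at h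
  exact ⟨h.1.le, h.2.le⟩

private theorem jct_exit {W : Set ℂ} {z₀ w' : ℂ} (h : JoinedIn W z₀ w')
    (h0 : |z₀.re| < 1 ∧ |z₀.im| < 2) (hw : ¬ (|w'.re| ≤ 1 ∧ |w'.im| ≤ 2)) :
    ∃ w : ℂ, JoinedIn (W ∩ {z | |z.re| ≤ 1 ∧ |z.im| ≤ 2}) z₀ w ∧ (|w.re| = 1 ∨ |w.im| = 2) := by
  obtain ⟨γ, hγ⟩ := h
  obtain ⟨g, hgc, hg0, hg1, hgW⟩ : ∃ g : ℝ → ℂ, Continuous g ∧ g 0 = z₀ ∧ g 1 = w' ∧
      ∀ t, g t ∈ W := by
    refine ⟨γ.extend, γ.continuous_extend, γ.extend_zero, γ.extend_one, fun t => ?_⟩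
    have h1 : γ.extend t ∈ Set.range γ.extend := ⟨t, rfl⟩
    rw [γ.extend_range] at h1
    obtain ⟨s, hs⟩ := h1
    rw [← hs]
    exact hγ s
  set d : ℝ → ℝ := fun t => max |(g t).re| (|(g t).im| / 2) with hd
  have hdc : Continuous d := by
    have h1 : Continuous fun t => (g t).re := Complex.continuous_re.comp hgc
    have h2 : Continuous fun t => (g t).im := Complex.continuous_im.comp hgc
    exact h1.abs.max (h2.abs.div_const 2)
  have hd0 : d 0 < 1 := by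
    rw [hd]
    simp only [hg0]
    exact max_lt h0.1 (by linarith [h0.2])
  have hd1 : 1 < d 1 := by
    rw [hd]
    simp only [hg1]
    by_contra hle
    push Not at hle
    have h1 := (le_max_left _ _).trans hle
    have h2 := (le_max_right _ _).trans hle
    exact hw ⟨h1, by linarith⟩
  have hSc : IsCompact {t : ℝ | t ∈ Icc (0 : ℝ) 1 ∧ 1 ≤ d t} := by
    refine IsCompact.of_isClosed_subset (isCompact_Icc (a := (0 : ℝ)) (b := 1)) ?_
      (fun t ht => ht.1)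
    exact isClosed_Icc.inter (isClosed_le continuous_const hdc)
  obtain ⟨τ, ⟨hτ1, hτ2⟩, hτ3⟩ := hSc.exists_isLeast ⟨1, ⟨by norm_num, le_refl _⟩, hd1.le⟩
  have hlt : ∀ t, 0 ≤ t → t < τ → d t < 1 := by
    intro t ht0 ht
    by_contra hle
    push Not at hle
    exact absurd (hτ3 ⟨⟨ht0, ht.le.trans hτ1.2⟩, hle⟩) (not_le.2 ht)
  have hdτ : d τ = 1 := by
    obtain ⟨c, hc, hc1⟩ := intermediate_value_Icc hτ1.1 hdc.continuousOn ⟨hd0.le, hτ2⟩
    have h1 : τ ≤ c := hτ3 ⟨⟨hc.1, hc.2.trans hτ1.2⟩, hc1.ge⟩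
    have h2 : c = τ := le_antisymm hc.2 h1
    rw [← h2]
    exact hc1
  have hle : ∀ t, 0 ≤ t → t ≤ τ → d t ≤ 1 := by
    intro t ht0 ht
    rcases ht.lt_or_eq with h1 | h1
    · exact (hlt t ht0 h1).le
    · rw [h1]; exact hdτ.le
  refine ⟨g τ, ?_, ?_⟩
  · refine JoinedIn.ofLine (f := fun s => g (s * τ)) ?_ ?_ ?_ ?_
    · exact (hgc.comp (continuous_id.mul continuous_const)).continuousOn
    · simp only [zero_mul]; exact hg0
    · simp only [one_mul]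
    · rintro _ ⟨s, hs, rfl⟩
      refine ⟨hgW _, ?_⟩
      have h1 : d (s * τ) ≤ 1 := hle _ (mul_nonneg hs.1 hτ1.1) (by nlinarith [hs.2, hτ1.1])
      have h2 := (le_max_left _ _).trans h1
      have h3 := (le_max_right _ _).trans h1
      exact ⟨h2, by
        show |(g (s * τ)).im| ≤ 2
        linarith⟩
  · rcases max_choice |(g τ).re| (|(g τ).im| / 2) with h1 | h1
    · left
      rw [← h1]; exact hdτ
    · right
      have h2 : |(g τ).im| / 2 = 1 := by rw [← h1]; exact hdτ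
      linarith

private theorem jct_half {Q₁ Q₂ : Set ℂ} (hQ₁ : IsCompact Q₁) (hQ₂ : IsCompact Q₂)
    (h12 : Q₁ ∩ Q₂ = {-1, 1})
    (hb : ∀ z ∈ Q₁ ∪ Q₂, |z.re| ≤ 1 ∧ |z.im| < 2 ∧ (|z.re| = 1 → z = -1 ∨ z = 1))
    (j₁ : JoinedIn Q₁ (-1) 1) (j₂ : JoinedIn Q₂ (-1) 1)
    (k₁ : ∀ z ∈ Q₁ \ {-1, 1}, ∀ w ∈ Q₁ \ {-1, 1}, JoinedIn (Q₁ \ {-1, 1}) z w)
    {yl : ℝ} (hl : V 0 yl ∈ Q₁) (hmax : ∀ y, V 0 y ∈ Q₁ ∪ Q₂ → y ≤ yl) :
    ∃ z ∉ Q₁ ∪ Q₂, Bornology.IsBounded (connectedComponentIn (Q₁ ∪ Q₂)ᶜ z) := by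
  have hb1 : ∀ z ∈ Q₁, |z.im| < 2 := fun z hz => (hb z (Or.inl hz)).2.1
  have hb2 : ∀ z ∈ Q₂, |z.im| < 2 := fun z hz => (hb z (Or.inr hz)).2.1
  have hm1 : ∀ z ∈ Q₁, z ≠ -1 → z ≠ 1 → z ∉ Q₂ := by
    intro z hz h1 h2 hz2
    have h3 : z ∈ Q₁ ∩ Q₂ := ⟨hz, hz2⟩
    rw [h12] at h3
    rcases h3 with h3 | h3
    · exact h1 h3
    · exact h2 h3
  have hpm : ∀ z : ℂ, z = -1 ∨ z = 1 → z ∈ Q₁ ∪ Q₂ := by
    intro z hz
    have h3 : z ∈ Q₁ ∩ Q₂ := by rw [h12]; exact hz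
    exact Or.inl h3.1
  have hV1 : ∀ y, V 0 y ≠ -1 := by
    intro y h
    have h1 := congrArg Complex.re h
    rw [V_re] at h1
    simp at h1
  have hV2 : ∀ y, V 0 y ≠ 1 := by
    intro y h
    have h1 := congrArg Complex.re h
    rw [V_re] at h1
    simp at h1
  have hlb := abs_lt.1 (hb1 _ hl)
  rw [V_im] at hlb
  -- the lowest point of `Q₁` on the segment
  obtain ⟨ym, hym, hym'⟩ := (jct_cpt hQ₁ hb1).exists_isLeast ⟨yl, hl⟩
  have hmin : ∀ y, V 0 y ∈ Q₁ → ym ≤ y := fun y hy => hym' hy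
  have hymQ : V 0 ym ∈ Q₁ := hym
  have hmb := abs_lt.1 (hb1 _ hymQ)
  rw [V_im] at hmb
  have hymn : V 0 ym ∉ Q₂ := hm1 _ hymQ (hV1 _) (hV2 _)
  have hre0 : ∀ y, |(V 0 y).re| ≤ 1 := fun y => by rw [V_re]; simp
  -- the upper part of the path: from `ym` to the top, missing `Q₂`
  have hup : JoinedIn {z : ℂ | |z.re| ≤ 1 ∧ z ∉ Q₂} (V 0 ym) (V 0 2) := by
    have h1 : JoinedIn {z : ℂ | |z.re| ≤ 1 ∧ z ∉ Q₂} (V 0 ym) (V 0 yl) := by
      refine (k₁ _ ⟨hymQ, ?_⟩ _ ⟨hl, ?_⟩).mono ?_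
      · rintro (h | h)
        · exact hV1 _ h
        · exact hV2 _ h
      · rintro (h | h)
        · exact hV1 _ h
        · exact hV2 _ h
      · rintro z ⟨hz1, hz2⟩
        refine ⟨(hb z (Or.inl hz1)).1, hm1 z hz1 ?_ ?_⟩
        · intro h; exact hz2 (Or.inl h)
        · intro h; exact hz2 (Or.inr h)
    refine h1.trans (jct_seg hlb.2.le fun y hy1 _ => ⟨hre0 y, ?_⟩)
    intro hy
    have h2 : y = yl := le_antisymm (hmax y (Or.inr hy)) hy1
    rw [h2] at hy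
    exact hm1 _ hl (hV1 _) (hV2 _) hy
  -- the segment below `ym` meets `Q₂`
  have hne : ({y : ℝ | V 0 y ∈ Q₂} ∩ Iic ym).Nonempty := by
    by_contra hemp
    rw [Set.not_nonempty_iff_eq_empty] at hemp
    refine jct_nc hb2 j₂ (u := V 0 (-2)) (w := V 0 2) (V_im _ _) (V_im _ _) ?_
    refine JoinedIn.trans (jct_seg hmb.1.le fun y _ hy2 => ⟨hre0 y, ?_⟩) hup
    intro hy
    have h1 : y ∈ {y : ℝ | V 0 y ∈ Q₂} ∩ Iic ym := ⟨hy, hy2⟩
    rw [hemp] at h1
    exact h1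
  obtain ⟨yp, ⟨hyp1, hyp2⟩, hyp3⟩ := ((jct_cpt hQ₂ hb2).inter_right isClosed_Iic).exists_isGreatest hne
  have hypQ : V 0 yp ∈ Q₂ := hyp1
  have hpb := abs_lt.1 (hb2 _ hypQ)
  rw [V_im] at hpb
  have hpm' : yp < ym := by
    rcases (show yp ≤ ym from hyp2).lt_or_eq with h | h
    · exact h
    · exact absurd (h ▸ hypQ) hymn
  have hmid1 : yp < (yp + ym) / 2 := by linarith
  have hmid2 : (yp + ym) / 2 < ym := by linarith
  have hQ1lt : ∀ y, y < ym → V 0 y ∉ Q₁ := fun y hy h => absurd (hmin y h) (not_le.2 hy)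
  have hQ2gt : ∀ y, yp < y → y ≤ ym → V 0 y ∉ Q₂ := fun y hy hy' h =>
    absurd (hyp3 ⟨h, hy'⟩) (not_le.2 hy)
  have hz₀ : V 0 ((yp + ym) / 2) ∉ Q₁ ∪ Q₂ := by
    rintro (h | h)
    · exact hQ1lt _ hmid2 h
    · exact hQ2gt _ hmid1 hmid2.le h
  refine ⟨V 0 ((yp + ym) / 2), hz₀, ?_⟩
  have hQo : IsOpen (Q₁ ∪ Q₂)ᶜ := (hQ₁.union hQ₂).isClosed.isOpen_compl
  have hWE : connectedComponentIn (Q₁ ∪ Q₂)ᶜ (V 0 ((yp + ym) / 2)) ⊆
      {z : ℂ | |z.re| ≤ 1 ∧ |z.im| ≤ 2} := by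
    intro w' hw'
    by_contra hno
    have hWo : IsOpen (connectedComponentIn (Q₁ ∪ Q₂)ᶜ (V 0 ((yp + ym) / 2))) :=
      hQo.connectedComponentIn
    have hWc : IsConnected (connectedComponentIn (Q₁ ∪ Q₂)ᶜ (V 0 ((yp + ym) / 2))) :=
      isConnected_connectedComponentIn_iff.2 hz₀
    have hWp : IsPathConnected (connectedComponentIn (Q₁ ∪ Q₂)ᶜ (V 0 ((yp + ym) / 2))) :=
      hWo.isConnected_iff_isPathConnected.1 hWc
    have hj := hWp.joinedIn _ (mem_connectedComponentIn hz₀) _ hw'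
    obtain ⟨w, hw1, hw2⟩ := jct_exit hj ⟨by rw [V_re]; simp, by
      rw [V_im, abs_lt]; exact ⟨by linarith, by linarith⟩⟩ hno
    have hwm := hw1.target_mem
    have hwQ : w ∉ Q₁ ∪ Q₂ := connectedComponentIn_subset _ _ hwm.1
    have hwim : w.im ≠ 0 := by
      intro h0
      rcases hw2 with h | h
      · apply hwQ
        apply hpm
        rcases abs_eq (by norm_num : (0:ℝ) ≤ 1) |>.1 h with h1 | h1
        · right
          exact Complex.ext (by simp [h1]) (by simp [h0])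
        · left
          exact Complex.ext (by simp [h1]) (by simp [h0])
      · rw [h0] at h; norm_num at h
    have hjw : ∀ Q : Set ℂ, Q ⊆ Q₁ ∪ Q₂ →
        JoinedIn {z : ℂ | |z.re| ≤ 1 ∧ z ∉ Q} (V 0 ((yp + ym) / 2)) w := by
      intro Q hQ
      refine hw1.mono ?_
      rintro z ⟨hz1, hz2⟩
      exact ⟨hz2.1, fun h => connectedComponentIn_subset _ _ hz1 (hQ h)⟩
    have hside : ∀ y, |w.re| = 1 → y ≠ 0 → V w.re y ∉ Q₁ ∪ Q₂ := by
      intro y h1 hy h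
      have h2 := (hb _ h).2.2 (by rw [V_re]; exact h1)
      rcases h2 with h2 | h2
      · have h3 := congrArg Complex.im h2
        rw [V_im] at h3
        simp at h3
        exact hy h3
      · have h3 := congrArg Complex.im h2
        rw [V_im] at h3
        simp at h3
        exact hy h3
    have hwE := hwm.2
    rcases lt_or_gt_of_ne hwim with hneg | hpos
    · -- below
      have hdown : ∃ u : ℂ, u.im = -2 ∧ JoinedIn {z : ℂ | |z.re| ≤ 1 ∧ z ∉ Q₂} u w := by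
        rcases hw2 with h | h
        · refine ⟨V w.re (-2), V_im _ _, ?_⟩
          have h1 : JoinedIn {z : ℂ | |z.re| ≤ 1 ∧ z ∉ Q₂} (V w.re (-2)) (V w.re w.im) := by
            refine jct_seg (abs_le.1 hwE.2).1 fun y _ hy2 => ⟨by rw [V_re]; exact hwE.1, ?_⟩
            intro hy
            exact hside y h (by linarith) (Or.inr hy)
          rwa [V_eta] at h1
        · refine ⟨w, ?_, ?_⟩
          · rw [abs_of_neg hneg] at h; linarith
          · exact JoinedIn.refl ⟨hwE.1, fun h => hwQ (Or.inr h)⟩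
      obtain ⟨u, hu1, hu2⟩ := hdown
      refine jct_nc hb2 j₂ hu1 (V_im 0 2) ?_
      refine (hu2.trans (hjw Q₂ subset_union_right).symm).trans (JoinedIn.trans ?_ hup)
      exact jct_seg hmid2.le fun y hy1 hy2 => ⟨hre0 y, hQ2gt y (by linarith) hy2⟩
    · -- above
      have hupw : ∃ u : ℂ, u.im = 2 ∧ JoinedIn {z : ℂ | |z.re| ≤ 1 ∧ z ∉ Q₁} w u := by
        rcases hw2 with h | h
        · refine ⟨V w.re 2, V_im _ _, ?_⟩
          have h1 : JoinedIn {z : ℂ | |z.re| ≤ 1 ∧ z ∉ Q₁} (V w.re w.im) (V w.re 2) := by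
            refine jct_seg (abs_le.1 hwE.2).2 fun y hy1 _ => ⟨by rw [V_re]; exact hwE.1, ?_⟩
            intro hy
            exact hside y h (by linarith) (Or.inl hy)
          rwa [V_eta] at h1
        · refine ⟨w, ?_, ?_⟩
          · rw [abs_of_pos hpos] at h; linarith
          · exact JoinedIn.refl ⟨hwE.1, fun h => hwQ (Or.inl h)⟩
      obtain ⟨u, hu1, hu2⟩ := hupw
      refine jct_nc hb1 j₁ (V_im 0 (-2)) hu1 ?_
      refine JoinedIn.trans (JoinedIn.trans ?_ (hjw Q₁ subset_union_left)) hu2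
      exact jct_seg (by linarith) fun y _ hy2 => ⟨hre0 y, hQ1lt y (by linarith)⟩
  refine Bornology.IsBounded.subset (Metric.isBounded_closedBall (x := (0 : ℂ)) (r := 3)) ?_
  intro z hz
  have h1 := hWE hz
  rw [mem_closedBall, dist_zero_right]
  calc ‖z‖ ≤ |z.re| + |z.im| := Complex.norm_le_abs_re_add_abs_im z
    _ ≤ 1 + 2 := add_le_add h1.1 h1.2
    _ = 3 := by norm_num

theorem jct_core {Q₁ Q₂ : Set ℂ} (hQ₁ : IsCompact Q₁) (hQ₂ : IsCompact Q₂)
    (h12 : Q₁ ∩ Q₂ = {-1, 1})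
    (hb : ∀ z ∈ Q₁ ∪ Q₂, |z.re| ≤ 1 ∧ |z.im| < 2 ∧ (|z.re| = 1 → z = -1 ∨ z = 1))
    (j₁ : JoinedIn Q₁ (-1) 1) (j₂ : JoinedIn Q₂ (-1) 1)
    (k₁ : ∀ z ∈ Q₁ \ {-1, 1}, ∀ w ∈ Q₁ \ {-1, 1}, JoinedIn (Q₁ \ {-1, 1}) z w)
    (k₂ : ∀ z ∈ Q₂ \ {-1, 1}, ∀ w ∈ Q₂ \ {-1, 1}, JoinedIn (Q₂ \ {-1, 1}) z w) :
    ∃ z ∉ Q₁ ∪ Q₂, Bornology.IsBounded (connectedComponentIn (Q₁ ∪ Q₂)ᶜ z) := by
  have hb1 : ∀ z ∈ Q₁, |z.im| < 2 := fun z hz => (hb z (Or.inl hz)).2.1
  have hbu : ∀ z ∈ Q₁ ∪ Q₂, |z.im| < 2 := fun z hz => (hb z hz).2.1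
  have hne : {y : ℝ | V 0 y ∈ Q₁ ∪ Q₂}.Nonempty := by
    by_contra hemp
    rw [Set.not_nonempty_iff_eq_empty] at hemp
    refine jct_nc hb1 j₁ (u := V 0 (-2)) (w := V 0 2) (V_im _ _) (V_im _ _) ?_
    refine jct_seg (by norm_num) fun y _ _ => ⟨by rw [V_re]; simp, ?_⟩
    intro hy
    have h1 : y ∈ {y : ℝ | V 0 y ∈ Q₁ ∪ Q₂} := Or.inl hy
    rw [hemp] at h1
    exact h1
  obtain ⟨yl, hyl, hyl'⟩ := (jct_cpt (hQ₁.union hQ₂) hbu).exists_isGreatest hne
  rcases (show V 0 yl ∈ Q₁ ∪ Q₂ from hyl) with h | h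
  · exact jct_half hQ₁ hQ₂ h12 hb j₁ j₂ k₁ h (fun y hy => hyl' hy)
  · rw [Set.union_comm Q₁ Q₂] at hb hyl' ⊢
    rw [Set.inter_comm] at h12
    exact jct_half hQ₂ hQ₁ h12 hb j₂ j₁ k₂ h (fun y hy => hyl' hy)

end Pool.Agent.JH
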