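import Pool.Agent.Lib.MP_8ebc20_an.WE2

/-!
# LAM: the closed path formed by two rays landing at the same point

`Lam S a c` on `[0, 2 S + (c - a)]`: the ray `a` from `γ a` up to level `S`, the equipotential of level
`S` from `a` to `c`, the ray `c` down to `γ c`.

PROOFS. `Lam_cont`: three continuous pieces which agree at `S` and `S + (c - a)` (`ContinuousOn.if` or
`ContinuousOn.union_continuousAt`-type lemmas; the function is `Icc`-wise one of `EB_cont`, `EE_cont` composed with continuous maps).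
`Lam_zero`, `Lam_end`: `EB 0 a = γ a`.  `Lam_range`: cases.
`Lam_in`, `Lam_out`: the changes along the three pieces exist (`Chg.exists`: the point is not on them by `EE_inj`,
`γ` has values in `J`); `Chg.trans` with `Chg.congr`, `Chg.comp` and `Chg.comp_rev` gives the change
`v₁ + v₂ - v₃` of `Lam`, with `v_i` as in `ray_pair_in` / `ray_pair_out`.
-/

set_option autoImplicit false

namespace Pool.Agent.JH

open Polynomial Set Metric Filter Topology

variable {f : ℂ[X]} {J : Set ℂ} {γ : ℝ → ℂ} {ψ ψi : ℂ → ℂ}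

/-- the closed path formed by the rays of angles `a` and `c` and an equipotential -/
noncomputable def Lam (ψ : ℂ → ℂ) (γ : ℝ → ℂ) (S a c : ℝ) (u : ℝ) : ℂ :=
  if u ≤ S then EB ψ γ u a
  else if u ≤ S + (c - a) then EE ψ S (a + (u - S))
  else EB ψ γ (2 * S + (c - a) - u) c

private theorem Lam_p1 {S a c : ℝ} :
    EqOn (fun u => EB ψ γ u a) (Lam ψ γ S a c) (Icc 0 S) := by
  intro u hu
  simp only [Lam, if_pos hu.2]

private theorem Lam_p2 {S a c : ℝ} (hS : 0 < S) (hac : a < c) :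
    EqOn (fun u => EE ψ S (a + (u - S))) (Lam ψ γ S a c) (Icc S (S + (c - a))) := by
  intro u hu
  rcases hu.1.eq_or_lt with h | h
  · subst h
    simp [Lam, EB, hS]
  · simp only [Lam, if_neg (not_le.2 h), if_pos hu.2]

private theorem Lam_p3 {S a c : ℝ} (hS : 0 < S) (hac : a < c) :
    EqOn (fun u => EB ψ γ (2 * S + (c - a) - u) c) (Lam ψ γ S a c)
      (Icc (S + (c - a)) (2 * S + (c - a))) := by
  intro u hu
  have h0 : ¬ u ≤ S := by
    have := hu.1
    linarith
  rcases hu.1.eq_or_lt with h | h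
  · subst h
    have e1 : 2 * S + (c - a) - (S + (c - a)) = S := by ring
    have e2 : a + (S + (c - a) - S) = c := by ring
    simp only [Lam, if_neg h0, le_refl, if_true, e1, e2, EB, if_pos hS]
  · simp only [Lam, if_neg h0, if_neg (not_le.2 h)]

theorem IsLoop.Lam_cont (hl : IsLoop f J ψ γ) (hE : ExtMap f ψ ψi) {S a c : ℝ} (hS : 0 < S)
    (hac : a < c) : ContinuousOn (Lam ψ γ S a c) (Icc 0 (2 * S + (c - a))) := by
  have c1 : ContinuousOn (Lam ψ γ S a c) (Icc 0 S) := by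
    refine ContinuousOn.congr ?_ (Lam_p1 (ψ := ψ) (γ := γ) (S := S) (a := a) (c := c)).symm
    exact (hl.EB_cont hE).comp (f := fun u : ℝ => (u, a)) (by fun_prop) fun u hu => hu.1
  have c2 : ContinuousOn (Lam ψ γ S a c) (Icc S (S + (c - a))) := by
    refine ContinuousOn.congr ?_ (Lam_p2 (ψ := ψ) (γ := γ) hS hac).symm
    exact hE.EE_cont.comp (f := fun u : ℝ => (S, a + (u - S))) (by fun_prop) fun u _ => hS
  have c3 : ContinuousOn (Lam ψ γ S a c) (Icc (S + (c - a)) (2 * S + (c - a))) := by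
    refine ContinuousOn.congr ?_ (Lam_p3 (ψ := ψ) (γ := γ) hS hac).symm
    refine (hl.EB_cont hE).comp (f := fun u : ℝ => (2 * S + (c - a) - u, c)) (by fun_prop) ?_
    intro u hu
    have := hu.2
    simp only [mem_ofPred_eq]
    linarith
  have e1 : Icc (0 : ℝ) (2 * S + (c - a)) =
      (Icc 0 S ∪ Icc S (S + (c - a))) ∪ Icc (S + (c - a)) (2 * S + (c - a)) := by
    rw [Icc_union_Icc_eq_Icc hS.le (by linarith), Icc_union_Icc_eq_Icc (by linarith) (by linarith)]
  rw [e1]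
  exact (c1.union_of_isClosed c2 isClosed_Icc isClosed_Icc).union_of_isClosed c3
    (isClosed_Icc.union isClosed_Icc) isClosed_Icc

theorem Lam_zero {S a c : ℝ} (hS : 0 < S) : Lam ψ γ S a c 0 = γ a := by
  simp [Lam, hS.le, EB]

theorem Lam_end {S a c : ℝ} (hS : 0 < S) (hac : a < c) :
    Lam ψ γ S a c (2 * S + (c - a)) = γ c := by
  have h1 := Lam_p3 (ψ := ψ) (γ := γ) hS hac
    (right_mem_Icc.2 (show S + (c - a) ≤ 2 * S + (c - a) by linarith))
  rw [← h1]
  simp [EB]

theorem Lam_range {S a c u : ℝ} (hS : 0 < S) (hac : a < c) (hu : u ∈ Icc 0 (2 * S + (c - a))) :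
    Lam ψ γ S a c u = γ a ∨ Lam ψ γ S a c u = γ c ∨
      (∃ σ : ℝ, 0 < σ ∧ σ ≤ S ∧ Lam ψ γ S a c u = EE ψ σ a) ∨
      (∃ σ : ℝ, 0 < σ ∧ σ ≤ S ∧ Lam ψ γ S a c u = EE ψ σ c) ∨
      ∃ v : ℝ, a ≤ v ∧ v ≤ c ∧ Lam ψ γ S a c u = EE ψ S v := by
  rcases le_or_gt u S with h1 | h1
  · have e := Lam_p1 (ψ := ψ) (γ := γ) (S := S) (a := a) (c := c) (show u ∈ Icc 0 S from ⟨hu.1, h1⟩)
    simp only at e
    rcases hu.1.eq_or_lt with h0 | h0
    · left
      rw [← e, ← h0]
      simp [EB]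
    · right; right; left
      refine ⟨u, h0, h1, ?_⟩
      rw [← e]
      simp [EB, h0]
  · rcases le_or_gt u (S + (c - a)) with h2 | h2
    · right; right; right; right
      refine ⟨a + (u - S), by linarith, by linarith, ?_⟩
      exact (Lam_p2 (ψ := ψ) (γ := γ) hS hac (show u ∈ Icc S (S + (c - a)) from ⟨h1.le, h2⟩)).symm
    · have e := Lam_p3 (ψ := ψ) (γ := γ) hS hac
        (show u ∈ Icc (S + (c - a)) (2 * S + (c - a)) from ⟨h2.le, hu.2⟩)
      simp only at e
      rcases hu.2.eq_or_lt with h0 | h0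
      · right; left
        rw [← e, h0]
        simp [EB]
      · right; right; right; left
        have h3 : 0 < 2 * S + (c - a) - u := by linarith
        refine ⟨2 * S + (c - a) - u, h3, by linarith, ?_⟩
        rw [← e]
        simp only [EB, if_pos h3]

private theorem Lam_chg {S a c : ℝ} (hS : 0 < S) (hac : a < c) {p v₁ v₂ v₃ : ℂ}
    (h₁ : Chg (fun u => EB ψ γ u a) 0 S p v₁)
    (h₂ : Chg (fun u => EE ψ S u) a c p v₂)
    (h₃ : Chg (fun u => EB ψ γ u c) 0 S p v₃) :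
    Chg (Lam ψ γ S a c) 0 (2 * S + (c - a)) p (v₁ + v₂ - v₃) := by
  have g1 : Chg (Lam ψ γ S a c) 0 S p v₁ := h₁.congr Lam_p1
  have g2 : Chg (Lam ψ γ S a c) S (S + (c - a)) p v₂ := by
    refine (h₂.comp (φ := fun u => a + (u - S)) (a' := S) (b' := S + (c - a)) (by fun_prop) ?_
      (by ring) (by ring)).congr (Lam_p2 hS hac)
    intro u hu
    have h1 := hu.1
    have h2 := hu.2
    exact ⟨by linarith, by linarith⟩
  have g3 : Chg (Lam ψ γ S a c) (S + (c - a)) (2 * S + (c - a)) p (-v₃) := by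
    refine (h₃.comp_rev (φ := fun u => 2 * S + (c - a) - u) (a' := S + (c - a))
      (b' := 2 * S + (c - a)) (by fun_prop) ?_ (by ring) (by ring)).congr (Lam_p3 hS hac)
    intro u hu
    have h1 := hu.1
    have h2 := hu.2
    exact ⟨by linarith, by linarith⟩
  have g4 := (g1.trans hS.le (by linarith) g2).trans (by linarith) (by linarith) g3
  rw [sub_eq_add_neg]
  exact g4

private theorem no_int {x y : ℝ} (h1 : -1 < x - y) (h2 : x - y < 1) (h3 : x ≠ y) :
    ¬ ∃ n : ℤ, x = y + n := by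
  rintro ⟨n, hn⟩
  have h4 : (n : ℝ) = x - y := by linarith
  rw [← h4] at h1 h2
  have h5 : -1 < n := by exact_mod_cast h1
  have h6 : n < 1 := by exact_mod_cast h2
  have h7 : n = 0 := by omega
  rw [h7] at h4
  apply h3
  have h8 : (0 : ℝ) = x - y := by simpa using h4
  linarith

/-- a point with an angle different from that of the ray is not on the ray -/
private theorem ray_ne (hl : IsLoop f J ψ γ) (hE : ExtMap f ψ ψi) (h : Hyp f J) {b s t u : ℝ}
    (hs : 0 < s) (hu : 0 ≤ u) (hn : ¬ ∃ n : ℤ, t = b + n) : EB ψ γ u b ≠ EE ψ s t := by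
  intro he
  unfold EB at he
  by_cases h0 : 0 < u
  · rw [if_pos h0] at he
    exact hn (hE.EE_inj h0 hs he).2
  · rw [if_neg h0] at he
    have h1 : EE ψ s t ∈ (KSet f)ᶜ := hE.EE_mem hs
    rw [← he] at h1
    exact h1 (h.J_sub_K (hl.g_mem b))

private theorem ray_exists (hl : IsLoop f J ψ γ) (hE : ExtMap f ψ ψi) (h : Hyp f J) {b s t S : ℝ}
    (hs : 0 < s) (hS : 0 < S) (hn : ¬ ∃ n : ℤ, t = b + n) :
    ∃ v, Chg (fun u => EB ψ γ u b) 0 S (EE ψ s t) v := by
  refine Chg.exists hS.le ?_ fun u hu => ray_ne hl hE h hs hu.1 hn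
  exact (hl.EB_cont hE).comp (f := fun u : ℝ => (u, b)) (by fun_prop) fun u hu => hu.1

private theorem eq_exists (hE : ExtMap f ψ ψi) {a c s t S : ℝ} (hac : a < c)
    (hs : 0 < s) (hsS : s < S) : ∃ v, Chg (fun u => EE ψ S u) a c (EE ψ s t) v := by
  have hS : 0 < S := hs.trans hsS
  refine Chg.exists hac.le ?_ ?_
  · exact hE.EE_cont.comp (f := fun u : ℝ => (S, u)) (by fun_prop) fun u _ => hS
  · intro u _ he
    exact hsS.ne' (hE.EE_inj hS hs he).1

theorem IsLoop.Lam_in (hl : IsLoop f J ψ γ) (hE : ExtMap f ψ ψi) (h : Hyp f J) {a c S s t : ℝ}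
    (hac : a < c) (hca : c < a + 1) (hγ : γ a = γ c) (hs : 0 < s) (hsS : s < S) (ht : a < t)
    (ht' : t < c) :
    Chg (Lam ψ γ S a c) 0 (2 * S + (c - a)) (EE ψ s t) (2 * Real.pi * Complex.I) := by
  have hS : 0 < S := hs.trans hsS
  obtain ⟨v₁, h₁⟩ := ray_exists hl hE h (b := a) (t := t) hs hS
    (no_int (by linarith) (by linarith) ht.ne')
  obtain ⟨v₂, h₂⟩ := eq_exists hE (t := t) hac hs hsS
  obtain ⟨v₃, h₃⟩ := ray_exists hl hE h (b := c) (t := t) hs hS
    (no_int (by linarith) (by linarith) ht'.ne)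
  have h4 := Lam_chg hS hac h₁ h₂ h₃
  rwa [hl.ray_pair_in hE h hac hca hγ hs hsS ht ht' h₁ h₂ h₃] at h4

theorem IsLoop.Lam_out (hl : IsLoop f J ψ γ) (hE : ExtMap f ψ ψi) (h : Hyp f J) {a c S s t : ℝ}
    (hac : a < c) (hca : c < a + 1) (hγ : γ a = γ c) (hs : 0 < s) (hsS : s < S) (ht : c < t)
    (ht' : t < a + 1) :
    Chg (Lam ψ γ S a c) 0 (2 * S + (c - a)) (EE ψ s t) 0 := by
  have hS : 0 < S := hs.trans hsS
  obtain ⟨v₁, h₁⟩ := ray_exists hl hE h (b := a) (t := t) hs hS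
    (no_int (by linarith) (by linarith) (by linarith : a < t).ne')
  obtain ⟨v₂, h₂⟩ := eq_exists hE (t := t) hac hs hsS
  obtain ⟨v₃, h₃⟩ := ray_exists hl hE h (b := c) (t := t) hs hS
    (no_int (by linarith) (by linarith) ht.ne')
  have h4 := Lam_chg hS hac h₁ h₂ h₃
  rwa [hl.ray_pair_out hE h hac hca hγ hs hsS ht ht' h₁ h₂ h₃] at h4

end Pool.Agent.JH
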