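import Pool.Agent.Lib.MP_8ebc20_an.EProp1

/-!
# WE0: logarithm of the exterior coordinate about a point of `K`

PROOF of `exists_Lp`.  `p ∈ K`.  On the half plane `{s > 0}` (convex, open, so simply connected) the function
`EE s t - p` has no zero, so it has a continuous logarithm `L` (`Complex.exists_continuousOn_eqOn_exp_comp`
with `X = ℝ × ℝ`).  `L (s, t + 1) - L (s, t)` is continuous with values in `2 π I ℤ`, so a constant
`2 π I m`.  By `asym`, `EE s t - p = e^ζ (1 + o(1))`, `ζ = s + 2 π I t`, as `s → ∞` uniformly in `t`; so for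
a large fixed `s` the function `t ↦ L (s, t) - ζ` has exponential in the disc of radius `1/2` about `1`, so it differs from the
function `t ↦ Complex.log ((EE s t - p) e^(-ζ))` (continuous, equal values at `t` and `t + 1`) by a
constant: `m = 1`.  For an integer `n` use induction.
-/

set_option autoImplicit false

namespace Pool.Agent.JH

open Polynomial Set Metric Filter Topology

variable {f : ℂ[X]} {J : Set ℂ} {γ : ℝ → ℂ} {ψ ψi : ℂ → ℂ}

private lemma we0_const {X : Type*} [TopologicalSpace X] {S : Set X} (hS : IsPreconnected S)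
    {D : X → ℂ} (hD : ContinuousOn D S) (h : ∀ x ∈ S, Complex.exp (D x) = 1) {x y : X}
    (hx : x ∈ S) (hy : y ∈ S) : D x = D y := by
  have hpi : (2 * Real.pi : ℝ) ≠ 0 := by positivity
  have hdisc : IsDiscrete (Set.range ((↑) : ℤ → ℝ)) := isDiscrete_iff_discreteTopology.mpr <|
    (Int.isClosedEmbedding_coe_real.isEmbedding.toHomeomorph.symm.isEmbedding).discreteTopology
  have hval : ∀ z ∈ S, ∃ n : ℤ, D z = n * (2 * Real.pi * Complex.I) := fun z hz =>
    Complex.exp_eq_one_iff.mp (h z hz)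
  have him : ∀ z : X, ∀ n : ℤ, D z = n * (2 * Real.pi * Complex.I) →
      (D z).im / (2 * Real.pi) = n := by
    intro z n hn
    rw [hn]
    have : ((n : ℂ) * (2 * Real.pi * Complex.I)).im = n * (2 * Real.pi) := by
      simp
    rw [this]
    field_simp
  have hc : ContinuousOn (fun z => (D z).im / (2 * Real.pi)) S :=
    (Complex.continuous_im.comp_continuousOn hD).div_const _
  have hm : MapsTo (fun z => (D z).im / (2 * Real.pi)) S (Set.range ((↑) : ℤ → ℝ)) := by
    intro z hz
    obtain ⟨n, hn⟩ := hval z hz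
    exact ⟨n, (him z n hn).symm⟩
  have key := hS.constant_of_mapsTo hdisc hc hm hx hy
  obtain ⟨n, hn⟩ := hval x hx
  obtain ⟨m, hm'⟩ := hval y hy
  have h1 := him x n hn
  have h2 := him y m hm'
  rw [h1, h2] at key
  have : n = m := by exact_mod_cast key
  rw [hn, hm', this]

theorem ExtMap.exists_Lp (hE : ExtMap f ψ ψi) {p : ℂ} (hp : p ∈ KSet f) :
    ∃ L : ℝ × ℝ → ℂ, ContinuousOn L {x | 0 < x.1} ∧
      (∀ s t : ℝ, 0 < s → Complex.exp (L (s, t)) = EE ψ s t - p) ∧
      ∀ s t : ℝ, ∀ n : ℤ, 0 < s → L (s, t + n) = L (s, t) + 2 * Real.pi * Complex.I * n := by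
  have hUo : IsOpen {x : ℝ × ℝ | 0 < x.1} := isOpen_lt continuous_const continuous_fst
  have hUc : Convex ℝ {x : ℝ × ℝ | 0 < x.1} :=
    (convex_Ioi (0 : ℝ)).is_linear_preimage (f := fun x : ℝ × ℝ => x.1)
      ⟨fun _ _ => rfl, fun _ _ => rfl⟩
  have hne : ({x : ℝ × ℝ | 0 < x.1}).Nonempty := ⟨((1 : ℝ), (0 : ℝ)), one_pos (α := ℝ)⟩
  have hsc : IsSimplyConnected {x : ℝ × ℝ | 0 < x.1} := by
    have := hUc.contractibleSpace hne
    exact (inferInstance : SimplyConnectedSpace {x : ℝ × ℝ | 0 < x.1})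
  have hg : ContinuousOn (fun x : ℝ × ℝ => EE ψ x.1 x.2 - p) {x : ℝ × ℝ | 0 < x.1} :=
    hE.EE_cont.sub continuousOn_const
  have h0 : (0 : ℂ) ∉ (fun x : ℝ × ℝ => EE ψ x.1 x.2 - p) '' {x : ℝ × ℝ | 0 < x.1} := by
    rintro ⟨x, hx, h⟩
    have h1 := hE.EE_mem (t := x.2) hx
    have h' : EE ψ x.1 x.2 = p := sub_eq_zero.mp h
    rw [h'] at h1
    exact h1 hp
  obtain ⟨L, hL, hLe⟩ := Complex.exists_continuousOn_eqOn_exp_comp hsc hUo hg h0
  have hexp : ∀ s t : ℝ, 0 < s → Complex.exp (L (s, t)) = EE ψ s t - p := fun s t hs => hLe hs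
  -- the difference
  have hDc : ContinuousOn (fun x : ℝ × ℝ => L (x.1, x.2 + 1) - L x) {x : ℝ × ℝ | 0 < x.1} := by
    refine ContinuousOn.sub (hL.comp (Continuous.continuousOn (by fun_prop)) ?_) hL
    intro x hx
    exact hx
  have hD1 : ∀ x ∈ {x : ℝ × ℝ | 0 < x.1}, Complex.exp (L (x.1, x.2 + 1) - L x) = 1 := by
    rintro ⟨s, t⟩ hx
    have hx' : 0 < s := hx
    have h1 : EE ψ s t - p ≠ 0 := fun h => h0 ⟨(s, t), hx', h⟩
    rw [Complex.exp_sub, hexp s (t + 1) hx', hexp s t hx', EE_per, div_self h1]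
  -- a large level
  obtain ⟨R, hR⟩ : ∃ R : ℝ, ∀ W : ℂ, R < ‖W‖ → ‖ψ W / W - 1‖ < 1 / 4 := by
    have h1 := (Metric.tendsto_nhds.mp hE.asym) (1 / 4) (by norm_num)
    have h2 := Filter.HasBasis.eventually_iff (Metric.hasBasis_cobounded_compl_closedBall (0 : ℂ))
      |>.mp h1
    obtain ⟨r, -, hr⟩ := h2
    refine ⟨r, fun W hW => ?_⟩
    have := hr (x := W) (by simpa using hW)
    rwa [dist_eq_norm] at this
  obtain ⟨s, hs0, hsR, hsp⟩ : ∃ s : ℝ, 0 < s ∧ R < Real.exp s ∧ 4 * ‖p‖ < Real.exp s := by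
    obtain ⟨s, hs⟩ := (((Real.tendsto_exp_atTop.eventually_gt_atTop R).and
      (Real.tendsto_exp_atTop.eventually_gt_atTop (4 * ‖p‖))).and
        (eventually_gt_atTop (0 : ℝ))).exists
    exact ⟨s, hs.2, hs.1.1, hs.1.2⟩
  set z : ℝ → ℂ := fun t => (s : ℂ) + 2 * Real.pi * t * Complex.I with hz
  have hzn : ∀ t, ‖Complex.exp (z t)‖ = Real.exp s := by
    intro t
    rw [Complex.norm_exp]
    congr 1
    simp [hz]
  set q : ℝ → ℂ := fun t => (EE ψ s t - p) * Complex.exp (-z t) with hq
  have hq1 : ∀ t, ‖q t - 1‖ < 1 / 2 := by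
    intro t
    have hW : ‖ψ (Complex.exp (z t)) / Complex.exp (z t) - 1‖ < 1 / 4 :=
      hR _ (by rw [hzn]; exact hsR)
    have e1 : q t - 1 = (ψ (Complex.exp (z t)) / Complex.exp (z t) - 1)
        - p / Complex.exp (z t) := by
      simp only [hq, EE]
      rw [Complex.exp_neg]
      have : Complex.exp (z t) ≠ 0 := Complex.exp_ne_zero _
      field_simp
      ring
    have e2 : ‖p / Complex.exp (z t)‖ < 1 / 4 := by
      rw [norm_div, hzn, div_lt_iff₀ (Real.exp_pos s)]
      linarith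
    rw [e1]
    calc ‖(ψ (Complex.exp (z t)) / Complex.exp (z t) - 1) - p / Complex.exp (z t)‖
        ≤ ‖ψ (Complex.exp (z t)) / Complex.exp (z t) - 1‖ + ‖p / Complex.exp (z t)‖ :=
          norm_sub_le _ _
      _ < 1 / 2 := by linarith
  have hqs : ∀ t, q t ∈ Complex.slitPlane := by
    intro t
    left
    have h1 := Complex.abs_re_le_norm (q t - 1)
    have h2 := hq1 t
    have h3 := neg_abs_le (q t - 1).re
    simp only [Complex.sub_re, Complex.one_re] at h1 h3
    linarith
  have hqc : Continuous q := by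
    refine Continuous.mul ?_ (by fun_prop)
    refine Continuous.sub ?_ continuous_const
    have : ContinuousOn (fun t : ℝ => EE ψ s t) univ := by
      have := hE.EE_cont.comp (f := fun t : ℝ => ((s, t) : ℝ × ℝ)) (s := univ)
        (by fun_prop) (fun t _ => hs0)
      exact this
    exact continuousOn_univ.mp this
  have hLs : Continuous fun t : ℝ => L (s, t) := by
    have := hL.comp (f := fun t : ℝ => ((s, t) : ℝ × ℝ)) (s := univ)
      (by fun_prop) (fun t _ => hs0)
    exact continuousOn_univ.mp this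
  have hM : ContinuousOn (fun t : ℝ => L (s, t) - z t - Complex.log (q t)) univ := by
    refine Continuous.continuousOn ?_
    refine (hLs.sub (by fun_prop)).sub ?_
    exact continuous_iff_continuousAt.mpr fun t =>
      ContinuousAt.clog hqc.continuousAt (hqs t)
  have hM1 : ∀ t ∈ (univ : Set ℝ), Complex.exp (L (s, t) - z t - Complex.log (q t)) = 1 := by
    intro t _
    have hq0 : q t ≠ 0 := Complex.slitPlane_ne_zero (hqs t)
    rw [Complex.exp_sub, Complex.exp_log hq0, Complex.exp_sub, hexp s t hs0]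
    have hdef : q t = (EE ψ s t - p) * Complex.exp (-z t) := rfl
    rw [hdef, Complex.exp_neg]
    have h1 : EE ψ s t - p ≠ 0 := fun h => h0 ⟨(s, t), hs0, h⟩
    have h2 : Complex.exp (z t) ≠ 0 := Complex.exp_ne_zero _
    field_simp
  have hMc := we0_const isPreconnected_univ hM hM1 (mem_univ (0 : ℝ)) (mem_univ (1 : ℝ))
  have hq01 : q 1 = q 0 := by
    have h1 : EE ψ s 1 = EE ψ s 0 := by
      have := EE_per ψ s 0
      rwa [zero_add] at this
    have h2 : Complex.exp (-z 1) = Complex.exp (-z 0) := by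
      rw [Complex.exp_eq_exp_iff_exists_int]
      refine ⟨-1, ?_⟩
      simp only [hz]
      push_cast
      ring
    simp only [hq]
    rw [h1, h2]
  have hDs : L (s, 1) - L (s, 0) = 2 * Real.pi * Complex.I := by
    rw [hq01] at hMc
    simp only [hz] at hMc
    push_cast at hMc
    linear_combination -hMc
  have hstep : ∀ s' t : ℝ, 0 < s' → L (s', t + 1) = L (s', t) + 2 * Real.pi * Complex.I := by
    intro s' t hs'
    have h1 := we0_const hUc.isPreconnected hDc hD1 (x := (s', t)) (y := (s, 0)) hs' hs0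
    simp only [zero_add] at h1
    rw [hDs] at h1
    linear_combination h1
  refine ⟨L, hL, hexp, ?_⟩
  intro s' t n hs'
  induction n using Int.induction_on with
  | zero => simp
  | succ k ih =>
    have h1 := hstep s' (t + k) hs'
    have e : t + ((k + 1 : ℤ) : ℝ) = t + k + 1 := by push_cast; ring
    push_cast at ih
    rw [e, h1, ih]
    push_cast
    ring
  | pred k ih =>
    have h1 := hstep s' (t + ((-k - 1 : ℤ) : ℝ)) hs'
    have e : t + ((-k - 1 : ℤ) : ℝ) + 1 = t + ((-k : ℤ) : ℝ) := by push_cast; ring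
    rw [e, ih] at h1
    push_cast at h1 ⊢
    linear_combination -h1

end Pool.Agent.JH
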