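import Pool.Agent.Lib.MP_8ebc20_an.Wnd2

/-!
# WND3: moving the point

PROOFS. `move`: for a closed path `c`.  The set of `q ∈ S` with `Chg c a b q v` is relatively open in `S`, and so is its
complement: let `q ∈ S`; `c '' Icc a b` is compact and does not contain `q`, so `‖c t - q‖ ≥ ρ > 0`; for `‖q' - q‖ < ρ`
the quotient `(c t - q') / (c t - q)` lies in the disc of radius `1` about `1`, where `Complex.log` is continuous, and
`t ↦ log ((c t - q') / (c t - q))` takes the same value at `a` and `b` (`c a = c b`): so a logarithm of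
`c - q` with change `v'` gives one of `c - q'` with the same change `v'`, and conversely.  `S` is preconnected.
`far`: choose `q ∈ S` with `‖q‖ > sup ‖c‖` (`S` is unbounded); `c t - q = -q (1 - c t / q)` and
`t ↦ log (-q) + log (1 - c t / q)` is a continuous logarithm with equal values at `a`, `b`; so the change about
`q` is `0`; then `move` from `q` to `p`.
`circle`: `r > 0`.  For `p = z₀` take `L t = log r + 2 π t I`; then `move` on the (connected) set `ball z₀ r`.
`no_null`: `F = exp L` on the closed disc, so `t ↦ L (R exp (2 π t I))` shows `Chg (F (R e^..)) 0 1 0 0`;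
but `F (R e^..) = R e^.. - p`, whose change about `0` is the change of the circle `R e^..` about `p`, `2 π I`
(`circle`, `shift`, `unique`): contradiction.
-/

set_option autoImplicit false

namespace Pool.Agent.JH

open Set Metric Filter Topology

variable {c : ℝ → ℂ} {a b : ℝ} {p q v : ℂ}

private theorem wnd3_step (hab : a ≤ b) (hc : ContinuousOn c (Icc a b)) (hcl : c a = c b)
    (hd : ∀ t ∈ Icc a b, ‖q - p‖ < ‖c t - p‖) (h : Chg c a b p v) : Chg c a b q v := by
  obtain ⟨L, hL, he, hv⟩ := h
  have hne : ∀ t ∈ Icc a b, c t - p ≠ 0 := fun t ht h0 => by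
    have h1 := hd t ht
    rw [h0, norm_zero] at h1
    exact absurd h1 (not_lt.2 (norm_nonneg _))
  have hw : ∀ t ∈ Icc a b, (c t - q) / (c t - p) ∈ Complex.slitPlane := by
    intro t ht
    have h1 : (c t - q) / (c t - p) = 1 + (p - q) / (c t - p) := by
      rw [eq_comm, ← div_self (hne t ht), ← add_div]
      congr 1
      ring
    rw [h1]
    apply Complex.mem_slitPlane_of_norm_lt_one
    rw [norm_div, div_lt_one (norm_pos_iff.2 (hne t ht)), norm_sub_rev]
    exact hd t ht
  have hwc : ContinuousOn (fun t => (c t - q) / (c t - p)) (Icc a b) :=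
    (hc.sub continuousOn_const).div (hc.sub continuousOn_const) hne
  refine ⟨fun t => L t + Complex.log ((c t - q) / (c t - p)), hL.add (hwc.clog hw), ?_, ?_⟩
  · intro t ht
    have h2 : (c t - q) / (c t - p) ≠ 0 := Complex.slitPlane_ne_zero (hw t ht)
    rw [Complex.exp_add, Complex.exp_log h2, he t ht, mul_div_cancel₀ _ (hne t ht)]
  · simp only [hcl]
    rw [← hv]
    ring

/-- the winding number is constant on connected sets off the path -/
theorem Chg.move (hab : a ≤ b) (hc : ContinuousOn c (Icc a b)) (hcl : c a = c b) {S : Set ℂ}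
    (hS : IsPreconnected S) (hd : ∀ t ∈ Icc a b, c t ∉ S) (hp : p ∈ S) (hq : q ∈ S)
    (h : Chg c a b p v) : Chg c a b q v := by
  have key : ∀ v, Chg c a b p v → Chg c a b q v := by
    refine hS.induction₂' (fun x y => ∀ v, Chg c a b x v → Chg c a b y v) ?_ ?_ hp hq
    · intro x hx
      have hcomp : IsCompact (c '' Icc a b) := isCompact_Icc.image_of_continuousOn hc
      have hne : (c '' Icc a b).Nonempty := ⟨c a, a, left_mem_Icc.2 hab, rfl⟩
      have hxn : x ∉ c '' Icc a b := by
        rintro ⟨t, ht, rfl⟩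
        exact hd t ht hx
      have hpos : 0 < infDist x (c '' Icc a b) :=
        (hcomp.isClosed.notMem_iff_infDist_pos hne).1 hxn
      set ρ := infDist x (c '' Icc a b) with hρ
      have hge : ∀ t ∈ Icc a b, ρ ≤ ‖c t - x‖ := by
        intro t ht
        have h1 : infDist x (c '' Icc a b) ≤ dist x (c t) := infDist_le_dist_of_mem ⟨t, ht, rfl⟩
        rwa [dist_comm, dist_eq_norm] at h1
      filter_upwards [mem_nhdsWithin_of_mem_nhds (ball_mem_nhds x (half_pos hpos))] with y hy
      rw [mem_ball, dist_eq_norm] at hy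
      refine ⟨fun v hv => wnd3_step hab hc hcl (fun t ht => ?_) hv,
        fun v hv => wnd3_step hab hc hcl (fun t ht => ?_) hv⟩
      · have := hge t ht
        linarith
      · have h1 := hge t ht
        have h2 : ‖c t - x‖ ≤ ‖c t - y‖ + ‖y - x‖ := by
          have h3 : c t - x = (c t - y) + (y - x) := by ring
          rw [h3]
          exact norm_add_le _ _
        rw [norm_sub_rev]
        linarith
    · intro x y z _ _ _ h1 h2 v hv
      exact h2 v (h1 v hv)
  exact key v h

/-- the winding number vanishes on unbounded connected sets off the path -/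
theorem Chg.far (hab : a ≤ b) (hc : ContinuousOn c (Icc a b)) (hcl : c a = c b) {S : Set ℂ}
    (hS : IsPreconnected S) (hd : ∀ t ∈ Icc a b, c t ∉ S) (hp : p ∈ S)
    (hub : ¬ Bornology.IsBounded S) : Chg c a b p 0 := by
  obtain ⟨C, hC⟩ := isCompact_Icc.exists_bound_of_continuousOn hc
  rw [isBounded_iff_forall_norm_le] at hub
  push Not at hub
  obtain ⟨q, hqS, hq⟩ := hub (max C 0)
  have hq0 : q ≠ 0 := by
    intro h0
    rw [h0, norm_zero] at hq
    exact absurd hq (not_lt.2 (le_max_right _ _))
  refine Chg.move hab hc hcl hS hd hqS hp ?_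
  have hw : ∀ t ∈ Icc a b, 1 + -(c t / q) ∈ Complex.slitPlane := by
    intro t ht
    apply Complex.mem_slitPlane_of_norm_lt_one
    rw [norm_neg, norm_div, div_lt_one (norm_pos_iff.2 hq0)]
    exact ((hC t ht).trans (le_max_left _ _)).trans_lt hq
  have hwc : ContinuousOn (fun t => 1 + -(c t / q)) (Icc a b) :=
    continuousOn_const.add (hc.div_const q).neg
  refine ⟨fun t => Complex.log (-q) + Complex.log (1 + -(c t / q)),
    continuousOn_const.add (hwc.clog hw), ?_, ?_⟩
  · intro t ht
    rw [Complex.exp_add, Complex.exp_log (neg_ne_zero.2 hq0),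
      Complex.exp_log (Complex.slitPlane_ne_zero (hw t ht))]
    field_simp
    ring
  · simp only [hcl]
    ring

theorem Chg.circle {z₀ : ℂ} {r : ℝ} (hp : ‖p - z₀‖ < r) :
    Chg (fun t => z₀ + r * Complex.exp (2 * Real.pi * t * Complex.I)) 0 1 p
      (2 * Real.pi * Complex.I) := by
  have hr : 0 < r := (norm_nonneg _).trans_lt hp
  have hc : Continuous (fun t : ℝ => z₀ + r * Complex.exp (2 * Real.pi * t * Complex.I)) := by
    fun_prop
  refine Chg.move (S := ball z₀ r) (p := z₀) zero_le_one hc.continuousOn ?_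
    (convex_ball z₀ r).isPreconnected ?_ (mem_ball_self hr)
    (by rw [mem_ball, dist_eq_norm]; exact hp) ?_
  · have h1 : Complex.exp (2 * Real.pi * ((1 : ℝ) : ℂ) * Complex.I) = 1 := by
      rw [Complex.ofReal_one, mul_one]
      exact Complex.exp_two_pi_mul_I
    have h0 : Complex.exp (2 * Real.pi * ((0 : ℝ) : ℂ) * Complex.I) = 1 := by simp
    show z₀ + r * Complex.exp (2 * Real.pi * ((0 : ℝ) : ℂ) * Complex.I) =
      z₀ + r * Complex.exp (2 * Real.pi * ((1 : ℝ) : ℂ) * Complex.I)
    rw [h1, h0]
  · intro t _ hmem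
    rw [mem_ball, dist_eq_norm, add_sub_cancel_left, norm_mul, Complex.norm_real,
      Real.norm_of_nonneg hr.le] at hmem
    have h1 : ‖Complex.exp (2 * Real.pi * t * Complex.I)‖ = 1 := by
      have h2 : (2 * Real.pi * t * Complex.I : ℂ) = ((2 * Real.pi * t : ℝ) : ℂ) * Complex.I := by
        push_cast
        ring
      rw [h2, Complex.norm_exp_ofReal_mul_I]
    rw [h1, mul_one] at hmem
    exact lt_irrefl _ hmem
  · refine ⟨fun t => (Real.log r : ℂ) + 2 * Real.pi * t * Complex.I, ?_, ?_, ?_⟩
    · have : Continuous (fun t : ℝ => (Real.log r : ℂ) + 2 * Real.pi * t * Complex.I) := by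
        fun_prop
      exact this.continuousOn
    · intro t _
      rw [Complex.exp_add, ← Complex.ofReal_exp, Real.exp_log hr]
      ring
    · push_cast
      ring

theorem no_null {F : ℂ → ℂ} {R : ℝ} (hR : 0 < R) (hF : ContinuousOn F (closedBall 0 R))
    (h0 : ∀ z ∈ closedBall (0 : ℂ) R, F z ≠ 0) {p : ℂ} (hp : ‖p‖ < R)
    (hb : ∀ z : ℂ, ‖z‖ = R → F z = z - p) : False := by
  obtain ⟨L, hL, he⟩ := exists_log_disc hR hF h0
  set γ : ℝ → ℂ := fun t => 0 + R * Complex.exp (2 * Real.pi * t * Complex.I) with hγ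
  have hγc : Continuous γ := by
    rw [hγ]
    fun_prop
  have hγn : ∀ t, ‖γ t‖ = R := by
    intro t
    have h1 : ‖Complex.exp (2 * Real.pi * t * Complex.I)‖ = 1 := by
      have h2 : (2 * Real.pi * t * Complex.I : ℂ) = ((2 * Real.pi * t : ℝ) : ℂ) * Complex.I := by
        push_cast
        ring
      rw [h2, Complex.norm_exp_ofReal_mul_I]
    show ‖0 + R * Complex.exp (2 * Real.pi * t * Complex.I)‖ = R
    rw [zero_add, norm_mul, h1, mul_one, Complex.norm_real, Real.norm_of_nonneg hR.le]
  have hγm : ∀ t, γ t ∈ closedBall (0 : ℂ) R := fun t => by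
    rw [mem_closedBall, dist_zero_right, hγn]
  have hγ1 : γ 1 = γ 0 := by
    have h1 : Complex.exp (2 * Real.pi * ((1 : ℝ) : ℂ) * Complex.I) = 1 := by
      rw [Complex.ofReal_one, mul_one]
      exact Complex.exp_two_pi_mul_I
    have h0 : Complex.exp (2 * Real.pi * ((0 : ℝ) : ℂ) * Complex.I) = 1 := by simp
    show 0 + R * Complex.exp (2 * Real.pi * ((1 : ℝ) : ℂ) * Complex.I) =
      0 + R * Complex.exp (2 * Real.pi * ((0 : ℝ) : ℂ) * Complex.I)
    rw [h1, h0]
  have hA : Chg (fun t => F (γ t)) 0 1 0 0 := by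
    refine ⟨fun t => L (γ t), hL.comp hγc.continuousOn (fun t _ => hγm t), ?_, ?_⟩
    · intro t _
      show Complex.exp (L (γ t)) = F (γ t) - 0
      rw [sub_zero, he _ (hγm t)]
    · show L (γ 1) - L (γ 0) = 0
      rw [hγ1, sub_self]
  have hB : Chg (fun t => F (γ t)) 0 1 0 (2 * Real.pi * Complex.I) := by
    have h1 : Chg γ 0 1 p (2 * Real.pi * Complex.I) :=
      Chg.circle (z₀ := 0) (r := R) (by rw [sub_zero]; exact hp)
    exact (Chg.shift.1 h1).congr fun t _ => (hb _ (hγn t)).symm
  have h2 := hA.unique zero_le_one hB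
  have h3 : (2 * Real.pi * Complex.I : ℂ) ≠ 0 := Complex.two_pi_I_ne_zero
  exact h3 h2.symm

end Pool.Agent.JH
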