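import Pool.Agent.Lib.MP_8ebc20_an.LoopP
import Pool.Agent.Lib.MP_8ebc20_an.Wnd3
import Pool.Agent.Lib.MP_8ebc20_an.WE0

/-!
# WE: winding number of an equipotential

PROOF of `loop_out`: let `0 < s < S`, `p = EE s t`.  The set `T = {EE s t | 0 < s < S} ∪ J` is preconnected: it lies between
the connected set `{EE s t | 0 < s < S}` and its closure (every point of `J` is `γ t = lim EE s t`), misses the path
`EE S ·` (`EE_inj`), contains `p` and a point of `J ⊆ K`, for which the claim is `exists_Lp` (restrict `L` to the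
segment `{S} × [0, 1]`); use `Chg.move`.
-/

set_option autoImplicit false

namespace Pool.Agent.JH

open Polynomial Set Metric Filter Topology

variable {f : ℂ[X]} {J : Set ℂ} {γ : ℝ → ℂ} {ψ ψi : ℂ → ℂ}

theorem IsLoop.loop_out (hl : IsLoop f J ψ γ) (hE : ExtMap f ψ ψi) (h : Hyp f J) {S s t : ℝ}
    (hs : 0 < s) (hsS : s < S) :
    Chg (fun u => EE ψ S u) 0 1 (EE ψ s t) (2 * Real.pi * Complex.I) := by
  have hS : 0 < S := hs.trans hsS
  obtain ⟨q, hq⟩ := h.J_nonempty
  -- the winding number about `q`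
  have hq0 : Chg (fun u => EE ψ S u) 0 1 q (2 * Real.pi * Complex.I) := by
    obtain ⟨L, hL, he, hp⟩ := hE.exists_Lp (h.J_sub_K hq)
    refine ⟨fun u => L (S, u), ?_, fun u _ => he S u hS, ?_⟩
    · exact hL.comp (by fun_prop) (fun u _ => hS)
    · have h1 := hp S 0 1 hS
      rw [Int.cast_one, zero_add] at h1
      simp only [h1, Int.cast_one]
      ring
  have hcc : ContinuousOn (fun u => EE ψ S u) (Icc (0 : ℝ) 1) :=
    hE.EE_cont.comp (f := fun u : ℝ => (S, u)) (by fun_prop) (fun u _ => hS)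
  have hcl : EE ψ S 0 = EE ψ S 1 := by
    have h1 := EE_per ψ S 0
    rw [zero_add] at h1
    exact h1.symm
  -- the connected set
  set A : Set ℂ := (fun x : ℝ × ℝ => EE ψ x.1 x.2) '' (Ioo 0 S ×ˢ univ) with hA
  have hAc : IsPreconnected A := by
    refine IsPreconnected.image ((isPreconnected_Ioo).prod isPreconnected_univ) _ ?_
    exact hE.EE_cont.mono fun x hx => hx.1.1
  have hJA : J ⊆ closure A := by
    intro x hx
    obtain ⟨u, -, rfl⟩ := hl.g_surj hx
    rw [Metric.mem_closure_iff]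
    intro ε hε
    obtain ⟨s₀, hs₀, h1⟩ := hl.lim ε hε
    refine ⟨EE ψ (min s₀ S / 2) u, ⟨(min s₀ S / 2, u), ⟨⟨?_, ?_⟩, mem_univ _⟩, rfl⟩, ?_⟩
    · exact half_pos (lt_min hs₀ hS)
    · have h2 := min_le_right s₀ S
      show min s₀ S / 2 < S
      linarith
    · have h3 := h1 (min s₀ S / 2) u (half_pos (lt_min hs₀ hS)) (by
        have h2 := min_le_left s₀ S
        linarith)
      rw [dist_comm, dist_eq_norm]
      exact h3
  have hT : IsPreconnected (A ∪ J) :=
    hAc.subset_closure subset_union_left (union_subset subset_closure hJA)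
  refine Chg.move zero_le_one hcc hcl hT ?_ (Or.inr hq) (Or.inl ⟨(s, t), ⟨⟨hs, hsS⟩, mem_univ _⟩, rfl⟩)
    hq0
  intro u _ hu
  rcases hu with ⟨x, hx, hxe⟩ | hu
  · obtain ⟨h1, -⟩ := hE.EE_inj hx.1.1 hS hxe
    exact absurd h1 (ne_of_lt hx.1.2)
  · exact hE.EE_mem hS (h.J_sub_K hu)

end Pool.Agent.JH
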