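import Pool.Agent.Lib.MP_8ebc20_an.Tau0
import Pool.Agent.Lib.MP_8ebc20_an.WE

/-!
# LIFTA0: a homeomorphism isotopic to the identity has degree one

PROOFS. `deg_one`: `H₀ : unitInterval → (ℂ ≃ₜ ℂ)` isotopy from the identity to `Φ`.  Choose `p ∈ K`
(`K_nonempty`).  The loop `c t = EE 1 t`, `t ∈ [0, 1]`, has change `2 π I` about `p` (`exists_Lp`).
`F (t, u) = H₀ u (c t) - H₀ u p` is continuous and never `0` (injectivity), closed for every `u`, so by
`Chg.homotopy` (about `0`) the change of `t ↦ Φ (c t)` about `Φ p` is `2 π I`.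
`Φ p ∈ K` by `hΦ`, and `Φ (c t) = EE (σ (1, t)) (τ (1, t))`; with `L` of `exists_Lp` for `Φ p`, the function
`t ↦ L (σ (1, t), τ (1, t))` is a logarithm of `Φ (c t) - Φ p`, and its change is
`L (σ, τ + k) - L (σ, τ) = 2 π I k`.  So `k = 1`.
-/

set_option autoImplicit false

namespace Pool.Agent.JH

open Polynomial Set Metric Filter Topology

variable {f : ℂ[X]} {J : Set ℂ} {γ : ℝ → ℂ} {ψ ψi : ℂ → ℂ} {Φ : ℂ ≃ₜ ℂ}

theorem IsTau.deg_one {σ τ : ℝ × ℝ → ℝ} {k : ℤ} (ht : IsTau ψ Φ σ τ k) (hE : ExtMap f ψ ψi)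
    (h : Hyp f J) (hΦ : ∀ z, Φ z ∈ (KSet f)ᶜ ↔ z ∈ (KSet f)ᶜ)
    {H₀ : unitInterval → (ℂ ≃ₜ ℂ)} (hc : Continuous (fun p : unitInterval × ℂ => H₀ p.1 p.2))
    (h0 : H₀ 0 = Homeomorph.refl ℂ) (h1 : H₀ 1 = Φ) : k = 1 := by
  obtain ⟨p, hp⟩ := K_nonempty (f := f) h.deg
  have hone : (0 : ℝ) < 1 := one_pos
  -- the loop
  have hccont : Continuous fun t : ℝ => EE ψ 1 t := by
    have h1 := hE.EE_cont
    have h2 : Continuous fun t : ℝ => ((1 : ℝ), t) := by fun_prop
    exact h1.comp_continuous h2 fun t => hone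
  have hcp : ∀ t, EE ψ 1 t ≠ p := fun t heq => hE.EE_mem (s := 1) (t := t) hone (heq ▸ hp)
  have hchg : Chg (fun t => EE ψ 1 t) 0 1 p (2 * Real.pi * Complex.I) := by
    obtain ⟨L, hL1, hL2, hL3⟩ := hE.exists_Lp hp
    refine ⟨fun t => L (1, t), ?_, fun t _ => hL2 1 t hone, ?_⟩
    · exact (hL1.comp_continuous (by fun_prop : Continuous fun t : ℝ => ((1 : ℝ), t))
        fun t => hone).continuousOn
    · have := hL3 1 0 1 hone
      simp only [Int.cast_one, zero_add, mul_one] at this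
      simp only [this]
      ring
  -- the homotopy
  set F : ℝ × ℝ → ℂ := fun x =>
    H₀ (projIcc (0 : ℝ) 1 zero_le_one x.2) (EE ψ 1 x.1) - H₀ (projIcc (0 : ℝ) 1 zero_le_one x.2) p
    with hF
  have hFc : Continuous F := by
    have h1 : Continuous fun x : ℝ × ℝ =>
        ((projIcc (0 : ℝ) 1 zero_le_one x.2, EE ψ 1 x.1) : unitInterval × ℂ) :=
      (continuous_projIcc.comp continuous_snd).prodMk (hccont.comp continuous_fst)
    have h2 : Continuous fun x : ℝ × ℝ =>
        ((projIcc (0 : ℝ) 1 zero_le_one x.2, p) : unitInterval × ℂ) :=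
      (continuous_projIcc.comp continuous_snd).prodMk continuous_const
    exact (hc.comp h1).sub (hc.comp h2)
  have hF0 : ∀ x, F x ≠ 0 := by
    intro x hx
    rw [hF] at hx
    simp only [sub_eq_zero] at hx
    exact hcp x.1 ((H₀ _).injective hx)
  have hstart : Chg (fun x => F (x, 0)) 0 1 0 (2 * Real.pi * Complex.I) := by
    refine (Chg.shift.1 hchg).congr fun t _ => ?_
    have : projIcc (0 : ℝ) 1 zero_le_one 0 = 0 := projIcc_left _
    simp only [hF, this, h0, Homeomorph.refl_apply, id_eq]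
  have hend := Chg.homotopy (F := F) (a := 0) (b := 1) (s := 0) (t := 1) (p := 0)
    zero_le_one zero_le_one hFc.continuousOn (fun x _ => hF0 x) (by
      intro y _
      have := EE_per ψ 1 0
      rw [zero_add] at this
      simp only [hF, this]) hstart
  have hend' : Chg (fun t => Φ (EE ψ 1 t)) 0 1 (Φ p) (2 * Real.pi * Complex.I) := by
    rw [Chg.shift]
    refine hend.congr fun t _ => ?_
    have : projIcc (0 : ℝ) 1 zero_le_one 1 = 1 := projIcc_right _
    simp only [hF, this, h1]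
  -- the other computation
  have hΦp : Φ p ∈ KSet f := by
    by_contra hcon
    exact (hΦ p).1 hcon hp
  have hother : Chg (fun t => Φ (EE ψ 1 t)) 0 1 (Φ p) (2 * Real.pi * Complex.I * k) := by
    obtain ⟨L, hL1, hL2, hL3⟩ := hE.exists_Lp hΦp
    refine ⟨fun t => L (σ (1, t), τ (1, t)), ?_, fun t _ => ?_, ?_⟩
    · have h2 : Continuous fun t : ℝ => ((1 : ℝ), t) := by fun_prop
      have h3 : Continuous fun t : ℝ => (σ (1, t), τ (1, t)) :=
        (ht.cσ.comp_continuous h2 fun t => hone).prodMk (ht.cτ.comp_continuous h2 fun t => hone)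
      exact (hL1.comp_continuous h3 fun t => ht.pos 1 t hone).continuousOn
    · rw [hL2 _ _ (ht.pos 1 t hone), ht.eq 1 t hone]
    · have h2 := ht.deg 1 0 hone
      rw [zero_add] at h2
      simp only [h2.1, h2.2]
      rw [hL3 _ _ k (ht.pos 1 0 hone)]
      ring
  have huniq := Chg.unique zero_le_one hother hend'
  have hpi : (2 * Real.pi * Complex.I : ℂ) ≠ 0 := Complex.two_pi_I_ne_zero
  have hk : (k : ℂ) = 1 := mul_left_cancel₀ hpi (by rw [huniq, mul_one])
  exact_mod_cast hk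

end Pool.Agent.JH
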