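import Pool.Agent.Lib.MP_8ebc20_an.Tau
import Pool.Agent.Lib.MP_8ebc20_an.LiftA0

/-!
# LIFTA: literal homeomorphisms of `J` lift to the circle (A1)

PROOF of `lift_exists` (A1): from `Ext J g` take `Φ`, the isotopy; `Φ z ∈ J ↔ z ∈ J` (as `Φ = g` on `J`, and `g` is
onto `J`).  Let `H` be given by `exists_H` for `Φ` and `H'` for `Φ.symm` (with data `σ', τ', k'`).
`H' (H t) - t` is a constant integer: `EE (σ' (σ, τ)) (τ' (σ, τ)) = Φ.symm (Φ (EE s t)) = EE s t` at
`(σ, τ) = (σ (s, t), τ (s, t))`, so `τ' (σ, τ) = t + n` with `n` a continuous integer valued function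
on the half plane, constant; let `s → 0`: `σ → 0` (`sigma_small`), `τ → H t`, so
`τ' (σ, τ) → H' (H t)`.  Hence `H` is injective and continuous, so strictly monotone or antitone
(`Continuous.strictMono_of_inj`), and by `H (t + 1) = H t + 1` (`deg_one`) strictly increasing and onto.
`isAut`: `γ (H x) = g (γ x)` and `g` is injective.
-/

set_option autoImplicit false

namespace Pool.Agent.JH

open Polynomial Set Metric Filter Topology

variable {f : ℂ[X]} {J : Set ℂ} {γ : ℝ → ℂ} {ψ ψi : ℂ → ℂ} {Φ : ℂ ≃ₜ ℂ}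

private lemma lifta_int {x : ℝ} (h : ∀ ε : ℝ, 0 < ε → ∃ n : ℤ, |x - n| < ε) : ∃ n : ℤ, x = n := by
  have h1 : x ∈ closure (Set.range (Int.cast : ℤ → ℝ)) := by
    rw [Metric.mem_closure_iff]
    intro ε hε
    obtain ⟨n, hn⟩ := h ε hε
    exact ⟨(n : ℝ), ⟨n, rfl⟩, hn⟩
  rw [Int.isClosedEmbedding_coe_real.isClosed_range.closure_eq] at h1
  obtain ⟨n, hn⟩ := h1
  exact ⟨n, hn.symm⟩

private lemma lifta_surj {H : ℝ → ℝ} (hc : Continuous H) (hp : ∀ t, H (t + 1) = H t + 1) :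
    Function.Surjective H := by
  have hn : ∀ (n : ℕ) (t : ℝ), H (t + n) = H t + n := by
    intro n
    induction n with
    | zero =>
      intro t
      simp
    | succ n ih =>
      intro t
      have e1 : t + ((n + 1 : ℕ) : ℝ) = (t + n) + 1 := by
        push_cast
        ring
      rw [e1, hp, ih]
      push_cast
      ring
  intro y
  obtain ⟨n, hn1⟩ := exists_nat_gt (|y| + |H 0|)
  have h1 : H n = H 0 + n := by
    have := hn n 0
    rw [zero_add] at this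
    exact this
  have h2 : H (-n) = H 0 - n := by
    have := hn n (-n)
    rw [neg_add_cancel] at this
    linarith
  have hle : (-(n : ℝ)) ≤ n := by
    have : (0 : ℝ) ≤ n := Nat.cast_nonneg n
    linarith
  have h3 := intermediate_value_Icc hle hc.continuousOn
  have ha := abs_le.1 (le_refl |y|)
  have hb := abs_le.1 (le_refl |H 0|)
  have h4 : y ∈ Icc (H (-n)) (H n) := by
    constructor
    · rw [h2]
      linarith [ha.1, hb.2]
    · rw [h1]
      linarith [ha.2, hb.1]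
  obtain ⟨x, _, hx⟩ := h3 h4
  exact ⟨x, hx⟩

private lemma lifta_n {H : ℝ → ℝ} (hp : ∀ t, H (t + 1) = H t + 1) (n : ℤ) (t : ℝ) :
    H (t + n) = H t + n := by
  induction n using Int.induction_on with
  | zero => simp
  | succ i ih =>
    have e1 : t + (((i : ℤ) + 1 : ℤ) : ℝ) = (t + (i : ℤ)) + 1 := by
      push_cast
      ring
    rw [e1, hp, ih]
    push_cast
    ring
  | pred i ih =>
    have e1 : t + ((-(i : ℤ) : ℤ) : ℝ) = (t + ((-(i : ℤ) - 1 : ℤ) : ℝ)) + 1 := by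
      push_cast
      ring
    rw [e1, hp] at ih
    have e2 : ((-(i : ℤ) - 1 : ℤ) : ℝ) = ((-(i : ℤ) : ℤ) : ℝ) - 1 := by
      push_cast
      ring
    rw [e2] at ih ⊢
    linarith

theorem lift_exists (h : Hyp f J) (hE : ExtMap f ψ ψi) (hl : IsLoop f J ψ γ) (g : J ≃ₜ J)
    (hg : Ext J g) : ∃ H : ℝ ≃o ℝ, IsAut γ H ∧ ∀ (x : ℝ) (hx : γ x ∈ J), γ (H x) = g ⟨γ x, hx⟩ := by
  obtain ⟨Φ, hΦg, H₀, hH₀c, hH₀0, hH₀1⟩ := hg
  have hΦJ : ∀ z, Φ z ∈ J ↔ z ∈ J := by
    intro z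
    constructor
    · intro hz
      have h1 := hΦg (g.symm ⟨Φ z, hz⟩)
      rw [g.apply_symm_apply] at h1
      have h2 := Φ.injective h1
      rw [← h2]
      exact (g.symm ⟨Φ z, hz⟩).2
    · intro hz
      have h1 := hΦg ⟨z, hz⟩
      have h2 : Φ z = (g ⟨z, hz⟩ : ℂ) := h1
      rw [h2]
      exact (g ⟨z, hz⟩).2
  have hΦJ' : ∀ z, Φ.symm z ∈ J ↔ z ∈ J := by
    intro z
    have h1 := hΦJ (Φ.symm z)
    rw [Φ.apply_symm_apply] at h1
    exact h1.symm
  have hΦK := h.out hΦJ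
  have hΦK' := h.out hΦJ'
  obtain ⟨σ, τ, k, ht⟩ := hE.exists_tau hΦK
  obtain ⟨σ', τ', k', ht'⟩ := hE.exists_tau hΦK'
  have hk : k = 1 := ht.deg_one hE h hΦK hH₀c hH₀0 hH₀1
  obtain ⟨H, hHc, hHγ, hHd, hHlim⟩ := ht.exists_H hE h hl hΦJ
  obtain ⟨H', hH'c, hH'γ, hH'd, hH'lim⟩ := ht'.exists_H hE h hl hΦJ'
  have hp : ∀ t, H (t + 1) = H t + 1 := by
    intro t
    rw [hHd t, hk, Int.cast_one]
  -- `H' (H t)` differs from `t` by an integer
  have hcomp : ∀ t, ∃ n : ℤ, t - H' (H t) = n := by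
    intro t
    apply lifta_int
    intro ε hε
    obtain ⟨η, hη, h1⟩ := hH'lim (H t) ε hε
    obtain ⟨s₀, hs₀, h2⟩ := ht.sigma_small hE h hΦJ hη
    obtain ⟨η₂, hη₂, h3⟩ := hHlim t η hη
    have hspos : 0 < min s₀ η₂ / 2 := by
      have := lt_min hs₀ hη₂
      linarith
    have hs1 : min s₀ η₂ / 2 < s₀ := by
      have := min_le_left s₀ η₂
      linarith
    have hs2 : min s₀ η₂ / 2 < η₂ := by
      have := min_le_right s₀ η₂
      linarith
    have hσpos := ht.pos (min s₀ η₂ / 2) t hspos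
    have hσ := h2 (min s₀ η₂ / 2) t hspos hs1
    have hτ := h3 (min s₀ η₂ / 2) t hspos hs2 (by rw [sub_self, abs_zero]; exact hη₂)
    have h4 := h1 _ _ hσpos hσ hτ
    have h5 : EE ψ (σ' (σ (min s₀ η₂ / 2, t), τ (min s₀ η₂ / 2, t)))
        (τ' (σ (min s₀ η₂ / 2, t), τ (min s₀ η₂ / 2, t))) = EE ψ (min s₀ η₂ / 2) t := by
      rw [ht'.eq _ _ hσpos, ht.eq _ _ hspos, Φ.symm_apply_apply]
    obtain ⟨-, n, hn⟩ := hE.EE_inj (ht'.pos _ _ hσpos) hspos h5
    refine ⟨n, ?_⟩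
    have h6 : t - H' (H t) - n
        = τ' (σ (min s₀ η₂ / 2, t), τ (min s₀ η₂ / 2, t)) - H' (H t) := by
      linarith
    rw [h6]
    exact h4
  have hinj : Function.Injective H := by
    intro t t' htt
    obtain ⟨n, hn⟩ := hcomp t
    obtain ⟨n', hn'⟩ := hcomp t'
    have h1 : t = t' + ((n - n' : ℤ) : ℝ) := by
      rw [htt] at hn
      push_cast
      linarith
    have h2 := lifta_n hp (n - n') t'
    rw [← h1, htt] at h2
    have h3 : ((n - n' : ℤ) : ℝ) = 0 := by linarith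
    rw [h3, add_zero] at h1
    exact h1
  have hmono : StrictMono H := by
    rcases hHc.strictMono_of_inj hinj with h1 | h1
    · exact h1
    · exfalso
      have h2 := h1 (show (0 : ℝ) < 0 + 1 by norm_num)
      rw [hp 0] at h2
      linarith
  refine ⟨hmono.orderIsoOfSurjective H (lifta_surj hHc hp), ⟨?_, ?_⟩, ?_⟩
  · intro x
    exact hp x
  · intro x y
    show γ x = γ y ↔ γ (H x) = γ (H y)
    rw [hHγ, hHγ]
    exact (Φ.injective.eq_iff).symm
  · intro x hx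
    show γ (H x) = _
    rw [hHγ]
    exact hΦg ⟨γ x, hx⟩

end Pool.Agent.JH
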