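import Pool.Agent.Lib.MP_8ebc20_an.Lam

/-!
# LOCINV: differences of winding numbers at a point of `J` are invariant under `f`

SETTING.  `s < t < s + 1`, `x = γ s = γ t`; `s' = d s + m`, `t' = d t + n`, `s' < t' < s' + 1`; `y = f x = γ s' = γ t'`.
`Λ = Lam 1 s t`, `Λ' = Lam 1 s' t'`, both closed.

PROOF of `loc_inv`.  `f' x ≠ 0` (`no_crit`).  By strict differentiability at `x` choose `r > 0` with
`‖f z - f w - f' x (z - w)‖ ≤ 1/10 ‖f' x‖ ‖z - w‖` for `z, w ∈ ball x r`; and `0 < σ₀ < 1/d` with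
`EB σ s, EB σ t ∈ ball x r` for `0 ≤ σ ≤ σ₀` (`EB_cont` or `lim`).
The far part of `Λ` (ray `s` from level `σ₀` to `1`, equipotential of level `1` from `s` to `t`, ray `t` from level `1` to `σ₀`),
that is `Λ` on the interval `[σ₀, 2 + (t - s) - σ₀]`, is compact and contained in `Kᶜ`, so at distance `≥ ρ > 0` from `x`; the far
part of `Λ'` (`Λ'` on `[d σ₀, 2 + (t' - s') - d σ₀]`) is at distance `≥ ρ` from `y`.
Let `η` be small, `‖p - x‖, ‖p' - x‖ < η`; then `p, p' ∈ ball x r`, and on the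
far part of `Λ` the quotient `(z - p) / (z - p')` satisfies `‖· - 1‖ ≤ 1/10`; the same for `Λ'`, `f p`, `f p'` (continuity of
`f` at `x`).  Split the changes along `Λ` at the two ends of the far part (`Chg.split`):
`v = a(p) + F(p) + b(p)`, `v' = a(p') + F(p') + b(p')`, and along `Λ'`: `w = a'(p) + F'(p) + b'(p)`,
`w' = a'(p') + F'(p') + b'(p')`.  By `Chg.near` (with `u = 1`): `‖F(p) - F(p')‖ ≤ 3/10`, `‖F'(p) - F'(p')‖ ≤ 3/10`.  On
`[0, σ₀]`: `Λ' (d σ) = f (Λ σ)` (`EB σ s` for `σ ≤ σ₀`; `conj` for `σ = 0` and `EE_it` for `σ > 0`, `EE_int`, `g_int`), so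
by reparametrisation (`Chg.comp`, `φ σ = d σ`) `a'(p)` is the change of `σ ↦ f (Λ σ)` about `f p` on `[0, σ₀]`, and by
`Chg.near` with `u = f' x`: `‖a'(p) - a(p)‖ ≤ 3/10`; the same for `b`, `b'` (near the other end) and for `p'`.
Together `‖(v - v') - (w - w')‖ ≤ 6 * 3/10 < 2 π`.  All four numbers are in
`2 π I ℤ` (`Chg.closed`, `Lam_zero`, `Lam_end`, the paths are closed), so the difference is `0`.
-/

set_option autoImplicit false

namespace Pool.Agent.JH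

open Polynomial Set Metric Filter Topology

variable {f : ℂ[X]} {J : Set ℂ} {γ : ℝ → ℂ} {ψ ψi : ℂ → ℂ}

private lemma li_conj (hl : IsLoop f J ψ γ) (hE : ExtMap f ψ ψi) (hd : 2 ≤ f.natDegree)
    {σ t t' : ℝ} {n : ℤ} (hσ : 0 ≤ σ) (ht' : t' = f.natDegree * t + n) :
    ev f (EB ψ γ σ t) = EB ψ γ (f.natDegree * σ) t' := by
  have hd0 : (0 : ℝ) < f.natDegree := by
    have : 0 < f.natDegree := by omega
    exact_mod_cast this
  rcases hσ.eq_or_lt with h0 | h0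
  · rw [← h0, mul_zero, EB, EB, if_neg (lt_irrefl _), if_neg (lt_irrefl _), ht', hl.g_int, hl.conj]
  · have h1 := hE.EE_it hd h0 t 1
    rw [Function.iterate_one, pow_one] at h1
    rw [EB, EB, if_pos h0, if_pos (mul_pos hd0 h0), h1, ht', EE_int]

private lemma li_far (hE : ExtMap f ψ ψi) {a c σ u : ℝ} (hσ : 0 < σ) (h1 : σ ≤ u)
    (h2 : u ≤ 2 * 1 + (c - a) - σ) : Lam ψ γ 1 a c u ∈ (KSet f)ᶜ := by
  unfold Lam
  split_ifs with h3 h4
  · rw [EB, if_pos (by linarith)]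
    exact hE.EE_mem (by linarith)
  · exact hE.EE_mem one_pos
  · rw [EB, if_pos (by linarith)]
    exact hE.EE_mem (by linarith)

private lemma li_dist {c : ℝ → ℂ} {a b : ℝ} {x : ℂ} (hc : ContinuousOn c (Icc a b))
    (hx : ∀ u ∈ Icc a b, c u ≠ x) : ∃ ρ : ℝ, 0 < ρ ∧ ∀ u ∈ Icc a b, ρ ≤ ‖c u - x‖ := by
  rcases (Icc a b).eq_empty_or_nonempty with he | hne
  · exact ⟨1, one_pos, fun u hu => absurd hu (by rw [he]; exact notMem_empty u)⟩
  · obtain ⟨u0, hu0, hmin⟩ := isCompact_Icc.exists_isMinOn hne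
      (f := fun u => ‖c u - x‖) (hc.sub continuousOn_const).norm
    refine ⟨‖c u0 - x‖, norm_pos_iff.2 (sub_ne_zero.2 (hx u0 hu0)), fun u hu => ?_⟩
    exact isMinOn_iff.1 hmin u hu

private lemma li_nearF {c : ℝ → ℂ} {a b ρ : ℝ} {x p p' F F' : ℂ} (hab : a ≤ b)
    (hc : ContinuousOn c (Icc a b)) (hρ : 0 < ρ) (h : ∀ u ∈ Icc a b, ρ ≤ ‖c u - x‖)
    (hp : ‖p - x‖ < ρ / 21) (hp' : ‖p' - x‖ < ρ / 21) (h1 : Chg c a b p F)
    (h2 : Chg c a b p' F') : ‖F - F'‖ ≤ 3 / 10 := by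
  refine Chg.near hab hc hc h1 h2 one_ne_zero fun u hu => ?_
  have h3 : 20 * ρ / 21 ≤ ‖c u - p'‖ := by
    have h4 : c u - x = (c u - p') + (p' - x) := by ring
    have h5 := norm_add_le (c u - p') (p' - x)
    rw [← h4] at h5
    have h6 := h u hu
    linarith
  have h7 : c u - p' ≠ 0 := by
    intro h0
    rw [h0, norm_zero] at h3
    linarith
  have h8 : (c u - p) / (1 * (c u - p')) - 1 = (p' - p) / (c u - p') := by
    rw [one_mul]
    field_simp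
    ring
  have h9 : ‖p' - p‖ ≤ 2 * ρ / 21 := by
    have h10 : p' - p = (p' - x) - (p - x) := by ring
    rw [h10]
    have h11 := norm_sub_le (p' - x) (p - x)
    linarith
  rw [h8, norm_div, div_le_iff₀ (norm_pos_iff.2 h7)]
  linarith

private lemma li_nearf {c : ℝ → ℂ} {a b r : ℝ} {x p A B D : ℂ} (hab : a ≤ b)
    (hc : ContinuousOn c (Icc a b)) (hD : D ≠ 0)
    (hr : ∀ z ∈ ball x r, ∀ w ∈ ball x r,
      ‖ev f z - ev f w - D * (z - w)‖ ≤ ‖D‖ / 10 * ‖z - w‖)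
    (hcr : ∀ u ∈ Icc a b, c u ∈ ball x r) (hp : p ∈ ball x r) (h1 : Chg c a b p A)
    (h2 : Chg (fun u => ev f (c u)) a b (ev f p) B) : ‖B - A‖ ≤ 3 / 10 := by
  have hcf : ContinuousOn (fun u => ev f (c u)) (Icc a b) := continuous_ev.comp_continuousOn hc
  refine Chg.near hab hcf hc h2 h1 hD fun u hu => ?_
  have h3 : c u - p ≠ 0 := sub_ne_zero.2 (h1.ne u hu)
  have h4 := hr _ (hcr u hu) _ hp
  have h5 : (ev f (c u) - ev f p) / (D * (c u - p)) - 1 =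
      (ev f (c u) - ev f p - D * (c u - p)) / (D * (c u - p)) := by
    rw [sub_div (ev f (c u) - ev f p) (D * (c u - p)), div_self (mul_ne_zero hD h3)]
  rw [h5, norm_div, div_le_iff₀ (norm_pos_iff.2 (mul_ne_zero hD h3)), norm_mul]
  linarith

private lemma li_strict (f : ℂ[X]) {x : ℂ} (hx : f.derivative.eval x ≠ 0) :
    ∃ r : ℝ, 0 < r ∧ ∀ z ∈ ball x r, ∀ w ∈ ball x r,
      ‖ev f z - ev f w - f.derivative.eval x * (z - w)‖ ≤
        ‖f.derivative.eval x‖ / 10 * ‖z - w‖ := by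
  have h1 := (f.hasStrictDerivAt x).isLittleO
  have h2 := h1.def (c := ‖f.derivative.eval x‖ / 10) (by positivity)
  obtain ⟨r, hr, h3⟩ := Metric.eventually_nhds_iff_ball.1 h2
  refine ⟨r, hr, fun z hz w hw => ?_⟩
  have h4 := h3 (z, w) (by
    rw [← ball_prod_same]
    exact ⟨hz, hw⟩)
  have h5 : ev f z - ev f w - f.derivative.eval x * (z - w) =
      f.eval z - f.eval w - (ContinuousLinearMap.toSpanSingleton ℂ (f.derivative.eval x)) (z - w) := by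
    simp [ev, mul_comm]
  rw [h5]
  exact h4

/-- one end of the two paths -/
private lemma li_end {c c' : ℝ → ℂ} {a b a' b' r : ℝ} {x p A B D : ℂ} {φ : ℝ → ℝ} (hab : a ≤ b)
    (hc : ContinuousOn c (Icc a b)) (hD : D ≠ 0)
    (hr : ∀ z ∈ ball x r, ∀ w ∈ ball x r,
      ‖ev f z - ev f w - D * (z - w)‖ ≤ ‖D‖ / 10 * ‖z - w‖)
    (hcr : ∀ u ∈ Icc a b, c u ∈ ball x r) (hp : p ∈ ball x r) (h1 : Chg c a b p A)
    (h2 : Chg c' a' b' (ev f p) B) (hφ : ContinuousOn φ (Icc a b))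
    (hm : MapsTo φ (Icc a b) (Icc a' b')) (ha : φ a = a') (hb : φ b = b')
    (hcc : ∀ u ∈ Icc a b, c' (φ u) = ev f (c u)) : ‖B - A‖ ≤ 3 / 10 :=
  li_nearf hab hc hD hr hcr hp h1 ((h2.comp hφ hm ha hb).congr hcc)

theorem IsLoop.loc_inv (hl : IsLoop f J ψ γ) (hE : ExtMap f ψ ψi) (h : Hyp f J) {s t s' t' : ℝ}
    {m n : ℤ} (hst : s < t) (hts : t < s + 1) (hγ : γ s = γ t) (hs' : s' = f.natDegree * s + m)
    (ht' : t' = f.natDegree * t + n) (hst' : s' < t') (hts' : t' < s' + 1) :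
    ∃ η : ℝ, 0 < η ∧ ∀ p p' v v' w w' : ℂ, ‖p - γ s‖ < η → ‖p' - γ s‖ < η →
      Chg (Lam ψ γ 1 s t) 0 (2 * 1 + (t - s)) p v → Chg (Lam ψ γ 1 s t) 0 (2 * 1 + (t - s)) p' v' →
      Chg (Lam ψ γ 1 s' t') 0 (2 * 1 + (t' - s')) (ev f p) w →
      Chg (Lam ψ γ 1 s' t') 0 (2 * 1 + (t' - s')) (ev f p') w' → v - v' = w - w' := by
  obtain ⟨d, hd⟩ : ∃ d : ℝ, d = f.natDegree := ⟨_, rfl⟩
  have hd2 : 2 ≤ d := by
    rw [hd]
    exact_mod_cast h.deg
  have hD := h.no_crit (hl.g_mem s)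
  obtain ⟨r, hr, hstr⟩ := li_strict f hD
  obtain ⟨s₀, hs₀, hlim⟩ := hl.lim r hr
  obtain ⟨σ, hσdef⟩ : ∃ σ : ℝ, σ = min (s₀ / 2) (1 / (2 * d)) := ⟨_, rfl⟩
  have hσ0 : 0 < σ := by
    rw [hσdef]
    positivity
  have hσs : σ < s₀ := by
    have := min_le_left (s₀ / 2) (1 / (2 * d))
    rw [← hσdef] at this
    linarith
  have hσd : d * σ ≤ 1 / 2 := by
    have h1 := min_le_right (s₀ / 2) (1 / (2 * d))
    rw [← hσdef, le_div_iff₀ (by positivity)] at h1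
    linarith
  have hσ1 : σ ≤ 1 / 4 := by nlinarith
  have hdσ0 : 0 < d * σ := by positivity
  -- points near the ends
  have hball : ∀ τ : ℝ, ∀ a : ℝ, γ a = γ s → 0 ≤ τ → τ ≤ σ → EB ψ γ τ a ∈ ball (γ s) r := by
    intro τ a ha h0 h1
    rw [mem_ball, dist_eq_norm]
    rcases h0.eq_or_lt with h2 | h2
    · rw [← h2, EB, if_neg (lt_irrefl _), ha, sub_self, norm_zero]
      exact hr
    · rw [EB, if_pos h2, ← ha]
      exact hlim τ a h2 (h1.trans_lt hσs)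
  -- the paths
  have hcΛ := hl.Lam_cont hE (S := 1) one_pos hst
  have hcΛ' := hl.Lam_cont hE (S := 1) one_pos hst'
  obtain ⟨T, hT⟩ : ∃ T : ℝ, T = 2 * 1 + (t - s) := ⟨_, rfl⟩
  obtain ⟨T', hT'⟩ : ∃ T' : ℝ, T' = 2 * 1 + (t' - s') := ⟨_, rfl⟩
  rw [← hT] at hcΛ
  rw [← hT'] at hcΛ'
  have hfar : ∀ u ∈ Icc σ (T - σ), Lam ψ γ 1 s t u ≠ γ s := by
    intro u hu h0
    have h1 : Lam ψ γ 1 s t u ∈ (KSet f)ᶜ := li_far hE hσ0 hu.1 (by rw [← hT]; exact hu.2)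
    rw [h0] at h1
    exact h1 (h.J_sub_K (hl.g_mem s))
  have hys : ev f (γ s) = γ s' := by
    rw [hs', hl.g_int, hl.conj]
  have hyt : ev f (γ s) = γ t' := by
    rw [hγ, ht', hl.g_int, hl.conj]
  have hfar' : ∀ u ∈ Icc (d * σ) (T' - d * σ), Lam ψ γ 1 s' t' u ≠ ev f (γ s) := by
    intro u hu h0
    have h1 : Lam ψ γ 1 s' t' u ∈ (KSet f)ᶜ := li_far hE hdσ0 hu.1 (by rw [← hT']; exact hu.2)
    rw [h0, hys] at h1
    exact h1 (h.J_sub_K (hl.g_mem s'))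
  have hsub : Icc σ (T - σ) ⊆ Icc 0 T := Icc_subset_Icc hσ0.le (by linarith)
  have hsub' : Icc (d * σ) (T' - d * σ) ⊆ Icc 0 T' := Icc_subset_Icc hdσ0.le (by linarith)
  obtain ⟨ρ, hρ, hρd⟩ := li_dist (hcΛ.mono hsub) hfar
  obtain ⟨ρ', hρ', hρd'⟩ := li_dist (hcΛ'.mono hsub') hfar'
  obtain ⟨η', hη', hcont⟩ := Metric.continuousAt_iff.1
    ((continuous_ev (f := f)).continuousAt (x := γ s)) (ρ' / 21) (by positivity)
  refine ⟨min r (min (ρ / 21) η'), by positivity, ?_⟩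
  intro p p' v v' w w' hp hp' hv hv' hw hw'
  rw [← hT] at hv hv'
  rw [← hT'] at hw hw'
  have hpr : p ∈ ball (γ s) r := by
    rw [mem_ball, dist_eq_norm]
    exact hp.trans_le (min_le_left _ _)
  have hpr' : p' ∈ ball (γ s) r := by
    rw [mem_ball, dist_eq_norm]
    exact hp'.trans_le (min_le_left _ _)
  have hpρ : ‖p - γ s‖ < ρ / 21 := hp.trans_le ((min_le_right _ _).trans (min_le_left _ _))
  have hpρ' : ‖p' - γ s‖ < ρ / 21 := hp'.trans_le ((min_le_right _ _).trans (min_le_left _ _))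
  have hfp : ‖ev f p - ev f (γ s)‖ < ρ' / 21 := by
    have h1 := hcont (x := p) (by
      rw [dist_eq_norm]
      exact hp.trans_le ((min_le_right _ _).trans (min_le_right _ _)))
    rwa [dist_eq_norm] at h1
  have hfp' : ‖ev f p' - ev f (γ s)‖ < ρ' / 21 := by
    have h1 := hcont (x := p') (by
      rw [dist_eq_norm]
      exact hp'.trans_le ((min_le_right _ _).trans (min_le_right _ _)))
    rwa [dist_eq_norm] at h1
  have hT2 : 2 < T := by linarith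
  have hT2' : 2 < T' := by linarith
  -- closed paths
  have hcl : Lam ψ γ 1 s t 0 = Lam ψ γ 1 s t T := by
    rw [Lam_zero one_pos, hT, Lam_end one_pos hst, hγ]
  have hcl' : Lam ψ γ 1 s' t' 0 = Lam ψ γ 1 s' t' T' := by
    rw [Lam_zero one_pos, hT', Lam_end one_pos hst', ← hys, hyt]
  obtain ⟨k1, hk1⟩ := hv.closed (by linarith) hcl
  obtain ⟨k2, hk2⟩ := hv'.closed (by linarith) hcl
  obtain ⟨k3, hk3⟩ := hw.closed (by linarith) hcl'
  obtain ⟨k4, hk4⟩ := hw'.closed (by linarith) hcl'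
  -- splitting
  have hsp : ∀ (q V : ℂ), Chg (Lam ψ γ 1 s t) 0 T q V → ∃ A F B : ℂ,
      Chg (Lam ψ γ 1 s t) 0 σ q A ∧ Chg (Lam ψ γ 1 s t) σ (T - σ) q F ∧
      Chg (Lam ψ γ 1 s t) (T - σ) T q B ∧ V = A + F + B := by
    intro q V hV
    obtain ⟨A, E, hA, hE', h1⟩ := hV.split hσ0.le (by linarith)
    obtain ⟨F, B, hF, hB, h2⟩ := hE'.split (b := T - σ) (by linarith) (by linarith)
    exact ⟨A, F, B, hA, hF, hB, by rw [h1, h2]; ring⟩
  have hsp' : ∀ (q V : ℂ), Chg (Lam ψ γ 1 s' t') 0 T' q V → ∃ A F B : ℂ,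
      Chg (Lam ψ γ 1 s' t') 0 (d * σ) q A ∧ Chg (Lam ψ γ 1 s' t') (d * σ) (T' - d * σ) q F ∧
      Chg (Lam ψ γ 1 s' t') (T' - d * σ) T' q B ∧ V = A + F + B := by
    intro q V hV
    obtain ⟨A, E, hA, hE', h1⟩ := hV.split hdσ0.le (by linarith)
    obtain ⟨F, B, hF, hB, h2⟩ := hE'.split (b := T' - d * σ) (by linarith) (by linarith)
    exact ⟨A, F, B, hA, hF, hB, by rw [h1, h2]; ring⟩
  -- the ends
  have hA : ∀ q A B : ℂ, q ∈ ball (γ s) r → Chg (Lam ψ γ 1 s t) 0 σ q A →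
      Chg (Lam ψ γ 1 s' t') 0 (d * σ) (ev f q) B → ‖B - A‖ ≤ 3 / 10 := by
    intro q A B hq h1 h2
    refine li_end (φ := fun u => d * u) hσ0.le (hcΛ.mono (Icc_subset_Icc le_rfl (by linarith))) hD
      hstr ?_ hq h1 h2 (by fun_prop) ?_ (by simp) rfl ?_
    · intro u hu
      have h3 : Lam ψ γ 1 s t u = EB ψ γ u s := by
        rw [Lam, if_pos (by linarith [hu.2])]
      rw [h3]
      exact hball u s rfl hu.1 hu.2
    · intro u hu
      exact ⟨mul_nonneg (by linarith) hu.1, mul_le_mul_of_nonneg_left hu.2 (by linarith)⟩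
    · intro u hu
      have h3 : Lam ψ γ 1 s t u = EB ψ γ u s := by
        rw [Lam, if_pos (by linarith [hu.2])]
      have h4 : d * u ≤ 1 := by
        have := mul_le_mul_of_nonneg_left hu.2 (by linarith : (0 : ℝ) ≤ d)
        linarith
      have h5 : Lam ψ γ 1 s' t' (d * u) = EB ψ γ (d * u) s' := by
        rw [Lam, if_pos h4]
      change Lam ψ γ 1 s' t' (d * u) = _
      rw [h3, h5, li_conj hl hE h.deg hu.1 hs', hd]
  have hB : ∀ q A B : ℂ, q ∈ ball (γ s) r → Chg (Lam ψ γ 1 s t) (T - σ) T q A →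
      Chg (Lam ψ γ 1 s' t') (T' - d * σ) T' (ev f q) B → ‖B - A‖ ≤ 3 / 10 := by
    intro q A B hq h1 h2
    have hL : ∀ u ∈ Icc (T - σ) T, Lam ψ γ 1 s t u = EB ψ γ (T - u) t := by
      intro u hu
      rw [Lam, if_neg (by linarith [hu.1]), if_neg (by linarith [hu.1]), ← hT]
    refine li_end (φ := fun u => T' - d * (T - u)) (by linarith)
      (hcΛ.mono (Icc_subset_Icc (by linarith) le_rfl)) hD
      hstr ?_ hq h1 h2 (by fun_prop) ?_ (by ring) (by ring) ?_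
    · intro u hu
      rw [hL u hu]
      exact hball (T - u) t hγ.symm (by linarith [hu.2]) (by linarith [hu.1])
    · intro u hu
      have h3 : 0 ≤ d * (T - u) := mul_nonneg (by linarith) (by linarith [hu.2])
      have h4 : d * (T - u) ≤ d * σ :=
        mul_le_mul_of_nonneg_left (by linarith [hu.1]) (by linarith)
      exact ⟨by linarith, by linarith⟩
    · intro u hu
      have h3 : 0 ≤ d * (T - u) := mul_nonneg (by linarith) (by linarith [hu.2])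
      have h4 : d * (T - u) ≤ d * σ :=
        mul_le_mul_of_nonneg_left (by linarith [hu.1]) (by linarith)
      have h5 : Lam ψ γ 1 s' t' (T' - d * (T - u)) = EB ψ γ (d * (T - u)) t' := by
        rw [Lam, if_neg (by linarith), if_neg (by linarith), ← hT']
        congr 1
        ring
      change Lam ψ γ 1 s' t' (T' - d * (T - u)) = _
      rw [hL u hu, h5, li_conj hl hE h.deg (by linarith [hu.2]) ht', hd]
  obtain ⟨A1, F1, B1, a1, f1, b1, e1⟩ := hsp p v hv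
  obtain ⟨A2, F2, B2, a2, f2, b2, e2⟩ := hsp p' v' hv'
  obtain ⟨A3, F3, B3, a3, f3, b3, e3⟩ := hsp' _ w hw
  obtain ⟨A4, F4, B4, a4, f4, b4, e4⟩ := hsp' _ w' hw'
  have n1 := hA p A1 A3 hpr a1 a3
  have n2 := hA p' A2 A4 hpr' a2 a4
  have n3 := hB p B1 B3 hpr b1 b3
  have n4 := hB p' B2 B4 hpr' b2 b4
  have n5 : ‖F1 - F2‖ ≤ 3 / 10 :=
    li_nearF (by linarith) (hcΛ.mono hsub) hρ hρd hpρ hpρ' f1 f2
  have n6 : ‖F3 - F4‖ ≤ 3 / 10 :=
    li_nearF (by linarith) (hcΛ'.mono hsub') hρ' hρd' hfp hfp' f3 f4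
  have hsum : (v - v') - (w - w') =
      ((A4 - A2) - (A3 - A1)) + ((B4 - B2) - (B3 - B1)) + ((F1 - F2) - (F3 - F4)) := by
    rw [e1, e2, e3, e4]
    ring
  have hnorm : ‖(v - v') - (w - w')‖ ≤ 18 / 10 := by
    rw [hsum]
    have i1 := norm_add_le (((A4 - A2) - (A3 - A1)) + ((B4 - B2) - (B3 - B1)))
      ((F1 - F2) - (F3 - F4))
    have i2 := norm_add_le ((A4 - A2) - (A3 - A1)) ((B4 - B2) - (B3 - B1))
    have i3 := norm_sub_le (A4 - A2) (A3 - A1)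
    have i4 := norm_sub_le (B4 - B2) (B3 - B1)
    have i5 := norm_sub_le (F1 - F2) (F3 - F4)
    linarith
  have hk : (v - v') - (w - w') = 2 * Real.pi * Complex.I * ((k1 - k2 - (k3 - k4) : ℤ) : ℂ) := by
    rw [hk1, hk2, hk3, hk4]
    push_cast
    ring
  have hz : k1 - k2 - (k3 - k4) = 0 := by
    by_contra h0
    have h1 : (1 : ℝ) ≤ |((k1 - k2 - (k3 - k4) : ℤ) : ℝ)| := by
      have := Int.one_le_abs h0
      exact_mod_cast this
    rw [hk, norm_mul, norm_mul, norm_mul, Complex.norm_I, Complex.norm_intCast] at hnorm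
    simp only [Complex.norm_ofNat, Complex.norm_real, Real.norm_eq_abs, mul_one] at hnorm
    rw [abs_of_pos Real.pi_pos] at hnorm
    have h2 := Real.pi_gt_three
    nlinarith
  rw [hz] at hk
  rw [Int.cast_zero, mul_zero] at hk
  exact sub_eq_zero.1 hk

end Pool.Agent.JH
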