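import Pool.Agent.Lib.MP_8ebc20_an.EProp2
import Pool.Agent.Lib.MP_8ebc20_an.Contr

/-!
# LOOP1: equipotentials are uniformly Cauchy

PROOF of `exists_cauchy`.  `d = natDegree f`.
(1) Choose `s₀ > 0` such that every `EE s t`, `0 < s ≤ s₀`, is within `δ / 4` of `J` (`EE_near`).  The map
`(s, t) ↦ EE s t` is uniformly continuous on `[s₀ / d, s₀] × [0, 1]` and `1`-periodic in `t`: there is
`M ≥ 1` such that `‖EE s t - EE s' t‖ < δ / 4` for `s, s' ∈ [s₀ / d, s₀]`, `|s - s'| ≤ s₀ / M`.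
(2) For such `s ≤ s'`, every `n` and `t`:
`‖EE (s / d^n) t - EE (s' / d^n) t‖ ≤ C lam ^ n δ`.  Let `x ∈ J` with `‖EE s (d^n t) - x‖ < δ / 4`.  The path
`u ↦ EE (u / d^n) t`, `u ∈ [s, s']`, is continuous and its image under `(ev f)^[n]` is `EE u (d^n t)`
(`EE_it`), in `ball x (δ / 2)`.  Let `g` be the branch with `g (EE s (d^n t)) = EE (s / d^n) t`
(`HypRad.ex`); by `IsBr.lift_eq` the path is `g (EE u (d^n t))`; apply `contr`.
(3) Chaining at most `M` steps: `‖EE (s / d^n) t - EE (s' / d^n) t‖ ≤ M C lam^n δ` for all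
`s, s' ∈ [s₀ / d, s₀]`; for `0 < s ≤ s₀ / d ^ n` write `s = σ / d ^ m`, `m ≥ n`, `σ ∈ [s₀ / d, s₀]`; going through
the levels `s₀ / d ^ j`, `j = n, ..., m`: `‖EE s t - EE (s₀ / d ^ n) t‖ ≤ ∑ j ≥ n, M C lam ^ j δ`
`≤ M C δ lam ^ n / (1 - lam)`.  Given `ε` choose `n`.
-/

set_option autoImplicit false

namespace Pool.Agent.JH

open Polynomial Set Metric Filter Topology

variable {f : ℂ[X]} {J : Set ℂ} {ψ ψi : ℂ → ℂ} {δ C lam : ℝ}

/-- chaining of small steps -/
private theorem loop1_chain {F : ℝ → ℂ} {A B η κ : ℝ} (hη : 0 < η) (_hκ : 0 ≤ κ)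
    (h : ∀ s s', A ≤ s → s ≤ s' → s' ≤ B → s' - s < η → ‖F s - F s'‖ ≤ κ) (k : ℕ) :
    ∀ s s', A ≤ s → s ≤ s' → s' ≤ B → s' - s ≤ k * (η / 2) → ‖F s - F s'‖ ≤ k * κ := by
  induction k with
  | zero =>
    intro s s' _ h2 _ h4
    have h5 : s = s' := by
      rw [Nat.cast_zero, zero_mul] at h4
      linarith
    rw [h5, sub_self, norm_zero, Nat.cast_zero, zero_mul]
  | succ k ih =>
    intro s s' h1 h2 h3 h4
    have h5 : s ≤ max s (s' - η / 2) := le_max_left _ _
    have h6 : max s (s' - η / 2) ≤ s' := max_le h2 (by linarith)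
    have h7 : max s (s' - η / 2) - s ≤ k * (η / 2) := by
      rcases le_total s (s' - η / 2) with h8 | h8
      · rw [max_eq_right h8]
        push_cast at h4
        linarith
      · rw [max_eq_left h8, sub_self]
        positivity
    have h8 := ih s _ h1 h5 (h6.trans h3) h7
    have h9 := h (max s (s' - η / 2)) s' (h1.trans h5) h6 h3 (by
      have := le_max_right s (s' - η / 2)
      linarith)
    calc ‖F s - F s'‖ = ‖(F s - F (max s (s' - η / 2))) + (F (max s (s' - η / 2)) - F s')‖ := by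
          congr 1; ring
      _ ≤ k * κ + κ := (norm_add_le _ _).trans (add_le_add h8 h9)
      _ = ((k + 1 : ℕ) : ℝ) * κ := by push_cast; ring

/-- uniform continuity in the level -/
private theorem loop1_unif (hE : ExtMap f ψ ψi) {A B κ : ℝ} (hA : 0 < A) (hκ : 0 < κ) :
    ∃ η > 0, ∀ s s' t : ℝ, A ≤ s → s ≤ B → A ≤ s' → s' ≤ B → |s - s'| < η →
      ‖EE ψ s t - EE ψ s' t‖ < κ := by
  have hK : IsCompact (Icc A B ×ˢ Icc (0 : ℝ) 1) := isCompact_Icc.prod isCompact_Icc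
  have hc : ContinuousOn (fun p : ℝ × ℝ => EE ψ p.1 p.2) (Icc A B ×ˢ Icc (0 : ℝ) 1) :=
    hE.EE_cont.mono fun p hp => hA.trans_le hp.1.1
  have hu := hK.uniformContinuousOn_of_continuous hc
  rw [Metric.uniformContinuousOn_iff] at hu
  obtain ⟨η, hη, h1⟩ := hu κ hκ
  refine ⟨η, hη, fun s s' t h2 h3 h4 h5 h6 => ?_⟩
  have h7 : ∀ r : ℝ, EE ψ r t = EE ψ r (Int.fract t) := by
    intro r
    conv_lhs => rw [← Int.fract_add_floor t]
    exact EE_int ψ r _ _
  have h8 : Int.fract t ∈ Icc (0 : ℝ) 1 := ⟨Int.fract_nonneg t, (Int.fract_lt_one t).le⟩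
  have h9 := h1 (s, Int.fract t) ⟨⟨h2, h3⟩, h8⟩ (s', Int.fract t) ⟨⟨h4, h5⟩, h8⟩ (by
    rw [Prod.dist_eq, dist_self, Real.dist_eq, max_eq_left (abs_nonneg _)]
    exact h6)
  rw [h7 s, h7 s', ← dist_eq_norm]
  exact h9

theorem ExtMap.exists_cauchy (hE : ExtMap f ψ ψi) (h : Hyp f J) (hr : HypRad f J δ C lam) {ε : ℝ}
    (hε : 0 < ε) : ∃ s₁ : ℝ, 0 < s₁ ∧ ∀ s s' t : ℝ, 0 < s → s ≤ s₁ → 0 < s' → s' ≤ s₁ →
      ‖EE ψ s t - EE ψ s' t‖ ≤ ε := by
  have hδ := hr.δpos
  have hC : 0 < C := one_pos.trans_le hr.Cpos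
  have hl0 := hr.lpos
  have hl1 := hr.llt
  set D : ℝ := (f.natDegree : ℝ) with hD
  have hD2 : 2 ≤ D := by
    rw [hD]
    exact_mod_cast h.deg
  have hD0 : 0 < D := by linarith
  have hD1 : 1 < D := by linarith
  obtain ⟨s₀', hs₀', hnear⟩ := hE.EE_near h (show 0 < δ / 4 by linarith)
  set s₀ : ℝ := s₀' / 2 with hs₀d
  have hs₀ : 0 < s₀ := by positivity
  have hA0 : 0 < s₀ / D := div_pos hs₀ hD0
  obtain ⟨η, hη, hunif⟩ := loop1_unif hE (B := s₀) hA0 (show 0 < δ / 4 by linarith)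
  -- one small step
  have step : ∀ (n : ℕ) (t s s' : ℝ), s₀ / D ≤ s → s ≤ s' → s' ≤ s₀ → s' - s < η →
      ‖EE ψ (s / D ^ n) t - EE ψ (s' / D ^ n) t‖ ≤ C * lam ^ n * δ := by
    intro n t s s' h1 h2 h3 h4
    have hDn : 0 < D ^ n := pow_pos hD0 n
    have hs : 0 < s := hA0.trans_le h1
    obtain ⟨x, hx, hxs⟩ := hnear s (D ^ n * t) hs (by linarith)
    have hit : ∀ u, 0 < u → (ev f)^[n] (EE ψ (u / D ^ n) t) = EE ψ u (D ^ n * t) := by
      intro u hu
      rw [hE.EE_it h.deg (div_pos hu hDn) t n, ← hD, mul_div_cancel₀ _ hDn.ne']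
    have hball : ∀ u ∈ Icc s s', ‖EE ψ u (D ^ n * t) - x‖ < δ / 2 := by
      intro u hu
      have h5 := hunif u s (D ^ n * t) (h1.trans hu.1) (hu.2.trans h3) h1 (h2.trans h3) (by
        rw [abs_of_nonneg (by linarith [hu.1])]
        linarith [hu.2])
      calc ‖EE ψ u (D ^ n * t) - x‖ = ‖(EE ψ u (D ^ n * t) - EE ψ s (D ^ n * t)) +
            (EE ψ s (D ^ n * t) - x)‖ := by congr 1; ring
        _ < δ / 4 + δ / 4 := (norm_add_le _ _).trans_lt (add_lt_add h5 hxs)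
        _ = δ / 2 := by ring
    have hsm : s ∈ Icc s s' := ⟨le_rfl, h2⟩
    have hsm' : s' ∈ Icc s s' := ⟨h2, le_rfl⟩
    obtain ⟨g, hg, hgw⟩ := hr.ex x hx n (EE ψ s (D ^ n * t)) (by
      rw [mem_ball, dist_eq_norm]
      linarith [hball s hsm]) (EE ψ (s / D ^ n) t) (hit s hs)
    have hcont : ContinuousOn (fun u : ℝ => EE ψ (u / D ^ n) t) (Icc s s') := by
      have h5 : ContinuousOn (fun u : ℝ => (u / D ^ n, t)) (Icc s s') :=
        (continuousOn_id.div_const _).prodMk continuousOn_const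
      exact hE.EE_cont.comp h5 fun u hu => div_pos (hs.trans_le hu.1) hDn
    have hlift := hg.lift_eq isPreconnected_Icc hcont (fun u hu => by
      have hu0 : 0 < u := hs.trans_le hu.1
      simp only [hit u hu0]
      rw [mem_ball, dist_eq_norm]
      linarith [hball u hu]) hsm (by
        simp only [hit s hs]
        exact hgw.symm)
    have e1 := hlift s hsm
    have e2 := hlift s' hsm'
    simp only [hit s hs] at e1
    simp only [hit s' (hs.trans_le h2)] at e2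
    rw [e1, e2]
    have h6 := hr.contr x hx n g hg (EE ψ s (D ^ n * t)) (by
      rw [mem_closedBall, dist_eq_norm]
      linarith [hball s hsm]) (EE ψ s' (D ^ n * t)) (by
      rw [mem_closedBall, dist_eq_norm]
      linarith [hball s' hsm'])
    have h7 : ‖EE ψ s (D ^ n * t) - EE ψ s' (D ^ n * t)‖ ≤ δ := by
      have h8 := hunif s s' (D ^ n * t) h1 (h2.trans h3) (h1.trans h2) h3 (by
        rw [abs_sub_comm, abs_of_nonneg (by linarith)]
        exact h4)
      linarith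
    exact h6.trans (mul_le_mul_of_nonneg_left h7 (by positivity))
  -- a fundamental interval
  obtain ⟨M, hM⟩ := exists_nat_ge (s₀ / (η / 2))
  have hM' : s₀ ≤ M * (η / 2) := by
    rw [div_le_iff₀ (by positivity)] at hM
    exact hM
  have big : ∀ (n : ℕ) (t s : ℝ), s₀ / D ≤ s → s ≤ s₀ →
      ‖EE ψ (s / D ^ n) t - EE ψ (s₀ / D ^ n) t‖ ≤ M * C * δ * lam ^ n := by
    intro n t s h1 h2
    have h3 := loop1_chain (F := fun u => EE ψ (u / D ^ n) t) hη
      (show 0 ≤ C * lam ^ n * δ by positivity) (step n t) M s s₀ h1 h2 le_rfl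
      (by linarith [hA0.trans_le h1])
    calc _ ≤ M * (C * lam ^ n * δ) := h3
      _ = M * C * δ * lam ^ n := by ring
  -- going down
  have down : ∀ (n k : ℕ) (t s : ℝ), s₀ / D ≤ s → s ≤ s₀ →
      ‖EE ψ (s / D ^ (n + k)) t - EE ψ (s₀ / D ^ n) t‖ ≤
        M * C * δ * ((lam ^ n - lam ^ (n + k + 1)) / (1 - lam)) := by
    intro n k
    have hl : (1 : ℝ) - lam ≠ 0 := by linarith
    induction k with
    | zero =>
      intro t s h1 h2
      have h3 : (lam ^ n - lam ^ (n + 0 + 1)) / (1 - lam) = lam ^ n := by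
        rw [add_zero, pow_succ]
        field_simp
      rw [h3]
      exact big n t s h1 h2
    | succ k ih =>
      intro t s h1 h2
      have h3 := big (n + (k + 1)) t s h1 h2
      have h4 := ih t (s₀ / D) le_rfl (div_le_self hs₀.le hD1.le)
      have h5 : s₀ / D / D ^ (n + k) = s₀ / D ^ (n + (k + 1)) := by
        rw [div_div, ← pow_succ', add_assoc]
      rw [h5] at h4
      have h6 : (lam ^ n - lam ^ (n + (k + 1) + 1)) / (1 - lam) =
          lam ^ (n + (k + 1)) + (lam ^ n - lam ^ (n + k + 1)) / (1 - lam) := by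
        have h7 : lam ^ (n + (k + 1) + 1) = lam ^ (n + k + 1) * lam := by
          rw [← pow_succ]
          congr 1
        have h8 : lam ^ (n + (k + 1)) = lam ^ (n + k + 1) := by
          congr 1
        rw [h7, h8]
        field_simp
        ring
      rw [h6, mul_add]
      calc ‖EE ψ (s / D ^ (n + (k + 1))) t - EE ψ (s₀ / D ^ n) t‖ =
          ‖(EE ψ (s / D ^ (n + (k + 1))) t - EE ψ (s₀ / D ^ (n + (k + 1))) t) +
            (EE ψ (s₀ / D ^ (n + (k + 1))) t - EE ψ (s₀ / D ^ n) t)‖ := by congr 1; ring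
        _ ≤ _ := (norm_add_le _ _).trans (add_le_add h3 h4)
  -- all small levels
  have all : ∀ (n : ℕ) (t s : ℝ), 0 < s → s ≤ s₀ / D ^ n →
      ‖EE ψ s t - EE ψ (s₀ / D ^ n) t‖ ≤ M * C * δ * (lam ^ n / (1 - lam)) := by
    intro n t s h1 h2
    have hDn : 0 < D ^ n := pow_pos hD0 n
    have hDn1 : 1 ≤ D ^ n := one_le_pow₀ hD1.le
    have h3 : D ^ n ≤ s₀ / s := by
      rw [le_div_iff₀ h1]
      rw [le_div_iff₀ hDn] at h2
      linarith
    obtain ⟨m, hm1, hm2⟩ := exists_nat_pow_near (hDn1.trans h3) hD1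
    have hnm : n ≤ m := by
      by_contra hc
      rw [not_le] at hc
      have h4 : D ^ (m + 1) ≤ D ^ n := pow_le_pow_right₀ hD1.le hc
      linarith
    have hDm : 0 < D ^ m := pow_pos hD0 m
    obtain ⟨k, rfl⟩ := Nat.exists_eq_add_of_le hnm
    have h4 := down n k t (s * D ^ (n + k)) (by
      rw [div_le_iff₀ hD0, mul_assoc, ← pow_succ]
      rw [div_lt_iff₀ h1] at hm2
      linarith) (by
      rw [le_div_iff₀ h1] at hm1
      linarith)
    rw [mul_div_assoc, div_self hDm.ne', mul_one] at h4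
    refine h4.trans (mul_le_mul_of_nonneg_left ?_ (by positivity))
    refine div_le_div_of_nonneg_right ?_ (by linarith)
    have : 0 < lam ^ (n + k + 1) := pow_pos hl0 _
    linarith
  obtain ⟨n, hn⟩ := exists_pow_lt_of_lt_one
    (show 0 < ε * (1 - lam) / (2 * (M * C * δ) + 1) from div_pos (mul_pos hε (by linarith))
      (by positivity)) hl1
  refine ⟨s₀ / D ^ n, by positivity, fun s s' t h1 h2 h3 h4 => ?_⟩
  have h5 := all n t s h1 h2
  have h6 := all n t s' h3 h4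
  rw [norm_sub_rev] at h6
  have h7 : 2 * (M * C * δ * (lam ^ n / (1 - lam))) ≤ ε := by
    rw [lt_div_iff₀ (by positivity)] at hn
    have h8 : 0 < lam ^ n := pow_pos hl0 n
    rw [← mul_assoc, ← mul_div_assoc, div_le_iff₀ (by linarith)]
    nlinarith
  calc ‖EE ψ s t - EE ψ s' t‖ = ‖(EE ψ s t - EE ψ (s₀ / D ^ n) t) +
        (EE ψ (s₀ / D ^ n) t - EE ψ s' t)‖ := by congr 1; ring
    _ ≤ _ := (norm_add_le _ _).trans (add_le_add h5 h6)
    _ = 2 * (M * C * δ * (lam ^ n / (1 - lam))) := by ring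
    _ ≤ ε := h7

end Pool.Agent.JH
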