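import Pool.Agent.Lib.MP_8ebc20_an.EProp2

/-!
# LOOPP: first consequences for the loop

PROOFS. `EB_cont`: at points with `s > 0` by `EE_cont` (open set, and `EB = EE` there); at `(0, t)`: for
`s' > 0`, `‖EB s' t' - γ t‖ ≤ ‖EE s' t' - γ t'‖ + ‖γ t' - γ t‖`, by `lim` and continuity of `γ`; for `s' = 0`
only the second term.  `g_int`: periodicity (induction on the integer).  `g_surj`: `range_eq` and
`Int.fract`.  `g_it`: induction with `conj`.  `near_fibre`: if not, there are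
`ε > 0`, `s_k > 0`, `t_k` with `EE s_k t_k → x`, and (translating, `EE_int`, `g_int`) `t_k ∈ [0, 1)`, such that
`ε ≤ s_k` or no `t'` has `γ t' = x`, `|t_k - t'| < ε`; `s_k → 0` by `lev_small` (`x ∈ J ⊆ K`); a limit point `t` of `t_k` has
`γ t = x` (`lim` and continuity), contradiction.
`w_unif`: `γ` is uniformly continuous (continuous and periodic).
-/

set_option autoImplicit false

namespace Pool.Agent.JH

open Polynomial Set Metric Filter Topology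

variable {f : ℂ[X]} {J : Set ℂ} {ψ ψi : ℂ → ℂ} {γ : ℝ → ℂ}

theorem IsLoop.EB_cont (hl : IsLoop f J ψ γ) (hE : ExtMap f ψ ψi) :
    ContinuousOn (fun p : ℝ × ℝ => EB ψ γ p.1 p.2) {p | 0 ≤ p.1} := by
  intro p hp
  rcases (show (0 : ℝ) ≤ p.1 from hp).lt_or_eq with h0 | h0
  · have hopen : IsOpen {q : ℝ × ℝ | 0 < q.1} := isOpen_lt continuous_const continuous_fst
    have h1 : ContinuousAt (fun q : ℝ × ℝ => EE ψ q.1 q.2) p :=
      (hE.EE_cont p h0).continuousAt (hopen.mem_nhds h0)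
    have h2 : (fun q : ℝ × ℝ => EB ψ γ q.1 q.2) =ᶠ[𝓝 p] fun q : ℝ × ℝ => EE ψ q.1 q.2 := by
      filter_upwards [hopen.mem_nhds h0] with q hq
      have hq' : (0 : ℝ) < q.1 := hq
      simp only [EB, if_pos hq']
    exact (h1.congr h2.symm).continuousWithinAt
  · rw [Metric.continuousWithinAt_iff]
    intro ε hε
    obtain ⟨s₀, hs₀, hlim⟩ := hl.lim (ε / 2) (half_pos hε)
    obtain ⟨η, hη, hcont⟩ := Metric.continuous_iff.1 hl.cont p.2 (ε / 2) (half_pos hε)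
    refine ⟨min s₀ η, lt_min hs₀ hη, fun {q} hq hqp => ?_⟩
    have hq0 : (0 : ℝ) ≤ q.1 := hq
    have hd1 : dist q.1 p.1 < s₀ :=
      lt_of_le_of_lt (le_trans (le_max_left _ _) (le_of_eq (Prod.dist_eq (x := q) (y := p)).symm))
        (lt_of_lt_of_le hqp (min_le_left _ _))
    have hd2 : dist q.2 p.2 < η :=
      lt_of_le_of_lt (le_trans (le_max_right _ _) (le_of_eq (Prod.dist_eq (x := q) (y := p)).symm))
        (lt_of_lt_of_le hqp (min_le_right _ _))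
    have hg : ‖γ q.2 - γ p.2‖ < ε / 2 := by
      have := hcont q.2 hd2
      rwa [dist_eq_norm] at this
    have hp0 : ¬ (0 : ℝ) < p.1 := by rw [← h0]; exact lt_irrefl _
    have hep : EB ψ γ p.1 p.2 = γ p.2 := by simp only [EB, if_neg hp0]
    rw [hep, dist_eq_norm]
    by_cases hq1 : 0 < q.1
    · have heq : EB ψ γ q.1 q.2 = EE ψ q.1 q.2 := by simp only [EB, if_pos hq1]
      rw [heq]
      have hs : q.1 < s₀ := by
        rw [Real.dist_eq, ← h0, sub_zero, abs_of_nonneg hq0] at hd1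
        exact hd1
      have h3 := hlim q.1 q.2 hq1 hs
      calc ‖EE ψ q.1 q.2 - γ p.2‖ = ‖(EE ψ q.1 q.2 - γ q.2) + (γ q.2 - γ p.2)‖ := by
            congr 1; ring
        _ ≤ ‖EE ψ q.1 q.2 - γ q.2‖ + ‖γ q.2 - γ p.2‖ := norm_add_le _ _
        _ < ε := by linarith
    · have heq : EB ψ γ q.1 q.2 = γ q.2 := by simp only [EB, if_neg hq1]
      rw [heq]
      linarith

theorem IsLoop.g_int (hl : IsLoop f J ψ γ) (t : ℝ) (n : ℤ) : γ (t + n) = γ t := by
  have hp : Function.Periodic γ 1 := hl.per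
  have h := hp.int_mul n t
  rwa [mul_one] at h

theorem IsLoop.g_mem (hl : IsLoop f J ψ γ) (t : ℝ) : γ t ∈ J := by
  have h : γ t ∈ range γ := ⟨t, rfl⟩
  rwa [hl.range_eq] at h

theorem IsLoop.g_surj (hl : IsLoop f J ψ γ) {x : ℂ} (hx : x ∈ J) : ∃ t ∈ Ico (0 : ℝ) 1, γ t = x := by
  rw [← hl.range_eq] at hx
  obtain ⟨t, rfl⟩ := hx
  refine ⟨Int.fract t, ⟨Int.fract_nonneg t, Int.fract_lt_one t⟩, ?_⟩
  have h := hl.g_int (Int.fract t) ⌊t⌋
  rw [Int.fract_add_floor] at h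
  exact h.symm

theorem IsLoop.g_it (hl : IsLoop f J ψ γ) (n : ℕ) (t : ℝ) :
    γ ((f.natDegree : ℝ) ^ n * t) = (ev f)^[n] (γ t) := by
  induction n with
  | zero => simp
  | succ n ih =>
    rw [Function.iterate_succ_apply', ← ih, ← hl.conj, pow_succ']
    congr 1
    ring

theorem IsLoop.g_unif (hl : IsLoop f J ψ γ) {ε : ℝ} (hε : 0 < ε) :
    ∃ η : ℝ, 0 < η ∧ ∀ s t : ℝ, |s - t| < η → ‖γ s - γ t‖ < ε := by
  have huc := (isCompact_Icc (a := (-1 : ℝ)) (b := 2)).uniformContinuousOn_of_continuous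
    hl.cont.continuousOn
  rw [Metric.uniformContinuousOn_iff] at huc
  obtain ⟨η, hη, h⟩ := huc ε hε
  refine ⟨min η 1, lt_min hη one_pos, fun s t hst => ?_⟩
  have h1 : |s - t| < η := lt_of_lt_of_le hst (min_le_left _ _)
  have h2 : |s - t| < 1 := lt_of_lt_of_le hst (min_le_right _ _)
  have hs0 := Int.fract_nonneg s
  have hs1 := Int.fract_lt_one s
  have hsf : Int.fract s = s - ⌊s⌋ := rfl
  have e1 : γ (s + ((-⌊s⌋ : ℤ) : ℝ)) = γ s := hl.g_int s _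
  have e2 : γ (t + ((-⌊s⌋ : ℤ) : ℝ)) = γ t := hl.g_int t _
  rw [← e1, ← e2]
  rw [abs_lt] at h2
  push_cast
  have h3 := h (s + -(⌊s⌋ : ℝ)) ⟨by linarith, by linarith⟩ (t + -(⌊s⌋ : ℝ))
    ⟨by linarith [h2.2], by linarith [h2.1]⟩ (by
      rw [Real.dist_eq, add_sub_add_right_eq_sub]; exact h1)
  rwa [dist_eq_norm] at h3

private theorem loopP_near (hl : IsLoop f J ψ γ) {x : ℂ} {ε : ℝ} (hε : 0 < ε) :
    ∃ η : ℝ, 0 < η ∧ ∀ t : ℝ, ‖γ t - x‖ < η → ∃ t' : ℝ, γ t' = x ∧ |t - t'| < ε := by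
  set C : Set ℝ := {t | t ∈ Icc (0 : ℝ) 1 ∧ ∀ t' : ℝ, γ t' = x → ε ≤ |t - t'|} with hC
  have hCc : IsCompact C := by
    have hcl : IsClosed {t : ℝ | ∀ t' : ℝ, γ t' = x → ε ≤ |t - t'|} := by
      simp only [Set.ofPred_forall]
      refine isClosed_iInter fun t' => isClosed_iInter fun _ => ?_
      exact isClosed_le continuous_const (by fun_prop)
    exact isCompact_Icc.inter_right hcl
  have key : ∃ η : ℝ, 0 < η ∧ ∀ t ∈ C, η ≤ ‖γ t - x‖ := by
    rcases C.eq_empty_or_nonempty with he | hne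
    · exact ⟨1, one_pos, fun t ht => by rw [he] at ht; exact absurd ht (notMem_empty _)⟩
    · obtain ⟨t₀, ht₀, hmin⟩ := hCc.exists_isMinOn hne
        (f := fun t => ‖γ t - x‖) ((hl.cont.sub continuous_const).norm.continuousOn)
      refine ⟨‖γ t₀ - x‖, ?_, fun t ht => hmin ht⟩
      rw [norm_pos_iff, sub_ne_zero]
      intro hx
      have := ht₀.2 t₀ hx
      rw [sub_self, abs_zero] at this
      linarith
  obtain ⟨η, hη, hk⟩ := key
  refine ⟨η, hη, fun t ht => ?_⟩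
  have e1 : γ (Int.fract t) = γ t := by
    have h := hl.g_int (Int.fract t) ⌊t⌋
    rw [Int.fract_add_floor] at h
    exact h.symm
  have hnot : Int.fract t ∉ C := by
    intro hc
    have := hk _ hc
    rw [e1] at this
    linarith
  have hex : ∃ t' : ℝ, γ t' = x ∧ |Int.fract t - t'| < ε := by
    by_contra hcon
    push Not at hcon
    exact hnot ⟨⟨Int.fract_nonneg t, (Int.fract_lt_one t).le⟩, hcon⟩
  obtain ⟨t', h1, h2⟩ := hex
  refine ⟨t' + ⌊t⌋, by rw [hl.g_int]; exact h1, ?_⟩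
  have e2 : t - (t' + ⌊t⌋) = Int.fract t - t' := by
    have : Int.fract t = t - ⌊t⌋ := rfl
    rw [this]; ring
  rw [e2]
  exact h2

theorem IsLoop.near_fibre (hl : IsLoop f J ψ γ) (hE : ExtMap f ψ ψi) (h : Hyp f J) {x : ℂ}
    (hx : x ∈ J) {ε : ℝ} (hε : 0 < ε) :
    ∃ ρ : ℝ, 0 < ρ ∧ ∀ s t : ℝ, 0 < s → ‖EE ψ s t - x‖ < ρ →
      s < ε ∧ ∃ t' : ℝ, γ t' = x ∧ |t - t'| < ε := by
  obtain ⟨η, hη, hnear⟩ := loopP_near hl (x := x) hε
  obtain ⟨s₀, hs₀, hlim⟩ := hl.lim (η / 2) (half_pos hη)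
  obtain ⟨ρ, hρ, hlev⟩ := hE.lev_small h.deg (η := min ε s₀) (lt_min hε hs₀)
  refine ⟨min ρ (η / 2), lt_min hρ (half_pos hη), fun s t hs hd => ?_⟩
  have h1 : s < min ε s₀ := hlev s t hs ⟨x, h.J_sub_K hx, lt_of_lt_of_le hd (min_le_left _ _)⟩
  refine ⟨lt_of_lt_of_le h1 (min_le_left _ _), hnear t ?_⟩
  have h2 := hlim s t hs (lt_of_lt_of_le h1 (min_le_right _ _))
  have h3 : ‖EE ψ s t - x‖ < η / 2 := lt_of_lt_of_le hd (min_le_right _ _)
  calc ‖γ t - x‖ = ‖(EE ψ s t - x) - (EE ψ s t - γ t)‖ := by congr 1; ring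
    _ ≤ ‖EE ψ s t - x‖ + ‖EE ψ s t - γ t‖ := norm_sub_le _ _
    _ < η := by linarith

end Pool.Agent.JH
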