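import Pool.Agent.Lib.MP_8ebc20_an.GJ

/-!
# OUTE: extension to the closure of the basin of infinity

PROOF.  `A = Kᶜ`, `closure A = A ∪ J`.  With `β s = max 0 (min 1 (s - 1))` define on `A`
`G (EE s t) = EE s ((1 - β s) H t + β s t)` (well defined, since `t ↦ (1 - β) H t + β t` commutes with
`t ↦ t + 1`), and `G = g` on `J`.  For fixed `s` the map `t ↦ (1 - β s) H t + β s t` is a strictly
increasing continuous bijection of `ℝ`; so `G` is a bijection of `A`.  Continuity on `A`: `EE` is a local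
homeomorphism of `(0, ∞) × ℝ` onto `A` (`ψi`, polar coordinates).  Continuity at `x ∈ J`: let
`z_k → x`, `z_k ∈ A`, `z_k = EE s_k t_k`; by `near_fibre`, `s_k → 0` and `|t_k - t'_k| → 0` for some
`t'_k` with `γ t'_k = x`; so for large `k`, `G z_k = EE s_k (H t_k)`, and
`‖EE s_k (H t_k) - γ (H t_k)‖ → 0` (`lim`), `‖γ (H t_k) - γ (H t'_k)‖ → 0` (uniform continuity of `H` and of
`γ`, both periodic up to translation), `γ (H t'_k) = g x`.  For `z_k ∈ J` continuity of `g`.  The inverse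
map is the map of the same form: `Gi (EE s t) = EE s (τ_s⁻¹ t)` with `τ_s t = (1 - β s) H t + β s t`; its
continuity is proved in the same way (`τ_s⁻¹ t` is jointly continuous in `(s, t)` because
`τ` is monotone in `t`), or by invariance: `G` is a continuous bijection which is proper.
`G z = z` for `z = EE s t`, `s ≥ 2`, in particular for `‖z‖` large (`EE_bdd`).
-/

set_option autoImplicit false

namespace Pool.Agent.JH

open Polynomial Set Metric Filter Topology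

variable {f : ℂ[X]} {J : Set ℂ} {γ : ℝ → ℂ} {ψ ψi : ℂ → ℂ}

private theorem oe_int {F : ℝ → ℝ} (hF : ∀ x, F (x + 1) = F x + 1) (x : ℝ) (n : ℤ) :
    F (x + n) = F x + n := by
  have hp : Function.Periodic (fun x => F x - x) 1 := by
    intro x
    change F (x + 1) - (x + 1) = F x - x
    rw [hF]
    ring
  have h1 := hp.int_mul n x
  have h2 : F (x + n * 1) - (x + n * 1) = F x - x := h1
  rw [mul_one] at h2
  linarith

private theorem oe_unif {F : ℝ → ℝ} (hc : Continuous F) (hF : ∀ x, F (x + 1) = F x + 1) {ε : ℝ}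
    (hε : 0 < ε) : ∃ η : ℝ, 0 < η ∧ ∀ x y : ℝ, |x - y| < η → |F x - F y| < ε := by
  have h1 := isCompact_Icc.uniformContinuousOn_of_continuous
    (hc.continuousOn : ContinuousOn F (Icc (-1) 2))
  rw [Metric.uniformContinuousOn_iff] at h1
  obtain ⟨δ, hδ, h2⟩ := h1 ε hε
  refine ⟨min δ 1, lt_min hδ zero_lt_one, fun x y hxy => ?_⟩
  have hxy1 := abs_lt.1 (hxy.trans_le (min_le_right _ _))
  have hxyδ := hxy.trans_le (min_le_left _ _)
  have hx0 := Int.floor_le x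
  have hx1 := Int.lt_floor_add_one x
  have h3 := h2 (x - ⌊x⌋) ⟨by linarith, by linarith⟩ (y - ⌊x⌋)
    ⟨by linarith [hxy1.2], by linarith [hxy1.1]⟩ (by
      rw [Real.dist_eq]
      have e : x - ⌊x⌋ - (y - ⌊x⌋) = x - y := by ring
      rw [e]
      exact hxyδ)
  have e1 : F x = F (x - ⌊x⌋) + ⌊x⌋ := by
    rw [← oe_int hF]
    congr 1
    ring
  have e2 : F y = F (y - ⌊x⌋) + ⌊x⌋ := by
    rw [← oe_int hF]
    congr 1
    ring
  rw [Real.dist_eq] at h3
  have e3 : F x - F y = F (x - ⌊x⌋) - F (y - ⌊x⌋) := by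
    rw [e1, e2]
    ring
  rw [e3]
  exact h3

/-- local continuous choice of the angle -/
private theorem oe_lift (hE : ExtMap f ψ ψi) (hK : IsOpen (KSet f)ᶜ) {z₀ : ℂ}
    (hz₀ : z₀ ∈ (KSet f)ᶜ) :
    ∃ tt : ℂ → ℝ, ContinuousAt tt z₀ ∧ ∀ z ∈ (KSet f)ᶜ, 0 < Real.log ‖ψi z‖ ∧
      EE ψ (Real.log ‖ψi z‖) (tt z) = z := by
  have hpi : ContinuousAt ψi z₀ := (hE.dψi.differentiableAt (hK.mem_nhds hz₀)).continuousAt
  have hW₀ := hE.right z₀ hz₀
  have hW₀0 : ψi z₀ ≠ 0 := by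
    rw [← norm_pos_iff]
    linarith [hW₀.1]
  refine ⟨fun z => (Complex.arg (ψi z₀) + Complex.arg (ψi z / ψi z₀)) / (2 * Real.pi), ?_, ?_⟩
  · refine (continuousAt_const.add ?_).div_const _
    refine ContinuousAt.comp (f := fun z => ψi z / ψi z₀) (g := Complex.arg) ?_ (hpi.div_const _)
    apply Complex.continuousAt_arg
    rw [div_self hW₀0]
    exact Complex.one_mem_slitPlane
  · intro z hz
    have hW := hE.right z hz
    have hW0 : ψi z ≠ 0 := by
      rw [← norm_pos_iff]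
      linarith [hW.1]
    refine ⟨Real.log_pos hW.1, ?_⟩
    unfold EE
    have e1 : ((Real.log ‖ψi z‖ : ℝ) : ℂ) + 2 * Real.pi *
        (((Complex.arg (ψi z₀) + Complex.arg (ψi z / ψi z₀)) / (2 * Real.pi) : ℝ) : ℂ) *
          Complex.I = ((Real.log ‖ψi z‖ : ℝ) : ℂ) + (Complex.arg (ψi z₀) * Complex.I +
            Complex.arg (ψi z / ψi z₀) * Complex.I) := by
      have hpi0 : (Real.pi : ℂ) ≠ 0 := by exact_mod_cast Real.pi_ne_zero
      push_cast
      field_simp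
    have e2 : Complex.exp (((Real.log ‖ψi z‖ : ℝ) : ℂ) + (Complex.arg (ψi z₀) * Complex.I +
        Complex.arg (ψi z / ψi z₀) * Complex.I)) = ψi z := by
      have h1 := Complex.norm_mul_exp_arg_mul_I (ψi z₀)
      have h2 := Complex.norm_mul_exp_arg_mul_I (ψi z / ψi z₀)
      have h3 : ((Real.exp (Real.log ‖ψi z‖) : ℝ) : ℂ) = (‖ψi z₀‖ : ℂ) * (‖ψi z / ψi z₀‖ : ℂ) := by
        rw [Real.exp_log (norm_pos_iff.2 hW0), ← Complex.ofReal_mul, ← norm_mul,
          mul_div_cancel₀ _ hW₀0]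
      rw [Complex.exp_add, Complex.exp_add, ← Complex.ofReal_exp, h3]
      calc (‖ψi z₀‖ : ℂ) * (‖ψi z / ψi z₀‖ : ℂ) * (Complex.exp (Complex.arg (ψi z₀) * Complex.I) *
            Complex.exp (Complex.arg (ψi z / ψi z₀) * Complex.I)) =
          ((‖ψi z₀‖ : ℂ) * Complex.exp (Complex.arg (ψi z₀) * Complex.I)) *
            ((‖ψi z / ψi z₀‖ : ℂ) * Complex.exp (Complex.arg (ψi z / ψi z₀) * Complex.I)) := by
            ring
        _ = ψi z₀ * (ψi z / ψi z₀) := by rw [h1, h2]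
        _ = ψi z := mul_div_cancel₀ _ hW₀0
    rw [e1, e2]
    exact hW.2

private theorem oe_build (hl : IsLoop f J ψ γ) (hE : ExtMap f ψ ψi) (h : Hyp f J) {H : ℝ ≃o ℝ}
    (hper : ∀ x, H (x + 1) = H x + 1) (g : J ≃ₜ J)
    (hg : ∀ (x : ℝ) (hx : γ x ∈ J), γ (H x) = g ⟨γ x, hx⟩) {τ : ℝ → ℝ → ℝ}
    (hτc : Continuous fun p : ℝ × ℝ => τ p.1 p.2) (hτp : ∀ s t, τ s (t + 1) = τ s t + 1)
    (hτ1 : ∀ s t, s ≤ 1 → τ s t = H t) :
    ∃ G : ℂ → ℂ, ContinuousOn G (closure (KSet f)ᶜ) ∧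
      (∀ s t, 0 < s → G (EE ψ s t) = EE ψ s (τ s t)) ∧ ∀ z : J, G z = g z := by
  classical
  have hK : IsOpen (KSet f)ᶜ := (isCompact_K h.deg).isClosed.isOpen_compl
  have hJK := h.J_sub_K
  have hex : ∀ z : ℂ, ∃ p : ℝ × ℝ, z ∈ (KSet f)ᶜ → 0 < p.1 ∧ EE ψ p.1 p.2 = z := by
    intro z
    by_cases hz : z ∈ (KSet f)ᶜ
    · obtain ⟨s, t, hs, -, hst⟩ := hE.EE_surj hz
      exact ⟨(s, t), fun _ => ⟨hs, hst⟩⟩
    · exact ⟨(0, 0), fun h1 => absurd h1 hz⟩
  choose P hP using hex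
  set G : ℂ → ℂ := fun z => if z ∈ (KSet f)ᶜ then EE ψ (P z).1 (τ (P z).1 (P z).2) else
    if hz : z ∈ J then (g ⟨z, hz⟩ : ℂ) else 0 with hG
  have hGE : ∀ s t, 0 < s → G (EE ψ s t) = EE ψ s (τ s t) := by
    intro s t hs
    have hm := hE.EE_mem (t := t) hs
    obtain ⟨h1, h2⟩ := hP _ hm
    obtain ⟨h3, n, h4⟩ := hE.EE_inj h1 hs h2
    have h5 : G (EE ψ s t) = EE ψ (P (EE ψ s t)).1 (τ (P (EE ψ s t)).1 (P (EE ψ s t)).2) :=
      if_pos hm
    have h6 : τ s t = τ s (P (EE ψ s t)).2 + n := by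
      conv_lhs => rw [h4]
      exact oe_int (hτp s) _ n
    rw [h5, h3, h6, EE_int]
  have hGJ : ∀ z : J, G z = g z := by
    intro z
    have h1 : ¬ (z : ℂ) ∈ (KSet f)ᶜ := fun h2 => h2 (hJK z.2)
    change (if (z : ℂ) ∈ (KSet f)ᶜ then _ else _) = _
    rw [if_neg h1, dif_pos z.2]
  refine ⟨G, ?_, hGE, hGJ⟩
  intro x hx
  rw [h.closure_compl_K] at hx ⊢
  rcases hx with hx | hx
  · -- at a point of the basin
    obtain ⟨tt, htt, hz⟩ := oe_lift hE hK hx
    have hpi : ContinuousAt ψi x := (hE.dψi.differentiableAt (hK.mem_nhds hx)).continuousAt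
    have hlog : ContinuousAt (fun z => Real.log ‖ψi z‖) x := by
      refine hpi.norm.log ?_
      have := (hE.right x hx).1
      linarith
    have hc : ContinuousAt (fun z => EE ψ (Real.log ‖ψi z‖) (τ (Real.log ‖ψi z‖) (tt z))) x := by
      have h1 : ContinuousAt (fun p : ℝ × ℝ => EE ψ p.1 p.2)
          (Real.log ‖ψi x‖, τ (Real.log ‖ψi x‖) (tt x)) := by
        refine hE.EE_cont.continuousAt ?_
        exact (isOpen_lt continuous_const continuous_fst).mem_nhds (hz x hx).1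
      have h2 : ContinuousAt (fun z => τ (Real.log ‖ψi z‖) (tt z)) x :=
        ContinuousAt.comp (f := fun z => (Real.log ‖ψi z‖, tt z))
          (g := fun p : ℝ × ℝ => τ p.1 p.2) hτc.continuousAt (hlog.prodMk htt)
      exact ContinuousAt.comp
        (f := fun z => (Real.log ‖ψi z‖, τ (Real.log ‖ψi z‖) (tt z)))
        (g := fun p : ℝ × ℝ => EE ψ p.1 p.2) h1 (hlog.prodMk h2)
    have heq : (fun z => EE ψ (Real.log ‖ψi z‖) (τ (Real.log ‖ψi z‖) (tt z))) =ᶠ[𝓝 x] G := by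
      filter_upwards [hK.mem_nhds hx] with z hz'
      obtain ⟨h1, h2⟩ := hz z hz'
      conv_rhs => rw [← h2]
      rw [hGE _ _ h1]
    exact (hc.congr heq).continuousWithinAt
  · -- at a point of `J`
    rw [Metric.continuousWithinAt_iff]
    intro ε hε
    have hGx : G x = g ⟨x, hx⟩ := hGJ ⟨x, hx⟩
    -- continuity of `g`
    obtain ⟨δ₁, hδ₁, hg1⟩ : ∃ δ₁ > 0, ∀ z : J, dist (z : ℂ) x < δ₁ →
        dist (g z : ℂ) (g ⟨x, hx⟩ : ℂ) < ε := by
      have h1 : Continuous fun z : J => (g z : ℂ) := continuous_subtype_val.comp g.continuous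
      have h2 := Metric.continuous_iff.1 h1 ⟨x, hx⟩ ε hε
      obtain ⟨δ, hδ, h3⟩ := h2
      exact ⟨δ, hδ, fun z hz => h3 z hz⟩
    -- near the basin
    obtain ⟨s₀, hs₀, hlim⟩ := hl.lim (ε / 2) (half_pos hε)
    obtain ⟨η₁, hη₁, hgu⟩ := hl.g_unif (half_pos hε)
    obtain ⟨η₂, hη₂, hHu⟩ := oe_unif H.continuous hper hη₁
    obtain ⟨ρ, hρ, hnear⟩ := hl.near_fibre hE h hx (ε := min (min s₀ 1) η₂)
      (lt_min (lt_min hs₀ zero_lt_one) hη₂)
    refine ⟨min δ₁ ρ, lt_min hδ₁ hρ, ?_⟩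
    intro z hz hzx
    rw [hGx]
    rcases hz with hz | hz
    · obtain ⟨s, t, hs, -, rfl⟩ := hE.EE_surj hz
      rw [dist_eq_norm] at hzx
      obtain ⟨h1, t', ht', h2⟩ := hnear s t hs (hzx.trans_le (min_le_right _ _))
      have hs1 : s < s₀ := h1.trans_le ((min_le_left _ _).trans (min_le_left _ _))
      have hs2 : s ≤ 1 := (h1.trans_le ((min_le_left _ _).trans (min_le_right _ _))).le
      have ht2 : |t - t'| < η₂ := h2.trans_le (min_le_right _ _)
      rw [hGE s t hs, hτ1 s t hs2]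
      have h3 := hlim s (H t) hs hs1
      have h4 := hgu (H t) (H t') (hHu t t' ht2)
      have h5 : γ (H t') = g ⟨x, hx⟩ := by
        subst ht'
        exact hg t' hx
      rw [← h5, dist_eq_norm]
      calc ‖EE ψ s (H t) - γ (H t')‖ = ‖(EE ψ s (H t) - γ (H t)) + (γ (H t) - γ (H t'))‖ := by
            rw [sub_add_sub_cancel]
        _ ≤ ‖EE ψ s (H t) - γ (H t)‖ + ‖γ (H t) - γ (H t')‖ := norm_add_le _ _
        _ < ε / 2 + ε / 2 := add_lt_add h3 h4
        _ = ε := add_halves ε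
    · rw [hGJ ⟨z, hz⟩]
      exact hg1 ⟨z, hz⟩ (hzx.trans_le (min_le_left _ _))

/-- the inverse of a family of increasing bijections is continuous -/
private theorem oe_inv {τ : ℝ → ℝ → ℝ} (hτc : Continuous fun p : ℝ × ℝ => τ p.1 p.2)
    (hτm : ∀ s, StrictMono (τ s)) (hτs : ∀ s, Function.Surjective (τ s)) :
    ∃ σ : ℝ → ℝ → ℝ, (Continuous fun p : ℝ × ℝ => σ p.1 p.2) ∧ (∀ s t, σ s (τ s t) = t) ∧
      ∀ s t, τ s (σ s t) = t := by
  choose σ hσ using hτs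
  have h1 : ∀ s t, σ s (τ s t) = t := fun s t => (hτm s).injective (hσ s _)
  refine ⟨σ, ?_, h1, hσ⟩
  rw [continuous_iff_continuousAt]
  rintro ⟨s₀, t₀⟩
  rw [Metric.continuousAt_iff']
  intro ε hε
  have hc1 : Continuous fun p : ℝ × ℝ => τ p.1 (σ s₀ t₀ - ε / 2) :=
    hτc.comp (continuous_fst.prodMk continuous_const)
  have hc2 : Continuous fun p : ℝ × ℝ => τ p.1 (σ s₀ t₀ + ε / 2) :=
    hτc.comp (continuous_fst.prodMk continuous_const)
  have e1 : ∀ᶠ p : ℝ × ℝ in 𝓝 (s₀, t₀), τ p.1 (σ s₀ t₀ - ε / 2) < p.2 := by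
    refine hc1.continuousAt.eventually_lt continuous_snd.continuousAt ?_
    change τ s₀ (σ s₀ t₀ - ε / 2) < t₀
    conv_rhs => rw [← hσ s₀ t₀]
    exact hτm s₀ (by linarith)
  have e2 : ∀ᶠ p : ℝ × ℝ in 𝓝 (s₀, t₀), p.2 < τ p.1 (σ s₀ t₀ + ε / 2) := by
    refine continuous_snd.continuousAt.eventually_lt hc2.continuousAt ?_
    change t₀ < τ s₀ (σ s₀ t₀ + ε / 2)
    conv_lhs => rw [← hσ s₀ t₀]
    exact hτm s₀ (by linarith)
  filter_upwards [e1, e2] with p h2 h3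
  change dist (σ p.1 p.2) (σ s₀ t₀) < ε
  rw [← hσ p.1 p.2] at h2 h3
  have h4 := (hτm p.1).lt_iff_lt.1 h2
  have h5 := (hτm p.1).lt_iff_lt.1 h3
  rw [Real.dist_eq, abs_lt]
  constructor <;> linarith

/-- the interpolation between `H` and the identity -/
private noncomputable def oe_b (s : ℝ) : ℝ := max 0 (min 1 (s - 1))

private theorem oe_b0 (s : ℝ) : 0 ≤ oe_b s := le_max_left _ _

private theorem oe_b1 (s : ℝ) : oe_b s ≤ 1 := max_le zero_le_one (min_le_left _ _)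

private theorem oe_tau {H : ℝ ≃o ℝ} (hper : ∀ x, H (x + 1) = H x + 1) :
    ∃ τ σ : ℝ → ℝ → ℝ, (Continuous fun p : ℝ × ℝ => τ p.1 p.2) ∧
      (Continuous fun p : ℝ × ℝ => σ p.1 p.2) ∧ (∀ s t, τ s (t + 1) = τ s t + 1) ∧
      (∀ s t, σ s (t + 1) = σ s t + 1) ∧ (∀ s t, s ≤ 1 → τ s t = H t) ∧
      (∀ s t, s ≤ 1 → σ s t = H.symm t) ∧ (∀ s t, 2 ≤ s → τ s t = t) ∧
      (∀ s t, σ s (τ s t) = t) ∧ ∀ s t, τ s (σ s t) = t := by
  set τ : ℝ → ℝ → ℝ := fun s t => (1 - oe_b s) * H t + oe_b s * t with hτ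
  have hbc : Continuous oe_b := by
    unfold oe_b
    fun_prop
  have hτc : Continuous fun p : ℝ × ℝ => τ p.1 p.2 := by
    have h1 : Continuous fun p : ℝ × ℝ => oe_b p.1 := hbc.comp continuous_fst
    have h2 : Continuous fun p : ℝ × ℝ => H p.2 := H.continuous.comp continuous_snd
    exact ((continuous_const.sub h1).mul h2).add (h1.mul continuous_snd)
  have hτp : ∀ s t, τ s (t + 1) = τ s t + 1 := by
    intro s t
    change (1 - oe_b s) * H (t + 1) + oe_b s * (t + 1) = (1 - oe_b s) * H t + oe_b s * t + 1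
    rw [hper]
    ring
  have hτm : ∀ s, StrictMono (τ s) := by
    intro s t t' htt
    change (1 - oe_b s) * H t + oe_b s * t < (1 - oe_b s) * H t' + oe_b s * t'
    have hH : H t < H t' := H.strictMono htt
    rcases eq_or_lt_of_le (oe_b0 s) with h0 | h0
    · rw [← h0]
      linarith
    · have h1 : (1 - oe_b s) * H t ≤ (1 - oe_b s) * H t' :=
        mul_le_mul_of_nonneg_left hH.le (by linarith [oe_b1 s])
      have h2 : oe_b s * t < oe_b s * t' := mul_lt_mul_of_pos_left htt h0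
      linarith
  have hτs : ∀ s, Function.Surjective (τ s) := by
    intro s
    have hcs : Continuous (τ s) := hτc.comp (continuous_const.prodMk continuous_id)
    refine hcs.surjective ?_ ?_
    · rw [Filter.tendsto_atTop_atTop]
      intro b
      refine ⟨⌈b - τ s 0⌉, fun a ha => ?_⟩
      have h1 : τ s (⌈b - τ s 0⌉ : ℝ) = τ s 0 + ⌈b - τ s 0⌉ := by
        have := oe_int (hτp s) 0 ⌈b - τ s 0⌉
        rwa [zero_add] at this
      have h2 := (hτm s).monotone ha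
      rw [h1] at h2
      linarith [Int.le_ceil (b - τ s 0)]
    · rw [Filter.tendsto_atBot_atBot]
      intro b
      refine ⟨⌊b - τ s 0⌋, fun a ha => ?_⟩
      have h1 : τ s (⌊b - τ s 0⌋ : ℝ) = τ s 0 + ⌊b - τ s 0⌋ := by
        have := oe_int (hτp s) 0 ⌊b - τ s 0⌋
        rwa [zero_add] at this
      have h2 := (hτm s).monotone ha
      rw [h1] at h2
      linarith [Int.floor_le (b - τ s 0)]
  obtain ⟨σ, hσc, hστ, hτσ⟩ := oe_inv hτc hτm hτs
  have hτ1 : ∀ s t, s ≤ 1 → τ s t = H t := by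
    intro s t hs
    have hb : oe_b s = 0 := by
      unfold oe_b
      rw [max_eq_left]
      exact (min_le_right _ _).trans (by linarith)
    change (1 - oe_b s) * H t + oe_b s * t = H t
    rw [hb]
    ring
  refine ⟨τ, σ, hτc, hσc, hτp, ?_, hτ1, ?_, ?_, hστ, hτσ⟩
  · intro s t
    apply (hτm s).injective
    rw [hτσ, hτp, hτσ]
  · intro s t hs
    apply (hτm s).injective
    rw [hτσ, hτ1 s _ hs, OrderIso.apply_symm_apply]
  · intro s t hs
    have hb : oe_b s = 1 := by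
      unfold oe_b
      rw [min_eq_left (by linarith), max_eq_right zero_le_one]
    change (1 - oe_b s) * H t + oe_b s * t = t
    rw [hb]
    ring

theorem IsLoop.exists_outer (hl : IsLoop f J ψ γ) (hE : ExtMap f ψ ψi) (h : Hyp f J) {H : ℝ ≃o ℝ}
    (hH : IsAut γ H) (g : J ≃ₜ J) (hg : ∀ (x : ℝ) (hx : γ x ∈ J), γ (H x) = g ⟨γ x, hx⟩) :
    ∃ G Gi : ℂ → ℂ, ContinuousOn G (closure (KSet f)ᶜ) ∧ ContinuousOn Gi (closure (KSet f)ᶜ) ∧
      (∀ z ∈ (KSet f)ᶜ, G z ∈ (KSet f)ᶜ ∧ Gi (G z) = z) ∧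
      (∀ z ∈ (KSet f)ᶜ, Gi z ∈ (KSet f)ᶜ ∧ G (Gi z) = z) ∧
      (∀ z : J, G z = g z) ∧ (∀ z : J, Gi z = g.symm z) ∧
      ∃ R : ℝ, ∀ z : ℂ, R ≤ ‖z‖ → G z = z := by
  obtain ⟨τ, σ, hτc, hσc, hτp, hσp, hτ1, hσ1, hτ2, hστ, hτσ⟩ := oe_tau hH.per
  have hgs : ∀ (x : ℝ) (hx : γ x ∈ J), γ (H.symm x) = g.symm ⟨γ x, hx⟩ := by
    intro x hx
    have h1 : γ (H.symm x) ∈ J := hl.g_mem _
    have h2 := hg (H.symm x) h1
    rw [OrderIso.apply_symm_apply] at h2
    have h3 : (⟨γ x, hx⟩ : J) = g ⟨γ (H.symm x), h1⟩ := Subtype.ext h2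
    rw [h3, Homeomorph.symm_apply_apply]
  obtain ⟨G, hGc, hGE, hGJ⟩ := oe_build hl hE h hH.per g hg hτc hτp hτ1
  obtain ⟨Gi, hGic, hGiE, hGiJ⟩ := oe_build hl hE h hH.symm.per g.symm hgs hσc hσp hσ1
  refine ⟨G, Gi, hGc, hGic, ?_, ?_, hGJ, hGiJ, ?_⟩
  · intro z hz
    obtain ⟨s, t, hs, -, rfl⟩ := hE.EE_surj hz
    rw [hGE s t hs]
    refine ⟨hE.EE_mem hs, ?_⟩
    rw [hGiE s _ hs, hστ]
  · intro z hz
    obtain ⟨s, t, hs, -, rfl⟩ := hE.EE_surj hz
    rw [hGiE s t hs]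
    refine ⟨hE.EE_mem hs, ?_⟩
    rw [hGE s _ hs, hτσ]
  · obtain ⟨B, hB⟩ := hE.EE_bdd h.deg (S := 2) two_pos
    obtain ⟨B', hB'⟩ := (isCompact_K h.deg).isBounded.exists_norm_le
    refine ⟨max B B' + 1, fun z hz => ?_⟩
    have hzK : z ∈ (KSet f)ᶜ := by
      intro h1
      have := hB' z h1
      linarith [le_max_right B B']
    obtain ⟨s, t, hs, -, rfl⟩ := hE.EE_surj hzK
    have hs2 : 2 ≤ s := by
      by_contra hcon
      rw [not_le] at hcon
      have := hB s t hs hcon.le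
      linarith [le_max_left B B']
    rw [hGE s t hs, hτ2 s t hs2]

end Pool.Agent.JH
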