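import Pool.Agent.Lib.MP_8ebc20_an.Wnd3

/-!
# MP_8ebc20_an, own form: a trap disc contains an attracting fixed point which attracts it
-/

set_option autoImplicit false

namespace Pool.Agent.JH

open Set Metric Filter Topology ComplexConjugate

/-- Brouwer's theorem for a map of a closed disc into its interior -/
theorem trap_fix {F : ℂ → ℂ} {c : ℂ} {r : ℝ} (hr : 0 < r) (hF : Continuous F)
    (hm : ∀ z ∈ closedBall c r, F z ∈ ball c r) : ∃ p ∈ closedBall c r, F p = p := by
  by_contra hcon
  push Not at hcon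
  set pr : ℂ → ℂ := fun z => ((r / max r ‖z‖ : ℝ) : ℂ) * z with hpr
  set φ : ℂ → ℝ := fun z => max 0 (2 - max 1 (‖z‖ / r)) with hφ
  have hmax : ∀ z : ℂ, 0 < max r ‖z‖ := fun z => lt_of_lt_of_le hr (le_max_left _ _)
  have hprc : Continuous pr := by
    have h1 : Continuous fun z : ℂ => max r ‖z‖ := continuous_const.max continuous_norm
    have h2 : Continuous fun z : ℂ => r / max r ‖z‖ :=
      continuous_const.div h1 fun z => (hmax z).ne'
    exact (Complex.continuous_ofReal.comp h2).mul continuous_id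
  have hφc : Continuous φ := by
    rw [hφ]
    fun_prop
  have hprn : ∀ z, ‖pr z‖ ≤ r := by
    intro z
    rw [hpr]
    simp only [norm_mul, Complex.norm_real, Real.norm_eq_abs]
    rw [abs_of_pos (div_pos hr (hmax z)), div_mul_eq_mul_div, div_le_iff₀ (hmax z)]
    exact mul_le_mul_of_nonneg_left (le_max_right _ _) hr.le
  have hprm : ∀ z, c + pr z ∈ closedBall c r := fun z => by
    rw [mem_closedBall, dist_eq_norm, add_sub_cancel_left]
    exact hprn z
  have hFn : ∀ z, ‖F (c + pr z) - c‖ < r := fun z => by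
    have := hm _ (hprm z)
    rwa [mem_ball, dist_eq_norm] at this
  have hpr1 : ∀ z : ℂ, ‖z‖ ≤ r → pr z = z := by
    intro z hz
    rw [hpr]
    simp only
    rw [max_eq_left hz, div_self hr.ne', Complex.ofReal_one, one_mul]
  have hφ1 : ∀ z : ℂ, ‖z‖ ≤ r → φ z = 1 := by
    intro z hz
    rw [hφ]
    simp only
    rw [max_eq_left ((div_le_one hr).2 hz)]
    norm_num
  have hφ0 : ∀ z, 0 ≤ φ z := fun z => le_max_left _ _
  have hφle : ∀ z, φ z ≤ 1 := by
    intro z
    rw [hφ]
    simp only
    refine max_le zero_le_one ?_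
    have := le_max_left 1 (‖z‖ / r)
    linarith
  have hφ2 : ∀ z : ℂ, ‖z‖ = 2 * r → φ z = 0 := by
    intro z hz
    rw [hφ]
    simp only
    have h1 : ‖z‖ / r = 2 := by
      rw [hz]
      field_simp
    rw [h1]
    norm_num
  refine no_null (F := fun z => z - (φ z : ℂ) * (F (c + pr z) - c)) (R := 2 * r) (p := 0)
    (by linarith) ?_ ?_ ?_ ?_
  · apply Continuous.continuousOn
    exact continuous_id.sub ((Complex.continuous_ofReal.comp hφc).mul
      ((hF.comp (continuous_const.add hprc)).sub continuous_const))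
  · intro z _ h0
    rcases le_or_gt ‖z‖ r with h | h
    · rw [hφ1 z h, hpr1 z h, Complex.ofReal_one, one_mul] at h0
      refine hcon (c + z) ?_ ?_
      · rw [mem_closedBall, dist_eq_norm, add_sub_cancel_left]
        exact h
      · linear_combination -h0
    · have h1 : z = (φ z : ℂ) * (F (c + pr z) - c) := by linear_combination h0
      have h2 : ‖z‖ ≤ 1 * ‖F (c + pr z) - c‖ := by
        conv_lhs => rw [h1]
        rw [norm_mul, Complex.norm_real, Real.norm_eq_abs, abs_of_nonneg (hφ0 z)]
        exact mul_le_mul_of_nonneg_right (hφle z) (norm_nonneg _)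
      have := hFn z
      linarith
  · rw [norm_zero]
    linarith
  · intro z hz
    simp only [hφ2 z hz, Complex.ofReal_zero, zero_mul]

private theorem mob_den {a u : ℂ} (ha : ‖a‖ < 1) (hu : ‖u‖ < 1) : 1 - conj a * u ≠ 0 := by
  intro h
  have h1 : conj a * u = 1 := by linear_combination -h
  have h2 : ‖a‖ * ‖u‖ = 1 := by
    have := congrArg norm h1
    rwa [norm_mul, Complex.norm_conj, norm_one] at this
  have h3 : ‖a‖ * ‖u‖ < 1 := by
    have := mul_lt_mul'' ha hu (norm_nonneg _) (norm_nonneg _)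
    linarith
  linarith

private theorem mob_lt {a u : ℂ} (ha : ‖a‖ < 1) (hu : ‖u‖ < 1) :
    ‖(u - a) / (1 - conj a * u)‖ < 1 := by
  have h0 := mob_den ha hu
  rw [norm_div, div_lt_one (norm_pos_iff.2 h0)]
  have h1 : ‖u - a‖ ^ 2 < ‖1 - conj a * u‖ ^ 2 := by
    rw [← Complex.normSq_eq_norm_sq, ← Complex.normSq_eq_norm_sq]
    have ha2 : a.re * a.re + a.im * a.im < 1 := by
      have h3 : ‖a‖ ^ 2 < 1 := by
        have := norm_nonneg a
        nlinarith
      rwa [← Complex.normSq_eq_norm_sq, Complex.normSq_apply] at h3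
    have hu2 : u.re * u.re + u.im * u.im < 1 := by
      have h3 : ‖u‖ ^ 2 < 1 := by
        have := norm_nonneg u
        nlinarith
      rwa [← Complex.normSq_eq_norm_sq, Complex.normSq_apply] at h3
    rw [Complex.normSq_apply, Complex.normSq_apply]
    simp only [Complex.sub_re, Complex.sub_im, Complex.mul_re, Complex.mul_im, Complex.one_re,
      Complex.one_im, Complex.conj_re, Complex.conj_im]
    nlinarith [mul_pos (sub_pos.2 ha2) (sub_pos.2 hu2)]
  exact lt_of_pow_lt_pow_left₀ 2 (norm_nonneg _) h1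

private theorem mob_inv {a w : ℂ} (ha : ‖a‖ < 1) (hw : ‖w‖ < 1) :
    ((w + a) / (1 + conj a * w) - a) / (1 - conj a * ((w + a) / (1 + conj a * w))) = w := by
  have h1 : 1 + conj a * w ≠ 0 := by
    have := mob_den (a := -a) (by rwa [norm_neg]) hw
    rwa [map_neg, neg_mul, sub_neg_eq_add] at this
  have h2 : 1 - conj a * a ≠ 0 := mob_den ha ha
  have h3 : 1 - conj a * ((w + a) / (1 + conj a * w)) = (1 - conj a * a) / (1 + conj a * w) := by
    rw [eq_div_iff h1, sub_mul, mul_assoc, div_mul_cancel₀ _ h1]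
    ring
  have h4 : (w + a) / (1 + conj a * w) - a = (w * (1 - conj a * a)) / (1 + conj a * w) := by
    rw [eq_div_iff h1, sub_mul, div_mul_cancel₀ _ h1]
    ring
  rw [h3, h4, div_div_div_cancel_right₀ h1, mul_div_cancel_right₀ _ h2]

private theorem mob_inv' {a u : ℂ} (ha : ‖a‖ < 1) (hu : ‖u‖ < 1) :
    ((u - a) / (1 - conj a * u) + a) / (1 + conj a * ((u - a) / (1 - conj a * u))) = u := by
  have h1 : 1 - conj a * u ≠ 0 := mob_den ha hu
  have h2 : 1 - conj a * a ≠ 0 := mob_den ha ha
  have h3 : 1 + conj a * ((u - a) / (1 - conj a * u)) = (1 - conj a * a) / (1 - conj a * u) := by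
    rw [eq_div_iff h1, add_mul, mul_assoc, div_mul_cancel₀ _ h1]
    ring
  have h4 : (u - a) / (1 - conj a * u) + a = (u * (1 - conj a * a)) / (1 - conj a * u) := by
    rw [eq_div_iff h1, add_mul, div_mul_cancel₀ _ h1]
    ring
  rw [h3, h4, div_div_div_cancel_right₀ h1, mul_div_cancel_right₀ _ h2]

/-- a trap disc contains an attracting fixed point which attracts the whole disc -/
theorem trap_attr {F : ℂ → ℂ} (hF : Differentiable ℂ F) {c : ℂ} {r : ℝ} (hr : 0 < r)
    (hm : ∀ z ∈ closedBall c r, F z ∈ ball c r) :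
    ∃ p ∈ ball c r, F p = p ∧ ‖deriv F p‖ < 1 ∧
      ∀ z ∈ closedBall c r, Tendsto (fun n : ℕ => F^[n] z) atTop (𝓝 p) := by
  obtain ⟨p, hpc, hFp⟩ := trap_fix hr hF.continuous hm
  have hp : p ∈ ball c r := by
    have := hm p hpc
    rwa [hFp] at this
  have hrC : (r : ℂ) ≠ 0 := by exact_mod_cast hr.ne'
  set a : ℂ := (p - c) / r with ha_def
  have hnr : ∀ z : ℂ, ‖(z - c) / (r : ℂ)‖ = ‖z - c‖ / r := fun z => by
    rw [norm_div, Complex.norm_real, Real.norm_eq_abs, abs_of_pos hr]
  have hball : ∀ z : ℂ, z ∈ ball c r ↔ ‖(z - c) / (r : ℂ)‖ < 1 := by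
    intro z
    rw [hnr, div_lt_one hr, mem_ball, dist_eq_norm]
  have ha : ‖a‖ < 1 := (hball p).1 hp
  set T : ℂ → ℂ := fun w => c + r * ((w + a) / (1 + conj a * w)) with hT
  set S : ℂ → ℂ := fun z => ((z - c) / r - a) / (1 - conj a * ((z - c) / r)) with hS
  have hden : ∀ w : ℂ, ‖w‖ < 1 → 1 + conj a * w ≠ 0 := by
    intro w hw
    have := mob_den (a := -a) (by rwa [norm_neg]) hw
    rwa [map_neg, neg_mul, sub_neg_eq_add] at this
  have hTu : ∀ w : ℂ, (T w - c) / r = (w + a) / (1 + conj a * w) := by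
    intro w
    rw [hT]
    simp only [add_sub_cancel_left]
    rw [mul_div_cancel_left₀ _ hrC]
  have hTm : ∀ w : ℂ, ‖w‖ < 1 → T w ∈ ball c r := by
    intro w hw
    rw [hball, hTu]
    have := mob_lt (a := -a) (by rwa [norm_neg]) hw
    rwa [map_neg, neg_mul, sub_neg_eq_add, sub_neg_eq_add] at this
  have hST : ∀ w : ℂ, ‖w‖ < 1 → S (T w) = w := by
    intro w hw
    show ((T w - c) / r - a) / (1 - conj a * ((T w - c) / r)) = w
    rw [hTu]
    exact mob_inv ha hw
  have hSm : ∀ z ∈ ball c r, ‖S z‖ < 1 := fun z hz => mob_lt ha ((hball z).1 hz)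
  have hTS : ∀ z ∈ ball c r, T (S z) = z := by
    intro z hz
    have := mob_inv' ha ((hball z).1 hz)
    show c + r * ((S z + a) / (1 + conj a * S z)) = z
    rw [show (S z + a) / (1 + conj a * S z) = (z - c) / r from this, mul_div_cancel₀ _ hrC]
    ring
  have hSp : S p = 0 := by
    show (a - a) / (1 - conj a * a) = 0
    rw [sub_self, zero_div]
  have hT0 : T 0 = p := by
    have := hTS p hp
    rwa [hSp] at this
  have hTd : ∀ w : ℂ, ‖w‖ < 1 → DifferentiableAt ℂ T w := by
    intro w hw
    refine (differentiableAt_const _).add ((differentiableAt_const _).mul ?_)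
    exact (differentiableAt_id.add (differentiableAt_const _)).div
      ((differentiableAt_const _).add ((differentiableAt_const _).mul differentiableAt_id)) (hden w hw)
  have hSd : ∀ z ∈ ball c r, DifferentiableAt ℂ S z := by
    intro z hz
    have h1 : DifferentiableAt ℂ (fun z : ℂ => (z - c) / (r : ℂ)) z :=
      (differentiableAt_id.sub (differentiableAt_const _)).div_const _
    exact (h1.sub (differentiableAt_const _)).div
      ((differentiableAt_const _).sub ((differentiableAt_const _).mul h1))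
      (mob_den ha ((hball z).1 hz))
  -- the bound
  obtain ⟨lam, hl0, hl1, hlam⟩ : ∃ lam : ℝ, 0 ≤ lam ∧ lam < 1 ∧
      ∀ z ∈ closedBall c r, ‖S (F z)‖ ≤ lam := by
    have hK : IsCompact (closedBall c r) := isCompact_closedBall c r
    have hne : (closedBall c r).Nonempty := ⟨p, hpc⟩
    have hcont : ContinuousOn (fun z => ‖S (F z)‖) (closedBall c r) := by
      intro z hz
      have h1 : ContinuousAt S (F z) := (hSd _ (hm z hz)).continuousAt
      have h2 : ContinuousAt F z := hF.continuous.continuousAt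
      exact (ContinuousAt.comp (f := F) (g := S) h1 h2).norm.continuousWithinAt
    obtain ⟨z₀, hz₀, hmax⟩ := hK.exists_isMaxOn hne hcont
    exact ⟨‖S (F z₀)‖, norm_nonneg _, hSm _ (hm z₀ hz₀), fun z hz => hmax hz⟩
  set G : ℂ → ℂ := fun w => S (F (T w)) with hG
  have hG0 : G 0 = 0 := by
    show S (F (T 0)) = 0
    rw [hT0, hFp, hSp]
  have hGd : DifferentiableOn ℂ G (ball 0 1) := by
    intro w hw
    rw [mem_ball_zero_iff] at hw
    have h1 := hTd w hw
    have h2 : DifferentiableAt ℂ F (T w) := hF _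
    have h3 := hSd _ (hm _ (ball_subset_closedBall (hTm w hw)))
    have h4 : DifferentiableAt ℂ (fun w => F (T w)) w := DifferentiableAt.comp w h2 h1
    exact (DifferentiableAt.comp w h3 h4).differentiableWithinAt
  have hGm : MapsTo G (ball 0 1) (closedBall (G 0) lam) := by
    intro w hw
    rw [mem_ball_zero_iff] at hw
    rw [hG0, mem_closedBall_zero_iff]
    exact hlam _ (ball_subset_closedBall (hTm w hw))
  have hcontr : ∀ z ∈ ball c r, ‖S (F z)‖ ≤ lam * ‖S z‖ := by
    intro z hz
    have h1 := Complex.dist_le_div_mul_dist_of_mapsTo_ball hGd hGm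
      (z := S z) (mem_ball_zero_iff.2 (hSm z hz))
    rw [hG0, dist_zero_right, dist_zero_right, div_one] at h1
    have h2 : G (S z) = S (F z) := by
      show S (F (T (S z))) = S (F z)
      rw [hTS z hz]
    rwa [h2] at h1
  refine ⟨p, hp, hFp, ?_, ?_⟩
  · -- the derivative
    have h1 := Complex.norm_deriv_le_div_of_mapsTo_ball hGd hGm one_pos
    rw [div_one] at h1
    have dT := (hTd 0 (by rw [norm_zero]; exact one_pos)).hasDerivAt
    have dS := (hSd p hp).hasDerivAt
    have dF := (hF p).hasDerivAt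
    have hid : deriv S p * deriv T 0 = 1 := by
      have dS' : HasDerivAt S (deriv S p) (T 0) := by
        rw [hT0]
        exact dS
      have d1 : HasDerivAt (fun w => S (T w)) (deriv S p * deriv T 0) 0 := dS'.comp (0 : ℂ) dT
      have d2 : HasDerivAt (fun w : ℂ => S (T w)) 1 0 := by
        refine (hasDerivAt_id (0 : ℂ)).congr_of_eventuallyEq ?_
        filter_upwards [ball_mem_nhds (0 : ℂ) one_pos] with w hw
        exact hST w (mem_ball_zero_iff.1 hw)
      exact d1.unique d2
    have dG : HasDerivAt G (deriv S p * (deriv F p * deriv T 0)) 0 := by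
      have dF' : HasDerivAt F (deriv F p) (T 0) := by
        rw [hT0]
        exact dF
      have d1 : HasDerivAt (fun w => F (T w)) (deriv F p * deriv T 0) 0 := dF'.comp (0 : ℂ) dT
      have dS' : HasDerivAt S (deriv S p) (F (T 0)) := by
        rw [hT0, hFp]
        exact dS
      exact HasDerivAt.comp (h := fun w => F (T w)) (0 : ℂ) dS' d1
    have h2 : deriv G 0 = deriv F p := by
      rw [dG.deriv]
      calc deriv S p * (deriv F p * deriv T 0) = (deriv S p * deriv T 0) * deriv F p := by ring
        _ = deriv F p := by rw [hid, one_mul]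
    rw [h2] at h1
    exact lt_of_le_of_lt h1 hl1
  · intro z hz
    have hit : ∀ n : ℕ, F^[n + 1] z ∈ ball c r := by
      intro n
      induction n with
      | zero => exact hm z hz
      | succ n ih =>
        rw [Function.iterate_succ_apply']
        exact hm _ (ball_subset_closedBall ih)
    have hS1 : ∀ n : ℕ, ‖S (F^[n + 1] z)‖ ≤ lam ^ n := by
      intro n
      induction n with
      | zero =>
        rw [pow_zero]
        exact (hSm _ (hit 0)).le
      | succ n ih =>
        rw [Function.iterate_succ_apply']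
        refine (hcontr _ (hit n)).trans ?_
        rw [pow_succ, mul_comm]
        exact mul_le_mul_of_nonneg_right ih hl0
    have hS2 : Tendsto (fun n : ℕ => S (F^[n + 1] z)) atTop (𝓝 0) := by
      rw [tendsto_zero_iff_norm_tendsto_zero]
      exact squeeze_zero (fun n => norm_nonneg _) hS1
        (tendsto_pow_atTop_nhds_zero_of_lt_one hl0 hl1)
    have hTc : ContinuousAt T 0 := (hTd 0 (by rw [norm_zero]; exact one_pos)).continuousAt
    have h3 : Tendsto (fun n : ℕ => T (S (F^[n + 1] z))) atTop (𝓝 (T 0)) := hTc.tendsto.comp hS2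
    rw [hT0] at h3
    have h4 : Tendsto (fun n : ℕ => F^[n + 1] z) atTop (𝓝 p) :=
      h3.congr fun n => hTS _ (hit n)
    exact (tendsto_add_atTop_iff_nat (f := fun n : ℕ => F^[n] z) 1).1 h4

end Pool.Agent.JH
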