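import Pool.Agent.Lib.MP_8ebc20_an.OwnB
import Pool.Agent.Lib.MP_8ebc20_an.Final
import Pool.Agent.Lib.MP_8ebc20_an.LiftA

/-!
# MP_8ebc20_an, own form: orientation preserving homeomorphisms by winding numbers
-/

set_option autoImplicit false

namespace Pool.Agent.JH

open Polynomial Set Metric Filter Topology JB

variable {f : ℂ[X]} {J : Set ℂ} {γ : ℝ → ℂ} {ψ ψi : ℂ → ℂ} {Φ : ℂ ≃ₜ ℂ}

/-- `Φ` maps every positively oriented circle to a closed curve which winds once about the image of the centre -/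
def OrP (Φ : ℂ ≃ₜ ℂ) : Prop := ∀ (z : ℂ) (r : ℝ), 0 < r →
  ∃ L : ℝ → ℂ, ContinuousOn L (Icc 0 1) ∧
    (∀ t ∈ Icc (0 : ℝ) 1, Complex.exp (L t) =
      Φ (z + r * Complex.exp (2 * Real.pi * t * Complex.I)) - Φ z) ∧
    L 1 - L 0 = 2 * Real.pi * Complex.I

/-- `Φ` is isotopic to the identity -/
def IsoI (Φ : ℂ ≃ₜ ℂ) : Prop := ∃ H : unitInterval → (ℂ ≃ₜ ℂ),
  Continuous (fun p : unitInterval × ℂ => H p.1 p.2) ∧ H 0 = Homeomorph.refl ℂ ∧ H 1 = Φ

theorem OrP.chg (h : OrP Φ) (z : ℂ) {r : ℝ} (hr : 0 < r) :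
    Chg (fun t => Φ (z + r * Complex.exp (2 * Real.pi * t * Complex.I))) 0 1 (Φ z)
      (2 * Real.pi * Complex.I) := h z r hr

private theorem ownc_circ (z : ℂ) {r : ℝ} (hr : 0 < r) (t : ℝ) :
    ‖(r : ℂ) * Complex.exp (2 * Real.pi * t * Complex.I)‖ = r := by
  have h2 : (2 * Real.pi * t * Complex.I : ℂ) = ((2 * Real.pi * t : ℝ) : ℂ) * Complex.I := by
    push_cast
    ring
  rw [norm_mul, h2, Complex.norm_exp_ofReal_mul_I, mul_one, Complex.norm_real,
    Real.norm_of_nonneg hr.le]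

private theorem ownc_01 : Complex.exp (2 * Real.pi * ((1 : ℝ) : ℂ) * Complex.I) =
    Complex.exp (2 * Real.pi * ((0 : ℝ) : ℂ) * Complex.I) := by
  rw [Complex.ofReal_one, mul_one, Complex.exp_two_pi_mul_I]
  simp

/-- a homeomorphism isotopic to the identity is orientation preserving -/
theorem IsoI.orP (h : IsoI Φ) : OrP Φ := by
  obtain ⟨H, hc, h0, h1⟩ := h
  intro z r hr
  have hcirc : Chg (fun t => z + r * Complex.exp (2 * Real.pi * t * Complex.I)) 0 1 z
      (2 * Real.pi * Complex.I) := Chg.circle (by rw [sub_self, norm_zero]; exact hr)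
  set c : ℝ → ℂ := fun t => z + r * Complex.exp (2 * Real.pi * t * Complex.I) with hcdef
  have hccont : Continuous c := by
    rw [hcdef]
    fun_prop
  have hcz : ∀ t, c t ≠ z := by
    intro t ht
    have h2 : (r : ℂ) * Complex.exp (2 * Real.pi * t * Complex.I) = 0 := by
      have : c t = z := ht
      rw [hcdef] at this
      linear_combination this
    have h3 := ownc_circ z hr t
    rw [h2, norm_zero] at h3
    exact hr.ne h3
  set F : ℝ × ℝ → ℂ := fun x =>
    H (projIcc (0 : ℝ) 1 zero_le_one x.2) (c x.1) - H (projIcc (0 : ℝ) 1 zero_le_one x.2) z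
    with hF
  have hFc : Continuous F := by
    have h1 : Continuous fun x : ℝ × ℝ =>
        ((projIcc (0 : ℝ) 1 zero_le_one x.2, c x.1) : unitInterval × ℂ) :=
      (continuous_projIcc.comp continuous_snd).prodMk (hccont.comp continuous_fst)
    have h2 : Continuous fun x : ℝ × ℝ =>
        ((projIcc (0 : ℝ) 1 zero_le_one x.2, z) : unitInterval × ℂ) :=
      (continuous_projIcc.comp continuous_snd).prodMk continuous_const
    exact (hc.comp h1).sub (hc.comp h2)
  have hF0 : ∀ x, F x ≠ 0 := by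
    intro x hx
    rw [hF] at hx
    simp only [sub_eq_zero] at hx
    exact hcz x.1 ((H _).injective hx)
  have hstart : Chg (fun x => F (x, 0)) 0 1 0 (2 * Real.pi * Complex.I) := by
    refine (Chg.shift.1 hcirc).congr fun t _ => ?_
    have : projIcc (0 : ℝ) 1 zero_le_one 0 = 0 := projIcc_left _
    simp only [hF, this, h0, Homeomorph.refl_apply, id_eq]
  have hend := Chg.homotopy (F := F) (a := 0) (b := 1) (s := 0) (t := 1) (p := 0)
    zero_le_one zero_le_one hFc.continuousOn (fun x _ => hF0 x) (by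
      intro y _
      have h3 : c 1 = c 0 := by
        rw [hcdef]
        simp only [ownc_01]
      simp only [hF, h3]) hstart
  have hend' : Chg (fun t => Φ (c t)) 0 1 (Φ z) (2 * Real.pi * Complex.I) := by
    rw [Chg.shift]
    refine hend.congr fun t _ => ?_
    have : projIcc (0 : ℝ) 1 zero_le_one 1 = 1 := projIcc_right _
    simp only [hF, this, h1]
  exact hend'

theorem IsTau.deg_one_or {σ τ : ℝ × ℝ → ℝ} {k : ℤ} (ht : IsTau ψ Φ σ τ k) (hE : ExtMap f ψ ψi)
    (h : Hyp f J) (hΦ : ∀ z, Φ z ∈ (KSet f)ᶜ ↔ z ∈ (KSet f)ᶜ) (hor : OrP Φ) : k = 1 := by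
  obtain ⟨p, hp⟩ := K_nonempty (f := f) h.deg
  have hone : (0 : ℝ) < 1 := one_pos
  -- large circles
  obtain ⟨R, hR⟩ : ∃ R : ℝ, ∀ W : ℂ, R < ‖W‖ → ‖ψ W / W - 1‖ < 1 / 4 := by
    have h1 := (Metric.tendsto_nhds.mp hE.asym) (1 / 4) (by norm_num)
    have h2 := Filter.HasBasis.eventually_iff (Metric.hasBasis_cobounded_compl_closedBall (0 : ℂ))
      |>.mp h1
    obtain ⟨r, -, hr⟩ := h2
    refine ⟨r, fun W hW => ?_⟩
    have := hr (x := W) (by simpa using hW)
    rwa [dist_eq_norm] at this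
  obtain ⟨s, hs0, hsR, hsp⟩ : ∃ s : ℝ, 0 < s ∧ R < Real.exp s ∧ 4 * ‖p‖ < Real.exp s := by
    obtain ⟨s, hs⟩ := (((Real.tendsto_exp_atTop.eventually_gt_atTop R).and
      (Real.tendsto_exp_atTop.eventually_gt_atTop (4 * ‖p‖))).and
        (eventually_gt_atTop (0 : ℝ))).exists
    exact ⟨s, hs.2, hs.1.1, hs.1.2⟩
  set E : ℝ → ℂ := fun t => ((Real.exp s : ℝ) : ℂ) * Complex.exp (2 * Real.pi * t * Complex.I)
    with hEdef
  have hEn : ∀ t, ‖E t‖ = Real.exp s := fun t => ownc_circ p (Real.exp_pos s) t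
  have hE0 : ∀ t, E t ≠ 0 := by
    intro t h0
    have := hEn t
    rw [h0, norm_zero] at this
    exact (Real.exp_pos s).ne this
  have hEE : ∀ t, ‖EE ψ s t - E t‖ ≤ Real.exp s / 4 := by
    intro t
    have e1 : EE ψ s t = ψ (E t) := by
      rw [hEdef, EE, Complex.exp_add, Complex.ofReal_exp]
    have e2 := hR (E t) (by rw [hEn]; exact hsR)
    have e3 : ψ (E t) - E t = (ψ (E t) / E t - 1) * E t := by
      rw [sub_mul, div_mul_cancel₀ _ (hE0 t), one_mul]
    rw [e1, e3, norm_mul, hEn]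
    have := Real.exp_pos s
    nlinarith
  have hEc : Continuous E := by
    rw [hEdef]
    fun_prop
  have hc1 : Continuous fun t : ℝ => EE ψ s t := by
    have h1 := hE.EE_cont
    have h2 : Continuous fun t : ℝ => (s, t) := by fun_prop
    exact h1.comp_continuous h2 fun t => hs0
  have hE10 : E 1 = E 0 := by
    rw [hEdef]
    simp only [ownc_01]
  -- from the circle to the equipotential of level `s`
  set G : ℝ × ℝ → ℂ := fun x =>
    Φ ((p + E x.1) + x.2 * (EE ψ s x.1 - (p + E x.1))) - Φ p with hG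
  have hGc : Continuous G := by
    have h1 : Continuous fun x : ℝ × ℝ => (p + E x.1) + x.2 * (EE ψ s x.1 - (p + E x.1)) := by
      have h2 : Continuous fun x : ℝ × ℝ => E x.1 := hEc.comp continuous_fst
      have h3 : Continuous fun x : ℝ × ℝ => EE ψ s x.1 := hc1.comp continuous_fst
      have h4 : Continuous fun x : ℝ × ℝ => ((x.2 : ℝ) : ℂ) :=
        Complex.continuous_ofReal.comp continuous_snd
      exact (continuous_const.add h2).add (h4.mul (h3.sub (continuous_const.add h2)))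
    exact (Φ.continuous.comp h1).sub continuous_const
  have hG0 : ∀ x ∈ Icc (0 : ℝ) 1 ×ˢ Icc (0 : ℝ) 1, G x ≠ 0 := by
    rintro ⟨t, u⟩ ⟨-, hu⟩ hx
    rw [hG] at hx
    simp only [sub_eq_zero] at hx
    have h1 := Φ.injective hx
    have h2 : E t = -((u : ℂ) * (EE ψ s t - E t - p)) := by linear_combination h1
    have h3 : ‖E t‖ ≤ 1 * (Real.exp s / 4 + ‖p‖) := by
      conv_lhs => rw [h2]
      rw [norm_neg, norm_mul, Complex.norm_real, Real.norm_of_nonneg hu.1]
      refine mul_le_mul hu.2 ?_ (norm_nonneg _) zero_le_one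
      exact (norm_sub_le _ _).trans (by linarith [hEE t])
    rw [hEn] at h3
    have := Real.exp_pos s
    linarith
  have hstart : Chg (fun x => G (x, 0)) 0 1 0 (2 * Real.pi * Complex.I) := by
    refine (Chg.shift.1 (hor.chg p (Real.exp_pos s))).congr fun t _ => ?_
    simp only [hG, hEdef, Complex.ofReal_zero, zero_mul, add_zero]
  have hmid := Chg.homotopy (F := G) (a := 0) (b := 1) (s := 0) (t := 1) (p := 0)
    zero_le_one zero_le_one hGc.continuousOn hG0 (by
      intro y _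
      have h3 := EE_per ψ s 0
      rw [zero_add] at h3
      simp only [hG, h3, hE10]) hstart
  -- from the level `s` to the level `1`
  set G' : ℝ × ℝ → ℂ := fun x => Φ (EE ψ (s + x.2 * (1 - s)) x.1) - Φ p with hG'
  have hpos : ∀ u ∈ Icc (0 : ℝ) 1, 0 < s + u * (1 - s) := by
    intro u hu
    rcases eq_or_lt_of_le hu.2 with h | h
    · rw [h]
      linarith
    · have h5 : 0 < (1 - u) * s := mul_pos (by linarith) hs0
      nlinarith [hu.1]
  have hG'c : ContinuousOn G' (Icc (0 : ℝ) 1 ×ˢ Icc (0 : ℝ) 1) := by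
    have h1 : ContinuousOn (fun x : ℝ × ℝ => EE ψ (s + x.2 * (1 - s)) x.1)
        (Icc (0 : ℝ) 1 ×ˢ Icc (0 : ℝ) 1) := by
      have := hE.EE_cont.comp (f := fun x : ℝ × ℝ => ((s + x.2 * (1 - s), x.1) : ℝ × ℝ))
        (s := Icc (0 : ℝ) 1 ×ˢ Icc (0 : ℝ) 1) (by fun_prop) (fun x hx => hpos x.2 hx.2)
      exact this
    exact (Φ.continuous.comp_continuousOn h1).sub continuousOn_const
  have hG'0 : ∀ x ∈ Icc (0 : ℝ) 1 ×ˢ Icc (0 : ℝ) 1, G' x ≠ 0 := by
    rintro ⟨t, u⟩ ⟨-, hu⟩ hx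
    rw [hG'] at hx
    simp only [sub_eq_zero] at hx
    have h1 := Φ.injective hx
    exact hE.EE_mem (s := s + u * (1 - s)) (t := t) (hpos u hu) (h1 ▸ hp)
  have hstart' : Chg (fun x => G' (x, 0)) 0 1 0 (2 * Real.pi * Complex.I) := by
    refine hmid.congr fun t _ => ?_
    simp only [hG, hG', Complex.ofReal_one, one_mul, zero_mul, add_zero]
    congr 2
    ring
  have hend := Chg.homotopy (F := G') (a := 0) (b := 1) (s := 0) (t := 1) (p := 0)
    zero_le_one zero_le_one hG'c hG'0 (by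
      intro y _
      have h3 := EE_per ψ (s + y * (1 - s)) 0
      rw [zero_add] at h3
      simp only [hG', h3]) hstart'
  have hend' : Chg (fun t => Φ (EE ψ 1 t)) 0 1 (Φ p) (2 * Real.pi * Complex.I) := by
    rw [Chg.shift]
    refine hend.congr fun t _ => ?_
    have h5 : s + 1 * (1 - s) = 1 := by ring
    simp only [hG', h5]
  -- the other computation
  have hΦp : Φ p ∈ KSet f := by
    by_contra hcon
    exact (hΦ p).1 hcon hp
  have hother : Chg (fun t => Φ (EE ψ 1 t)) 0 1 (Φ p) (2 * Real.pi * Complex.I * k) := by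
    obtain ⟨L, hL1, hL2, hL3⟩ := hE.exists_Lp hΦp
    refine ⟨fun t => L (σ (1, t), τ (1, t)), ?_, fun t _ => ?_, ?_⟩
    · have h2 : Continuous fun t : ℝ => ((1 : ℝ), t) := by fun_prop
      have h3 : Continuous fun t : ℝ => (σ (1, t), τ (1, t)) :=
        (ht.cσ.comp_continuous h2 fun t => hone).prodMk (ht.cτ.comp_continuous h2 fun t => hone)
      exact (hL1.comp_continuous h3 fun t => ht.pos 1 t hone).continuousOn
    · rw [hL2 _ _ (ht.pos 1 t hone), ht.eq 1 t hone]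
    · have h2 := ht.deg 1 0 hone
      rw [zero_add] at h2
      simp only [h2.1, h2.2]
      rw [hL3 _ _ k (ht.pos 1 0 hone)]
      ring
  have huniq := Chg.unique zero_le_one hother hend'
  have hpi : (2 * Real.pi * Complex.I : ℂ) ≠ 0 := Complex.two_pi_I_ne_zero
  have hk : (k : ℂ) = 1 := mul_left_cancel₀ hpi (by rw [huniq, mul_one])
  exact_mod_cast hk

private lemma ownc_int {x : ℝ} (h : ∀ ε : ℝ, 0 < ε → ∃ n : ℤ, |x - n| < ε) : ∃ n : ℤ, x = n := by
  have h1 : x ∈ closure (Set.range (Int.cast : ℤ → ℝ)) := by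
    rw [Metric.mem_closure_iff]
    intro ε hε
    obtain ⟨n, hn⟩ := h ε hε
    exact ⟨(n : ℝ), ⟨n, rfl⟩, hn⟩
  rw [Int.isClosedEmbedding_coe_real.isClosed_range.closure_eq] at h1
  obtain ⟨n, hn⟩ := h1
  exact ⟨n, hn.symm⟩

private lemma ownc_surj {H : ℝ → ℝ} (hc : Continuous H) (hp : ∀ t, H (t + 1) = H t + 1) :
    Function.Surjective H := by
  have hn : ∀ (n : ℕ) (t : ℝ), H (t + n) = H t + n := by
    intro n
    induction n with
    | zero =>
      intro t
      simp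
    | succ n ih =>
      intro t
      have e1 : t + ((n + 1 : ℕ) : ℝ) = (t + n) + 1 := by
        push_cast
        ring
      rw [e1, hp, ih]
      push_cast
      ring
  intro y
  obtain ⟨n, hn1⟩ := exists_nat_gt (|y| + |H 0|)
  have h1 : H n = H 0 + n := by
    have := hn n 0
    rw [zero_add] at this
    exact this
  have h2 : H (-n) = H 0 - n := by
    have := hn n (-n)
    rw [neg_add_cancel] at this
    linarith
  have hle : (-(n : ℝ)) ≤ n := by
    have : (0 : ℝ) ≤ n := Nat.cast_nonneg n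
    linarith
  have h3 := intermediate_value_Icc hle hc.continuousOn
  have ha := abs_le.1 (le_refl |y|)
  have hb := abs_le.1 (le_refl |H 0|)
  have h4 : y ∈ Icc (H (-n)) (H n) := by
    constructor
    · rw [h2]
      linarith [ha.1, hb.2]
    · rw [h1]
      linarith [ha.2, hb.1]
  obtain ⟨x, _, hx⟩ := h3 h4
  exact ⟨x, hx⟩

private lemma ownc_n {H : ℝ → ℝ} (hp : ∀ t, H (t + 1) = H t + 1) (n : ℤ) (t : ℝ) :
    H (t + n) = H t + n := by
  induction n using Int.induction_on with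
  | zero => simp
  | succ i ih =>
    have e1 : t + (((i : ℤ) + 1 : ℤ) : ℝ) = (t + (i : ℤ)) + 1 := by
      push_cast
      ring
    rw [e1, hp, ih]
    push_cast
    ring
  | pred i ih =>
    have e1 : t + ((-(i : ℤ) : ℤ) : ℝ) = (t + ((-(i : ℤ) - 1 : ℤ) : ℝ)) + 1 := by
      push_cast
      ring
    rw [e1, hp] at ih
    have e2 : ((-(i : ℤ) - 1 : ℤ) : ℝ) = ((-(i : ℤ) : ℤ) : ℝ) - 1 := by
      push_cast
      ring
    rw [e2] at ih ⊢
    linarith

theorem lift_or (h : Hyp f J) (hE : ExtMap f ψ ψi) (hl : IsLoop f J ψ γ) (g : J ≃ₜ J)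
    (hg : ∃ Φ : ℂ ≃ₜ ℂ, OrP Φ ∧ ∀ z : J, Φ (z : ℂ) = (g z : ℂ)) :
    ∃ H : ℝ ≃o ℝ, IsAut γ H ∧ ∀ (x : ℝ) (hx : γ x ∈ J), γ (H x) = g ⟨γ x, hx⟩ := by
  obtain ⟨Φ, hor, hΦg⟩ := hg
  have hΦJ : ∀ z, Φ z ∈ J ↔ z ∈ J := by
    intro z
    constructor
    · intro hz
      have h1 := hΦg (g.symm ⟨Φ z, hz⟩)
      rw [g.apply_symm_apply] at h1
      have h2 := Φ.injective h1
      rw [← h2]
      exact (g.symm ⟨Φ z, hz⟩).2
    · intro hz
      have h1 := hΦg ⟨z, hz⟩
      have h2 : Φ z = (g ⟨z, hz⟩ : ℂ) := h1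
      rw [h2]
      exact (g ⟨z, hz⟩).2
  have hΦJ' : ∀ z, Φ.symm z ∈ J ↔ z ∈ J := by
    intro z
    have h1 := hΦJ (Φ.symm z)
    rw [Φ.apply_symm_apply] at h1
    exact h1.symm
  have hΦK := h.out hΦJ
  have hΦK' := h.out hΦJ'
  obtain ⟨σ, τ, k, ht⟩ := hE.exists_tau hΦK
  obtain ⟨σ', τ', k', ht'⟩ := hE.exists_tau hΦK'
  have hk : k = 1 := ht.deg_one_or hE h hΦK hor
  obtain ⟨H, hHc, hHγ, hHd, hHlim⟩ := ht.exists_H hE h hl hΦJ
  obtain ⟨H', hH'c, hH'γ, hH'd, hH'lim⟩ := ht'.exists_H hE h hl hΦJ'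
  have hp : ∀ t, H (t + 1) = H t + 1 := by
    intro t
    rw [hHd t, hk, Int.cast_one]
  -- `H' (H t)` differs from `t` by an integer
  have hcomp : ∀ t, ∃ n : ℤ, t - H' (H t) = n := by
    intro t
    apply ownc_int
    intro ε hε
    obtain ⟨η, hη, h1⟩ := hH'lim (H t) ε hε
    obtain ⟨s₀, hs₀, h2⟩ := ht.sigma_small hE h hΦJ hη
    obtain ⟨η₂, hη₂, h3⟩ := hHlim t η hη
    have hspos : 0 < min s₀ η₂ / 2 := by
      have := lt_min hs₀ hη₂
      linarith
    have hs1 : min s₀ η₂ / 2 < s₀ := by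
      have := min_le_left s₀ η₂
      linarith
    have hs2 : min s₀ η₂ / 2 < η₂ := by
      have := min_le_right s₀ η₂
      linarith
    have hσpos := ht.pos (min s₀ η₂ / 2) t hspos
    have hσ := h2 (min s₀ η₂ / 2) t hspos hs1
    have hτ := h3 (min s₀ η₂ / 2) t hspos hs2 (by rw [sub_self, abs_zero]; exact hη₂)
    have h4 := h1 _ _ hσpos hσ hτ
    have h5 : EE ψ (σ' (σ (min s₀ η₂ / 2, t), τ (min s₀ η₂ / 2, t)))
        (τ' (σ (min s₀ η₂ / 2, t), τ (min s₀ η₂ / 2, t))) = EE ψ (min s₀ η₂ / 2) t := by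
      rw [ht'.eq _ _ hσpos, ht.eq _ _ hspos, Φ.symm_apply_apply]
    obtain ⟨-, n, hn⟩ := hE.EE_inj (ht'.pos _ _ hσpos) hspos h5
    refine ⟨n, ?_⟩
    have h6 : t - H' (H t) - n
        = τ' (σ (min s₀ η₂ / 2, t), τ (min s₀ η₂ / 2, t)) - H' (H t) := by
      linarith
    rw [h6]
    exact h4
  have hinj : Function.Injective H := by
    intro t t' htt
    obtain ⟨n, hn⟩ := hcomp t
    obtain ⟨n', hn'⟩ := hcomp t'
    have h1 : t = t' + ((n - n' : ℤ) : ℝ) := by
      rw [htt] at hn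
      push_cast
      linarith
    have h2 := ownc_n hp (n - n') t'
    rw [← h1, htt] at h2
    have h3 : ((n - n' : ℤ) : ℝ) = 0 := by linarith
    rw [h3, add_zero] at h1
    exact h1
  have hmono : StrictMono H := by
    rcases hHc.strictMono_of_inj hinj with h1 | h1
    · exact h1
    · exfalso
      have h2 := h1 (show (0 : ℝ) < 0 + 1 by norm_num)
      rw [hp 0] at h2
      linarith
  refine ⟨hmono.orderIsoOfSurjective H (ownc_surj hHc hp), ⟨?_, ?_⟩, ?_⟩
  · intro x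
    exact hp x
  · intro x y
    show γ x = γ y ↔ γ (H x) = γ (H y)
    rw [hHγ, hHγ]
    exact (Φ.injective.eq_iff).symm
  · intro x hx
    show γ (H x) = _
    rw [hHγ]
    exact hΦg ⟨γ x, hx⟩


/-- the quantitative form for the realized polynomial -/
theorem Real7w.no_fg_n (h : Real7w f J ψ ψi γ) (n : ℕ) :
    ∃ ε : ℝ, 0 < ε ∧ ∃ k : Fin (n + 1) → (J ≃ₜ J),
      (∀ i, ∃ Φ : ℂ ≃ₜ ℂ, IsoI Φ ∧ ∀ z : J, Φ (z : ℂ) = (k i z : ℂ)) ∧
      ∀ S : Set (J ≃ₜ J), S.Finite → S.ncard ≤ n →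
        (∀ g ∈ S, ∃ Φ : ℂ ≃ₜ ℂ, OrP Φ ∧ ∀ z : J, Φ (z : ℂ) = (g z : ℂ)) →
        ∃ i, ∀ g ∈ Subgroup.closure S, ∃ z : J, ε ≤ dist (g z : ℂ) (k i z : ℂ) := by
  have hL := h.lamW.lam
  have hJ : ∀ x : ℝ, (fun x => γ (x / 40353264)) x ∈ J := fun x => h.loop.g_mem _
  obtain ⟨δ, C, lam, hr⟩ := h.hyp.exists_hypRad
  refine hL.main_n (fun x => ?_) hJ
    (fun g => ∃ Φ : ℂ ≃ₜ ℂ, OrP Φ ∧ ∀ z : J, Φ (z : ℂ) = (g z : ℂ))
    (fun g => ∃ Φ : ℂ ≃ₜ ℂ, IsoI Φ ∧ ∀ z : J, Φ (z : ℂ) = (g z : ℂ)) (fun g hg => ?_)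
    (fun H hper hrel => ?_) n
  · simp only [dN_h, h.odd]
  · obtain ⟨H, hH, hHg⟩ := lift_or h.hyp h.ext h.loop g hg
    refine ⟨(scN.symm.trans H).trans scN, fun x => ?_, fun x => ?_⟩
    · simp only [OrderIso.trans_apply, scN_symm, scN_apply, dN_1, hH.per]
      ring
    · simp only [OrderIso.trans_apply, scN_symm, scN_apply]
      rw [mul_div_cancel_right₀ _ (show (40353264 : ℝ) ≠ 0 by norm_num)]
      exact (hHg _ _).symm
  · have hH : IsAut γ ((scN.trans H).trans scN.symm) := by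
      constructor
      · intro x
        simp only [OrderIso.trans_apply, scN_symm, scN_apply]
        rw [show (x + 1) * 40353264 = x * 40353264 + 40353264 by ring, hper, dN_1]
      · intro x y
        simp only [OrderIso.trans_apply, scN_symm, scN_apply]
        have := hrel (x * 40353264) (y * 40353264)
        simp only [mul_div_cancel_right₀ _ (show (40353264 : ℝ) ≠ 0 by norm_num)] at this
        exact this
    obtain ⟨g, ⟨Φ, hg1, hg2⟩, hgH⟩ := desc_exists h.hyp hr h.ext h.loop hH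
    refine ⟨g, ⟨Φ, hg2, hg1⟩, fun x => ?_⟩
    have := hgH (x / 40353264) (hJ x)
    simp only [OrderIso.trans_apply, scN_symm, scN_apply] at this
    rw [div_mul_cancel₀ _ (show (40353264 : ℝ) ≠ 0 by norm_num)] at this
    exact this.symm

end Pool.Agent.JH
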