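import Pool.Agent.Lib.MP_8ebc20_an.OwnA
import Pool.Agent.Lib.MP_8ebc20_an.R.Trap7

/-!
# MP_8ebc20_an, own form: the critical orbits of `g7` converge to attracting cycles
-/

set_option autoImplicit false

namespace Pool.Agent.JH

open Polynomial Set Metric Filter Topology

private theorem ownd_diff : Differentiable ℂ gF := by
  unfold gF
  fun_prop

private theorem ownd_trap {z : ℂ} (hz : z ∈ trp0.CB) : gF^[6] z ∈ trp0.B := by
  have key : ∀ D : Dd, ∀ w : ℂ, w ∈ D.B → w ∈ D.CB := fun D w hw => ball_subset_closedBall hw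
  have h1 := trpN_step 0 (by norm_num) (z := z) hz
  have h2 := trpN_step 1 (by norm_num) (key _ _ h1)
  have h3 := trpN_step 2 (by norm_num) (key _ _ h2)
  have h4 := trpN_step 3 (by norm_num) (key _ _ h3)
  have h5 := trpN_step 4 (by norm_num) (key _ _ h4)
  have h6 := trpN_step 5 (by norm_num) (key _ _ h5)
  exact h6

private theorem ownd_pos : 0 < trp0.R := by
  have h : (0 : ℕ) < trp0.r := by decide
  have h2 : (0 : ℝ) < trp0.r := by exact_mod_cast h
  unfold Dd.R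
  positivity

private theorem ownd_it (k : ℕ) : ∀ w : ℂ, (gF^[6])^[k] w = gF^[6 * k] w := by
  intro w
  rw [← Function.iterate_mul]

private theorem ownd_odd {G : ℂ → ℂ} (hG : ∀ z, G (-z) = -G z) {p d : ℂ}
    (h : HasDerivAt G d p) : HasDerivAt G d (-p) := by
  have h1 : HasDerivAt G d (- -p) := by
    rw [neg_neg]
    exact h
  have h2 : HasDerivAt (fun z : ℂ => G (-z)) (d * -1) (-p) :=
    HasDerivAt.comp (-p) h1 (hasDerivAt_neg (-p))
  have h4 := h2.neg
  have h5 : (-fun z : ℂ => G (-z)) = G := by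
    funext z
    rw [Pi.neg_apply, hG, neg_neg]
  rw [h5] at h4
  have h6 : -(d * -1) = d := by ring
  rwa [h6] at h4

/-- every critical point of `g7` is attracted by an attracting cycle -/
theorem g7_attr {c : ℂ} (hc : g7.derivative.eval c = 0) :
    ∃ (p : ℂ) (n m : ℕ), 1 ≤ n ∧ (ev g7)^[n] p = p ∧ ‖deriv ((ev g7)^[n]) p‖ < 1 ∧
      Tendsto (fun k : ℕ => (ev g7)^[m + n * k] c) atTop (𝓝 p) := by
  rw [ev_g7]
  have hF6 : Differentiable ℂ gF^[6] := ownd_diff.iterate 6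
  obtain ⟨p, -, hp1, hp2, hp3⟩ := trap_attr hF6 ownd_pos
    (fun z hz => ownd_trap hz)
  have key : ∀ D ∈ [crX, crU, crW], ∀ z ∈ D.CB, ∃ n : ℕ, gF^[n] z ∈ trp0.B := by
    intro D hD z hz
    simp only [List.mem_cons, List.not_mem_nil, or_false] at hD
    rcases hD with rfl | rfl | rfl
    · exact ⟨_, to_sound cr_okX z hz⟩
    · exact ⟨_, to_sound cr_okU z hz⟩
    · exact ⟨_, to_sound cr_okW z hz⟩
  have hmain : ∀ z : ℂ, (∃ n : ℕ, gF^[n] z ∈ trp0.B) → ∃ m : ℕ,
      Tendsto (fun k : ℕ => gF^[m + 6 * k] z) atTop (𝓝 p) := by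
    rintro z ⟨m, hm⟩
    refine ⟨m, ?_⟩
    refine (hp3 _ (ball_subset_closedBall hm)).congr fun k => ?_
    rw [ownd_it, ← Function.iterate_add_apply, add_comm]
  obtain ⟨D, hD, h | h⟩ := crit_loc hc
  · obtain ⟨m, hm⟩ := hmain _ (key D hD _ h)
    exact ⟨p, 6, m, by norm_num, hp1, hp2, hm⟩
  · obtain ⟨m, hm⟩ := hmain _ (key D hD _ h)
    refine ⟨-p, 6, m, by norm_num, ?_, ?_, ?_⟩
    · rw [gF_it_neg, hp1]
    · rw [(ownd_odd (gF_it_neg 6) (hF6 p).hasDerivAt).deriv]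
      exact hp2
    · refine hm.neg.congr fun k => ?_
      rw [gF_it_neg, neg_neg]

end Pool.Agent.JH
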