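import Pool.Agent.Lib.MP_8ebc20_an.RU
import Pool.Agent.BB.Runge
import Pool.Agent.BB.RMT

/-!
# RU1: Riemann maps of the bounded Fatou components

PROOFS.
`hull_int`: let `Q ⊆ interior K` be compact.  If `a ∉ K`: `‖f^[n]‖ ≤ RR` on `K` and
`‖f^[n] a‖ → ∞` (`escape`): `G = f^[n] / f^[n] a` (a polynomial).  If `a ∈ J`: let `x = f^[n] a ∈ J` and `g`
the branch with `g x = a`; by `contr`, `‖deriv g x‖ ≤ C lam ^ n`, and `(f^[n])' a * g' x = 1`, so
`‖(f^[n])' a‖ ≥ lam ^ (-n) / C → ∞`; on `Q`, with `ball z r ⊆ K` for `z ∈ Q` (compactness), the Cauchy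
estimate gives `‖(f^[n])' z‖ ≤ RR / r`: `G = (f^[n])' / (f^[n])' a`.
`exists_riem`: `BB.sqrt_of_hull` with `A = interior K` and `U` (`A \ U` is open, being a union of
components) and `BB.riemann_map`; `U` is not everything as it is bounded.
-/

set_option autoImplicit false

namespace Pool.Agent.JH

open Polynomial Set Metric Filter Topology

variable {f : ℂ[X]} {J : Set ℂ} {δ C lam : ℝ} {U V : Set ℂ}

private theorem ru1_diff (f : ℂ[X]) (n : ℕ) : Differentiable ℂ ((ev f)^[n]) :=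
  Differentiable.iterate f.differentiable n

theorem Hyp.hull_int (h : Hyp f J) (hr : HypRad f J δ C lam) :
    ∀ Q ⊆ interior (KSet f), IsCompact Q → ∀ a ∉ interior (KSet f), ∃ G : ℂ → ℂ,
      Differentiable ℂ G ∧ G a = 1 ∧ ∀ z ∈ Q, ‖G z‖ ≤ 1 / 2 := by
  intro Q hQ hQc a ha
  have hR1 := (RR_spec h.deg).1
  have hRpos : 0 < RR f := lt_of_lt_of_le one_pos hR1
  by_cases haK : a ∈ KSet f
  · have haJ : a ∈ J := by
      by_contra hJ
      exact ha (by rw [h.interior_K]; exact ⟨haK, hJ⟩)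
    obtain ⟨r, hr0, hrQ⟩ := hQc.exists_cthickening_subset_open isOpen_interior hQ
    have hball : ∀ z ∈ Q, closedBall z r ⊆ KSet f := fun z hz =>
      ((closedBall_subset_cthickening hz r).trans hrQ).trans interior_subset
    -- choose `n`
    have hlim : Tendsto (fun n : ℕ => RR f / r * (C * lam ^ n)) atTop (𝓝 (RR f / r * (C * 0))) :=
      ((tendsto_pow_atTop_nhds_zero_of_lt_one hr.lpos.le hr.llt).const_mul C).const_mul _
    rw [mul_zero, mul_zero] at hlim
    obtain ⟨n, hn⟩ := (hlim.eventually (gt_mem_nhds (by norm_num : (0:ℝ) < 1 / 2))).exists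
    set x := (ev f)^[n] a with hx
    have hxJ : x ∈ J := (h.it_mem_J n).2 haJ
    obtain ⟨g, hg, hgx⟩ := hr.ex x hxJ n x (mem_ball_self (by linarith [hr.δpos])) a rfl
    have hmul := hg.deriv_mul (mem_ball_self (by linarith [hr.δpos]))
    rw [hgx] at hmul
    have hCl : 0 ≤ C * lam ^ n :=
      mul_nonneg (zero_le_one.trans hr.Cpos) (pow_nonneg hr.lpos.le n)
    have hdg : ‖deriv g x‖ ≤ C * lam ^ n := by
      refine norm_deriv_le_of_lip' hCl ?_
      filter_upwards [closedBall_mem_nhds x hr.δpos] with w hw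
      exact hr.contr x hxJ n g hg w hw x (mem_closedBall_self hr.δpos.le)
    have hD0 : deriv ((ev f)^[n]) a ≠ 0 := fun h0 => by
      rw [h0, zero_mul] at hmul
      exact zero_ne_one hmul
    have hDinv : (deriv ((ev f)^[n]) a)⁻¹ = deriv g x := inv_eq_of_mul_eq_one_right hmul
    refine ⟨fun z => deriv ((ev f)^[n]) z / deriv ((ev f)^[n]) a, ?_, div_self hD0, ?_⟩
    · have h1 : DifferentiableOn ℂ (deriv ((ev f)^[n])) univ :=
        (ru1_diff f n).differentiableOn.deriv isOpen_univ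
      exact (differentiableOn_univ.1 h1).div_const _
    · intro z hz
      have h2 : ‖deriv ((ev f)^[n]) z‖ ≤ RR f / r := by
        refine Complex.norm_deriv_le_of_forall_mem_sphere_norm_le hr0
          (ru1_diff f n).diffContOnCl ?_
        intro w hw
        exact (((mem_K_iff h.deg).1 (hball z hz (sphere_subset_closedBall hw))) n).le
      show ‖deriv ((ev f)^[n]) z / deriv ((ev f)^[n]) a‖ ≤ 1 / 2
      rw [div_eq_mul_inv, hDinv, norm_mul]
      calc ‖deriv ((ev f)^[n]) z‖ * ‖deriv g x‖ ≤ RR f / r * (C * lam ^ n) :=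
            mul_le_mul h2 hdg (norm_nonneg _) (div_nonneg hRpos.le hr0.le)
        _ ≤ 1 / 2 := hn.le
  · obtain ⟨N, hN⟩ := escape h.deg (isCompact_singleton (x := a))
      (singleton_subset_iff.2 haK) (2 * RR f)
    have h1 := hN N le_rfl a rfl
    have hw0 : (ev f)^[N] a ≠ 0 := by
      intro h0
      rw [h0, norm_zero] at h1
      linarith
    refine ⟨fun z => (ev f)^[N] z / (ev f)^[N] a, (ru1_diff f N).div_const _, div_self hw0, ?_⟩
    intro z hz
    have h2 := (mem_K_iff h.deg).1 (interior_subset (hQ hz)) N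
    show ‖(ev f)^[N] z / (ev f)^[N] a‖ ≤ 1 / 2
    rw [norm_div, div_le_iff₀ (norm_pos_iff.2 hw0)]
    linarith

theorem IsFat.exists_riem (h : Hyp f J) (hr : HypRad f J δ C lam) (hU : IsFat f U) {z₀ : ℂ}
    (hz₀ : z₀ ∈ U) :
    ∃ φ ψ : ℂ → ℂ, DifferentiableOn ℂ φ (ball 0 1) ∧ DifferentiableOn ℂ ψ U ∧
      (∀ ζ ∈ ball (0:ℂ) 1, φ ζ ∈ U ∧ ψ (φ ζ) = ζ) ∧ (∀ z ∈ U, ψ z ∈ ball (0:ℂ) 1 ∧ φ (ψ z) = z) ∧
      φ 0 = z₀ := by
  have hcl : IsOpen (interior (KSet f) \ U) := by
    rw [isOpen_iff_forall_mem_open]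
    rintro z ⟨hz, hzU⟩
    obtain ⟨W, hW, hzW⟩ := exists_fat hz
    refine ⟨W, ?_, hW.isOpen, hzW⟩
    intro w hw
    refine ⟨hW.sub_int hw, fun hwU => hzU ?_⟩
    rw [hU.eq_of_meet hW ⟨w, hwU, hw⟩]
    exact hzW
  refine Pool.Agent.BB.riemann_map hU.isOpen hU.isConnected.isPreconnected ?_ ?_ hz₀
  · intro hun
    have h1 := hU.frontier_nonempty h.deg
    rw [hun, frontier_univ] at h1
    exact h1.ne_empty rfl
  · exact Pool.Agent.BB.sqrt_of_hull isOpen_interior hU.isOpen hU.isConnected.isPreconnected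
      hU.sub_int hcl (h.hull_int hr)

end Pool.Agent.JH
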