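import Pool.Agent.Lib.MP_8ebc20_an.Tau1

/-!
# TAU: the boundary value of the angle function

PROOF of `exists_H`: by `tau_cauchy` the limit `H t = lim τ (s, t')` as `(s, t') → (0+, t)` exists and is
continuous; `γ (H t) = lim EE (σ, τ) = lim Φ (EE s t) = Φ (γ t)`.
-/

set_option autoImplicit false

namespace Pool.Agent.JH

open Polynomial Set Metric Filter Topology

variable {f : ℂ[X]} {J : Set ℂ} {γ : ℝ → ℂ} {ψ ψi : ℂ → ℂ} {Φ : ℂ ≃ₜ ℂ}

theorem IsTau.exists_H {σ τ : ℝ × ℝ → ℝ} {k : ℤ} (ht : IsTau ψ Φ σ τ k) (hE : ExtMap f ψ ψi)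
    (h : Hyp f J) (hl : IsLoop f J ψ γ) (hΦ : ∀ z, Φ z ∈ J ↔ z ∈ J) :
    ∃ H : ℝ → ℝ, Continuous H ∧ (∀ t, γ (H t) = Φ (γ t)) ∧ (∀ t, H (t + 1) = H t + k) ∧
      ∀ t ε : ℝ, 0 < ε → ∃ η : ℝ, 0 < η ∧ ∀ s t' : ℝ, 0 < s → s < η → |t' - t| < η →
        |τ (s, t') - H t| < ε := by
  have hu0 : ∀ n : ℕ, (0 : ℝ) < 1 / (n + 1) := fun n => by positivity
  have hu : Tendsto (fun n : ℕ => (1 : ℝ) / (n + 1)) atTop (𝓝 0) :=
    tendsto_one_div_add_atTop_nhds_zero_nat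
  have hex : ∀ t : ℝ, ∃ v : ℝ, Tendsto (fun n : ℕ => τ (1 / (n + 1 : ℝ), t)) atTop (𝓝 v) := by
    intro t
    apply cauchySeq_tendsto_of_complete
    rw [Metric.cauchySeq_iff]
    intro ε hε
    obtain ⟨η, hη0, hη⟩ := ht.tau_cauchy hE h hl hΦ hε
    obtain ⟨N, hN⟩ := Filter.eventually_atTop.1 (hu.eventually (gt_mem_nhds hη0))
    refine ⟨N, fun m hm n hn => ?_⟩
    rw [Real.dist_eq]
    exact hη _ _ _ _ (hu0 m) (hN m hm) (hu0 n) (hN n hn) (by simpa using hη0)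
  choose H hH using hex
  have hfour : ∀ t ε : ℝ, 0 < ε → ∃ η : ℝ, 0 < η ∧ ∀ s t' : ℝ, 0 < s → s < η → |t' - t| < η →
      |τ (s, t') - H t| < ε := by
    intro t ε hε
    obtain ⟨η, hη0, hη⟩ := ht.tau_cauchy hE h hl hΦ (half_pos hε)
    refine ⟨η, hη0, fun s t' hs0 hs htt => ?_⟩
    have hlim : Tendsto (fun n : ℕ => |τ (s, t') - τ (1 / (n + 1 : ℝ), t)|) atTop
        (𝓝 |τ (s, t') - H t|) := (tendsto_const_nhds.sub (hH t)).abs
    have hle : |τ (s, t') - H t| ≤ ε / 2 := by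
      refine le_of_tendsto hlim ?_
      filter_upwards [hu.eventually (gt_mem_nhds hη0)] with n hn
      exact (hη _ _ _ _ hs0 hs (hu0 n) hn htt).le
    linarith
  have hcont : Continuous H := by
    rw [Metric.continuous_iff]
    intro t ε hε
    obtain ⟨η, hη0, hη⟩ := ht.tau_cauchy hE h hl hΦ (half_pos hε)
    refine ⟨η, hη0, fun t' htt => ?_⟩
    rw [Real.dist_eq] at htt ⊢
    have hlim : Tendsto (fun n : ℕ => |τ (1 / (n + 1 : ℝ), t') - τ (1 / (n + 1 : ℝ), t)|) atTop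
        (𝓝 |H t' - H t|) := ((hH t').sub (hH t)).abs
    have hle : |H t' - H t| ≤ ε / 2 := by
      refine le_of_tendsto hlim ?_
      filter_upwards [hu.eventually (gt_mem_nhds hη0)] with n hn
      exact (hη _ _ _ _ (hu0 n) hn (hu0 n) hn htt).le
    linarith
  refine ⟨H, hcont, fun t => ?_, fun t => ?_, hfour⟩
  · -- `γ (H t) = Φ (γ t)`
    have h1 : Tendsto (fun n : ℕ => EE ψ (1 / (n + 1 : ℝ)) t) atTop (𝓝 (γ t)) := by
      rw [Metric.tendsto_atTop]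
      intro ε hε
      obtain ⟨s₀, hs₀, hs⟩ := hl.lim ε hε
      obtain ⟨N, hN⟩ := Filter.eventually_atTop.1 (hu.eventually (gt_mem_nhds hs₀))
      refine ⟨N, fun n hn => ?_⟩
      rw [dist_eq_norm]
      exact hs _ _ (hu0 n) (hN n hn)
    have h2 : Tendsto (fun n : ℕ => EE ψ (σ (1 / (n + 1 : ℝ), t)) (τ (1 / (n + 1 : ℝ), t))) atTop
        (𝓝 (Φ (γ t))) := by
      have := (Φ.continuous.tendsto (γ t)).comp h1
      refine this.congr fun n => ?_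
      simp only [Function.comp]
      exact (ht.eq _ _ (hu0 n)).symm
    have h3 : Tendsto (fun n : ℕ => EE ψ (σ (1 / (n + 1 : ℝ), t)) (τ (1 / (n + 1 : ℝ), t))) atTop
        (𝓝 (γ (H t))) := by
      have h4 : Tendsto (fun n : ℕ => γ (τ (1 / (n + 1 : ℝ), t))) atTop (𝓝 (γ (H t))) :=
        (hl.cont.tendsto (H t)).comp (hH t)
      rw [Metric.tendsto_atTop] at h4 ⊢
      intro ε hε
      obtain ⟨s₀, hs₀, hs⟩ := hl.lim (ε / 2) (half_pos hε)
      obtain ⟨s₁, hs₁, hs'⟩ := ht.sigma_small hE h hΦ hs₀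
      obtain ⟨N₁, hN₁⟩ := h4 (ε / 2) (half_pos hε)
      obtain ⟨N, hN⟩ := Filter.eventually_atTop.1 (hu.eventually (gt_mem_nhds hs₁))
      refine ⟨max N N₁, fun n hn => ?_⟩
      have e1 := hs (σ (1 / (n + 1 : ℝ), t)) (τ (1 / (n + 1 : ℝ), t)) (ht.pos _ _ (hu0 n))
        (hs' _ _ (hu0 n) (hN n ((le_max_left _ _).trans hn)))
      have e2 := hN₁ n ((le_max_right _ _).trans hn)
      rw [← dist_eq_norm] at e1
      calc _ ≤ _ := dist_triangle _ (γ (τ (1 / (n + 1 : ℝ), t))) _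
        _ < ε / 2 + ε / 2 := add_lt_add e1 e2
        _ = ε := by ring
    exact tendsto_nhds_unique h3 h2
  · have h1 : Tendsto (fun n : ℕ => τ (1 / (n + 1 : ℝ), t + 1)) atTop (𝓝 (H t + k)) := by
      refine ((hH t).add_const (k : ℝ)).congr fun n => ?_
      exact ((ht.deg _ t (hu0 n)).1).symm
    exact tendsto_nhds_unique (hH (t + 1)) h1

end Pool.Agent.JH
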