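import Pool.Agent.Lib.MP_8ebc20_an.Defs

/-!
# WND0: continuous logarithms

PROOFS. `exists_log_rect`: compose `F` with the projection of `ℝ × ℝ` onto the rectangle (clamp
`fun x => (max a (min b x.1), max s (min t x.2))`), to get a continuous nonvanishing function on the plane
`ℝ × ℝ`, which is simply connected and locally path connected; apply
`Complex.exists_continuousOn_eqOn_exp_comp` (with the whole space; or the covering property of `Complex.exp`).
`exists_log_disc`: the same with the retraction `w ↦ (R / max R ‖w‖) • w` of the plane onto the closed disc.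
`exists_log_Icc`: the same with the clamp `max a (min b t)` of `ℝ`.
`log_unique`: the difference of the two logarithms is continuous on `S` with values in
`{2 π I n}` (`Complex.exp_eq_one_iff`), so constant on the preconnected set `S` (e.g. its imaginary part divided by
`2 π` is a continuous function with integer values: `IsPreconnected.eqOn_const_of_mapsTo` or the intermediate value
property).
-/

set_option autoImplicit false

namespace Pool.Agent.JH

open Polynomial Set Metric Filter Topology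

private theorem gen_log {X : Type*} [TopologicalSpace X] [LocallyPathConnectedSpace X]
    [ContractibleSpace X] {S : Set X} {r : X → X} (hr : Continuous r) (hrS : ∀ x, r x ∈ S)
    (hid : ∀ x ∈ S, r x = x) {F : X → ℂ} (hF : ContinuousOn F S) (h0 : ∀ x ∈ S, F x ≠ 0) :
    ∃ L : X → ℂ, ContinuousOn L S ∧ ∀ x ∈ S, Complex.exp (L x) = F x := by
  have hU : IsSimplyConnected (univ : Set X) :=
    (SimplyConnectedSpace.ofContractible X |> fun _ =>
      ((Homeomorph.Set.univ X).toHomotopyEquiv.simplyConnectedSpace_iff).2 inferInstance)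
  have hc : ContinuousOn (fun x => F (r x)) univ :=
    hF.comp hr.continuousOn (fun x _ => hrS x)
  obtain ⟨L, hL, hLe⟩ := Complex.exists_continuousOn_eqOn_exp_comp hU isOpen_univ hc (by
    rintro ⟨x, -, hx⟩
    exact h0 _ (hrS x) hx)
  refine ⟨L, hL.mono (subset_univ _), fun x hx => ?_⟩
  have := hLe (mem_univ x)
  simp only [Function.comp] at this
  rw [this, hid x hx]

theorem exists_log_rect {F : ℝ × ℝ → ℂ} {a b s t : ℝ} (hab : a ≤ b) (hst : s ≤ t)
    (hF : ContinuousOn F (Icc a b ×ˢ Icc s t)) (h0 : ∀ x ∈ Icc a b ×ˢ Icc s t, F x ≠ 0) :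
    ∃ L : ℝ × ℝ → ℂ, ContinuousOn L (Icc a b ×ˢ Icc s t) ∧
      ∀ x ∈ Icc a b ×ˢ Icc s t, Complex.exp (L x) = F x := by
  refine gen_log (r := fun x => (max a (min b x.1), max s (min t x.2))) (by fun_prop) ?_ ?_ hF h0
  · intro x
    exact ⟨⟨le_max_left _ _, max_le hab (min_le_left _ _)⟩,
      ⟨le_max_left _ _, max_le hst (min_le_left _ _)⟩⟩
  · rintro ⟨x, y⟩ ⟨⟨h1, h2⟩, ⟨h3, h4⟩⟩
    simp only at h1 h2 h3 h4 ⊢
    rw [min_eq_right h2, min_eq_right h4, max_eq_right h1, max_eq_right h3]

theorem exists_log_Icc {F : ℝ → ℂ} {a b : ℝ} (hab : a ≤ b)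
    (hF : ContinuousOn F (Icc a b)) (h0 : ∀ x ∈ Icc a b, F x ≠ 0) :
    ∃ L : ℝ → ℂ, ContinuousOn L (Icc a b) ∧ ∀ x ∈ Icc a b, Complex.exp (L x) = F x := by
  refine gen_log (r := fun x => max a (min b x)) (by fun_prop) ?_ ?_ hF h0
  · intro x
    exact ⟨le_max_left _ _, max_le hab (min_le_left _ _)⟩
  · rintro x ⟨h1, h2⟩
    rw [min_eq_right h2, max_eq_right h1]

theorem exists_log_disc {F : ℂ → ℂ} {R : ℝ} (hR : 0 < R) (hF : ContinuousOn F (closedBall 0 R))
    (h0 : ∀ x ∈ closedBall (0 : ℂ) R, F x ≠ 0) :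
    ∃ L : ℂ → ℂ, ContinuousOn L (closedBall 0 R) ∧
      ∀ x ∈ closedBall (0 : ℂ) R, Complex.exp (L x) = F x := by
  have hpos : ∀ w : ℂ, 0 < max R ‖w‖ := fun w => lt_max_of_lt_left hR
  refine gen_log (r := fun w => ((R / max R ‖w‖ : ℝ) : ℂ) * w) ?_ ?_ ?_ hF h0
  · refine Continuous.mul (Complex.continuous_ofReal.comp ?_) continuous_id
    exact continuous_const.div (by fun_prop) (fun w => (hpos w).ne')
  · intro w
    rw [mem_closedBall_zero_iff, norm_mul, Complex.norm_real, Real.norm_eq_abs,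
      abs_of_nonneg (div_nonneg hR.le (hpos w).le), div_mul_eq_mul_div, div_le_iff₀ (hpos w)]
    exact mul_le_mul_of_nonneg_left (le_max_right _ _) hR.le
  · intro w hw
    rw [mem_closedBall_zero_iff] at hw
    rw [max_eq_left hw, div_self hR.ne', Complex.ofReal_one, one_mul]

theorem log_unique {T : Type*} [TopologicalSpace T] {S : Set T} (hS : IsPreconnected S)
    {L L' : T → ℂ} (hL : ContinuousOn L S) (hL' : ContinuousOn L' S)
    (h : ∀ x ∈ S, Complex.exp (L x) = Complex.exp (L' x)) {x y : T} (hx : x ∈ S) (hy : y ∈ S) :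
    L x - L' x = L y - L' y := by
  have key : ∀ z ∈ S, ∃ n : ℤ, L z - L' z = n * (2 * Real.pi * Complex.I) := by
    intro z hz
    obtain ⟨n, hn⟩ := Complex.exp_eq_exp_iff_exists_int.1 (h z hz)
    exact ⟨n, by rw [hn]; ring⟩
  have him : ContinuousOn (fun z => (L z - L' z).im / (2 * Real.pi)) S :=
    (Complex.continuous_im.comp_continuousOn (hL.sub hL')).div_const _
  have hval : ∀ z ∈ S, ∃ n : ℤ, (L z - L' z).im / (2 * Real.pi) = (n : ℝ) ∧
      L z - L' z = n * (2 * Real.pi * Complex.I) := by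
    intro z hz
    obtain ⟨n, hn⟩ := key z hz
    refine ⟨n, ?_, hn⟩
    rw [hn]
    have : ((n : ℂ) * (2 * Real.pi * Complex.I)).im = n * (2 * Real.pi) := by
      simp
    rw [this, mul_div_assoc, div_self (by positivity), mul_one]
  obtain ⟨n, hn1, hn2⟩ := hval x hx
  obtain ⟨m, hm1, hm2⟩ := hval y hy
  have hmem : MapsTo (fun z => (L z - L' z).im / (2 * Real.pi)) S (range ((↑) : ℤ → ℝ)) := by
    intro z hz
    obtain ⟨k, hk, -⟩ := hval z hz
    exact ⟨k, hk.symm⟩
  have hdisc : IsDiscrete (range ((↑) : ℤ → ℝ)) := by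
    rw [isDiscrete_iff_discreteTopology]
    exact Int.isClosedEmbedding_coe_real.isEmbedding.toHomeomorph.symm.isEmbedding.discreteTopology
  have hpc : (fun z => (L z - L' z).im / (2 * Real.pi)) x
      = (fun z => (L z - L' z).im / (2 * Real.pi)) y :=
    hS.constant_of_mapsTo hdisc him hmem hx hy
  simp only at hpc
  rw [hn1, hm1] at hpc
  have : n = m := by exact_mod_cast hpc
  rw [hn2, hm2, this]

end Pool.Agent.JH
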