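import Pool.Agent.Lib.MP_8ebc20_an.LoopQ
import Pool.Agent.Lib.MP_8ebc20_an.WE0
import Pool.Agent.Lib.MP_8ebc20_an.Wnd0

/-!
# TAU0: plane homeomorphisms preserving `J` in the coordinates of the basin of infinity
-/

set_option autoImplicit false

namespace Pool.Agent.JH

open Polynomial Set Metric Filter Topology

variable {f : ℂ[X]} {J : Set ℂ} {γ : ℝ → ℂ} {ψ ψi : ℂ → ℂ} {Φ : ℂ ≃ₜ ℂ}

private theorem tau0_out_aux (h : Hyp f J) (Φ : ℂ ≃ₜ ℂ) (hΦ : ∀ z, Φ z ∈ J ↔ z ∈ J) {z : ℂ}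
    (hz : z ∈ (KSet f)ᶜ) : Φ z ∈ (KSet f)ᶜ := by
  have hS : IsPreconnected (Φ '' (KSet f)ᶜ) :=
    (preconn_compl_K h.deg).image Φ Φ.continuous.continuousOn
  have hd : Disjoint (Φ '' (KSet f)ᶜ) J := by
    rw [Set.disjoint_left]
    rintro _ ⟨w, hw, rfl⟩ hJ
    exact hw (h.J_sub_K ((hΦ w).1 hJ))
  have hne : (Φ '' (KSet f)ᶜ ∩ (KSet f)ᶜ).Nonempty := by
    by_contra hcon
    have hsub : Φ '' (KSet f)ᶜ ⊆ KSet f := by
      intro w hw
      by_contra hwK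
      exact hcon ⟨w, hw, hwK⟩
    apply unbounded_compl_K h.deg
    have h1 : (KSet f)ᶜ ⊆ Φ.symm '' KSet f := by
      intro w hw
      exact ⟨Φ w, hsub ⟨w, hw, rfl⟩, by simp⟩
    exact ((isCompact_K h.deg).image Φ.symm.continuous).isBounded.subset h1
  exact h.sub_compl_K hS hd hne ⟨z, hz, rfl⟩

theorem Hyp.out (h : Hyp f J) (hΦ : ∀ z, Φ z ∈ J ↔ z ∈ J) (z : ℂ) :
    Φ z ∈ (KSet f)ᶜ ↔ z ∈ (KSet f)ᶜ := by
  constructor
  · intro hz
    have h1 : ∀ w, Φ.symm w ∈ J ↔ w ∈ J := by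
      intro w
      rw [← hΦ (Φ.symm w), Homeomorph.apply_symm_apply]
    have h2 := tau0_out_aux h Φ.symm h1 hz
    rwa [Homeomorph.symm_apply_apply] at h2
  · exact fun hz => tau0_out_aux h Φ hΦ hz

/-- `Φ` in the coordinates `(s, t)`; `k` is its degree on equipotentials -/
structure IsTau (ψ : ℂ → ℂ) (Φ : ℂ ≃ₜ ℂ) (σ τ : ℝ × ℝ → ℝ) (k : ℤ) : Prop where
  cσ : ContinuousOn σ {x | 0 < x.1}
  cτ : ContinuousOn τ {x | 0 < x.1}
  pos : ∀ s t : ℝ, 0 < s → 0 < σ (s, t)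
  eq : ∀ s t : ℝ, 0 < s → EE ψ (σ (s, t)) (τ (s, t)) = Φ (EE ψ s t)
  deg : ∀ s t : ℝ, 0 < s → τ (s, t + 1) = τ (s, t) + k ∧ σ (s, t + 1) = σ (s, t)

theorem ExtMap.exists_tau (hE : ExtMap f ψ ψi) (hΦ : ∀ z, Φ z ∈ (KSet f)ᶜ ↔ z ∈ (KSet f)ᶜ) :
    ∃ (σ τ : ℝ × ℝ → ℝ) (k : ℤ), IsTau ψ Φ σ τ k := by
  set w : ℝ × ℝ → ℂ := fun x => ψi (Φ (EE ψ x.1 x.2)) with hw
  have hmem : ∀ x : ℝ × ℝ, 0 < x.1 → Φ (EE ψ x.1 x.2) ∈ (KSet f)ᶜ :=
    fun x hx => (hΦ _).2 (hE.EE_mem hx)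
  have hcont : ContinuousOn w {x | 0 < x.1} := by
    refine hE.dψi.continuousOn.comp (Φ.continuous.comp_continuousOn hE.EE_cont) ?_
    intro x hx
    exact hmem x hx
  have hnorm : ∀ x : ℝ × ℝ, 0 < x.1 → 1 < ‖w x‖ := fun x hx => (hE.right _ (hmem x hx)).1
  have h0 : 0 ∉ w '' {x | 0 < x.1} := by
    rintro ⟨x, hx, h⟩
    have h1 := hnorm x hx
    rw [h, norm_zero] at h1
    linarith
  have hconv : Convex ℝ {x : ℝ × ℝ | 0 < x.1} :=
    convex_halfSpace_gt (LinearMap.fst ℝ ℝ ℝ).isLinear 0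
  have hopen : IsOpen {x : ℝ × ℝ | 0 < x.1} := isOpen_lt continuous_const continuous_fst
  have hsc : IsSimplyConnected {x : ℝ × ℝ | 0 < x.1} := by
    have h1 : ContractibleSpace {x : ℝ × ℝ | 0 < x.1} :=
      hconv.contractibleSpace ⟨(1, 0), by simp⟩
    exact SimplyConnectedSpace.ofContractible _
  obtain ⟨L, hL, hLe⟩ := Complex.exists_continuousOn_eqOn_exp_comp hsc hopen hcont h0
  have hexp : ∀ x : ℝ × ℝ, 0 < x.1 → Complex.exp (L x) = w x := fun x hx => hLe hx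
  -- the shifted logarithm
  have hshift : ContinuousOn (fun x : ℝ × ℝ => L (x.1, x.2 + 1)) {x | 0 < x.1} := by
    refine hL.comp (Continuous.continuousOn (by fun_prop)) ?_
    intro x hx
    exact hx
  have hwper : ∀ x : ℝ × ℝ, w (x.1, x.2 + 1) = w x := by
    intro x
    simp only [hw, EE_per]
  have hexp' : ∀ x ∈ {x : ℝ × ℝ | 0 < x.1},
      Complex.exp ((fun x : ℝ × ℝ => L (x.1, x.2 + 1)) x) = Complex.exp (L x) := by
    intro x hx
    show Complex.exp (L (x.1, x.2 + 1)) = Complex.exp (L x)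
    rw [hexp x hx, hexp (x.1, x.2 + 1) hx, hwper]
  have h10 : ((1 : ℝ), (0 : ℝ)) ∈ {x : ℝ × ℝ | 0 < x.1} := by simp
  obtain ⟨k, hk⟩ := Complex.exp_eq_exp_iff_exists_int.1 (hexp' _ h10)
  have hconst : ∀ x : ℝ × ℝ, 0 < x.1 →
      L (x.1, x.2 + 1) = L x + k * (2 * Real.pi * Complex.I) := by
    intro x hx
    have h1 := log_unique hconv.isPreconnected hshift hL hexp' (x := x) (y := (1, 0)) hx h10
    simp only at h1 hk
    rw [sub_eq_iff_eq_add'.1 h1, hk]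
    ring
  have hpi : (2 * Real.pi : ℝ) ≠ 0 := by positivity
  refine ⟨fun x => (L x).re, fun x => (L x).im / (2 * Real.pi), k, ?_, ?_, ?_, ?_, ?_⟩
  · exact Complex.continuous_re.comp_continuousOn hL
  · exact (Complex.continuous_im.comp_continuousOn hL).div_const _
  · intro s t hs
    have h1 := hnorm (s, t) hs
    rw [← hexp (s, t) hs, Complex.norm_exp] at h1
    exact Real.one_lt_exp_iff.1 h1
  · intro s t hs
    have h1 : ((((L (s, t)).re : ℝ) : ℂ) + 2 * Real.pi * (((L (s, t)).im / (2 * Real.pi) : ℝ) : ℂ)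
        * Complex.I) = L (s, t) := by
      have h2 : (2 * Real.pi : ℂ) * (((L (s, t)).im / (2 * Real.pi) : ℝ) : ℂ) =
          (((L (s, t)).im : ℝ) : ℂ) := by
        have h3 : (2 * Real.pi) * ((L (s, t)).im / (2 * Real.pi)) = (L (s, t)).im := by
          field_simp
        have h4 := congrArg (fun r : ℝ => (r : ℂ)) h3
        push_cast at h4 ⊢
        exact h4
      rw [h2, Complex.re_add_im]
    unfold EE
    rw [h1, hexp (s, t) hs]
    exact (hE.right _ (hmem (s, t) hs)).2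
  · intro s t hs
    have h1 := hconst (s, t) hs
    simp only at h1
    constructor
    · show (L (s, t + 1)).im / (2 * Real.pi) = (L (s, t)).im / (2 * Real.pi) + k
      rw [h1]
      have h2 : ((k : ℂ) * (2 * Real.pi * Complex.I)).im = k * (2 * Real.pi) := by
        simp
      rw [Complex.add_im, h2]
      field_simp
    · show (L (s, t + 1)).re = (L (s, t)).re
      rw [h1]
      have h2 : ((k : ℂ) * (2 * Real.pi * Complex.I)).re = 0 := by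
        simp
      rw [Complex.add_re, h2, add_zero]

theorem IsTau.sigma_small {σ τ : ℝ × ℝ → ℝ} {k : ℤ} (ht : IsTau ψ Φ σ τ k) (hE : ExtMap f ψ ψi)
    (h : Hyp f J) (hΦ : ∀ z, Φ z ∈ J ↔ z ∈ J) {η : ℝ} (hη : 0 < η) :
    ∃ s₀ : ℝ, 0 < s₀ ∧ ∀ s t : ℝ, 0 < s → s < s₀ → σ (s, t) < η := by
  obtain ⟨ρ, hρ, hlev⟩ := hE.lev_small h.deg hη
  obtain ⟨B, hB⟩ := hE.EE_bdd h.deg one_pos
  have huc : UniformContinuousOn Φ (closedBall (0 : ℂ) (B + 1)) :=
    (isCompact_closedBall _ _).uniformContinuousOn_of_continuous Φ.continuous.continuousOn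
  obtain ⟨ε, hε, hεΦ⟩ := Metric.uniformContinuousOn_iff.1 huc ρ hρ
  obtain ⟨s₁, hs₁, hnear⟩ := hE.EE_near h (lt_min hε one_pos)
  refine ⟨min 1 s₁, lt_min one_pos hs₁, ?_⟩
  intro s t hs hs'
  obtain ⟨x, hx, hxd⟩ := hnear s t hs (hs'.trans_le (min_le_right _ _))
  have hb : ‖EE ψ s t‖ ≤ B := hB s t hs (hs'.trans_le (min_le_left _ _)).le
  have hxb : ‖x‖ ≤ B + 1 := by
    have h1 : x = EE ψ s t - (EE ψ s t - x) := by ring
    rw [h1]
    refine (norm_sub_le _ _).trans (add_le_add hb ?_)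
    exact (hxd.trans_le (min_le_right _ _)).le
  have h2 := hεΦ (EE ψ s t) (mem_closedBall_zero_iff.2 (hb.trans (by linarith))) x
    (mem_closedBall_zero_iff.2 hxb) (by rw [dist_eq_norm]; exact hxd.trans_le (min_le_left _ _))
  rw [dist_eq_norm, ← ht.eq s t hs] at h2
  exact hlev _ _ (ht.pos s t hs) ⟨Φ x, h.J_sub_K ((hΦ x).2 hx), h2⟩

end Pool.Agent.JH
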