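import Pool.Agent.Lib.MP_8ebc20_an.Tau0

/-!
# TAU1: the angle function is uniformly Cauchy at level `0`

PROOF of `tau_cauchy`.  By `nonconst` and periodicity there is `ρ > 0` such that the image under `γ` of
every interval of length `ε` has diameter at least `ρ`.  If `s, s', |t - t'|` are small then on the segment
between `(s, t)` and `(s', t')` the point `EE σ τ = Φ (EE ..)` is within `ρ / 5` of `Φ (γ t)` and within
`ρ / 10` of `γ τ`.  If `τ` changed by `ε` or more on the segment, it would take all values of an interval of length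
`ε`, whose image under `γ` would be in a ball of radius `3 ρ / 10`, a contradiction.
-/

set_option autoImplicit false

namespace Pool.Agent.JH

open Polynomial Set Metric Filter Topology

variable {f : ℂ[X]} {J : Set ℂ} {γ : ℝ → ℂ} {ψ ψi : ℂ → ℂ} {Φ : ℂ ≃ₜ ℂ}

private theorem tau1_width (hl : IsLoop f J ψ γ) (h : Hyp f J) {ε : ℝ} (hε : 0 < ε) :
    ∃ ρ : ℝ, 0 < ρ ∧ ∀ a : ℝ, ∃ x ∈ Icc a (a + ε), ∃ y ∈ Icc a (a + ε), ρ ≤ ‖γ x - γ y‖ := by
  obtain ⟨N, hN⟩ := exists_nat_gt (2 / ε)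
  have hN0 : (0 : ℝ) < N := lt_trans (by positivity) hN
  have hNpos : 0 < N := by exact_mod_cast hN0
  have h2N : 2 / (N : ℝ) < ε := by
    rw [div_lt_iff₀ hN0]; rw [div_lt_iff₀ hε] at hN; linarith
  have hx : ∀ j : ℕ, ∃ x ∈ Icc ((j : ℝ) / N) ((j + 1 : ℝ) / N), γ x ≠ γ ((j : ℝ) / N) := by
    intro j
    exact hl.nonconst h (by rw [div_lt_div_iff_of_pos_right hN0]; linarith)
  choose x hxI hxne using hx
  have hne : (Finset.range N).Nonempty := ⟨0, Finset.mem_range.2 hNpos⟩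
  set ρ : ℝ := (Finset.range N).inf' hne (fun j => ‖γ (x j) - γ ((j : ℝ) / N)‖) with hρ
  have hρ0 : 0 < ρ := by
    rw [hρ, Finset.lt_inf'_iff]
    intro j _
    exact norm_pos_iff.2 (sub_ne_zero.2 (hxne j))
  refine ⟨ρ, hρ0, fun a => ?_⟩
  set m : ℤ := ⌈a * N⌉ with hm
  have hm1 : a * N ≤ m := Int.le_ceil _
  have hm2 : (m : ℝ) < a * N + 1 := Int.ceil_lt_add_one _
  set q : ℤ := m / (N : ℤ) with hq
  set r : ℤ := m % (N : ℤ) with hr
  have hNz : (0 : ℤ) < N := by exact_mod_cast hNpos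
  have hr0 : 0 ≤ r := Int.emod_nonneg _ (ne_of_gt hNz)
  have hrN : r < N := Int.emod_lt_of_pos _ hNz
  have hmqr : m = (N : ℤ) * q + r := by
    rw [hq, hr]; exact (Int.mul_ediv_add_emod m N).symm
  obtain ⟨r', hr'⟩ := Int.eq_ofNat_of_zero_le hr0
  have hr'N : r' < N := by rw [hr'] at hrN; exact_mod_cast hrN
  have hmR : (m : ℝ) = N * q + r' := by
    rw [hmqr, hr']; push_cast; ring
  have hmdiv : (m : ℝ) / N = (r' : ℝ) / N + q := by
    rw [hmR]; field_simp; ring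
  have hIx := hxI r'
  refine ⟨x r' + q, ⟨?_, ?_⟩, (r' : ℝ) / N + q, ⟨?_, ?_⟩, ?_⟩
  · have h1 : a ≤ (m : ℝ) / N := by rw [le_div_iff₀ hN0]; exact hm1
    rw [hmdiv] at h1
    linarith [hIx.1]
  · have h1 : (m : ℝ) / N < a + 1 / N := by
      rw [div_lt_iff₀ hN0, add_mul, one_div, inv_mul_cancel₀ (ne_of_gt hN0)]; exact hm2
    rw [hmdiv] at h1
    have h3 := hIx.2
    rw [add_div] at h3
    have h4 : 2 / (N : ℝ) = 1 / N + 1 / N := by ring
    linarith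
  · have h1 : a ≤ (m : ℝ) / N := by rw [le_div_iff₀ hN0]; exact hm1
    rw [hmdiv] at h1
    exact h1
  · have h1 : (m : ℝ) / N < a + 1 / N := by
      rw [div_lt_iff₀ hN0, add_mul, one_div, inv_mul_cancel₀ (ne_of_gt hN0)]; exact hm2
    rw [hmdiv] at h1
    have h4 : 2 / (N : ℝ) = 1 / N + 1 / N := by ring
    have h5 : 0 < 1 / (N : ℝ) := by positivity
    linarith
  · rw [hl.g_int, hl.g_int]
    exact Finset.inf'_le _ (Finset.mem_range.2 hr'N)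

theorem IsTau.tau_cauchy {σ τ : ℝ × ℝ → ℝ} {k : ℤ} (ht : IsTau ψ Φ σ τ k) (hE : ExtMap f ψ ψi)
    (h : Hyp f J) (hl : IsLoop f J ψ γ) (hΦ : ∀ z, Φ z ∈ J ↔ z ∈ J) {ε : ℝ} (hε : 0 < ε) :
    ∃ η : ℝ, 0 < η ∧ ∀ s s' t t' : ℝ, 0 < s → s < η → 0 < s' → s' < η → |t - t'| < η →
      |τ (s, t) - τ (s', t')| < ε := by
  obtain ⟨ρ, hρ0, hρ⟩ := tau1_width hl h hε
  -- uniform continuity of `Φ` on a large ball
  obtain ⟨B, hB⟩ := hE.EE_bdd h.deg (S := 1) one_pos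
  obtain ⟨B', hB'⟩ := h.isCompact_J.isBounded.exists_norm_le
  set R := max B B' with hR
  have hRB : ∀ s t : ℝ, 0 < s → s ≤ 1 → EE ψ s t ∈ closedBall (0 : ℂ) R := fun s t h1 h2 => by
    rw [mem_closedBall_zero_iff]; exact (hB s t h1 h2).trans (le_max_left _ _)
  have hRγ : ∀ t : ℝ, γ t ∈ closedBall (0 : ℂ) R := fun t => by
    rw [mem_closedBall_zero_iff]; exact (hB' _ (hl.g_mem t)).trans (le_max_right _ _)
  have huc := (isCompact_closedBall (0 : ℂ) R).uniformContinuousOn_of_continuous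
    Φ.continuous.continuousOn
  rw [Metric.uniformContinuousOn_iff] at huc
  obtain ⟨κ, hκ0, hκ⟩ := huc (ρ / 10) (by positivity)
  obtain ⟨s₁, hs₁0, hs₁⟩ := hl.lim (min κ (ρ / 10)) (lt_min hκ0 (by positivity))
  obtain ⟨η₁, hη₁0, hη₁⟩ := hl.g_unif hκ0
  obtain ⟨s₂, hs₂0, hs₂⟩ := ht.sigma_small hE h hΦ hs₁0
  refine ⟨min (min s₁ s₂) (min η₁ 1), by positivity, ?_⟩
  intro s s' t t' hs0 hs hs'0 hs' htt
  by_contra hcon
  rw [not_lt] at hcon
  -- the segment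
  have hseg : IsPreconnected (segment ℝ ((s, t) : ℝ × ℝ) (s', t')) :=
    (convex_segment _ _).isPreconnected
  have hsub : ∀ p ∈ segment ℝ ((s, t) : ℝ × ℝ) (s', t'), 0 < p.1 ∧ p.1 < min (min s₁ s₂) (min η₁ 1) ∧
      |p.2 - t| < η₁ := by
    rintro p ⟨a, b, ha, hb, hab, rfl⟩
    have hb' : b = 1 - a := by linarith
    subst hb'
    simp only [Prod.smul_mk, smul_eq_mul, Prod.mk_add_mk]
    have ha1 : a ≤ 1 := by linarith
    refine ⟨?_, ?_, ?_⟩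
    · rcases eq_or_lt_of_le ha with h0 | h0
      · rw [← h0]; simpa using hs'0
      · have := mul_pos h0 hs0
        have := mul_nonneg hb hs'0.le
        linarith
    · rcases eq_or_lt_of_le ha with h0 | h0
      · rw [← h0]; simpa using hs'
      · have h1 := mul_lt_mul_of_pos_left hs h0
        have h2 := mul_le_mul_of_nonneg_left hs'.le hb
        nlinarith
    · have : a * t + (1 - a) * t' - t = (1 - a) * (t' - t) := by ring
      rw [this, abs_mul, abs_of_nonneg hb, abs_sub_comm]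
      have h1 : |t - t'| < η₁ := lt_of_lt_of_le htt ((min_le_right _ _).trans (min_le_left _ _))
      have h2 : (1 - a) * |t - t'| ≤ 1 * |t - t'| :=
        mul_le_mul_of_nonneg_right (by linarith) (abs_nonneg _)
      linarith
  have hclose : ∀ p ∈ segment ℝ ((s, t) : ℝ × ℝ) (s', t'), ‖γ (τ p) - Φ (γ t)‖ < 3 * ρ / 10 := by
    intro p hp
    obtain ⟨hp0, hp1, hp2⟩ := hsub p hp
    have hps₁ : p.1 < s₁ := lt_of_lt_of_le hp1 ((min_le_left _ _).trans (min_le_left _ _))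
    have hps₂ : p.1 < s₂ := lt_of_lt_of_le hp1 ((min_le_left _ _).trans (min_le_right _ _))
    have hp1' : p.1 ≤ 1 := (lt_of_lt_of_le hp1 ((min_le_right _ _).trans (min_le_right _ _))).le
    have hp12 : (p.1, p.2) = p := rfl
    have e1 := ht.eq p.1 p.2 hp0
    rw [hp12] at e1
    have e2 : ‖EE ψ p.1 p.2 - γ p.2‖ < κ := lt_of_lt_of_le (hs₁ p.1 p.2 hp0 hps₁) (min_le_left _ _)
    have e3 : dist (Φ (EE ψ p.1 p.2)) (Φ (γ p.2)) < ρ / 10 :=
      hκ _ (hRB p.1 p.2 hp0 hp1') _ (hRγ _) (by rw [dist_eq_norm]; exact e2)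
    have e4 : dist (Φ (γ p.2)) (Φ (γ t)) < ρ / 10 :=
      hκ _ (hRγ _) _ (hRγ _) (by rw [dist_eq_norm]; exact hη₁ _ _ hp2)
    have hσ0 : 0 < σ p := by have := ht.pos p.1 p.2 hp0; rwa [hp12] at this
    have hσ1 : σ p < s₁ := by have := hs₂ p.1 p.2 hp0 hps₂; rwa [hp12] at this
    have e5 : ‖EE ψ (σ p) (τ p) - γ (τ p)‖ < ρ / 10 :=
      lt_of_lt_of_le (hs₁ _ _ hσ0 hσ1) (min_le_right _ _)
    rw [e1] at e5
    rw [dist_eq_norm] at e3 e4
    have : γ (τ p) - Φ (γ t) = -(Φ (EE ψ p.1 p.2) - γ (τ p)) + (Φ (EE ψ p.1 p.2) - Φ (γ p.2)) +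
        (Φ (γ p.2) - Φ (γ t)) := by ring
    rw [this]
    calc _ ≤ ‖-(Φ (EE ψ p.1 p.2) - γ (τ p)) + (Φ (EE ψ p.1 p.2) - Φ (γ p.2))‖ +
          ‖Φ (γ p.2) - Φ (γ t)‖ := norm_add_le _ _
      _ ≤ ‖-(Φ (EE ψ p.1 p.2) - γ (τ p))‖ + ‖Φ (EE ψ p.1 p.2) - Φ (γ p.2)‖ +
          ‖Φ (γ p.2) - Φ (γ t)‖ := by gcongr; exact norm_add_le _ _
      _ < ρ / 10 + ρ / 10 + ρ / 10 := by rw [norm_neg]; gcongr
      _ = 3 * ρ / 10 := by ring
  have hcont : ContinuousOn τ (segment ℝ ((s, t) : ℝ × ℝ) (s', t')) :=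
    ht.cτ.mono fun p hp => (hsub p hp).1
  have himg : (τ '' segment ℝ ((s, t) : ℝ × ℝ) (s', t')).OrdConnected :=
    (hseg.image _ hcont).ordConnected
  have hm1 : τ (s, t) ∈ τ '' segment ℝ ((s, t) : ℝ × ℝ) (s', t') :=
    mem_image_of_mem _ (left_mem_segment ℝ _ _)
  have hm2 : τ (s', t') ∈ τ '' segment ℝ ((s, t) : ℝ × ℝ) (s', t') :=
    mem_image_of_mem _ (right_mem_segment ℝ _ _)
  have key : ∃ a : ℝ, Icc a (a + ε) ⊆ τ '' segment ℝ ((s, t) : ℝ × ℝ) (s', t') := by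
    rcases le_total (τ (s, t)) (τ (s', t')) with hle | hle
    · refine ⟨τ (s, t), fun v hv => himg.out hm1 hm2 ⟨hv.1, hv.2.trans ?_⟩⟩
      rw [abs_sub_comm, abs_of_nonneg (sub_nonneg.2 hle)] at hcon
      linarith
    · refine ⟨τ (s', t'), fun v hv => himg.out hm2 hm1 ⟨hv.1, hv.2.trans ?_⟩⟩
      rw [abs_of_nonneg (sub_nonneg.2 hle)] at hcon
      linarith
  obtain ⟨a, ha⟩ := key
  obtain ⟨x, hx, y, hy, hxy⟩ := hρ a
  obtain ⟨p, hp, rfl⟩ := ha hx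
  obtain ⟨p', hp', rfl⟩ := ha hy
  have h1 := hclose p hp
  have h2 := hclose p' hp'
  have : ‖γ (τ p) - γ (τ p')‖ ≤ ‖γ (τ p) - Φ (γ t)‖ + ‖γ (τ p') - Φ (γ t)‖ := by
    have e : γ (τ p) - γ (τ p') = (γ (τ p) - Φ (γ t)) - (γ (τ p') - Φ (γ t)) := by ring
    rw [e]; exact norm_sub_le _ _
  linarith

end Pool.Agent.JH
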