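import Pool.Agent.Lib.MP_8ebc20_an.WE

/-!
# WE2: winding numbers of ray pairs

PROOFS. `a < c < a + 1`, `γ a = γ c = x`, `0 < s < S`.  Consider the closed path
`Λ`: `EB u a` for `u` from `0` to `S`, `EE S t` for `t` from `a` to `c`, `EB u c` for `u` from `S` to `0`.
It is the image under `EB` of three sides of the rectangle `[0, S] × [a, c]`; the fourth side is mapped
to the path `γ` on `[a, c]`, a closed path.  `ray_pair_out`: let `p = EE s t` with `c < t < a + 1`.  `EB` is continuous on the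
rectangle (`EB_cont`) and does not take the value `p` there (`EE_inj`; `γ` has values in `J ⊆ K`), so
by `Chg.square` the change along `Λ` equals the change along the closed path `γ` on `[a, c]`, which is `0`
by `Chg.far` (`Kᶜ` is connected, unbounded, and misses `J`).  `ray_pair_in`: let `a < t < c`.  The change along the
complementary path (rectangle `[0, S] × [c, a + 1]`, with `EB u (a + 1) = EB u a`) is `0` in the same way, and the sum of the
two is the change along the full circle `EE S ·`, which is `2 π I` (`loop_out`, translated by `a`: the change of a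
`1`-periodic path on `[a, a + 1]` and on `[0, 1]` agree; the changes on `[a, c]` and `[c, a + 1]` add up: `Chg.trans`, `Chg.unique`).
-/

set_option autoImplicit false

namespace Pool.Agent.JH

open Polynomial Set Metric Filter Topology

variable {f : ℂ[X]} {J : Set ℂ} {γ : ℝ → ℂ} {ψ ψi : ℂ → ℂ}

/-- the winding number of a periodic path over a period -/
private theorem we2_per {P : ℝ → ℂ} {p v : ℂ} (hP : ∀ u, P (u + 1) = P u)
    (hv : Chg P 0 1 p v) (a : ℝ) : Chg P a (a + 1) p v := by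
  have hPn : ∀ (u : ℝ) (n : ℤ), P (u + n) = P u := by
    intro u n
    have h1 : Function.Periodic P 1 := hP
    have h2 := h1.int_mul n u
    rwa [mul_one] at h2
  have hr0 : 0 ≤ Int.fract a := Int.fract_nonneg a
  have hr1 : Int.fract a ≤ 1 := (Int.fract_lt_one a).le
  obtain ⟨x₁, x₂, h1, h2, rfl⟩ := hv.split hr0 hr1
  have h3 : Chg P 1 (Int.fract a + 1) p x₁ := by
    have h4 := h1.comp (φ := fun u => u - 1) (a' := 1) (b' := Int.fract a + 1) (by fun_prop)
      (fun u hu => ⟨by linarith [hu.1], by linarith [hu.2]⟩) (by norm_num) (by ring)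
    refine h4.congr fun u _ => ?_
    have h5 := hP (u - 1)
    rw [sub_add_cancel] at h5
    exact h5.symm
  have h4 := h2.trans hr1 (by linarith) h3
  have h5 := h4.comp (φ := fun u => u - (⌊a⌋ : ℝ)) (a' := a) (b' := a + 1) (by fun_prop)
    (fun u hu => by
      have h6 := Int.self_sub_floor a
      refine ⟨?_, ?_⟩
      · linarith [hu.1]
      · linarith [hu.2]) (Int.self_sub_floor a) (by
      have h6 := Int.self_sub_floor a
      show a + 1 - (⌊a⌋ : ℝ) = Int.fract a + 1
      linarith)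
  rw [add_comm x₁ x₂]
  refine h5.congr fun u _ => ?_
  have h6 := hPn (u - (⌊a⌋ : ℝ)) ⌊a⌋
  rw [sub_add_cancel] at h6
  exact h6.symm

/-- the winding number of the boundary of a sector about a point outside the sector -/
private theorem we2_sector (hl : IsLoop f J ψ γ) (hE : ExtMap f ψ ψi) (h : Hyp f J)
    {a c S s t : ℝ} (hac : a ≤ c) (hγ : γ a = γ c) (hs : 0 < s) (hsS : s < S)
    (ht : ∀ y ∈ Icc a c, ∀ n : ℤ, t ≠ y + n) {v₁ v₂ v₃ : ℂ}
    (h₁ : Chg (fun u => EB ψ γ u a) 0 S (EE ψ s t) v₁)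
    (h₂ : Chg (fun u => EE ψ S u) a c (EE ψ s t) v₂)
    (h₃ : Chg (fun u => EB ψ γ u c) 0 S (EE ψ s t) v₃) : v₁ + v₂ - v₃ = 0 := by
  have hS : 0 < S := hs.trans hsS
  have hp : EE ψ s t ∈ (KSet f)ᶜ := hE.EE_mem hs
  have hγK : ∀ u, γ u ∈ KSet f := fun u => h.J_sub_K (hl.g_mem u)
  have h0 : Chg γ a c (EE ψ s t) 0 := Chg.far hac hl.cont.continuousOn hγ
    (preconn_compl_K h.deg) (fun u _ hu => hu (hγK u)) hp (unbounded_compl_K h.deg)
  have h0' : Chg (fun y => EB ψ γ 0 y) a c (EE ψ s t) 0 :=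
    h0.congr fun y _ => (if_neg (lt_irrefl (0 : ℝ))).symm
  have h2' : Chg (fun y => EB ψ γ S y) a c (EE ψ s t) v₂ :=
    h₂.congr fun y _ => (if_pos hS).symm
  have hsq := Chg.square (F := fun x : ℝ × ℝ => EB ψ γ x.1 x.2) hS.le hac
    ((hl.EB_cont hE).mono fun x hx => hx.1.1) (fun x hx => by
      rcases eq_or_lt_of_le hx.1.1 with h3 | h3
      · rw [← h3]
        have h4 : EB ψ γ 0 x.2 = γ x.2 := if_neg (lt_irrefl (0 : ℝ))
        rw [h4]
        intro h5
        exact hp (h5 ▸ hγK x.2)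
      · have h4 : EB ψ γ x.1 x.2 = EE ψ x.1 x.2 := if_pos h3
        rw [h4]
        intro h5
        obtain ⟨-, n, hn⟩ := hE.EE_inj h3 hs h5
        exact ht x.2 hx.2 n hn) h₁ h₃ h0' h2'
  rw [hsq]
  ring

/-- the point `EE s t` has an angle outside `[a, c]`: the winding of the boundary of the sector -/
theorem IsLoop.ray_pair_out (hl : IsLoop f J ψ γ) (hE : ExtMap f ψ ψi) (h : Hyp f J) {a c S s t : ℝ}
    (hac : a < c) (hca : c < a + 1) (hγ : γ a = γ c) (hs : 0 < s) (hsS : s < S) (ht : c < t)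
    (ht' : t < a + 1) {v₁ v₂ v₃ : ℂ}
    (h₁ : Chg (fun u => EB ψ γ u a) 0 S (EE ψ s t) v₁)
    (h₂ : Chg (fun u => EE ψ S u) a c (EE ψ s t) v₂)
    (h₃ : Chg (fun u => EB ψ γ u c) 0 S (EE ψ s t) v₃) : v₁ + v₂ - v₃ = 0 := by
  refine we2_sector hl hE h hac.le hγ hs hsS (fun y hy n hn => ?_) h₁ h₂ h₃
  have h4 : (0 : ℝ) < n := by linarith [hy.2]
  have h5 : (n : ℝ) < 1 := by linarith [hy.1]
  have h6 : (0 : ℤ) < n := by exact_mod_cast h4
  have h7 : n < (1 : ℤ) := by exact_mod_cast h5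
  omega

/-- the point `EE s t` has an angle inside `(a, c)` -/
theorem IsLoop.ray_pair_in (hl : IsLoop f J ψ γ) (hE : ExtMap f ψ ψi) (h : Hyp f J) {a c S s t : ℝ}
    (hac : a < c) (hca : c < a + 1) (hγ : γ a = γ c) (hs : 0 < s) (hsS : s < S) (ht : a < t)
    (ht' : t < c) {v₁ v₂ v₃ : ℂ}
    (h₁ : Chg (fun u => EB ψ γ u a) 0 S (EE ψ s t) v₁)
    (h₂ : Chg (fun u => EE ψ S u) a c (EE ψ s t) v₂)
    (h₃ : Chg (fun u => EB ψ γ u c) 0 S (EE ψ s t) v₃) :
    v₁ + v₂ - v₃ = 2 * Real.pi * Complex.I := by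
  have hP : ∀ u, EE ψ S (u + 1) = EE ψ S u := fun u => EE_per ψ S u
  have hfull := we2_per (P := fun u => EE ψ S u) hP (hl.loop_out hE h (t := t) hs hsS) a
  obtain ⟨x₁, x₂, hx1, hx2, hx⟩ := hfull.split hac.le hca.le
  have e1 : v₂ = x₁ := Chg.unique hac.le h₂ hx1
  have hEB : ∀ u, EB ψ γ u (a + 1) = EB ψ γ u a := by
    intro u
    unfold EB
    rw [EE_per, hl.per]
  have h₁' : Chg (fun u => EB ψ γ u (a + 1)) 0 S (EE ψ s t) v₁ := h₁.congr fun u _ => (hEB u).symm
  have h4 := we2_sector hl hE h hca.le (by rw [hl.per, hγ]) hs hsS (fun y hy n hn => by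
    have h4 : (n : ℝ) < 0 := by linarith [hy.1]
    have h5 : (-1 : ℝ) < n := by linarith [hy.2]
    have h6 : n < (0 : ℤ) := by exact_mod_cast h4
    have h7 : (-1 : ℤ) < n := by exact_mod_cast h5
    omega) h₃ hx2 h₁'
  rw [e1, hx]
  linear_combination -h4

end Pool.Agent.JH
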