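import Pool.Agent.Lib.MP_8ebc20_an.Wnd0

/-!
# WND1: change of the logarithm along paths

`Chg c a b p v`: there is a continuous logarithm `L` of `c - p` on `[a, b]` with `L b - L a = v`.

PROOFS. `Chg.exists`: `exists_log_Icc`.  `unique`: `log_unique` on `Icc a b`.
`closed`: `exp v = 1`, `Complex.exp_eq_one_iff`.  `trans`: the second logarithm is shifted by a constant to agree with the
first at `b` (same exponential at `b`); glue (`ContinuousOn.if`, or `ContinuousOn.union_isClosed`-type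
lemmas on `Icc a b ∪ Icc b e`).  `split`: restrict the logarithm to the two pieces.  `comp`, `comp_rev`: compose the
logarithm with `φ`.  `ne`: `exp` has no zero.
`near`: with `q t = (c t - p) / (c t - p')`, `‖q t - 1‖ ≤ 1/10`, `Complex.log (q t)` is continuous, of norm
`≤ 3/20` (`Complex.norm_log_one_add_half_le_self`), and `L' + log q` is a logarithm of `c - p` if `L'` is one of `c - p'`;
`Chg.unique`.
-/

set_option autoImplicit false

namespace Pool.Agent.JH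

open Set Metric Filter Topology

variable {c c' : ℝ → ℂ} {a b e : ℝ} {p q v w : ℂ}

theorem Chg.exists (hab : a ≤ b) (hc : ContinuousOn c (Icc a b)) (hp : ∀ t ∈ Icc a b, c t ≠ p) :
    ∃ v, Chg c a b p v := by
  obtain ⟨L, hL, hL'⟩ := exists_log_Icc (F := fun t => c t - p) hab (hc.sub continuousOn_const)
    fun t ht => sub_ne_zero.2 (hp t ht)
  exact ⟨_, L, hL, hL', rfl⟩

theorem Chg.ne (h : Chg c a b p v) : ∀ t ∈ Icc a b, c t ≠ p := by
  obtain ⟨L, -, h2, -⟩ := h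
  intro t ht hcp
  have h3 := h2 t ht
  rw [hcp, sub_self] at h3
  exact Complex.exp_ne_zero _ h3

theorem Chg.unique (hab : a ≤ b) (h : Chg c a b p v) (h' : Chg c a b p w) : v = w := by
  obtain ⟨L, h1, h2, rfl⟩ := h
  obtain ⟨L', h1', h2', rfl⟩ := h'
  have h3 := log_unique isPreconnected_Icc h1 h1' (fun x hx => by rw [h2 x hx, h2' x hx])
    (right_mem_Icc.2 hab) (left_mem_Icc.2 hab)
  linear_combination h3

theorem Chg.exp_eq (hab : a ≤ b) (h : Chg c a b p v) :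
    Complex.exp v * (c a - p) = c b - p := by
  obtain ⟨L, h1, h2, rfl⟩ := h
  rw [← h2 a (left_mem_Icc.2 hab), ← h2 b (right_mem_Icc.2 hab), ← Complex.exp_add,
    sub_add_cancel]

theorem Chg.closed (hab : a ≤ b) (h : Chg c a b p v) (hc : c a = c b) :
    ∃ n : ℤ, v = 2 * Real.pi * Complex.I * n := by
  have h1 := h.exp_eq hab
  have h2 : c b - p ≠ 0 := sub_ne_zero.2 (h.ne b (right_mem_Icc.2 hab))
  rw [hc] at h1
  have h3 : Complex.exp v = 1 := mul_right_cancel₀ h2 (by rw [h1, one_mul])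
  obtain ⟨n, hn⟩ := Complex.exp_eq_one_iff.1 h3
  exact ⟨n, by rw [hn]; ring⟩

theorem Chg.trans (hab : a ≤ b) (hbe : b ≤ e) (h : Chg c a b p v) (h' : Chg c b e p w) :
    Chg c a e p (v + w) := by
  classical
  obtain ⟨L, h1, h2, rfl⟩ := h
  obtain ⟨L', h1', h2', rfl⟩ := h'
  have hb : Complex.exp (L b) = Complex.exp (L' b) := by
    rw [h2 b (right_mem_Icc.2 hab), h2' b (left_mem_Icc.2 hbe)]
  set G : ℝ → ℂ := fun t => if t ≤ b then L t else L' t + (L b - L' b) with hG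
  have g1 : ∀ t ∈ Icc a b, G t = L t := fun t ht => if_pos ht.2
  have g2 : ∀ t ∈ Icc b e, G t = L' t + (L b - L' b) := by
    intro t ht
    rcases eq_or_lt_of_le ht.1 with h3 | h3
    · subst h3
      rw [g1 _ (right_mem_Icc.2 hab)]
      ring
    · exact if_neg (not_le.2 h3)
  have c1 : ContinuousOn G (Icc a b) := h1.congr g1
  have c2 : ContinuousOn G (Icc b e) := (h1'.add continuousOn_const).congr g2
  refine ⟨G, ?_, ?_, ?_⟩
  · rw [← Icc_union_Icc_eq_Icc hab hbe]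
    exact c1.union_of_isClosed c2 isClosed_Icc isClosed_Icc
  · intro t ht
    rcases le_total t b with h3 | h3
    · rw [g1 t ⟨ht.1, h3⟩]
      exact h2 t ⟨ht.1, h3⟩
    · rw [g2 t ⟨h3, ht.2⟩, Complex.exp_add, Complex.exp_sub, hb,
        div_self (Complex.exp_ne_zero _), mul_one]
      exact h2' t ⟨h3, ht.2⟩
  · rw [g2 e (right_mem_Icc.2 hbe), g1 a (left_mem_Icc.2 hab)]
    ring

theorem Chg.split (hab : a ≤ b) (hbe : b ≤ e) (h : Chg c a e p v) :
    ∃ v₁ v₂, Chg c a b p v₁ ∧ Chg c b e p v₂ ∧ v = v₁ + v₂ := by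
  obtain ⟨L, h1, h2, rfl⟩ := h
  refine ⟨L b - L a, L e - L b, ⟨L, h1.mono (Icc_subset_Icc_right hbe),
    fun t ht => h2 t (Icc_subset_Icc_right hbe ht), rfl⟩, ⟨L, h1.mono (Icc_subset_Icc_left hab),
    fun t ht => h2 t (Icc_subset_Icc_left hab ht), rfl⟩, by ring⟩

theorem Chg.congr (h : Chg c a b p v) (hc : EqOn c c' (Icc a b)) : Chg c' a b p v := by
  obtain ⟨L, h1, h2, rfl⟩ := h
  exact ⟨L, h1, fun t ht => by rw [h2 t ht, hc ht], rfl⟩

/-- reparametrisation -/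
theorem Chg.comp {φ : ℝ → ℝ} {a' b' : ℝ} (h : Chg c a b p v) (hφ : ContinuousOn φ (Icc a' b'))
    (hm : MapsTo φ (Icc a' b') (Icc a b)) (ha : φ a' = a) (hb : φ b' = b) :
    Chg (fun t => c (φ t)) a' b' p v := by
  obtain ⟨L, h1, h2, rfl⟩ := h
  exact ⟨fun t => L (φ t), h1.comp hφ hm, fun t ht => h2 _ (hm ht), by simp only [ha, hb]⟩

/-- reversal -/
theorem Chg.comp_rev {φ : ℝ → ℝ} {a' b' : ℝ} (h : Chg c a b p v)
    (hφ : ContinuousOn φ (Icc a' b')) (hm : MapsTo φ (Icc a' b') (Icc a b)) (ha : φ a' = b)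
    (hb : φ b' = a) : Chg (fun t => c (φ t)) a' b' p (-v) := by
  obtain ⟨L, h1, h2, rfl⟩ := h
  exact ⟨fun t => L (φ t), h1.comp hφ hm, fun t ht => h2 _ (hm ht), by simp only [ha, hb]; ring⟩

/-- product: logarithms add -/
theorem Chg.mul {c₁ c₂ c₃ : ℝ → ℂ} {v₁ v₂ : ℂ} (h₁ : Chg c₁ a b 0 v₁) (h₂ : Chg c₂ a b 0 v₂)
    (h : ∀ t ∈ Icc a b, c₃ t = c₁ t * c₂ t) : Chg c₃ a b 0 (v₁ + v₂) := by
  obtain ⟨L, h1, h2, rfl⟩ := h₁
  obtain ⟨L', h1', h2', rfl⟩ := h₂
  refine ⟨fun t => L t + L' t, h1.add h1', fun t ht => ?_, by ring⟩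
  rw [Complex.exp_add, h2 t ht, h2' t ht, h t ht, sub_zero, sub_zero, sub_zero]

theorem Chg.shift : Chg c a b p v ↔ Chg (fun t => c t - p) a b 0 v := by
  unfold Chg
  simp only [sub_zero]

/-- moving the point a little: the change moves a little -/
theorem Chg.near {c₁ c₂ : ℝ → ℂ} {p₁ p₂ v₁ v₂ : ℂ} (hab : a ≤ b) (hc₁ : ContinuousOn c₁ (Icc a b))
    (hc₂ : ContinuousOn c₂ (Icc a b)) (h₁ : Chg c₁ a b p₁ v₁) (h₂ : Chg c₂ a b p₂ v₂)
    {u : ℂ} (hu : u ≠ 0)
    (h : ∀ t ∈ Icc a b, ‖(c₁ t - p₁) / (u * (c₂ t - p₂)) - 1‖ ≤ 1 / 10) : ‖v₁ - v₂‖ ≤ 3 / 10 := by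
  have hne := h₂.ne
  have hne1 := h₁.ne
  obtain ⟨L, h1, h2, h3⟩ := h₂
  set q : ℝ → ℂ := fun t => (c₁ t - p₁) / (u * (c₂ t - p₂)) with hq
  have hq' : ∀ t ∈ Icc a b, ‖q t - 1‖ ≤ 1 / 10 := h
  have hqc : ContinuousOn q (Icc a b) := by
    refine (hc₁.sub continuousOn_const).div (continuousOn_const.mul (hc₂.sub continuousOn_const))
      fun t ht => mul_ne_zero hu (sub_ne_zero.2 (hne t ht))
  have hqs : ∀ t ∈ Icc a b, q t ∈ Complex.slitPlane := by
    intro t ht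
    refine Complex.mem_slitPlane_iff.2 (Or.inl ?_)
    have h4 := (Complex.abs_re_le_norm (q t - 1)).trans (hq' t ht)
    rw [Complex.sub_re, Complex.one_re, abs_le] at h4
    linarith [h4.1]
  have hlc : ContinuousOn (fun t => Complex.log (q t)) (Icc a b) := fun t ht =>
    (hqc t ht).clog (hqs t ht)
  have hlb : ∀ t ∈ Icc a b, ‖Complex.log (q t)‖ ≤ 3 / 20 := by
    intro t ht
    have h4 := Complex.norm_log_one_add_half_le_self (z := q t - 1)
      ((hq' t ht).trans (by norm_num))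
    rw [add_sub_cancel] at h4
    calc ‖Complex.log (q t)‖ ≤ 3 / 2 * ‖q t - 1‖ := h4
      _ ≤ 3 / 2 * (1 / 10) := by gcongr; exact hq' t ht
      _ = 3 / 20 := by norm_num
  have h4 : Chg c₁ a b p₁ (v₂ + (Complex.log (q b) - Complex.log (q a))) := by
    refine ⟨fun t => L t + Complex.log (q t) + Complex.log u,
      (h1.add hlc).add continuousOn_const, fun t ht => ?_, ?_⟩
    · have h5 : q t ≠ 0 := Complex.slitPlane_ne_zero (hqs t ht)
      have h6 : c₂ t - p₂ ≠ 0 := sub_ne_zero.2 (hne t ht)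
      rw [Complex.exp_add, Complex.exp_add, h2 t ht, Complex.exp_log h5, Complex.exp_log hu, hq]
      field_simp
    · rw [← h3]
      ring
  have h5 := Chg.unique hab h₁ h4
  rw [h5, add_sub_cancel_left]
  calc ‖Complex.log (q b) - Complex.log (q a)‖ ≤ ‖Complex.log (q b)‖ + ‖Complex.log (q a)‖ :=
        norm_sub_le _ _
    _ ≤ 3 / 20 + 3 / 20 := add_le_add (hlb b (right_mem_Icc.2 hab)) (hlb a (left_mem_Icc.2 hab))
    _ = 3 / 10 := by norm_num

end Pool.Agent.JH
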