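import Pool.Agent.Lib.MP_8ebc20_an.Wnd1

/-!
# WND2: rectangles, homotopies, discs
-/

set_option autoImplicit false

namespace Pool.Agent.JH

open Set Metric Filter Topology

variable {c : ℝ → ℂ} {a b : ℝ} {p v : ℂ}

private theorem wnd2_row {F L : ℝ × ℝ → ℂ} {s t y : ℝ} (hy : y ∈ Icc s t)
    (hL : ContinuousOn L (Icc a b ×ˢ Icc s t))
    (he : ∀ x ∈ Icc a b ×ˢ Icc s t, Complex.exp (L x) = F x - p) :
    Chg (fun x => F (x, y)) a b p (L (b, y) - L (a, y)) := by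
  refine ⟨fun x => L (x, y), ?_, fun x hx => he (x, y) ⟨hx, hy⟩, rfl⟩
  refine hL.comp (Continuous.continuousOn (by fun_prop)) fun x hx => ⟨hx, hy⟩

private theorem wnd2_col {F L : ℝ × ℝ → ℂ} {s t x : ℝ} (hx : x ∈ Icc a b)
    (hL : ContinuousOn L (Icc a b ×ˢ Icc s t))
    (he : ∀ x ∈ Icc a b ×ˢ Icc s t, Complex.exp (L x) = F x - p) :
    Chg (fun y => F (x, y)) s t p (L (x, t) - L (x, s)) := by
  refine ⟨fun y => L (x, y), ?_, fun y hy => he (x, y) ⟨hx, hy⟩, rfl⟩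
  refine hL.comp (Continuous.continuousOn (by fun_prop)) fun y hy => ⟨hx, hy⟩

/-- the boundary of a rectangle -/
theorem Chg.square {F : ℝ × ℝ → ℂ} {s t : ℝ} (hab : a ≤ b) (hst : s ≤ t)
    (hF : ContinuousOn F (Icc a b ×ˢ Icc s t)) (hp : ∀ x ∈ Icc a b ×ˢ Icc s t, F x ≠ p)
    {v₁ v₂ v₃ v₄ : ℂ} (h₁ : Chg (fun x => F (x, s)) a b p v₁) (h₂ : Chg (fun x => F (x, t)) a b p v₂)
    (h₃ : Chg (fun y => F (a, y)) s t p v₃) (h₄ : Chg (fun y => F (b, y)) s t p v₄) :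
    v₁ + v₄ = v₃ + v₂ := by
  obtain ⟨L, hL, he⟩ := exists_log_rect (F := fun x => F x - p) hab hst
    (hF.sub continuousOn_const) fun x hx => sub_ne_zero.2 (hp x hx)
  have e₁ := Chg.unique hab h₁ (wnd2_row (F := F) (left_mem_Icc.2 hst) hL he)
  have e₂ := Chg.unique hab h₂ (wnd2_row (F := F) (right_mem_Icc.2 hst) hL he)
  have e₃ := Chg.unique hst h₃ (wnd2_col (F := F) (left_mem_Icc.2 hab) hL he)
  have e₄ := Chg.unique hst h₄ (wnd2_col (F := F) (right_mem_Icc.2 hab) hL he)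
  rw [e₁, e₂, e₃, e₄]
  ring

/-- homotopy of closed paths avoiding `p` -/
theorem Chg.homotopy {F : ℝ × ℝ → ℂ} {s t : ℝ} (hab : a ≤ b) (hst : s ≤ t)
    (hF : ContinuousOn F (Icc a b ×ˢ Icc s t)) (hp : ∀ x ∈ Icc a b ×ˢ Icc s t, F x ≠ p)
    (hcl : ∀ y ∈ Icc s t, F (a, y) = F (b, y)) (h : Chg (fun x => F (x, s)) a b p v) :
    Chg (fun x => F (x, t)) a b p v := by
  obtain ⟨L, hL, he⟩ := exists_log_rect (F := fun x => F x - p) hab hst
    (hF.sub continuousOn_const) fun x hx => sub_ne_zero.2 (hp x hx)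
  have e₁ := Chg.unique hab h (wnd2_row (F := F) (left_mem_Icc.2 hst) hL he)
  have h2 := wnd2_row (F := F) (right_mem_Icc.2 hst) hL he
  have h3 : L (b, s) - L (a, s) = L (b, t) - L (a, t) := by
    refine log_unique (isPreconnected_Icc (a := s) (b := t)) (L := fun y => L (b, y))
      (L' := fun y => L (a, y)) ?_ ?_ ?_ (left_mem_Icc.2 hst) (right_mem_Icc.2 hst)
    · exact hL.comp (Continuous.continuousOn (by fun_prop)) fun y hy => ⟨right_mem_Icc.2 hab, hy⟩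
    · exact hL.comp (Continuous.continuousOn (by fun_prop)) fun y hy => ⟨left_mem_Icc.2 hab, hy⟩
    · intro y hy
      rw [he (b, y) ⟨right_mem_Icc.2 hab, hy⟩, he (a, y) ⟨left_mem_Icc.2 hab, hy⟩, hcl y hy]
  rw [e₁, h3]
  exact h2

private theorem wnd2_curve {χ : ℂ → ℂ} (hχ : ContinuousOn χ (closedBall 0 1))
    (hp : ∀ w ∈ closedBall (0 : ℂ) 1, χ w ≠ p) {k : ℝ → ℂ} (hk : ContinuousOn k (Icc a b))
    (hk1 : ∀ t ∈ Icc a b, k t ∈ closedBall (0 : ℂ) 1) (hab : k a = k b) :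
    Chg (fun t => χ (k t)) a b p 0 := by
  obtain ⟨L, hL, he⟩ := exists_log_disc (F := fun x => χ x - p) one_pos
    (hχ.sub continuousOn_const) fun x hx => sub_ne_zero.2 (hp x hx)
  refine ⟨fun t => L (k t), hL.comp hk hk1, fun t ht => he _ (hk1 t ht), ?_⟩
  show L (k b) - L (k a) = 0
  rw [hab, sub_self]

theorem Chg.disc {χ : ℂ → ℂ} (hχ : ContinuousOn χ (closedBall 0 1))
    (hp : ∀ w ∈ closedBall (0 : ℂ) 1, χ w ≠ p) :
    Chg (fun t => χ (Complex.exp (2 * Real.pi * t * Complex.I))) 0 1 p 0 := by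
  refine wnd2_curve (k := fun t : ℝ => Complex.exp (2 * Real.pi * t * Complex.I)) hχ hp
    (Continuous.continuousOn (by fun_prop)) (fun t _ => ?_) ?_
  · rw [mem_closedBall_zero_iff]
    have h : (2 * Real.pi * t * Complex.I : ℂ) = ((2 * Real.pi * t : ℝ) : ℂ) * Complex.I := by
      push_cast
      ring
    rw [h, Complex.norm_exp_ofReal_mul_I]
  · show Complex.exp (2 * Real.pi * ((0 : ℝ) : ℂ) * Complex.I) =
      Complex.exp (2 * Real.pi * ((1 : ℝ) : ℂ) * Complex.I)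
    rw [Complex.ofReal_zero, Complex.ofReal_one, mul_zero, zero_mul, Complex.exp_zero, mul_one,
      Complex.exp_two_pi_mul_I]

theorem Chg.disc_curve {χ : ℂ → ℂ} (hχ : ContinuousOn χ (closedBall 0 1))
    (hp : ∀ w ∈ closedBall (0 : ℂ) 1, χ w ≠ p) {k : ℝ → ℂ} (hk : ContinuousOn k (Icc a b))
    (hk1 : ∀ t ∈ Icc a b, k t ∈ closedBall (0 : ℂ) 1) (hab : k a = k b) :
    Chg (fun t => χ (k t)) a b p 0 :=
  wnd2_curve hχ hp hk hk1 hab

end Pool.Agent.JH
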